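import Mathlib
import Pool.Agent.Helper937.Dya1

set_option autoImplicit false

open Set Topology Filter

namespace Pool.Agent.Helper937.Dya

open Pool.Agent.Helper937.Fact

/-- a compact Hausdorff image of a second countable space is metrizable -/
theorem metrizable_of_image {S K : Type*} [TopologicalSpace S] [SecondCountableTopology S]
    [TopologicalSpace K] [CompactSpace K] [T2Space K] (φ : S → K) (hφ : Continuous φ)
    (hs : Function.Surjective φ) : TopologicalSpace.MetrizableSpace K := by
  classical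
  let B := TopologicalSpace.countableBasis S
  have hBc : Countable B := (TopologicalSpace.countable_countableBasis S).to_subtype
  have hch : ∀ p : B × B, ∃ f : C(K, ℝ), Disjoint (closure (φ '' p.1.1)) (closure (φ '' p.2.1)) →
      (EqOn f 0 (closure (φ '' p.1.1)) ∧ EqOn f 1 (closure (φ '' p.2.1))) := by
    intro p
    by_cases h : Disjoint (closure (φ '' p.1.1)) (closure (φ '' p.2.1))
    · obtain ⟨f, h1, h2, _⟩ := exists_continuous_zero_one_of_isClosed isClosed_closure isClosed_closure h
      exact ⟨f, fun _ => ⟨h1, h2⟩⟩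
    · exact ⟨0, fun h' => absurd h' h⟩
  choose f hf using hch
  let F : K → (B × B → ℝ) := fun k p => f p k
  have hFc : Continuous F := continuous_pi fun p => (f p).continuous
  have hFi : Function.Injective F := by
    intro x y hxy
    by_contra hne
    obtain ⟨U, V, hU, hV, hxU, hyV, hUV⟩ := t2_separation hne
    obtain ⟨s, rfl⟩ := hs x
    obtain ⟨t, rfl⟩ := hs y
    -- closed neighbourhoods
    obtain ⟨U', hU', hU'c, hU'U⟩ := exists_mem_nhds_isClosed_subset (hU.mem_nhds hxU)
    obtain ⟨V', hV', hV'c, hV'V⟩ := exists_mem_nhds_isClosed_subset (hV.mem_nhds hyV)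
    have h1 : φ ⁻¹' (interior U') ∈ 𝓝 s :=
      (isOpen_interior.preimage hφ).mem_nhds (mem_interior_iff_mem_nhds.mpr hU')
    have h2 : φ ⁻¹' (interior V') ∈ 𝓝 t :=
      (isOpen_interior.preimage hφ).mem_nhds (mem_interior_iff_mem_nhds.mpr hV')
    obtain ⟨u, hu, hsu, huU⟩ := (TopologicalSpace.isBasis_countableBasis S).mem_nhds_iff.mp h1
    obtain ⟨v, hv, htv, hvV⟩ := (TopologicalSpace.isBasis_countableBasis S).mem_nhds_iff.mp h2
    have hcu : closure (φ '' u) ⊆ U' := closure_minimal
      (by rintro _ ⟨z, hz, rfl⟩; exact interior_subset (huU hz)) hU'c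
    have hcv : closure (φ '' v) ⊆ V' := closure_minimal
      (by rintro _ ⟨z, hz, rfl⟩; exact interior_subset (hvV hz)) hV'c
    have hd : Disjoint (closure (φ '' u)) (closure (φ '' v)) :=
      (hUV.mono hU'U hV'V).mono hcu hcv
    have h3 := hf (⟨u, hu⟩, ⟨v, hv⟩) hd
    have h4 : f (⟨u, hu⟩, ⟨v, hv⟩) (φ s) = 0 := h3.1 (subset_closure ⟨s, hsu, rfl⟩)
    have h5 : f (⟨u, hu⟩, ⟨v, hv⟩) (φ t) = 1 := h3.2 (subset_closure ⟨t, htv, rfl⟩)
    have h6 := congrFun hxy (⟨u, hu⟩, ⟨v, hv⟩)
    simp only [F] at h6
    rw [h4, h5] at h6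
    exact zero_ne_one h6
  have hemb : IsClosedEmbedding F := hFc.isClosedEmbedding hFi
  have hm : TopologicalSpace.MetrizableSpace (B × B → ℝ) :=
    TopologicalSpace.metrizableSpace_of_t3_secondCountable _
  exact hemb.isEmbedding.metrizableSpace

section main
variable {T S K : Type*} [TopologicalSpace S] [TopologicalSpace K] [CompactSpace K]
  (e : S → T → ℝ) (φ : S → K)

theorem metrizable_of_good [T2Space K] (he : IsInducing e) (hφ : Continuous φ)
    (hs : Function.Surjective φ) (A : Set T) (hA : A.Countable) (hgood : Good e φ A) :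
    TopologicalSpace.MetrizableSpace K := by
  have hfac := factor_of_good e φ he hφ A hgood
  have : Countable A := hA.to_subtype
  let eA : S → (A → ℝ) := fun s a => e s a.1
  let τ : TopologicalSpace S := TopologicalSpace.induced eA inferInstance
  have h2 : @SecondCountableTopology S τ := TopologicalSpace.secondCountableTopology_induced _ _ _
  have hc : @Continuous S K τ _ φ := by
    rw [@continuous_iff_continuousAt _ _ τ]
    intro s
    rw [ContinuousAt, tendsto_def]
    intro V hV
    obtain ⟨U, hUV, hU, hsU⟩ := mem_nhds_iff.mp hV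
    obtain ⟨G, b, hG, hsG, himg⟩ := hfac s U hU hsU
    rw [nhds_induced, mem_comap]
    refine ⟨⋂ t : {t // t ∈ G}, {x : A → ℝ | x ⟨t.1, hG t.2⟩ ∈ (b t.1 : Set ℝ)}, ?_, ?_⟩
    · rw [Filter.iInter_mem]
      intro t
      exact ((BB_open (b t.1)).preimage (continuous_apply _)).mem_nhds (hsG t.1 t.2)
    · intro z hz
      apply hUV
      apply himg
      intro t ht
      exact mem_iInter.mp hz ⟨t, ht⟩
  exact @metrizable_of_image S K τ h2 _ _ _ φ hc hs

end main

end Pool.Agent.Helper937.Dya
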