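import Mathlib
import Pool.Agent.Helper937.Dya3

set_option autoImplicit false

open Set Topology Filter Cardinal

namespace Pool.Agent.Helper937.Dya

open Pool.Agent.Helper937.Fact

theorem bounded_of_countable (D : Set W1) (hD : D.Countable) : ∃ α : W1, ∀ i ∈ D, i < α := by
  by_contra hcon
  push Not at hcon
  have h1 : (Set.univ : Set W1) ⊆ ⋃ d ∈ D, Set.Iic d := by
    intro a _
    obtain ⟨d, hd, had⟩ := hcon a
    exact mem_iUnion₂.mpr ⟨d, hd, had⟩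
  have h2 : (⋃ d ∈ D, Set.Iic d).Countable := by
    refine hD.biUnion fun d _ => ?_
    have : Set.Iic d = insert d (Set.Iio d) := by
      ext x; simp [le_iff_eq_or_lt]
    rw [this]
    exact (countable_W1 d).insert d
  have h3 : Countable W1 := Set.countable_univ_iff.mp (h2.mono h1)
  exact not_countable (α := W1) h3

theorem cover_of_families {X : Type} [TopologicalSpace X] (A : Set X) (V : W1 → Set X)
    (hV : ∀ g : Cp X, ∃ D : Set W1, D.Countable ∧ ∀ x ∈ A, ∀ ε > (0:ℝ), ∃ i ∈ D, x ∈ V i ∧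
      ∀ y ∈ V i, |g.1 y - g.1 x| < ε) :
    ∃ C : W1 → Set (Cp X), (⋃ α, C α) = Set.univ ∧ ∀ α, ACosmic A (C α) := by
  classical
  refine ⟨fun α => {g | ∀ x ∈ A, ∀ ε > (0:ℝ), ∃ i < α, x ∈ V i ∧ ∀ y ∈ V i, |g.1 y - g.1 x| < ε},
    ?_, ?_⟩
  · rw [Set.eq_univ_iff_forall]
    intro g
    obtain ⟨D, hD, hg⟩ := hV g
    obtain ⟨α, hα⟩ := bounded_of_countable D hD
    refine mem_iUnion.mpr ⟨α, fun x hx ε hε => ?_⟩
    obtain ⟨i, hi, h1, h2⟩ := hg x hx ε hε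
    exact ⟨i, hα i hi, h1, h2⟩
  · intro α
    have hc : Countable (Set.Iio α) := (countable_W1 α).to_subtype
    refine ⟨range (fun E : Finset (Set.Iio α × BB) =>
      {h : Cp X | ∀ p ∈ E, ∀ y ∈ V p.1.1, h.1 y ∈ (p.2 : Set ℝ)}), countable_range _, ?_⟩
    intro g hg G b hG hgb
    have hch : ∀ x : G, ∃ i : Set.Iio α, x.1 ∈ V i.1 ∧ ∀ y ∈ V i.1, g.1 y ∈ (b x.1 : Set ℝ) := by
      intro x
      obtain ⟨ε, hε, hball⟩ := Metric.isOpen_iff.mp (BB_open (b x.1)) _ (hgb x.1 x.2)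
      obtain ⟨i, hi, h1, h2⟩ := hg x.1 (hG x.2) ε hε
      refine ⟨⟨i, hi⟩, h1, fun y hy => hball ?_⟩
      rw [Metric.mem_ball, Real.dist_eq]
      exact h2 y hy
    choose i hi1 hi2 using hch
    refine ⟨_, mem_range_self (Finset.univ.image (fun x : G => (i x, b x.1))), ?_, ?_⟩
    · intro p hp y hy
      obtain ⟨x, _, rfl⟩ := Finset.mem_image.mp hp
      exact hi2 x y hy
    · intro h hh x hx
      exact hh (i ⟨x, hx⟩, b x) (Finset.mem_image.mpr ⟨⟨x, hx⟩, Finset.mem_univ _, rfl⟩) x (hi1 ⟨x, hx⟩)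

/-- families indexed by a type of size at most `ℵ₁` -/
theorem cover_of_families' {X : Type} [TopologicalSpace X] (A : Set X) (I : Type) (hI : #I ≤ ℵ₁)
    (V : I → Set X)
    (hV : ∀ g : Cp X, ∃ D : Set I, D.Countable ∧ ∀ x ∈ A, ∀ ε > (0:ℝ), ∃ i ∈ D, x ∈ V i ∧
      ∀ y ∈ V i, |g.1 y - g.1 x| < ε) :
    ∃ C : W1 → Set (Cp X), (⋃ α, C α) = Set.univ ∧ ∀ α, ACosmic A (C α) := by
  classical
  rw [← mk_W1] at hI
  obtain ⟨ι⟩ : Nonempty (I ↪ W1) := hI
  refine cover_of_families A (fun w => ⋃ (i : I) (_ : ι i = w), V i) fun g => ?_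
  obtain ⟨D, hD, hg⟩ := hV g
  refine ⟨ι '' D, hD.image ι, fun x hx ε hε => ?_⟩
  obtain ⟨i, hi, h1, h2⟩ := hg x hx ε hε
  have heq : (⋃ (j : I) (_ : ι j = ι i), V j) = V i := by
    ext z
    simp only [mem_iUnion, exists_prop]
    constructor
    · rintro ⟨j, hj, hz⟩
      rw [ι.injective hj] at hz
      exact hz
    · intro hz
      exact ⟨i, rfl, hz⟩
  refine ⟨ι i, mem_image_of_mem ι hi, ?_, ?_⟩
  · show x ∈ ⋃ (j : I) (_ : ι j = ι i), V j
    rw [heq]; exact h1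
  · intro y hy
    have hy' : y ∈ ⋃ (j : I) (_ : ι j = ι i), V j := hy
    rw [heq] at hy'
    exact h2 y hy'

/-- closure of weight at most `ℵ₁` -/
theorem cover_weight {X : Type} [TopologicalSpace X] [CompactSpace X] (A : Set X)
    (𝓑 : Set (Set (closure A))) (h𝓑 : TopologicalSpace.IsTopologicalBasis 𝓑) (hc : #𝓑 ≤ ℵ₁) :
    ∃ C : W1 → Set (Cp X), (⋃ α, C α) = Set.univ ∧ ∀ α, ACosmic A (C α) := by
  classical
  refine cover_of_families' A 𝓑 hc (fun b => Subtype.val '' b.1) fun g => ?_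
  have hcomp : CompactSpace (closure A) := isCompact_iff_compactSpace.mp isClosed_closure.isCompact
  have h1 : ∀ (n : ℕ) (x : closure A), ∃ b : 𝓑, x ∈ b.1 ∧
      ∀ y ∈ b.1, |g.1 y.1 - g.1 x.1| < 1 / (n + 1 : ℝ) / 2 := by
    intro n x
    have hgc : Continuous (fun y : closure A => g.1 y.1) := g.2.comp continuous_subtype_val
    have hopen : IsOpen {y : closure A | |g.1 y.1 - g.1 x.1| < 1 / (n + 1 : ℝ) / 2} :=
      isOpen_lt ((hgc.sub continuous_const).abs) continuous_const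
    obtain ⟨b, hb, hxb, hbs⟩ := h𝓑.exists_subset_of_mem_open (a := x)
      (by show |g.1 x.1 - g.1 x.1| < 1 / (n + 1 : ℝ) / 2
          rw [sub_self, abs_zero]; positivity) hopen
    exact ⟨⟨b, hb⟩, hxb, fun y hy => hbs hy⟩
  choose b hb1 hb2 using h1
  have h2 : ∀ n : ℕ, ∃ t : Finset (closure A), ⋃ x ∈ t, (b n x).1 = ⊤ := by
    intro n
    exact CompactSpace.elim_nhds_subcover _ fun x => (h𝓑.isOpen (b n x).2).mem_nhds (hb1 n x)
  choose t ht using h2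
  refine ⟨⋃ n : ℕ, (fun x => b n x) '' (t n : Set (closure A)), ?_, ?_⟩
  · exact countable_iUnion fun n => (Finset.countable_toSet (t n)).image _
  · intro x hx ε hε
    obtain ⟨n, hn⟩ := exists_nat_one_div_lt hε
    have hx' : (⟨x, subset_closure hx⟩ : closure A) ∈ ⋃ y ∈ t n, (b n y).1 := by
      rw [ht n]; trivial
    simp only [mem_iUnion, exists_prop] at hx'
    obtain ⟨y, hy, hxy⟩ := hx'
    refine ⟨b n y, mem_iUnion.mpr ⟨n, y, hy, rfl⟩, ⟨_, hxy, rfl⟩, ?_⟩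
    rintro _ ⟨z, hz, rfl⟩
    have e1 := hb2 n y z hz
    have e2 := hb2 n y _ hxy
    have e3 : |g.1 z.1 - g.1 x| ≤ |g.1 z.1 - g.1 y.1| + |g.1 x - g.1 y.1| := by
      have : g.1 z.1 - g.1 x = (g.1 z.1 - g.1 y.1) - (g.1 x - g.1 y.1) := by ring
      rw [this]
      exact abs_sub _ _
    calc |g.1 z.1 - g.1 x| ≤ |g.1 z.1 - g.1 y.1| + |g.1 x - g.1 y.1| := e3
      _ < 1 / (n + 1 : ℝ) / 2 + 1 / (n + 1 : ℝ) / 2 := add_lt_add e1 e2
      _ = 1 / (n + 1 : ℝ) := by ring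
      _ < ε := hn

/-- compact Hausdorff spaces in which closures of sets of size `≤ ℵ₁` have weight `≤ ℵ₁` -/
theorem main_weight (X : Type) [TopologicalSpace X] [CompactSpace X] [T2Space X]
    (hX : ∀ A : Set X, #A ≤ ℵ₁ →
      ∃ 𝓑 : Set (Set (closure A)), TopologicalSpace.IsTopologicalBasis 𝓑 ∧ #𝓑 ≤ ℵ₁)
    (Y : Type) [TopologicalSpace Y] [CompactSpace Y] [T2Space Y] (φ : Cp X → Y)
    (hφ : Continuous φ) (hs : Function.Surjective φ) : TopologicalSpace.MetrizableSpace Y := by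
  refine main_cover X (fun A hA => ?_) Y φ hφ hs
  obtain ⟨𝓑, h1, h2⟩ := hX A hA
  exact cover_weight A 𝓑 h1 h2

end Pool.Agent.Helper937.Dya
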