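import Mathlib
import Pool.Agent.Helper937.Dya4

set_option autoImplicit false

open Set Topology Filter Cardinal

namespace Pool.Agent.Helper937.Dya

open Pool.Agent.Helper937.Fact

theorem exists_cofinal {X : Type} [LinearOrder X] [TopologicalSpace X] [OrderTopology X]
    [CompactSpace X] (P : Set X)
    (hP : ∀ s ∈ closure P, s ∉ P → (𝓝 s).IsCountablyGenerated) :
    ∃ S ⊆ P, S.Countable ∧ ∀ x ∈ P, ∃ a ∈ S, x ≤ a := by
  rcases P.eq_empty_or_nonempty with rfl | hne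
  · exact ⟨∅, le_refl _, countable_empty, fun x hx => absurd hx (notMem_empty x)⟩
  obtain ⟨s, hs1, hs2⟩ := (isClosed_closure (s := P)).isCompact.exists_isGreatest hne.closure
  by_cases hs : s ∈ P
  · exact ⟨{s}, singleton_subset_iff.mpr hs, countable_singleton s,
      fun x hx => ⟨s, mem_singleton s, hs2 (subset_closure hx)⟩⟩
  have := hP s hs1 hs
  obtain ⟨V, hV⟩ := (𝓝 s).exists_antitone_basis
  have hch : ∀ n : ℕ, ∃ a ∈ P, a ∈ V n := by
    intro n
    obtain ⟨a, ha1, ha2⟩ := mem_closure_iff_nhds.mp hs1 (V n) (hV.1.mem_of_mem trivial)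
    exact ⟨a, ha2, ha1⟩
  choose a ha1 ha2 using hch
  refine ⟨range a, range_subset_iff.mpr ha1, countable_range a, fun x hx => ?_⟩
  have hlt : x < s := lt_of_le_of_ne (hs2 (subset_closure hx)) (fun h => hs (h ▸ hx))
  obtain ⟨n, -, hn⟩ := hV.1.mem_iff.mp (Ioi_mem_nhds hlt)
  exact ⟨a n, mem_range_self n, (hn (ha2 n)).le⟩

theorem exists_coinitial {X : Type} [LinearOrder X] [TopologicalSpace X] [OrderTopology X]
    [CompactSpace X] (P : Set X)
    (hP : ∀ s ∈ closure P, s ∉ P → (𝓝 s).IsCountablyGenerated) :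
    ∃ S ⊆ P, S.Countable ∧ ∀ x ∈ P, ∃ a ∈ S, a ≤ x := by
  rcases P.eq_empty_or_nonempty with rfl | hne
  · exact ⟨∅, le_refl _, countable_empty, fun x hx => absurd hx (notMem_empty x)⟩
  obtain ⟨s, hs1, hs2⟩ := (isClosed_closure (s := P)).isCompact.exists_isLeast hne.closure
  by_cases hs : s ∈ P
  · exact ⟨{s}, singleton_subset_iff.mpr hs, countable_singleton s,
      fun x hx => ⟨s, mem_singleton s, hs2 (subset_closure hx)⟩⟩
  have := hP s hs1 hs
  obtain ⟨V, hV⟩ := (𝓝 s).exists_antitone_basis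
  have hch : ∀ n : ℕ, ∃ a ∈ P, a ∈ V n := by
    intro n
    obtain ⟨a, ha1, ha2⟩ := mem_closure_iff_nhds.mp hs1 (V n) (hV.1.mem_of_mem trivial)
    exact ⟨a, ha2, ha1⟩
  choose a ha1 ha2 using hch
  refine ⟨range a, range_subset_iff.mpr ha1, countable_range a, fun x hx => ?_⟩
  have hlt : s < x := lt_of_le_of_ne (hs2 (subset_closure hx)) (fun h => hs (h ▸ hx))
  obtain ⟨n, -, hn⟩ := hV.1.mem_iff.mp (Iio_mem_nhds hlt)
  exact ⟨a n, mem_range_self n, (hn (ha2 n)).le⟩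

theorem cover_lots {X : Type} [LinearOrder X] [TopologicalSpace X] [OrderTopology X]
    [CompactSpace X] (A : Set X) (hA : #A ≤ ℵ₁) (hE : ∀ s ∉ A, (𝓝 s).IsCountablyGenerated) :
    ∃ C : W1 → Set (Cp X), (⋃ α, C α) = Set.univ ∧ ∀ α, ACosmic A (C α) := by
  classical
  have hI : #(A × A) ≤ ℵ₁ := by
    rw [Cardinal.mk_prod, Cardinal.lift_id]
    exact (mul_le_mul' hA hA).trans (Cardinal.mul_eq_self (Cardinal.aleph0_le_aleph 1)).le
  refine cover_of_families' A (A × A) hI (fun p => Set.Icc p.1.1 p.2.1) fun g => ?_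
  -- neighbourhoods
  have h1 : ∀ (n : ℕ) (y : X), ∃ u v : X, Set.Icc u v ∈ 𝓝 y ∧
      ∀ z ∈ Set.Icc u v, |g.1 z - g.1 y| < 1 / (n + 1 : ℝ) / 2 := by
    intro n y
    have hopen : {z : X | |g.1 z - g.1 y| < 1 / (n + 1 : ℝ) / 2} ∈ 𝓝 y := by
      refine (isOpen_lt ((g.2.sub continuous_const).abs) continuous_const).mem_nhds ?_
      show |g.1 y - g.1 y| < 1 / (n + 1 : ℝ) / 2
      rw [sub_self, abs_zero]; positivity
    obtain ⟨u, v, -, h2, h3⟩ := exists_Icc_mem_subset_of_mem_nhds hopen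
    exact ⟨u, v, h2, fun z hz => h3 hz⟩
  choose u v huv hosc using h1
  have h2 : ∀ n : ℕ, ∃ t : Finset X, ⋃ x ∈ t, Set.Icc (u n x) (v n x) = ⊤ := fun n =>
    CompactSpace.elim_nhds_subcover _ fun x => huv n x
  choose t ht using h2
  have hP : ∀ (n : ℕ) (y : X), ∀ s ∈ closure (A ∩ Set.Icc (u n y) (v n y)),
      s ∉ A ∩ Set.Icc (u n y) (v n y) → (𝓝 s).IsCountablyGenerated := by
    intro n y s hs hs'
    apply hE
    intro hsA
    exact hs' ⟨hsA, isClosed_Icc.closure_subset ((closure_mono inter_subset_right) hs)⟩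
  choose S hSP hSc hS using fun (n : ℕ) (y : X) => exists_cofinal _ (hP n y)
  choose R hRP hRc hR using fun (n : ℕ) (y : X) => exists_coinitial _ (hP n y)
  refine ⟨⋃ n : ℕ, ⋃ y ∈ t n, {p : A × A | p.1.1 ∈ R n y ∧ p.2.1 ∈ S n y}, ?_, ?_⟩
  · refine countable_iUnion fun n => ?_
    refine (Finset.countable_toSet (t n)).biUnion fun y _ => ?_
    have hc : {p : A × A | p.1.1 ∈ R n y ∧ p.2.1 ∈ S n y} =
        (Subtype.val ⁻¹' (R n y)) ×ˢ (Subtype.val ⁻¹' (S n y)) := by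
      ext p; rfl
    rw [hc]
    exact ((hRc n y).preimage Subtype.val_injective).prod ((hSc n y).preimage Subtype.val_injective)
  · intro x hx ε hε
    obtain ⟨n, hn⟩ := exists_nat_one_div_lt hε
    have hx' : x ∈ ⋃ y ∈ t n, Set.Icc (u n y) (v n y) := by
      rw [ht n]; trivial
    simp only [mem_iUnion, exists_prop] at hx'
    obtain ⟨y, hy, hxy⟩ := hx'
    obtain ⟨a, haR, hax⟩ := hR n y x ⟨hx, hxy⟩
    obtain ⟨b, hbS, hxb⟩ := hS n y x ⟨hx, hxy⟩
    have haA := hRP n y haR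
    have hbA := hSP n y hbS
    refine ⟨(⟨a, haA.1⟩, ⟨b, hbA.1⟩), mem_iUnion.mpr ⟨n, mem_iUnion₂.mpr ⟨y, hy, haR, hbS⟩⟩,
      ⟨hax, hxb⟩, ?_⟩
    intro z hz
    have hz' : z ∈ Set.Icc (u n y) (v n y) := ⟨haA.2.1.trans hz.1, hz.2.trans hbA.2.2⟩
    have e1 := hosc n y z hz'
    have e2 := hosc n y x hxy
    have e3 : |g.1 z - g.1 x| ≤ |g.1 z - g.1 y| + |g.1 x - g.1 y| := by
      have : g.1 z - g.1 x = (g.1 z - g.1 y) - (g.1 x - g.1 y) := by ring
      rw [this]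
      exact abs_sub _ _
    calc |g.1 z - g.1 x| ≤ |g.1 z - g.1 y| + |g.1 x - g.1 y| := e3
      _ < 1 / (n + 1 : ℝ) / 2 + 1 / (n + 1 : ℝ) / 2 := add_lt_add e1 e2
      _ = 1 / (n + 1 : ℝ) := by ring
      _ < ε := hn

/-- compact linearly ordered spaces with at most `ℵ₁` points of uncountable character -/
theorem main_lots (X : Type) [LinearOrder X] [TopologicalSpace X] [OrderTopology X]
    [CompactSpace X] (hX : #{x : X | ¬ (𝓝 x).IsCountablyGenerated} ≤ ℵ₁)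
    (Y : Type) [TopologicalSpace Y] [CompactSpace Y] [T2Space Y] (φ : Cp X → Y)
    (hφ : Continuous φ) (hs : Function.Surjective φ) : TopologicalSpace.MetrizableSpace Y := by
  refine main_cover X (fun A hA => ?_) Y φ hφ hs
  have hc : #(A ∪ {x : X | ¬ (𝓝 x).IsCountablyGenerated} : Set X) ≤ ℵ₁ :=
    (Cardinal.mk_union_le _ _).trans (Cardinal.add_le_of_le (Cardinal.aleph0_le_aleph 1) hA hX)
  obtain ⟨C, h1, h2⟩ := cover_lots (A ∪ {x : X | ¬ (𝓝 x).IsCountablyGenerated}) hc (by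
    intro s hs
    by_contra h
    exact hs (Or.inr h))
  exact ⟨C, h1, fun α => (h2 α).mono subset_union_left⟩

end Pool.Agent.Helper937.Dya
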