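import Mathlib
import Pool.Agent.Helper937.Dya5

set_option autoImplicit false

open Set Topology Filter Cardinal

namespace Pool.Agent.Helper937.Dya

open Pool.Agent.Helper937.Fact

section order
variable {X : Type} [LinearOrder X]

/-- `P` has a countable cofinal subset -/
def CofCtb (P : Set X) : Prop := ∃ S ⊆ P, S.Countable ∧ ∀ x ∈ P, ∃ a ∈ S, x ≤ a

/-- `P` has a countable coinitial subset -/
def CoiCtb (P : Set X) : Prop := ∃ S ⊆ P, S.Countable ∧ ∀ x ∈ P, ∃ a ∈ S, a ≤ x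

theorem CofCtb.of_max {P : Set X} {s : X} (hs : s ∈ P) (h : ∀ x ∈ P, x ≤ s) : CofCtb P :=
  ⟨{s}, singleton_subset_iff.mpr hs, countable_singleton s, fun x hx => ⟨s, mem_singleton s, h x hx⟩⟩

theorem CoiCtb.of_min {P : Set X} {s : X} (hs : s ∈ P) (h : ∀ x ∈ P, s ≤ x) : CoiCtb P :=
  ⟨{s}, singleton_subset_iff.mpr hs, countable_singleton s, fun x hx => ⟨s, mem_singleton s, h x hx⟩⟩

end order

section top
variable {X : Type} [LinearOrder X] [TopologicalSpace X] [OrderTopology X]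

/-- points that are limits from the left with uncountable cofinality, and whose right side is
countable -/
def QL (A : Set X) : Set X :=
  {s | s ∈ closure (A ∩ Iio s) ∧ ¬ CofCtb (A ∩ Iio s) ∧ CoiCtb (A ∩ Ioi s)}

def QR (A : Set X) : Set X :=
  {s | s ∈ closure (A ∩ Ioi s) ∧ ¬ CoiCtb (A ∩ Ioi s) ∧ CofCtb (A ∩ Iio s)}

/-- the double gaps of uncountable type of `A` -/
def JJ (A : Set X) : Set (X × X) :=
  {p | p.1 < p.2 ∧ Ioo p.1 p.2 ∩ A = ∅ ∧ p.1 ∉ A ∧ p.2 ∉ A ∧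
    p.1 ∈ closure (A ∩ Iio p.1) ∧ p.2 ∈ closure (A ∩ Ioi p.2) ∧
    ¬ CofCtb (A ∩ Iio p.1) ∧ ¬ CoiCtb (A ∩ Ioi p.2)}

/-- a set of size at most `ℵ₁` is an increasing union of countable sets that catch all its
countable subsets -/
theorem exists_filtration (A : Set X) (hA : #A ≤ ℵ₁) : ∃ F : W1 → Set X, (∀ α, (F α).Countable) ∧
    (∀ α, F α ⊆ A) ∧ ∀ D ⊆ A, D.Countable → ∃ α, D ⊆ F α := by
  rw [← mk_W1] at hA
  obtain ⟨ι⟩ : Nonempty (A ↪ W1) := hA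
  refine ⟨fun α => {x | ∃ h : x ∈ A, ι ⟨x, h⟩ < α}, fun α => ?_, fun α x hx => hx.1, ?_⟩
  · have : {x | ∃ h : x ∈ A, ι ⟨x, h⟩ < α} ⊆ Subtype.val '' (ι ⁻¹' (Set.Iio α)) := by
      rintro x ⟨h, hx⟩
      exact ⟨⟨x, h⟩, hx, rfl⟩
    exact (((countable_W1 α).preimage ι.injective).image _).mono this
  · intro D hDA hD
    have hc : (ι '' (Subtype.val ⁻¹' D)).Countable :=
      (hD.preimage Subtype.val_injective).image _
    obtain ⟨α, hα⟩ := bounded_of_countable _ hc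
    exact ⟨α, fun x hx => ⟨hDA hx, hα _ ⟨⟨x, hDA hx⟩, hx, rfl⟩⟩⟩

theorem card_QL (A : Set X) (hA : #A ≤ ℵ₁) : #(QL A) ≤ ℵ₁ := by
  obtain ⟨F, hFc, hFA, hF⟩ := exists_filtration A hA
  have hch : ∀ s : QL A, ∃ (α : W1) (x : A), x.1 < s.1 ∧ (∀ a ∈ F α, a < s.1 → a < x.1) ∧
      ∀ a ∈ A, s.1 < a → ∃ d ∈ F α, s.1 < d ∧ d ≤ a := by
    rintro ⟨s, hs1, hs2, D, hD1, hD2, hD3⟩
    obtain ⟨α, hα⟩ := hF D (fun d hd => (hD1 hd).1) hD2
    have hx : ∃ x ∈ A ∩ Iio s, ∀ a ∈ F α ∩ Iio s, a < x := by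
      by_contra hcon
      push Not at hcon
      exact hs2 ⟨F α ∩ Iio s, fun a ha => ⟨hFA α ha.1, ha.2⟩, (hFc α).mono inter_subset_left,
        fun x hx => by
          obtain ⟨a, ha, hax⟩ := hcon x hx
          exact ⟨a, ha, hax⟩⟩
    obtain ⟨x, hx, hx'⟩ := hx
    refine ⟨α, ⟨x, hx.1⟩, hx.2, fun a ha has => hx' a ⟨ha, has⟩, fun a ha hsa => ?_⟩
    obtain ⟨d, hd, hda⟩ := hD3 a ⟨ha, hsa⟩
    exact ⟨d, hα hd, (hD1 hd).2, hda⟩
  choose α x hx1 hx2 hx3 using hch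
  have key : ∀ s t : QL A, s.1 < t.1 → α s = α t → x s = x t → False := by
    intro s t hst h1 h2
    obtain ⟨a, ha1, ha2⟩ := mem_closure_iff_nhds.mp t.2.1 (Ioi s.1) (Ioi_mem_nhds hst)
    obtain ⟨d, hd1, hd2, hd3⟩ := hx3 s a ha2.1 ha1
    rw [h1] at hd1
    have h3 := hx2 t d hd1 (lt_of_le_of_lt hd3 ha2.2)
    rw [← h2] at h3
    exact lt_irrefl _ ((h3.trans (hx1 s)).trans hd2)
  have hinj : Function.Injective (fun s : QL A => (α s, x s)) := by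
    intro s t hst
    simp only [Prod.mk.injEq] at hst
    rcases lt_trichotomy s.1 t.1 with h | h | h
    · exact (key s t h hst.1 hst.2).elim
    · exact Subtype.ext h
    · exact (key t s h hst.1.symm hst.2.symm).elim
  refine (Cardinal.mk_le_of_injective hinj).trans ?_
  rw [Cardinal.mk_prod, Cardinal.lift_id, mk_W1, Cardinal.lift_id]
  exact (mul_le_mul' le_rfl hA).trans (Cardinal.mul_eq_self (Cardinal.aleph0_le_aleph 1)).le

theorem card_QR (A : Set X) (hA : #A ≤ ℵ₁) : #(QR A) ≤ ℵ₁ := by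
  obtain ⟨F, hFc, hFA, hF⟩ := exists_filtration A hA
  have hch : ∀ s : QR A, ∃ (α : W1) (x : A), s.1 < x.1 ∧ (∀ a ∈ F α, s.1 < a → x.1 < a) ∧
      ∀ a ∈ A, a < s.1 → ∃ d ∈ F α, d < s.1 ∧ a ≤ d := by
    rintro ⟨s, hs1, hs2, D, hD1, hD2, hD3⟩
    obtain ⟨α, hα⟩ := hF D (fun d hd => (hD1 hd).1) hD2
    have hx : ∃ x ∈ A ∩ Ioi s, ∀ a ∈ F α ∩ Ioi s, x < a := by
      by_contra hcon
      push Not at hcon
      exact hs2 ⟨F α ∩ Ioi s, fun a ha => ⟨hFA α ha.1, ha.2⟩, (hFc α).mono inter_subset_left,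
        fun x hx => by
          obtain ⟨a, ha, hax⟩ := hcon x hx
          exact ⟨a, ha, hax⟩⟩
    obtain ⟨x, hx, hx'⟩ := hx
    refine ⟨α, ⟨x, hx.1⟩, hx.2, fun a ha has => hx' a ⟨ha, has⟩, fun a ha hsa => ?_⟩
    obtain ⟨d, hd, hda⟩ := hD3 a ⟨ha, hsa⟩
    exact ⟨d, hα hd, (hD1 hd).2, hda⟩
  choose α x hx1 hx2 hx3 using hch
  have key : ∀ s t : QR A, s.1 < t.1 → α s = α t → x s = x t → False := by
    intro s t hst h1 h2
    obtain ⟨a, ha1, ha2⟩ := mem_closure_iff_nhds.mp s.2.1 (Iio t.1) (Iio_mem_nhds hst)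
    obtain ⟨d, hd1, hd2, hd3⟩ := hx3 t a ha2.1 ha1
    rw [← h1] at hd1
    have h3 := hx2 s d hd1 (lt_of_lt_of_le ha2.2 hd3)
    rw [h2] at h3
    exact lt_irrefl _ (((hx1 t).trans h3).trans hd2)
  have hinj : Function.Injective (fun s : QR A => (α s, x s)) := by
    intro s t hst
    simp only [Prod.mk.injEq] at hst
    rcases lt_trichotomy s.1 t.1 with h | h | h
    · exact (key s t h hst.1 hst.2).elim
    · exact Subtype.ext h
    · exact (key t s h hst.1.symm hst.2.symm).elim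
  refine (Cardinal.mk_le_of_injective hinj).trans ?_
  rw [Cardinal.mk_prod, Cardinal.lift_id, mk_W1, Cardinal.lift_id]
  exact (mul_le_mul' le_rfl hA).trans (Cardinal.mul_eq_self (Cardinal.aleph0_le_aleph 1)).le

end top

end Pool.Agent.Helper937.Dya
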