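import Mathlib
import Pool.Agent.Helper937.Dya6

set_option autoImplicit false

open Set Topology Filter Cardinal

namespace Pool.Agent.Helper937.Dya

open Pool.Agent.Helper937.Fact

section top
variable {X : Type} [LinearOrder X] [TopologicalSpace X] [OrderTopology X]

/-- the enlarged set -/
def Big (A : Set X) : Set X := A ∪ (QL A ∪ QR A) ∪ (Prod.fst '' JJ A ∪ Prod.snd '' JJ A)

theorem card_Big (A : Set X) (hA : #A ≤ ℵ₁) (hJ : #(JJ A) ≤ ℵ₁) : #(Big A) ≤ ℵ₁ := by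
  have hal := Cardinal.aleph0_le_aleph 1
  refine (Cardinal.mk_union_le _ _).trans (Cardinal.add_le_of_le hal ?_ ?_)
  · refine (Cardinal.mk_union_le _ _).trans (Cardinal.add_le_of_le hal hA ?_)
    exact (Cardinal.mk_union_le _ _).trans (Cardinal.add_le_of_le hal (card_QL A hA) (card_QR A hA))
  · refine (Cardinal.mk_union_le _ _).trans (Cardinal.add_le_of_le hal ?_ ?_)
    · exact Cardinal.mk_image_le.trans hJ
    · exact Cardinal.mk_image_le.trans hJ

theorem subset_Big (A : Set X) : A ⊆ Big A := fun _ hx => Or.inl (Or.inl hx)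

theorem Big_subset (A : Set X) : Big A ⊆ closure A := by
  rintro x ((hx | hx | hx) | (⟨p, hp, rfl⟩ | ⟨p, hp, rfl⟩))
  · exact subset_closure hx
  · exact closure_mono inter_subset_left hx.1
  · exact closure_mono inter_subset_left hx.1
  · exact closure_mono inter_subset_left hp.2.2.2.2.1
  · exact closure_mono inter_subset_left hp.2.2.2.2.2.1

variable [CompactSpace X]

theorem extend_right (A : Set X) (g : X → ℝ) (hg : Continuous g) (u v y : X) (ε : ℝ)
    (hosc : ∀ z ∈ Icc u v, |g z - g y| < ε) :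
    ∃ v', v ≤ v' ∧ (∀ z ∈ Icc u v', |g z - g y| < ε) ∧ CofCtb (Big A ∩ Icc u v') := by
  by_cases hcof : CofCtb (Big A ∩ Icc u v)
  · exact ⟨v, le_refl v, hosc, hcof⟩
  have hne : (Big A ∩ Icc u v).Nonempty := by
    by_contra h
    rw [not_nonempty_iff_eq_empty] at h
    apply hcof
    rw [h]
    exact ⟨∅, le_refl _, countable_empty, fun x hx => absurd hx (notMem_empty x)⟩
  obtain ⟨s, hs1, hs2⟩ := (isClosed_closure (s := Big A ∩ Icc u v)).isCompact.exists_isGreatest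
    hne.closure
  have hsP : s ∉ Big A ∩ Icc u v := fun h => hcof (CofCtb.of_max h fun x hx => hs2 (subset_closure hx))
  have hsI : s ∈ Icc u v := isClosed_Icc.closure_subset (closure_mono inter_subset_right hs1)
  have hsA : s ∉ Big A := fun h => hsP ⟨h, hsI⟩
  have hlt : ∀ p ∈ Big A ∩ Icc u v, p < s := fun p hp =>
    lt_of_le_of_ne (hs2 (subset_closure hp)) (fun h => hsP (h ▸ hp))
  -- claim 1
  have c1 : s ∈ closure (A ∩ Iio s) := by
    have h1 : Big A ∩ Icc u v ⊆ closure (A ∩ Iio s) := by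
      intro p hp
      have := isOpen_Iio.inter_closure (t := A) ⟨hlt p hp, Big_subset A hp.1⟩
      rwa [inter_comm] at this
    exact isClosed_closure.closure_subset (closure_mono h1 hs1)
  -- claim 2
  have c2 : ¬ CofCtb (A ∩ Iio s) := by
    rintro ⟨D, hD1, hD2, hD3⟩
    apply hcof
    have hch : ∀ d : D, ∃ p ∈ Big A ∩ Icc u v, d.1 < p := by
      intro d
      obtain ⟨p, hp1, hp2⟩ := mem_closure_iff_nhds.mp hs1 (Ioi d.1) (Ioi_mem_nhds (hD1 d.2).2)
      exact ⟨p, hp2, hp1⟩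
    choose p hp1 hp2 using hch
    have : Countable D := hD2.to_subtype
    refine ⟨range p, range_subset_iff.mpr hp1, countable_range p, fun x hx => ?_⟩
    obtain ⟨a, ha1, ha2⟩ := mem_closure_iff_nhds.mp c1 (Ioi x) (Ioi_mem_nhds (hlt x hx))
    obtain ⟨d, hd, had⟩ := hD3 a ha2
    exact ⟨p ⟨d, hd⟩, mem_range_self _, ((lt_of_lt_of_le ha1 had).trans (hp2 ⟨d, hd⟩)).le⟩
  have c3 : ¬ CoiCtb (A ∩ Ioi s) := by
    intro h
    exact hsA (Or.inl (Or.inr (Or.inl ⟨c1, c2, h⟩)))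
  have hne3 : (A ∩ Ioi s).Nonempty := by
    by_contra h
    rw [not_nonempty_iff_eq_empty] at h
    apply c3
    rw [h]
    exact ⟨∅, le_refl _, countable_empty, fun x hx => absurd hx (notMem_empty x)⟩
  -- claim 3
  have c4 : s ∈ closure (A ∩ Ioi s) := by
    by_contra hcon
    obtain ⟨t, ht1, ht2⟩ := (isClosed_closure (s := A ∩ Ioi s)).isCompact.exists_isLeast
      hne3.closure
    have hst' : s ≤ t := isClosed_Ici.closure_subset
      (closure_mono (fun x hx => le_of_lt hx.2 : A ∩ Ioi s ⊆ Ici s) ht1)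
    have hst : s < t := lt_of_le_of_ne hst' (fun h => hcon (h ▸ ht1))
    have hgap : Ioo s t ∩ A = ∅ := by
      rw [Set.eq_empty_iff_forall_notMem]
      rintro a ⟨⟨h1, h2⟩, h3⟩
      exact not_lt.mpr (ht2 (subset_closure ⟨h3, h1⟩)) h2
    have htA : t ∉ A := by
      intro h
      exact c3 (CoiCtb.of_min ⟨h, hst⟩ fun x hx => ht2 (subset_closure hx))
    have heq : A ∩ Ioi t = A ∩ Ioi s := by
      ext a
      constructor
      · rintro ⟨h1, h2⟩; exact ⟨h1, lt_trans hst h2⟩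
      · rintro ⟨h1, h2⟩
        refine ⟨h1, lt_of_le_of_ne (ht2 (subset_closure ⟨h1, h2⟩)) (fun h => htA (h ▸ h1))⟩
    have hJ : (s, t) ∈ JJ A := by
      refine ⟨hst, hgap, fun h => hsA (subset_Big A h), htA, c1, ?_, c2, ?_⟩
      · show t ∈ closure (A ∩ Ioi t)
        rw [heq]; exact ht1
      · show ¬ CoiCtb (A ∩ Ioi t)
        rw [heq]; exact c3
    exact hsA (Or.inr (Or.inl ⟨(s, t), hJ, rfl⟩))
  -- claim 4
  have c5 : s = v := by
    by_contra hsv
    have hsv' : s < v := lt_of_le_of_ne hsI.2 hsv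
    obtain ⟨a, ha1, ha2⟩ := mem_closure_iff_nhds.mp c4 (Iio v) (Iio_mem_nhds hsv')
    have := hlt a ⟨subset_Big A ha2.1, hsI.1.trans (le_of_lt ha2.2), le_of_lt ha1⟩
    exact lt_asymm this ha2.2
  -- claim 5
  have c6 : ∀ n : ℕ, ∃ a ∈ A ∩ Ioi s, ∀ x ∈ Icc s a, |g x - g s| < 1 / (n + 1 : ℝ) := by
    intro n
    have hopen : {z : X | |g z - g s| < 1 / (n + 1 : ℝ)} ∈ 𝓝 s := by
      refine (isOpen_lt ((hg.sub continuous_const).abs) continuous_const).mem_nhds ?_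
      show |g s - g s| < 1 / (n + 1 : ℝ)
      rw [sub_self, abs_zero]; positivity
    obtain ⟨b, c, hbc, h2, h3⟩ := exists_Icc_mem_subset_of_mem_nhds hopen
    obtain ⟨a, ha1, ha2⟩ := mem_closure_iff_nhds.mp c4 _ h2
    exact ⟨a, ha2, fun x hx => h3 ⟨hbc.1.trans hx.1, hx.2.trans ha1.2⟩⟩
  choose a ha1 ha2 using c6
  obtain ⟨v', hv'1, hv'2⟩ : ∃ v' ∈ A ∩ Ioi s, ∀ n, v' < a n := by
    by_contra hcon
    push Not at hcon
    apply c3
    refine ⟨range a, range_subset_iff.mpr ha1, countable_range a, fun x hx => ?_⟩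
    obtain ⟨n, hn⟩ := hcon x hx
    exact ⟨a n, mem_range_self n, hn⟩
  have hconst : ∀ x ∈ Icc s v', g x = g s := by
    intro x hx
    have h1 : ∀ n : ℕ, |g x - g s| < 1 / (n + 1 : ℝ) := fun n =>
      ha2 n x ⟨hx.1, hx.2.trans (hv'2 n).le⟩
    by_contra hne'
    have h2 : 0 < |g x - g s| := abs_pos.mpr (sub_ne_zero.mpr hne')
    obtain ⟨n, hn⟩ := exists_nat_one_div_lt h2
    exact lt_asymm hn (h1 n)
  refine ⟨v', c5 ▸ (le_of_lt hv'1.2), fun z hz => ?_, ?_⟩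
  · rcases le_total z s with hzs | hzs
    · exact hosc z ⟨hz.1, c5 ▸ hzs⟩
    · rw [hconst z ⟨hzs, hz.2⟩]
      exact hosc s hsI
  · refine CofCtb.of_max (s := v') ⟨subset_Big A hv'1.1, hsI.1.trans (le_of_lt hv'1.2), le_refl _⟩ ?_
    rintro x ⟨_, hx⟩
    exact hx.2

theorem extend_left (A : Set X) (g : X → ℝ) (hg : Continuous g) (u v y : X) (ε : ℝ)
    (hosc : ∀ z ∈ Icc u v, |g z - g y| < ε) (hcf : CofCtb (Big A ∩ Icc u v)) :
    ∃ u', u' ≤ u ∧ (∀ z ∈ Icc u' v, |g z - g y| < ε) ∧ CofCtb (Big A ∩ Icc u' v) ∧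
      CoiCtb (Big A ∩ Icc u' v) := by
  by_cases hcof : CoiCtb (Big A ∩ Icc u v)
  · exact ⟨u, le_refl u, hosc, hcf, hcof⟩
  have hne : (Big A ∩ Icc u v).Nonempty := by
    by_contra h
    rw [not_nonempty_iff_eq_empty] at h
    apply hcof
    rw [h]
    exact ⟨∅, le_refl _, countable_empty, fun x hx => absurd hx (notMem_empty x)⟩
  obtain ⟨s, hs1, hs2⟩ := (isClosed_closure (s := Big A ∩ Icc u v)).isCompact.exists_isLeast
    hne.closure
  have hsP : s ∉ Big A ∩ Icc u v := fun h => hcof (CoiCtb.of_min h fun x hx => hs2 (subset_closure hx))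
  have hsI : s ∈ Icc u v := isClosed_Icc.closure_subset (closure_mono inter_subset_right hs1)
  have hsA : s ∉ Big A := fun h => hsP ⟨h, hsI⟩
  have hlt : ∀ p ∈ Big A ∩ Icc u v, s < p := fun p hp =>
    lt_of_le_of_ne (hs2 (subset_closure hp)) (fun h => hsP (h ▸ hp))
  -- claim 1
  have c1 : s ∈ closure (A ∩ Ioi s) := by
    have h1 : Big A ∩ Icc u v ⊆ closure (A ∩ Ioi s) := by
      intro p hp
      have := isOpen_Ioi.inter_closure (t := A) ⟨hlt p hp, Big_subset A hp.1⟩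
      rwa [inter_comm] at this
    exact isClosed_closure.closure_subset (closure_mono h1 hs1)
  -- claim 2
  have c2 : ¬ CoiCtb (A ∩ Ioi s) := by
    rintro ⟨D, hD1, hD2, hD3⟩
    apply hcof
    have hch : ∀ d : D, ∃ p ∈ Big A ∩ Icc u v, p < d.1 := by
      intro d
      obtain ⟨p, hp1, hp2⟩ := mem_closure_iff_nhds.mp hs1 (Iio d.1) (Iio_mem_nhds (hD1 d.2).2)
      exact ⟨p, hp2, hp1⟩
    choose p hp1 hp2 using hch
    have : Countable D := hD2.to_subtype
    refine ⟨range p, range_subset_iff.mpr hp1, countable_range p, fun x hx => ?_⟩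
    obtain ⟨a, ha1, ha2⟩ := mem_closure_iff_nhds.mp c1 (Iio x) (Iio_mem_nhds (hlt x hx))
    obtain ⟨d, hd, had⟩ := hD3 a ha2
    exact ⟨p ⟨d, hd⟩, mem_range_self _, ((hp2 ⟨d, hd⟩).trans (lt_of_le_of_lt had ha1)).le⟩
  have c3 : ¬ CofCtb (A ∩ Iio s) := by
    intro h
    exact hsA (Or.inl (Or.inr (Or.inr ⟨c1, c2, h⟩)))
  have hne3 : (A ∩ Iio s).Nonempty := by
    by_contra h
    rw [not_nonempty_iff_eq_empty] at h
    apply c3
    rw [h]
    exact ⟨∅, le_refl _, countable_empty, fun x hx => absurd hx (notMem_empty x)⟩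
  -- claim 3
  have c4 : s ∈ closure (A ∩ Iio s) := by
    by_contra hcon
    obtain ⟨t, ht1, ht2⟩ := (isClosed_closure (s := A ∩ Iio s)).isCompact.exists_isGreatest
      hne3.closure
    have hst' : t ≤ s := isClosed_Iic.closure_subset
      (closure_mono (fun x hx => le_of_lt hx.2 : A ∩ Iio s ⊆ Iic s) ht1)
    have hst : t < s := lt_of_le_of_ne hst' (fun h => hcon (h ▸ ht1))
    have hgap : Ioo t s ∩ A = ∅ := by
      rw [Set.eq_empty_iff_forall_notMem]
      rintro a ⟨⟨h1, h2⟩, h3⟩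
      exact not_lt.mpr (ht2 (subset_closure ⟨h3, h2⟩)) h1
    have htA : t ∉ A := by
      intro h
      exact c3 (CofCtb.of_max ⟨h, hst⟩ fun x hx => ht2 (subset_closure hx))
    have heq : A ∩ Iio t = A ∩ Iio s := by
      ext a
      constructor
      · rintro ⟨h1, h2⟩; exact ⟨h1, lt_trans h2 hst⟩
      · rintro ⟨h1, h2⟩
        refine ⟨h1, lt_of_le_of_ne (ht2 (subset_closure ⟨h1, h2⟩)) (fun h => htA (h ▸ h1))⟩
    have hJ : (t, s) ∈ JJ A := by
      refine ⟨hst, hgap, htA, fun h => hsA (subset_Big A h), ?_, c1, ?_, c2⟩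
      · show t ∈ closure (A ∩ Iio t)
        rw [heq]; exact ht1
      · show ¬ CofCtb (A ∩ Iio t)
        rw [heq]; exact c3
    exact hsA (Or.inr (Or.inr ⟨(t, s), hJ, rfl⟩))
  -- claim 4
  have c5 : s = u := by
    by_contra hsv
    have hsv' : u < s := lt_of_le_of_ne hsI.1 (Ne.symm hsv)
    obtain ⟨a, ha1, ha2⟩ := mem_closure_iff_nhds.mp c4 (Ioi u) (Ioi_mem_nhds hsv')
    have := hlt a ⟨subset_Big A ha2.1, le_of_lt ha1, (le_of_lt ha2.2).trans hsI.2⟩
    exact lt_asymm this ha2.2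
  -- claim 5
  have c6 : ∀ n : ℕ, ∃ a ∈ A ∩ Iio s, ∀ x ∈ Icc a s, |g x - g s| < 1 / (n + 1 : ℝ) := by
    intro n
    have hopen : {z : X | |g z - g s| < 1 / (n + 1 : ℝ)} ∈ 𝓝 s := by
      refine (isOpen_lt ((hg.sub continuous_const).abs) continuous_const).mem_nhds ?_
      show |g s - g s| < 1 / (n + 1 : ℝ)
      rw [sub_self, abs_zero]; positivity
    obtain ⟨b, c, hbc, h2, h3⟩ := exists_Icc_mem_subset_of_mem_nhds hopen
    obtain ⟨a, ha1, ha2⟩ := mem_closure_iff_nhds.mp c4 _ h2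
    exact ⟨a, ha2, fun x hx => h3 ⟨ha1.1.trans hx.1, hx.2.trans hbc.2⟩⟩
  choose a ha1 ha2 using c6
  obtain ⟨u', hv'1, hv'2⟩ : ∃ u' ∈ A ∩ Iio s, ∀ n, a n < u' := by
    by_contra hcon
    push Not at hcon
    apply c3
    refine ⟨range a, range_subset_iff.mpr ha1, countable_range a, fun x hx => ?_⟩
    obtain ⟨n, hn⟩ := hcon x hx
    exact ⟨a n, mem_range_self n, hn⟩
  have hconst : ∀ x ∈ Icc u' s, g x = g s := by
    intro x hx
    have h1 : ∀ n : ℕ, |g x - g s| < 1 / (n + 1 : ℝ) := fun n =>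
      ha2 n x ⟨(hv'2 n).le.trans hx.1, hx.2⟩
    by_contra hne'
    have h2 : 0 < |g x - g s| := abs_pos.mpr (sub_ne_zero.mpr hne')
    obtain ⟨n, hn⟩ := exists_nat_one_div_lt h2
    exact lt_asymm hn (h1 n)
  refine ⟨u', c5 ▸ (le_of_lt hv'1.2), fun z hz => ?_, ?_, ?_⟩
  · rcases le_total s z with hzs | hzs
    · exact hosc z ⟨c5 ▸ hzs, hz.2⟩
    · rw [hconst z ⟨hz.1, hzs⟩]
      exact hosc s hsI
  · obtain ⟨S, hS1, hS2, hS3⟩ := hcf
    have hus : u' ≤ u := c5 ▸ (le_of_lt hv'1.2)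
    refine ⟨S, fun x hx => ⟨(hS1 hx).1, hus.trans (hS1 hx).2.1, (hS1 hx).2.2⟩, hS2, fun x hx => ?_⟩
    rcases le_total u x with hux | hux
    · exact hS3 x ⟨hx.1, hux, hx.2.2⟩
    · obtain ⟨p, hp⟩ := hne
      obtain ⟨a, ha, hpa⟩ := hS3 p hp
      exact ⟨a, ha, (hux.trans hp.2.1).trans hpa⟩
  · refine CoiCtb.of_min (s := u') ⟨subset_Big A hv'1.1, le_refl _, (le_of_lt hv'1.2).trans hsI.2⟩ ?_
    rintro x ⟨_, hx⟩
    exact hx.1

end top

end Pool.Agent.Helper937.Dya
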