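import Mathlib

set_option autoImplicit false

open Set Topology Filter

namespace Pool.Agent.Helper937.Szd

/-- strongly zero-dimensional: completely separated sets are separated by clopen sets -/
def SZ (X : Type*) [TopologicalSpace X] : Prop :=
  ∀ f : X → ℝ, Continuous f → ∀ a b : ℝ, a < b →
    ∃ C : Set X, IsClopen C ∧ {x | f x ≤ a} ⊆ C ∧ C ⊆ {x | f x < b}

variable {X : Type*} [TopologicalSpace X]

theorem sz_cover (hX : SZ X) (u : ℕ → X → ℝ) (hu : ∀ n, Continuous (u n))
    (hcov : ∀ x, ∃ n, 0 < u n x) : ∃ k : X → ℕ, Continuous k ∧ ∀ x, 0 < u (k x) x := by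
  classical
  have h1 : ∀ n m : ℕ, ∃ C : Set X, IsClopen C ∧ (∀ x, 1 / (m + 1 : ℝ) ≤ u n x → x ∈ C) ∧
      ∀ x ∈ C, 0 < u n x := by
    intro n m
    obtain ⟨C, h1, h2, h3⟩ := hX (fun x => - u n x) (hu n).neg (-(1 / (m + 1 : ℝ)))
      (-(1 / (m + 1 : ℝ) / 2)) (by
        have : (0:ℝ) < 1 / (m + 1 : ℝ) := by positivity
        linarith)
    refine ⟨C, h1, fun x hx => h2 (by show - u n x ≤ -(1 / (m + 1 : ℝ)); linarith), fun x hx => ?_⟩
    have h4 : - u n x < -(1 / (m + 1 : ℝ) / 2) := h3 hx
    have : (0:ℝ) < 1 / (m + 1 : ℝ) := by positivity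
    linarith
  choose C hC1 hC2 hC3 using h1
  let D : ℕ → Set X := fun j => C j.unpair.1 j.unpair.2
  have hD : ∀ x, ∃ j, x ∈ D j := by
    intro x
    obtain ⟨n, hn⟩ := hcov x
    obtain ⟨m, hm⟩ := exists_nat_one_div_lt hn
    refine ⟨Nat.pair n m, ?_⟩
    simp only [D, Nat.unpair_pair]
    exact hC2 n m x hm.le
  refine ⟨fun x => (Nat.find (hD x)).unpair.1, ?_, fun x => hC3 _ _ x (Nat.find_spec (hD x))⟩
  have hf : Continuous (fun x => Nat.find (hD x)) := by
    rw [continuous_discrete_rng]
    intro j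
    have : (fun x => Nat.find (hD x)) ⁻¹' {j} = D j ∩ ⋂ i ∈ Finset.range j, (D i)ᶜ := by
      ext x
      simp only [mem_preimage, mem_singleton_iff, mem_inter_iff, mem_iInter, Finset.mem_range,
        mem_compl_iff]
      rw [Nat.find_eq_iff]
    rw [this]
    exact ((hC1 _ _).isOpen).inter (isOpen_biInter_finset fun i _ => (hC1 _ _).compl.isOpen)
  exact (continuous_of_discreteTopology (f := fun j : ℕ => j.unpair.1)).comp hf

/-- the decoding map for bounded functions -/
noncomputable def hdec (z : ℕ → Bool) : ℝ := (1/3) * Cardinal.cantorFunction (2/3) z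

theorem continuous_cantorFunction {c : ℝ} (h0 : 0 ≤ c) (h1 : c < 1) :
    Continuous (Cardinal.cantorFunction c) := by
  unfold Cardinal.cantorFunction
  refine continuous_tsum (u := fun n => c ^ n) (fun n => ?_) (summable_geometric_of_lt_one h0 h1) ?_
  · unfold Cardinal.cantorFunctionAux
    exact (continuous_of_discreteTopology (f := fun b : Bool => cond b (c ^ n) 0)).comp
      (continuous_apply n)
  · intro n z
    unfold Cardinal.cantorFunctionAux
    cases z n
    · simp [pow_nonneg h0 n]
    · simp [abs_of_nonneg h0]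

theorem continuous_hdec : Continuous hdec :=
  continuous_const.mul (continuous_cantorFunction (by norm_num) (by norm_num))

theorem step (hX : SZ X) (r : X → ℝ) (hr : Continuous r) (h0 : ∀ x, 0 ≤ r x ∧ r x ≤ 1) :
    ∃ b : X → Bool, Continuous b ∧ ∃ r' : X → ℝ, Continuous r' ∧ (∀ x, 0 ≤ r' x ∧ r' x ≤ 1) ∧
      ∀ x, r x = (1/3) * (cond (b x) 1 0) + (2/3) * r' x := by
  classical
  obtain ⟨C, hC1, hC2, hC3⟩ := hX r hr (1/3) (2/3) (by norm_num)
  have hb : Continuous (fun x => decide (x ∉ C)) := by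
    rw [continuous_discrete_rng]
    intro b
    cases b
    · have : (fun x => decide (x ∉ C)) ⁻¹' {false} = C := by ext x; simp
      rw [this]; exact hC1.isOpen
    · have : (fun x => decide (x ∉ C)) ⁻¹' {true} = Cᶜ := by ext x; simp
      rw [this]; exact hC1.compl.isOpen
  have hc : Continuous (fun x => (cond (decide (x ∉ C)) 1 0 : ℝ)) :=
    (continuous_of_discreteTopology (f := fun b : Bool => (cond b 1 0 : ℝ))).comp hb
  refine ⟨fun x => decide (x ∉ C), hb, fun x => (3 * r x - cond (decide (x ∉ C)) 1 0) / 2,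
    ((continuous_const.mul hr).sub hc).div_const 2, fun x => ?_, fun x => by ring⟩
  by_cases hx : x ∈ C
  · have h1 : r x < 2/3 := hC3 hx
    have h2 := h0 x
    simp only [hx, not_true_eq_false, decide_false, cond_false]
    constructor <;> linarith
  · have h1 : 1/3 < r x := by
      by_contra h
      push Not at h
      exact hx (hC2 h)
    have h2 := h0 x
    simp only [hx, not_false_eq_true, decide_true, cond_true]
    constructor <;> linarith

theorem lift_bounded (hX : SZ X) (G : X → ℝ) (hG : Continuous G) (h0 : ∀ x, 0 ≤ G x ∧ G x ≤ 1) :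
    ∃ z : X → (ℕ → Bool), Continuous z ∧ ∀ x, hdec (z x) = G x := by
  classical
  let R := {r : X → ℝ // Continuous r ∧ ∀ x, 0 ≤ r x ∧ r x ≤ 1}
  have hstep : ∀ r : R, ∃ p : (X → Bool) × R, Continuous p.1 ∧
      ∀ x, r.1 x = (1/3) * (cond (p.1 x) 1 0) + (2/3) * p.2.1 x := by
    intro r
    obtain ⟨b, hb, r', hr1, hr2, hr3⟩ := step hX r.1 r.2.1 r.2.2
    exact ⟨(b, ⟨r', hr1, hr2⟩), hb, hr3⟩
  choose p hp1 hp2 using hstep
  let r : ℕ → R := fun n => Nat.rec ⟨G, hG, h0⟩ (fun _ s => (p s).2) n
  have hrs : ∀ n, r (n + 1) = (p (r n)).2 := fun n => rfl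
  let z : X → (ℕ → Bool) := fun x n => (p (r n)).1 x
  have hz : Continuous z := continuous_pi fun n => hp1 (r n)
  have hsum : ∀ n x, G x = (1/3) * (∑ i ∈ Finset.range n, Cardinal.cantorFunctionAux (2/3) (z x) i)
      + (2/3) ^ n * (r n).1 x := by
    intro n x
    induction n with
    | zero => simp [r]
    | succ n ih =>
      rw [Finset.sum_range_succ, ih]
      have h1 := hp2 (r n) x
      have h2 : Cardinal.cantorFunctionAux (2/3) (z x) n = (2/3 : ℝ)^n * cond ((p (r n)).1 x) 1 0 := by
        unfold Cardinal.cantorFunctionAux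
        show cond ((p (r n)).1 x) ((2/3 : ℝ)^n) 0 = _
        cases (p (r n)).1 x <;> simp
      rw [h2, hrs, h1]
      ring
  refine ⟨z, hz, fun x => ?_⟩
  have hs := (Cardinal.summable_cantor_function (z x) (c := 2/3) (by norm_num) (by norm_num)).hasSum.tendsto_sum_nat
  have h1 : Tendsto (fun n => (1/3 : ℝ) * (∑ i ∈ Finset.range n, Cardinal.cantorFunctionAux (2/3) (z x) i)
      + (2/3) ^ n * (r n).1 x) atTop (𝓝 ((1/3) * Cardinal.cantorFunction (2/3) (z x) + 0)) := by
    refine (hs.const_mul (1/3)).add ?_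
    have h2 : Tendsto (fun n : ℕ => (2/3 : ℝ) ^ n) atTop (𝓝 0) :=
      tendsto_pow_atTop_nhds_zero_of_lt_one (by norm_num) (by norm_num)
    refine squeeze_zero (fun n => mul_nonneg (by positivity) ((r n).2.2 x).1) (fun n => ?_) h2
    exact mul_le_of_le_one_right (by positivity) ((r n).2.2 x).2
  have h2 : Tendsto (fun n => (1/3 : ℝ) * (∑ i ∈ Finset.range n, Cardinal.cantorFunctionAux (2/3) (z x) i)
      + (2/3) ^ n * (r n).1 x) atTop (𝓝 (G x)) := by
    refine tendsto_const_nhds.congr fun n => hsum n x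
  have := tendsto_nhds_unique h1 h2
  rw [add_zero] at this
  exact this

/-- decoding map for all functions -/
noncomputable def dec (p : ℕ × (ℕ → Bool)) : ℝ := ((Denumerable.ofNat ℤ p.1 : ℤ) : ℝ) + 2 * hdec p.2

theorem continuous_dec : Continuous dec := by
  unfold dec
  exact ((continuous_of_discreteTopology (f := fun n : ℕ => ((Denumerable.ofNat ℤ n : ℤ) : ℝ))).comp
    continuous_fst).add (continuous_const.mul (continuous_hdec.comp continuous_snd))

theorem lift (hX : SZ X) (F : X → ℝ) (hF : Continuous F) :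
    ∃ q : X → ℕ × (ℕ → Bool), Continuous q ∧ ∀ x, dec (q x) = F x := by
  classical
  let u : ℕ → X → ℝ := fun n x => 1 - |F x - ((Denumerable.ofNat ℤ n : ℤ) : ℝ) - 1|
  obtain ⟨k, hk, hku⟩ := sz_cover hX u
    (fun n => continuous_const.sub ((hF.sub continuous_const).sub continuous_const).abs) (by
      intro x
      refine ⟨Encodable.encode (⌈F x⌉ - 1 : ℤ), ?_⟩
      simp only [u, Denumerable.ofNat_encode]
      have h1 := Int.le_ceil (F x)
      have h2 := Int.ceil_lt_add_one (F x)
      push_cast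
      rw [sub_pos, abs_lt]; constructor <;> linarith)
  have hm : Continuous (fun x => ((Denumerable.ofNat ℤ (k x) : ℤ) : ℝ)) :=
    (continuous_of_discreteTopology (f := fun n : ℕ => ((Denumerable.ofNat ℤ n : ℤ) : ℝ))).comp hk
  obtain ⟨z, hz, hzG⟩ := lift_bounded hX (fun x => (F x - ((Denumerable.ofNat ℤ (k x) : ℤ) : ℝ)) / 2)
    ((hF.sub hm).div_const 2) (by
      intro x
      have h1 := hku x
      simp only [u] at h1
      rw [sub_pos, abs_lt] at h1
      constructor <;> linarith [h1.1, h1.2])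
  refine ⟨fun x => (k x, z x), hk.prodMk hz, fun x => ?_⟩
  unfold dec
  simp only [hzG x]
  ring

/-- a closed embedding of `ℕ × 2^ℕ` in the line -/
noncomputable def iot (p : ℕ × (ℕ → Bool)) : ℝ := 2 * (p.1 : ℝ) + Cardinal.cantorFunction (1/3) p.2

theorem cantor_bounds (z : ℕ → Bool) :
    0 ≤ Cardinal.cantorFunction (1/3) z ∧ Cardinal.cantorFunction (1/3) z ≤ 3/2 := by
  constructor
  · exact tsum_nonneg fun n => Cardinal.cantorFunctionAux_nonneg (by norm_num)
  · have h1 : Cardinal.cantorFunction (1/3) z ≤ ∑' n : ℕ, (1/3 : ℝ) ^ n := by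
      refine (Cardinal.summable_cantor_function z (c := 1/3) (by norm_num) (by norm_num)).tsum_le_tsum
        (fun n => ?_) (summable_geometric_of_lt_one (by norm_num) (by norm_num))
      unfold Cardinal.cantorFunctionAux
      cases z n
      · simp
      · simp
    rw [tsum_geometric_of_lt_one (by norm_num) (by norm_num)] at h1
    norm_num at h1
    linarith

theorem isClosedEmbedding_iot : IsClosedEmbedding iot := by
  have hc : Continuous iot := by
    unfold iot
    exact (continuous_const.mul ((continuous_of_discreteTopology (f := fun n : ℕ => (n : ℝ))).comp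
      continuous_fst)).add ((continuous_cantorFunction (by norm_num) (by norm_num)).comp continuous_snd)
  have hinj : Function.Injective iot := by
    rintro ⟨n, z⟩ ⟨m, w⟩ h
    simp only [iot] at h
    have h1 := cantor_bounds z
    have h2 := cantor_bounds w
    have hnm : n = m := by
      rcases lt_trichotomy n m with h3 | h3 | h3
      · have h4 : (n : ℝ) + 1 ≤ m := by exact_mod_cast h3
        linarith
      · exact h3
      · have h4 : (m : ℝ) + 1 ≤ n := by exact_mod_cast h3
        linarith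
    subst hnm
    have h5 : Cardinal.cantorFunction (1/3) z = Cardinal.cantorFunction (1/3) w := by linarith
    rw [Cardinal.cantorFunction_injective (by norm_num) (by norm_num) h5]
  refine IsClosedEmbedding.of_continuous_injective_isClosedMap hc hinj ?_
  intro C hC
  have heq : iot '' C = ⋃ n : ℕ, (fun z : ℕ → Bool => iot (n, z)) '' {z | (n, z) ∈ C} := by
    ext y
    simp only [mem_image, mem_iUnion, Prod.exists]
    constructor
    · rintro ⟨n, z, hz, rfl⟩; exact ⟨n, z, hz, rfl⟩
    · rintro ⟨n, z, hz, rfl⟩; exact ⟨n, z, hz, rfl⟩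
  rw [heq]
  refine LocallyFinite.isClosed_iUnion ?_ fun n => ?_
  · intro y
    refine ⟨Ioo (y - 1) (y + 1), Ioo_mem_nhds (by linarith) (by linarith), ?_⟩
    refine (Set.finite_Iic (⌈y + 1⌉₊)).subset ?_
    rintro n ⟨x, ⟨z, _, rfl⟩, hx⟩
    have h1 := cantor_bounds z
    simp only [iot, mem_Ioo] at hx
    have h2 : (n : ℝ) ≤ y + 1 := by
      have : (0:ℝ) ≤ n := Nat.cast_nonneg n
      linarith [hx.2]
    have h3 := h2.trans (Nat.le_ceil (y + 1))
    show n ≤ ⌈y + 1⌉₊
    exact_mod_cast h3
  · have hcl : IsClosed {z : ℕ → Bool | (n, z) ∈ C} := hC.preimage (continuous_const.prodMk continuous_id)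
    exact (hcl.isCompact.image (hc.comp (continuous_const.prodMk continuous_id))).isClosed

/-- the universal map `ℝ → ℝ × ℝ` -/
theorem exists_universal : ∃ H : ℝ → ℝ × ℝ, Continuous H ∧
    ∀ (Y : Type) [TopologicalSpace Y], SZ Y → ∀ F G : Y → ℝ, Continuous F → Continuous G →
      ∃ f : Y → ℝ, Continuous f ∧ ∀ y, H (f y) = (F y, G y) := by
  classical
  let d : ℕ × (ℕ → Bool) → ℝ × ℝ := fun p =>
    (dec (p.1.unpair.1, fun n => p.2 (2 * n)), dec (p.1.unpair.2, fun n => p.2 (2 * n + 1)))
  have hd : Continuous d := by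
    refine Continuous.prodMk (continuous_dec.comp ?_) (continuous_dec.comp ?_)
    · refine Continuous.prodMk ((continuous_of_discreteTopology
        (f := fun n : ℕ => n.unpair.1)).comp continuous_fst) ?_
      exact continuous_pi fun n => (continuous_apply (2 * n)).comp continuous_snd
    · refine Continuous.prodMk ((continuous_of_discreteTopology
        (f := fun n : ℕ => n.unpair.2)).comp continuous_fst) ?_
      exact continuous_pi fun n => (continuous_apply (2 * n + 1)).comp continuous_snd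
  obtain ⟨H, hH⟩ := ContinuousMap.exists_extension' isClosedEmbedding_iot (⟨d, hd⟩ : C(ℕ × (ℕ → Bool), ℝ × ℝ))
  refine ⟨H, H.continuous, fun Y _ hY F G hF hG => ?_⟩
  obtain ⟨q1, hq1, hq1'⟩ := lift hY F hF
  obtain ⟨q2, hq2, hq2'⟩ := lift hY G hG
  let q : Y → ℕ × (ℕ → Bool) := fun y =>
    (Nat.pair (q1 y).1 (q2 y).1, fun n => if n % 2 = 0 then (q1 y).2 (n / 2) else (q2 y).2 (n / 2))
  have hq : Continuous q := by
    refine Continuous.prodMk ?_ (continuous_pi fun n => ?_)
    · exact (continuous_of_discreteTopology (f := fun p : ℕ × ℕ => Nat.pair p.1 p.2)).comp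
        ((continuous_fst.comp hq1).prodMk (continuous_fst.comp hq2))
    · by_cases hn : n % 2 = 0
      · simp only [hn, if_true]
        exact (continuous_apply (n / 2)).comp (continuous_snd.comp hq1)
      · simp only [hn, if_false]
        exact (continuous_apply (n / 2)).comp (continuous_snd.comp hq2)
  refine ⟨fun y => iot (q y), isClosedEmbedding_iot.continuous.comp hq, fun y => ?_⟩
  have h1 : H (iot (q y)) = d (q y) := congrFun hH (q y)
  rw [h1]
  simp only [d, q, Nat.unpair_pair]
  have e1 : (fun n => if 2 * n % 2 = 0 then (q1 y).2 (2 * n / 2) else (q2 y).2 (2 * n / 2)) = (q1 y).2 := by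
    funext n
    have h2 : 2 * n % 2 = 0 := by omega
    have h3 : 2 * n / 2 = n := by omega
    rw [if_pos h2, h3]
  have e2 : (fun n => if (2 * n + 1) % 2 = 0 then (q1 y).2 ((2 * n + 1) / 2) else
      (q2 y).2 ((2 * n + 1) / 2)) = (q2 y).2 := by
    funext n
    have h2 : ¬ (2 * n + 1) % 2 = 0 := by omega
    have h3 : (2 * n + 1) / 2 = n := by omega
    rw [if_neg h2, h3]
  rw [e1, e2]
  have e3 : ((q1 y).1, (q1 y).2) = q1 y := rfl
  have e4 : ((q2 y).1, (q2 y).2) = q2 y := rfl
  rw [e3, e4, hq1', hq2']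

end Pool.Agent.Helper937.Szd
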