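import Mathlib

set_option autoImplicit false

open Cardinal Set

namespace Pool.Agent.Helper937.Dom

/-- D(ν, κ) for a set X of size ν: for every family F of fewer than κ functions from X to ℕ there
is one function g with f x < g x for ν many x, for each f in F. -/
def D (X : Type) (κ : Cardinal.{0}) : Prop :=
  ∀ F : Set (X → ℕ), #F < κ → ∃ g : X → ℕ, ∀ f ∈ F, #{x : X // f x < g x} = #X

/-- E(ν, κ) for a set X of size ν: the same, but on ν many points of each of fewer than κ given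
subsets of size ν. -/
def E (X : Type) (κ : Cardinal.{0}) : Prop :=
  ∀ (F : Set (X → ℕ)) (𝒜 : Set (Set X)), #F < κ → #𝒜 < κ → (∀ A ∈ 𝒜, #A = #X) →
    ∃ g : X → ℕ, ∀ f ∈ F, ∀ A ∈ 𝒜, #{x : X // x ∈ A ∧ f x < g x} = #X

/-- every g : W → ℕ is bounded on a member of 𝒜 -/
def Reaps {W : Type} (𝒜 : Set (Set W)) : Prop :=
  ∀ g : W → ℕ, ∃ A ∈ 𝒜, ∃ n, ∀ a ∈ A, g a ≤ n

/-- the order W is like omega_1 -/
structure Om1 (W : Type) [LinearOrder W] : Prop where
  wf : WellFounded ((· < ·) : W → W → Prop)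
  ctble : ∀ a : W, (Set.Iio a).Countable
  unc : ¬ (Set.univ : Set W).Countable

/-- a reaping family gives a dominating family of functions from W to W -/
theorem dominate {W : Type} [LinearOrder W] (h : Om1 W)
    (hbdd : ∀ S : Set W, S.Countable → ∃ b, ∀ s ∈ S, s < b)
    (𝒜 : Set (Set W)) (hA : ∀ A ∈ 𝒜, ¬ A.Countable) (hR : Reaps 𝒜) :
    ∃ F : Set W → W → W, ∀ f : W → W, ∃ A ∈ 𝒜, ∀ α, f α < F A α := by
  classical
  haveI : Nonempty W := by
    by_contra hne
    rw [not_nonempty_iff] at hne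
    exact h.unc (Set.countable_univ_iff.2 (by infer_instance))
  -- the set of `γ` with infinite intersection
  have hG : ∀ A ∈ 𝒜, ∀ α : W, ∃ γ, (A ∩ Set.Ioo α γ).Infinite := by
    intro A hAA α
    have h1 : (A ∩ Set.Ioi α).Infinite := by
      intro hfin
      apply hA A hAA
      have h2 : A ⊆ (A ∩ Set.Ioi α) ∪ (Set.Iio α ∪ {α}) := by
        intro x hx
        rcases lt_trichotomy α x with h3 | h3 | h3
        · exact Or.inl ⟨hx, h3⟩
        · exact Or.inr (Or.inr h3.symm)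
        · exact Or.inr (Or.inl h3)
      exact (hfin.countable.union ((h.ctble α).union (Set.countable_singleton α))).mono h2
    set e := h1.natEmbedding with he
    have hc : (Set.range (fun n => (e n : W))).Countable := Set.countable_range _
    obtain ⟨γ, hγ⟩ := hbdd _ hc
    refine ⟨γ, ?_⟩
    have hinf : (Set.range (fun n => (e n : W))).Infinite :=
      Set.infinite_range_of_injective (Subtype.val_injective.comp e.injective)
    refine hinf.mono ?_
    rintro _ ⟨n, rfl⟩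
    exact ⟨(e n).2.1, (e n).2.2, hγ _ ⟨n, rfl⟩⟩
  let F : Set W → W → W := fun A α =>
    if hh : ∃ γ, (A ∩ Set.Ioo α γ).Infinite then h.wf.min {γ | (A ∩ Set.Ioo α γ).Infinite} hh else α
  have hF : ∀ A ∈ 𝒜, ∀ α : W, (A ∩ Set.Ioo α (F A α)).Infinite := by
    intro A hAA α
    have h1 := hG A hAA α
    have h2 : F A α = h.wf.min {γ | (A ∩ Set.Ioo α γ).Infinite} h1 := dif_pos h1
    rw [h2]
    exact h.wf.min_mem {γ | (A ∩ Set.Ioo α γ).Infinite} h1
  refine ⟨F, fun f => ?_⟩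
  choose! bd hbd using hbdd
  have hcl : ∀ α : W, ∃ ε, α < ε ∧ ∀ β < ε, f β < ε := by
    intro α
    let a : ℕ → W := fun n => Nat.rec (bd {α}) (fun _ x => bd ({x} ∪ f '' Set.Iic x)) n
    have ha0 : α < a 0 := hbd {α} (Set.countable_singleton α) α rfl
    have hac : ∀ x : W, ({x} ∪ f '' Set.Iic x).Countable := by
      intro x
      refine (Set.countable_singleton x).union (Set.Countable.image ?_ f)
      have h3 : Set.Iic x ⊆ Set.Iio x ∪ {x} := by
        intro y hy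
        rcases lt_or_eq_of_le (show y ≤ x from hy) with h4 | h4
        · exact Or.inl h4
        · exact Or.inr h4
      exact ((h.ctble x).union (Set.countable_singleton x)).mono h3
    have hs : ∀ n, ∀ y ∈ ({a n} ∪ f '' Set.Iic (a n) : Set W), y < a (n + 1) := by
      intro n y hy
      exact hbd _ (hac (a n)) y hy
    have hne : ({ε | ∀ n, a n < ε} : Set W).Nonempty := by
      refine ⟨bd (Set.range a), fun n => ?_⟩
      exact hbd _ (Set.countable_range a) (a n) ⟨n, rfl⟩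
    refine ⟨h.wf.min {ε | ∀ n, a n < ε} hne, ?_, ?_⟩
    · exact ha0.trans (h.wf.min_mem {ε | ∀ n, a n < ε} hne 0)
    · intro β hβ
      have h5 : ∃ n, β ≤ a n := by
        by_contra hcon
        push Not at hcon
        exact h.wf.not_lt_min {ε | ∀ n, a n < ε} hcon hβ
      obtain ⟨n, hn⟩ := h5
      exact (hs n (f β) (Or.inr ⟨β, hn, rfl⟩)).trans
        (h.wf.min_mem {ε | ∀ n, a n < ε} hne (n + 1))
  let c : W → W := fun α => h.wf.min {ε | α < ε ∧ ∀ β < ε, f β < ε} (hcl α)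
  have hc : ∀ α, α < c α ∧ ∀ β < c α, f β < c α := fun α =>
    h.wf.min_mem {ε | α < ε ∧ ∀ β < ε, f β < ε} (hcl α)
  have hcmin : ∀ α ε, α < ε → (∀ β < ε, f β < ε) → c α ≤ ε := fun α ε h1 h2 =>
    not_lt.1 (h.wf.not_lt_min {ε | α < ε ∧ ∀ β < ε, f β < ε} ⟨h1, h2⟩)
  have hi : ∀ γ : W, ∃ i : W → ℕ, Set.InjOn i (Set.Iio γ) := fun γ =>
    Set.countable_iff_exists_injOn.1 (h.ctble γ)
  choose i hi using hi
  obtain ⟨A, hAA, n, hn⟩ := hR (fun β => i (c β) β)
  refine ⟨A, hAA, fun α => ?_⟩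
  by_contra hcon
  rw [not_lt] at hcon
  have hfin : (A ∩ Set.Ioc α (f α)).Finite := by
    have hlt : ∀ β ∈ A ∩ Set.Ioc α (f α), β < c α := fun β hβ =>
      lt_of_le_of_lt hβ.2.2 ((hc α).2 α (hc α).1)
    have hce : ∀ β ∈ A ∩ Set.Ioc α (f α), c β = c α := fun β hβ =>
      le_antisymm (hcmin β (c α) (hlt β hβ) (hc α).2)
        (hcmin α (c β) (hβ.2.1.trans (hc β).1) (hc β).2)
    refine Set.Finite.of_injOn (f := i (c α)) (t := Set.Iic n) (fun β hβ => ?_) ?_
      (Set.finite_Iic n)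
    · have h1 := hn β hβ.1
      simp only [hce β hβ] at h1
      exact h1
    · exact (hi (c α)).mono hlt
  exact hF A hAA α (hfin.subset fun β hβ => ⟨hβ.1, hβ.2.1, hβ.2.2.le.trans hcon⟩)



/-- every W-sequence of elements of T is caught by finite sets on a member of the family -/
theorem catches {W T : Type} [LinearOrder W] (h : Om1 W)
    (𝒜 : Set (Set W)) (hR : Reaps 𝒜)
    (F : Set W → W → W) (hF : ∀ f : W → W, ∃ A ∈ 𝒜, ∀ α, f α < F A α)
    (𝒳 : Set (Set T)) (h𝒳 : ∀ C ∈ 𝒳, ∃ π : T → W, Set.InjOn π C)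
    (hcov : ∀ t : W → T, ∃ C ∈ 𝒳, ∀ α, t α ∈ C) :
    ∃ S : Set T → Set W → ℕ → W → Finset T, (∀ C A n α, (S C A n α).card ≤ n + 1) ∧
      ∀ t : W → T, ∃ C ∈ 𝒳, ∃ A' ∈ 𝒜, ∃ n, ∃ A ∈ 𝒜, ∀ α ∈ A, t α ∈ S C A' n α := by
  classical
  have hne : Nonempty W := by
    by_contra hW
    rw [not_nonempty_iff] at hW
    exact h.unc (Set.to_countable _)
  have h1 : ∀ C : Set T, ∃ π : T → W, C ∈ 𝒳 → Set.InjOn π C := by
    intro C
    by_cases hC : C ∈ 𝒳
    · obtain ⟨π, hπ⟩ := h𝒳 C hC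
      exact ⟨π, fun _ => hπ⟩
    · exact ⟨fun _ => Classical.choice hne, fun h' => absurd h' hC⟩
  choose π hπ using h1
  have h2 : ∀ γ : W, ∃ i : W → ℕ, Set.InjOn i (Set.Iio γ) := fun γ =>
    Set.countable_iff_exists_injOn.1 (h.ctble γ)
  choose i hi using h2
  let S' : Set T → Set W → ℕ → W → Set T := fun C A n α =>
    {τ | C ∈ 𝒳 ∧ τ ∈ C ∧ π C τ < F A α ∧ i (F A α) (π C τ) ≤ n}
  have hinj : ∀ C A n α, Set.InjOn (fun τ => i (F A α) (π C τ)) (S' C A n α) := by
    rintro C A n α τ ⟨hC, hτC, hlt, -⟩ τ' ⟨-, hτC', hlt', -⟩ heq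
    exact hπ C hC hτC hτC' (hi _ hlt hlt' heq)
  have hfin : ∀ C A n α, (S' C A n α).Finite := by
    intro C A n α
    refine Set.Finite.of_injOn (f := fun τ => i (F A α) (π C τ)) (t := Set.Iic n) ?_
      (hinj C A n α) (Set.finite_Iic n)
    intro τ hτ
    exact hτ.2.2.2
  refine ⟨fun C A n α => (hfin C A n α).toFinset, ?_, ?_⟩
  · intro C A n α
    have h3 : (hfin C A n α).toFinset.card ≤ (Finset.range (n + 1)).card := by
      refine Finset.card_le_card_of_injOn (fun τ => i (F A α) (π C τ)) ?_ ?_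
      · intro τ hτ
        have hτ' : τ ∈ S' C A n α := (hfin C A n α).mem_toFinset.1 hτ
        have : i (F A α) (π C τ) ≤ n := hτ'.2.2.2
        simp only [Finset.coe_range, Set.mem_Iio]
        omega
      · rw [Set.Finite.coe_toFinset]
        exact hinj C A n α
    rwa [Finset.card_range] at h3
  · intro t
    obtain ⟨C, hC, htC⟩ := hcov t
    obtain ⟨A', hA', hF'⟩ := hF (fun α => π C (t α))
    obtain ⟨A, hA, n, hn⟩ := hR (fun α => i (F A' α) (π C (t α)))
    refine ⟨C, hC, A', hA', n, A, hA, fun α hα => ?_⟩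
    rw [Set.Finite.mem_toFinset]
    exact ⟨hC, htC α, hF' α, hn α hα⟩


theorem exists_gt_of_unc {W : Type} [LinearOrder W] (h : Om1 W) {A : Set W}
    (hA : ¬ A.Countable) (β : W) : ∃ α ∈ A, β < α := by
  by_contra hcon
  push Not at hcon
  apply hA
  have h1 : A ⊆ Set.Iio β ∪ {β} := by
    intro α hα
    rcases (hcon α hα).lt_or_eq with h2 | h2
    · exact Or.inl h2
    · exact Or.inr h2
  exact ((h.ctble β).union (Set.countable_singleton β)).mono h1

/-- application: a dominating family for functions from W to ℕ -/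
theorem app_dom {W : Type} [LinearOrder W] (h : Om1 W)
    (𝒜 : Set (Set W)) (hA : ∀ A ∈ 𝒜, ¬ A.Countable)
    (D0 : Set (ℕ → ℕ)) (hD0 : ∀ x : ℕ → ℕ, ∃ d ∈ D0, ∀ k, x k ≤ d k)
    (𝒳 : Set (Set ↥D0)) (S : Set ↥D0 → Set W → ℕ → W → Finset ↥D0)
    (hS : ∀ t : W → ↥D0, ∃ C ∈ 𝒳, ∃ A' ∈ 𝒜, ∃ n, ∃ A ∈ 𝒜, ∀ α ∈ A, t α ∈ S C A' n α) :
    ∃ Φ : Set ↥D0 → Set W → ℕ → Set W → (W → ℕ), ∀ G : W → ℕ,
      ∃ C ∈ 𝒳, ∃ A' ∈ 𝒜, ∃ n, ∃ A ∈ 𝒜, ∀ β, G β ≤ Φ C A' n A β := by
  classical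
  choose i hi using fun α => Set.countable_iff_exists_injOn.1 (h.ctble α)
  let ν : Set W → W → W := fun A β => if hA : ∃ α ∈ A, β < α then hA.choose else β
  have hν : ∀ A ∈ 𝒜, ∀ β, ν A β ∈ A ∧ β < ν A β := by
    intro A hAA β
    have hex : ∃ α ∈ A, β < α := exists_gt_of_unc h (hA A hAA) β
    have : ν A β = hex.choose := dif_pos hex
    rw [this]
    exact hex.choose_spec
  let x : (W → ℕ) → W → ℕ → ℕ := fun G α k =>
    if hk : ∃ β, β < α ∧ i α β = k then G hk.choose else 0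
  have hx : ∀ G α β, β < α → x G α (i α β) = G β := by
    intro G α β hβ
    have hex : ∃ β', β' < α ∧ i α β' = i α β := ⟨β, hβ, rfl⟩
    have h1 : x G α (i α β) = G hex.choose := dif_pos hex
    rw [h1, hi α hex.choose_spec.1 hβ hex.choose_spec.2]
  choose D hD hDk using hD0
  refine ⟨fun C A' n A β => (S C A' n (ν A β)).sup (fun d => d.1 (i (ν A β) β)), ?_⟩
  intro G
  obtain ⟨C, hC, A', hA', n, A, hAA, ht⟩ := hS (fun α => ⟨D (x G α), hD (x G α)⟩)
  refine ⟨C, hC, A', hA', n, A, hAA, ?_⟩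
  intro β
  obtain ⟨h1, h2⟩ := hν A hAA β
  have h3 := ht _ h1
  have h4 : (⟨D (x G (ν A β)), hD (x G (ν A β))⟩ : ↥D0).1 (i (ν A β) β) ≤
      (S C A' n (ν A β)).sup (fun d => d.1 (i (ν A β) β)) :=
    Finset.le_sup (f := fun d : ↥D0 => d.1 (i (ν A β) β)) h3
  refine le_trans ?_ h4
  have h5 := hDk (x G (ν A β)) (i (ν A β) β)
  rw [hx G _ β h2] at h5
  exact h5

/-- application: counting the subsets of W -/
theorem app_pow {W : Type} [LinearOrder W] (h : Om1 W)
    (𝒜 : Set (Set W)) (hA : ∀ A ∈ 𝒜, ¬ A.Countable)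
    (𝒳 : Set (Set {s : Set W // s.Countable}))
    (S : Set {s : Set W // s.Countable} → Set W → ℕ → W → Finset {s : Set W // s.Countable})
    (hcard : ∀ C A n α, (S C A n α).card ≤ n + 1)
    (hS : ∀ t : W → {s : Set W // s.Countable},
      ∃ C ∈ 𝒳, ∃ A' ∈ 𝒜, ∃ n, ∃ A ∈ 𝒜, ∀ α ∈ A, t α ∈ S C A' n α) :
    #(Set W) ≤ (#𝒳 * #𝒜 * ℵ₀ * #𝒜) * ℵ₀ := by
  classical
  let t : Set W → W → {s : Set W // s.Countable} := fun x α =>
    ⟨x ∩ Set.Iio α, (h.ctble α).mono Set.inter_subset_right⟩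
  have hS' := fun x => hS (t x)
  choose C hC A' hA' n A hAA ht using hS'
  let e : Set W → 𝒳 × 𝒜 × ℕ × 𝒜 := fun x => (⟨C x, hC x⟩, ⟨A' x, hA' x⟩, n x, ⟨A x, hAA x⟩)
  have hfib : ∀ b, #(e ⁻¹' {b}) ≤ ℵ₀ := by
    intro b
    have hfin : (e ⁻¹' {b}).Finite := by
      by_contra hinf
      obtain ⟨⟨C0, hC0⟩, ⟨A0', hA0'⟩, n0, ⟨A0, hA0⟩⟩ := b
      obtain ⟨T, hTs, hTc⟩ := Set.Infinite.exists_subset_card_eq hinf (n0 + 2)
      have hT : ∀ x ∈ T, C x = C0 ∧ A' x = A0' ∧ n x = n0 ∧ A x = A0 := by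
        intro x hx
        have h1 : e x = (⟨C0, hC0⟩, ⟨A0', hA0'⟩, n0, ⟨A0, hA0⟩) := hTs hx
        simp only [e, Prod.mk.injEq, Subtype.mk.injEq] at h1
        exact h1
      have hne : Nonempty W := by
        by_contra hemp
        rw [not_nonempty_iff] at hemp
        exact h.unc (Set.to_countable _)
      have hw : ∀ p : Set W × Set W, ∃ w : W, p.1 ≠ p.2 → ¬ (w ∈ p.1 ↔ w ∈ p.2) := by
        intro p
        by_cases hp : p.1 = p.2
        · exact ⟨Classical.arbitrary W, fun hh => absurd hp hh⟩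
        · by_contra hcon
          push Not at hcon
          apply hp
          ext w
          exact (hcon w).2
      choose w hw using hw
      obtain ⟨M, hM⟩ := Finset.exists_le ((T ×ˢ T).image w)
      obtain ⟨α, hα, hMα⟩ := exists_gt_of_unc h (hA A0 hA0) M
      have hinj : Set.InjOn (fun x => t x α) (T : Set (Set W)) := by
        intro x hx y hy hxy
        by_contra hne'
        have h2 := hw (x, y) hne'
        have h3 : w (x, y) ≤ M := hM _ (Finset.mem_image_of_mem w (Finset.mk_mem_product hx hy))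
        have h4 : w (x, y) < α := lt_of_le_of_lt h3 hMα
        have h5 : x ∩ Set.Iio α = y ∩ Set.Iio α := congrArg Subtype.val hxy
        apply h2
        have h6 := Set.ext_iff.1 h5 (w (x, y))
        simp only [Set.mem_inter_iff, Set.mem_Iio, h4, and_true] at h6
        exact h6
      have hcard' : (T.image (fun x => t x α)).card = n0 + 2 := by
        rw [Finset.card_image_of_injOn hinj, hTc]
      have hsub : T.image (fun x => t x α) ⊆ S C0 A0' n0 α := by
        intro y hy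
        rw [Finset.mem_image] at hy
        obtain ⟨x, hx, rfl⟩ := hy
        obtain ⟨e1, e2, e3, e4⟩ := hT x hx
        have := ht x α (by rw [e4]; exact hα)
        rw [e1, e2, e3] at this
        exact this
      have h7 := Finset.card_le_card hsub
      rw [hcard'] at h7
      have h8 := hcard C0 A0' n0 α
      omega
    exact (Cardinal.lt_aleph0_iff_set_finite.2 hfin).le
  have h1 := Cardinal.mk_le_mk_mul_of_mk_preimage_le e hfib
  refine le_trans h1 ?_
  gcongr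
  simp only [Cardinal.mk_prod, Cardinal.lift_id, Cardinal.mk_nat, Cardinal.mk_eq_aleph0]
  simp only [mul_assoc]
  exact le_rfl


theorem step_32483 (κ : Cardinal.{0}) (hκ : Cardinal.aleph 1 ≤ κ)
    (ih : ∀ T : Type, #T ≤ κ → ∃ 𝒳 : Set (Set T), #𝒳 ≤ κ ∧
      (∀ C ∈ 𝒳, #C ≤ Cardinal.aleph 1) ∧
      ∀ S : Set T, #S ≤ Cardinal.aleph 1 → ∃ C ∈ 𝒳, S ⊆ C) :
    ∀ T : Type, #T ≤ Order.succ κ → ∃ 𝒳 : Set (Set T), #𝒳 ≤ Order.succ κ ∧
      (∀ C ∈ 𝒳, #C ≤ Cardinal.aleph 1) ∧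
      ∀ S : Set T, #S ≤ Cardinal.aleph 1 → ∃ C ∈ 𝒳, S ⊆ C := by
  intro T hT
  have hinf : ℵ₀ ≤ κ := (Cardinal.aleph0_le_aleph 1).trans hκ
  have hinf' : ℵ₀ ≤ Order.succ κ := hinf.trans (Order.le_succ κ)
  obtain ⟨J, iJ, hJ, hIio⟩ : ∃ (J : Type) (_ : LinearOrder J), #J = Order.succ κ ∧
      ∀ b : J, #(Set.Iio b) < Order.succ κ :=
    ⟨(Order.succ κ).ord.ToType, inferInstance, Cardinal.mk_ord_toType _, fun b => mk_Iio_toType_ord_lt b⟩
  obtain ⟨j⟩ : Nonempty (T ↪ J) := by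
    rw [← Cardinal.le_def, hJ]; exact hT
  have hTb : ∀ b : J, #{t : T // j t < b} ≤ κ := by
    intro b
    rw [← Order.lt_succ_iff]
    refine lt_of_le_of_lt ?_ (hIio b)
    exact Cardinal.mk_le_of_injective (f := fun t : {t : T // j t < b} => (⟨j t.1, t.2⟩ : Set.Iio b))
      (by
        intro x y hxy
        have : j x.1 = j y.1 := congrArg Subtype.val hxy
        exact Subtype.ext (j.injective this))
  choose X hX1 hX2 hX3 using fun b => ih {t : T // j t < b} (hTb b)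
  refine ⟨⋃ b, (fun C : Set {t : T // j t < b} => Subtype.val '' C) '' X b, ?_, ?_, ?_⟩
  · refine Cardinal.mk_iUnion_le_sum_mk.trans ?_
    calc Cardinal.sum (fun b => #((fun C : Set {t : T // j t < b} => Subtype.val '' C) '' X b))
        ≤ Cardinal.sum (fun _ : J => Order.succ κ) := Cardinal.sum_le_sum _ _ (fun b =>
          (Cardinal.mk_image_le.trans (hX1 b)).trans (Order.le_succ κ))
      _ = #J * Order.succ κ := Cardinal.sum_const' _ _
      _ = Order.succ κ := by rw [hJ, Cardinal.mul_eq_self hinf']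
  · intro C hC
    rw [Set.mem_iUnion] at hC
    obtain ⟨b, C', hC', rfl⟩ := hC
    exact Cardinal.mk_image_le.trans (hX2 b C' hC')
  · intro S hS
    have hb : ∃ b : J, ∀ s ∈ S, j s < b := by
      by_contra hcon
      push Not at hcon
      have h1 : (⋃ s : S, Set.Iic (j s.1)) = Set.univ := by
        rw [Set.eq_univ_iff_forall]
        intro b
        obtain ⟨s, hs, hbs⟩ := hcon b
        exact Set.mem_iUnion.mpr ⟨⟨s, hs⟩, hbs⟩
      have h2 : #(⋃ s : S, Set.Iic (j s.1) : Set J) ≤ κ := by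
        refine Cardinal.mk_iUnion_le_sum_mk.trans ?_
        calc Cardinal.sum (fun s : S => #(Set.Iic (j s.1))) ≤ Cardinal.sum (fun _ : S => κ) := by
              apply Cardinal.sum_le_sum
              intro s
              have h3 : Set.Iic (j s.1) = insert (j s.1) (Set.Iio (j s.1)) := by
                ext x; simp [le_iff_eq_or_lt]
              rw [h3]
              refine Cardinal.mk_insert_le.trans ?_
              have h4 := Order.lt_succ_iff.mp (hIio (j s.1))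
              calc #(Set.Iio (j s.1)) + 1 ≤ κ + 1 := by gcongr
                _ = κ := Cardinal.add_one_eq hinf
          _ = #S * κ := Cardinal.sum_const' _ _
          _ ≤ κ * κ := by gcongr; exact hS.trans hκ
          _ = κ := Cardinal.mul_eq_self hinf
      rw [h1, Cardinal.mk_univ, hJ] at h2
      exact absurd h2 (not_le.mpr (Order.lt_succ κ))
    obtain ⟨b, hb⟩ := hb
    obtain ⟨C', hC', hsub⟩ := hX3 b (Subtype.val ⁻¹' S)
      ((Cardinal.mk_preimage_of_injective _ _ Subtype.val_injective).trans hS)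
    refine ⟨Subtype.val '' C', Set.mem_iUnion.mpr ⟨b, C', hC', rfl⟩, ?_⟩
    intro s hs
    exact ⟨⟨s, hb s hs⟩, hsub hs, rfl⟩

/-- covering of sets of size ℵ₁ in a set of size ℵ_{n+1} -/
theorem covering (n : ℕ) : ∀ T : Type, #T ≤ Cardinal.aleph ((n + 1 : ℕ) : Ordinal.{0}) →
    ∃ 𝒳 : Set (Set T), #𝒳 ≤ Cardinal.aleph ((n + 1 : ℕ) : Ordinal.{0}) ∧
      (∀ C ∈ 𝒳, #C ≤ Cardinal.aleph 1) ∧
      ∀ S : Set T, #S ≤ Cardinal.aleph 1 → ∃ C ∈ 𝒳, S ⊆ C := by
  induction n with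
  | zero =>
    intro T hT
    have h1 : ((0 + 1 : ℕ) : Ordinal.{0}) = 1 := by simp
    rw [h1] at hT ⊢
    refine ⟨{Set.univ}, ?_, ?_, ?_⟩
    · rw [Cardinal.mk_singleton]
      exact (Cardinal.one_le_aleph0).trans (Cardinal.aleph0_le_aleph 1)
    · intro C hC
      rw [Set.mem_singleton_iff.mp hC, Cardinal.mk_univ]
      exact hT
    · intro S _
      exact ⟨Set.univ, rfl, Set.subset_univ S⟩
  | succ n ih =>
    have h1 : Cardinal.aleph ((n + 1 + 1 : ℕ) : Ordinal.{0}) =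
        Order.succ (Cardinal.aleph ((n + 1 : ℕ) : Ordinal.{0})) := by
      rw [← Cardinal.aleph_succ]
      congr 1
    rw [h1]
    apply step_32483 _ _ ih
    rw [Cardinal.aleph_le_aleph]
    exact_mod_cast Nat.succ_le_succ (Nat.zero_le n)



theorem not_E (X : Type) [LinearOrder X] (h : Om1 X)
    (hbdd : ∀ S : Set X, S.Countable → ∃ b, ∀ s ∈ S, s < b)
    (hX : #X = Cardinal.aleph 1) (κ : Cardinal.{0}) (hE : ¬ E X κ) :
    ∃ (F : Set (X → ℕ)) (𝓑 : Set (Set X)), #F < κ ∧ #𝓑 < κ ∧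
      ∃ 𝒜 : Set (Set X), (∀ A ∈ 𝒜, ¬ A.Countable) ∧ Reaps 𝒜 ∧
        #𝒜 ≤ #F * #𝓑 * Cardinal.aleph 1 := by
  unfold E at hE
  push Not at hE
  obtain ⟨F, 𝓑, hF, h𝓑, hcard, hbad⟩ := hE
  refine ⟨F, 𝓑, hF, h𝓑, {A | ¬ A.Countable ∧ ∃ p : F × 𝓑 × ℕ × X,
    A = {x | x ∈ (p.2.1 : Set X) ∧ (p.1 : X → ℕ) x ≤ p.2.2.1 ∧ p.2.2.2 < x}}, ?_, ?_, ?_⟩
  · intro A hA
    exact hA.1
  · intro g
    obtain ⟨f, hf, B, hB, hne⟩ := hbad g
    have hS : ({x : X | x ∈ B ∧ f x < g x}).Countable := by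
      rw [Cardinal.countable_iff_lt_aleph_one]
      have h1 : #({x : X | x ∈ B ∧ f x < g x} : Set X) ≤ #X := Cardinal.mk_set_le _
      have h2 := lt_of_le_of_ne h1 hne
      rw [hX] at h2
      exact h2
    obtain ⟨b, hb⟩ := hbdd _ hS
    have hBunc : ¬ B.Countable := by
      rw [Cardinal.countable_iff_lt_aleph_one, hcard B hB, hX]
      exact lt_irrefl _
    have hex : ∃ n : ℕ, ¬ ({x : X | x ∈ B ∧ f x ≤ n ∧ b < x}).Countable := by
      by_contra hno
      push Not at hno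
      apply hBunc
      have h1 : B ⊆ (⋃ n : ℕ, {x : X | x ∈ B ∧ f x ≤ n ∧ b < x}) ∪ (Set.Iio b ∪ {b}) := by
        intro x hx
        by_cases hxb : b < x
        · left
          exact Set.mem_iUnion.2 ⟨f x, hx, le_rfl, hxb⟩
        · right
          rcases lt_or_eq_of_le (not_lt.1 hxb) with h3 | h3
          · left
            exact h3
          · right
            exact h3
      exact ((Set.countable_iUnion hno).union ((h.ctble b).union (Set.countable_singleton b))).mono h1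
    obtain ⟨n, hn⟩ := hex
    refine ⟨_, ⟨hn, (⟨f, hf⟩, ⟨B, hB⟩, n, b), rfl⟩, n, ?_⟩
    rintro a ⟨ha1, ha2, ha3⟩
    by_contra h4
    push Not at h4
    have h5 := hb a ⟨ha1, lt_of_le_of_lt ha2 h4⟩
    exact lt_asymm h5 ha3
  · have h1 : {A : Set X | ¬ A.Countable ∧ ∃ p : F × 𝓑 × ℕ × X,
        A = {x | x ∈ (p.2.1 : Set X) ∧ (p.1 : X → ℕ) x ≤ p.2.2.1 ∧ p.2.2.2 < x}} ⊆
        Set.range (fun p : F × 𝓑 × ℕ × X =>
          {x : X | x ∈ (p.2.1 : Set X) ∧ (p.1 : X → ℕ) x ≤ p.2.2.1 ∧ p.2.2.2 < x}) := by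
      rintro A ⟨_, p, hp⟩
      exact ⟨p, hp.symm⟩
    refine (Cardinal.mk_le_mk_of_subset h1).trans (Cardinal.mk_range_le.trans ?_)
    rw [Cardinal.mk_prod, Cardinal.mk_prod, Cardinal.mk_prod, hX, Cardinal.mk_nat]
    simp only [Cardinal.lift_id, Cardinal.aleph0_mul_aleph]
    rw [mul_assoc]

/-- if E holds then D holds -/
theorem D_of_E (X : Type) (κ : Cardinal.{0}) (h : E X κ) : D X κ := by
  intro F hF
  by_cases hκ : κ ≤ 1
  · have h0 : #F = 0 := Cardinal.lt_one_iff_zero.1 (hF.trans_le hκ)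
    have h1 : IsEmpty F := Cardinal.mk_eq_zero_iff.1 h0
    exact ⟨fun _ => 0, fun f hf => (h1.false ⟨f, hf⟩).elim⟩
  · push Not at hκ
    obtain ⟨g, hg⟩ := h F {Set.univ} hF (by rw [Cardinal.mk_singleton]; exact hκ) (by
      intro A hA
      rw [Set.mem_singleton_iff] at hA
      rw [hA, Cardinal.mk_univ])
    refine ⟨g, fun f hf => ?_⟩
    have h1 := hg f hf Set.univ rfl
    have h2 : (fun x : X => x ∈ (Set.univ : Set X) ∧ f x < g x) = (fun x : X => f x < g x) := by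
      funext x
      exact propext ⟨fun h => h.2, fun h => ⟨trivial, h⟩⟩
    have h3 : #{x : X // x ∈ (Set.univ : Set X) ∧ f x < g x} = #{x : X // f x < g x} :=
      congrArg (fun p : X → Prop => #{x : X // p x}) h2
    rw [← h3]
    exact h1

/-- a dominating family contradicts D -/
theorem not_D (X : Type) (hX : #X = Cardinal.aleph 1) (κ : Cardinal.{0}) (F : Set (X → ℕ))
    (hF : #F < κ) (hdom : ∀ g : X → ℕ, ∃ f ∈ F, ∀ x, g x ≤ f x) : ¬ D X κ := by
  intro hD
  obtain ⟨g, hg⟩ := hD F hF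
  obtain ⟨f, hf, hle⟩ := hdom g
  have h1 := hg f hf
  have h2 : IsEmpty {x : X // f x < g x} := ⟨fun x => absurd x.2 (not_lt.2 (hle x.1))⟩
  rw [Cardinal.mk_eq_zero_iff.2 h2, hX] at h1
  exact (Cardinal.aleph_pos 1).ne h1


end Pool.Agent.Helper937.Dom
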