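import Pool.Agent.Helper937.Dom1

set_option autoImplicit false

open Cardinal Set

namespace Pool.Agent.Helper937.Dom

theorem om1_pull (X : Type) (hX : #X = Cardinal.aleph 1)
    (e : X ≃ (Cardinal.aleph 1).ord.ToType) : @Om1 X (LinearOrder.lift' e e.injective) := by
  let inst : LinearOrder X := LinearOrder.lift' e e.injective
  have hlt : ∀ a b : X, a < b ↔ e a < e b := fun a b => Iff.rfl
  refine ⟨?_, ?_, ?_⟩
  · have hwf : WellFounded (InvImage ((· < ·) : (Cardinal.aleph 1).ord.ToType →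
        (Cardinal.aleph 1).ord.ToType → Prop) e) := InvImage.wf e wellFounded_lt
    exact hwf
  · intro a
    have h2 : (Set.Iio (e a)).Countable := by
      rw [Cardinal.countable_iff_lt_aleph_one]
      exact Cardinal.mk_Iio_ord_toType (e a)
    have h3 : Set.Iio a = e ⁻¹' (Set.Iio (e a)) := by
      ext b
      exact hlt b a
    rw [h3]
    exact h2.preimage e.injective
  · rw [Set.countable_univ_iff, ← Cardinal.mk_le_aleph0_iff, hX, not_le]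
    exact Cardinal.aleph0_lt_aleph_one

theorem exists_om1 (X : Type) (hX : #X = Cardinal.aleph 1) :
    ∃ _ : LinearOrder X, Om1 X := by
  have h1 : #X = #((Cardinal.aleph 1).ord.ToType) := by rw [Cardinal.mk_ord_toType, hX]
  obtain ⟨e⟩ := Cardinal.eq.1 h1
  exact ⟨LinearOrder.lift' e e.injective, om1_pull X hX e⟩

/-- a countable set is bounded -/
theorem Om1.bdd {W : Type} [LinearOrder W] (h : Om1 W) (S : Set W) (hS : S.Countable) :
    ∃ b, ∀ s ∈ S, s < b := by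
  by_contra hcon
  push Not at hcon
  apply h.unc
  have h1 : (Set.univ : Set W) ⊆ ⋃ s ∈ S, (Set.Iio s ∪ {s}) := by
    intro b _
    obtain ⟨s, hs, hbs⟩ := hcon b
    simp only [Set.mem_iUnion]
    refine ⟨s, hs, ?_⟩
    rcases hbs.lt_or_eq with h2 | h2
    · exact Or.inl h2
    · exact Or.inr h2
  exact (hS.biUnion fun s _ => (h.ctble s).union (Set.countable_singleton s)).mono h1

/-- a reaping family has more than ℵ₁ members -/
theorem reap_big (X : Type) [LinearOrder X] (h : Om1 X) (hX : #X = Cardinal.aleph 1)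
    (𝒜 : Set (Set X)) (hA : ∀ A ∈ 𝒜, ¬ A.Countable) (hR : Reaps 𝒜) :
    Cardinal.aleph 1 < #𝒜 := by
  by_contra hcon
  rw [not_lt, ← hX] at hcon
  obtain ⟨F, hF⟩ := dominate h (h.bdd) 𝒜 hA hR
  obtain ⟨e⟩ := hcon
  classical
  let f : X → X := fun α => if hα : ∃ A : 𝒜, e A = α then F hα.choose α else α
  obtain ⟨A, hA1, hA2⟩ := hF f
  have h1 := hA2 (e ⟨A, hA1⟩)
  have h2 : ∃ B : 𝒜, e B = e ⟨A, hA1⟩ := ⟨⟨A, hA1⟩, rfl⟩
  have h3 : h2.choose = ⟨A, hA1⟩ := e.injective h2.choose_spec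
  simp only [f] at h1
  rw [dif_pos h2, h3] at h1
  exact lt_irrefl _ h1

/-- failure of E gives a reaping family of uncountable sets with more than ℵ₁ and fewer than κ
members -/
theorem reap_of_not_E (X : Type) [LinearOrder X] (h : Om1 X) (hX : #X = Cardinal.aleph 1)
    (κ : Cardinal.{0}) (hE : ¬ E X κ) :
    ∃ 𝒜 : Set (Set X), (∀ A ∈ 𝒜, ¬ A.Countable) ∧ Reaps 𝒜 ∧ Cardinal.aleph 1 < #𝒜 ∧ #𝒜 < κ := by
  obtain ⟨F, 𝓑, hF, h𝓑, 𝒜, hA, hR, hle⟩ := not_E X h h.bdd hX κ hE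
  have hbig := reap_big X h hX 𝒜 hA hR
  refine ⟨𝒜, hA, hR, hbig, ?_⟩
  rcases le_or_gt κ (Cardinal.aleph 1) with hκ | hκ
  · exfalso
    have h0 : ℵ₀ ≤ Cardinal.aleph 1 := Cardinal.aleph0_le_aleph 1
    have h1 : #F * #𝓑 * Cardinal.aleph 1 ≤ Cardinal.aleph 1 := by
      calc #F * #𝓑 * Cardinal.aleph 1
          ≤ Cardinal.aleph 1 * Cardinal.aleph 1 * Cardinal.aleph 1 := by
            gcongr
            · exact hF.le.trans hκ
            · exact h𝓑.le.trans hκ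
        _ = Cardinal.aleph 1 := by rw [Cardinal.mul_eq_self h0, Cardinal.mul_eq_self h0]
    exact absurd hbig (not_lt.2 (hle.trans h1))
  · have h0 : ℵ₀ ≤ κ := (Cardinal.aleph0_le_aleph 1).trans hκ.le
    exact hle.trans_lt (Cardinal.mul_lt_of_lt h0 (Cardinal.mul_lt_of_lt h0 hF h𝓑) hκ)

/-- the catching lemma for a set T of size at most ℵ_{n+1} -/
theorem catching (X : Type) [LinearOrder X] (h : Om1 X) (hX : #X = Cardinal.aleph 1)
    (𝒜 : Set (Set X)) (hA : ∀ A ∈ 𝒜, ¬ A.Countable) (hR : Reaps 𝒜) (T : Type) (n : ℕ)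
    (hT : #T ≤ Cardinal.aleph ((n + 1 : ℕ) : Ordinal.{0})) :
    ∃ 𝒳 : Set (Set T), #𝒳 ≤ Cardinal.aleph ((n + 1 : ℕ) : Ordinal.{0}) ∧
      ∃ S : Set T → Set X → ℕ → X → Finset T, (∀ C A n α, (S C A n α).card ≤ n + 1) ∧
        ∀ t : X → T, ∃ C ∈ 𝒳, ∃ A' ∈ 𝒜, ∃ n, ∃ A ∈ 𝒜, ∀ α ∈ A, t α ∈ S C A' n α := by
  classical
  obtain ⟨F, hF⟩ := dominate h h.bdd 𝒜 hA hR
  obtain ⟨𝒳, h1, h2, h3⟩ := covering n T hT
  refine ⟨𝒳, h1, catches h 𝒜 hR F hF 𝒳 ?_ ?_⟩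
  · intro C hC
    have hle : #C ≤ #X := by rw [hX]; exact h2 C hC
    obtain ⟨e⟩ := hle
    have hne : Nonempty X := by
      by_contra hne
      rw [not_nonempty_iff] at hne
      exact h.unc (Set.countable_univ_iff.2 (by infer_instance))
    obtain ⟨x0⟩ := hne
    refine ⟨fun t => if ht : t ∈ C then e ⟨t, ht⟩ else x0, ?_⟩
    intro a ha b hb hab
    simp only [dif_pos ha, dif_pos hb] at hab
    exact congrArg Subtype.val (e.injective hab)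
  · intro t
    obtain ⟨C, hC, hsub⟩ := h3 (Set.range t) (by rw [← hX]; exact Cardinal.mk_range_le)
    exact ⟨C, hC, fun α => hsub (Set.mem_range_self α)⟩

/-- there is a family of at most μ functions that dominates all functions mod finite -/
def DomLe (μ : Cardinal.{0}) : Prop :=
  ∃ D0 : Set (ℕ → ℕ), #D0 ≤ μ ∧ ∀ x : ℕ → ℕ, ∃ d ∈ D0, ∀ᶠ k in Filter.atTop, x k ≤ d k

theorem DomLe.everywhere {μ : Cardinal.{0}} (hμ : ℵ₀ ≤ μ) (h : DomLe μ) :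
    ∃ D0 : Set (ℕ → ℕ), #D0 ≤ μ ∧ ∀ x : ℕ → ℕ, ∃ d ∈ D0, ∀ k, x k ≤ d k := by
  obtain ⟨D0, h1, h2⟩ := h
  refine ⟨Set.range (fun p : D0 × ℕ => fun k => max (p.1.1 k) p.2), ?_, ?_⟩
  · refine Cardinal.mk_range_le.trans ?_
    rw [Cardinal.mk_prod, Cardinal.lift_id, Cardinal.lift_id, Cardinal.mk_nat]
    calc #D0 * ℵ₀ ≤ μ * μ := by gcongr
      _ = μ := Cardinal.mul_eq_self hμ
  · intro x
    obtain ⟨d, hd, hx⟩ := h2 x
    obtain ⟨K, hK⟩ := Filter.eventually_atTop.1 hx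
    refine ⟨_, ⟨(⟨d, hd⟩, (Finset.range K).sup x), rfl⟩, fun k => ?_⟩
    rcases lt_or_ge k K with h | h
    · exact le_max_of_le_right (Finset.le_sup (Finset.mem_range.2 h))
    · exact le_max_of_le_left (hK k h)

/-- counting: a family indexed by four sets -/
theorem index_le {T X : Type} (𝒳 : Set (Set T)) (𝒜 : Set (Set X)) {Q : Type}
    (Φ : Set T → Set X → ℕ → Set X → Q) :
    #(Set.range fun p : 𝒳 × 𝒜 × ℕ × 𝒜 => Φ p.1.1 p.2.1.1 p.2.2.1 p.2.2.2.1) ≤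
      #𝒳 * (#𝒜 * (ℵ₀ * #𝒜)) := by
  refine Cardinal.mk_range_le.trans ?_
  simp only [Cardinal.mk_prod, Cardinal.lift_id, Cardinal.mk_nat]
  exact le_rfl

/-- D implies E when κ is above the dominating number -/
theorem E_of_D (X : Type) [LinearOrder X] (h : Om1 X) (hX : #X = Cardinal.aleph 1) (n : ℕ)
    (hd : DomLe (Cardinal.aleph ((n + 1 : ℕ) : Ordinal.{0}))) (κ : Cardinal.{0})
    (hκ : Cardinal.aleph ((n + 1 : ℕ) : Ordinal.{0}) < κ) (hD : D X κ) : E X κ := by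
  by_contra hE
  obtain ⟨𝒜, hA, hR, hbig, hlt⟩ := reap_of_not_E X h hX κ hE
  obtain ⟨D0, hD0, hdom⟩ := hd.everywhere (Cardinal.aleph0_le_aleph _)
  obtain ⟨𝒳, h𝒳, S, _, hS⟩ := catching X h hX 𝒜 hA hR D0 n hD0
  obtain ⟨Φ, hΦ⟩ := app_dom h 𝒜 hA D0 hdom 𝒳 S hS
  have h0 : ℵ₀ ≤ κ := (Cardinal.aleph0_le_aleph _).trans hκ.le
  have h0' : ℵ₀ < κ := (Cardinal.aleph0_le_aleph _).trans_lt hκ
  refine not_D X hX κ (Set.range fun p : 𝒳 × 𝒜 × ℕ × 𝒜 => Φ p.1.1 p.2.1.1 p.2.2.1 p.2.2.2.1)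
    ?_ ?_ hD
  · refine (index_le 𝒳 𝒜 Φ).trans_lt ?_
    exact Cardinal.mul_lt_of_lt h0 (h𝒳.trans_lt hκ)
      (Cardinal.mul_lt_of_lt h0 hlt (Cardinal.mul_lt_of_lt h0 h0' hlt))
  · intro g
    obtain ⟨C, hC, A', hA', n, A, hA, hb⟩ := hΦ g
    exact ⟨_, ⟨(⟨C, hC⟩, ⟨A', hA'⟩, n, ⟨A, hA⟩), rfl⟩, hb⟩

/-- E for small κ -/
theorem E_small (X : Type) [LinearOrder X] (h : Om1 X) (hX : #X = Cardinal.aleph 1)
    (κ : Cardinal.{0}) (hκ : κ ≤ Cardinal.aleph 2) : E X κ := by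
  by_contra hE
  obtain ⟨𝒜, hA, hR, hbig, hlt⟩ := reap_of_not_E X h hX κ hE
  have h1 : Cardinal.aleph 2 = Order.succ (Cardinal.aleph 1) := by
    rw [← Cardinal.aleph_succ]
    congr 1
    rw [Order.succ_eq_add_one]
    norm_num
  have h2 := hlt.trans_le hκ
  rw [h1] at h2
  exact absurd (Order.lt_succ_iff.1 h2) (not_le.2 hbig)

/-- E for κ up to the cofinality of ω₁^ω₁ -/
theorem E_cof (X : Type) [LinearOrder X] (h : Om1 X) (hX : #X = Cardinal.aleph 1)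
    (κ : Cardinal.{0})
    (hκ : ∀ 𝓕 : Set (X → X), #𝓕 < κ → ∃ f : X → X, ∀ F ∈ 𝓕, ∃ α, F α ≤ f α) : E X κ := by
  by_contra hE
  obtain ⟨𝒜, hA, hR, hbig, hlt⟩ := reap_of_not_E X h hX κ hE
  obtain ⟨F, hF⟩ := dominate h h.bdd 𝒜 hA hR
  obtain ⟨f, hf⟩ := hκ (Set.range fun A : 𝒜 => F A.1) (Cardinal.mk_range_le.trans_lt hlt)
  obtain ⟨A, hA1, hA2⟩ := hF f
  obtain ⟨α, hα⟩ := hf _ ⟨⟨A, hA1⟩, rfl⟩
  exact absurd (hA2 α) (not_lt.2 hα)

/-- the type of countable subsets of X has size 2^ℵ₀ -/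
theorem mk_ctble (X : Type) (hX : #X = Cardinal.aleph 1) :
    #{s : Set X // s.Countable} ≤ 2 ^ ℵ₀ := by
  classical
  have hne : Nonempty X := by
    rw [← Cardinal.mk_ne_zero_iff, hX]
    exact (Cardinal.aleph_pos 1).ne'
  have hsurj : Function.Surjective (fun o : Option (ℕ → X) =>
      (match o with
        | none => ⟨∅, Set.countable_empty⟩
        | some f => ⟨Set.range f, Set.countable_range f⟩ : {s : Set X // s.Countable})) := by
    rintro ⟨s, hs⟩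
    rcases s.eq_empty_or_nonempty with rfl | hne
    · exact ⟨none, rfl⟩
    · obtain ⟨f, hf⟩ := hs.exists_eq_range hne
      exact ⟨some f, Subtype.ext hf.symm⟩
  refine (Cardinal.mk_le_of_surjective hsurj).trans ?_
  rw [Cardinal.mk_option]
  have h1 : #(ℕ → X) ≤ 2 ^ ℵ₀ := by
    rw [← Cardinal.power_def, Cardinal.mk_nat, hX]
    calc Cardinal.aleph 1 ^ ℵ₀ ≤ (2 ^ ℵ₀) ^ ℵ₀ := by
          apply Cardinal.power_le_power_right
          rw [Cardinal.two_power_aleph0]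
          exact Cardinal.aleph_one_le_continuum
      _ = 2 ^ ℵ₀ := by rw [← Cardinal.power_mul, Cardinal.aleph0_mul_aleph0]
  calc #(ℕ → X) + 1 ≤ 2 ^ ℵ₀ + 1 := by gcongr
    _ = 2 ^ ℵ₀ := Cardinal.add_one_eq (Cardinal.cantor ℵ₀).le

/-- a reaping family has 2^ℵ₁ members if 2^ℵ₀ is small -/
theorem reap_huge (X : Type) [LinearOrder X] (h : Om1 X) (hX : #X = Cardinal.aleph 1)
    (𝒜 : Set (Set X)) (hA : ∀ A ∈ 𝒜, ¬ A.Countable) (hR : Reaps 𝒜) (n : ℕ)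
    (hc : (2 : Cardinal.{0}) ^ ℵ₀ ≤ Cardinal.aleph ((n + 1 : ℕ) : Ordinal.{0})) :
    2 ^ Cardinal.aleph 1 ≤ max (Cardinal.aleph ((n + 1 : ℕ) : Ordinal.{0})) #𝒜 := by
  obtain ⟨𝒳, h𝒳, S, hcard, hS⟩ := catching X h hX 𝒜 hA hR {s : Set X // s.Countable} n
    ((mk_ctble X hX).trans hc)
  have h1 := app_pow h 𝒜 hA 𝒳 S hcard hS
  rw [Cardinal.mk_set, hX] at h1
  refine h1.trans ?_
  set M := max (Cardinal.aleph ((n + 1 : ℕ) : Ordinal.{0})) #𝒜 with hM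
  have h0 : ℵ₀ ≤ M := (Cardinal.aleph0_le_aleph _).trans (le_max_left _ _)
  calc #𝒳 * #𝒜 * ℵ₀ * #𝒜 * ℵ₀ ≤ M * M * M * M * M := by
        gcongr
        · exact h𝒳.trans (le_max_left _ _)
        · exact le_max_right _ _
        · exact le_max_right _ _
    _ = M := by rw [Cardinal.mul_eq_self h0, Cardinal.mul_eq_self h0, Cardinal.mul_eq_self h0,
        Cardinal.mul_eq_self h0]

theorem E_mono (X : Type) (κ κ' : Cardinal.{0}) (hle : κ ≤ κ') (h : E X κ') : E X κ := by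
  intro F 𝒜 hF h𝒜 hA
  exact h F 𝒜 (hF.trans_le hle) (h𝒜.trans_le hle) hA

/-- D fails above 2^ℵ₁ -/
theorem not_D_big (X : Type) (hX : #X = Cardinal.aleph 1) (κ : Cardinal.{0})
    (hκ : 2 ^ Cardinal.aleph 1 < κ) : ¬ D X κ := by
  refine not_D X hX κ Set.univ ?_ (fun g => ⟨g, Set.mem_univ g, fun x => le_rfl⟩)
  rw [Cardinal.mk_univ, ← Cardinal.power_def, hX, Cardinal.mk_nat,
    Cardinal.power_eq_two_power (Cardinal.aleph0_le_aleph 1) (Cardinal.natCast_lt_aleph0 (n := 2)).le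
      (Cardinal.aleph0_le_aleph 1)]
  exact hκ

/-- E(ω₁, 2^ℵ₁) if 2^ℵ₀ is small -/
theorem E_pow (X : Type) [LinearOrder X] (h : Om1 X) (hX : #X = Cardinal.aleph 1)
    (hc : (2 : Cardinal.{0}) ^ ℵ₀ ≤ Cardinal.aleph 2 ∨
      ((2 : Cardinal.{0}) ^ ℵ₀ < Cardinal.aleph Ordinal.omega0 ∧
        (2 : Cardinal.{0}) ^ ℵ₀ < 2 ^ Cardinal.aleph 1)) : E X (2 ^ Cardinal.aleph 1) := by
  by_contra hE
  obtain ⟨𝒜, hA, hR, hbig, hlt⟩ := reap_of_not_E X h hX _ hE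
  rcases hc with hc | ⟨hc1, hc2⟩
  · have h2 : ((2 : Ordinal.{0})) = ((1 + 1 : ℕ) : Ordinal.{0}) := by norm_num
    have h3 := reap_huge X h hX 𝒜 hA hR 1 (by rw [← h2]; exact hc)
    rw [← h2] at h3
    have h4 : Cardinal.aleph 2 ≤ #𝒜 := by
      have h1 : Cardinal.aleph 2 = Order.succ (Cardinal.aleph 1) := by
        rw [← Cardinal.aleph_succ]
        congr 1
        rw [Order.succ_eq_add_one]
        norm_num
      rw [h1]
      exact Order.succ_le_of_lt hbig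
    rw [max_eq_right h4] at h3
    exact absurd hlt (not_lt.2 h3)
  · have hle : ℵ₀ ≤ (2 : Cardinal.{0}) ^ ℵ₀ := (Cardinal.cantor ℵ₀).le
    obtain ⟨o, ho⟩ := Cardinal.mem_range_aleph_iff.2 hle
    rw [← ho, Cardinal.aleph_lt_aleph] at hc1
    obtain ⟨m, rfl⟩ := Ordinal.lt_omega0.1 hc1
    have hm : m ≠ 0 := by
      rintro rfl
      rw [Nat.cast_zero, Cardinal.aleph_zero] at ho
      exact absurd (Cardinal.cantor ℵ₀) (by rw [← ho]; exact lt_irrefl _)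
    obtain ⟨n, rfl⟩ := Nat.exists_eq_succ_of_ne_zero hm
    have h3 := reap_huge X h hX 𝒜 hA hR n ho.ge
    refine absurd h3 (not_le.2 (max_lt ?_ hlt))
    have h5 : Cardinal.aleph ((n + 1 : ℕ) : Ordinal.{0}) = 2 ^ ℵ₀ := ho
    rw [h5]
    exact hc2

/-- E for κ up to the cofinality of ω₁^ω₁, with the order of ω₁ -/
theorem E_cof' (X : Type) (hX : #X = Cardinal.aleph 1) (κ : Cardinal.{0})
    (hκ : ∀ 𝓕 : Set ((Cardinal.aleph 1).ord.ToType → (Cardinal.aleph 1).ord.ToType), #𝓕 < κ →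
      ∃ f : (Cardinal.aleph 1).ord.ToType → (Cardinal.aleph 1).ord.ToType,
        ∀ F ∈ 𝓕, ∃ α, F α ≤ f α) : E X κ := by
  have h1 : #X = #((Cardinal.aleph 1).ord.ToType) := by rw [Cardinal.mk_ord_toType, hX]
  obtain ⟨e⟩ := Cardinal.eq.1 h1
  let inst : LinearOrder X := LinearOrder.lift' e e.injective
  refine E_cof X (om1_pull X hX e) hX κ ?_
  intro 𝓕 h𝓕
  obtain ⟨f, hf⟩ := hκ ((fun F : X → X => fun α => e (F (e.symm α))) '' 𝓕)
    (Cardinal.mk_image_le.trans_lt h𝓕)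
  refine ⟨fun x => e.symm (f (e x)), fun F hF => ?_⟩
  obtain ⟨α, hα⟩ := hf _ ⟨F, hF, rfl⟩
  refine ⟨e.symm α, ?_⟩
  have hle : ∀ a b : X, a ≤ b ↔ e a ≤ e b := fun a b => Iff.rfl
  rw [hle]
  simpa using hα

theorem DomLe.mono {μ μ' : Cardinal.{0}} (h : μ ≤ μ') (hd : DomLe μ) : DomLe μ' := by
  obtain ⟨D0, h1, h2⟩ := hd
  exact ⟨D0, h1.trans h, h2⟩

/-- D and E agree above the dominating number, if it is below ℵ_ω -/
theorem iff_above (X : Type) (hX : #X = Cardinal.aleph 1) (n : ℕ)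
    (hd : DomLe (Cardinal.aleph (n : Ordinal.{0}))) (κ : Cardinal.{0})
    (hκ : Cardinal.aleph (n : Ordinal.{0}) < κ) : D X κ ↔ E X κ := by
  obtain ⟨inst, h⟩ := exists_om1 X hX
  refine ⟨fun hD => ?_, D_of_E X κ⟩
  rcases le_or_gt κ (Cardinal.aleph 2) with h2 | h2
  · exact E_small X h hX κ h2
  · rcases Nat.eq_zero_or_pos n with rfl | hn
    · refine E_of_D X h hX 0 (hd.mono ?_) κ ?_ hD
      · rw [Cardinal.aleph_le_aleph]; exact_mod_cast Nat.zero_le 1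
      · refine lt_of_le_of_lt ?_ h2
        rw [Cardinal.aleph_le_aleph]
        norm_num
    · obtain ⟨m, rfl⟩ := Nat.exists_eq_succ_of_ne_zero hn.ne'
      exact E_of_D X h hX m hd κ hκ hD

end Pool.Agent.Helper937.Dom
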