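import Pool.Agent.Helper937.Dom2

set_option autoImplicit false

open Cardinal Set

namespace Pool.Agent.Helper937.Dom

theorem D_of_lt_d (X : Type) (hX : #X = Cardinal.aleph 1) (κ : Cardinal.{0})
    (h1 : Cardinal.aleph 1 < κ) (hκ : ∀ μ < κ, ¬ DomLe μ) : D X κ := by
  have hal : ℵ₀ ≤ Cardinal.aleph 1 := Cardinal.aleph0_le_aleph 1
  have hcard : #X = #(X × ℕ) := by
    rw [Cardinal.mk_prod, Cardinal.lift_id, Cardinal.lift_id, hX, Cardinal.mk_nat,
      Cardinal.mul_eq_left hal hal Cardinal.aleph0_ne_zero]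
  obtain ⟨e⟩ := Cardinal.eq.mp hcard
  intro F hF
  have hlt : #(Set.range (fun p : F × X => fun k : ℕ => p.1.1 (e.symm (p.2, k)))) < κ := by
    refine lt_of_le_of_lt Cardinal.mk_range_le ?_
    rw [Cardinal.mk_prod, Cardinal.lift_id, Cardinal.lift_id, hX]
    exact Cardinal.mul_lt_of_lt (hal.trans h1.le) hF h1
  have hnd := hκ _ hlt
  have hh : ∃ h : ℕ → ℕ, ∀ d ∈ Set.range (fun p : F × X => fun k : ℕ => p.1.1 (e.symm (p.2, k))),
      ∃ k, d k < h k := by
    by_contra hcon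
    apply hnd
    refine ⟨_, le_rfl, fun x => ?_⟩
    by_contra hx
    apply hcon
    refine ⟨x, fun d hd => ?_⟩
    by_contra hk
    apply hx
    refine ⟨d, hd, Filter.Eventually.of_forall fun k => ?_⟩
    by_contra hk2
    exact hk ⟨k, not_le.mp hk2⟩
  obtain ⟨h, hh⟩ := hh
  refine ⟨fun z => h (e z).2, fun f hf => le_antisymm (Cardinal.mk_subtype_le _) ?_⟩
  have hk : ∀ x : X, ∃ k, f (e.symm (x, k)) < h k := fun x => hh _ ⟨(⟨f, hf⟩, x), rfl⟩
  choose kx hkx using hk
  refine Cardinal.mk_le_of_injective (f := fun x : X => (⟨e.symm (x, kx x), by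
    simpa using hkx x⟩ : {z : X // f z < h (e z).2})) ?_
  intro x y hxy
  have := congrArg Subtype.val hxy
  have h2 := e.symm.injective this
  exact (Prod.ext_iff.mp h2).1



theorem ek_card (X : Type) (hinf : ℵ₀ ≤ #X) (hX : #X ^ ℵ₀ = #X) :
    Nonempty (X ≃ (ℕ → X) × (ℕ → ℕ → Bool) × (ℕ → ℕ)) := by
  rw [← Cardinal.eq]
  have h1 : #(ℕ → X) = #X := by
    rw [Cardinal.mk_arrow]
    simpa using hX
  have h2 : #(ℕ → ℕ → Bool) ≤ #X := by
    have h3 : #(ℕ → ℕ → Bool) = (2 ^ ℵ₀) ^ ℵ₀ := by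
      simp [Cardinal.mk_arrow]
    rw [h3]
    calc ((2:Cardinal.{0}) ^ ℵ₀) ^ ℵ₀ ≤ (#X ^ ℵ₀) ^ ℵ₀ := by
          apply Cardinal.power_le_power_right
          apply Cardinal.power_le_power_right
          exact le_trans (Cardinal.ofNat_lt_aleph0).le hinf
      _ = #X := by rw [hX, hX]
  have h3 : #(ℕ → ℕ) ≤ #X := by
    have h4 : #(ℕ → ℕ) = ℵ₀ ^ ℵ₀ := by
      simp [Cardinal.mk_arrow]
    rw [h4]
    calc (ℵ₀ : Cardinal.{0}) ^ ℵ₀ ≤ #X ^ ℵ₀ := Cardinal.power_le_power_right hinf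
      _ = #X := hX
  rw [Cardinal.mk_prod, Cardinal.mk_prod, Cardinal.lift_id, Cardinal.lift_id, Cardinal.lift_id,
    Cardinal.lift_id, h1]
  apply le_antisymm
  · have h5 : (1:Cardinal.{0}) ≤ #(ℕ → ℕ → Bool) * #(ℕ → ℕ) := by
      rw [Cardinal.one_le_iff_ne_zero]
      apply mul_ne_zero
      · exact Cardinal.mk_ne_zero _
      · exact Cardinal.mk_ne_zero _
    calc #X = #X * 1 := (mul_one _).symm
      _ ≤ _ := by gcongr
  · calc #X * (#(ℕ → ℕ → Bool) * #(ℕ → ℕ)) ≤ #X * (#X * #X) := by gcongr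
      _ = #X := by rw [Cardinal.mul_eq_self hinf, Cardinal.mul_eq_self hinf]

open Classical in
noncomputable def ek_G {X : Type} (e : X ≃ (ℕ → X) × (ℕ → ℕ → Bool) × (ℕ → ℕ)) (y : Set X)
    (x : X) : ℕ :=
  if h : ∃ n, ∀ m, ((e x).1 m ∈ y ↔ (e x).2.1 n m = true) then (e x).2.2 (Nat.find h) else 0

theorem ek_G_eq {X : Type} (e : X ≃ (ℕ → X) × (ℕ → ℕ → Bool) × (ℕ → ℕ)) (y : Set X)
    (a : ℕ → X) (s : ℕ → ℕ → Bool) (k : ℕ → ℕ) (n : ℕ) (hn : ∀ m, (a m ∈ y ↔ s n m = true))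
    (hmin : ∀ n', (∀ m, (a m ∈ y ↔ s n' m = true)) → n' = n ∨ n < n') :
    ek_G e y (e.symm (a, s, k)) = k n := by
  classical
  unfold ek_G
  have h : ∃ n, ∀ m, ((e (e.symm (a, s, k))).1 m ∈ y ↔
      (e (e.symm (a, s, k))).2.1 n m = true) := by
    refine ⟨n, ?_⟩
    rw [Equiv.apply_symm_apply]
    exact hn
  rw [dif_pos h]
  have h1 := Nat.find_spec h
  have h2 : Nat.find h ≤ n := by
    apply Nat.find_min'
    rw [Equiv.apply_symm_apply]
    exact hn
  have h33 : ∀ n', (∀ m, ((e (e.symm (a, s, k))).1 m ∈ y ↔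
      (e (e.symm (a, s, k))).2.1 n' m = true)) → (∀ m, (a m ∈ y ↔ s n' m = true)) := by
    intro n' hh m
    have := hh m
    rw [Equiv.apply_symm_apply] at this
    exact this
  have h3 := h33 _ h1
  have h4 : Nat.find h = n := by
    rcases hmin _ h3 with h5 | h5
    · exact h5
    · omega
  rw [h4, Equiv.apply_symm_apply]

/-- an omega_1-independent family of 2^ν functions from ν to ω, when ν^ω = ν -/
theorem ek (X : Type) (hinf : ℵ₀ ≤ #X) (hX : #X ^ ℵ₀ = #X) :
    ∃ 𝒢 : Set (X → ℕ), #𝒢 = 2 ^ #X ∧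
      ∀ g : ℕ → (X → ℕ), (∀ n, g n ∈ 𝒢) → Function.Injective g →
        ∀ k : ℕ → ℕ, #{x : X // ∀ n, g n x = k n} = #X := by
  classical
  obtain ⟨e⟩ := ek_card X hinf hX
  have hGinj : Function.Injective (ek_G e) := by
    intro y y' hyy
    by_contra hne
    have hw : ∃ w : X, ¬ (w ∈ y ↔ w ∈ y') := by
      by_contra hcon
      push Not at hcon
      exact hne (Set.ext hcon)
    obtain ⟨w, hw⟩ := hw
    set a : ℕ → X := fun _ => w with ha
    set s : ℕ → ℕ → Bool := fun n _ => if n = 0 then decide (w ∈ y) else decide (w ∈ y') with hs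
    have h1 : ek_G e y (e.symm (a, s, id)) = 0 := by
      have := ek_G_eq e y a s id 0 (by intro m; simp [ha, hs]) (by intro n' _; omega)
      simpa using this
    have h2 : ek_G e y' (e.symm (a, s, id)) = 1 := by
      have := ek_G_eq e y' a s id 1 (by intro m; simp [ha, hs]) (by
        intro n' hn'
        have h3 : n' ≠ 0 := by
          intro h0
          have h4 := hn' 0
          rw [h0] at h4
          simp only [ha, hs, if_true, decide_eq_true_eq] at h4
          exact hw h4.symm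
        omega)
      simpa using this
    rw [hyy, h2] at h1
    omega
  refine ⟨Set.range (ek_G e), ?_, ?_⟩
  · rw [Cardinal.mk_range_eq _ hGinj, Cardinal.mk_set]
  · intro g hg hginj k
    choose y hy using hg
    have hyinj : Function.Injective y := by
      intro i j hij
      apply hginj
      rw [← hy i, ← hy j, hij]
    have hXne : Nonempty X := by
      rw [← Cardinal.mk_ne_zero_iff]
      intro h0
      rw [h0] at hinf
      exact absurd hinf (not_le.mpr Cardinal.aleph0_pos)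
    have hw : ∀ p : ℕ × ℕ, ∃ w : X, p.1 ≠ p.2 → ¬ (w ∈ y p.1 ↔ w ∈ y p.2) := by
      intro p
      by_cases hp : p.1 = p.2
      · exact ⟨hXne.some, fun h => absurd hp h⟩
      · by_contra hcon
        push Not at hcon
        have h1 : y p.1 = y p.2 := Set.ext (fun w => (hcon w).2)
        exact hp (hyinj h1)
    choose w hw using hw
    let a : X → ℕ → X := fun z m => Nat.casesOn m z (fun m' => w (Nat.unpair m'))
    have ha0 : ∀ z, a z 0 = z := fun z => rfl
    have ha1 : ∀ z m, a z (m+1) = w (Nat.unpair m) := fun z m => rfl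
    let s : X → ℕ → ℕ → Bool := fun z n m => decide (a z m ∈ y n)
    have key : ∀ z n, ek_G e (y n) (e.symm (a z, s z, k)) = k n := by
      intro z n
      apply ek_G_eq e (y n) (a z) (s z) k n
      · intro m; simp [s]
      · intro n' hn'
        left
        by_contra hne
        have h1 := hn' (Nat.pair n n' + 1)
        have h2 := hw (n, n') (fun h => hne h.symm)
        apply h2
        rw [ha1 z, Nat.unpair_pair] at h1
        rw [h1]
        simp only [s, decide_eq_true_eq]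
        rw [ha1 z, Nat.unpair_pair]
    apply le_antisymm
    · exact Cardinal.mk_subtype_le _
    · have hf : ∀ z : X, ∀ n, g n (e.symm (a z, s z, k)) = k n := by
        intro z n
        rw [← hy n]
        exact key z n
      refine Cardinal.mk_le_of_injective (f := fun z : X =>
        (⟨e.symm (a z, s z, k), hf z⟩ : {x : X // ∀ n, g n x = k n})) ?_
      intro z z' hzz
      simp only [Subtype.mk.injEq, EmbeddingLike.apply_eq_iff_eq, Prod.mk.injEq] at hzz
      have := congrFun hzz.1 0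
      rwa [ha0, ha0] at this



theorem D_pow (X : Type) (hinf : ℵ₀ ≤ #X) (hX : #X ^ ℵ₀ = #X)
    (𝒢 : Set (X → ℕ)) (h𝒢 : #𝒢 = 2 ^ #X)
    (hind : ∀ g : ℕ → (X → ℕ), (∀ n, g n ∈ 𝒢) → Function.Injective g →
        ∀ k : ℕ → ℕ, #{x : X // ∀ n, g n x = k n} = #X) : D X (2 ^ #X) := by
  classical
  have hcof : ℵ₀ < (#X).ord.cof := by
    by_contra hle
    push Not at hle
    have h1 := Cardinal.lt_power_cof_ord hinf
    have h2 : #X ^ (#X).ord.cof ≤ #X ^ ℵ₀ :=
      Cardinal.power_le_power_left (by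
        intro h0
        rw [h0] at hinf
        exact absurd hinf (not_le.mpr Cardinal.aleph0_pos)) hle
    rw [hX] at h2
    exact absurd (h1.trans_le h2) (lt_irrefl _)
  have hunion : ∀ Z : ℕ → Set X, (∀ n, #(Z n) < #X) → #(⋃ n, Z n) < #X := by
    intro Z hZ
    refine (Cardinal.mk_iUnion_le Z).trans_lt ?_
    refine Cardinal.mul_lt_of_lt hinf ?_ ?_
    · rw [Cardinal.mk_nat]
      exact hcof.trans_le (Ordinal.cof_ord_le _)
    · exact Cardinal.iSup_lt_of_lt_cof_ord (by rw [Cardinal.mk_nat]; exact hcof) hZ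
  let B : (X → ℕ) → Set (X → ℕ) := fun f => {g | g ∈ 𝒢 ∧ #{x : X // f x < g x} ≠ #X}
  have hBfin : ∀ f, (B f).Finite := by
    intro f
    by_contra hinfB
    have hI : (B f).Infinite := hinfB
    let gs : ℕ → (X → ℕ) := fun n => (hI.natEmbedding _ n : X → ℕ)
    have hgs : ∀ n, gs n ∈ B f := fun n => (hI.natEmbedding _ n).2
    have hinj : Function.Injective gs := by
      intro a b hab
      exact (hI.natEmbedding _).injective (Subtype.ext hab)
    have hZ : ∀ n, #({x : X | f x < gs n x} : Set X) < #X := by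
      intro n
      refine lt_of_le_of_ne (Cardinal.mk_set_le _) ?_
      exact (hgs n).2
    have hU := hunion (fun n => {x : X | f x < gs n x}) hZ
    have h1 := hind gs (fun n => (hgs n).1) hinj (fun n => n)
    have h2 : ∃ x, (∀ n, gs n x = n) ∧ x ∉ ⋃ n, {x : X | f x < gs n x} := by
      by_contra hcon
      push Not at hcon
      have h3 : ({x : X | ∀ n, gs n x = n} : Set X) ⊆ ⋃ n, {x : X | f x < gs n x} :=
        fun x hx => hcon x hx
      have h4 := Cardinal.mk_le_mk_of_subset h3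
      have h5 : #({x : X | ∀ n, gs n x = n} : Set X) = #X := h1
      rw [h5] at h4
      exact absurd (h4.trans_lt hU) (lt_irrefl _)
    obtain ⟨x, hx1, hx2⟩ := h2
    apply hx2
    refine Set.mem_iUnion.mpr ⟨f x + 1, ?_⟩
    show f x < gs (f x + 1) x
    rw [hx1]
    omega
  intro F hF
  have hlt : #(⋃ f : F, B f.1) < #𝒢 := by
    rw [h𝒢]
    refine (Cardinal.mk_iUnion_le (fun f : F => B f.1)).trans_lt ?_
    have h2 : ℵ₀ < 2 ^ #X := hinf.trans_lt (Cardinal.cantor _)
    refine Cardinal.mul_lt_of_lt h2.le hF ?_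
    refine lt_of_le_of_lt ?_ h2
    exact ciSup_le' fun f => (Set.Finite.lt_aleph0 (hBfin f.1)).le
  have hex : ∃ g ∈ 𝒢, g ∉ ⋃ f : F, B f.1 := by
    by_contra hcon
    push Not at hcon
    have := Cardinal.mk_le_mk_of_subset (show 𝒢 ⊆ ⋃ f : F, B f.1 from hcon)
    exact absurd (this.trans_lt hlt) (lt_irrefl _)
  obtain ⟨g, hg, hgB⟩ := hex
  refine ⟨g, fun f hf => ?_⟩
  by_contra hne
  exact hgB (Set.mem_iUnion.mpr ⟨⟨f, hf⟩, hg, hne⟩)

theorem not_E_of_ultra (X : Type) (hinf : ℵ₀ ≤ #X) (U : Ultrafilter X)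
    (hunif : ∀ s ∈ U, #s = #X)
    (hcompl : ∀ s : ℕ → Set X, (∀ n, s n ∈ U) → (⋂ n, s n) ∈ U)
    (ℬ : Set (Set X)) (hℬ : #ℬ < 2 ^ #X) (hℬU : ∀ B ∈ ℬ, B ∈ U)
    (hbase : ∀ s ∈ U, ∃ B ∈ ℬ, B ⊆ s) : ¬ E X (2 ^ #X) := by
  intro hE
  have h2 : ℵ₀ < 2 ^ #X := hinf.trans_lt (Cardinal.cantor _)
  have hF : #(Set.range (fun n : ℕ => (fun _ : X => n))) < 2 ^ #X :=
    (Cardinal.mk_range_le.trans (by rw [Cardinal.mk_nat])).trans_lt h2
  obtain ⟨g, hg⟩ := hE (Set.range (fun n : ℕ => (fun _ : X => n))) ℬ hF hℬ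
    (fun A hA => hunif A (hℬU A hA))
  have hX0 : #X ≠ 0 := by
    intro h0
    rw [h0] at hinf
    exact absurd hinf (not_le.mpr Cardinal.aleph0_pos)
  have hex : ∃ n : ℕ, {x : X | g x ≤ n} ∈ U := by
    by_contra hcon
    push Not at hcon
    have h3 : ∀ n : ℕ, {x : X | n < g x} ∈ U := by
      intro n
      have h4 := Ultrafilter.compl_mem_iff_notMem.mpr (hcon n)
      have h5 : {x : X | g x ≤ n}ᶜ = {x : X | n < g x} := by
        ext x; simp
      rwa [h5] at h4
    have h6 := hcompl _ h3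
    have h7 : (⋂ n : ℕ, {x : X | n < g x}) = ∅ := by
      ext x
      simp only [Set.mem_iInter, Set.mem_ofPred_eq, Set.mem_empty_iff_false, iff_false, not_forall]
      exact ⟨g x, lt_irrefl _⟩
    rw [h7] at h6
    have h8 := hunif ∅ h6
    rw [Cardinal.mk_eq_zero] at h8
    exact hX0 h8.symm
  obtain ⟨n, hn⟩ := hex
  obtain ⟨B, hB, hBs⟩ := hbase _ hn
  have h9 := hg (fun _ => n) ⟨n, rfl⟩ B hB
  have h10 : IsEmpty {x : X // x ∈ B ∧ n < g x} := by
    refine ⟨fun x => ?_⟩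
    have h11 : g x.1 ≤ n := hBs x.2.1
    exact absurd x.2.2 (not_lt.mpr h11)
  rw [Cardinal.mk_eq_zero] at h9
  exact hX0 h9.symm


end Pool.Agent.Helper937.Dom
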