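import Mathlib
import Pool.Agent.Helper937.Dya9

set_option autoImplicit false

open Set Topology Filter Cardinal

namespace Pool.Agent.Helper937.Dya

open Pool.Agent.Helper937.Fact

/-- continuous surjections onto normal spaces, restricted to copies of `C_p(X)` mapped into compact
sets, depend on countably many coordinates -/
theorem main_cover2 (X : Type) [TopologicalSpace X] [CompactSpace X] [T2Space X]
    (hX : ∀ A : Set X, #A ≤ ℵ₁ → ∃ C : W1 → Set (Cp X), (⋃ α, C α) = Set.univ ∧ ∀ α, ACosmic A (C α))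
    (Y : Type) [TopologicalSpace Y] [NormalSpace Y] [T2Space Y] (φ : Cp X → Y)
    (hφ : Continuous φ) (hs : Function.Surjective φ) (K : Set Y) (hK : IsCompact K)
    (θ : Cp X → K) :
    ∃ A : Set X, A.Countable ∧ Good (fun f : Cp X => f.1) θ A := by
  classical
  have hKc : CompactSpace K := isCompact_iff_compactSpace.mp hK
  let e : Cp X → X → ℝ := fun f => f.1
  have hd : DenseRange e := denseRange_Cp X
  have he : IsInducing e := IsInducing.subtypeVal
  by_contra hg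
  obtain ⟨J, hJ, hsep, hpat⟩ := dichotomy e θ hd hg
  have hcl : ∀ (G : Finset X) (b : X → BB), IsClosed (Subtype.val '' (Cl e θ G b)) := fun G b =>
    ((isClosed_closure (s := θ '' (e ⁻¹' Box G b))).isCompact.image continuous_subtype_val).isClosed
  -- Urysohn functions
  have hur : ∀ p ∈ J, ∃ (f : C(Y, ℝ)) (A : Set X), A.Countable ∧
      EqOn f 0 (Subtype.val '' (Cl e θ p.1 p.2.1)) ∧ EqOn f 1 (Subtype.val '' (Cl e θ p.1 p.2.2)) ∧
      ∀ (s : Cp X) (U : Set ℝ), IsOpen U → f (φ s) ∈ U →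
        ∃ (G : Finset X) (b : X → BB), (G : Set X) ⊆ A ∧ e s ∈ Box G b ∧
          ∀ z : Cp X, e z ∈ Box G b → f (φ z) ∈ U := by
    intro p hp
    have hdis : Disjoint (Subtype.val '' (Cl e θ p.1 p.2.1)) (Subtype.val '' (Cl e θ p.1 p.2.2)) :=
      (Set.disjoint_image_iff Subtype.val_injective).mpr (hsep p hp)
    obtain ⟨f, h1, h2, h3⟩ := exists_continuous_zero_one_of_isClosed (hcl _ _) (hcl _ _) hdis
    have hK : CTight (Set.Icc (0:ℝ) 1) := by
      intro A x hx
      obtain ⟨s, hs, hs2⟩ := mem_closure_iff_seq_limit.mp hx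
      refine ⟨range s, range_subset_iff.mpr hs, countable_range s, ?_⟩
      exact mem_closure_of_tendsto hs2 (Filter.Eventually.of_forall fun n => mem_range_self n)
    let ψ : Cp X → Set.Icc (0:ℝ) 1 := fun s => ⟨f (φ s), h3 (φ s)⟩
    have hψ : Continuous ψ := (f.continuous.comp hφ).subtype_mk _
    obtain ⟨A, hA, hfac⟩ := factor e ψ he hd hK hψ
    refine ⟨f, A, hA, h1, h2, fun s U hU hsU => ?_⟩
    obtain ⟨G, b, hG, hb, himg⟩ := hfac s (Subtype.val ⁻¹' U) (hU.preimage continuous_subtype_val) hsU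
    exact ⟨G, b, hG, hb, fun z hz => himg z hz⟩
  choose! f A hAc hf0 hf1 hfac using hur
  -- a square of size aleph_1 inside J
  have hcard : #(W1 × W1) ≤ #J := by
    rw [Cardinal.mk_prod, Cardinal.lift_id, mk_W1,
      Cardinal.mul_eq_self (Cardinal.aleph0_le_aleph 1)]
    have : ℵ₀ < #J := by
      rw [← not_le, Cardinal.le_aleph0_iff_set_countable]
      exact hJ
    rw [← Cardinal.succ_aleph0]
    exact Order.succ_le_of_lt this
  obtain ⟨q⟩ : Nonempty (W1 × W1 ↪ J) := hcard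
  let A' : Set X := ⋃ w : W1 × W1, A (q w).1
  have hA' : #A' ≤ ℵ₁ := by
    refine (Cardinal.mk_iUnion_le_sum_mk).trans ?_
    refine (Cardinal.sum_le_sum _ (fun _ => ℵ₀) (fun w =>
      Cardinal.le_aleph0_iff_set_countable.mpr (hAc _ (q w).2))).trans ?_
    rw [Cardinal.sum_const', Cardinal.mk_prod, Cardinal.lift_id, mk_W1,
      Cardinal.mul_eq_self (Cardinal.aleph0_le_aleph 1)]
    exact (mul_le_mul' le_rfl Cardinal.aleph0_lt_aleph_one.le).trans
      (Cardinal.mul_eq_self (Cardinal.aleph0_le_aleph 1)).le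
  obtain ⟨C, hC, hCc⟩ := hX A' hA'
  -- for each α, a pattern omitted by C α
  have hom : ∀ α : W1, ∃ B : Set W1, ∀ g ∈ C α, ¬ ∀ j : W1,
      (j ∈ B → φ g ∈ Subtype.val '' (Cl e θ (q (α, j)).1.1 (q (α, j)).1.2.2)) ∧
      (j ∉ B → φ g ∈ Subtype.val '' (Cl e θ (q (α, j)).1.1 (q (α, j)).1.2.1)) := by
    intro α
    by_contra hcon
    push Not at hcon
    choose g hgC hg1 hg2 using fun i : W1 => hcon {i}
    obtain ⟨N, hN, hnet⟩ := hCc α
    have hn : ∀ i : W1, ∃ n ∈ N, g i ∈ n ∧ ∀ h ∈ n, f (q (α, i)).1 (φ h) ∈ Ioi (1/2 : ℝ) := by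
      intro i
      have h1 : f (q (α, i)).1 (φ (g i)) = 1 :=
        hf1 _ (q (α, i)).2 ((hg1 i i) (mem_singleton i))
      obtain ⟨G, b, hG, hb, himg⟩ := hfac _ (q (α, i)).2 (g i) (Ioi (1/2 : ℝ)) isOpen_Ioi
        (by rw [h1]; simp only [mem_Ioi]; norm_num)
      obtain ⟨n, hn, hgn, hnb⟩ := hnet (g i) (hgC i) G b
        (hG.trans (subset_iUnion (fun w : W1 × W1 => A (q w).1) (α, i))) hb
      exact ⟨n, hn, hgn, fun h hh => himg h (hnb h hh)⟩
    choose n hnN hgn hnf using hn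
    have hinj : Function.Injective n := by
      intro i j hij
      by_contra hne
      have h1 : f (q (α, i)).1 (φ (g j)) ∈ Ioi (1/2 : ℝ) := hnf i (g j) (by rw [hij]; exact hgn j)
      have h2 : f (q (α, i)).1 (φ (g j)) = 0 :=
        hf0 _ (q (α, i)).2 ((hg2 j i) (by simpa using hne))
      rw [h2] at h1
      simp only [mem_Ioi] at h1
      norm_num at h1
    have : (range n).Countable := hN.mono (range_subset_iff.mpr hnN)
    have h3 : Countable W1 := by
      have : Countable (range n) := this.to_subtype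
      exact (Set.rangeFactorization_injective.mpr hinj).countable
    exact not_countable (α := W1) h3
  choose B hB using hom
  let BB' : Set (Tup X) := {p | ∃ α j, j ∈ B α ∧ p = (q (α, j)).1}
  obtain ⟨k, hk⟩ := hpat BB'
  obtain ⟨g, hgk⟩ := hs k.1
  have hgu : g ∈ ⋃ α, C α := by rw [hC]; exact mem_univ g
  obtain ⟨α, hα⟩ := mem_iUnion.mp hgu
  refine hB α g hα fun j => ⟨fun hj => ?_, fun hj => ?_⟩
  · rw [hgk]
    exact ⟨k, (hk _ (q (α, j)).2).1 ⟨α, j, hj, rfl⟩, rfl⟩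
  · rw [hgk]
    refine ⟨k, (hk _ (q (α, j)).2).2 ?_, rfl⟩
    rintro ⟨α', j', hj', heq⟩
    have h1 := q.injective (Subtype.ext heq)
    rw [Prod.mk.injEq] at h1
    obtain ⟨h1, h2⟩ := h1
    subst h1; subst h2
    exact hj hj'

/-- `C_p(X)` has a countable network when `X` is compact and second countable -/
theorem network_Cp (X : Type) [TopologicalSpace X] [SecondCountableTopology X] :
    ACosmic (Set.univ : Set X) (Set.univ : Set (Cp X)) := by
  classical
  let I := TopologicalSpace.countableBasis X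
  have hI : Countable I := (TopologicalSpace.countable_countableBasis X).to_subtype
  refine ⟨range (fun E : Finset (I × BB) =>
      {h : Cp X | ∀ p ∈ E, ∀ y ∈ p.1.1, h.1 y ∈ (p.2 : Set ℝ)}), countable_range _, ?_⟩
  intro g _ G b _ hgb
  have hch : ∀ x : G, ∃ i : I, x.1 ∈ i.1 ∧ ∀ y ∈ i.1, g.1 y ∈ (b x.1 : Set ℝ) := by
    intro x
    have hopen : IsOpen (g.1 ⁻¹' (b x.1 : Set ℝ)) := (BB_open (b x.1)).preimage g.2
    obtain ⟨i, hi, h1, h2⟩ := (TopologicalSpace.isBasis_countableBasis X).exists_subset_of_mem_open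
      (a := x.1) (hgb x.1 x.2) hopen
    exact ⟨⟨i, hi⟩, h1, fun y hy => h2 hy⟩
  choose i hi1 hi2 using hch
  refine ⟨_, mem_range_self (Finset.univ.image (fun x : G => (i x, b x.1))), ?_, ?_⟩
  · intro p hp y hy
    obtain ⟨x, _, rfl⟩ := Finset.mem_image.mp hp
    exact hi2 x y hy
  · intro h hh x hx
    exact hh (i ⟨x, hx⟩, b x) (Finset.mem_image.mpr ⟨⟨x, hx⟩, Finset.mem_univ _, rfl⟩) x (hi1 ⟨x, hx⟩)

theorem network_image (X Y : Type) [TopologicalSpace X] [SecondCountableTopology X]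
    [TopologicalSpace Y] (φ : Cp X → Y) (hφ : Continuous φ) (hs : Function.Surjective φ) :
    ∃ N : Set (Set Y), N.Countable ∧ ∀ (y : Y) (U : Set Y), IsOpen U → y ∈ U →
      ∃ n ∈ N, y ∈ n ∧ n ⊆ U := by
  classical
  obtain ⟨N, hN, hnet⟩ := network_Cp X
  refine ⟨(fun n => φ '' n) '' N, hN.image _, fun y U hU hy => ?_⟩
  obtain ⟨g, rfl⟩ := hs y
  have h1 : φ ⁻¹' U ∈ 𝓝 g := (hU.preimage hφ).mem_nhds hy
  rw [(IsInducing.subtypeVal (t := {f : X → ℝ | Continuous f})).nhds_eq_comap, Filter.mem_comap] at h1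
  obtain ⟨V, hV, hVO⟩ := h1
  rw [nhds_pi, Filter.mem_pi] at hV
  obtain ⟨I, hI, v, hv, hvV⟩ := hV
  have : ∀ t : X, ∃ b : BB, g.1 t ∈ (b : Set ℝ) ∧ (b : Set ℝ) ⊆ v t := by
    intro t
    obtain ⟨u, hu1, hu2, hu3⟩ := mem_nhds_iff.mp (hv t)
    obtain ⟨b, hb1, hb2⟩ := BB_basis hu2 hu3
    exact ⟨b, hb1, hb2.trans hu1⟩
  choose b hb1 hb2 using this
  obtain ⟨n, hn, hgn, hnb⟩ := hnet g (mem_univ g) hI.toFinset b (subset_univ _) (fun t _ => hb1 t)
  refine ⟨φ '' n, ⟨n, hn, rfl⟩, ⟨g, hgn, rfl⟩, ?_⟩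
  rintro _ ⟨h, hh, rfl⟩
  exact hVO (hvV fun t ht => hb2 t (hnb h hh t (by simpa using ht)))

end Pool.Agent.Helper937.Dya
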