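import Mathlib
import Pool.Agent.Helper937.Dya10

set_option autoImplicit false

open Set Topology Filter Cardinal

namespace Pool.Agent.Helper937.Dya

open Pool.Agent.Helper937.Fact

/-- If `C_p(X)` is mapped continuously and bijectively onto a `σ`-compact space, then `X` is
separable, for compact `X` with small pieces. -/
theorem condense_dense (X : Type) [TopologicalSpace X] [CompactSpace X] [T2Space X]
    (hX : ∀ A : Set X, #A ≤ ℵ₁ → ∃ F : Set X, IsClosed F ∧
      (∃ 𝓑 : Set (Set F), TopologicalSpace.IsTopologicalBasis 𝓑 ∧ #𝓑 ≤ ℵ₁) ∧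
      ∀ x ∈ closure A, x ∉ F → ∃ U ∈ 𝓝 x, (U ∩ A).Countable)
    (Y : Type) [TopologicalSpace Y] [T35Space Y] [SigmaCompactSpace Y] (φ : Cp X → Y)
    (hφ : Continuous φ) (hb : Function.Bijective φ) :
    ∃ A : Set X, A.Countable ∧ closure A = Set.univ := by
  classical
  have hnorm : NormalSpace Y := inferInstance
  let ι : C(X, ℝ) → Cp X := fun f => ⟨f, f.continuous⟩
  have hι : Continuous ι := by
    refine Continuous.subtype_mk (continuous_pi fun x => ?_) _
    exact continuous_eval_const x
  obtain ⟨n, f0, hf0⟩ : ∃ n : ℕ, (interior {f : C(X, ℝ) | φ (ι f) ∈ compactCovering Y n}).Nonempty := by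
    refine nonempty_interior_of_iUnion_of_closed (fun n => ?_) ?_
    · exact (isCompact_compactCovering Y n).isClosed.preimage (hφ.comp hι)
    · rw [Set.eq_univ_iff_forall]
      intro f
      have : φ (ι f) ∈ ⋃ n, compactCovering Y n := by
        rw [iUnion_compactCovering]; trivial
      obtain ⟨n, hn⟩ := mem_iUnion.mp this
      exact mem_iUnion.mpr ⟨n, hn⟩
  obtain ⟨ε, hε, hball⟩ := Metric.isOpen_iff.mp isOpen_interior f0 hf0
  have hball' : ∀ f : C(X, ℝ), dist f f0 < ε → φ (ι f) ∈ compactCovering Y n := fun f hf => by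
    have := interior_subset (hball (Metric.mem_ball.mpr hf))
    exact this
  let θ0 : Cp X → C(X, ℝ) := fun h => f0 + (ε / 4) • ⟨fun x => Real.arctan (h.1 x), Real.continuous_arctan.comp h.2⟩
  have hθ0 : ∀ h, dist (θ0 h) f0 < ε := by
    intro h
    rw [dist_eq_norm]
    have h1 : θ0 h - f0 = (ε / 4) • ⟨fun x => Real.arctan (h.1 x), Real.continuous_arctan.comp h.2⟩ := by
      simp only [θ0]
      rw [add_sub_cancel_left]
    rw [h1, norm_smul, Real.norm_eq_abs, abs_of_pos (by positivity : 0 < ε / 4)]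
    have h2 : ‖(⟨fun x => Real.arctan (h.1 x), Real.continuous_arctan.comp h.2⟩ : C(X, ℝ))‖ ≤ 2 := by
      rw [ContinuousMap.norm_le _ (by norm_num)]
      intro x
      rw [Real.norm_eq_abs, abs_le]
      have h3 := Real.arctan_lt_pi_div_two (h.1 x)
      have h4 := Real.neg_pi_div_two_lt_arctan (h.1 x)
      have h5 := Real.pi_lt_four
      constructor
      · show -2 ≤ Real.arctan (h.1 x)
        linarith
      · show Real.arctan (h.1 x) ≤ 2
        linarith
    calc ε / 4 * _ ≤ ε / 4 * 2 := mul_le_mul_of_nonneg_left h2 (by positivity)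
      _ < ε := by linarith
  let θ : Cp X → compactCovering Y n := fun h => ⟨φ (ι (θ0 h)), hball' _ (hθ0 h)⟩
  have hθ : Continuous θ := by
    refine Continuous.subtype_mk (hφ.comp ?_) _
    refine Continuous.subtype_mk (continuous_pi fun x => ?_) _
    show Continuous (fun h : Cp X => f0 x + (ε / 4) * Real.arctan (h.1 x))
    exact continuous_const.add (continuous_const.mul (Real.continuous_arctan.comp
      ((continuous_apply x).comp continuous_subtype_val)))
  have hK := isCompact_compactCovering Y n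
  have hKc : CompactSpace (compactCovering Y n) := isCompact_iff_compactSpace.mp hK
  obtain ⟨A, hA, hgood⟩ := main_cover2 X (fun A hA => by
    obtain ⟨F, h1, ⟨𝓑, h2, h3⟩, h4⟩ := hX A hA
    exact cover_general A F hA h1 𝓑 h2 h3 h4) Y φ hφ hb.2 _ hK θ
  have hfac := factor_of_good (fun f : Cp X => f.1) θ IsInducing.subtypeVal hθ A hgood
  refine ⟨A, hA, ?_⟩
  rw [Set.eq_univ_iff_forall]
  intro x0
  by_contra hx0
  obtain ⟨u, hu0, hu1, _⟩ := exists_continuous_zero_one_of_isClosed (isClosed_closure (s := A))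
    (isClosed_singleton (x := x0)) (Set.disjoint_singleton_right.mpr hx0)
  have heq : θ ⟨fun _ => 0, continuous_const⟩ = θ ⟨u, u.continuous⟩ := by
    by_contra hne
    obtain ⟨U, V, hU, hV, hxU, hyV, hUV⟩ := t2_separation hne
    obtain ⟨G, b, hG, hb', himg⟩ := hfac _ U hU hxU
    have h1 : θ ⟨u, u.continuous⟩ ∈ U := by
      refine himg _ fun t ht => ?_
      have h2 := hb' t ht
      have h3 : u t = 0 := hu0 (subset_closure (hG ht))
      show u t ∈ (b t : Set ℝ)
      rw [h3]
      exact h2
    exact Set.disjoint_left.mp hUV h1 hyV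
  have h1 : φ (ι (θ0 ⟨fun _ => 0, continuous_const⟩)) = φ (ι (θ0 ⟨u, u.continuous⟩)) :=
    congrArg Subtype.val heq
  have h2 := hb.1 h1
  have h3 : f0 x0 + (ε / 4) * Real.arctan 0 = f0 x0 + (ε / 4) * Real.arctan (u x0) :=
    congrFun (congrArg Subtype.val h2) x0
  rw [hu1 (mem_singleton x0)] at h3
  simp only [Real.arctan_zero, Pi.one_apply, Real.arctan_one, mul_zero, add_zero] at h3
  have h4 := Real.pi_pos
  have : 0 < ε / 4 * (Real.pi / 4) := by positivity
  linarith

theorem condense_cosmic (X : Type) [TopologicalSpace X] [CompactSpace X] [T2Space X]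
    (hsep : ∀ A : Set X, A.Countable → SecondCountableTopology (closure A))
    (hX : ∀ A : Set X, #A ≤ ℵ₁ → ∃ F : Set X, IsClosed F ∧
      (∃ 𝓑 : Set (Set F), TopologicalSpace.IsTopologicalBasis 𝓑 ∧ #𝓑 ≤ ℵ₁) ∧
      ∀ x ∈ closure A, x ∉ F → ∃ U ∈ 𝓝 x, (U ∩ A).Countable)
    (Y : Type) [TopologicalSpace Y] [T35Space Y] [SigmaCompactSpace Y] (φ : Cp X → Y)
    (hφ : Continuous φ) (hb : Function.Bijective φ) :
    ∃ N : Set (Set Y), N.Countable ∧ ∀ (y : Y) (U : Set Y), IsOpen U → y ∈ U →
      ∃ n ∈ N, y ∈ n ∧ n ⊆ U := by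
  obtain ⟨A, hA, hcl⟩ := condense_dense X hX Y φ hφ hb
  have h1 := hsep A hA
  have h2 : SecondCountableTopology X := by
    let j : X → closure A := fun x => ⟨x, by rw [hcl]; trivial⟩
    have hj : IsInducing j := by
      have : IsInducing (Subtype.val ∘ j) := IsInducing.id
      exact IsInducing.of_comp (continuous_id.subtype_mk _) continuous_subtype_val this
    exact hj.secondCountableTopology
  exact network_image X Y φ hφ hb.2

end Pool.Agent.Helper937.Dya
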