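import Mathlib

set_option autoImplicit false

open Cardinal Ordinal Set

namespace Pool.Agent.Helper937.Eta

/-- lexicographic order on 0-1 sequences -/
def lt (f g : Ordinal.{0} → Bool) : Prop :=
  ∃ ν : Ordinal.{0}, (∀ μ, μ < ν → f μ = g μ) ∧ f ν = false ∧ g ν = true

/-- the n-th infinite initial ordinal -/
noncomputable def om (n : ℕ) : Ordinal.{0} := (Cardinal.aleph (n : Ordinal.{0})).ord

/-- f and g agree below omega_n -/
def Agree (n : ℕ) (f g : Ordinal.{0} → Bool) : Prop := ∀ ν, ν < om n → f ν = g ν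

/-- nonzero sequences with support bounded below omega_omega -/
def R : Set (Ordinal.{0} → Bool) :=
  {f | (∃ ν, f ν = true) ∧
    ∃ β : Ordinal.{0}, β < (Cardinal.aleph (Ordinal.omega0 : Ordinal.{0})).ord ∧
      ∀ ν, f ν = true → ν < β}

/-- f and g first differ at a place below d -/
def ltB (d : Ordinal.{0}) (f g : Ordinal.{0} → Bool) : Prop :=
  ∃ ν : Ordinal.{0}, ν < d ∧ (∀ μ, μ < ν → f μ = g μ) ∧ f ν = false ∧ g ν = true

def Unb {I : Type} [LinearOrder I] (V : Set I) : Prop := ∀ β, ∃ γ ∈ V, β < γ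

def Principle (κ : Cardinal.{0}) : Prop :=
  ∃ H : κ.ord.ToType → κ.ord.ToType → ℕ → ℕ → Prop,
    (∀ γ δ p q, H γ δ p q → γ < δ ∧ p < q) ∧
    (∀ γ δ p q p' q', H γ δ p q → H γ δ p' q' → p = p' ∧ q = q') ∧
    (∀ α β γ p q r, H α β p q → H β γ q r → H α γ p r → False) ∧
    (∀ W : κ.ord.ToType → ℕ → Prop, (∀ β, ∃ γ, β < γ ∧ {p | W γ p}.Infinite) →
      ∃ γ δ p q, W γ p ∧ W δ q ∧ H γ δ p q)

end Pool.Agent.Helper937.Eta
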