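import Pool.Agent.Helper937.Eta0

set_option autoImplicit false

open Cardinal Ordinal Set

namespace Pool.Agent.Helper937.Eta
theorem delta_system_ph {J ι : Type} (θ : Cardinal.{0}) (hθ : θ.IsRegular) (hι : #ι < θ)
    (V : Set J) (hV : θ ≤ #V) (t : ι → Set J) (ht : V ⊆ ⋃ i, t i) : ∃ i, θ ≤ #(t i) := by
  by_contra hcon
  push Not at hcon
  have h1 := (card_iUnion_lt_iff_forall_of_isRegular hθ hι).2 hcon
  exact absurd (hV.trans (Cardinal.mk_le_mk_of_subset ht)) (not_le.2 h1)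

theorem delta_system_ind {J I : Type} (θ : Cardinal.{0}) (hθ : θ.IsRegular) (n : ℕ) :
    ∀ (A : J → Finset I) (V : Set J) (_ : θ ≤ #V) (_ : ∀ v ∈ V, (A v).card = n),
    ∃ V' : Set J, V' ⊆ V ∧ θ ≤ #V' ∧ ∃ R0 : Finset I, ∀ v ∈ V', ∀ u ∈ V', v ≠ u →
      (∀ x, x ∈ A v → x ∈ A u → x ∈ R0) ∧ (∀ x ∈ R0, x ∈ A v) := by
  classical
  induction n with
  | zero =>
    intro A V hV hA
    refine ⟨V, Subset.rfl, hV, ∅, ?_⟩
    intro v hv u hu _
    have h1 := Finset.card_eq_zero.1 (hA v hv)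
    refine ⟨fun x hx => ?_, fun x hx => ?_⟩
    · rw [h1] at hx; exact absurd hx (Finset.notMem_empty x)
    · exact absurd hx (Finset.notMem_empty x)
  | succ n ih =>
    intro A V hV hA
    by_cases hc : ∃ x, θ ≤ #{v | v ∈ V ∧ x ∈ A v}
    · obtain ⟨x, hx⟩ := hc
      obtain ⟨V', hV'1, hV'2, R0, hR0⟩ := ih (fun v => (A v).erase x) {v | v ∈ V ∧ x ∈ A v} hx (by
        rintro v ⟨hv, hxv⟩
        rw [Finset.card_erase_of_mem hxv, hA v hv]
        rfl)
      refine ⟨V', fun v hv => (hV'1 hv).1, hV'2, insert x R0, ?_⟩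
      intro v hv u hu hvu
      obtain ⟨h1, h2⟩ := hR0 v hv u hu hvu
      refine ⟨fun y hy hy' => ?_, fun y hy => ?_⟩
      · by_cases hyx : y = x
        · rw [hyx]; exact Finset.mem_insert_self _ _
        · exact Finset.mem_insert_of_mem (h1 y (Finset.mem_erase.2 ⟨hyx, hy⟩)
            (Finset.mem_erase.2 ⟨hyx, hy'⟩))
      · rcases Finset.mem_insert.1 hy with h3 | h3
        · rw [h3]; exact (hV'1 hv).2
        · exact (Finset.mem_erase.1 (h2 y h3)).2
    · push Not at hc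
      obtain ⟨V', hV'⟩ := zorn_subset
        {S : Set J | S ⊆ V ∧ ∀ v ∈ S, ∀ u ∈ S, v ≠ u → ∀ x, x ∈ A v → x ∉ A u} (by
          intro c hcs hcc
          refine ⟨⋃₀ c, ⟨?_, ?_⟩, fun s hs => subset_sUnion_of_mem hs⟩
          · exact sUnion_subset fun s hs => (hcs hs).1
          · rintro v ⟨s, hs, hvs⟩ u ⟨s', hs', hus'⟩ hvu
            rcases hcc.total hs hs' with h1 | h1
            · exact (hcs hs').2 v (h1 hvs) u hus' hvu
            · exact (hcs hs).2 v hvs u (h1 hus') hvu)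
      refine ⟨V', hV'.prop.1, ?_, ∅, ?_⟩
      · by_contra hlt
        rw [not_le] at hlt
        have hX : #(⋃ v ∈ V', (↑(A v) : Set I)) < θ := by
          rw [card_biUnion_lt_iff_forall_of_isRegular hθ hlt]
          intro a _
          have h1 : #(↑(A a) : Set I) < ℵ₀ := by
            rw [Cardinal.lt_aleph0_iff_finite]
            exact Finset.finite_toSet (A a)
          exact h1.trans_le hθ.aleph0_le
        have hY : #(⋃ x ∈ (⋃ v ∈ V', (↑(A v) : Set I)), {v | v ∈ V ∧ x ∈ A v}) < θ := by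
          rw [card_biUnion_lt_iff_forall_of_isRegular hθ hX]
          intro a _
          exact hc a
        have hnot : ¬ V ⊆ (⋃ x ∈ (⋃ v ∈ V', (↑(A v) : Set I)), {v | v ∈ V ∧ x ∈ A v}) := by
          intro hsub
          exact absurd (hV.trans (Cardinal.mk_le_mk_of_subset hsub)) (not_le.2 hY)
        obtain ⟨v, hvV, hvn⟩ := not_subset.1 hnot
        simp only [mem_iUnion, exists_prop, not_exists, not_and] at hvn
        have hv1 : ∀ u ∈ V', ∀ x, x ∈ A u → x ∉ A v := by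
          intro u hu x hxu hxv
          exact hvn x ⟨u, hu, Finset.mem_coe.2 hxu⟩ ⟨hvV, hxv⟩
        have hvV' : v ∉ V' := by
          intro hv
          have h2 : 0 < (A v).card := by rw [hA v hvV]; exact Nat.succ_pos n
          obtain ⟨x, hx⟩ := Finset.card_pos.1 h2
          exact hv1 v hv x hx hx
        have hins : insert v V' ∈
            {S : Set J | S ⊆ V ∧ ∀ v ∈ S, ∀ u ∈ S, v ≠ u → ∀ x, x ∈ A v → x ∉ A u} := by
          refine ⟨insert_subset hvV hV'.prop.1, ?_⟩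
          rintro a (rfl | ha) b (rfl | hb) hab x hxa hxb
          · exact hab rfl
          · exact hv1 b hb x hxb hxa
          · exact hv1 a ha x hxa hxb
          · exact hV'.prop.2 a ha b hb hab x hxa hxb
        have h3 := hV'.le_of_ge hins (subset_insert v V')
        exact hvV' (h3 (mem_insert v V'))
      · intro v hv u hu hvu
        refine ⟨fun x hx hx' => absurd hx' (hV'.prop.2 v hv u hu hvu x hx), fun x hx => ?_⟩
        exact absurd hx (Finset.notMem_empty x)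

theorem delta_system {J I : Type} (θ : Cardinal.{0}) (hθ : θ.IsRegular) (hω : ℵ₀ < θ)
    (A : J → Finset I) (V : Set J) (hV : θ ≤ #V) :
    ∃ V' : Set J, V' ⊆ V ∧ θ ≤ #V' ∧ ∃ R0 : Finset I, ∀ v ∈ V', ∀ u ∈ V', v ≠ u →
      (∀ x, x ∈ A v → x ∈ A u → x ∈ R0) ∧ (∀ x ∈ R0, x ∈ A v) := by
  obtain ⟨n, hn⟩ := delta_system_ph θ hθ (ι := ℕ) (by rw [Cardinal.mk_nat]; exact hω) V hV
    (fun n => {v | v ∈ V ∧ (A v).card = n}) (by
      intro v hv
      exact mem_iUnion.2 ⟨(A v).card, hv, rfl⟩)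
  obtain ⟨V', h1, h2, h3⟩ := delta_system_ind θ hθ n A {v | v ∈ V ∧ (A v).card = n} hn
    (fun v hv => hv.2)
  exact ⟨V', fun v hv => (h1 hv).1, h2, h3⟩

end Pool.Agent.Helper937.Eta
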