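import Pool.Agent.Helper937.Eta0

set_option autoImplicit false

open Cardinal Ordinal Set

namespace Pool.Agent.Helper937.Eta
theorem no_seq_aux (θ : Cardinal.{0}) (hθ : θ.IsRegular) (g : Ordinal.{0} → Ordinal.{0} → Bool)
    (d : Ordinal.{0}) : d.card < θ → ∀ Z : Set Ordinal.{0}, (∀ i ∈ Z, i < θ.ord) →
      (∀ b, b < θ.ord → ∃ i ∈ Z, b < i) → (∀ i ∈ Z, ∀ j ∈ Z, i < j → ltB d (g i) (g j)) →
      False := by
  induction d using WellFoundedLT.induction with
  | ind d ih =>
    intro hd Z hZθ hZunb hZ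
    -- successor in Z
    have hs : ∀ i ∈ Z, ∃ s ∈ Z, i < s ∧ ∀ j ∈ Z, i < j → s ≤ j := by
      intro i hi
      have hne : {j | j ∈ Z ∧ i < j}.Nonempty := by
        obtain ⟨j, hj, hij⟩ := hZunb i (hZθ i hi)
        exact ⟨j, hj, hij⟩
      refine ⟨WellFounded.min (wellFounded_lt (α := Ordinal.{0})) _ hne, ?_, ?_, ?_⟩
      · exact (WellFounded.min_mem (wellFounded_lt (α := Ordinal.{0})) _ hne).1
      · exact (WellFounded.min_mem (wellFounded_lt (α := Ordinal.{0})) _ hne).2
      · intro j hj hij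
        exact not_lt.1 (WellFounded.not_lt_min (wellFounded_lt (α := Ordinal.{0})) _
          (show j ∈ {j | j ∈ Z ∧ i < j} from ⟨hj, hij⟩))
    choose! s hsZ his hsle using hs
    have he : ∀ i ∈ Z, ∃ e, e < d ∧ (∀ μ, μ < e → g i μ = g (s i) μ) ∧ g i e = false ∧
        g (s i) e = true := by
      intro i hi
      obtain ⟨ν, h1, h2⟩ := hZ i hi (s i) (hsZ i hi) (his i hi)
      exact ⟨ν, h1, h2⟩
    choose! e hed heag he0 he1 using he
    -- pigeonhole
    have hpig : ∃ e0, e0 < d ∧ ∀ b, b < θ.ord → ∃ i ∈ Z, e i = e0 ∧ b < i := by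
      by_contra hcon
      push Not at hcon
      choose! b hb hb2 using hcon
      have hsup : (⨆ x : d.ToType, b (Ordinal.ToType.mk.symm x : Set.Iio d).1) < θ.ord := by
        apply Ordinal.iSup_lt_of_lt_cof
        · rw [Cardinal.mk_toType, hθ.cof_ord]
          exact hd
        · intro x
          exact hb _ (Ordinal.ToType.mk.symm x : Set.Iio d).2
      obtain ⟨i, hi, hlt⟩ := hZunb _ hsup
      have h1 := hb2 (e i) (hed i hi) i hi rfl
      have h2 : b (e i) ≤ ⨆ x : d.ToType, b (Ordinal.ToType.mk.symm x : Set.Iio d).1 := by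
        have h3 := Ordinal.le_iSup (fun x : d.ToType => b (Ordinal.ToType.mk.symm x : Set.Iio d).1)
          (Ordinal.ToType.mk ⟨e i, hed i hi⟩)
        simpa using h3
      exact absurd (h1.trans h2) (not_le.2 hlt)
    obtain ⟨e0, he0d, hunb⟩ := hpig
    have hcard : e0.card < θ := lt_of_le_of_lt (Ordinal.card_le_card he0d.le) hd
    refine ih e0 he0d hcard {i | i ∈ Z ∧ e i = e0} (fun i hi => hZθ i hi.1) ?_ ?_
    · intro b hb
      obtain ⟨i, hi, h1, h2⟩ := hunb b hb
      exact ⟨i, ⟨hi, h1⟩, h2⟩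
    · rintro i ⟨hi, hie⟩ j ⟨hj, hje⟩ hij
      obtain ⟨ν, _, hag, hν0, hν1⟩ := hZ i hi j hj hij
      refine ⟨ν, ?_, hag, hν0, hν1⟩
      by_contra hcon
      push Not at hcon
      have hag2 : ∀ μ, μ < e0 → g i μ = g j μ := fun μ hμ => hag μ (lt_of_lt_of_le hμ hcon)
      have hag3 : ∀ μ, μ < e0 → g (s i) μ = g j μ := by
        intro μ hμ
        rw [← heag i hi μ (by rw [hie]; exact hμ)]
        exact hag2 μ hμ
      have hsi1 : g (s i) e0 = true := by rw [← hie]; exact he1 i hi
      have hj0 : g j e0 = false := by rw [← hje]; exact he0 j hj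
      rcases (hsle i hi j hj hij).eq_or_lt with heq | hlt
      · rw [heq, hj0] at hsi1
        exact Bool.false_ne_true hsi1
      · obtain ⟨ν2, _, hag4, h20, h21⟩ := hZ (s i) (hsZ i hi) j hj hlt
        rcases lt_trichotomy ν2 e0 with h | h | h
        · have := hag3 ν2 h
          rw [h20, h21] at this
          exact Bool.false_ne_true this
        · rw [h, hsi1] at h20
          exact Bool.false_ne_true h20.symm
        · have := hag4 e0 h
          rw [hsi1, hj0] at this
          exact Bool.false_ne_true this.symm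

theorem no_seq (θ : Cardinal.{0}) (hθ : θ.IsRegular) (d : Ordinal.{0}) (hd : d.card < θ)
    (g : Ordinal.{0} → Ordinal.{0} → Bool)
    (hg : ∀ i j, i < j → j < θ.ord → ltB d (g i) (g j)) : False := by
  refine no_seq_aux θ hθ g d hd (Set.Iio θ.ord) (fun i hi => hi) ?_ ?_
  · intro b hb
    refine ⟨Order.succ b, ?_, Order.lt_succ b⟩
    exact (Cardinal.isSuccLimit_ord hθ.aleph0_le).succ_lt hb
  · intro i _ j hj hij
    exact hg i j hij hj

end Pool.Agent.Helper937.Eta
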