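import Pool.Agent.Helper937.Eta0

set_option autoImplicit false

open Cardinal Ordinal Set

namespace Pool.Agent.Helper937.Eta
theorem lt_om_of_lt_aux {b : Ordinal.{0}}
    (hb : b < (Cardinal.aleph (Ordinal.omega0 : Ordinal.{0})).ord) : ∃ n : ℕ, b < om n := by
  rw [Cardinal.lt_ord] at hb
  obtain ⟨a, ha, hlt⟩ := (Cardinal.isNormal_aleph.lt_iff_exists_lt Ordinal.isSuccLimit_omega0).1 hb
  obtain ⟨n, rfl⟩ := Ordinal.lt_omega0.1 ha
  exact ⟨n, Cardinal.lt_ord.2 hlt⟩

theorem om_mono_aux {m n : ℕ} (h : m ≤ n) : om m ≤ om n := by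
  unfold om
  exact Cardinal.ord_le_ord.2 (Cardinal.aleph_le_aleph.2 (by exact_mod_cast h))

theorem om_card_aux (n : ℕ) : (om n).card < Cardinal.aleph (Ordinal.omega0 : Ordinal.{0}) := by
  unfold om
  rw [Cardinal.card_ord]
  exact Cardinal.aleph_lt_aleph.2 (Ordinal.nat_lt_omega0 n)


theorem seq_between {x y : Ordinal.{0} → Bool} (hx : x ∈ R) (hy : y ∈ R) (hxy : lt x y) (N : ℕ) :
    ∃ z : Ordinal.{0} → Ordinal.{0} → Bool,
      (∀ i, i < om N → z i ∈ R ∧ lt x (z i) ∧ lt (z i) y) ∧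
      (∀ i j, i < j → j < om N → lt (z i) (z j)) := by
  classical
  obtain ⟨μ, hμ, hxμ, hyμ⟩ := hxy
  obtain ⟨hx0, βx, hβx, hsx⟩ := hx
  obtain ⟨hy0, βy, hβy, hsy⟩ := hy
  obtain ⟨n1, hn1⟩ := lt_om_of_lt_aux hβx
  obtain ⟨n2, hn2⟩ := lt_om_of_lt_aux hβy
  have hμy : μ < om n2 := lt_trans (hsy μ hyμ) hn2
  let j : ℕ := max N (max n1 n2)
  have hN : om N ≤ om j := om_mono_aux (le_max_left _ _)
  have h1 : om n1 ≤ om j := om_mono_aux (le_trans (le_max_left _ _) (le_max_right _ _))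
  have h2 : om n2 ≤ om j := om_mono_aux (le_trans (le_max_right _ _) (le_max_right _ _))
  set D : Ordinal.{0} := om j with hD
  have hμD : μ < D := lt_of_lt_of_le hμy h2
  have hxD : ∀ ν, D ≤ ν → x ν = false := by
    intro ν hν
    by_contra h
    have h3 : x ν = true := by simpa using h
    exact absurd (lt_of_lt_of_le (lt_trans (hsx ν h3) hn1) h1) (not_lt.2 hν)
  let z : Ordinal.{0} → Ordinal.{0} → Bool := fun i ν => if ν < D then x ν else decide (ν ≤ D + i)
  have z1 : ∀ i ν, ν < D → z i ν = x ν := by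
    intro i ν h
    simp only [z]; rw [if_pos h]
  have z2 : ∀ i ν, D ≤ ν → ν ≤ D + i → z i ν = true := by
    intro i ν h h'
    simp only [z]; rw [if_neg (not_lt.2 h)]
    simpa using h'
  have z3 : ∀ i ν, D ≤ ν → D + i < ν → z i ν = false := by
    intro i ν h h'
    simp only [z]; rw [if_neg (not_lt.2 h)]
    simpa using h'
  have hDi : ∀ i : Ordinal.{0}, D ≤ D + i := fun i => le_add_of_nonneg_right (zero_le (a := i))
  refine ⟨z, ?_, ?_⟩
  · intro i hi
    refine ⟨⟨⟨D, z2 i D le_rfl (hDi i)⟩, Order.succ (D + i), ?_, ?_⟩, ?_, ?_⟩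
    · rw [Cardinal.lt_ord]
      have e : Order.succ (D + i) = D + i + 1 := rfl
      rw [e, Ordinal.card_add, Ordinal.card_add]
      have hω : Cardinal.aleph0 ≤ Cardinal.aleph (Ordinal.omega0 : Ordinal.{0}) :=
        Cardinal.aleph0_le_aleph _
      apply Cardinal.add_lt_of_lt hω
      · apply Cardinal.add_lt_of_lt hω (om_card_aux j)
        exact lt_of_le_of_lt (Ordinal.card_le_card (le_of_lt hi)) (om_card_aux N)
      · rw [Ordinal.card_one]
        exact lt_of_lt_of_le Cardinal.one_lt_aleph0 hω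
    · intro ν hν
      rw [Order.lt_succ_iff]
      by_contra h
      push Not at h
      have : z i ν = false := z3 i ν (le_trans (hDi i) (le_of_lt h)) h
      rw [this] at hν
      exact absurd hν (by simp)
    · refine ⟨D, ?_, hxD D le_rfl, z2 i D le_rfl (hDi i)⟩
      intro ν hν
      exact (z1 i ν hν).symm
    · refine ⟨μ, ?_, ?_, hyμ⟩
      · intro ν hν
        rw [z1 i ν (lt_trans hν hμD)]
        exact hμ ν hν
      · rw [z1 i μ hμD]; exact hxμ
  · intro i k hik hk
    refine ⟨Order.succ (D + i), ?_, ?_, ?_⟩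
    · intro ν hν
      rw [Order.lt_succ_iff] at hν
      by_cases h : ν < D
      · rw [z1 i ν h, z1 k ν h]
      · rw [z2 i ν (not_lt.1 h) hν, z2 k ν (not_lt.1 h)
          (le_trans hν (add_le_add_right (le_of_lt hik) D))]
    · exact z3 i _ (le_trans (hDi i) (Order.le_succ _)) (Order.lt_succ _)
    · apply z2 k _ (le_trans (hDi i) (Order.le_succ _))
      rw [Order.succ_le_iff]
      exact (add_lt_add_iff_left D).2 hik

end Pool.Agent.Helper937.Eta
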