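import Pool.Agent.Helper937.Eta0

set_option autoImplicit false

open Cardinal Ordinal Set

namespace Pool.Agent.Helper937.Eta
theorem pigeon_a {κ : Cardinal.{0}} (hκ : κ.IsRegular) (V : Set κ.ord.ToType) (hV : ¬ Unb V) :
    #V < κ := by
  unfold Unb at hV
  push Not at hV
  obtain ⟨β, hβ⟩ := hV
  have h1 : V ⊆ insert β (Set.Iio β) := by
    intro x hx
    rcases lt_or_eq_of_le (hβ x hx) with h | h
    · exact Or.inr h
    · exact Or.inl h
  refine lt_of_le_of_lt (Cardinal.mk_le_mk_of_subset h1) ?_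
  refine lt_of_le_of_lt Cardinal.mk_insert_le ?_
  have h2 : #(Set.Iio β) < κ := by
    simpa using Cardinal.mk_Iio_lt β
  exact Cardinal.add_lt_of_lt hκ.aleph0_le h2 (lt_of_lt_of_le Cardinal.one_lt_aleph0 hκ.aleph0_le)

theorem pigeon_b {κ : Cardinal.{0}} (hκ : κ.IsRegular) (V : Set κ.ord.ToType) (hV : #V < κ) :
    ¬ Unb V := by
  intro h
  have h1 : IsCofinal V := by
    intro x
    obtain ⟨γ, hγ, hx⟩ := h x
    exact ⟨γ, hγ, hx.le⟩
  have h2 := Order.cof_le h1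
  rw [Ordinal.cof_toType, hκ.cof_ord] at h2
  exact absurd hV (not_lt.mpr h2)

theorem pigeon {κ : Cardinal.{0}} (hκ : κ.IsRegular) (V C : Set κ.ord.ToType) (hV : Unb V)
    (hC : ¬ Unb C) (g : κ.ord.ToType → κ.ord.ToType) (hg : ∀ v ∈ V, g v ∈ C) :
    ∃ c ∈ C, Unb {v | v ∈ V ∧ g v = c} := by
  by_contra hcon
  push Not at hcon
  have h1 : V ⊆ ⋃ c : C, {v | v ∈ V ∧ g v = (c : κ.ord.ToType)} := by
    intro v hv
    refine Set.mem_iUnion.mpr ⟨⟨g v, hg v hv⟩, hv, rfl⟩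
  have h2 : #(⋃ c : C, {v | v ∈ V ∧ g v = (c : κ.ord.ToType)} : Set κ.ord.ToType) < κ := by
    rw [Cardinal.card_iUnion_lt_iff_forall_of_isRegular hκ (pigeon_a hκ C hC)]
    intro c
    exact pigeon_a hκ _ (hcon c.1 c.2)
  exact pigeon_b hκ V (lt_of_le_of_lt (Cardinal.mk_le_mk_of_subset h1) h2) hV

theorem pigeonN {κ : Cardinal.{0}} (hκ : κ.IsRegular) (hω : ℵ₀ < κ) (hc : (2 : Cardinal.{0}) ^ ℵ₀ = κ)
    (C : ℕ → Set κ.ord.ToType) (hC : ∀ n, ¬ Unb (C n)) (n : (ℕ → Bool) → ℕ)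
    (u : (ℕ → Bool) → κ.ord.ToType) (hu : ∀ t, u t ∈ C (n t)) :
    ∃ m c, {t | n t = m ∧ u t = c}.Infinite := by
  have hcard : #(Σ m : ℕ, C m) < κ := by
    rw [Cardinal.mk_sigma]
    refine Cardinal.sum_lt_of_isRegular hκ (by simpa using hω) ?_
    intro i
    exact pigeon_a hκ _ (hC i)
  have hfun : #(ℕ → Bool) = κ := by
    rw [← hc]
    simp
  haveI : Infinite (ℕ → Bool) := by infer_instance
  obtain ⟨a, ha⟩ := Cardinal.exists_infinite_fiber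
    (fun t : ℕ → Bool => (⟨n t, ⟨u t, hu t⟩⟩ : Σ m : ℕ, C m)) (by rw [hfun]; exact hcard)
  refine ⟨a.1, a.2.1, ?_⟩
  have ha' : ((fun t : ℕ → Bool => (⟨n t, ⟨u t, hu t⟩⟩ : Σ m : ℕ, C m)) ⁻¹' {a}).Infinite :=
    Set.infinite_coe_iff.mp ha
  refine ha'.mono ?_
  intro t ht
  have ht' : (⟨n t, ⟨u t, hu t⟩⟩ : Σ m : ℕ, C m) = a := ht
  subst ht'
  exact ⟨rfl, rfl⟩

theorem codes {κ : Cardinal.{0}} (n : ℕ) (h : (2 : Cardinal.{0}) ^ (Cardinal.aleph (n : Ordinal.{0})) = κ) :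
    ∃ α : (Ordinal.{0} → Bool) → κ.ord.ToType, ∀ f g, α f = α g ↔ Agree n f g := by
  have hcard : #((om n).ToType → Bool) = #(κ.ord.ToType) := by
    rw [Cardinal.mk_ord_toType, ← h]
    simp [om]
  obtain ⟨e⟩ := Cardinal.eq.mp hcard
  refine ⟨fun f => e (fun i => f ((Ordinal.ToType.toOrd i : Set.Iio (om n)) : Ordinal.{0})), ?_⟩
  intro f g
  constructor
  · intro hfg ν hν
    have h1 := e.injective hfg
    have h2 := congrFun h1 (Ordinal.ToType.mk ⟨ν, hν⟩)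
    simpa using h2
  · intro hfg
    refine congrArg e ?_
    funext i
    exact hfg _ (Ordinal.ToType.toOrd i).2

end Pool.Agent.Helper937.Eta
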