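import Pool.Agent.Helper937.Eta0

set_option autoImplicit false

open Cardinal Ordinal Set

namespace Pool.Agent.Helper937.Eta
/-- for an order by extension `le r s` = (s is a stronger condition than r) -/
def Forces {P : Type} (le : P → P → Prop) (N : Set P) (r : P) : Prop :=
  ∀ s, le r s → ∃ t, le s t ∧ ∃ w ∈ N, le w t

theorem nice_step1 {P : Type} (le : P → P → Prop) (hrefl : ∀ a, le a a)
    (htrans : ∀ a b c, le a b → le b c → le a c)
    (hccc : ∀ A : Set P, (∀ a ∈ A, ∀ b ∈ A, a ≠ b → ¬ ∃ c, le a c ∧ le b c) → A.Countable)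
    (N : Set P) : ∃ A : Set P, A.Countable ∧ ∀ r, Forces le A r ↔ Forces le N r := by
  obtain ⟨A, hA⟩ := zorn_subset
    {A : Set P | (∀ a ∈ A, ∃ w ∈ N, le w a) ∧
      ∀ a ∈ A, ∀ b ∈ A, a ≠ b → ¬ ∃ c, le a c ∧ le b c} (by
      intro c hc hch
      refine ⟨⋃₀ c, ⟨?_, ?_⟩, fun s hs => Set.subset_sUnion_of_mem hs⟩
      · rintro a ⟨s, hs, has⟩
        exact (hc hs).1 a has
      · rintro a ⟨s, hs, has⟩ b ⟨s', hs', hbs⟩ hab
        rcases hch.total hs hs' with h | h
        · exact (hc hs').2 a (h has) b hbs hab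
        · exact (hc hs).2 a has b (h hbs) hab)
  refine ⟨A, hccc A hA.prop.2, fun r => ⟨?_, ?_⟩⟩
  · intro h s hs
    obtain ⟨t, hst, a, ha, hat⟩ := h s hs
    obtain ⟨w, hw, hwa⟩ := hA.prop.1 a ha
    exact ⟨t, hst, w, hw, htrans _ _ _ hwa hat⟩
  · intro h s hs
    obtain ⟨t, hst, w, hw, hwt⟩ := h s hs
    by_cases hta : ∃ a ∈ A, ∃ c, le a c ∧ le t c
    · obtain ⟨a, ha, c, hac, htc⟩ := hta
      exact ⟨c, htrans _ _ _ hst htc, a, ha, hac⟩
    · exfalso
      push Not at hta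
      have hins : insert t A ⊆ A := by
        apply hA.le_of_ge _ (Set.subset_insert t A)
        refine ⟨?_, ?_⟩
        · rintro a (rfl | ha)
          · exact ⟨w, hw, hwt⟩
          · exact hA.prop.1 a ha
        · rintro a (rfl | ha) b (rfl | hb) hab
          · exact absurd rfl hab
          · rintro ⟨c, hac, hbc⟩
            exact hta b hb c hbc hac
          · rintro ⟨c, hac, hbc⟩
            exact hta a ha c hac hbc
          · exact hA.prop.2 a ha b hb hab
      have htA : t ∈ A := hins (Set.mem_insert t A)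
      exact hta t htA t (hrefl t) (hrefl t)

theorem nice_names {P : Type} (le : P → P → Prop) (hrefl : ∀ a, le a a)
    (htrans : ∀ a b c, le a b → le b c → le a c)
    (hccc : ∀ A : Set P, (∀ a ∈ A, ∀ b ∈ A, a ≠ b → ¬ ∃ c, le a c ∧ le b c) → A.Countable)
    (κ : Cardinal.{0}) (hP : #P ≤ κ) (T : Type) (hT : κ ^ (ℵ₀ * #T) = κ) (hκ : ℵ₀ ≤ κ) :
    ∃ X : κ.ord.ToType → T → Set P, ∀ Y : T → Set P, ∃ ξ, ∀ t r,
      Forces le (X ξ t) r ↔ Forces le (Y t) r := by
  classical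
  let F : Option (ℕ → P) → Set P := fun o => match o with
    | none => ∅
    | some f => Set.range f
  have hF : ∀ A : Set P, A.Countable → ∃ o, F o = A := by
    intro A hA
    rcases A.eq_empty_or_nonempty with rfl | hne
    · exact ⟨none, rfl⟩
    · obtain ⟨f, hf⟩ := hA.exists_eq_range hne
      exact ⟨some f, hf.symm⟩
  have hinf : ℵ₀ ≤ κ ^ (ℵ₀ : Cardinal.{0}) :=
    hκ.trans (Cardinal.self_le_power κ Cardinal.one_le_aleph0)
  have hcard1 : #(Option (ℕ → P)) ≤ κ ^ (ℵ₀ : Cardinal.{0}) := by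
    rw [Cardinal.mk_option]
    have h1 : #(ℕ → P) ≤ κ ^ (ℵ₀ : Cardinal.{0}) := by
      rw [← Cardinal.power_def, Cardinal.mk_nat]
      exact Cardinal.power_le_power_right hP
    calc #(ℕ → P) + 1 ≤ κ ^ (ℵ₀ : Cardinal.{0}) + 1 := by gcongr
      _ = κ ^ (ℵ₀ : Cardinal.{0}) := Cardinal.add_one_eq hinf
  have hcard : #(T → Option (ℕ → P)) ≤ κ := by
    rw [← Cardinal.power_def]
    calc #(Option (ℕ → P)) ^ #T ≤ (κ ^ (ℵ₀ : Cardinal.{0})) ^ #T :=
          Cardinal.power_le_power_right hcard1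
      _ = κ := by rw [← Cardinal.power_mul, hT]
  have hle : #(T → Option (ℕ → P)) ≤ #κ.ord.ToType := by
    rw [Cardinal.mk_ord_toType]; exact hcard
  obtain ⟨e⟩ := hle
  have : Nonempty (T → Option (ℕ → P)) := ⟨fun _ => none⟩
  refine ⟨fun ξ t => F (Function.invFun e ξ t), fun Y => ?_⟩
  choose A hA1 hA2 using nice_step1 le hrefl htrans hccc
  choose o ho using hF
  refine ⟨e (fun t => o (A (Y t)) (hA1 (Y t))), fun t r => ?_⟩
  have h := Function.leftInverse_invFun e.injective (fun t => o (A (Y t)) (hA1 (Y t)))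
  simp only [h, ho]
  exact hA2 (Y t) r

end Pool.Agent.Helper937.Eta
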