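import Pool.Agent.Helper937.Eta0

set_option autoImplicit false

open Cardinal Ordinal Set

namespace Pool.Agent.Helper937.Eta
theorem exists_kappa : ∃ κ : Cardinal.{0}, κ.IsRegular ∧
    Cardinal.aleph (Ordinal.omega0 : Ordinal.{0}) < κ ∧
    ∀ n : ℕ, κ ^ (Cardinal.aleph (n : Ordinal.{0})) = κ := by
  set μ : Cardinal.{0} := 2 ^ (Cardinal.aleph (Ordinal.omega0 : Ordinal.{0})) with hμ
  have hμ0 : ℵ₀ ≤ μ := (aleph0_le_aleph _).trans (cantor _).le
  refine ⟨Order.succ μ, isRegular_succ hμ0, (cantor _).trans (Order.lt_succ μ), ?_⟩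
  intro n
  have hreg : (Order.succ μ).IsRegular := isRegular_succ hμ0
  apply le_antisymm
  swap
  · exact self_le_power _ (one_le_aleph0.trans (aleph0_le_aleph _))
  · have hI : #((Cardinal.aleph (n : Ordinal.{0})).ord.ToType) = Cardinal.aleph (n : Ordinal.{0}) := mk_ord_toType _
    have hJ : #((Order.succ μ).ord.ToType) = Order.succ μ := mk_ord_toType _
    generalize hIg : (Cardinal.aleph (n : Ordinal.{0})).ord.ToType = I at hI
    have hn : Cardinal.aleph (n : Ordinal.{0}) ≤ Cardinal.aleph (Ordinal.omega0 : Ordinal.{0}) :=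
      aleph_le_aleph.mpr (Ordinal.natCast_lt_omega0 n).le
    have hIκ : #I < Order.succ μ := by
      rw [hI]; exact (hn.trans_lt (cantor _)).trans (Order.lt_succ μ)
    have hbd : ∀ f : I → (Order.succ μ).ord.ToType, ∃ x, ∀ i, f i < x := by
      intro f
      have hnc : ¬ IsCofinal (Set.range f) := by
        intro hc
        have h1 := Order.cof_le hc
        rw [Ordinal.cof_toType, hreg.cof_ord] at h1
        exact absurd (h1.trans mk_range_le) (not_le.mpr hIκ)
      rw [not_isCofinal_iff] at hnc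
      obtain ⟨x, hx⟩ := hnc
      exact ⟨x, fun i => hx _ ⟨i, rfl⟩⟩
    have hcov : (Set.univ : Set (I → (Order.succ μ).ord.ToType)) ⊆
        ⋃ x : (Order.succ μ).ord.ToType, {f | ∀ i, f i < x} := by
      intro f _
      obtain ⟨x, hx⟩ := hbd f
      exact Set.mem_iUnion.mpr ⟨x, hx⟩
    have h1 : #(I → (Order.succ μ).ord.ToType) ≤
        Cardinal.sum (fun x : (Order.succ μ).ord.ToType =>
          #({f | ∀ i, f i < x} : Set (I → (Order.succ μ).ord.ToType))) := by
      rw [← mk_univ]
      exact (mk_le_mk_of_subset hcov).trans mk_iUnion_le_sum_mk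
    have h2 : ∀ x : (Order.succ μ).ord.ToType,
        #({f | ∀ i, f i < x} : Set (I → (Order.succ μ).ord.ToType)) ≤ μ := by
      intro x
      have e : #({f | ∀ i, f i < x} : Set (I → (Order.succ μ).ord.ToType)) ≤ #(I → Set.Iio x) := by
        refine mk_le_of_injective (f := fun f i => (⟨f.1 i, f.2 i⟩ : Set.Iio x)) ?_
        intro f g hfg
        apply Subtype.ext
        funext i
        have := congrFun hfg i
        exact congrArg Subtype.val this
      have h3 : #(Set.Iio x) < Order.succ μ := by simpa using mk_Iio_lt x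
      have h4 : #(Set.Iio x) ≤ μ := Order.lt_succ_iff.mp h3
      calc _ ≤ #(I → Set.Iio x) := e
        _ = #(Set.Iio x) ^ #I := (power_def _ _).symm
        _ ≤ μ ^ #I := power_le_power_right h4
        _ = μ := by
          rw [hI, hμ, ← power_mul, mul_eq_left (aleph0_le_aleph _) hn]
          exact (aleph0_pos.trans_le (aleph0_le_aleph _)).ne'
    have hμκ : μ ≤ Order.succ μ := Order.le_succ μ
    have hκ0 : ℵ₀ ≤ Order.succ μ := hμ0.trans hμκ
    calc (Order.succ μ) ^ Cardinal.aleph (n : Ordinal.{0})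
        = #((Order.succ μ).ord.ToType) ^ #I := by rw [hI, hJ]
      _ = #(I → (Order.succ μ).ord.ToType) := power_def _ _
      _ ≤ _ := h1
      _ ≤ Cardinal.sum (fun _ : (Order.succ μ).ord.ToType => μ) := sum_le_sum _ _ h2
      _ = Order.succ μ * μ := by rw [sum_const', hJ]
      _ ≤ Order.succ μ * Order.succ μ := mul_le_mul_right hμκ _
      _ = Order.succ μ := mul_eq_self hκ0


end Pool.Agent.Helper937.Eta
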