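import Pool.Agent.Helper937.Eta0

set_option autoImplicit false

open Cardinal Ordinal Set

namespace Pool.Agent.Helper937.Eta
/-- conditions: finite sets of quadruples (a, b, p, q) -/
def Good {I : Type} [LinearOrder I] (r : Finset (I × I × ℕ × ℕ)) : Prop :=
  (∀ a b p q, (a, b, p, q) ∈ r → a < b ∧ p < q) ∧
  (∀ a b p q p' q', (a, b, p, q) ∈ r → (a, b, p', q') ∈ r → p = p' ∧ q = q') ∧
  (∀ a b c p q s, (a, b, p, q) ∈ r → (b, c, q, s) ∈ r → (a, c, p, s) ∈ r → False)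

theorem amalgam_aux {I : Type} [LinearOrder I] [DecidableEq (I × I × ℕ × ℕ)]
    (r s : Finset (I × I × ℕ × ℕ)) (hr : Good r) (hs : Good s)
    (A B R0 : Finset I)
    (hA : ∀ a b i j, (a, b, i, j) ∈ r → a ∈ A ∧ b ∈ A)
    (hB : ∀ a b i j, (a, b, i, j) ∈ s → a ∈ B ∧ b ∈ B)
    (hAB : ∀ x, x ∈ A → x ∈ B → x ∈ R0)
    (hroot : ∀ a ∈ R0, ∀ b ∈ R0, ∀ i j, (a, b, i, j) ∈ r ↔ (a, b, i, j) ∈ s) :
    Good (r ∪ s) := by
  have tr : ∀ x y i j, (x, y, i, j) ∈ s → x ∈ A → y ∈ A → (x, y, i, j) ∈ r := by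
    intro x y i j h hx hy
    exact (hroot x (hAB x hx (hB _ _ _ _ h).1) y (hAB y hy (hB _ _ _ _ h).2) i j).2 h
  have ts : ∀ x y i j, (x, y, i, j) ∈ r → x ∈ B → y ∈ B → (x, y, i, j) ∈ s := by
    intro x y i j h hx hy
    exact (hroot x (hAB x (hA _ _ _ _ h).1 hx) y (hAB y (hA _ _ _ _ h).2 hy) i j).1 h
  refine ⟨?_, ?_, ?_⟩
  · intro a b p q h
    rcases Finset.mem_union.1 h with h | h
    · exact hr.1 a b p q h
    · exact hs.1 a b p q h
  · intro a b p q p' q' h h'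
    rcases Finset.mem_union.1 h with h | h <;> rcases Finset.mem_union.1 h' with h' | h'
    · exact hr.2.1 a b p q p' q' h h'
    · exact hr.2.1 a b p q p' q' h (tr _ _ _ _ h' (hA _ _ _ _ h).1 (hA _ _ _ _ h).2)
    · exact hr.2.1 a b p q p' q' (tr _ _ _ _ h (hA _ _ _ _ h').1 (hA _ _ _ _ h').2) h'
    · exact hs.2.1 a b p q p' q' h h'
  · intro a b c p q t h1 h2 h3
    rcases Finset.mem_union.1 h1 with h1 | h1 <;> rcases Finset.mem_union.1 h2 with h2 | h2 <;>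
      rcases Finset.mem_union.1 h3 with h3 | h3
    · exact hr.2.2 a b c p q t h1 h2 h3
    · exact hr.2.2 a b c p q t h1 h2 (tr _ _ _ _ h3 (hA _ _ _ _ h1).1 (hA _ _ _ _ h2).2)
    · exact hr.2.2 a b c p q t h1 (tr _ _ _ _ h2 (hA _ _ _ _ h1).2 (hA _ _ _ _ h3).2) h3
    · exact hs.2.2 a b c p q t (ts _ _ _ _ h1 (hB _ _ _ _ h3).1 (hB _ _ _ _ h2).1) h2 h3
    · exact hr.2.2 a b c p q t (tr _ _ _ _ h1 (hA _ _ _ _ h3).1 (hA _ _ _ _ h2).1) h2 h3
    · exact hs.2.2 a b c p q t h1 (ts _ _ _ _ h2 (hB _ _ _ _ h1).2 (hB _ _ _ _ h3).2) h3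
    · exact hs.2.2 a b c p q t h1 h2 (ts _ _ _ _ h3 (hB _ _ _ _ h1).1 (hB _ _ _ _ h2).2)
    · exact hs.2.2 a b c p q t h1 h2 h3

theorem amalgam {I : Type} [LinearOrder I] [DecidableEq (I × I × ℕ × ℕ)]
    (r s : Finset (I × I × ℕ × ℕ)) (hr : Good r) (hs : Good s) (v u : I) (p q : ℕ)
    (A B R0 : Finset I)
    (hA : ∀ a b i j, (a, b, i, j) ∈ r → a ∈ A ∧ b ∈ A)
    (hB : ∀ a b i j, (a, b, i, j) ∈ s → a ∈ B ∧ b ∈ B)
    (hvA : v ∈ A) (huB : u ∈ B)
    (hAB : ∀ x, x ∈ A → x ∈ B → x ∈ R0)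
    (hroot : ∀ a ∈ R0, ∀ b ∈ R0, ∀ i j, (a, b, i, j) ∈ r ↔ (a, b, i, j) ∈ s)
    (hR : ∀ a ∈ R0, a < v ∧ a < u)
    (htype : ∀ a ∈ R0, ∀ i j, (a, v, i, j) ∈ r ↔ (a, u, i, j) ∈ s)
    (hvu : v < u) (hpq : p < q) :
    Good (insert (v, u, p, q) (r ∪ s)) := by
  have h0 := amalgam_aux r s hr hs A B R0 hA hB hAB hroot
  have huA : u ∉ A := fun h => lt_irrefl _ (hR u (hAB u h huB)).2
  have hvB : v ∉ B := fun h => lt_irrefl _ (hR v (hAB v hvA h)).1
  have hno : ∀ i j, (v, u, i, j) ∉ r ∪ s := by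
    intro i j h
    rcases Finset.mem_union.1 h with h | h
    · exact huA (hA _ _ _ _ h).2
    · exact hvB (hB _ _ _ _ h).1
  refine ⟨?_, ?_, ?_⟩
  · intro a b i j h
    rcases Finset.mem_insert.1 h with h | h
    · simp only [Prod.mk.injEq] at h
      obtain ⟨rfl, rfl, rfl, rfl⟩ := h
      exact ⟨hvu, hpq⟩
    · exact h0.1 a b i j h
  · intro a b i j i' j' h h'
    rcases Finset.mem_insert.1 h with h | h <;> rcases Finset.mem_insert.1 h' with h' | h'
    · simp only [Prod.mk.injEq] at h h'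
      exact ⟨h.2.2.1.trans h'.2.2.1.symm, h.2.2.2.trans h'.2.2.2.symm⟩
    · simp only [Prod.mk.injEq] at h
      rw [h.1, h.2.1] at h'
      exact absurd h' (hno _ _)
    · simp only [Prod.mk.injEq] at h'
      rw [h'.1, h'.2.1] at h
      exact absurd h (hno _ _)
    · exact h0.2.1 a b i j i' j' h h'
  · intro a b c i j l h1 h2 h3
    rcases Finset.mem_insert.1 h1 with k1 | k1
    · simp only [Prod.mk.injEq] at k1
      obtain ⟨rfl, rfl, rfl, rfl⟩ := k1
      rcases Finset.mem_insert.1 h2 with k2 | k2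
      · simp only [Prod.mk.injEq] at k2
        rw [k2.1] at hvu
        exact lt_irrefl _ hvu
      · rcases Finset.mem_union.1 k2 with m2 | m2
        · exact huA (hA _ _ _ _ m2).1
        · rcases Finset.mem_insert.1 h3 with k3 | k3
          · simp only [Prod.mk.injEq] at k3
            have h4 := (hs.1 _ _ _ _ m2).1
            rw [k3.2.1] at h4
            exact lt_irrefl _ h4
          · rcases Finset.mem_union.1 k3 with m3 | m3
            · have h4 := (hR c (hAB c (hA _ _ _ _ m3).2 (hB _ _ _ _ m2).2)).2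
              exact lt_asymm h4 (hs.1 _ _ _ _ m2).1
            · exact hvB (hB _ _ _ _ m3).1
    · rcases Finset.mem_insert.1 h2 with k2 | k2
      · simp only [Prod.mk.injEq] at k2
        obtain ⟨rfl, rfl, rfl, rfl⟩ := k2
        rcases Finset.mem_union.1 k1 with m1 | m1
        · rcases Finset.mem_insert.1 h3 with k3 | k3
          · simp only [Prod.mk.injEq] at k3
            have h4 := (hr.1 _ _ _ _ m1).1
            rw [k3.1] at h4
            exact lt_irrefl _ h4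
          · rcases Finset.mem_union.1 k3 with m3 | m3
            · exact huA (hA _ _ _ _ m3).2
            · have haR := hAB a (hA _ _ _ _ m1).1 (hB _ _ _ _ m3).1
              have h4 := (htype a haR _ _).2 m3
              have h5 := (hr.2.1 _ _ _ _ _ _ m1 h4).2
              rw [h5] at hpq
              exact lt_irrefl _ hpq
        · exact hvB (hB _ _ _ _ m1).2
      · rcases Finset.mem_insert.1 h3 with k3 | k3
        · simp only [Prod.mk.injEq] at k3
          obtain ⟨rfl, rfl, rfl, rfl⟩ := k3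
          rcases Finset.mem_union.1 k1 with m1 | m1
          · rcases Finset.mem_union.1 k2 with m2 | m2
            · exact huA (hA _ _ _ _ m2).2
            · have h4 := (hR b (hAB b (hA _ _ _ _ m1).2 (hB _ _ _ _ m2).1)).1
              exact lt_asymm h4 (hr.1 _ _ _ _ m1).1
          · exact hvB (hB _ _ _ _ m1).1
        · exact h0.2.2 a b c i j l k1 k2 k3


theorem amalgam0 {I : Type} [LinearOrder I] [DecidableEq (I × I × ℕ × ℕ)]
    (r s : Finset (I × I × ℕ × ℕ)) (hr : Good r) (hs : Good s)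
    (A B R0 : Finset I)
    (hA : ∀ a b i j, (a, b, i, j) ∈ r → a ∈ A ∧ b ∈ A)
    (hB : ∀ a b i j, (a, b, i, j) ∈ s → a ∈ B ∧ b ∈ B)
    (hAB : ∀ x, x ∈ A → x ∈ B → x ∈ R0)
    (hroot : ∀ a ∈ R0, ∀ b ∈ R0, ∀ i j, (a, b, i, j) ∈ r ↔ (a, b, i, j) ∈ s) :
    Good (r ∪ s) := by
  exact amalgam_aux r s hr hs A B R0 hA hB hAB hroot


end Pool.Agent.Helper937.Eta
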