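import Pool.Agent.Helper937.Eta2
import Pool.Agent.Helper937.Eta3
import Pool.Agent.Helper937.Eta4

set_option autoImplicit false

open Cardinal Ordinal Set

namespace Pool.Agent.Helper937.Eta

theorem om_mono {m n : ℕ} (h : m ≤ n) : om m ≤ om n := by
  unfold om
  apply Cardinal.ord_le_ord.2
  apply Cardinal.aleph_le_aleph.2
  exact_mod_cast h

theorem agree_mono {m n : ℕ} (h : m ≤ n) {f g : Ordinal.{0} → Bool} (ha : Agree n f g) :
    Agree m f g := fun ν hν => ha ν (lt_of_lt_of_le hν (om_mono h))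

theorem agree_symm {n : ℕ} {f g : Ordinal.{0} → Bool} (ha : Agree n f g) : Agree n g f :=
  fun ν hν => (ha ν hν).symm

theorem agree_trans {n : ℕ} {f g h : Ordinal.{0} → Bool} (ha : Agree n f g) (hb : Agree n g h) :
    Agree n f h := fun ν hν => (ha ν hν).trans (hb ν hν)

theorem lt_irrefl' {f : Ordinal.{0} → Bool} (h : lt f f) : False := by
  obtain ⟨ν, _, h1, h2⟩ := h
  rw [h1] at h2
  exact absurd h2 (by decide)

theorem lt_trans' {f g h : Ordinal.{0} → Bool} (h1 : lt f g) (h2 : lt g h) : lt f h := by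
  obtain ⟨ν, a1, a2, a3⟩ := h1
  obtain ⟨μ, b1, b2, b3⟩ := h2
  rcases lt_trichotomy ν μ with hl | hl | hl
  · exact ⟨ν, fun i hi => (a1 i hi).trans (b1 i (hi.trans hl)), a2, by rw [← b1 ν hl]; exact a3⟩
  · subst hl
    rw [a3] at b2
    exact absurd b2 (by decide)
  · exact ⟨μ, fun i hi => (a1 i (hi.trans hl)).trans (b1 i hi), by rw [a1 μ hl]; exact b2, b3⟩

/-- convexity of the set of sequences with a given initial segment -/
theorem convex {f g h : Ordinal.{0} → Bool} (θ : Ordinal.{0}) (h1 : lt f g) (h2 : lt g h)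
    (ha : ∀ ν, ν < θ → f ν = h ν) : ∀ ν, ν < θ → f ν = g ν := by
  obtain ⟨ν, a1, a2, a3⟩ := h1
  obtain ⟨μ, b1, b2, b3⟩ := h2
  by_cases hν : ν < θ
  · exfalso
    have e := ha ν hν
    rcases lt_trichotomy ν μ with hl | hl | hl
    · have := b1 ν hl
      rw [a2, ← this, a3] at e
      exact absurd e (by decide)
    · subst hl
      rw [a3] at b2
      exact absurd b2 (by decide)
    · have e2 := ha μ (hl.trans hν)
      rw [a1 μ hl, b2, b3] at e2
      exact absurd e2 (by decide)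
  · intro i hi
    exact a1 i (lt_of_lt_of_le hi (not_lt.1 hν))

theorem ltB_of_lt {f g : Ordinal.{0} → Bool} {d : Ordinal.{0}} (h : lt f g)
    (hd : ¬ ∀ ν, ν < d → f ν = g ν) : ltB d f g := by
  obtain ⟨ν, a1, a2, a3⟩ := h
  refine ⟨ν, ?_, a1, a2, a3⟩
  by_contra hc
  exact hd fun i hi => a1 i (lt_of_lt_of_le hi (not_lt.1 hc))

theorem exists_lev {f : Ordinal.{0} → Bool} (hf : f ∈ R) :
    ∃ n : ℕ, ∀ ν, f ν = true → ν < om n := by
  obtain ⟨_, β, hβ, h⟩ := hf
  have h1 : β.card < Cardinal.aleph (Ordinal.omega0 : Ordinal.{0}) := Cardinal.lt_ord.1 hβ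
  rw [Cardinal.aleph_limit Ordinal.isSuccLimit_omega0] at h1
  haveI : Nonempty (Set.Iio (Ordinal.omega0 : Ordinal.{0})) := ⟨⟨0, Ordinal.omega0_pos⟩⟩
  obtain ⟨⟨a, ha⟩, h2⟩ := exists_lt_of_lt_ciSup h1
  obtain ⟨n, rfl⟩ := Ordinal.lt_omega0.1 ha
  refine ⟨n, fun ν hν => lt_trans (h ν hν) ?_⟩
  exact Cardinal.lt_ord.2 h2

open Classical in
noncomputable def lev (f : Ordinal.{0} → Bool) : ℕ :=
  if h : ∃ n : ℕ, ∀ ν, f ν = true → ν < om n then Nat.find h else 0

theorem lev_spec {f : Ordinal.{0} → Bool} (hf : f ∈ R) : ∀ ν, f ν = true → ν < om (lev f) := by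
  classical
  have h := exists_lev hf
  unfold lev
  rw [dif_pos h]
  exact Nat.find_spec h

theorem om_card (n : ℕ) : (om n).card = Cardinal.aleph (n : Ordinal.{0}) := by
  unfold om
  exact Cardinal.card_ord _

theorem no_long {n : ℕ} (g : Ordinal.{0} → Ordinal.{0} → Bool)
    (hg : ∀ i j, i < j → j < om (n + 1) → ltB (om n) (g i) (g j)) : False := by
  have e : Cardinal.aleph ((n + 1 : ℕ) : Ordinal.{0})
      = Order.succ (Cardinal.aleph (n : Ordinal.{0})) := by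
    rw [Nat.cast_succ, ← Order.succ_eq_add_one]
    exact Cardinal.aleph_succ _
  refine no_seq (Cardinal.aleph ((n + 1 : ℕ) : Ordinal.{0})) ?_ (om n) ?_ g hg
  · rw [e]
    exact Cardinal.isRegular_succ (Cardinal.aleph0_le_aleph _)
  · rw [om_card, e]
    exact Order.lt_succ _

section phi

variable (φ : (Ordinal.{0} → Bool) → (Ordinal.{0} → Bool)) (hR : ∀ f ∈ R, φ f ∈ R)
  (hmono : ∀ f ∈ R, ∀ g ∈ R, lt f g → lt (φ f) (φ g))

include hR hmono

theorem inf_levels {x y : Ordinal.{0} → Bool} (hx : x ∈ R) (hy : y ∈ R) (hxy : lt x y) (m : ℕ)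
    (ha : Agree m (φ x) (φ y)) :
    {p | ∃ z ∈ R, Agree m (φ z) (φ x) ∧ lev (φ z) = p}.Infinite := by
  intro hfin
  obtain ⟨N, hN⟩ := hfin.bddAbove
  obtain ⟨z, hz, hz2⟩ := seq_between hx hy hxy (max N m + 1)
  refine no_long (n := max N m) (fun i => φ (z i)) ?_
  intro i j hij hj
  have hi : i < om (max N m + 1) := hij.trans hj
  have hlt := hmono _ (hz i hi).1 _ (hz j hj).1 (hz2 i j hij hj)
  obtain ⟨ν, a1, a2, a3⟩ := hlt
  refine ⟨ν, ?_, a1, a2, a3⟩
  have h1 := lev_spec (hR _ (hz j hj).1) ν a3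
  refine lt_of_lt_of_le h1 (om_mono ?_)
  refine le_trans (hN ?_) (le_max_left N m)
  refine ⟨z j, (hz j hj).1, ?_, rfl⟩
  exact agree_symm (convex (om m) (hmono _ hx _ (hz j hj).1 (hz j hj).2.1)
    (hmono _ (hz j hj).1 _ hy (hz j hj).2.2) ha)

omit hR in
theorem exists_pair {x y : Ordinal.{0} → Bool} (hx : x ∈ R) (hy : y ∈ R) (hxy : lt x y) (n : ℕ) :
    ∃ z ∈ R, ∃ z' ∈ R, lt x z ∧ lt z z' ∧ lt z' y ∧ Agree n (φ z) (φ z') := by
  obtain ⟨z, hz, hz2⟩ := seq_between hx hy hxy (n + 1)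
  by_contra hc
  refine no_long (n := n) (fun i => φ (z i)) ?_
  intro i j hij hj
  have hi : i < om (n + 1) := hij.trans hj
  refine ltB_of_lt (hmono _ (hz i hi).1 _ (hz j hj).1 (hz2 i j hij hj)) ?_
  intro hag
  exact hc ⟨z i, (hz i hi).1, z j, (hz j hj).1, (hz i hi).2.1, hz2 i j hij hj, (hz j hj).2.2, hag⟩

end phi

/-- the element of `R` that starts with t, then is true at omega, omega+1, .., up to i -/
noncomputable def E (t : ℕ → Bool) (i : ℕ) : Ordinal.{0} → Bool := by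
  classical
  exact fun ν => decide ((∃ k : ℕ, ν = k ∧ t k = true) ∨
    ∃ j : ℕ, j ≤ i ∧ ν = Ordinal.omega0 + j)

theorem om0 : om 0 = Ordinal.omega0 := by
  unfold om
  simp [Cardinal.aleph_zero]

theorem E_nat (t : ℕ → Bool) (i k : ℕ) : E t i (k : Ordinal.{0}) = t k := by
  classical
  unfold E
  have hk : (k : Ordinal.{0}) < Ordinal.omega0 := Ordinal.natCast_lt_omega0 k
  cases h : t k
  · rw [decide_eq_false_iff_not]
    rintro (⟨k', h1, h2⟩ | ⟨j, _, h2⟩)
    · have : k = k' := by exact_mod_cast h1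
      subst this
      rw [h] at h2
      exact absurd h2 (by decide)
    · rw [h2] at hk
      exact absurd hk (not_lt.2 (le_self_add))
  · rw [decide_eq_true_iff]
    exact Or.inl ⟨k, rfl, h⟩

theorem E_mem (t : ℕ → Bool) (i : ℕ) : E t i ∈ R := by
  classical
  refine ⟨⟨Ordinal.omega0, ?_⟩, Ordinal.omega0 + Ordinal.omega0, ?_, ?_⟩
  · unfold E
    rw [decide_eq_true_iff]
    exact Or.inr ⟨0, Nat.zero_le _, by simp⟩
  · rw [Cardinal.lt_ord]
    rw [Ordinal.card_add, Ordinal.card_omega0]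
    rw [Cardinal.aleph0_add_aleph0]
    rw [← Cardinal.aleph_zero]
    exact Cardinal.aleph_lt_aleph.2 Ordinal.omega0_pos
  · intro ν hν
    unfold E at hν
    rw [decide_eq_true_iff] at hν
    rcases hν with ⟨k, h1, _⟩ | ⟨j, _, h2⟩
    · rw [h1]
      exact lt_of_lt_of_le (Ordinal.natCast_lt_omega0 k) (le_self_add)
    · rw [h2]
      exact (add_lt_add_iff_left _).2 (Ordinal.natCast_lt_omega0 j)

theorem E_lt (t : ℕ → Bool) : lt (E t 0) (E t 1) := by
  classical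
  refine ⟨Ordinal.omega0 + 1, ?_, ?_, ?_⟩
  · intro μ hμ
    unfold E
    rw [decide_eq_decide]
    constructor
    · rintro (h | ⟨j, hj, h⟩)
      · exact Or.inl h
      · exact Or.inr ⟨j, hj.trans (Nat.zero_le _), h⟩
    · rintro (h | ⟨j, hj, h⟩)
      · exact Or.inl h
      · rcases Nat.le_one_iff_eq_zero_or_eq_one.1 hj with rfl | rfl
        · exact Or.inr ⟨0, le_rfl, h⟩
        · rw [h] at hμ
          exact absurd hμ (by simp)
  · unfold E
    rw [decide_eq_false_iff_not]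
    rintro (⟨k, h, _⟩ | ⟨j, hj, h⟩)
    · have := Ordinal.natCast_lt_omega0 k
      rw [← h] at this
      exact absurd this (not_lt.2 (le_self_add))
    · have hj0 : j = 0 := Nat.le_zero.1 hj
      subst hj0
      simp at h
  · unfold E
    rw [decide_eq_true_iff]
    exact Or.inr ⟨1, le_rfl, by simp⟩

def ltN (t t' : ℕ → Bool) : Prop := ∃ k, (∀ j, j < k → t j = t' j) ∧ t k = false ∧ t' k = true

theorem ltN_total {t t' : ℕ → Bool} (h : t ≠ t') : ltN t t' ∨ ltN t' t := by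
  classical
  have h1 : ∃ k, t k ≠ t' k := by
    by_contra hc
    push Not at hc
    exact h (funext hc)
  let k := Nat.find h1
  have hk : t k ≠ t' k := Nat.find_spec h1
  have hk2 : ∀ j, j < k → t j = t' j := fun j hj => by
    have := Nat.find_min h1 hj
    simpa using this
  cases e1 : t k <;> cases e2 : t' k
  · rw [e1, e2] at hk; exact absurd rfl hk
  · exact Or.inl ⟨k, hk2, e1, e2⟩
  · exact Or.inr ⟨k, fun j hj => (hk2 j hj).symm, e2, e1⟩
  · rw [e1, e2] at hk; exact absurd rfl hk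

theorem lt_of_ltN {t t' : ℕ → Bool} (h : ltN t t') {x x' : Ordinal.{0} → Bool}
    (hx : ∀ k : ℕ, x (k : Ordinal.{0}) = t k) (hx' : ∀ k : ℕ, x' (k : Ordinal.{0}) = t' k) :
    lt x x' := by
  obtain ⟨k, h1, h2, h3⟩ := h
  refine ⟨k, ?_, by rw [hx]; exact h2, by rw [hx']; exact h3⟩
  intro μ hμ
  obtain ⟨j, rfl⟩ := Ordinal.lt_omega0.1 (hμ.trans (Ordinal.natCast_lt_omega0 k))
  rw [hx, hx']
  exact h1 j (by exact_mod_cast hμ)

theorem path3 {S : Set (ℕ → Bool)} (hS : S.Infinite) :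
    ∃ a ∈ S, ∃ b ∈ S, ∃ c ∈ S, ltN a b ∧ ltN b c := by
  classical
  obtain ⟨F, hF, hc⟩ := hS.exists_subset_card_eq 3
  obtain ⟨x, y, z, hxy, hxz, hyz, rfl⟩ := Finset.card_eq_three.1 hc
  have hx : x ∈ S := hF (by simp)
  have hy : y ∈ S := hF (by simp)
  have hz : z ∈ S := hF (by simp)
  rcases ltN_total hxy with h1 | h1 <;> rcases ltN_total hyz with h2 | h2 <;>
    rcases ltN_total hxz with h3 | h3
  · exact ⟨x, hx, y, hy, z, hz, h1, h2⟩
  · exact ⟨x, hx, y, hy, z, hz, h1, h2⟩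
  · exact ⟨x, hx, z, hz, y, hy, h3, h2⟩
  · exact ⟨z, hz, x, hx, y, hy, h3, h1⟩
  · exact ⟨y, hy, x, hx, z, hz, h1, h3⟩
  · exact ⟨y, hy, z, hz, x, hx, h2, h3⟩
  · exact ⟨z, hz, y, hy, x, hx, h2, h1⟩
  · exact ⟨z, hz, y, hy, x, hx, h2, h1⟩

end Pool.Agent.Helper937.Eta
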