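import Pool.Agent.Helper937.EtaA

set_option autoImplicit false

open Cardinal Ordinal Set

namespace Pool.Agent.Helper937.Eta

/-- the statement of S09341 -/
def Stmt : Prop :=
    ∀ (R : Set (Ordinal.{0} → Bool)) (lt : (Ordinal.{0} → Bool) → (Ordinal.{0} → Bool) → Prop),
      (∀ f, f ∈ R ↔ ((∃ ν, f ν = true) ∧
          ∃ β : Ordinal.{0}, β < (Cardinal.aleph (Ordinal.omega0 : Ordinal.{0})).ord ∧
            ∀ ν, f ν = true → ν < β)) →
      (∀ f g, lt f g ↔ ∃ ν : Ordinal.{0}, (∀ μ, μ < ν → f μ = g μ) ∧ f ν = false ∧ g ν = true) →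
      ∀ G : SimpleGraph (Ordinal.{0} → Bool),
        (∀ a ∈ R, ∀ b ∈ R, ∀ c ∈ R, ¬ (G.Adj a b ∧ G.Adj b c ∧ G.Adj a c)) →
        ∃ φ : (Ordinal.{0} → Bool) → (Ordinal.{0} → Bool),
          (∀ f ∈ R, φ f ∈ R) ∧
          (∀ f ∈ R, ∀ g ∈ R, lt f g → lt (φ f) (φ g)) ∧
          (∀ f ∈ R, ∀ g ∈ R, ¬ G.Adj (φ f) (φ g))

theorem big {κ : Cardinal.{0}} (hκ : κ.IsRegular) (hω : ℵ₀ < κ)
    (hc : (2 : Cardinal.{0}) ^ ℵ₀ = κ)
    (φ : (Ordinal.{0} → Bool) → (Ordinal.{0} → Bool)) (hR : ∀ f ∈ R, φ f ∈ R)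
    (hmono : ∀ f ∈ R, ∀ g ∈ R, lt f g → lt (φ f) (φ g))
    (α : ℕ → (Ordinal.{0} → Bool) → κ.ord.ToType)
    (hα : ∀ n f g, α n f = α n g ↔ Agree n f g) :
    ∃ m, Unb {γ : κ.ord.ToType | ∃ x ∈ R, ∃ y ∈ R, lt x y ∧ α m (φ x) = γ ∧ α m (φ y) = γ} := by
  classical
  by_contra hcon
  push Not at hcon
  have key : ∀ t : ℕ → Bool, ∃ n, ∃ x ∈ R, ∃ y ∈ R, (∀ k : ℕ, x (k : Ordinal.{0}) = t k) ∧
      (∀ k : ℕ, y (k : Ordinal.{0}) = t k) ∧ ¬ Agree n (φ x) (φ y) := by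
    intro t
    have h1 := hmono _ (E_mem t 0) _ (E_mem t 1) (E_lt t)
    obtain ⟨ν, a1, a2, a3⟩ := h1
    refine ⟨lev (φ (E t 1)), E t 0, E_mem t 0, E t 1, E_mem t 1, E_nat t 0, E_nat t 1, ?_⟩
    intro hag
    have := hag ν (lev_spec (hR _ (E_mem t 1)) ν a3)
    rw [a2, a3] at this
    exact absurd this (by decide)
  let n : (ℕ → Bool) → ℕ := fun t => Nat.find (key t)
  have hn := fun t => Nat.find_spec (key t)
  have hu : ∀ t : ℕ → Bool, ∃ z ∈ R, ∃ z' ∈ R, lt z z' ∧ (∀ k : ℕ, z (k : Ordinal.{0}) = t k) ∧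
      Agree (n t) (φ z) (φ z') := by
    intro t
    obtain ⟨z, hz, z', hz', h1, h2, h3, h4⟩ :=
      exists_pair φ hmono (E_mem t 0) (E_mem t 1) (E_lt t) (n t)
    refine ⟨z, hz, z', hz', h2, ?_, h4⟩
    intro k
    have hcv := convex (Ordinal.omega0) h1 (lt_trans' h2 h3) (fun ν hν => by
      obtain ⟨j, rfl⟩ := Ordinal.lt_omega0.1 hν
      rw [E_nat, E_nat]) k (Ordinal.natCast_lt_omega0 k)
    rw [← hcv, E_nat]
  choose z hz z' hz' hzz hzt hag using hu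
  obtain ⟨m, c, hinf⟩ := pigeonN hκ hω hc
    (fun m => {γ : κ.ord.ToType | ∃ x ∈ R, ∃ y ∈ R, lt x y ∧ α m (φ x) = γ ∧ α m (φ y) = γ})
    hcon n (fun t => α (n t) (φ (z t)))
    (fun t => ⟨z t, hz t, z' t, hz' t, hzz t, rfl, ((hα (n t) _ _).2 (hag t)).symm⟩)
  obtain ⟨t1, h1, t2, h2, t3, h3, l12, l23⟩ := path3 hinf
  obtain ⟨x, hx, y, hy, hxt, hyt, hna⟩ := hn t2
  have e1 : n t1 = m := h1.1
  have e2 : n t2 = m := h2.1
  have e3 : n t3 = m := h3.1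
  have c1 : α m (φ (z t1)) = c := by have := h1.2; simp only [e1] at this; exact this
  have c3 : α m (φ (z t3)) = c := by have := h3.2; simp only [e3] at this; exact this
  have hag13 : Agree m (φ (z t1)) (φ (z t3)) := (hα m _ _).1 (c1.trans c3.symm)
  have q : ∀ w ∈ R, (∀ k : ℕ, w (k : Ordinal.{0}) = t2 k) → Agree m (φ (z t1)) (φ w) := by
    intro w hw hwt
    exact convex (om m) (hmono _ (hz t1) _ hw (lt_of_ltN l12 (hzt t1) hwt))
      (hmono _ hw _ (hz t3) (lt_of_ltN l23 hwt (hzt t3))) hag13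
  apply hna
  have e2' : Nat.find (key t2) = m := e2
  rw [e2']
  exact agree_trans (agree_symm (q x hx hxt)) (q y hy hyt)

theorem not_stmt {κ : Cardinal.{0}} (hκ : κ.IsRegular)
    (hc : ∀ n : ℕ, (2 : Cardinal.{0}) ^ (Cardinal.aleph (n : Ordinal.{0})) = κ)
    (hP : Principle κ) : ¬ Stmt := by
  classical
  intro hS
  have hc0 : (2 : Cardinal.{0}) ^ ℵ₀ = κ := by
    have := hc 0
    simpa [Cardinal.aleph_zero] using this
  have hω : ℵ₀ < κ := by rw [← hc0]; exact Cardinal.cantor _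
  obtain ⟨H, H1, H2, H3, H4⟩ := hP
  choose α hα using fun n : ℕ => codes (κ := κ) n (hc n)
  -- the directed relation
  let D : (Ordinal.{0} → Bool) → (Ordinal.{0} → Bool) → Prop := fun f g =>
    ∃ n : ℕ, (∀ m, m < n → Agree m f g) ∧ ¬ Agree n f g ∧ H (α n f) (α n g) (lev f) (lev g)
  have Dlev : ∀ f g, D f g → lev f < lev g := by
    rintro f g ⟨n, _, _, h⟩
    exact (H1 _ _ _ _ h).2
  have Dtri : ∀ x y z, D x y → D y z → D x z → False := by
    rintro x y z ⟨n1, a1, a2, a3⟩ ⟨n2, b1, b2, b3⟩ ⟨n3, c1, c2, c3⟩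
    rcases lt_trichotomy n1 n2 with hl | hl | hl
    · have hyz : Agree n1 y z := b1 n1 hl
      have e : n3 = n1 := by
        rcases lt_trichotomy n3 n1 with h | h | h
        · exact absurd (agree_trans (a1 n3 h) (agree_mono h.le hyz)) c2
        · exact h
        · exact absurd (agree_trans (c1 n1 h) (agree_symm hyz)) a2
      subst e
      rw [← (hα n3 y z).2 hyz] at c3
      have := (H2 _ _ _ _ _ _ a3 c3).2
      have h2 := Dlev y z ⟨n2, b1, b2, b3⟩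
      omega
    · subst hl
      have h3 : n1 ≤ n3 := by
        by_contra hh
        push Not at hh
        exact c2 (agree_trans (a1 n3 hh) (b1 n3 hh))
      rcases h3.eq_or_lt with rfl | h3
      · exact H3 _ _ _ _ _ _ a3 b3 c3
      · have hxz : Agree n1 x z := c1 n1 h3
        have e1 := (H1 _ _ _ _ a3).1
        have e2 := (H1 _ _ _ _ b3).1
        rw [← (hα n1 x z).2 hxz] at e2
        exact absurd (e1.trans e2) (lt_irrefl _)
    · have hxy : Agree n2 x y := a1 n2 hl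
      have e : n3 = n2 := by
        rcases lt_trichotomy n3 n2 with h | h | h
        · exact absurd (agree_trans (agree_mono h.le hxy) (b1 n3 h)) c2
        · exact h
        · exact absurd (agree_trans (agree_symm hxy) (c1 n2 h)) b2
      subst e
      rw [(hα n3 x y).2 hxy] at c3
      have := (H2 _ _ _ _ _ _ b3 c3).1
      have h2 := Dlev x y ⟨n1, a1, a2, a3⟩
      omega
  let G : SimpleGraph (Ordinal.{0} → Bool) :=
    { Adj := fun f g => D f g ∨ D g f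
      symm := ⟨fun f g h => h.symm⟩
      loopless := ⟨fun f h => by
        rcases h with h | h <;> exact absurd (Dlev _ _ h) (lt_irrefl _)⟩ }
  have htri : ∀ a ∈ R, ∀ b ∈ R, ∀ c ∈ R, ¬ (G.Adj a b ∧ G.Adj b c ∧ G.Adj a c) := by
    rintro a _ b _ c _ ⟨h1, h2, h3⟩
    rcases h1 with h1 | h1 <;> rcases h2 with h2 | h2 <;> rcases h3 with h3 | h3
    · exact Dtri _ _ _ h1 h2 h3
    · have := Dlev _ _ h1; have := Dlev _ _ h2; have := Dlev _ _ h3; omega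
    · exact Dtri _ _ _ h3 h2 h1
    · exact Dtri _ _ _ h3 h1 h2
    · exact Dtri _ _ _ h1 h3 h2
    · exact Dtri _ _ _ h2 h3 h1
    · have := Dlev _ _ h1; have := Dlev _ _ h2; have := Dlev _ _ h3; omega
    · exact Dtri _ _ _ h2 h1 h3
  obtain ⟨φ, hR, hmono, hind⟩ := hS R lt (fun f => Iff.rfl) (fun f g => Iff.rfl) G htri
  have hbig := big hκ hω hc0 φ hR hmono α hα
  let C : ℕ → Set κ.ord.ToType := fun m =>
    {γ : κ.ord.ToType | ∃ x ∈ R, ∃ y ∈ R, lt x y ∧ α m (φ x) = γ ∧ α m (φ y) = γ}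
  let m := Nat.find hbig
  have hm : Unb (C m) := Nat.find_spec hbig
  have hmin : ∀ k, k < m → ¬ Unb (C k) := fun k hk => Nat.find_min hbig hk
  have hU : ∃ U : Set κ.ord.ToType, Unb U ∧ U ⊆ C m ∧ ∀ γ ∈ U, ∀ δ ∈ U, ∀ x ∈ R, ∀ y ∈ R,
      α m (φ x) = γ → α m (φ y) = δ → ∀ j, j < m → Agree j (φ x) (φ y) := by
    rcases Nat.eq_zero_or_pos m with h0 | h0
    · refine ⟨C m, hm, Subset.rfl, ?_⟩
      intro γ _ δ _ x _ y _ _ _ j hj
      omega
    · obtain ⟨k, hk⟩ : ∃ k, m = k + 1 := ⟨m - 1, by omega⟩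
      have hx : ∀ γ : κ.ord.ToType, ∃ x : Ordinal.{0} → Bool, γ ∈ C m →
          x ∈ R ∧ α m (φ x) = γ ∧ α k (φ x) ∈ C k := by
        intro γ
        by_cases hγ : γ ∈ C m
        · obtain ⟨x, hx, y, hy, hxy, h1, h2⟩ := hγ
          refine ⟨x, fun _ => ⟨hx, h1, x, hx, y, hy, hxy, rfl, ?_⟩⟩
          have : Agree m (φ x) (φ y) := (hα m _ _).1 (h1.trans h2.symm)
          exact ((hα k _ _).2 (agree_mono (by omega) this)).symm
        · exact ⟨fun _ => false, fun h => absurd h hγ⟩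
      choose x hx using hx
      obtain ⟨c, hcC, hcU⟩ := pigeon hκ (C m) (C k) hm (hmin k (by omega))
        (fun γ => α k (φ (x γ))) (fun γ hγ => (hx γ hγ).2.2)
      refine ⟨_, hcU, fun γ hγ => hγ.1, ?_⟩
      have par : ∀ γ, γ ∈ C m → α k (φ (x γ)) = c → ∀ y ∈ R, α m (φ y) = γ →
          α k (φ y) = c := by
        intro γ hγ hγc y _ hyγ
        have : Agree m (φ y) (φ (x γ)) := (hα m _ _).1 (hyγ.trans (hx γ hγ).2.1.symm)
        rw [← hγc]
        exact (hα k _ _).2 (agree_mono (by omega) this)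
      rintro γ ⟨hγ, hγc⟩ δ ⟨hδ, hδc⟩ y hy w hw hyγ hwδ j hj
      have e1 := par γ hγ hγc y hy hyγ
      have e2 := par δ hδ hδc w hw hwδ
      exact agree_mono (by omega) ((hα k _ _).1 (e1.trans e2.symm))
  obtain ⟨U, hU1, hU2, hU3⟩ := hU
  obtain ⟨γ, δ, p, q, hW1, hW2, hH⟩ := H4
    (fun γ p => γ ∈ U ∧ ∃ x ∈ R, α m (φ x) = γ ∧ lev (φ x) = p) (by
      intro β
      obtain ⟨γ, hγ, hβγ⟩ := hU1 β
      refine ⟨γ, hβγ, ?_⟩
      obtain ⟨x, hx, y, hy, hxy, h1, h2⟩ := hU2 hγ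
      have hag : Agree m (φ x) (φ y) := (hα m _ _).1 (h1.trans h2.symm)
      refine (inf_levels φ hR hmono hx hy hxy m hag).mono ?_
      rintro p ⟨z, hz, hzx, hp⟩
      exact ⟨hγ, z, hz, ((hα m _ _).2 hzx).trans h1, hp⟩)
  obtain ⟨hγU, x, hx, hxγ, hxp⟩ := hW1
  obtain ⟨hδU, y, hy, hyδ, hyq⟩ := hW2
  refine hind x hx y hy (Or.inl ⟨m, ?_, ?_, ?_⟩)
  · intro j hj
    exact hU3 γ hγU δ hδU x hx y hy hxγ hyδ j hj
  · intro hag
    have := (hα m _ _).2 hag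
    rw [hxγ, hyδ] at this
    exact absurd this (H1 _ _ _ _ hH).1.ne
  · rw [hxγ, hyδ, hxp, hyq]
    exact hH

end Pool.Agent.Helper937.Eta
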