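import Pool.Agent.Helper937.EtaF0

set_option autoImplicit false

open Cardinal Ordinal Set

namespace Pool.Agent.Helper937.Eta

theorem cond_ccc (κ : Cardinal.{0}) (A : Set (Cond κ))
    (hA : ∀ a ∈ A, ∀ b ∈ A, a ≠ b → ¬ ∃ c, ext a c ∧ ext b c) : A.Countable := by
  classical
  by_contra hnc
  have hcard : Cardinal.aleph 1 ≤ #A := by
    rw [Cardinal.countable_iff_lt_aleph_one] at hnc
    exact not_lt.mp hnc
  obtain ⟨V', hV'A, hV'c, R0, hR0⟩ := delta_system (Cardinal.aleph 1)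
    Cardinal.isRegular_aleph_one Cardinal.aleph0_lt_aleph_one
    (fun r : Cond κ => r.1.image (fun x => x.1) ∪ r.1.image (fun x => x.2.1)) A hcard
  let e : {x // x ∈ R0} × {x // x ∈ R0} × ℕ × ℕ → κ.ord.ToType × κ.ord.ToType × ℕ × ℕ :=
    fun x => (x.1.1, x.2.1.1, x.2.2.1, x.2.2.2)
  have he : Function.Injective e := by
    rintro ⟨⟨a, ha⟩, ⟨b, hb⟩, i, j⟩ ⟨⟨a', ha'⟩, ⟨b', hb'⟩, i', j'⟩ h
    simp only [e, Prod.mk.injEq] at h
    obtain ⟨h1, h2, h3, h4⟩ := h
    subst h1 h2 h3 h4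
    rfl
  let c : Cond κ → Finset ({x // x ∈ R0} × {x // x ∈ R0} × ℕ × ℕ) :=
    fun r => r.1.preimage e he.injOn
  have hex : ∃ r ∈ V', ∃ s ∈ V', r ≠ s ∧ c r = c s := by
    by_contra hcon
    push Not at hcon
    have hinj : Set.InjOn c V' := by
      intro r hr s hs hrs
      by_contra hne
      exact hcon r hr s hs hne hrs
    have hcount : V'.Countable :=
      Set.countable_of_injective_of_countable_image hinj (Set.to_countable _)
    rw [Cardinal.countable_iff_lt_aleph_one] at hcount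
    exact absurd hV'c (not_le.mpr hcount)
  obtain ⟨r, hr, s, hs, hne, hc⟩ := hex
  obtain ⟨h1, -⟩ := hR0 r hr s hs hne
  have hroot : ∀ a ∈ R0, ∀ b ∈ R0, ∀ i j, (a, b, i, j) ∈ r.1 ↔ (a, b, i, j) ∈ s.1 := by
    intro a ha b hb i j
    have := Finset.ext_iff.mp hc (⟨a, ha⟩, ⟨b, hb⟩, i, j)
    simpa [c, e, Finset.mem_preimage] using this
  have hsupp : ∀ r : Cond κ, ∀ a b i j, (a, b, i, j) ∈ r.1 →
      a ∈ (r.1.image (fun x => x.1) ∪ r.1.image (fun x => x.2.1)) ∧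
      b ∈ (r.1.image (fun x => x.1) ∪ r.1.image (fun x => x.2.1)) := by
    intro r a b i j h
    constructor
    · apply Finset.mem_union_left
      exact Finset.mem_image.mpr ⟨(a, b, i, j), h, rfl⟩
    · apply Finset.mem_union_right
      exact Finset.mem_image.mpr ⟨(a, b, i, j), h, rfl⟩
  have hgood : Good (r.1 ∪ s.1) :=
    amalgam0 r.1 s.1 r.2 s.2 _ _ R0 (hsupp r) (hsupp s) h1 hroot
  exact hA r (hV'A hr) s (hV'A hs) hne ⟨⟨r.1 ∪ s.1, hgood⟩, Finset.subset_union_left,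
    Finset.subset_union_right⟩

end Pool.Agent.Helper937.Eta
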