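import Pool.Agent.Helper937.EtaF0

set_option autoImplicit false

open Cardinal Ordinal Set

namespace Pool.Agent.Helper937.Eta

theorem cond_reals (κ : Cardinal.{0}) (hκ : κ.IsRegular) (hω : ℵ₀ < κ) :
    ∃ ρ : κ.ord.ToType → ℕ → Set (Cond κ), ∀ v u, v ≠ u → ∀ s : Cond κ, ∃ t : Cond κ, ext s t ∧
      ∃ k, Forces ext (ρ v k) t ∧ ∀ t', ext t t' → ¬ Forces ext (ρ u k) t' := by
  classical
  have hcard : #κ.ord.ToType = κ := Cardinal.mk_ord_toType κ
  haveI hinf : Infinite κ.ord.ToType := by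
    rw [Cardinal.infinite_iff, hcard]
    exact hω.le
  obtain ⟨e, he⟩ : ∃ e : ℕ → κ.ord.ToType, Function.Injective e :=
    ⟨Infinite.natEmbedding _, (Infinite.natEmbedding _).injective⟩
  obtain ⟨b, hb⟩ : ∃ b, ∀ k, e k ≤ b := by
    have h1 : ¬ Unb (Set.range e) := by
      apply pigeon_b hκ
      exact lt_of_le_of_lt (Cardinal.le_aleph0_iff_set_countable.2 (Set.countable_range e)) hω
    unfold Unb at h1
    push Not at h1
    obtain ⟨b, hb⟩ := h1
    exact ⟨b, fun k => hb _ ⟨k, rfl⟩⟩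
  obtain ⟨σ, hσ, hσb⟩ : ∃ σ : κ.ord.ToType → κ.ord.ToType, Function.Injective σ ∧
      ∀ v, b < σ v := by
    have h1 : #(Set.Iic b) < #κ.ord.ToType := by
      rw [hcard]
      apply pigeon_a hκ
      unfold Unb
      push Not
      exact ⟨b, fun γ hγ => hγ⟩
    have h2 := Cardinal.mk_compl_of_infinite (Set.Iic b) h1
    obtain ⟨f⟩ := Cardinal.eq.1 h2
    refine ⟨fun v => (f.symm v).1, fun v v' h => f.symm.injective (Subtype.ext h), fun v => ?_⟩
    exact not_le.1 (f.symm v).2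
  refine ⟨fun v k => {r : Cond κ | (e k, σ v, 0, 1) ∈ r.1}, fun v u hvu s => ?_⟩
  obtain ⟨k, hk⟩ : ∃ k, e k ∉ s.1.image (fun z => z.1) ∪ s.1.image (fun z => z.2.1) := by
    obtain ⟨k, hk⟩ := Infinite.exists_notMem_finset
      ((s.1.image (fun z => z.1) ∪ s.1.image (fun z => z.2.1)).preimage e he.injOn)
    exact ⟨k, fun h => hk (Finset.mem_preimage.2 h)⟩
  have hk1 : ∀ c p q, (e k, c, p, q) ∉ s.1 := by
    intro c p q h
    exact hk (Finset.mem_union_left _ (Finset.mem_image.2 ⟨_, h, rfl⟩))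
  have hk2 : ∀ c p q, (c, e k, p, q) ∉ s.1 := by
    intro c p q h
    exact hk (Finset.mem_union_right _ (Finset.mem_image.2 ⟨_, h, rfl⟩))
  have hxy : σ v ≠ σ u := fun h => hvu (hσ h)
  have hax : e k < σ v := lt_of_le_of_lt (hb k) (hσb v)
  have hay : e k < σ u := lt_of_le_of_lt (hb k) (hσb u)
  obtain ⟨a, ha⟩ : ∃ a, a = e k := ⟨_, rfl⟩
  obtain ⟨x, hx⟩ : ∃ x, x = σ v := ⟨_, rfl⟩
  obtain ⟨y, hy⟩ : ∃ y, y = σ u := ⟨_, rfl⟩
  rw [← ha] at hk1 hk2 hax hay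
  rw [← hx] at hxy hax
  rw [← hy] at hxy hay
  have hmem : ∀ c d p q, (c, d, p, q) ∈ insert (a, x, 0, 1) (insert (a, y, 1, 2) s.1) ↔
      (c = a ∧ d = x ∧ p = 0 ∧ q = 1) ∨ (c = a ∧ d = y ∧ p = 1 ∧ q = 2) ∨ (c, d, p, q) ∈ s.1 := by
    intro c d p q
    rw [Finset.mem_insert, Finset.mem_insert, Prod.mk.injEq, Prod.mk.injEq, Prod.mk.injEq,
      Prod.mk.injEq, Prod.mk.injEq, Prod.mk.injEq]
  have hgood : Good (insert (a, x, 0, 1) (insert (a, y, 1, 2) s.1)) := by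
    have ho : ∀ c d p q, (c, d, p, q) ∈ insert (a, x, 0, 1) (insert (a, y, 1, 2) s.1) →
        c < d ∧ p < q := by
      intro c d p q h
      rcases (hmem c d p q).1 h with ⟨rfl, rfl, rfl, rfl⟩ | ⟨rfl, rfl, rfl, rfl⟩ | h
      · exact ⟨hax, by norm_num⟩
      · exact ⟨hay, by norm_num⟩
      · exact s.2.1 c d p q h
    refine ⟨ho, ?_, ?_⟩
    · intro c d p q p' q' h h'
      rcases (hmem c d p q).1 h with ⟨h1, h2, h3, h4⟩ | ⟨h1, h2, h3, h4⟩ | h
      · rcases (hmem c d p' q').1 h' with ⟨h5, h6, h7, h8⟩ | ⟨h5, h6, h7, h8⟩ | h'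
        · exact ⟨h3.trans h7.symm, h4.trans h8.symm⟩
        · exact absurd (h2.symm.trans h6) hxy
        · rw [h1] at h'
          exact absurd h' (hk1 _ _ _)
      · rcases (hmem c d p' q').1 h' with ⟨h5, h6, h7, h8⟩ | ⟨h5, h6, h7, h8⟩ | h'
        · exact absurd (h6.symm.trans h2) hxy
        · exact ⟨h3.trans h7.symm, h4.trans h8.symm⟩
        · rw [h1] at h'
          exact absurd h' (hk1 _ _ _)
      · rcases (hmem c d p' q').1 h' with ⟨h5, h6, h7, h8⟩ | ⟨h5, h6, h7, h8⟩ | h'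
        · rw [h5] at h
          exact absurd h (hk1 _ _ _)
        · rw [h5] at h
          exact absurd h (hk1 _ _ _)
        · exact s.2.2.1 c d p q p' q' h h'
    · intro α β γ p q r h1 h2 h3
      have hβγ : β ≠ γ := (ho _ _ _ _ h2).1.ne
      rcases (hmem α β p q).1 h1 with ⟨a1, a2, a3, a4⟩ | ⟨a1, a2, a3, a4⟩ | h1'
      · rcases (hmem α γ p r).1 h3 with ⟨b1, b2, b3, b4⟩ | ⟨b1, b2, b3, b4⟩ | h3'
        · exact hβγ (a2.trans b2.symm)
        · omega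
        · rw [a1] at h3'
          exact hk1 _ _ _ h3'
      · rcases (hmem α γ p r).1 h3 with ⟨b1, b2, b3, b4⟩ | ⟨b1, b2, b3, b4⟩ | h3'
        · omega
        · exact hβγ (a2.trans b2.symm)
        · rw [a1] at h3'
          exact hk1 _ _ _ h3'
      · rcases (hmem β γ q r).1 h2 with ⟨b1, b2, b3, b4⟩ | ⟨b1, b2, b3, b4⟩ | h2'
        · rw [b1] at h1'
          exact hk2 _ _ _ h1'
        · rw [b1] at h1'
          exact hk2 _ _ _ h1'
        · rcases (hmem α γ p r).1 h3 with ⟨c1, c2, c3, c4⟩ | ⟨c1, c2, c3, c4⟩ | h3'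
          · rw [c1] at h1'
            exact hk1 _ _ _ h1'
          · rw [c1] at h1'
            exact hk1 _ _ _ h1'
          · exact s.2.2.2 α β γ p q r h1' h2' h3'
  obtain ⟨t, ht⟩ : ∃ t : Cond κ, t.1 = insert (a, x, 0, 1) (insert (a, y, 1, 2) s.1) :=
    ⟨⟨_, hgood⟩, rfl⟩
  refine ⟨t, ?_, k, ?_, ?_⟩
  · show s.1 ⊆ t.1
    rw [ht]
    exact (Finset.subset_insert _ _).trans (Finset.subset_insert _ _)
  · intro s' hs'
    refine ⟨s', Finset.Subset.refl _, s', ?_, Finset.Subset.refl _⟩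
    show (e k, σ v, 0, 1) ∈ s'.1
    rw [← ha, ← hx]
    apply hs'
    rw [ht]
    exact Finset.mem_insert_self _ _
  · intro t' ht' hF
    obtain ⟨t'', ht'', w, hw, hwt⟩ := hF t' (Finset.Subset.refl _)
    have h1 : (e k, σ u, 0, 1) ∈ t''.1 := hwt hw
    rw [← ha, ← hy] at h1
    have h2 : (a, y, 1, 2) ∈ t''.1 := by
      apply ht''
      apply ht'
      rw [ht]
      exact Finset.mem_insert_of_mem (Finset.mem_insert_self _ _)
    have h3 := (t''.2.2.1 a y 0 1 1 2 h1 h2).1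
    omega

end Pool.Agent.Helper937.Eta
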