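import Pool.Agent.Helper937.EtaF0

set_option autoImplicit false

open Cardinal Ordinal Set

namespace Pool.Agent.Helper937.Eta

theorem cpAux_mono {κ : Cardinal.{0}} (N : Set (Cond κ)) (r r' : Cond κ) (h : ext r r')
    (hf : Forces ext N r) : Forces ext N r' := by
  intro s hs
  exact hf s (Finset.Subset.trans h hs)

theorem cpAux_final (κ : Cardinal.{0}) (W : κ.ord.ToType → ℕ → Set (Cond κ)) (s0 : Cond κ)
    [DecidableEq κ.ord.ToType]
    (v u : κ.ord.ToType) (rv ru : Cond κ) (p q : ℕ) (hpq : p < q) (hvu : v < u)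
    (R0 : Finset κ.ord.ToType)
    (hs : ext s0 rv) (hfv : Forces ext (W v p) rv) (hfu : Forces ext (W u q) ru)
    (hAB : ∀ x, x ∈ insert v (rv.1.image (fun x => x.1) ∪ rv.1.image (fun x => x.2.1)) →
      x ∈ insert u (ru.1.image (fun x => x.1) ∪ ru.1.image (fun x => x.2.1)) → x ∈ R0)
    (hroot : ∀ a ∈ R0, ∀ b ∈ R0, ∀ i j, (a, b, i, j) ∈ rv.1 ↔ (a, b, i, j) ∈ ru.1)
    (hR : ∀ a ∈ R0, a < v ∧ a < u)
    (htype : ∀ a ∈ R0, ∀ i j, (a, v, i, j) ∈ rv.1 ↔ (a, u, i, j) ∈ ru.1) :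
    ∃ t, ext s0 t ∧ ∃ γ δ p q, Forces ext (W γ p) t ∧ Forces ext (W δ q) t ∧
      (γ, δ, p, q) ∈ t.1 := by
  classical
  have hg := amalgam rv.1 ru.1 rv.2 ru.2 v u p q
    (insert v (rv.1.image (fun x => x.1) ∪ rv.1.image (fun x => x.2.1)))
    (insert u (ru.1.image (fun x => x.1) ∪ ru.1.image (fun x => x.2.1))) R0
    (by
      intro a b i j h
      exact ⟨Finset.mem_insert_of_mem (Finset.mem_union_left _ (Finset.mem_image_of_mem _ h)),
        Finset.mem_insert_of_mem (Finset.mem_union_right _ (Finset.mem_image.2 ⟨_, h, rfl⟩))⟩)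
    (by
      intro a b i j h
      exact ⟨Finset.mem_insert_of_mem (Finset.mem_union_left _ (Finset.mem_image_of_mem _ h)),
        Finset.mem_insert_of_mem (Finset.mem_union_right _ (Finset.mem_image.2 ⟨_, h, rfl⟩))⟩)
    (Finset.mem_insert_self _ _) (Finset.mem_insert_self _ _) hAB hroot hR htype hvu hpq
  let t : Cond κ := ⟨insert (v, u, p, q) (rv.1 ∪ ru.1), hg⟩
  have h1 : ext rv t := fun x hx => Finset.mem_insert_of_mem (Finset.mem_union_left _ hx)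
  have h2 : ext ru t := fun x hx => Finset.mem_insert_of_mem (Finset.mem_union_right _ hx)
  exact ⟨t, Finset.Subset.trans hs h1, v, u, p, q, cpAux_mono _ _ _ h1 hfv,
    cpAux_mono _ _ _ h2 hfu, Finset.mem_insert_self _ _⟩

theorem cond_principle (κ : Cardinal.{0}) (hκ : κ.IsRegular) (hω : ℵ₀ < κ)
    (W : κ.ord.ToType → ℕ → Set (Cond κ)) (r0 : Cond κ)
    (hW : ∀ s, ext r0 s → ∀ β, ∃ t, ext s t ∧ ∃ γ, β < γ ∧
      ∀ t1, ext t t1 → ∀ k : ℕ, ∃ t2, ext t1 t2 ∧ ∃ p, k ≤ p ∧ Forces ext (W γ p) t2) :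
    ∀ s, ext r0 s → ∃ t, ext s t ∧ ∃ γ δ p q, Forces ext (W γ p) t ∧ Forces ext (W δ q) t ∧
      (γ, δ, p, q) ∈ t.1 := by
  classical
  intro s0 hs0
  have hrefl : ∀ r : Cond κ, ext r r := fun r => Finset.Subset.refl _
  have htr : ∀ a b c : Cond κ, ext a b → ext b c → ext a c := fun a b c => Finset.Subset.trans
  set V : Set κ.ord.ToType := {g | ∃ (r : Cond κ) (p q : ℕ), ext s0 r ∧ p < q ∧
    Forces ext (W g p) r ∧ Forces ext (W g q) r} with hVdef
  have hVunb : Unb V := by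
    intro β
    obtain ⟨t, ht, g, hg, h⟩ := hW s0 hs0 β
    obtain ⟨t2, h2, p, _, hp⟩ := h t (hrefl t) 0
    obtain ⟨t3, h3, q, hq, hfq⟩ := h t2 h2 (p + 1)
    exact ⟨g, ⟨t3, p, q, htr _ _ _ ht (htr _ _ _ h2 h3), by omega,
      cpAux_mono _ _ _ h3 hp, hfq⟩, hg⟩
  have hVcard : κ ≤ #V := by
    by_contra hlt
    exact pigeon_b hκ V (not_le.1 hlt) hVunb
  have hch : ∀ g ∈ V, ∃ (r : Cond κ) (p q : ℕ), ext s0 r ∧ p < q ∧
    Forces ext (W g p) r ∧ Forces ext (W g q) r := fun g hg => hg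
  haveI : Nonempty (Cond κ) := ⟨s0⟩
  choose! rr pp qq h1 h2 h3 h4 using hch
  set A : κ.ord.ToType → Finset κ.ord.ToType := fun g =>
    insert g ((rr g).1.image (fun x => x.1) ∪ (rr g).1.image (fun x => x.2.1)) with hA
  obtain ⟨V', hV'V, hV'card, R0, hR0⟩ := delta_system κ hκ hω A V hVcard
  set V2 : Set κ.ord.ToType := {g | g ∈ V' ∧ ∀ a ∈ R0, a < g} with hV2
  have hV2card : κ ≤ #V2 := by
    by_contra hlt
    rw [not_le] at hlt
    have hne : Nonempty κ.ord.ToType := by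
      by_contra hemp
      rw [not_nonempty_iff] at hemp
      have h0 : #V' = 0 := Cardinal.mk_eq_zero_iff.2 ⟨fun x => hemp.elim x.1⟩
      rw [h0] at hV'card
      exact absurd (hω.trans_le hV'card) (by simp)
    have hnu : ¬ Unb (V' \ V2) := by
      intro hU
      have hb : ∃ b : κ.ord.ToType, ∀ a ∈ R0, a ≤ b := by
        rcases R0.eq_empty_or_nonempty with h | h
        · exact ⟨hne.some, fun a ha => by rw [h] at ha; exact absurd ha (Finset.notMem_empty _)⟩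
        · exact ⟨R0.max' h, fun a ha => R0.le_max' a ha⟩
      obtain ⟨b, hb⟩ := hb
      obtain ⟨g, ⟨hg1, hg2⟩, hbg⟩ := hU b
      exact hg2 ⟨hg1, fun a ha => (hb a ha).trans_lt hbg⟩
    have hc := pigeon_a hκ _ hnu
    have hsum : #V' ≤ #V2 + #(V' \ V2 : Set κ.ord.ToType) := by
      refine le_trans (Cardinal.mk_le_mk_of_subset ?_) (Cardinal.mk_union_le _ _)
      intro x hx
      by_cases hx2 : x ∈ V2
      · exact Or.inl hx2
      · exact Or.inr ⟨hx, hx2⟩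
    have := Cardinal.add_lt_of_lt hκ.aleph0_le hlt hc
    exact absurd (hV'card.trans hsum) (not_le.2 this)
  -- the types
  have inj1 : Function.Injective (fun x : {x // x ∈ R0} × {x // x ∈ R0} × ℕ × ℕ =>
      (((x.1.1, x.2.1.1, x.2.2.1, x.2.2.2) : κ.ord.ToType × κ.ord.ToType × ℕ × ℕ))) := by
    rintro ⟨⟨a, ha⟩, ⟨b, hb⟩, i, j⟩ ⟨⟨a', ha'⟩, ⟨b', hb'⟩, i', j'⟩ h
    simp only [Prod.mk.injEq] at h
    obtain ⟨e1, e2, e3, e4⟩ := h
    subst e1 e2 e3 e4
    rfl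
  have inj2 : ∀ g : κ.ord.ToType, Function.Injective (fun x : {x // x ∈ R0} × ℕ × ℕ =>
      (((x.1.1, g, x.2.1, x.2.2) : κ.ord.ToType × κ.ord.ToType × ℕ × ℕ))) := by
    rintro g ⟨⟨a, ha⟩, i, j⟩ ⟨⟨a', ha'⟩, i', j'⟩ h
    simp only [Prod.mk.injEq] at h
    obtain ⟨e1, _, e3, e4⟩ := h
    subst e1 e3 e4
    rfl
  let F : V2 → (ℕ × ℕ × Finset ({x // x ∈ R0} × {x // x ∈ R0} × ℕ × ℕ) ×
      Finset ({x // x ∈ R0} × ℕ × ℕ)) := fun g =>
    (pp g.1, qq g.1, (rr g.1).1.preimage _ inj1.injOn, (rr g.1).1.preimage _ (inj2 g.1).injOn)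
  have hFni : ¬ Function.Injective F := by
    intro hF
    have hcount : Countable V2 := hF.countable
    have := Cardinal.mk_le_aleph0_iff.2 hcount
    exact absurd (hω.trans_le (hV2card.trans this)) (lt_irrefl _)
  rw [Function.Injective] at hFni
  push Not at hFni
  obtain ⟨⟨x, hx⟩, ⟨y, hy⟩, hxy, hne⟩ := hFni
  have hne' : x ≠ y := fun h => hne (Subtype.ext h)
  -- reduce to the ordered case
  have main : ∀ v u : κ.ord.ToType, ∀ (hv : v ∈ V2) (hu : u ∈ V2), F ⟨v, hv⟩ = F ⟨u, hu⟩ →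
      v < u → ∃ t, ext s0 t ∧ ∃ γ δ p q, Forces ext (W γ p) t ∧ Forces ext (W δ q) t ∧
        (γ, δ, p, q) ∈ t.1 := by
    intro v u hv hu hF hvu
    have hvV : v ∈ V := hV'V hv.1
    have huV : u ∈ V := hV'V hu.1
    simp only [F, Prod.mk.injEq] at hF
    obtain ⟨e1, e2, e3, e4⟩ := hF
    apply cpAux_final κ W s0 v u (rr v) (rr u) (pp v) (qq u) (by rw [e1]; exact h2 u huV) hvu R0
      (h1 v hvV) (h3 v hvV) (h4 u huV)
    · exact (hR0 v hv.1 u hu.1 hvu.ne).1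
    · intro a ha b hb i j
      have := congrArg (fun S => ((⟨a, ha⟩, ⟨b, hb⟩, i, j) :
        {x // x ∈ R0} × {x // x ∈ R0} × ℕ × ℕ) ∈ S) e3
      simp only [Finset.mem_preimage, eq_iff_iff] at this
      exact this
    · intro a ha
      exact ⟨hv.2 a ha, hu.2 a ha⟩
    · intro a ha i j
      have := congrArg (fun S => ((⟨a, ha⟩, i, j) : {x // x ∈ R0} × ℕ × ℕ) ∈ S) e4
      simp only [Finset.mem_preimage, eq_iff_iff] at this
      exact this
  rcases lt_or_gt_of_ne hne' with h | h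
  · exact main x y hx hy hxy h
  · exact main y x hy hx hxy.symm h

end Pool.Agent.Helper937.Eta
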