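import Pool.Agent.Helper937.EtaF0
import Pool.Agent.Helper937.EtaG1
import Pool.Agent.Helper937.EtaG2
import Pool.Agent.Helper937.EtaG3
import Pool.Agent.Helper937.Eta6

set_option autoImplicit false

open Cardinal Ordinal Set

namespace Pool.Agent.Helper937.Eta

/-- the cardinals for which the poset is used -/
def Adm (κ : Cardinal.{0}) : Prop :=
  κ.IsRegular ∧ Cardinal.aleph (Ordinal.omega0 : Ordinal.{0}) < κ ∧
    ∀ n : ℕ, κ ^ (Cardinal.aleph (n : Ordinal.{0})) = κ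

/-- the name of the generic relation -/
def Hname (κ : Cardinal.{0}) (γ δ : κ.ord.ToType) (p q : ℕ) : Set (Cond κ) :=
  {r | (γ, δ, p, q) ∈ r.1}

/-- r forces that the set of all p with p in W(γ) is infinite -/
def InfForced {κ : Cardinal.{0}} (W : κ.ord.ToType → ℕ → Set (Cond κ)) (γ : κ.ord.ToType)
    (r : Cond κ) : Prop :=
  ∀ s, ext r s → ∀ k : ℕ, ∃ t, ext s t ∧ ∃ p, k ≤ p ∧ Forces ext (W γ p) t

/-- the four clauses of `Principle` are forced for the generic relation -/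
def ForcesPrinciple (κ : Cardinal.{0}) : Prop :=
  (∀ γ δ p q r, Forces ext (Hname κ γ δ p q) r → γ < δ ∧ p < q) ∧
  (∀ γ δ p q p' q' r, Forces ext (Hname κ γ δ p q) r → Forces ext (Hname κ γ δ p' q') r →
    p = p' ∧ q = q') ∧
  (∀ α β γ p q s r, Forces ext (Hname κ α β p q) r → Forces ext (Hname κ β γ q s) r →
    Forces ext (Hname κ α γ p s) r → False) ∧
  (∀ (W : κ.ord.ToType → ℕ → Set (Cond κ)) (r : Cond κ),
    (∀ s, ext r s → ∀ β, ∃ t, ext s t ∧ ∃ γ, β < γ ∧ InfForced W γ t) →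
    ∀ s, ext r s → ∃ t, ext s t ∧ ∃ γ δ p q, Forces ext (W γ p) t ∧ Forces ext (W δ q) t ∧
      Forces ext (Hname κ γ δ p q) t)

/-- the poset is ccc -/
def CCC (κ : Cardinal.{0}) : Prop :=
  ∀ A : Set (Cond κ), (∀ a ∈ A, ∀ b ∈ A, a ≠ b → ¬ ∃ c, ext a c ∧ ext b c) → A.Countable

/-- there are at most κ names for subsets of a set of size aleph n, up to forced equality -/
def FewNames (κ : Cardinal.{0}) : Prop :=
  ∀ (n : ℕ) (T : Type), #T = Cardinal.aleph (n : Ordinal.{0}) →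
    ∃ X : κ.ord.ToType → T → Set (Cond κ), ∀ Y : T → Set (Cond κ), ∃ ξ, ∀ t r,
      Forces ext (X ξ t) r ↔ Forces ext (Y t) r

/-- there are κ names for subsets of ℕ which are forced to be pairwise different -/
def ManyReals (κ : Cardinal.{0}) : Prop :=
  ∃ ρ : κ.ord.ToType → ℕ → Set (Cond κ), ∀ v u, v ≠ u → ∀ s : Cond κ, ∃ t : Cond κ, ext s t ∧
    ∃ k, Forces ext (ρ v k) t ∧ ∀ t', ext t t' → ¬ Forces ext (ρ u k) t'

theorem forces_H {κ : Cardinal.{0}} {γ δ : κ.ord.ToType} {p q : ℕ} {r : Cond κ}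
    (h : Forces ext (Hname κ γ δ p q) r) : ∃ t, ext r t ∧ (γ, δ, p, q) ∈ t.1 := by
  obtain ⟨t, ht, w, hw, hwt⟩ := h r (Finset.Subset.refl _)
  exact ⟨t, ht, hwt hw⟩

theorem forces_mono {κ : Cardinal.{0}} {N : Set (Cond κ)} {r s : Cond κ} (h : Forces ext N r)
    (hrs : ext r s) : Forces ext N s := fun t ht => h t (Finset.Subset.trans hrs ht)

theorem forces_of_mem {κ : Cardinal.{0}} {γ δ : κ.ord.ToType} {p q : ℕ} {r : Cond κ}
    (h : (γ, δ, p, q) ∈ r.1) : Forces ext (Hname κ γ δ p q) r := fun s hs =>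
  ⟨s, Finset.Subset.refl _, r, h, hs⟩

theorem forcesPrinciple {κ : Cardinal.{0}} (hκ : κ.IsRegular) (hω : ℵ₀ < κ) :
    ForcesPrinciple κ := by
  refine ⟨?_, ?_, ?_, ?_⟩
  · intro γ δ p q r h
    obtain ⟨t, _, ht⟩ := forces_H h
    exact t.2.1 _ _ _ _ ht
  · intro γ δ p q p' q' r h h'
    obtain ⟨t, h1, ht⟩ := forces_H h
    obtain ⟨t', h1', ht'⟩ := forces_H (forces_mono h' h1)
    exact t'.2.2.1 _ _ _ _ _ _ (h1' ht) ht'
  · intro α β γ p q s r h1 h2 h3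
    obtain ⟨t1, e1, m1⟩ := forces_H h1
    obtain ⟨t2, e2, m2⟩ := forces_H (forces_mono h2 e1)
    obtain ⟨t3, e3, m3⟩ := forces_H (forces_mono h3 (Finset.Subset.trans e1 e2))
    exact t3.2.2.2 _ _ _ _ _ _ (e3 (e2 m1)) (e3 m2) m3
  · intro W r hW s hs
    obtain ⟨t, h1, γ, δ, p, q, h2, h3, h4⟩ := cond_principle κ hκ hω W r hW s hs
    exact ⟨t, h1, γ, δ, p, q, h2, h3, forces_of_mem h4⟩

theorem mk_cond {κ : Cardinal.{0}} (hω : ℵ₀ ≤ κ) : #(Cond κ) ≤ κ := by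
  have h1 : #(κ.ord.ToType) = κ := Cardinal.mk_ord_toType κ
  haveI : Infinite κ.ord.ToType := by
    rw [← Cardinal.aleph0_le_mk_iff, h1]; exact hω
  refine le_trans (Cardinal.mk_subtype_le _) ?_
  rw [Cardinal.mk_finset_of_infinite]
  simp only [Cardinal.mk_prod, Cardinal.lift_id, Cardinal.lift_uzero, h1, Cardinal.mk_eq_aleph0 ℕ,
    Cardinal.aleph0_mul_aleph0]
  rw [Cardinal.mul_eq_left hω hω Cardinal.aleph0_ne_zero]
  rw [Cardinal.mul_eq_self hω]

theorem fewNames {κ : Cardinal.{0}} (h : Adm κ) : FewNames κ := by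
  intro n T hT
  have hω : ℵ₀ ≤ κ := h.1.aleph0_le
  refine nice_names ext (fun a => Finset.Subset.refl _)
    (fun a b c => Finset.Subset.trans) (cond_ccc κ) κ (mk_cond hω) T ?_ hω
  rw [hT, Cardinal.mul_eq_right (Cardinal.aleph0_le_aleph _) (Cardinal.aleph0_le_aleph _)
    Cardinal.aleph0_ne_zero]
  exact h.2.2 n

theorem forced {κ : Cardinal.{0}} (h : Adm κ) :
    CCC κ ∧ FewNames κ ∧ ManyReals κ ∧ ForcesPrinciple κ := by
  have hω : ℵ₀ < κ := lt_of_le_of_lt (Cardinal.aleph0_le_aleph _) h.2.1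
  exact ⟨cond_ccc κ, fewNames h, cond_reals κ h.1 hω, forcesPrinciple h.1 hω⟩

end Pool.Agent.Helper937.Eta
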