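import Pool.Agent.Helper937.Eta1
import Pool.Agent.Helper937.Eta4
import Pool.Agent.Helper937.Eta5
import Pool.Agent.Helper937.Eta7

set_option autoImplicit false

open Cardinal Ordinal Set

namespace Pool.Agent.Helper937.Eta

/-- the poset, for the index set kappa -/
def Cond (κ : Cardinal.{0}) : Type :=
  {r : Finset (κ.ord.ToType × κ.ord.ToType × ℕ × ℕ) // Good r}

/-- s extends r -/
def ext {κ : Cardinal.{0}} (r s : Cond κ) : Prop := r.1 ⊆ s.1

end Pool.Agent.Helper937.Eta
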