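import Mathlib

/-!
# A forcing notion which forces the diamond principle and the continuum hypothesis

A sentence of the forcing language of a preordered set `P` of conditions is represented by the
set of the conditions which force it. Negation, conjunction and universal quantification are the
primitive connectives, with their usual forcing clauses; the other connectives are defined from
them classically. A name for a subset of a ground model set `X` is a map sending `x : X` to the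
set of the conditions attached to `x`.
-/

namespace Pool.Agent.Helper937.ForceCH

open Cardinal Ordinal

universe u v w

section

variable {P : Type u} [Preorder P]

/-- `p` forces `not φ` iff no `q ≤ p` forces `φ`. -/
def fnot (φ : Set P) : Set P := {p | ∀ q ≤ p, q ∉ φ}

/-- `p` forces `φ and ψ` iff it forces both. -/
def fand (φ ψ : Set P) : Set P := {p | p ∈ φ ∧ p ∈ ψ}

/-- `p` forces `for all i, φ i` iff it forces every `φ i`. -/
def fall {ι : Sort v} (φ : ι → Set P) : Set P := {p | ∀ i, p ∈ φ i}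

/-- `φ implies ψ` is `not (φ and not ψ)`. -/
def fimp (φ ψ : Set P) : Set P := fnot (fand φ (fnot ψ))

/-- `φ if and only if ψ`. -/
def fiff (φ ψ : Set P) : Set P := fand (fimp φ ψ) (fimp ψ φ)

/-- `there is i with φ i` is `not for all i, not φ i`. -/
def fex {ι : Sort v} (φ : ι → Set P) : Set P := fnot (fall fun i => fnot (φ i))

/-- An absolute statement about ground model objects. -/
def fground (h : Prop) : Set P := {_p | h}

/-- `p` forces that the generic filter meets the set `N` of conditions: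
the set of `r` lying below some member of `N` is dense below `p`. -/
def meets (N : Set P) : Set P := {p | ∀ q ≤ p, ∃ r ≤ q, ∃ s ∈ N, r ≤ s}

/-- The relation named by `R` is a function from `X` to `Y`. -/
def IsFun {X : Type v} {Y : Type w} (R : X → Y → Set P) : Set P :=
  fand (fall fun x => fex fun y => meets (R x y))
    (fall fun x => fall fun y => fall fun y' =>
      fimp (fand (meets (R x y)) (meets (R x y'))) (fground (y = y')))

/-- The relation named by `R` is onto `Y`. -/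
def IsOnto {X : Type v} {Y : Type w} (R : X → Y → Set P) : Set P :=
  fall fun y => fex fun x => meets (R x y)

end

/-- The well-ordered set of the countable ordinals (order type `ω₁`). -/
abbrev Om : Type := (ℵ₁ : Cardinal.{0}).ord.ToType

section

variable (P : Type u) [Preorder P]

/-- In the extension there is no function from the natural numbers onto the ground model `ω₁`;
so the ground model `ω₁` is still the first uncountable cardinal. -/
def OmegaOnePreserved : Set P :=
  fnot (fex fun R : ℕ → Om → Set P => fand (IsFun R) (IsOnto R))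

variable {P}

/-- The set named by `C` is closed and unbounded in `ω₁`. -/
def IsClubName (C : Om → Set P) : Set P :=
  fand (fall fun a => fex fun b => fand (fground (a < b)) (meets (C b)))
    (fall fun a => fimp
      (fand (fground (∃ b, b < a))
        (fall fun b => fall fun _ : b < a => fex fun c => fand (fground (b < c ∧ c < a))
          (meets (C c))))
      (meets (C a)))

variable (P)

/-- Diamond holds in the extension: there is a sequence of sets `A a ⊆ ω₁`, such that for every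
`S ⊆ ω₁` and every closed unbounded `C ⊆ ω₁` there is `a ∈ C` with `S ∩ a = A a ∩ a`. -/
def DiamondHolds : Set P :=
  fex fun A : Om → Om → Set P => fall fun S : Om → Set P => fall fun C : Om → Set P =>
    fimp (IsClubName C) (fex fun a : Om => fand (meets (C a))
      (fall fun b : Om => fall fun _ : b < a => fiff (meets (S b)) (meets (A a b))))

/-- The continuum hypothesis holds in the extension: some family of subsets of `ℕ` indexed by
`ω₁` contains every subset of `ℕ`. -/
def CHHolds : Set P :=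
  fex fun E : Om → ℕ → Set P => fall fun x : ℕ → Set P => fex fun a : Om =>
    fall fun n : ℕ => fiff (meets (x n)) (meets (E a n))

end

/-! ### General facts -/

section

variable {P : Type u} [Preorder P]

theorem mem_fex {ι : Sort v} {φ : ι → Set P} {p : P} :
    p ∈ fex φ ↔ ∀ q ≤ p, ∃ r ≤ q, ∃ i, r ∈ φ i := by
  simp only [fex, fnot, fall, Set.mem_ofPred_eq, not_forall, not_not]
  constructor
  · intro h q hq
    obtain ⟨i, r, hr, h'⟩ := h q hq
    exact ⟨r, hr, i, h'⟩
  · intro h q hq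
    obtain ⟨r, hr, i, h'⟩ := h q hq
    exact ⟨i, r, hr, h'⟩

theorem mem_fimp {φ ψ : Set P} {p : P} :
    p ∈ fimp φ ψ ↔ ∀ q ≤ p, q ∈ φ → ∃ r ≤ q, r ∈ ψ := by
  simp only [fimp, fnot, fand, Set.mem_ofPred_eq, not_and, not_forall, not_not]
  constructor
  · intro h q hq h'
    obtain ⟨r, hr, h''⟩ := h q hq h'
    exact ⟨r, hr, h''⟩
  · intro h q hq h'
    obtain ⟨r, hr, h''⟩ := h q hq h'
    exact ⟨r, hr, h''⟩

def Down (φ : Set P) : Prop := ∀ p ∈ φ, ∀ q ≤ p, q ∈ φ

theorem down_fnot (φ : Set P) : Down (fnot φ) :=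
  fun _ hp _ hq r hr => hp r (hr.trans hq)

theorem down_fand {φ ψ : Set P} (h : Down φ) (h' : Down ψ) : Down (fand φ ψ) :=
  fun _ hp _ hq => ⟨h _ hp.1 _ hq, h' _ hp.2 _ hq⟩

theorem down_fall {ι : Sort v} {φ : ι → Set P} (h : ∀ i, Down (φ i)) : Down (fall φ) :=
  fun _ hp _ hq i => h i _ (hp i) _ hq

theorem down_fex {ι : Sort v} (φ : ι → Set P) : Down (fex φ) := down_fnot _

theorem down_fimp (φ ψ : Set P) : Down (fimp φ ψ) := down_fnot _

theorem down_meets (N : Set P) : Down (meets N) :=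
  fun _ hp _ hq r hr => hp r (hr.trans hq)

/-- a sentence which is forced as soon as it is forced densely below -/
theorem meets_of_dense {N : Set P} {p : P} (h : ∀ q ≤ p, ∃ r ≤ q, r ∈ meets N) :
    p ∈ meets N := by
  intro q hq
  obtain ⟨r, hr, h1⟩ := h q hq
  obtain ⟨s, hs, t, ht, hst⟩ := h1 r le_rfl
  exact ⟨s, hs.trans hr, t, ht, hst⟩

theorem fimp_of {φ ψ : Set P} {p : P} (h : ∀ q ≤ p, q ∈ φ → q ∈ ψ) : p ∈ fimp φ ψ :=
  mem_fimp.2 fun q hq h' => ⟨q, le_rfl, h q hq h'⟩

/-- decided equivalence -/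
theorem fiff_of_decided {φ ψ : Set P} (hφ : Down φ) (hψ : Down ψ) {p : P}
    (h : (p ∈ φ ∧ p ∈ ψ) ∨ (p ∈ fnot φ ∧ p ∈ fnot ψ)) : p ∈ fiff φ ψ := by
  rcases h with ⟨h1, h2⟩ | ⟨h1, h2⟩
  · exact ⟨fimp_of fun q hq _ => hψ _ h2 _ hq, fimp_of fun q hq _ => hφ _ h1 _ hq⟩
  · exact ⟨fimp_of fun q hq h => absurd h (h1 q hq), fimp_of fun q hq h => absurd h (h2 q hq)⟩

/-- `P` is `σ`-closed -/
def SigmaClosed (P : Type u) [Preorder P] : Prop :=
  ∀ s : ℕ → P, (∀ n, s (n + 1) ≤ s n) → ∃ q, ∀ n, q ≤ s n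

/-- in a `σ`-closed poset countably many dense requirements can be met at once -/
theorem meet_countable (hP : SigmaClosed P) (D : ℕ → Set P) (hD : ∀ n, Down (D n)) (p : P)
    (hd : ∀ n, ∀ r ≤ p, ∃ q ≤ r, q ∈ D n) : ∃ q ≤ p, ∀ n, q ∈ D n := by
  choose f hf hf' using hd
  let s : ℕ → {r : P // r ≤ p} := fun n => Nat.rec ⟨p, le_rfl⟩
    (fun k r => ⟨f k r.1 r.2, (hf k r.1 r.2).trans r.2⟩) n
  have h1 : ∀ n, (s (n + 1)).1 ≤ (s n).1 := fun n => hf n (s n).1 (s n).2
  obtain ⟨q, hq⟩ := hP (fun n => (s n).1) h1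
  exact ⟨q, hq 0, fun n => hD n _ (hf' n (s n).1 (s n).2) _ (hq (n + 1))⟩

theorem decide_countable (hP : SigmaClosed P) {ι : Type} [Countable ι] (φ : ι → Set P)
    (hφ : ∀ n, Down (φ n)) (p : P) : ∃ q ≤ p, ∀ n, q ∈ φ n ∨ q ∈ fnot (φ n) := by
  rcases isEmpty_or_nonempty ι with h | h
  · exact ⟨p, le_rfl, fun n => (h.false n).elim⟩
  obtain ⟨g, hg⟩ := exists_surjective_nat ι
  obtain ⟨q, hq, h1⟩ := meet_countable hP (fun n => {q | q ∈ φ (g n) ∨ q ∈ fnot (φ (g n))})
    (by
      intro n r hr t ht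
      rcases hr with hr | hr
      · exact Or.inl (hφ _ _ hr _ ht)
      · exact Or.inr (down_fnot _ _ hr _ ht)) p
    (by
      intro n r _
      by_cases h2 : ∃ t ≤ r, t ∈ φ (g n)
      · obtain ⟨t, ht, h3⟩ := h2
        exact ⟨t, ht, Or.inl h3⟩
      · refine ⟨r, le_rfl, Or.inr ?_⟩
        intro t ht h3
        exact h2 ⟨t, ht, h3⟩)
  refine ⟨q, hq, fun n => ?_⟩
  obtain ⟨m, rfl⟩ := hg n
  exact h1 m

end

/-! ### Bounds in `ω₁` -/

theorem countable_Iio (a : Om) : Countable {b : Om // b < a} := by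
  have h : #(Set.Iio a) < ℵ₁ := mk_Iio_toType_ord_lt a
  have h1 : ℵ₁ ≤ Order.succ (ℵ₀ : Cardinal.{0}) := succ_aleph0.ge
  exact mk_le_aleph0_iff.1 (Order.lt_succ_iff.1 (h.trans_le h1))

theorem exists_bound (f : ℕ → Om) : ∃ a : Om, ∀ n, f n < a := by
  by_contra hc
  push Not at hc
  have h1 : (Set.univ : Set Om) ⊆ ⋃ n, Set.Iic (f n) := by
    intro a _
    obtain ⟨n, hn⟩ := hc a
    exact Set.mem_iUnion.2 ⟨n, hn⟩
  have h2 : (⋃ n, Set.Iic (f n)).Countable := by
    refine Set.countable_iUnion fun n => ?_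
    have : Set.Iic (f n) = insert (f n) (Set.Iio (f n)) := by
      ext x
      simp [le_iff_eq_or_lt]
    rw [this]
    exact Set.Countable.insert _ (Set.countable_coe_iff.1 (countable_Iio _))
  have h3 := h2.mono h1
  rw [Set.countable_univ_iff, ← mk_le_aleph0_iff] at h3
  have h4 : #Om = ℵ₁ := by simp
  rw [h4] at h3
  exact absurd h3 (not_le.2 aleph0_lt_aleph_one)

instance : NoMaxOrder Om := ⟨fun a => by
  obtain ⟨b, hb⟩ := exists_bound fun _ => a
  exact ⟨b, hb 0⟩⟩

/-- the least strict upper bound -/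
noncomputable def ub (f : ℕ → Om) : Om :=
  WellFounded.min (wellFounded_lt (α := Om)) {a | ∀ n, f n < a} (exists_bound f)

theorem lt_ub (f : ℕ → Om) (n : ℕ) : f n < ub f :=
  WellFounded.min_mem (wellFounded_lt (α := Om)) {a | ∀ n, f n < a} (exists_bound f) n

theorem ub_le (f : ℕ → Om) {b : Om} (h : b < ub f) : ∃ n, b ≤ f n := by
  by_contra hc
  push Not at hc
  exact WellFounded.not_lt_min (wellFounded_lt (α := Om)) (s := {a | ∀ n, f n < a}) hc h

/-! ### The forcing notion -/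

/-- The conditions: a countable ordinal `p.1`, and a set `p.2 a ⊆ ω₁` for each `a < p.1` (the
values for `a ≥ p.1` are irrelevant). -/
def Cond : Type := Om × (Om → Set Om)

instance : Preorder Cond where
  le q p := p.1 ≤ q.1 ∧ ∀ a < p.1, q.2 a = p.2 a
  le_refl p := ⟨le_rfl, fun _ _ => rfl⟩
  le_trans q p r h h' := ⟨h'.1.trans h.1, fun a ha =>
    (h.2 a (ha.trans_le h'.1)).trans (h'.2 a ha)⟩

instance : Nonempty Om := by
  have : #Om ≠ 0 := by
    rw [mk_toType, card_ord]
    exact (aleph_pos 1).ne'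
  exact mk_ne_zero_iff.1 this

instance : Nonempty Cond := ⟨(Classical.arbitrary Om, fun _ => ∅)⟩

theorem le_def {q p : Cond} : q ≤ p ↔ p.1 ≤ q.1 ∧ ∀ a < p.1, q.2 a = p.2 a := Iff.rfl

theorem exists_lower (s : ℕ → Cond) (hs : ∀ n, s (n + 1) ≤ s n) :
    ∃ q : Cond, q.1 = ub (fun n => (s n).1) ∧ ∀ n, q ≤ s n := by
  classical
  have hanti : ∀ m n, m ≤ n → s n ≤ s m := by
    intro m n h
    induction h with
    | refl => exact le_rfl
    | step h ih => exact (hs _).trans ih
  let f : Om → Set Om := fun a => if h : ∃ n, a < (s n).1 then (s h.choose).2 a else ∅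
  refine ⟨(ub fun n => (s n).1, f), rfl, fun n => ⟨(lt_ub (fun n => (s n).1) n).le, ?_⟩⟩
  intro a ha
  have h : ∃ n, a < (s n).1 := ⟨n, ha⟩
  have h1 : f a = (s h.choose).2 a := dif_pos h
  change f a = (s n).2 a
  rw [h1]
  rcases le_total h.choose n with h2 | h2
  · exact ((hanti _ _ h2).2 a h.choose_spec).symm
  · exact (hanti _ _ h2).2 a ha

theorem sigmaClosed : SigmaClosed Cond := by
  intro s hs
  obtain ⟨q, _, hq⟩ := exists_lower s hs
  exact ⟨q, hq⟩

theorem exists_longer (p : Cond) (a : Om) : ∃ q ≤ p, a < q.1 := by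
  obtain ⟨b, hb⟩ := exists_bound fun n => if n = 0 then p.1 else a
  have h0 := hb 0
  have h1 := hb 1
  simp at h0 h1
  exact ⟨(b, p.2), ⟨h0.le, fun _ _ => rfl⟩, h1⟩

theorem exists_succ (p : Cond) (x : Set Om) : ∃ q ≤ p, p.1 < q.1 ∧ q.2 p.1 = x := by
  classical
  obtain ⟨b, hb⟩ := exists_bound fun _ => p.1
  refine ⟨(b, Function.update p.2 p.1 x), ⟨(hb 0).le, fun a ha => ?_⟩, hb 0, ?_⟩
  · exact Function.update_of_ne ha.ne _ _
  · exact Function.update_self _ _ _

/-- the generic sequence -/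
def gen (a b : Om) : Set Cond := {p | a < p.1 ∧ b ∈ p.2 a}

theorem mem_meets_gen {a b : Om} {p : Cond} (ha : a < p.1) (hb : b ∈ p.2 a) :
    p ∈ meets (gen a b) :=
  fun q hq => ⟨q, le_rfl, p, ⟨ha, hb⟩, hq⟩

theorem mem_fnot_gen {a b : Om} {p : Cond} (ha : a < p.1) (hb : b ∉ p.2 a) :
    p ∈ fnot (meets (gen a b)) := by
  intro q hq h
  obtain ⟨r, hr, s, hs, hrs⟩ := h q le_rfl
  apply hb
  rw [← (hr.trans hq).2 a ha, hrs.2 a hs.1]
  exact hs.2

theorem omegaOnePreserved (p : Cond) : p ∈ OmegaOnePreserved Cond := by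
  intro q _ hq
  obtain ⟨r, _, R, hR, hR'⟩ := mem_fex.1 hq q le_rfl
  obtain ⟨t, ht, h1⟩ := meet_countable sigmaClosed (fun n => {t | ∃ a, t ∈ meets (R n a)})
    (fun n t ⟨a, ha⟩ t' ht' => ⟨a, down_meets _ _ ha _ ht'⟩) r (by
      intro n t ht
      obtain ⟨t', ht', a, ha⟩ := mem_fex.1 (hR.1 n) t ht
      exact ⟨t', ht', a, ha⟩)
  choose g hg using h1
  obtain ⟨b, hb⟩ := exists_bound g
  obtain ⟨t', ht', n, hn⟩ := mem_fex.1 (hR' b) t ht
  have h2 := hR.2 n (g n) b
  obtain ⟨t'', _, h3⟩ := mem_fimp.1 h2 t' (ht'.trans ht) ⟨down_meets _ _ (hg n) _ ht', hn⟩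
  exact (hb n).ne h3

theorem diamondHolds (p : Cond) : p ∈ DiamondHolds Cond := by
  refine mem_fex.2 fun q _ => ⟨q, le_rfl, gen, fun S C => mem_fimp.2 fun r _ hC => ?_⟩
  -- one step of the construction
  have step : ∀ t ≤ r, ∃ t' ≤ t, t.1 < t'.1 ∧ (∃ c, t.1 < c ∧ c < t'.1 ∧ t' ∈ meets (C c)) ∧
      ∀ b < t.1, t' ∈ meets (S b) ∨ t' ∈ fnot (meets (S b)) := by
    intro t ht
    obtain ⟨t1, ht1, c, hc, h1⟩ := mem_fex.1 (hC.1 t.1) t ht
    have := countable_Iio t.1
    obtain ⟨t2, ht2, h2⟩ := decide_countable sigmaClosed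
      (fun b : {b : Om // b < t.1} => meets (S b.1)) (fun _ => down_meets _) t1
    obtain ⟨t3, ht3, h3⟩ := exists_longer t2 c
    have hc' : t.1 < c := hc
    refine ⟨t3, ht3.trans (ht2.trans ht1), hc'.trans h3,
      ⟨c, hc', h3, down_meets _ _ h1 _ (ht3.trans ht2)⟩, fun b hb => ?_⟩
    rcases h2 ⟨b, hb⟩ with h4 | h4
    · exact Or.inl (down_meets _ _ h4 _ ht3)
    · exact Or.inr (down_fnot _ _ h4 _ ht3)
  choose f hf h1 h2 h3 using step
  let s : ℕ → {t : Cond // t ≤ r} := fun n => Nat.rec ⟨r, le_rfl⟩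
    (fun _ t => ⟨f t.1 t.2, (hf t.1 t.2).trans t.2⟩) n
  have hs : ∀ n, (s (n + 1)).1 ≤ (s n).1 := fun n => hf _ (s n).2
  obtain ⟨t, ht, h4⟩ := exists_lower (fun n => (s n).1) hs
  have hlt : ∀ n, (s n).1.1 < t.1 := fun n => by
    rw [ht]; exact lt_ub (fun n => (s n).1.1) n
  have hle : ∀ b < t.1, ∃ n, b < (s n).1.1 := by
    intro b hb
    rw [ht] at hb
    obtain ⟨n, hn⟩ := ub_le (fun n => (s n).1.1) hb
    exact ⟨n + 1, hn.trans_lt (h1 _ (s n).2)⟩
  obtain ⟨t', ht', h5, h6⟩ := exists_succ t {b | t ∈ meets (S b)}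
  have hr : t' ≤ r := ht'.trans ((h4 0).trans (s 0).2)
  refine ⟨t', hr, ?_⟩
  refine mem_fex.2 fun t'' ht'' => ⟨t'', le_rfl, t.1, ?_, fun b hb => ?_⟩
  · have h7 : t'' ∈ fand (fground (∃ b, b < t.1))
        (fall fun b => fall fun _ : b < t.1 => fex fun c => fand (fground (b < c ∧ c < t.1))
          (meets (C c))) := by
      refine ⟨⟨_, hlt 0⟩, fun b hb => mem_fex.2 fun v hv => ?_⟩
      obtain ⟨n, hn⟩ := hle b hb
      obtain ⟨c, hc1, hc2, hc3⟩ := h2 _ (s n).2
      have h8 : c < t.1 := hc2.trans (hlt (n + 1))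
      refine ⟨v, le_rfl, c, ⟨hn.trans hc1, h8⟩, ?_⟩
      exact down_meets _ _ hc3 _ (hv.trans (ht''.trans (ht'.trans (h4 (n + 1)))))
    refine meets_of_dense fun v hv => ?_
    exact mem_fimp.1 (hC.2 t.1) v (hv.trans (ht''.trans hr))
      (down_fand (fun _ h _ _ => h) (down_fall fun _ => down_fall fun _ => down_fex _) _ h7 _ hv)
  · refine fiff_of_decided (down_meets _) (down_meets _) ?_
    obtain ⟨n, hn⟩ := hle b hb
    rcases h3 _ (s n).2 b hn with h8 | h8
    · have h9 : t ∈ meets (S b) := down_meets _ _ h8 _ (h4 (n + 1))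
      refine Or.inl ⟨down_meets _ _ h9 _ (ht''.trans ht'), ?_⟩
      exact down_meets _ _ (mem_meets_gen h5 (by rw [h6]; exact h9)) _ ht''
    · have h9 : t ∉ meets (S b) := h8 t (h4 (n + 1))
      refine Or.inr ⟨down_fnot _ _ h8 _ (ht''.trans (ht'.trans (h4 (n + 1)))), ?_⟩
      exact down_fnot _ _ (mem_fnot_gen h5 (by rw [h6]; exact h9)) _ ht''

/-- the first `ω` elements of `ω₁` -/
theorem exists_emb : ∃ e : ℕ → Om, Function.Injective e := by
  have h : ℵ₀ ≤ #Om := by
    rw [mk_toType, card_ord]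
    exact aleph0_le_aleph 1
  have : Infinite Om := infinite_iff.2 h
  exact ⟨_, (Infinite.natEmbedding Om).injective⟩

theorem chHolds (p : Cond) : p ∈ CHHolds Cond := by
  obtain ⟨e, he⟩ := exists_emb
  refine mem_fex.2 fun q _ => ⟨q, le_rfl, fun a n => gen a (e n), fun x =>
    mem_fex.2 fun r _ => ?_⟩
  obtain ⟨t, ht, h1⟩ := decide_countable sigmaClosed (fun n : ℕ => meets (x n))
    (fun _ => down_meets _) r
  obtain ⟨t', ht', h5, h6⟩ := exists_succ t {b | ∃ n, b = e n ∧ t ∈ meets (x n)}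
  refine ⟨t', ht'.trans ht, t.1, fun n => fiff_of_decided (down_meets _) (down_meets _) ?_⟩
  rcases h1 n with h8 | h8
  · refine Or.inl ⟨down_meets _ _ h8 _ ht', mem_meets_gen h5 ?_⟩
    rw [h6]
    exact ⟨n, rfl, h8⟩
  · refine Or.inr ⟨down_fnot _ _ h8 _ ht', mem_fnot_gen h5 ?_⟩
    rw [h6]
    rintro ⟨m, hm, h9⟩
    have := he hm
    subst this
    exact h8 t le_rfl h9

/-- There is a forcing notion all of whose conditions force that `ω₁` is preserved, diamond
and the continuum hypothesis. -/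
theorem exists_forcing : ∃ (P : Type) (_ : Preorder P), Nonempty P ∧ ∀ p : P,
    p ∈ OmegaOnePreserved P ∧ p ∈ DiamondHolds P ∧ p ∈ CHHolds P :=
  ⟨Cond, inferInstance, inferInstance, fun p => ⟨omegaOnePreserved p, diamondHolds p, chHolds p⟩⟩

end Pool.Agent.Helper937.ForceCH
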