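import Mathlib
import Pool.Agent.Helper937.Dya3

/-!
# Few restrictions imply metrizable compact images

* `main_small`: if for each `A` of size at most `ℵ₁` there are fewer than `2^ℵ₁` restrictions to
  `A` of continuous functions on the compact space `X`, all compact images of `C_p(X)` are
  metrizable.
* `card_C_le`: a compact Hausdorff space of size at most continuum carries at most continuum many
  continuous real functions.
* `main_FU`: the application to Fréchet–Urysohn compacta under `2^ℵ₀ < 2^ℵ₁`.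
-/

set_option autoImplicit false

open Set Topology Filter Cardinal

namespace Pool.Agent.Helper937.Dya

open Pool.Agent.Helper937.Fact

/-- the number of restrictions to `A` of continuous functions -/
def RestrSet (X : Type) [TopologicalSpace X] (A : Set X) : Set (A → ℝ) :=
  Set.range (fun g : Cp X => fun a : A => g.1 a)

theorem main_small (X : Type) [TopologicalSpace X] [CompactSpace X] [T2Space X]
    (hX : ∀ A : Set X, #A ≤ ℵ₁ → #(RestrSet X A) < 2 ^ ℵ₁)
    (Y : Type) [TopologicalSpace Y] [CompactSpace Y] [T2Space Y] (φ : Cp X → Y)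
    (hφ : Continuous φ) (hs : Function.Surjective φ) : TopologicalSpace.MetrizableSpace Y := by
  classical
  let e : Cp X → X → ℝ := fun f => f.1
  have hd : DenseRange e := denseRange_Cp X
  have he : IsInducing e := IsInducing.subtypeVal
  by_cases hg : ∃ A : Set X, A.Countable ∧ Good e φ A
  · obtain ⟨A, hA, hgood⟩ := hg
    exact metrizable_of_good e φ he hφ hs A hA hgood
  exfalso
  obtain ⟨J, hJ, hsep, hpat⟩ := dichotomy e φ hd hg
  have hur : ∀ p ∈ J, ∃ (f : C(Y, ℝ)) (A : Set X), A.Countable ∧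
      EqOn f 0 (Cl e φ p.1 p.2.1) ∧ EqOn f 1 (Cl e φ p.1 p.2.2) ∧
      ∀ (s : Cp X) (U : Set ℝ), IsOpen U → f (φ s) ∈ U →
        ∃ (G : Finset X) (b : X → BB), (G : Set X) ⊆ A ∧ e s ∈ Box G b ∧
          ∀ z : Cp X, e z ∈ Box G b → f (φ z) ∈ U := by
    intro p hp
    obtain ⟨f, h1, h2, h3⟩ := exists_continuous_zero_one_of_isClosed
      (s := Cl e φ p.1 p.2.1) (t := Cl e φ p.1 p.2.2) isClosed_closure isClosed_closure (hsep p hp)
    have hK : CTight (Set.Icc (0:ℝ) 1) := by
      intro A x hx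
      obtain ⟨s, hs, hs2⟩ := mem_closure_iff_seq_limit.mp hx
      refine ⟨range s, range_subset_iff.mpr hs, countable_range s, ?_⟩
      exact mem_closure_of_tendsto hs2 (Filter.Eventually.of_forall fun n => mem_range_self n)
    let ψ : Cp X → Set.Icc (0:ℝ) 1 := fun s => ⟨f (φ s), h3 (φ s)⟩
    have hψ : Continuous ψ := (f.continuous.comp hφ).subtype_mk _
    obtain ⟨A, hA, hfac⟩ := factor e ψ he hd hK hψ
    refine ⟨f, A, hA, h1, h2, fun s U hU hsU => ?_⟩
    obtain ⟨G, b, hG, hb, himg⟩ := hfac s (Subtype.val ⁻¹' U) (hU.preimage continuous_subtype_val) hsU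
    exact ⟨G, b, hG, hb, fun z hz => himg z hz⟩
  choose! f A hAc hf0 hf1 hfac using hur
  have hcard : #W1 ≤ #J := by
    rw [mk_W1]
    have : ℵ₀ < #J := by
      rw [← not_le, Cardinal.le_aleph0_iff_set_countable]
      exact hJ
    rw [← Cardinal.succ_aleph0]
    exact Order.succ_le_of_lt this
  obtain ⟨q⟩ : Nonempty (W1 ↪ J) := hcard
  let A' : Set X := ⋃ w : W1, A (q w).1
  have hA' : #A' ≤ ℵ₁ := by
    refine (Cardinal.mk_iUnion_le_sum_mk).trans ?_
    refine (Cardinal.sum_le_sum _ (fun _ => ℵ₀) (fun w =>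
      Cardinal.le_aleph0_iff_set_countable.mpr (hAc _ (q w).2))).trans ?_
    rw [Cardinal.sum_const', mk_W1]
    exact (mul_le_mul' le_rfl Cardinal.aleph0_lt_aleph_one.le).trans
      (Cardinal.mul_eq_self (Cardinal.aleph0_le_aleph 1)).le
  -- every pattern is realised
  have hreal : ∀ B : Set W1, ∃ g : Cp X, ∀ j : W1,
      (j ∈ B → φ g ∈ Cl e φ (q j).1.1 (q j).1.2.2) ∧
      (j ∉ B → φ g ∈ Cl e φ (q j).1.1 (q j).1.2.1) := by
    intro B
    let BB' : Set (Tup X) := {p | ∃ j, j ∈ B ∧ p = (q j).1}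
    obtain ⟨k, hk⟩ := hpat BB'
    obtain ⟨g, rfl⟩ := hs k
    refine ⟨g, fun j => ⟨fun hj => (hk _ (q j).2).1 ⟨j, hj, rfl⟩, fun hj => (hk _ (q j).2).2 ?_⟩⟩
    rintro ⟨j', hj', heq⟩
    have : q j = q j' := Subtype.ext heq
    exact hj (q.injective this ▸ hj')
  choose g hg1 using hreal
  have hval : ∀ (B : Set W1) (j : W1), f (q j).1 (φ (g B)) = if j ∈ B then 1 else 0 := by
    intro B j
    by_cases hj : j ∈ B
    · rw [if_pos hj]; exact hf1 _ (q j).2 ((hg1 B j).1 hj)
    · rw [if_neg hj]; exact hf0 _ (q j).2 ((hg1 B j).2 hj)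
  have hinj : Function.Injective (fun B : Set W1 =>
      (⟨fun a : A' => (g B).1 a, ⟨g B, rfl⟩⟩ : RestrSet X A')) := by
    intro B B' hBB
    have heq : ∀ a ∈ A', (g B).1 a = (g B').1 a := by
      intro a ha
      have := congrArg (fun r : RestrSet X A' => r.1 ⟨a, ha⟩) hBB
      exact this
    ext j
    have h1 := hval B j
    have h2 := hval B' j
    have h3 : f (q j).1 (φ (g B)) = f (q j).1 (φ (g B')) := by
      by_contra hne
      obtain ⟨G, b, hG, hb, himg⟩ := hfac _ (q j).2 (g B) {f (q j).1 (φ (g B'))}ᶜ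
        isClosed_singleton.isOpen_compl (by simpa using hne)
      refine himg (g B') ?_ rfl
      have hGA : ∀ t ∈ G, t ∈ A' := fun t ht =>
        mem_iUnion.2 ⟨j, hG (Finset.mem_coe.2 ht)⟩
      intro t ht
      have := hb t ht
      have h4 := heq t (hGA t ht)
      simp only [e] at this ⊢
      rw [← h4]
      exact this
    rw [h1, h2] at h3
    by_cases hj : j ∈ B <;> by_cases hj' : j ∈ B' <;> simp_all
  have h5 : #(Set W1) ≤ #(RestrSet X A') := Cardinal.mk_le_of_injective hinj
  rw [Cardinal.mk_set, mk_W1] at h5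
  exact absurd h5 (not_le.2 (hX A' hA'))

end Pool.Agent.Helper937.Dya
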