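import Mathlib
import Pool.Agent.Helper937.FuC

set_option autoImplicit false

open Set Topology Filter Cardinal

namespace Pool.Agent.Helper937.Dya

/-- A compact Hausdorff space of size at most continuum carries at most continuum many continuous
real functions. -/
theorem card_C_le (L : Type) [TopologicalSpace L] [CompactSpace L] [T2Space L] (hL : #L ≤ 𝔠) :
    #(C(L, ℝ)) ≤ 𝔠 := by
  classical
  have hex : ∀ p : L × L, ∃ f : C(L, ℝ), p.1 ≠ p.2 → f p.1 ≠ f p.2 := by
    rintro ⟨x, y⟩
    by_cases hxy : x = y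
    · exact ⟨0, fun h => absurd hxy h⟩
    · obtain ⟨f, h1, h2, _⟩ := exists_continuous_zero_one_of_isClosed
        (isClosed_singleton (x := x)) (isClosed_singleton (x := y))
        (Set.disjoint_singleton.2 hxy)
      refine ⟨f, fun _ => ?_⟩
      have e1 : f x = 0 := h1 (mem_singleton x)
      have e2 : f y = 1 := h2 (mem_singleton y)
      simp only [ne_eq, e1, e2]
      exact zero_ne_one
  choose F hF using hex
  let S : Subalgebra ℝ C(L, ℝ) := Algebra.adjoin ℝ (Set.range F)
  have hsep : S.SeparatesPoints := by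
    intro x y hxy
    exact ⟨F (x, y), ⟨F (x, y), Algebra.subset_adjoin (Set.mem_range_self _), rfl⟩, hF (x, y) hxy⟩
  have htop := ContinuousMap.subalgebra_topologicalClosure_eq_top_of_separatesPoints S hsep
  have hc : #(Set.range F) ≤ 𝔠 := by
    refine Cardinal.mk_range_le.trans ?_
    rw [Cardinal.mk_prod, Cardinal.lift_id]
    exact (mul_le_mul' hL hL).trans (Cardinal.mul_eq_self Cardinal.aleph0_le_continuum).le
  have hS : #S ≤ 𝔠 := by
    refine (Algebra.cardinalMk_adjoin_le ℝ (Set.range F)).trans ?_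
    rw [Cardinal.mk_real]
    exact max_le (max_le le_rfl hc) Cardinal.aleph0_le_continuum
  have hcl : ∀ f : C(L, ℝ), ∃ u : ℕ → S, Tendsto (fun n => (u n : C(L, ℝ))) atTop (𝓝 f) := by
    intro f
    have hf : f ∈ closure (S : Set C(L, ℝ)) := by
      have : f ∈ S.topologicalClosure := by rw [htop]; exact Algebra.mem_top
      exact this
    obtain ⟨u, hu, hu2⟩ := mem_closure_iff_seq_limit.1 hf
    exact ⟨fun n => ⟨u n, hu n⟩, hu2⟩
  choose u hu using hcl
  have hinj : Function.Injective u := by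
    intro f g hfg
    exact tendsto_nhds_unique (hu f) (by rw [hfg]; exact hu g)
  refine (Cardinal.mk_le_of_injective hinj).trans ?_
  rw [Cardinal.mk_arrow, Cardinal.lift_id, Cardinal.lift_id, Cardinal.mk_nat]
  calc #S ^ ℵ₀ ≤ 𝔠 ^ ℵ₀ := Cardinal.power_le_power_right hS
    _ = 𝔠 := Cardinal.continuum_power_aleph0

/-- If all closures of sets of size at most `ℵ₁` have size at most continuum and
`2^ℵ₀ < 2^ℵ₁`, compact images of `C_p(X)` are metrizable. -/
theorem main_closures (hLA : (2 : Cardinal.{0}) ^ (ℵ₀ : Cardinal.{0}) < 2 ^ ℵ₁)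
    (X : Type) [TopologicalSpace X] [CompactSpace X] [T2Space X]
    (hX : ∀ A : Set X, #A ≤ ℵ₁ → #(closure A) ≤ 𝔠)
    (Y : Type) [TopologicalSpace Y] [CompactSpace Y] [T2Space Y] (φ : Cp X → Y)
    (hφ : Continuous φ) (hs : Function.Surjective φ) : TopologicalSpace.MetrizableSpace Y := by
  refine main_small X (fun A hA => ?_) Y φ hφ hs
  haveI : CompactSpace (closure A) := isCompact_iff_compactSpace.1 isClosed_closure.isCompact
  have h1 := card_C_le (closure A) (hX A hA)
  have h2 : #(RestrSet X A) ≤ #(C(closure A, ℝ)) := by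
    let r : C(closure A, ℝ) → (A → ℝ) := fun f a => f ⟨a.1, subset_closure a.2⟩
    have : RestrSet X A ⊆ Set.range r := by
      rintro _ ⟨g, rfl⟩
      exact ⟨⟨fun x => g.1 x.1, g.2.comp continuous_subtype_val⟩, rfl⟩
    exact (Cardinal.mk_le_mk_of_subset this).trans Cardinal.mk_range_le
  exact (h2.trans h1).trans_lt hLA

theorem card_closure_FU (X : Type) [TopologicalSpace X] [T2Space X] [FrechetUrysohnSpace X]
    (A : Set X) (hA : #A ≤ ℵ₁) : #(closure A) ≤ 𝔠 := by
  classical
  have h : ∀ x : closure A, ∃ u : ℕ → A, Tendsto (fun n => (u n : X)) atTop (𝓝 x.1) := by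
    rintro ⟨x, hx⟩
    obtain ⟨u, hu, hu2⟩ := mem_closure_iff_seq_limit.1 hx
    exact ⟨fun n => ⟨u n, hu n⟩, hu2⟩
  choose u hu using h
  have hinj : Function.Injective u := by
    intro x y hxy
    apply Subtype.ext
    exact tendsto_nhds_unique (hu x) (by rw [hxy]; exact hu y)
  refine (Cardinal.mk_le_of_injective hinj).trans ?_
  rw [Cardinal.mk_arrow, Cardinal.lift_id, Cardinal.lift_id, Cardinal.mk_nat]
  calc #A ^ ℵ₀ ≤ 𝔠 ^ ℵ₀ := Cardinal.power_le_power_right (hA.trans Cardinal.aleph_one_le_continuum)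
    _ = 𝔠 := Cardinal.continuum_power_aleph0

/-- Luzin's axiom gives the positive answer for all Fréchet–Urysohn compacta. -/
theorem main_FU (hLA : (2 : Cardinal.{0}) ^ (ℵ₀ : Cardinal.{0}) < 2 ^ ℵ₁)
    (X : Type) [TopologicalSpace X] [CompactSpace X] [T2Space X] [FrechetUrysohnSpace X]
    (Y : Type) [TopologicalSpace Y] [CompactSpace Y] [T2Space Y] (φ : Cp X → Y)
    (hφ : Continuous φ) (hs : Function.Surjective φ) : TopologicalSpace.MetrizableSpace Y :=
  main_closures hLA X (fun A hA => card_closure_FU X A hA) Y φ hφ hs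

end Pool.Agent.Helper937.Dya
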