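import Pool.Agent.Helper937.Gen1

set_option linter.unusedSectionVars false
set_option linter.unusedVariables false
set_option autoImplicit false

/-! Averaging a lattice norm over random weights -/

open MeasureTheory

namespace GN

variable {Γ : Type*} [DecidableEq Γ]

/-- a lattice norm on a space of functions which is smooth in the directions off the support -/
structure RW (Γ : Type*) [DecidableEq Γ] where
  T : (Γ → ℝ) → Prop
  ν : (Γ → ℝ) → ℝ
  sgT : ∀ c, T (sg c)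
  add : ∀ x y, T x → T y → T (fun g => x g + y g)
  mul : ∀ x y (C : ℝ), T x → 0 ≤ C → (∀ g, |y g| ≤ C * |x g|) → T y
  ν_add : ∀ x y, T x → T y → ν (fun g => x g + y g) ≤ ν x + ν y
  ν_smul : ∀ x (c : ℝ), T x → ν (fun g => c * x g) = |c| * ν x
  ν_mono : ∀ x y, T x → T y → (∀ g, |x g| ≤ |y g|) → ν x ≤ ν y
  ν_sg : ∀ c, ν (sg c) ≤ 1
  tail : ∀ x, T x → ∀ ε > 0, ∃ F0 : Finset Γ, ∀ y, (∀ g, |y g| ≤ |x g|) → (∀ g ∈ F0, y g = 0) → ν y ≤ ε
  off : ∀ x, T x → 0 < ν x → ∀ c, x c = 0 → ∀ ε > 0, ∃ δ > 0, ∀ t : ℝ, |t| ≤ δ →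
    ν (fun g => x g + t * sg c g) ≤ ν x + ε * |t|

namespace RW

variable (R : RW Γ) {x y h : Γ → ℝ} {w : Γ → ℝ}

lemma smulT (hx : R.T x) (c : ℝ) : R.T (fun g => c * x g) :=
  R.mul x _ |c| hx (abs_nonneg c) (fun g => by rw [abs_mul])

lemma ν_nonneg (hx : R.T x) : 0 ≤ R.ν x := by
  have h1 := R.ν_add x _ hx (R.smulT hx (-1))
  rw [R.ν_smul x (-1) hx] at h1
  have e : (fun g => x g + -1 * x g) = fun g => 0 * x g := by funext g; ring
  rw [e, R.ν_smul x 0 hx] at h1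
  simp at h1
  linarith

lemma wT (hw : ∀ g, 1 ≤ w g ∧ w g ≤ 3) (hx : R.T x) : R.T (fun g => w g * x g) :=
  R.mul x _ 3 hx (by norm_num) (fun g => by
    rw [abs_mul, abs_of_nonneg (by linarith [(hw g).1])]
    exact mul_le_mul_of_nonneg_right (hw g).2 (abs_nonneg _))

lemma ν_w_le (hw : ∀ g, 1 ≤ w g ∧ w g ≤ 3) (hx : R.T x) : R.ν (fun g => w g * x g) ≤ 3 * R.ν x := by
  have h1 := R.ν_mono _ _ (R.wT hw hx) (R.smulT hx 3) (fun g => by
    rw [abs_mul, abs_mul, abs_of_nonneg (show 0 ≤ w g by linarith [(hw g).1]), abs_of_nonneg (show (0:ℝ) ≤ 3 by norm_num)]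
    exact mul_le_mul_of_nonneg_right (hw g).2 (abs_nonneg _))
  rw [R.ν_smul x 3 hx, abs_of_nonneg (show (0:ℝ) ≤ 3 by norm_num)] at h1
  exact h1

lemma le_ν_w (hw : ∀ g, 1 ≤ w g ∧ w g ≤ 3) (hx : R.T x) : R.ν x ≤ R.ν (fun g => w g * x g) := by
  apply R.ν_mono _ _ hx (R.wT hw hx) (fun g => by
    rw [abs_mul, abs_of_nonneg (show 0 ≤ w g by linarith [(hw g).1])]
    nlinarith [abs_nonneg (x g), (hw g).1])

/-- the square of the weighted norm -/
noncomputable def Q (w x : Γ → ℝ) : ℝ := (R.ν (fun g => w g * x g))^2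

lemma Q_nonneg : 0 ≤ R.Q w x := sq_nonneg _

lemma Q_le (hw : ∀ g, 1 ≤ w g ∧ w g ≤ 3) (hx : R.T x) : R.Q w x ≤ 9 * (R.ν x)^2 := by
  have h1 := R.ν_w_le hw hx
  have h2 := R.ν_nonneg (R.wT hw hx)
  unfold Q
  nlinarith

lemma le_Q (hw : ∀ g, 1 ≤ w g ∧ w g ≤ 3) (hx : R.T x) : (R.ν x)^2 ≤ R.Q w x :=
  pow_le_pow_left₀ (R.ν_nonneg hx) (R.le_ν_w hw hx) 2

lemma Q_smul (hw : ∀ g, 1 ≤ w g ∧ w g ≤ 3) (hx : R.T x) (c : ℝ) : R.Q w (fun g => c * x g) = c^2 * R.Q w x := by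
  unfold Q
  have e : (fun g => w g * (c * x g)) = fun g => c * (w g * x g) := by funext g; ring
  rw [e, R.ν_smul _ c (R.wT hw hx), mul_pow, sq_abs]

lemma Q_convex (hw : ∀ g, 1 ≤ w g ∧ w g ≤ 3) (hx : R.T x) (hy : R.T y) {l : ℝ} (h0 : 0 ≤ l) (h1 : l ≤ 1) :
    R.Q w (fun g => (1-l) * x g + l * y g) ≤ (1-l) * R.Q w x + l * R.Q w y := by
  have hl : 0 ≤ 1 - l := by linarith
  have a1 := R.ν_add _ _ (R.wT hw (R.smulT hx (1-l))) (R.wT hw (R.smulT hy l))
  have e1 : (fun g => w g * ((1-l) * x g) + w g * (l * y g)) = fun g => w g * ((1-l) * x g + l * y g) := by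
    funext g; ring
  have e2 : (fun g => w g * ((1-l) * x g)) = fun g => (1-l) * (w g * x g) := by funext g; ring
  have e3 : (fun g => w g * (l * y g)) = fun g => l * (w g * y g) := by funext g; ring
  rw [e1, e2, e3, R.ν_smul _ _ (R.wT hw hx), R.ν_smul _ _ (R.wT hw hy), abs_of_nonneg h0, abs_of_nonneg hl] at a1
  have a2 := R.ν_nonneg (R.wT hw (R.add _ _ (R.smulT hx (1-l)) (R.smulT hy l)))
  unfold Q
  set A := R.ν (fun g => w g * x g)
  set B := R.ν (fun g => w g * y g)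
  have a3 : (R.ν (fun g => w g * ((1-l) * x g + l * y g)))^2 ≤ ((1-l)*A + l*B)^2 := pow_le_pow_left₀ a2 a1 2
  have a4 : ((1-l)*A + l*B)^2 ≤ (1-l)*A^2 + l*B^2 := by
    have : (1-l)*A^2 + l*B^2 - ((1-l)*A + l*B)^2 = l*(1-l)*(A-B)^2 := by ring
    have : 0 ≤ l*(1-l)*(A-B)^2 := by positivity
    linarith
  linarith

lemma Q_half (hw : ∀ g, 1 ≤ w g ∧ w g ≤ 3) (hx : R.T x) (hy : R.T y) :
    R.Q w (fun g => (x g + y g)/2) ≤ (R.Q w x + R.Q w y)/2 := by
  have := R.Q_convex hw hx hy (l := 1/2) (by norm_num) (by norm_num)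
  have e : (fun g => (1-(1/2:ℝ))*x g + (1/2)*y g) = fun g => (x g + y g)/2 := by
    funext g; ring
  rw [e] at this
  linarith

lemma convR_Q (hw : ∀ g, 1 ≤ w g ∧ w g ≤ 3) (hx : R.T x) (hh : R.T h) :
    ConvR (fun t => R.Q w (fun g => x g + t * h g)) := by
  intro s t l h0 h1
  have := R.Q_convex hw (R.add _ _ hx (R.smulT hh s)) (R.add _ _ hx (R.smulT hh t)) h0 h1
  have e : (fun g => (1-l)*(x g + s * h g) + l*(x g + t * h g)) = fun g => x g + ((1-l)*s+l*t) * h g := by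
    funext g; ring
  rw [e] at this
  exact this

/-- smooth directions -/
def GD (w x h : Γ → ℝ) : Prop := Sm0 (fun t => R.Q w (fun g => x g + t * h g))

lemma GD_zero (w x : Γ → ℝ) : R.GD w x (fun _ => 0) := by
  intro ε hε
  refine ⟨1, one_pos, fun t ht _ => ?_⟩
  simp only [mul_zero, add_zero]
  nlinarith

lemma GD.smul {R : RW Γ} {w x h : Γ → ℝ} (hh : R.GD w x h) (c : ℝ) : R.GD w x (fun g => c * h g) := by
  have := Sm0.comp_mul hh c
  unfold GD
  have e : (fun t => R.Q w (fun g => x g + t * (c * h g))) = (fun t => (fun t => R.Q w (fun g => x g + t * h g)) (t*c)) := by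
    funext t; congr 1; funext g; ring
  rw [e]; exact this

lemma GD.add {R : RW Γ} {w x h1 h2 : Γ → ℝ} (hw : ∀ g, 1 ≤ w g ∧ w g ≤ 3) (hx : R.T x) (hh1 : R.T h1) (hh2 : R.T h2)
    (g1 : R.GD w x h1) (g2 : R.GD w x h2) : R.GD w x (fun g => h1 g + h2 g) := by
  have k1 := Sm0.comp_mul g1 2
  have k2 := Sm0.comp_mul g2 2
  intro ε hε
  obtain ⟨a, ha, k1⟩ := k1 ε hε
  obtain ⟨b, hb, k2⟩ := k2 ε hε
  refine ⟨min a b, lt_min ha hb, fun t ht ht0 => ?_⟩
  have k1 := k1 t ht (lt_of_lt_of_le ht0 (min_le_left _ _))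
  have k2 := k2 t ht (lt_of_lt_of_le ht0 (min_le_right _ _))
  have key : ∀ t : ℝ, R.Q w (fun g => x g + t * (h1 g + h2 g)) ≤
      (R.Q w (fun g => x g + t * 2 * h1 g) + R.Q w (fun g => x g + t * 2 * h2 g))/2 := by
    intro t
    have := R.Q_half hw (R.add _ _ hx (R.smulT hh1 (t*2))) (R.add _ _ hx (R.smulT hh2 (t*2)))
    convert this using 2
    funext g; ring
  have p1 := key t
  have p2 := key (-t)
  simp only [zero_mul, add_zero] at k1 k2 ⊢
  linarith

lemma GD.limit {R : RW Γ} {w x h : Γ → ℝ} (hw : ∀ g, 1 ≤ w g ∧ w g ≤ 3) (hx : R.T x) (hh : R.T h)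
    (H : ∀ ε > 0, ∃ h', R.T h' ∧ R.GD w x h' ∧ R.ν (fun g => h g - h' g) ≤ ε) : R.GD w x h := by
  intro ε hε
  set C := R.ν (fun g => w g * x g) + 2 with hC
  have hνx := R.ν_nonneg (R.wT hw hx)
  have hCp : 0 < C := by linarith
  obtain ⟨h', hh', hg', hv⟩ := H (min (1/3) (ε/(24*C))) (by positivity)
  obtain ⟨a, ha, k⟩ := hg' (ε/2) (by positivity)
  have hνh := R.ν_nonneg (R.wT hw hh')
  set B := R.ν (fun g => w g * h' g) with hB
  have hdT : R.T (fun g => h g - h' g) := by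
    have := R.add _ _ hh (R.smulT hh' (-1))
    have e : (fun g => h g + -1 * h' g) = fun g => h g - h' g := by funext g; ring
    rwa [e] at this
  set d := R.ν (fun g => w g * (h g - h' g)) with hd
  have hd0 : 0 ≤ d := R.ν_nonneg (R.wT hw hdT)
  have hd1 : d ≤ 3 * min (1/3) (ε/(24*C)) := le_trans (R.ν_w_le hw hdT) (by linarith)
  have hd2 : d ≤ 1 := by
    have := min_le_left (1/3) (ε/(24*C)); linarith
  have hd3 : d * C ≤ ε/8 := by
    have h1 := min_le_right (1/3) (ε/(24*C))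
    have h2 : d ≤ 3 * (ε/(24*C)) := by linarith
    have h3 : 3 * (ε/(24*C)) * C = ε/8 := by field_simp; ring
    have := mul_le_mul_of_nonneg_right h2 hCp.le
    linarith
  refine ⟨min (min a 1) (1/(B+1)), by positivity, fun t ht ht0 => ?_⟩
  have ta : t < a := lt_of_lt_of_le ht0 (le_trans (min_le_left _ _) (min_le_left _ _))
  have t1 : t < 1 := lt_of_lt_of_le ht0 (le_trans (min_le_left _ _) (min_le_right _ _))
  have tB : t < 1/(B+1) := lt_of_lt_of_le ht0 (min_le_right _ _)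
  rw [lt_div_iff₀ (by positivity)] at tB
  have k := k t ht ta
  have key : ∀ s : ℝ, |s| = t → R.Q w (fun g => x g + s * h g) ≤ R.Q w (fun g => x g + s * h' g) + t*(ε/4) := by
    intro s hs
    have a1 := R.ν_add _ _ (R.wT hw (R.add _ _ hx (R.smulT hh' s))) (R.wT hw (R.smulT hdT s))
    have e1 : (fun g => w g * (x g + s * h' g) + w g * (s * (h g - h' g))) = fun g => w g * (x g + s * h g) := by
      funext g; ring
    have e2 : (fun g => w g * (s * (h g - h' g))) = fun g => s * (w g * (h g - h' g)) := by funext g; ring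
    rw [e1, e2, R.ν_smul _ s (R.wT hw hdT), hs] at a1
    have a2 := R.ν_add _ _ (R.wT hw hx) (R.wT hw (R.smulT hh' s))
    have e3 : (fun g => w g * x g + w g * (s * h' g)) = fun g => w g * (x g + s * h' g) := by
      funext g; ring
    have e4 : (fun g => w g * (s * h' g)) = fun g => s * (w g * h' g) := by funext g; ring
    rw [e3, e4, R.ν_smul _ s (R.wT hw hh'), hs] at a2
    have a0 := R.ν_nonneg (R.wT hw (R.add _ _ hx (R.smulT hh s)))
    have a3 := R.ν_nonneg (R.wT hw (R.add _ _ hx (R.smulT hh' s)))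
    unfold Q
    set P := R.ν (fun g => w g * (x g + s * h g))
    set P' := R.ν (fun g => w g * (x g + s * h' g))
    have a4 : P' ≤ C - 1 := by
      rw [hC]
      have : t * B ≤ 1 := by nlinarith
      linarith
    have a5 : P^2 ≤ (P' + t * d)^2 := pow_le_pow_left₀ a0 a1 2
    have a6 : t * d ≤ 1 := by nlinarith
    have a7 : (P' + t*d)^2 = P'^2 + t*d*(2*P' + t*d) := by ring
    have a8 : t*d*(2*P' + t*d) ≤ t*d*(2*C) := by
      apply mul_le_mul_of_nonneg_left _ (by positivity)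
      linarith
    have a9 : t*d*(2*C) ≤ t*(ε/4) := by
      have : t*d*(2*C) = t*(2*(d*C)) := by ring
      rw [this]
      apply mul_le_mul_of_nonneg_left _ ht.le
      linarith
    linarith
  have p1 := key t (abs_of_pos ht)
  have p2 := key (-t) (by rw [abs_neg, abs_of_pos ht])
  simp only [zero_mul, add_zero] at k ⊢
  linarith

/-- finitely supported directions -/
lemma GD_fin (hw : ∀ g, 1 ≤ w g ∧ w g ≤ 3) (hx : R.T x) (hs : ∀ c, R.GD w x (sg c)) (a : Γ → ℝ) (F : Finset Γ) :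
    R.T (fun g => ∑ c ∈ F, a c * sg c g) ∧ R.GD w x (fun g => ∑ c ∈ F, a c * sg c g) := by
  induction F using Finset.induction_on with
  | empty =>
    simp only [Finset.sum_empty]
    refine ⟨?_, R.GD_zero w x⟩
    exact R.mul x _ 0 hx le_rfl (fun g => by simp)
  | insert c F hc ih =>
    have e : (fun g => ∑ c ∈ insert c F, a c * sg c g) = fun g => a c * sg c g + ∑ c ∈ F, a c * sg c g := by
      funext g; rw [Finset.sum_insert hc]
    rw [e]
    exact ⟨R.add _ _ (R.smulT (R.sgT c) _) ih.1, GD.add hw hx (R.smulT (R.sgT c) _) ih.1 ((hs c).smul _) ih.2⟩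

lemma sum_sg (a : Γ → ℝ) (F : Finset Γ) (g : Γ) : ∑ c ∈ F, a c * sg c g = if g ∈ F then a g else 0 := by
  simp only [sg, mul_ite, mul_one, mul_zero, Finset.sum_ite_eq]

/-- all directions -/
lemma GD_all (hw : ∀ g, 1 ≤ w g ∧ w g ≤ 3) (hx : R.T x) (hs : ∀ c, R.GD w x (sg c)) (hh : R.T h) : R.GD w x h := by
  apply GD.limit hw hx hh
  intro ε hε
  obtain ⟨F0, hF0⟩ := R.tail h hh ε hε
  obtain ⟨h1, h2⟩ := R.GD_fin hw hx hs h F0
  refine ⟨_, h1, h2, ?_⟩
  apply hF0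
  · intro g
    rw [sum_sg]
    split_ifs
    · simp
    · rw [sub_zero]
  · intro g hg
    rw [sum_sg, if_pos hg, sub_self]

/-- directions off the support -/
lemma GD_off (hw : ∀ g, 1 ≤ w g ∧ w g ≤ 3) (hx : R.T x) (hν : 0 < R.ν x) {c : Γ} (hc : x c = 0) : R.GD w x (sg c) := by
  have hwx := R.wT hw hx
  have hν' : 0 < R.ν (fun g => w g * x g) := lt_of_lt_of_le hν (R.le_ν_w hw hx)
  set A := R.ν (fun g => w g * x g) with hA
  intro ε hε
  obtain ⟨δ, hδ, H⟩ := R.off _ hwx hν' c (by simp [hc]) (min 1 (ε/(4*A+4)))  (by positivity)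
  have hwc : 0 < w c := by linarith [(hw c).1]
  have hwc3 := (hw c).2
  set e1 := min 1 (ε/(4*A+4)) with he1
  have he0 : 0 < e1 := by positivity
  have he2 : e1 * (4*A+4) ≤ ε := by
    have := min_le_right 1 (ε/(4*A+4))
    rw [← he1, le_div_iff₀ (by positivity)] at this; exact this
  have he3 : e1 ≤ 1 := min_le_left _ _
  obtain ⟨δ, hδ, H⟩ := R.off _ hwx hν' c (by simp [hc]) (e1/3)  (by positivity)
  refine ⟨min (1/3) (δ/3), by positivity, fun t ht ht0 => ?_⟩
  have t1 : t < 1/3 := lt_of_lt_of_le ht0 (min_le_left _ _)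
  have t2 : t < δ/3 := lt_of_lt_of_le ht0 (min_le_right _ _)
  have key : ∀ s : ℝ, |s| = t → R.Q w (fun g => x g + s * sg c g) ≤ A^2 + (ε/2)*t := by
    intro s hs
    have h1 := H (w c * s) (by rw [abs_mul, abs_of_pos hwc, hs]; nlinarith)
    have e : (fun g => w g * x g + w c * s * sg c g) = fun g => w g * (x g + s * sg c g) := by
      funext g
      by_cases hg : g = c
      · subst hg; ring
      · rw [sg_ne hg]; ring
    rw [e, abs_mul, abs_of_pos hwc, hs] at h1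
    have h2 := R.ν_nonneg (R.wT hw (R.add _ _ hx (R.smulT (R.sgT c) s)))
    unfold Q
    set P := R.ν (fun g => w g * (x g + s * sg c g))
    have h3 : P ≤ A + e1 * t := by
      have : e1/3 * (w c * t) ≤ e1 * t := by
        have : w c * t ≤ 3 * t := mul_le_mul_of_nonneg_right hwc3 ht.le
        nlinarith
      linarith
    have h4 : P^2 ≤ (A + e1*t)^2 := pow_le_pow_left₀ h2 h3 2
    have h5 : (A + e1*t)^2 = A^2 + t * (e1*(2*A + e1*t)) := by ring
    have h6 : e1*(2*A+e1*t) ≤ ε/2 := by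
      have : e1 * t ≤ 1 := by nlinarith
      nlinarith
    nlinarith
  have p1 := key t (abs_of_pos ht)
  have p2 := key (-t) (by rw [abs_neg, abs_of_pos ht])
  have p0 : R.Q w (fun g => x g + 0 * sg c g) = A^2 := by unfold Q; simp [hA]
  show R.Q w (fun g => x g + t * sg c g) + R.Q w (fun g => x g + -t * sg c g) - 2 * R.Q w (fun g => x g + 0 * sg c g) ≤ ε * t
  rw [p0]
  linarith

/-- countable support -/
lemma countable_supp_of (hx : R.T x) (hpos : ∀ c, 0 < R.ν (sg c)) : {c : Γ | x c ≠ 0}.Countable := by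
  have h1 : ∀ n : ℕ, {c : Γ | 1/((n:ℝ)+1) < |x c| * R.ν (sg c)}.Finite := by
    intro n
    obtain ⟨F0, hF0⟩ := R.tail x hx (1/((n:ℝ)+1)) (by positivity)
    apply F0.finite_toSet.subset
    intro c hc
    by_contra hcF
    have h2 := hF0 (fun g => x c * sg c g) (fun g => by
      by_cases hg : g = c
      · subst hg; rw [sg_self, mul_one]
      · rw [sg_ne hg]; simp) (fun g hg => by
      rw [sg_ne (fun h => hcF (by rw [← h]; exact hg)), mul_zero])
    rw [R.ν_smul _ _ (R.sgT c)] at h2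
    have hc' : 1/((n:ℝ)+1) < |x c| * R.ν (sg c) := hc
    linarith
  have h2 : {c : Γ | x c ≠ 0} ⊆ ⋃ n : ℕ, {c : Γ | 1/((n:ℝ)+1) < |x c| * R.ν (sg c)} := by
    intro c hc
    obtain ⟨n, hn⟩ := exists_nat_one_div_lt (mul_pos (abs_pos.2 hc) (hpos c))
    exact Set.mem_iUnion.2 ⟨n, hn⟩
  exact (Set.countable_iUnion (fun n => (h1 n).countable)).mono h2

end RW

end GN
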