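import Pool.Agent.Helper937.Gen2

set_option linter.unusedSectionVars false
set_option linter.unusedVariables false
set_option autoImplicit false

/-! Averaging a lattice norm over random weights: smoothness -/

open MeasureTheory Topology Filter

namespace GN

variable {Γ : Type*} [DecidableEq Γ]

namespace RW

variable (R : RW Γ) {x y h : Γ → ℝ} {w : Γ → ℝ}

lemma ν_sum_le (hx : R.T x) (a : Γ → ℝ) (F : Finset Γ) :
    R.T (fun g => ∑ c ∈ F, a c * sg c g) ∧ R.ν (fun g => ∑ c ∈ F, a c * sg c g) ≤ ∑ c ∈ F, |a c| := by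
  induction F using Finset.induction_on with
  | empty =>
    simp only [Finset.sum_empty]
    have h0 : R.T (fun _ : Γ => (0:ℝ)) := R.mul x _ 0 hx le_rfl (fun g => by simp)
    refine ⟨h0, ?_⟩
    have := R.ν_smul x 0 hx
    simp at this
    rw [this]
  | insert c F hc ih =>
    have e : (fun g => ∑ c ∈ insert c F, a c * sg c g) = fun g => a c * sg c g + ∑ c ∈ F, a c * sg c g := by
      funext g; rw [Finset.sum_insert hc]
    rw [e, Finset.sum_insert hc]
    refine ⟨R.add _ _ (R.smulT (R.sgT c) _) ih.1, ?_⟩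
    have h1 := R.ν_add _ _ (R.smulT (R.sgT c) (a c)) ih.1
    rw [R.ν_smul _ _ (R.sgT c)] at h1
    have h2 : |a c| * R.ν (sg c) ≤ |a c| * 1 := mul_le_mul_of_nonneg_left (R.ν_sg c) (abs_nonneg _)
    linarith [ih.2]

lemma ν_diff (hx : R.T x) (hy : R.T y) : R.ν x ≤ R.ν y + R.ν (fun g => x g - y g) := by
  have h1 : R.T (fun g => x g - y g) := by
    have := R.add _ _ hx (R.smulT hy (-1))
    have e : (fun g => x g + -1 * y g) = fun g => x g - y g := by funext g; ring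
    rwa [e] at this
  have := R.ν_add _ _ hy h1
  have e : (fun g => y g + (x g - y g)) = x := by funext g; ring
  rwa [e] at this

lemma ν_w_diff (hx : R.T x) {F0 : Finset Γ} {ε : ℝ}
    (hF : ∀ y, (∀ g, |y g| ≤ |x g|) → (∀ g ∈ F0, y g = 0) → R.ν y ≤ ε) {w v : Γ → ℝ}
    (hw : ∀ g, 1 ≤ w g ∧ w g ≤ 3) (hv : ∀ g, 1 ≤ v g ∧ v g ≤ 3) :
    R.ν (fun g => w g * x g) ≤ R.ν (fun g => v g * x g) + (∑ c ∈ F0, |(w c - v c) * x c|) + 2 * ε := by
  have h1 := R.ν_diff (R.wT hw hx) (R.wT hv hx)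
  obtain ⟨h2, h3⟩ := R.ν_sum_le hx (fun c => (w c - v c) * x c) F0
  set r : Γ → ℝ := fun g => if g ∈ F0 then 0 else (w g - v g)/2 * x g with hr
  have hr1 : ∀ g, |r g| ≤ |x g| := by
    intro g
    simp only [hr]
    split_ifs
    · simp
    · rw [abs_mul]
      have : |(w g - v g)/2| ≤ 1 := by
        rw [abs_le]
        have := hw g; have := hv g
        constructor <;> linarith
      nlinarith [abs_nonneg (x g)]
  have hrT : R.T r := R.mul x r 1 hx zero_le_one (fun g => by rw [one_mul]; exact hr1 g)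
  have h4 := hF r hr1 (fun g hg => by simp only [hr, if_pos hg])
  have h5 := R.ν_add _ _ h2 (R.smulT hrT 2)
  have e : (fun g => (∑ c ∈ F0, (w c - v c) * x c * sg c g) + 2 * r g) = fun g => w g * x g - v g * x g := by
    funext g
    rw [sum_sg (fun c => (w c - v c) * x c)]
    simp only [hr]
    split_ifs <;> ring
  rw [e, R.ν_smul _ _ hrT] at h5
  rw [abs_of_pos (show (0:ℝ) < 2 by norm_num)] at h5
  linarith

lemma cont_ν (hx : R.T x) : Continuous (fun θ : Om Γ => R.ν (fun g => wt θ g * x g)) := by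
  rw [continuous_iff_continuousAt]
  intro θ
  rw [ContinuousAt, Metric.tendsto_nhds]
  intro ε hε
  obtain ⟨F0, hF0⟩ := R.tail x hx (ε/8) (by positivity)
  have hc : Continuous (fun θ' : Om Γ => ∑ c ∈ F0, |(wt θ' c - wt θ c) * x c|) := by
    apply continuous_finsetSum
    intro c _
    exact (((cont_wt c).sub continuous_const).mul continuous_const).abs
  have h0 : (fun θ' : Om Γ => ∑ c ∈ F0, |(wt θ' c - wt θ c) * x c|) θ < ε/2 := by
    simp only [sub_self, zero_mul, abs_zero, Finset.sum_const_zero]; positivity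
  filter_upwards [hc.continuousAt.eventually (gt_mem_nhds h0)] with θ' hθ'
  have h1 := R.ν_w_diff hx hF0 (wt_bd θ') (wt_bd θ)
  have h2 := R.ν_w_diff hx hF0 (wt_bd θ) (wt_bd θ')
  have e : ∑ c ∈ F0, |(wt θ c - wt θ' c) * x c| = ∑ c ∈ F0, |(wt θ' c - wt θ c) * x c| := by
    apply Finset.sum_congr rfl
    intro c _
    rw [abs_mul, abs_mul, abs_sub_comm]
  rw [e] at h2
  rw [Real.dist_eq, abs_lt]
  constructor <;> linarith

lemma cont_Q (hx : R.T x) : Continuous (fun θ : Om Γ => R.Q (wt θ) x) := (R.cont_ν hx).pow 2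

lemma Q_int (hx : R.T x) : Integrable (fun θ : Om Γ => R.Q (wt θ) x) (mu Γ) := by
  apply Integrable.of_bound (R.cont_Q hx).measurable.aestronglyMeasurable (9 * (R.ν x)^2)
  filter_upwards with θ
  rw [Real.norm_eq_abs, abs_of_nonneg R.Q_nonneg]
  exact R.Q_le (wt_bd θ) hx

/-- the averaged functional -/
noncomputable def GG (x : Γ → ℝ) : ℝ := ∫ θ, R.Q (wt θ) x ∂(mu Γ)

lemma GG_le (hx : R.T x) : R.GG x ≤ 9 * (R.ν x)^2 := by
  have : R.GG x ≤ ∫ θ, 9 * (R.ν x)^2 ∂(mu Γ) :=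
    integral_mono (R.Q_int hx) (integrable_const _) (fun θ => R.Q_le (wt_bd θ) hx)
  simpa using this

lemma le_GG (hx : R.T x) : (R.ν x)^2 ≤ R.GG x := by
  have : ∫ θ, (R.ν x)^2 ∂(mu Γ) ≤ R.GG x :=
    integral_mono (integrable_const _) (R.Q_int hx) (fun θ => R.le_Q (wt_bd θ) hx)
  simpa using this

lemma GG_convex (hx : R.T x) (hy : R.T y) {l : ℝ} (h0 : 0 ≤ l) (h1 : l ≤ 1) :
    R.GG (fun g => (1-l)*x g + l*y g) ≤ (1-l) * R.GG x + l * R.GG y := by
  unfold GG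
  rw [← integral_const_mul, ← integral_const_mul, ← integral_add ((R.Q_int hx).const_mul _) ((R.Q_int hy).const_mul _)]
  exact integral_mono (R.Q_int (R.add _ _ (R.smulT hx _) (R.smulT hy _))) (((R.Q_int hx).const_mul _).add ((R.Q_int hy).const_mul _))
    (fun θ => R.Q_convex (wt_bd θ) hx hy h0 h1)

lemma GG_smul (hx : R.T x) (c : ℝ) : R.GG (fun g => c * x g) = c^2 * R.GG x := by
  unfold GG
  rw [← integral_const_mul]
  congr 1
  funext θ
  exact R.Q_smul (wt_bd θ) hx c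

/-- the square of the norm along a line -/
noncomputable def Nl (y h : Γ → ℝ) (t : ℝ) : ℝ := (R.ν (fun g => y g + t * h g))^2

lemma convR_Nl (hy : R.T y) (hh : R.T h) : ConvR (R.Nl y h) := by
  intro s t l h0 h1
  have hl : 0 ≤ 1 - l := by linarith
  have hs := R.add _ _ hy (R.smulT hh s)
  have ht := R.add _ _ hy (R.smulT hh t)
  have a1 := R.ν_add _ _ (R.smulT hs (1-l)) (R.smulT ht l)
  have e : (fun g => (1-l)*(y g + s * h g) + l*(y g + t * h g)) = fun g => y g + ((1-l)*s+l*t) * h g := by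
    funext g; ring
  rw [e, R.ν_smul _ _ hs, R.ν_smul _ _ ht, abs_of_nonneg h0, abs_of_nonneg hl] at a1
  have a2 := R.ν_nonneg (R.add _ _ hy (R.smulT hh ((1-l)*s+l*t)))
  unfold Nl
  set A := R.ν (fun g => y g + s * h g)
  set B := R.ν (fun g => y g + t * h g)
  have a3 : (R.ν (fun g => y g + ((1-l)*s+l*t) * h g))^2 ≤ ((1-l)*A + l*B)^2 := pow_le_pow_left₀ a2 a1 2
  have a4 : ((1-l)*A + l*B)^2 ≤ (1-l)*A^2 + l*B^2 := by
    have : (1-l)*A^2 + l*B^2 - ((1-l)*A + l*B)^2 = l*(1-l)*(A-B)^2 := by ring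
    have : 0 ≤ l*(1-l)*(A-B)^2 := by positivity
    linarith
  linarith

lemma wt_rot (x : Γ → ℝ) (c : Γ) (τ : ℝ) (θ : Om Γ) : (fun g => wt (rot c τ * θ) g * x g) =
    fun g => wt θ g * x g + ((((rot c τ * θ) c : Circle) : ℂ).re * x c - ((θ c : Circle) : ℂ).re * x c) * sg c g := by
  funext g
  by_cases hg : g = c
  · subst hg; rw [sg_self]; simp only [wt]; ring
  · rw [sg_ne hg]; simp only [wt]; rw [rot_ne c τ θ hg]; ring

/-- the constant -/
noncomputable def KK (x : Γ → ℝ) (c : Γ) : ℝ := 3 * R.ν x * |x c| + (x c)^2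

lemma KK_nonneg (hx : R.T x) (c : Γ) : 0 ≤ R.KK x c := by
  have := R.ν_nonneg hx
  unfold KK; positivity

lemma ex_bound (hx : R.T x) (c : Γ) (θ : Om Γ) {τ : ℝ} (h0 : 0 < τ) (h1 : τ ≤ 1) :
    let p := Real.sin τ * ((θ c : Circle) : ℂ).im * x c
    R.Nl (fun g => wt θ g * x g) (sg c) p + R.Nl (fun g => wt θ g * x g) (sg c) (-p) -
      2 * R.Nl (fun g => wt θ g * x g) (sg c) 0 ≤
    R.Q (wt (rot c τ * θ)) x + R.Q (wt (rot c (-τ) * θ)) x - 2 * R.Q (wt θ) x + 2 * R.KK x c * τ^2 := by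
  intro p
  set y : Γ → ℝ := fun g => wt θ g * x g with hy
  set a := x c with ha
  set r := ((θ c : Circle) : ℂ).re with hr
  set i := ((θ c : Circle) : ℂ).im with hi
  have hyT : R.T y := R.wT (wt_bd θ) hx
  have hri : r^2 + i^2 = 1 := circle_sq (θ c)
  have hr1 : |r| ≤ 1 := by rw [abs_le]; constructor <;> nlinarith [sq_nonneg i]
  set q := (Real.cos τ - 1) * r * a with hq
  have hqa : |q| ≤ τ^2/2 * |a| := by
    rw [hq, abs_mul, abs_mul]
    have hcos : |Real.cos τ - 1| ≤ τ^2/2 := by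
      rw [abs_le]
      have := Real.one_sub_sq_div_two_le_cos (x := τ)
      have := Real.cos_le_one τ
      constructor <;> nlinarith
    have : |Real.cos τ - 1| * |r| ≤ τ^2/2 * 1 := mul_le_mul hcos hr1 (abs_nonneg _) (by positivity)
    rw [mul_one] at this
    exact mul_le_mul_of_nonneg_right this (abs_nonneg _)
  have key : ∀ (s : ℝ) (σ : ℝ), (fun g => wt (rot c σ * θ) g * x g) = (fun g => y g + (q + s) * sg c g) →
      R.Nl y (sg c) s ≤ R.Q (wt (rot c σ * θ)) x + R.KK x c * τ^2 := by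
    intro s σ hσ
    have b1 := R.ν_w_le (wt_bd (rot c σ * θ)) hx
    have b0 := R.ν_nonneg (R.wT (wt_bd (rot c σ * θ)) hx)
    have hνx := R.ν_nonneg hx
    unfold Nl Q
    rw [hσ] at b1 b0 ⊢
    have hT1 := R.add _ _ hyT (R.smulT (R.sgT c) (q+s))
    have b2 := R.ν_add _ _ hT1 (R.smulT (R.sgT c) (-q))
    have e : (fun g => y g + (q+s) * sg c g + -q * sg c g) = fun g => y g + s * sg c g := by funext g; ring
    rw [e, R.ν_smul _ _ (R.sgT c), abs_neg] at b2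
    have b3 : |q| * R.ν (sg c) ≤ |q| * 1 := mul_le_mul_of_nonneg_left (R.ν_sg c) (abs_nonneg _)
    have b4 := R.ν_nonneg (R.add _ _ hyT (R.smulT (R.sgT c) s))
    set B := R.ν (fun g => y g + (q+s) * sg c g)
    set A := R.ν (fun g => y g + s * sg c g)
    have b5 : A ≤ B + |q| := by linarith
    have b6 : A^2 ≤ (B + |q|)^2 := pow_le_pow_left₀ b4 b5 2
    have b7 : (B + |q|)^2 = B^2 + |q| * (2*B + |q|) := by ring
    have hτ2 : τ^2 ≤ 1 := by nlinarith
    have b8 : |q| ≤ |a|/2 := by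
      have : τ^2/2 * |a| ≤ 1/2 * |a| := mul_le_mul_of_nonneg_right (by linarith) (abs_nonneg _)
      linarith
    have b9 : |q| * (2*B + |q|) ≤ (τ^2/2 * |a|) * (6 * R.ν x + |a|/2) := by
      apply mul_le_mul hqa (by linarith) (by positivity) (by positivity)
    have b10 : (τ^2/2 * |a|) * (6 * R.ν x + |a|/2) ≤ R.KK x c * τ^2 := by
      unfold KK
      have : |a| * |a| = a^2 := by rw [← sq, sq_abs]
      rw [← ha]
      have : (τ^2/2 * |a|) * (6 * R.ν x + |a|/2) = τ^2 * (3 * R.ν x * |a|) + τ^2 * (|a| * |a|)/4 := by ring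
      have : 0 ≤ τ^2 * a^2 := by positivity
      nlinarith
    linarith
  have k1 := key (-p) τ (by
    rw [wt_rot, rot_re]; funext g; simp only [p, hq, hy]; ring)
  have k2 := key p (-τ) (by
    rw [wt_rot, rot_re, Real.cos_neg, Real.sin_neg]; funext g; simp only [p, hq, hy]; ring)
  have e0 : R.Nl y (sg c) 0 = R.Q (wt θ) x := by unfold Nl Q; simp [hy]
  rw [e0]
  linarith

/-- the excess function -/
noncomputable def Ex (x : Γ → ℝ) (c : Γ) (τ : ℝ) (θ : Om Γ) : ℝ :=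
  R.Q (wt (rot c τ * θ)) x + R.Q (wt (rot c (-τ) * θ)) x - 2 * R.Q (wt θ) x + 2 * R.KK x c * τ^2

lemma Ex_nonneg (hx : R.T x) (c : Γ) (θ : Om Γ) {τ : ℝ} (h0 : 0 < τ) (h1 : τ ≤ 1) : 0 ≤ R.Ex x c τ θ := by
  have h2 := R.ex_bound hx c θ h0 h1
  have h3 := (R.convR_Nl (R.wT (wt_bd θ) hx) (R.sgT c)).second_nonneg (Real.sin τ * ((θ c : Circle) : ℂ).im * x c)
  exact le_trans h3 h2

lemma rot_int (hx : R.T x) (c : Γ) (τ : ℝ) : Integrable (fun θ : Om Γ => R.Q (wt (rot c τ * θ)) x) (mu Γ) :=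
  (R.Q_int hx).comp_mul_left (rot c τ)

lemma Ex_int (hx : R.T x) (c : Γ) (τ : ℝ) : Integrable (R.Ex x c τ) (mu Γ) := by
  unfold Ex
  exact (((R.rot_int hx c τ).add (R.rot_int hx c (-τ))).sub ((R.Q_int hx).const_mul 2)).add (integrable_const _)

lemma Ex_integral (hx : R.T x) (c : Γ) (τ : ℝ) : ∫ θ, R.Ex x c τ θ ∂(mu Γ) = 2 * R.KK x c * τ^2 := by
  unfold Ex
  have i1 := R.rot_int hx c τ
  have i2 := R.rot_int hx c (-τ)
  have i3 := (R.Q_int hx).const_mul 2
  have h1 : ∫ θ, R.Q (wt (rot c τ * θ)) x ∂(mu Γ) = ∫ θ, R.Q (wt θ) x ∂(mu Γ) :=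
    integral_mul_left_eq_self (μ := mu Γ) (fun θ => R.Q (wt θ) x) (rot c τ)
  have h2 : ∫ θ, R.Q (wt (rot c (-τ) * θ)) x ∂(mu Γ) = ∫ θ, R.Q (wt θ) x ∂(mu Γ) :=
    integral_mul_left_eq_self (μ := mu Γ) (fun θ => R.Q (wt θ) x) (rot c (-τ))
  have e1 : ∫ θ, (R.Q (wt (rot c τ * θ)) x + R.Q (wt (rot c (-τ) * θ)) x - 2 * R.Q (wt θ) x + 2 * R.KK x c * τ^2) ∂(mu Γ)
      = ∫ θ, (R.Q (wt (rot c τ * θ)) x + R.Q (wt (rot c (-τ) * θ)) x - 2 * R.Q (wt θ) x) ∂(mu Γ) + ∫ θ, 2 * R.KK x c * τ^2 ∂(mu Γ) :=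
    integral_add ((i1.add i2).sub i3) (integrable_const _)
  have e2 : ∫ θ, (R.Q (wt (rot c τ * θ)) x + R.Q (wt (rot c (-τ) * θ)) x - 2 * R.Q (wt θ) x) ∂(mu Γ)
      = ∫ θ, (R.Q (wt (rot c τ * θ)) x + R.Q (wt (rot c (-τ) * θ)) x) ∂(mu Γ) - ∫ θ, 2 * R.Q (wt θ) x ∂(mu Γ) :=
    integral_sub (i1.add i2) i3
  have e3 : ∫ θ, (R.Q (wt (rot c τ * θ)) x + R.Q (wt (rot c (-τ) * θ)) x) ∂(mu Γ)
      = ∫ θ, R.Q (wt (rot c τ * θ)) x ∂(mu Γ) + ∫ θ, R.Q (wt (rot c (-τ) * θ)) x ∂(mu Γ) :=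
    integral_add i1 i2
  rw [e1, e2, e3, h1, h2, integral_const_mul]
  simp
  ring

/-- smoothness in a direction of the support for almost every weight -/
lemma ae_dir (hx : R.T x) (c : Γ) (hxc : x c ≠ 0) : ∀ᵐ θ ∂(mu Γ), R.GD (wt θ) x (sg c) := by
  have hKK := R.KK_nonneg hx c
  have hbad : ∀ m : ℕ, ∀ᵐ θ ∂(mu Γ), ∃ n : ℕ, R.Ex x c (1/((n:ℝ)+1)) θ < 1/((m:ℝ)+1) * (1/((n:ℝ)+1)) := by
    intro m
    rw [ae_iff]
    push Not
    set B : Set (Om Γ) := {θ | ∀ n : ℕ, 1/((m:ℝ)+1) * (1/((n:ℝ)+1)) ≤ R.Ex x c (1/((n:ℝ)+1)) θ} with hB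
    have hm : (0:ℝ) < 1/((m:ℝ)+1) := by positivity
    have key : ∀ n : ℕ, (mu Γ).real B ≤ 2 * R.KK x c * ((m:ℝ)+1) * (1/((n:ℝ)+1)) := by
      intro n
      have hn : (0:ℝ) < 1/((n:ℝ)+1) := by positivity
      have hn1 : 1/((n:ℝ)+1) ≤ 1 := by
        rw [div_le_one (by positivity)]; have : (0:ℝ) ≤ n := by positivity
        linarith
      have h1 := mul_meas_ge_le_integral_of_nonneg (μ := mu Γ) (f := R.Ex x c (1/((n:ℝ)+1)))
        (Filter.Eventually.of_forall (fun θ => R.Ex_nonneg hx c θ hn hn1)) (R.Ex_int hx c _) (1/((m:ℝ)+1) * (1/((n:ℝ)+1)))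
      rw [R.Ex_integral hx] at h1
      have h2 : (mu Γ).real B ≤ (mu Γ).real {θ | 1/((m:ℝ)+1) * (1/((n:ℝ)+1)) ≤ R.Ex x c (1/((n:ℝ)+1)) θ} :=
        measureReal_mono (fun θ hθ => hθ n) (measure_ne_top _ _)
      have h3 : 1/((m:ℝ)+1) * (1/((n:ℝ)+1)) * (mu Γ).real B ≤ 2 * R.KK x c * (1/((n:ℝ)+1))^2 :=
        le_trans (mul_le_mul_of_nonneg_left h2 (by positivity)) h1
      have hmm : (0:ℝ) < (m:ℝ)+1 := by positivity
      have h4 : (1/((n:ℝ)+1)) * (mu Γ).real B ≤ (1/((n:ℝ)+1)) * (2 * R.KK x c * ((m:ℝ)+1) * (1/((n:ℝ)+1))) := by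
        have := mul_le_mul_of_nonneg_left h3 hmm.le
        calc (1/((n:ℝ)+1)) * (mu Γ).real B = ((m:ℝ)+1) * (1/((m:ℝ)+1) * (1/((n:ℝ)+1)) * (mu Γ).real B) := by field_simp
          _ ≤ ((m:ℝ)+1) * (2 * R.KK x c * (1/((n:ℝ)+1))^2) := this
          _ = _ := by ring
      exact le_of_mul_le_mul_left h4 hn
    have hlim : Filter.Tendsto (fun n : ℕ => 2 * R.KK x c * ((m:ℝ)+1) * (1/((n:ℝ)+1))) Filter.atTop (nhds 0) := by
      have := tendsto_one_div_add_atTop_nhds_zero_nat (𝕜 := ℝ)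
      simpa using this.const_mul (2 * R.KK x c * ((m:ℝ)+1))
    have h0 : (mu Γ).real B ≤ 0 := ge_of_tendsto' hlim key
    have h0' : (mu Γ).real B = 0 := le_antisymm h0 measureReal_nonneg
    exact (measureReal_eq_zero_iff (measure_ne_top _ _)).1 h0'
  have hall := ae_all_iff.2 hbad
  filter_upwards [hall, ae_im_ne c] with θ hθ him
  set y : Γ → ℝ := fun g => wt θ g * x g with hy
  set i := ((θ c : Circle) : ℂ).im with hi
  have hcv := R.convR_Nl (R.wT (wt_bd θ) hx) (R.sgT c)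
  rw [← hy] at hcv
  have main : Sm0 (R.Nl y (sg c)) := by
    intro ε hε
    have hia : 0 < |i| * |x c| := mul_pos (abs_pos.2 him) (abs_pos.2 hxc)
    obtain ⟨m, hm⟩ := exists_nat_one_div_lt (show 0 < ε*(|i| * |x c|)/2 by positivity)
    obtain ⟨n, hn⟩ := hθ m
    set τ := 1/((n:ℝ)+1) with hτ
    have hτ0 : 0 < τ := by positivity
    have hτ1 : τ ≤ 1 := by
      rw [hτ, div_le_one (by positivity)]; have : (0:ℝ) ≤ n := by positivity
      linarith
    have hsin : τ/2 ≤ Real.sin τ := by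
      have h1 := Real.mul_le_sin hτ0.le (by linarith [Real.pi_gt_three])
      have h2 : τ/2 ≤ 2/Real.pi * τ := by
        rw [div_mul_eq_mul_div, le_div_iff₀ Real.pi_pos]
        have := Real.pi_lt_four
        nlinarith
      linarith
    have hsin0 : 0 < Real.sin τ := by linarith
    set P := Real.sin τ * (|i| * |x c|) with hP
    have hPp : 0 < P := by positivity
    have hpb := R.ex_bound hx c θ hτ0 hτ1
    have hPhi : R.Nl y (sg c) P + R.Nl y (sg c) (-P) - 2 * R.Nl y (sg c) 0 < ε * P := by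
      have h1 : R.Nl y (sg c) P + R.Nl y (sg c) (-P) =
          R.Nl y (sg c) (Real.sin τ * i * x c) + R.Nl y (sg c) (-(Real.sin τ * i * x c)) := by
        have : P = |Real.sin τ * i * x c| := by rw [abs_mul, abs_mul, abs_of_pos hsin0, hP]; ring
        rw [this]
        rcases abs_choice (Real.sin τ * i * x c) with h | h
        · rw [h]
        · rw [h, neg_neg, add_comm]
      have h2 : R.Ex x c τ θ < ε * P := by
        refine lt_of_lt_of_le hn ?_
        calc 1/((m:ℝ)+1) * τ ≤ ε*(|i| * |x c|)/2 * τ := mul_le_mul_of_nonneg_right hm.le hτ0.le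
          _ = ε * (τ/2 * (|i| * |x c|)) := by ring
          _ ≤ ε * P := by
              apply mul_le_mul_of_nonneg_left _ hε.le
              exact mul_le_mul_of_nonneg_right hsin hia.le
      rw [h1]
      exact lt_of_le_of_lt hpb h2
    refine ⟨P, hPp, fun t ht htP => ?_⟩
    have h1 := hcv.second_mono ht htP.le
    have h2 : (R.Nl y (sg c) t + R.Nl y (sg c) (-t) - 2 * R.Nl y (sg c) 0) * P ≤ (ε * t) * P := by
      calc _ ≤ (R.Nl y (sg c) P + R.Nl y (sg c) (-P) - 2 * R.Nl y (sg c) 0) * t := h1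
        _ ≤ (ε * P) * t := mul_le_mul_of_nonneg_right hPhi.le ht.le
        _ = _ := by ring
    exact le_of_mul_le_mul_right h2 hPp
  have := Sm0.comp_mul main (wt θ c)
  unfold GD
  have e : (fun t => R.Q (wt θ) (fun g => x g + t * sg c g)) = fun t => R.Nl y (sg c) (t * wt θ c) := by
    funext t
    unfold Q Nl
    congr 2
    funext g
    simp only [hy]
    by_cases hg : g = c
    · subst hg; ring
    · rw [sg_ne hg]; ring
  rw [e]; exact this

variable (hpos : ∀ c, 0 < R.ν (sg c))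

include hpos in
lemma GD_ae (hx : R.T x) : ∀ᵐ θ ∂(mu Γ), ∀ h : Γ → ℝ, R.T h → R.GD (wt θ) x h := by
  rcases eq_or_lt_of_le (R.ν_nonneg hx) with h0 | h0
  · -- trivial case
    filter_upwards with θ h hh
    intro ε hε
    have hw := wt_bd θ
    have hνh := R.ν_nonneg (R.wT hw hh)
    set B := R.ν (fun g => wt θ g * h g) with hB
    have hνx : R.ν (fun g => wt θ g * x g) = 0 := by
      apply le_antisymm _ (R.ν_nonneg (R.wT hw hx))
      have := R.ν_w_le hw hx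
      rw [← h0, mul_zero] at this
      exact this
    refine ⟨ε/(2*B^2+1), by positivity, fun t ht ht0 => ?_⟩
    rw [lt_div_iff₀ (by positivity)] at ht0
    have key : ∀ s : ℝ, |s| = t → R.Q (wt θ) (fun g => x g + s * h g) ≤ t^2 * B^2 := by
      intro s hs
      have a1 := R.ν_add _ _ (R.wT hw hx) (R.wT hw (R.smulT hh s))
      have e3 : (fun g => wt θ g * x g + wt θ g * (s * h g)) = fun g => wt θ g * (x g + s * h g) := by
        funext g; ring
      have e4 : (fun g => wt θ g * (s * h g)) = fun g => s * (wt θ g * h g) := by funext g; ring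
      rw [e3, e4, R.ν_smul _ s (R.wT hw hh), hs, hνx, zero_add] at a1
      have a2 := R.ν_nonneg (R.wT hw (R.add _ _ hx (R.smulT hh s)))
      unfold Q
      have := pow_le_pow_left₀ a2 a1 2
      rw [mul_pow] at this
      exact this
    have p1 := key t (abs_of_pos ht)
    have p2 := key (-t) (by rw [abs_neg, abs_of_pos ht])
    have p3 : 0 ≤ R.Q (wt θ) (fun g => x g + 0 * h g) := R.Q_nonneg
    show R.Q (wt θ) (fun g => x g + t * h g) + R.Q (wt θ) (fun g => x g + -t * h g) - 2 * R.Q (wt θ) (fun g => x g + 0 * h g) ≤ ε * t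
    nlinarith
  · have hc := R.countable_supp_of hx hpos
    have := (ae_ball_iff hc).2 (fun c (hc : c ∈ {c : Γ | x c ≠ 0}) => R.ae_dir hx c hc)
    filter_upwards [this] with θ hθ h hh
    apply R.GD_all (wt_bd θ) hx _ hh
    intro c
    by_cases hxc : x c = 0
    · exact R.GD_off (wt_bd θ) hx h0 hxc
    · exact hθ c hxc

lemma convR_GG (hx : R.T x) (hh : R.T h) : ConvR (fun t => R.GG (fun g => x g + t * h g)) := by
  intro s t l h0 h1
  have := R.GG_convex (R.add _ _ hx (R.smulT hh s)) (R.add _ _ hx (R.smulT hh t)) h0 h1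
  have e : (fun g => (1-l)*(x g + s * h g) + l*(x g + t * h g)) = fun g => x g + ((1-l)*s+l*t) * h g := by
    funext g; ring
  rw [e] at this
  exact this

include hpos in
/-- the averaged functional is smooth -/
theorem GG_smooth (hx : R.T x) (hh : R.T h) : Sm0 (fun t => R.GG (fun g => x g + t * h g)) := by
  set φ : Om Γ → ℝ → ℝ := fun θ t => R.Q (wt θ) (fun g => x g + t * h g) with hφ
  have hA : ∀ t : ℝ, R.T (fun g => x g + t * h g) := fun t => R.add _ _ hx (R.smulT hh t)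
  have hint : ∀ t : ℝ, Integrable (fun θ => φ θ t) (mu Γ) := fun t => R.Q_int (hA t)
  have hcv : ∀ θ, ConvR (φ θ) := fun θ => R.convR_Q (wt_bd θ) hx hh
  set F : ℕ → Om Γ → ℝ := fun n θ => (φ θ (1/((n:ℝ)+1)) + φ θ (-(1/((n:ℝ)+1))) - 2 * φ θ 0) * ((n:ℝ)+1) with hF
  have hFint : ∀ n, Integrable (F n) (mu Γ) := fun n =>
    (((hint _).add (hint _)).sub ((hint 0).const_mul 2)).mul_const _
  have hF0 : ∀ n θ, 0 ≤ F n θ := by
    intro n θ
    have := (hcv θ).second_nonneg (1/((n:ℝ)+1))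
    simp only [hF]; positivity
  have hFb : ∀ n θ, F n θ ≤ 9 * (R.ν (fun g => x g + 1 * h g))^2 + 9 * (R.ν (fun g => x g + (-1) * h g))^2 := by
    intro n θ
    have hn : (0:ℝ) < 1/((n:ℝ)+1) := by positivity
    have hn1 : 1/((n:ℝ)+1) ≤ 1 := by
      rw [div_le_one (by positivity)]; have : (0:ℝ) ≤ n := by positivity
      linarith
    have h1 := (hcv θ).second_mono hn hn1
    have h2 : F n θ ≤ φ θ 1 + φ θ (-1) - 2 * φ θ 0 := by
      simp only [hF]
      have := mul_le_mul_of_nonneg_right h1 (show (0:ℝ) ≤ (n:ℝ)+1 by positivity)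
      rw [mul_one] at this
      have e : (φ θ 1 + φ θ (-1) - 2 * φ θ 0) * (1/((n:ℝ)+1)) * ((n:ℝ)+1) = φ θ 1 + φ θ (-1) - 2 * φ θ 0 := by
        field_simp
      rwa [e] at this
    have h3 : φ θ 1 ≤ 9 * (R.ν (fun g => x g + 1 * h g))^2 := R.Q_le (wt_bd θ) (hA 1)
    have h4 : φ θ (-1) ≤ 9 * (R.ν (fun g => x g + (-1) * h g))^2 := R.Q_le (wt_bd θ) (hA (-1))
    have h5 : 0 ≤ φ θ 0 := R.Q_nonneg
    linarith
  have hlim : ∀ᵐ θ ∂(mu Γ), Filter.Tendsto (fun n => F n θ) Filter.atTop (nhds 0) := by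
    filter_upwards [R.GD_ae hpos hx] with θ hθ
    have hg := hθ h hh
    rw [Metric.tendsto_atTop]
    intro ε hε
    obtain ⟨t0, ht0, hs⟩ := hg (ε/2) (by positivity)
    obtain ⟨N, hN⟩ := exists_nat_one_div_lt ht0
    refine ⟨N, fun n hn => ?_⟩
    have hnp : (0:ℝ) < 1/((n:ℝ)+1) := by positivity
    have hlt : 1/((n:ℝ)+1) < t0 := by
      refine lt_of_le_of_lt ?_ hN
      apply one_div_le_one_div_of_le (by positivity)
      have : (N:ℝ) ≤ n := by exact_mod_cast hn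
      linarith
    have h1 := hs _ hnp hlt
    rw [Real.dist_eq, sub_zero, abs_of_nonneg (hF0 n θ)]
    have h2 : F n θ ≤ ε/2 := by
      have h3 := mul_le_mul_of_nonneg_right h1 (show (0:ℝ) ≤ (n:ℝ)+1 by positivity)
      have e : ε/2 * (1/((n:ℝ)+1)) * ((n:ℝ)+1) = ε/2 := by field_simp
      rw [e] at h3
      exact h3
    linarith
  have hDCT := tendsto_integral_of_dominated_convergence (μ := mu Γ) (F := F) (f := fun _ => 0)
    (fun _ => 9 * (R.ν (fun g => x g + 1 * h g))^2 + 9 * (R.ν (fun g => x g + (-1) * h g))^2)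
    (fun n => (hFint n).aestronglyMeasurable) (integrable_const _)
    (fun n => Filter.Eventually.of_forall (fun θ => by
      rw [Real.norm_eq_abs, abs_of_nonneg (hF0 n θ)]; exact hFb n θ)) hlim
  rw [integral_zero] at hDCT
  have hFI : ∀ n : ℕ, ∫ θ, F n θ ∂(mu Γ) = (R.GG (fun g => x g + (1/((n:ℝ)+1)) * h g) +
      R.GG (fun g => x g + (-(1/((n:ℝ)+1))) * h g) - 2 * R.GG (fun g => x g + 0 * h g)) * ((n:ℝ)+1) := by
    intro n
    simp only [hF]
    rw [integral_mul_const]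
    congr 1
    have e1 : ∫ θ, (φ θ (1/((n:ℝ)+1)) + φ θ (-(1/((n:ℝ)+1))) - 2 * φ θ 0) ∂(mu Γ) =
        ∫ θ, (φ θ (1/((n:ℝ)+1)) + φ θ (-(1/((n:ℝ)+1)))) ∂(mu Γ) - ∫ θ, 2 * φ θ 0 ∂(mu Γ) :=
      integral_sub ((hint _).add (hint _)) ((hint 0).const_mul 2)
    have e2 : ∫ θ, (φ θ (1/((n:ℝ)+1)) + φ θ (-(1/((n:ℝ)+1)))) ∂(mu Γ) =
        ∫ θ, φ θ (1/((n:ℝ)+1)) ∂(mu Γ) + ∫ θ, φ θ (-(1/((n:ℝ)+1))) ∂(mu Γ) :=
      integral_add (hint _) (hint _)
    rw [e1, e2, integral_const_mul]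
    rfl
  intro ε hε
  rw [Metric.tendsto_atTop] at hDCT
  obtain ⟨n, hn⟩ := hDCT ε hε
  have hn := hn n le_rfl
  rw [Real.dist_eq, sub_zero, hFI] at hn
  have hn := lt_of_le_of_lt (le_abs_self _) hn
  have hnp : (0:ℝ) < 1/((n:ℝ)+1) := by positivity
  refine ⟨1/((n:ℝ)+1), hnp, fun t ht htn => ?_⟩
  have h1 := (R.convR_GG hx hh).second_mono ht htn.le
  have hn1 : (0:ℝ) < (n:ℝ)+1 := by positivity
  set A := R.GG (fun g => x g + t * h g) + R.GG (fun g => x g + (-t) * h g) - 2 * R.GG (fun g => x g + 0 * h g) with hAd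
  set Bn := R.GG (fun g => x g + (1/((n:ℝ)+1)) * h g) +
      R.GG (fun g => x g + (-(1/((n:ℝ)+1))) * h g) - 2 * R.GG (fun g => x g + 0 * h g) with hBn
  have h2 : A * (1/((n:ℝ)+1)) ≤ Bn * t := h1
  have h3 : A ≤ (Bn * ((n:ℝ)+1)) * t := by
    have := mul_le_mul_of_nonneg_right h2 hn1.le
    have e : A * (1/((n:ℝ)+1)) * ((n:ℝ)+1) = A := by field_simp
    rw [e] at this
    linarith
  exact le_trans h3 (mul_le_mul_of_nonneg_right hn.le ht.le)

include hpos in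
/-- transfer to a normed space -/
theorem sq_of {E : Type*} [NormedAddCommGroup E] [NormedSpace ℝ E] (J : E → Γ → ℝ)
    (hadd : ∀ x y, J (x + y) = fun g => J x g + J y g) (hsmul : ∀ (c : ℝ) x, J (c • x) = fun g => c * J x g)
    (hT : ∀ x, R.T (J x)) (hbd : ∃ a b : ℝ, 0 < a ∧ 0 < b ∧ ∀ x, a * ‖x‖ ≤ R.ν (J x) ∧ R.ν (J x) ≤ b * ‖x‖) :
    SQ (fun x : E => R.GG (J x)) := by
  obtain ⟨a, b, ha, hb, hab⟩ := hbd
  refine ⟨?_, ?_, ?_, ?_⟩
  · intro x y l h0 h1
    have := R.GG_convex (hT x) (hT y) h0 h1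
    simp only [hadd, hsmul]
    exact this
  · intro c x
    simp only [hsmul]
    exact R.GG_smul (hT x) c
  · refine ⟨a^2, 9*b^2, by positivity, by positivity, fun x => ⟨?_, ?_⟩⟩
    · have h1 := R.le_GG (hT x)
      have h2 : (a * ‖x‖)^2 ≤ (R.ν (J x))^2 := pow_le_pow_left₀ (by positivity) (hab x).1 2
      rw [mul_pow] at h2
      exact le_trans h2 h1
    · have h1 := R.GG_le (hT x)
      have h2 : (R.ν (J x))^2 ≤ (b * ‖x‖)^2 := pow_le_pow_left₀ (R.ν_nonneg (hT x)) (hab x).2 2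
      rw [mul_pow] at h2
      show R.GG (J x) ≤ 9*b^2*‖x‖^2
      linarith
  · intro x h
    have := R.GG_smooth hpos (hT x) (hT h)
    simp only [hadd, hsmul]
    exact this

end RW

end GN
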