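import Mathlib

set_option linter.unusedSectionVars false

namespace LJ

/-- the basic two-variable cost -/
noncomputable def rho (u z : ℝ) : ℝ := u^2 + z^2 + u^2*z^2/(u^2+z^2)

/-- its derivative in the first variable -/
noncomputable def rhoD (u z : ℝ) : ℝ := 2*u*(1 + (z^2/(u^2+z^2))^2)

lemma rho_zero_left (z : ℝ) : rho 0 z = z^2 := by simp [rho]
lemma rho_zero_right (u : ℝ) : rho u 0 = u^2 := by simp [rho]

lemma frac_nonneg (u z : ℝ) : 0 ≤ u^2*z^2/(u^2+z^2) := by positivity

lemma frac_le_left (u z : ℝ) : u^2*z^2/(u^2+z^2) ≤ u^2 := by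
  apply div_le_of_le_mul₀ <;> nlinarith [sq_nonneg u, sq_nonneg z, mul_nonneg (sq_nonneg u) (sq_nonneg u)]

lemma frac_le_right (u z : ℝ) : u^2*z^2/(u^2+z^2) ≤ z^2 := by
  apply div_le_of_le_mul₀ <;> nlinarith [sq_nonneg u, sq_nonneg z, mul_nonneg (sq_nonneg z) (sq_nonneg z)]

lemma rho_lb (u z : ℝ) : u^2 + z^2 ≤ rho u z := by
  have := frac_nonneg u z; unfold rho; linarith

lemma rho_nonneg (u z : ℝ) : 0 ≤ rho u z := by
  have := rho_lb u z; nlinarith [sq_nonneg u, sq_nonneg z]

lemma rho_ub1 (u z : ℝ) : rho u z ≤ 2*u^2 + z^2 := by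
  have := frac_le_left u z; unfold rho; linarith

lemma rho_ub2 (u z : ℝ) : rho u z ≤ u^2 + 2*z^2 := by
  have := frac_le_right u z; unfold rho; linarith

lemma rho_smul (c u z : ℝ) : rho (c*u) (c*z) = c^2 * rho u z := by
  unfold rho
  rcases eq_or_ne c 0 with rfl | hc
  · simp
  · have : (c*u)^2*(c*z)^2/((c*u)^2+(c*z)^2) = c^2 * (u^2*z^2/(u^2+z^2)) := by
      have h1 : (c*u)^2*(c*z)^2 = c^2 * (c^2 * (u^2*z^2)) := by ring
      have h2 : (c*u)^2+(c*z)^2 = c^2 * (u^2+z^2) := by ring
      rw [h1, h2, mul_div_mul_left _ _ (pow_ne_zero 2 hc), mul_div_assoc]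
    rw [this]; ring

lemma rho_q_le (s u z : ℝ) : (1 - s^2)*(u^2+z^2) + 2*s*u*z ≤ rho u z := by
  unfold rho
  rcases eq_or_ne (u^2+z^2) 0 with h | h
  · have hu : u = 0 := by nlinarith [sq_nonneg u, sq_nonneg z]
    have hz : z = 0 := by nlinarith [sq_nonneg u, sq_nonneg z]
    subst hu; subst hz; simp
  · have hp : 0 < u^2+z^2 := lt_of_le_of_ne (by positivity) (Ne.symm h)
    have : -s^2*(u^2+z^2) + 2*s*u*z ≤ u^2*z^2/(u^2+z^2) := by
      rw [le_div_iff₀ hp]
      nlinarith [sq_nonneg (s*(u^2+z^2) - u*z)]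
    linarith

lemma rho_q_eq (u z : ℝ) : ∃ s : ℝ, |s| ≤ 1/2 ∧ rho u z = (1 - s^2)*(u^2+z^2) + 2*s*u*z := by
  rcases eq_or_ne (u^2+z^2) 0 with h | h
  · have hu : u = 0 := by nlinarith [sq_nonneg u, sq_nonneg z]
    have hz : z = 0 := by nlinarith [sq_nonneg u, sq_nonneg z]
    subst hu; subst hz
    exact ⟨0, by norm_num, by simp [rho]⟩
  · have hp : 0 < u^2+z^2 := lt_of_le_of_ne (by positivity) (Ne.symm h)
    refine ⟨u*z/(u^2+z^2), ?_, ?_⟩
    · rw [abs_div, abs_of_pos hp, div_le_iff₀ hp, abs_le]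
      constructor <;> nlinarith [sq_nonneg (u-z), sq_nonneg (u+z)]
    · unfold rho
      field_simp
      ring

/-- convexity of rho -/
lemma rho_convex (u z u' z' l : ℝ) (h0 : 0 ≤ l) (h1 : l ≤ 1) :
    rho ((1-l)*u + l*u') ((1-l)*z + l*z') ≤ (1-l)*rho u z + l*rho u' z' := by
  obtain ⟨s, hs, he⟩ := rho_q_eq ((1-l)*u + l*u') ((1-l)*z + l*z')
  rw [he]
  have hb := abs_le.1 hs
  have key : (1 - s^2)*(((1-l)*u + l*u')^2+((1-l)*z + l*z')^2) + 2*s*((1-l)*u + l*u')*((1-l)*z + l*z')
      ≤ (1-l)*((1 - s^2)*(u^2+z^2) + 2*s*u*z) + l*((1 - s^2)*(u'^2+z'^2) + 2*s*u'*z') := by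
    have hq : 0 ≤ (1-s^2)*((u-u')^2+(z-z')^2) + 2*s*(u-u')*(z-z') := by
      nlinarith [sq_nonneg ((u-u')+(z-z')), sq_nonneg ((u-u')-(z-z')), sq_nonneg (u-u'), sq_nonneg (z-z'),
        mul_nonneg (by linarith [hb.1] : (0:ℝ) ≤ s + 1/2) (sq_nonneg ((u-u')+(z-z'))),
        mul_nonneg (by linarith [hb.2] : (0:ℝ) ≤ 1/2 - s) (sq_nonneg ((u-u')-(z-z'))),
        mul_nonneg (mul_nonneg (by linarith [hb.1] : (0:ℝ) ≤ s + 1/2) (by linarith [hb.2] : (0:ℝ) ≤ 1/2 - s)) (sq_nonneg (u-u')),
        mul_nonneg (mul_nonneg (by linarith [hb.1] : (0:ℝ) ≤ s + 1/2) (by linarith [hb.2] : (0:ℝ) ≤ 1/2 - s)) (sq_nonneg (z-z'))]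
    have hll : 0 ≤ l*(1-l) := mul_nonneg h0 (by linarith)
    nlinarith [mul_nonneg hll hq]
  have := rho_q_le s u z
  have := rho_q_le s u' z'
  nlinarith

/-- upper Taylor estimate -/
lemma rho_taylor (u z t : ℝ) : rho (u+t) z ≤ rho u z + t * rhoD u z + 2*t^2 := by
  -- inf representation with r = z^2/(u^2+z^2)
  have hinf : ∀ r v : ℝ, rho v z ≤ v^2 + 2*z^2 + r^2*(v^2+z^2) - 2*r*z^2 := by
    intro r v
    unfold rho
    rcases eq_or_ne (v^2+z^2) 0 with h | h
    · have hu : v = 0 := by nlinarith [sq_nonneg v, sq_nonneg z]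
      have hz : z = 0 := by nlinarith [sq_nonneg v, sq_nonneg z]
      subst hu; subst hz; simp
    · have hp : 0 < v^2+z^2 := lt_of_le_of_ne (by positivity) (Ne.symm h)
      have : v^2*z^2/(v^2+z^2) ≤ z^2 + r^2*(v^2+z^2) - 2*r*z^2 := by
        rw [div_le_iff₀ hp]
        nlinarith [sq_nonneg (r*(v^2+z^2) - z^2)]
      linarith
  rcases eq_or_ne (u^2+z^2) 0 with h | h
  · have hu : u = 0 := by nlinarith [sq_nonneg u, sq_nonneg z]
    have hz : z = 0 := by nlinarith [sq_nonneg u, sq_nonneg z]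
    subst hu; subst hz; simp [rho, rhoD]; nlinarith [sq_nonneg t]
  · have hp : 0 < u^2+z^2 := lt_of_le_of_ne (by positivity) (Ne.symm h)
    set r := z^2/(u^2+z^2) with hr
    have h1 := hinf r (u+t)
    have h2 : rho u z = u^2 + 2*z^2 + r^2*(u^2+z^2) - 2*r*z^2 := by
      have hrz : r*(u^2+z^2) = z^2 := by rw [hr]; field_simp
      have : u^2*z^2/(u^2+z^2) = z^2 - r*z^2 := by
        rw [hr]; field_simp; ring
      unfold rho
      rw [this]
      nlinarith
    have hr1 : r^2 ≤ 1 := by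
      have h0 : 0 ≤ r := by rw [hr]; positivity
      have h1 : r ≤ 1 := by rw [hr, div_le_one hp]; nlinarith [sq_nonneg u]
      nlinarith
    unfold rhoD
    rw [← hr]
    nlinarith [sq_nonneg t, mul_nonneg (sub_nonneg.2 hr1) (sq_nonneg t)]

lemma abs_rhoD (u z : ℝ) : |rhoD u z| ≤ 4*|u| := by
  unfold rhoD
  rw [abs_mul, abs_mul]
  have h0 : 0 ≤ z^2/(u^2+z^2) := by positivity
  have h1 : z^2/(u^2+z^2) ≤ 1 := by
    rcases eq_or_ne (u^2+z^2) 0 with h | h
    · rw [h]; simp
    · have hp : 0 < u^2+z^2 := lt_of_le_of_ne (by positivity) (Ne.symm h)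
      rw [div_le_one hp]; nlinarith [sq_nonneg u]
  have h2 : |1 + (z^2/(u^2+z^2))^2| ≤ 2 := by
    rw [abs_of_nonneg (by positivity)]; nlinarith
  have : |(2:ℝ)| = 2 := by norm_num
  rw [this]
  nlinarith [abs_nonneg u, mul_le_mul_of_nonneg_left h2 (by positivity : (0:ℝ) ≤ 2*|u|)]

/-- Lipschitz-type lower estimate -/
lemma rho_shift (u t z : ℝ) : rho u z ≤ rho (u+t) z + 4 * (|u+t| * |t|) + 2*t^2 := by
  have h := rho_taylor (u+t) z (-t)
  have h1 : u + t + -t = u := by ring
  rw [h1] at h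
  have h2 : -t * rhoD (u+t) z ≤ |t| * (4*|u+t|) := by
    calc -t * rhoD (u+t) z ≤ |-t * rhoD (u+t) z| := le_abs_self _
      _ = |t| * |rhoD (u+t) z| := by rw [abs_mul, abs_neg]
      _ ≤ |t| * (4*|u+t|) := mul_le_mul_of_nonneg_left (abs_rhoD _ _) (abs_nonneg _)
  nlinarith

lemma rho_comm (u z : ℝ) : rho u z = rho z u := by
  unfold rho
  rw [mul_comm (u^2) (z^2), add_comm (u^2) (z^2)]

/-- the fraction is monotone in both squares -/
lemma frac_mono {a b a' b' : ℝ} (ha : 0 ≤ a) (hb : 0 ≤ b) (haa : a ≤ a') (hbb : b ≤ b') :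
    a*b/(a+b) ≤ a'*b'/(a'+b') := by
  rcases eq_or_lt_of_le (add_nonneg ha hb) with h | h
  · rw [← h, div_zero]
    have : 0 ≤ a' := le_trans ha haa
    have : 0 ≤ b' := le_trans hb hbb
    positivity
  · have h' : 0 < a'+b' := by linarith
    rw [div_le_div_iff₀ h h']
    have : 0 ≤ (a'-a) := by linarith
    have : 0 ≤ (b'-b) := by linarith
    nlinarith [mul_nonneg (mul_nonneg ‹0 ≤ a'-a› hb) hb, mul_nonneg (mul_nonneg ‹0 ≤ b'-b› ha) ha,
      mul_nonneg (mul_nonneg ‹0 ≤ a'-a› ‹0 ≤ b'-b›) ha, mul_nonneg (mul_nonneg ‹0 ≤ a'-a› ‹0 ≤ b'-b›) hb,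
      mul_nonneg ha hb, mul_nonneg (mul_nonneg ha hb) ‹0 ≤ a'-a›, mul_nonneg (mul_nonneg ha hb) ‹0 ≤ b'-b›]

lemma rho_mono_z (u : ℝ) {z z' : ℝ} (h : z^2 ≤ z'^2) : rho u z + (z'^2 - z^2) ≤ rho u z' := by
  have := frac_mono (sq_nonneg u) (sq_nonneg z) le_rfl h
  unfold rho; linarith

lemma rho_gain {u z η : ℝ} (hη : 0 ≤ η) (h : η ≤ |u|) :
    u^2 + z^2 + η^2*z^2/(η^2+z^2) ≤ rho u z := by
  have h2 : η^2 ≤ u^2 := by
    have := mul_self_le_mul_self hη h
    rw [← sq, ← sq, sq_abs] at this; exact this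
  have := frac_mono (sq_nonneg η) (sq_nonneg z) h2 le_rfl
  unfold rho; linarith


section Chains
variable {X : Type*} [LinearOrder X]

/-- cost of the gaps of the path a :: l -/
noncomputable def seg (f y : X → ℝ) : X → List X → ℝ
  | _, [] => 0
  | a, b :: l => rho (f b - f a) (y b) + seg f y b l

/-- sum of the squares of the increments along a :: l -/
noncomputable def vs (f : X → ℝ) : X → List X → ℝ
  | _, [] => 0
  | a, b :: l => (f b - f a)^2 + vs f b l

/-- sum of the squares of y along a list -/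
noncomputable def ys (y : X → ℝ) : List X → ℝ
  | [] => 0
  | b :: l => (y b)^2 + ys y l

/-- everything that is paid after the point a -/
noncomputable def tl (f y : X → ℝ) : X → List X → ℝ
  | a, [] => 4 * (f a)^2
  | a, b :: l => rho (f b - f a) (y b) + tl f y b l

/-- total cost of a chain -/
noncomputable def cost (f y : X → ℝ) : List X → ℝ
  | [] => 0
  | a :: l => (y a)^2 + tl f y a l

/-- everything that is paid up to the point c, when the points of P come before c -/
noncomputable def pre (f y : X → ℝ) (c : X) : List X → ℝ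
  | [] => (y c)^2
  | x :: P => (y x)^2 + seg f y x (P ++ [c])

lemma seg_nonneg (f y : X → ℝ) (l : List X) : ∀ a, 0 ≤ seg f y a l := by
  induction l with
  | nil => intro a; simp [seg]
  | cons b l ih => intro a; simp only [seg]; have := ih b; have := rho_nonneg (f b - f a) (y b); linarith

lemma vs_nonneg (f : X → ℝ) (l : List X) : ∀ a, 0 ≤ vs f a l := by
  induction l with
  | nil => intro a; simp [vs]
  | cons b l ih => intro a; simp only [vs]; have := ih b; positivity

lemma ys_nonneg (y : X → ℝ) (l : List X) : 0 ≤ ys y l := by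
  induction l with
  | nil => simp [ys]
  | cons b l ih => simp only [ys]; positivity

lemma tl_nonneg (f y : X → ℝ) (l : List X) : ∀ a, 0 ≤ tl f y a l := by
  induction l with
  | nil => intro a; simp only [tl]; positivity
  | cons b l ih => intro a; simp only [tl]; have := ih b; have := rho_nonneg (f b - f a) (y b); linarith

lemma cost_nonneg (f y : X → ℝ) (l : List X) : 0 ≤ cost f y l := by
  cases l with
  | nil => simp [cost]
  | cons a l => simp only [cost]; have := tl_nonneg f y l a; positivity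

lemma seg_append (f y : X → ℝ) (s : List X) : ∀ a b t,
    seg f y a (s ++ b :: t) = seg f y a (s ++ [b]) + seg f y b t := by
  induction s with
  | nil => intro a b t; simp [seg]
  | cons x s ih => intro a b t; simp only [List.cons_append, seg]; rw [ih]; ring

lemma tl_append (f y : X → ℝ) (s : List X) : ∀ a b t,
    tl f y a (s ++ b :: t) = seg f y a (s ++ [b]) + tl f y b t := by
  induction s with
  | nil => intro a b t; simp [seg, tl]
  | cons x s ih => intro a b t; simp only [List.cons_append, seg, tl]; rw [ih]; ring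

lemma vs_append (f : X → ℝ) (s : List X) : ∀ a b t,
    vs f a (s ++ b :: t) = vs f a (s ++ [b]) + vs f b t := by
  induction s with
  | nil => intro a b t; simp [vs]
  | cons x s ih => intro a b t; simp only [List.cons_append, vs]; rw [ih]; ring

lemma ys_append (y : X → ℝ) (s t : List X) : ys y (s ++ t) = ys y s + ys y t := by
  induction s with
  | nil => simp [ys]
  | cons x s ih => simp only [List.cons_append, ys]; rw [ih]; ring

lemma cost_append (f y : X → ℝ) (P : List X) (c : X) (Q : List X) :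
    cost f y (P ++ c :: Q) = pre f y c P + tl f y c Q := by
  cases P with
  | nil => simp [cost, pre]
  | cons x P => simp only [List.cons_append, cost, pre]; rw [tl_append]; ring

lemma pre_snoc (f y : X → ℝ) (P : List X) (x c : X) :
    pre f y c (P ++ [x]) = pre f y x P + rho (f c - f x) (y c) := by
  cases P with
  | nil => simp [pre, seg]
  | cons z P =>
    simp only [List.cons_append, pre]
    rw [List.append_assoc, List.singleton_append, seg_append]
    simp only [seg]; ring

lemma pre_nonneg (f y : X → ℝ) (P : List X) (c : X) : 0 ≤ pre f y c P := by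
  cases P with
  | nil => simp only [pre]; positivity
  | cons z P => simp only [pre]; have := seg_nonneg f y (P ++ [c]) z; positivity

lemma seg_le (f y : X → ℝ) (l : List X) : ∀ a, seg f y a l ≤ 2 * vs f a l + ys y l := by
  induction l with
  | nil => intro a; simp [seg, vs, ys]
  | cons b l ih =>
    intro a; simp only [seg, vs, ys]
    have := ih b; have := rho_ub1 (f b - f a) (y b); linarith

lemma vs_le_seg (f y : X → ℝ) (l : List X) : ∀ a, vs f a l ≤ seg f y a l := by
  induction l with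
  | nil => intro a; simp [seg, vs]
  | cons b l ih =>
    intro a; simp only [seg, vs]
    have := ih b; have := rho_lb (f b - f a) (y b); nlinarith [sq_nonneg (y b)]

/-- splitting an increasing list at a threshold -/
lemma split_le (c : X) : ∀ l : List X, l.Pairwise (· < ·) →
    ∃ l1 l2, l = l1 ++ l2 ∧ (∀ x ∈ l1, x ≤ c) ∧ (∀ x ∈ l2, c < x) := by
  intro l
  induction l with
  | nil => intro _; exact ⟨[], [], rfl, by simp, by simp⟩
  | cons a l ih =>
    intro h
    obtain ⟨h1, h2⟩ := List.pairwise_cons.1 h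
    by_cases hac : a ≤ c
    · obtain ⟨l1, l2, e, ha, hb⟩ := ih h2
      refine ⟨a :: l1, l2, by rw [e]; rfl, ?_, hb⟩
      intro x hx
      rcases List.mem_cons.1 hx with rfl | hx
      · exact hac
      · exact ha x hx
    · refine ⟨[], a :: l, rfl, by simp, ?_⟩
      intro x hx
      rcases List.mem_cons.1 hx with rfl | hx
      · exact not_le.1 hac
      · exact lt_trans (not_le.1 hac) (h1 x hx)

lemma split_lt (c : X) : ∀ l : List X, l.Pairwise (· < ·) →
    ∃ l1 l2, l = l1 ++ l2 ∧ (∀ x ∈ l1, x < c) ∧ (∀ x ∈ l2, c ≤ x) := by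
  intro l
  induction l with
  | nil => intro _; exact ⟨[], [], rfl, by simp, by simp⟩
  | cons a l ih =>
    intro h
    obtain ⟨h1, h2⟩ := List.pairwise_cons.1 h
    by_cases hac : a < c
    · obtain ⟨l1, l2, e, ha, hb⟩ := ih h2
      refine ⟨a :: l1, l2, by rw [e]; rfl, ?_, hb⟩
      intro x hx
      rcases List.mem_cons.1 hx with rfl | hx
      · exact hac
      · exact ha x hx
    · refine ⟨[], a :: l, rfl, by simp, ?_⟩
      intro x hx
      rcases List.mem_cons.1 hx with rfl | hx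
      · exact not_lt.1 hac
      · exact le_trans (not_lt.1 hac) (h1 x hx).le

/-- a weakly increasing list can be thinned out to a strictly increasing one -/
lemma weak_to_strict (f : X → ℝ) : ∀ (l : List X) (a : X), (a :: l).Pairwise (· ≤ ·) →
    ∃ l' : List X, (a :: l').Pairwise (· < ·) ∧ (∀ x ∈ l', x ∈ l) ∧ vs f a l' = vs f a l := by
  intro l
  induction l with
  | nil => intro a _; exact ⟨[], by simp, by simp, rfl⟩
  | cons b l ih =>
    intro a h
    obtain ⟨h1, h2⟩ := List.pairwise_cons.1 h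
    obtain ⟨l', h3, h4, h5⟩ := ih b h2
    rcases eq_or_lt_of_le (h1 b (by simp)) with rfl | hab
    · exact ⟨l', h3, fun x hx => List.mem_cons_of_mem _ (h4 x hx), by simp [vs, h5]⟩
    · refine ⟨b :: l', ?_, ?_, by simp only [vs]; rw [h5]⟩
      · rw [List.pairwise_cons]
        refine ⟨?_, h3⟩
        intro x hx
        rcases List.mem_cons.1 hx with rfl | hx
        · exact hab
        · exact lt_trans hab ((List.pairwise_cons.1 h3).1 x hx)
      · intro x hx
        rcases List.mem_cons.1 hx with rfl | hx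
        · simp
        · exact List.mem_cons_of_mem _ (h4 x hx)

lemma vs_map (f : X → ℝ) (g : X → X) : ∀ (l : List X) (a : X),
    vs (fun x => f (g x)) a l = vs f (g a) (l.map g) := by
  intro l
  induction l with
  | nil => intro a; simp [vs]
  | cons b l ih => intro a; simp only [vs, List.map_cons]; rw [ih]

lemma vs_congr (f g : X → ℝ) : ∀ (l : List X) (a : X), f a = g a → (∀ x ∈ l, f x = g x) →
    vs f a l = vs g a l := by
  intro l
  induction l with
  | nil => intro a _ _; simp [vs]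
  | cons b l ih =>
    intro a ha hl; simp only [vs]
    rw [ha, hl b (by simp), ih b (hl b (by simp)) (fun x hx => hl x (List.mem_cons_of_mem _ hx))]

end Chains

end LJ
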