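import Pool.Agent.Helper937.James9

set_option linter.unusedSectionVars false
set_option linter.unusedVariables false

namespace LJ

/-- convexity of a real function -/
def ConvR (φ : ℝ → ℝ) : Prop := ∀ x y l : ℝ, 0 ≤ l → l ≤ 1 → φ ((1-l)*x + l*y) ≤ (1-l)*φ x + l*φ y

lemma ConvR.second_nonneg {φ : ℝ → ℝ} (h : ConvR φ) (t : ℝ) : 0 ≤ φ t + φ (-t) - 2*φ 0 := by
  have := h t (-t) (1/2) (by norm_num) (by norm_num)
  have e : (1-(1/2:ℝ))*t + (1/2)*(-t) = 0 := by ring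
  rw [e] at this
  linarith

lemma ConvR.second_mono {φ : ℝ → ℝ} (h : ConvR φ) {s t : ℝ} (hs : 0 < s) (hst : s ≤ t) :
    (φ s + φ (-s) - 2*φ 0) * t ≤ (φ t + φ (-t) - 2*φ 0) * s := by
  have ht : 0 < t := lt_of_lt_of_le hs hst
  have h1 := h 0 t (s/t) (by positivity) (by rw [div_le_one ht]; exact hst)
  have h2 := h 0 (-t) (s/t) (by positivity) (by rw [div_le_one ht]; exact hst)
  have e1 : (1-s/t)*0 + s/t*t = s := by field_simp; ring
  have e2 : (1-s/t)*0 + s/t*(-t) = -s := by field_simp; ring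
  rw [e1] at h1
  rw [e2] at h2
  have h3 : φ s + φ (-s) - 2*φ 0 ≤ (φ t + φ (-t) - 2*φ 0) * (s/t) := by linarith
  calc (φ s + φ (-s) - 2*φ 0) * t ≤ ((φ t + φ (-t) - 2*φ 0) * (s/t)) * t :=
        mul_le_mul_of_nonneg_right h3 ht.le
    _ = _ := by field_simp

lemma ConvR.slopes {φ : ℝ → ℝ} (h : ConvR φ) {s t : ℝ} (hs : 0 < s) (ht : 0 < t) :
    (φ 0 - φ (-s))/s ≤ (φ t - φ 0)/t := by
  have h1 := h (-s) t (s/(s+t)) (by positivity) (by rw [div_le_one (by positivity)]; linarith)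
  have e : (1-s/(s+t))*(-s) + s/(s+t)*t = 0 := by field_simp; ring
  rw [e] at h1
  have hst : 0 < s + t := by positivity
  have h2 : (s+t)*φ 0 ≤ t*φ (-s) + s*φ t := by
    have := mul_le_mul_of_nonneg_left h1 hst.le
    have e2 : (s+t)*((1-s/(s+t))*φ (-s) + s/(s+t)*φ t) = t*φ (-s) + s*φ t := by field_simp; ring
    rwa [e2] at this
  rw [div_le_div_iff₀ hs ht]
  linarith

lemma ConvR.hasDeriv {φ : ℝ → ℝ} (h : ConvR φ) (hs : Sm0 φ) : ∃ d, HasDerivAt φ d 0 := by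
  set S := {v : ℝ | ∃ s : ℝ, 0 < s ∧ v = (φ 0 - φ (-s))/s} with hS
  have hne : S.Nonempty := ⟨_, 1, one_pos, rfl⟩
  have hub : ∀ t, 0 < t → ∀ v ∈ S, v ≤ (φ t - φ 0)/t := by
    rintro t ht v ⟨s, hs, rfl⟩; exact h.slopes hs ht
  have hbdd : BddAbove S := ⟨_, hub 1 one_pos⟩
  set d := sSup S with hd
  have h1 : ∀ t, 0 < t → d * t ≤ φ t - φ 0 := by
    intro t ht
    have : d ≤ (φ t - φ 0)/t := csSup_le hne (hub t ht)
    rwa [le_div_iff₀ ht] at this
  have h2 : ∀ t, 0 < t → φ 0 - φ (-t) ≤ d * t := by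
    intro t ht
    have : (φ 0 - φ (-t))/t ≤ d := le_csSup hbdd ⟨t, ht, rfl⟩
    rwa [div_le_iff₀ ht] at this
  refine ⟨d, ?_⟩
  rw [hasDerivAt_iff_isLittleO_nhds_zero, Asymptotics.isLittleO_iff]
  intro ε hε
  obtain ⟨t0, ht0, h3⟩ := hs ε hε
  filter_upwards [Metric.ball_mem_nhds (0:ℝ) ht0] with x hx
  rw [Metric.mem_ball, dist_zero_right, Real.norm_eq_abs] at hx
  simp only [zero_add, smul_eq_mul, Real.norm_eq_abs]
  rcases lt_trichotomy x 0 with hx0 | hx0 | hx0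
  · have hxp : 0 < -x := by linarith
    rw [abs_of_neg hx0] at hx ⊢
    have a1 := h1 (-x) hxp
    have a2 := h2 (-x) hxp
    have a3 := h3 (-x) hxp hx
    rw [neg_neg] at a2 a3
    rw [abs_le]; constructor <;> nlinarith
  · subst hx0; simp
  · rw [abs_of_pos hx0] at hx ⊢
    have a1 := h1 x hx0
    have a2 := h2 x hx0
    have a3 := h3 x hx0 hx
    rw [abs_le]; constructor <;> nlinarith

/-- from (1+κ), (1+1/κ) inequalities to the triangle inequality of the square root -/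
lemma sqrt_triangle {A B C : ℝ} (hA : 0 ≤ A) (hB : 0 ≤ B)
    (h : ∀ κ : ℝ, 0 < κ → C ≤ (1+κ)*A + (1+κ⁻¹)*B) : Real.sqrt C ≤ Real.sqrt A + Real.sqrt B := by
  rw [Real.sqrt_le_left (by positivity)]
  have hsA := Real.sq_sqrt hA
  have hsB := Real.sq_sqrt hB
  have a0 := Real.sqrt_nonneg A
  have b0 := Real.sqrt_nonneg B
  set a := Real.sqrt A
  set b := Real.sqrt B
  apply le_of_forall_pos_le_add
  intro ε hε
  -- perturb
  set δ := min 1 (ε/(4*(a+b+1))) with hδ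
  have hδp : 0 < δ := by positivity
  have hδ1 : δ ≤ 1 := min_le_left _ _
  have hδ2 : δ * (4*(a+b+1)) ≤ ε := by
    have := min_le_right 1 (ε/(4*(a+b+1)))
    rw [← hδ, le_div_iff₀ (by positivity)] at this
    exact this
  have ha : 0 < a + δ := by positivity
  have hb : 0 < b + δ := by positivity
  have := h ((b+δ)/(a+δ)) (by positivity)
  have h1 : (1 + (b+δ)/(a+δ)) * A ≤ (1 + (b+δ)/(a+δ)) * (a+δ)^2 := by
    apply mul_le_mul_of_nonneg_left _ (by positivity)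
    rw [← hsA]; nlinarith
  have h2 : (1 + ((b+δ)/(a+δ))⁻¹) * B ≤ (1 + ((b+δ)/(a+δ))⁻¹) * (b+δ)^2 := by
    apply mul_le_mul_of_nonneg_left _ (by positivity)
    rw [← hsB]; nlinarith
  have h3 : (1 + (b+δ)/(a+δ)) * (a+δ)^2 + (1 + ((b+δ)/(a+δ))⁻¹) * (b+δ)^2 = (a+b+2*δ)^2 := by
    field_simp; ring
  have h4 : (a+b+2*δ)^2 ≤ (a+b)^2 + ε := by nlinarith
  linarith

section Abs
variable {E : Type*} [NormedAddCommGroup E] [NormedSpace ℝ E]

/-- Gateaux differentiability of a real function on a normed space, at a point: there is a bounded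
linear functional giving all directional derivatives -/
def GateauxDiffAt (F : E → ℝ) (x : E) : Prop :=
  ∃ L : E →L[ℝ] ℝ, ∀ h : E, HasDerivAt (fun t : ℝ => F (x + t • h)) (L h) 0

/-- equivalent norms -/
structure IsEquivNorm (N : E → ℝ) : Prop where
  add_le : ∀ x y, N (x + y) ≤ N x + N y
  smul : ∀ (c : ℝ) (x : E), N (c • x) = |c| * N x
  equiv : ∃ c C : ℝ, 0 < c ∧ 0 < C ∧ ∀ x, c * ‖x‖ ≤ N x ∧ N x ≤ C * ‖x‖

/-- hypotheses on the square of the norm -/
structure SQ (Q : E → ℝ) : Prop where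
  conv : ∀ x y : E, ∀ l : ℝ, 0 ≤ l → l ≤ 1 → Q ((1-l) • x + l • y) ≤ (1-l) * Q x + l * Q y
  hom : ∀ (c : ℝ) (x : E), Q (c • x) = c^2 * Q x
  bd : ∃ c C : ℝ, 0 < c ∧ 0 < C ∧ ∀ x, c * ‖x‖^2 ≤ Q x ∧ Q x ≤ C * ‖x‖^2
  sm : ∀ x h : E, Sm0 (fun t => Q (x + t • h))

variable {Q : E → ℝ}

lemma SQ.nonneg (hQ : SQ Q) (x : E) : 0 ≤ Q x := by
  obtain ⟨c, C, hc, _, h⟩ := hQ.bd
  exact le_trans (by positivity) (h x).1

lemma SQ.add_kappa (hQ : SQ Q) (x y : E) {κ : ℝ} (hκ : 0 < κ) :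
    Q (x + y) ≤ (1+κ) * Q x + (1+κ⁻¹) * Q y := by
  set l := κ/(1+κ) with hl
  have h1 : 1 - l = 1/(1+κ) := by rw [hl]; field_simp; ring
  have h1p : 0 < 1 + κ := by linarith
  have h0 : 0 < l := by positivity
  have h1' : 0 < 1 - l := by rw [h1]; positivity
  have := hQ.conv ((1-l)⁻¹ • x) (l⁻¹ • y) l h0.le (by linarith)
  rw [hQ.hom, hQ.hom, smul_inv_smul₀ h1'.ne', smul_inv_smul₀ h0.ne'] at this
  have e1 : (1-l) * ((1-l)⁻¹^2 * Q x) = (1+κ) * Q x := by
    rw [h1]; field_simp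
  have e2 : l * (l⁻¹^2 * Q y) = (1+κ⁻¹) * Q y := by
    rw [hl]; field_simp; ring
  rw [e1, e2] at this
  exact this

lemma SQ.sqrt_add (hQ : SQ Q) (x y : E) : Real.sqrt (Q (x+y)) ≤ Real.sqrt (Q x) + Real.sqrt (Q y) :=
  sqrt_triangle (hQ.nonneg x) (hQ.nonneg y) (fun κ hκ => hQ.add_kappa x y hκ)

lemma SQ.sqrt_smul (hQ : SQ Q) (c : ℝ) (x : E) : Real.sqrt (Q (c • x)) = |c| * Real.sqrt (Q x) := by
  rw [hQ.hom, Real.sqrt_mul (sq_nonneg c), Real.sqrt_sq_eq_abs]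

lemma SQ.convR (hQ : SQ Q) (x h : E) : ConvR (fun t => Q (x + t • h)) := by
  intro s t l h0 h1
  have := hQ.conv (x + s • h) (x + t • h) l h0 h1
  have e : (1-l) • (x + s • h) + l • (x + t • h) = x + ((1-l)*s + l*t) • h := by module
  rw [e] at this
  exact this

lemma SQ.hasDeriv (hQ : SQ Q) (x h : E) : ∃ d, HasDerivAt (fun t : ℝ => Q (x + t • h)) d 0 :=
  (hQ.convR x h).hasDeriv (hQ.sm x h)

lemma deriv_le_of {φ : ℝ → ℝ} {d C D : ℝ} (h : HasDerivAt φ d 0) (hb : ∀ t, 0 < t → φ t ≤ φ 0 + C*t + D*t^2) : d ≤ C := by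
  by_contra hc
  push Not at hc
  have ho := hasDerivAt_iff_isLittleO_nhds_zero.1 h
  rw [Asymptotics.isLittleO_iff] at ho
  have := ho (show 0 < (d-C)/2 by linarith)
  rw [Metric.eventually_nhds_iff] at this
  obtain ⟨e, he, h2⟩ := this
  set t := min (e/2) ((d-C)/(4*(|D|+1))) with ht
  have htp : 0 < t := by
    apply lt_min (by positivity)
    apply div_pos (by linarith) (by positivity)
  have h3 := @h2 t (by
    rw [dist_zero_right, Real.norm_eq_abs, abs_of_pos htp]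
    have := min_le_left (e/2) ((d-C)/(4*(|D|+1)))
    linarith)
  simp only [zero_add, smul_eq_mul, Real.norm_eq_abs, abs_of_pos htp] at h3
  have h4 := (abs_le.1 h3).1
  have h5 := hb t htp
  have h6 : t * (4*(|D|+1)) ≤ d - C := by
    have := min_le_right (e/2) ((d-C)/(4*(|D|+1)))
    rw [← ht, le_div_iff₀ (by positivity)] at this
    exact this
  have h7 := le_abs_self D
  nlinarith [mul_pos htp htp, abs_nonneg D]

/-- the derivative of Q -/
noncomputable def SQ.D (hQ : SQ Q) (x h : E) : ℝ := (hQ.hasDeriv x h).choose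

lemma SQ.D_spec (hQ : SQ Q) (x h : E) : HasDerivAt (fun t : ℝ => Q (x + t • h)) (hQ.D x h) 0 :=
  (hQ.hasDeriv x h).choose_spec

lemma SQ.D_smul (hQ : SQ Q) (x h : E) (c : ℝ) : hQ.D x (c • h) = c * hQ.D x h := by
  have h1 := hQ.D_spec x (c • h)
  have h2 := hQ.D_spec x h
  have h3 : HasDerivAt (fun t : ℝ => t * c) c 0 := by
    simpa using (hasDerivAt_id (0:ℝ)).mul_const c
  have h4 : HasDerivAt (fun t : ℝ => Q (x + t • h)) (hQ.D x h) ((fun t : ℝ => t * c) 0) := by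
    simpa using h2
  have h5 := h4.comp (0:ℝ) h3
  have e : ((fun t : ℝ => Q (x + t • h)) ∘ fun t : ℝ => t * c) = fun t : ℝ => Q (x + t • (c • h)) := by
    funext t; simp [smul_smul]
  rw [e] at h5
  rw [h1.unique h5]; ring

lemma SQ.D_add_le (hQ : SQ Q) (x h k : E) : hQ.D x (h + k) ≤ hQ.D x h + hQ.D x k := by
  have h1 := hQ.D_spec x (h + k)
  have h2 := hQ.D_spec x ((2:ℝ) • h)
  have h3 := hQ.D_spec x ((2:ℝ) • k)
  rw [hQ.D_smul] at h2 h3
  have h4 := h1.sub ((h2.add h3).mul_const (1/2))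
  have : hQ.D x (h+k) - (2 * hQ.D x h + 2 * hQ.D x k) * (1/2) ≤ 0 := by
    apply deriv_le_of h4 (C := 0) (D := 0)
    intro t ht
    simp only [Pi.add_apply, Pi.sub_apply, zero_smul, add_zero]
    have := hQ.conv (x + t • (2:ℝ) • h) (x + t • (2:ℝ) • k) (1/2) (by norm_num) (by norm_num)
    have e : (1-(1/2:ℝ)) • (x + t • (2:ℝ) • h) + (1/2:ℝ) • (x + t • (2:ℝ) • k) = x + t • (h + k) := by module
    rw [e] at this
    linarith
  linarith

lemma SQ.D_add (hQ : SQ Q) (x h k : E) : hQ.D x (h + k) = hQ.D x h + hQ.D x k := by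
  apply le_antisymm (hQ.D_add_le x h k)
  have h1 := hQ.D_add_le x (h + k) ((-1:ℝ) • k)
  rw [hQ.D_smul] at h1
  have e : h + k + (-1:ℝ) • k = h := by module
  rw [e] at h1
  linarith

lemma SQ.D_bound (hQ : SQ Q) (x h : E) : hQ.D x h ≤ 2 * Real.sqrt (Q x) * Real.sqrt (Q h) := by
  apply deriv_le_of (hQ.D_spec x h) (D := Q h)
  intro t ht
  have h1 := hQ.sqrt_add x (t • h)
  rw [hQ.sqrt_smul, abs_of_pos ht] at h1
  have h2 := Real.sq_sqrt (hQ.nonneg x)
  have h3 := Real.sq_sqrt (hQ.nonneg h)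
  have h4 := Real.sq_sqrt (hQ.nonneg (x + t • h))
  have h5 := Real.sqrt_nonneg (Q (x + t • h))
  simp only [zero_smul, add_zero]
  have h6 : Real.sqrt (Q (x + t • h))^2 ≤ (Real.sqrt (Q x) + t * Real.sqrt (Q h))^2 :=
    pow_le_pow_left₀ h5 h1 2
  nlinarith

/-- the derivative as a bounded linear functional -/
lemma SQ.exists_L (hQ : SQ Q) (x : E) : ∃ L : E →L[ℝ] ℝ, ∀ h, L h = hQ.D x h := by
  obtain ⟨c, C, hc, hC, hb⟩ := hQ.bd
  let L0 : E →ₗ[ℝ] ℝ :=
    { toFun := fun h => hQ.D x h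
      map_add' := fun h k => hQ.D_add x h k
      map_smul' := fun a h => by simp [hQ.D_smul] }
  have hbound : ∀ h, ‖L0 h‖ ≤ (2 * Real.sqrt (Q x) * Real.sqrt C) * ‖h‖ := by
    intro h
    have key : ∀ h, hQ.D x h ≤ (2 * Real.sqrt (Q x) * Real.sqrt C) * ‖h‖ := by
      intro h
      refine le_trans (hQ.D_bound x h) ?_
      have : Real.sqrt (Q h) ≤ Real.sqrt C * ‖h‖ := by
        rw [← Real.sqrt_sq (norm_nonneg h), ← Real.sqrt_mul hC.le]
        exact Real.sqrt_le_sqrt (hb h).2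
      have h0 : 0 ≤ 2 * Real.sqrt (Q x) := by positivity
      calc 2 * Real.sqrt (Q x) * Real.sqrt (Q h) ≤ 2 * Real.sqrt (Q x) * (Real.sqrt C * ‖h‖) :=
            mul_le_mul_of_nonneg_left this h0
        _ = _ := by ring
    show |hQ.D x h| ≤ _
    rw [abs_le]
    constructor
    · have := key ((-1:ℝ) • h)
      rw [hQ.D_smul, norm_smul] at this
      simp only [norm_neg, norm_one, one_mul, neg_mul] at this
      linarith
    · exact key h
  exact ⟨L0.mkContinuous _ hbound, fun h => rfl⟩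

lemma SQ.gateaux_sqrt (hQ : SQ Q) {x : E} (hx : x ≠ 0) : GateauxDiffAt (fun z => Real.sqrt (Q z)) x := by
  obtain ⟨L, hL⟩ := hQ.exists_L x
  obtain ⟨c, C, hc, hC, hb⟩ := hQ.bd
  have hpos : 0 < Q x := lt_of_lt_of_le (by positivity) (hb x).1
  refine ⟨(1/(2*Real.sqrt (Q x))) • L, fun h => ?_⟩
  have h1 := (hQ.D_spec x h).sqrt (by simpa using hpos.ne')
  simp only [zero_smul, add_zero] at h1
  convert h1 using 1
  simp only [ContinuousLinearMap.smul_apply, hL, smul_eq_mul]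
  ring

lemma SQ.isEquivNorm (hQ : SQ Q) : IsEquivNorm (fun z => Real.sqrt (Q z)) := by
  obtain ⟨c, C, hc, hC, hb⟩ := hQ.bd
  refine ⟨hQ.sqrt_add, hQ.sqrt_smul, Real.sqrt c, Real.sqrt C, Real.sqrt_pos.2 hc, Real.sqrt_pos.2 hC, fun x => ⟨?_, ?_⟩⟩
  · have : Real.sqrt c * ‖x‖ = Real.sqrt (c * ‖x‖^2) := by
      rw [Real.sqrt_mul hc.le, Real.sqrt_sq (norm_nonneg x)]
    rw [this]
    exact Real.sqrt_le_sqrt (hb x).1
  · have : Real.sqrt C * ‖x‖ = Real.sqrt (C * ‖x‖^2) := by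
      rw [Real.sqrt_mul hC.le, Real.sqrt_sq (norm_nonneg x)]
    rw [this]
    exact Real.sqrt_le_sqrt (hb x).2

lemma IsEquivNorm.continuous {N : E → ℝ} (h : IsEquivNorm N) : Continuous N := by
  obtain ⟨c, C, hc, hC, hb⟩ := h.equiv
  rw [Metric.continuous_iff]
  intro x ε hε
  refine ⟨ε/C, by positivity, fun z hz => ?_⟩
  rw [dist_eq_norm, lt_div_iff₀ hC] at hz
  have key : ∀ a b : E, N a - N b ≤ C * ‖a - b‖ := by
    intro a b
    have h1 := h.add_le (a - b) b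
    rw [sub_add_cancel] at h1
    have := (hb (a-b)).2
    linarith
  rw [Real.dist_eq, abs_lt]
  constructor
  · have := key x z
    rw [norm_sub_rev] at this
    linarith
  · have := key z x
    linarith

/-- the smooth cut-off -/
lemma hasDerivAt_cut (s : ℝ) : HasDerivAt (fun s : ℝ => (max 0 (1 - s))^2) (-2 * max 0 (1-s)) s := by
  rw [hasDerivAt_iff_isLittleO_nhds_zero, Asymptotics.isLittleO_iff]
  intro ε hε
  filter_upwards [Metric.ball_mem_nhds (0:ℝ) hε] with x hx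
  rw [Metric.mem_ball, dist_zero_right, Real.norm_eq_abs] at hx
  simp only [smul_eq_mul, Real.norm_eq_abs]
  have key : |(max 0 (1 - (s+x)))^2 - (max 0 (1-s))^2 - x * (-2 * max 0 (1-s))| ≤ x^2 := by
    rcases le_total 0 (1-s) with h1 | h1 <;> rcases le_total 0 (1-(s+x)) with h2 | h2
    · rw [max_eq_right h1, max_eq_right h2, abs_le]; constructor <;> nlinarith
    · rw [max_eq_right h1, max_eq_left h2, abs_le]; constructor <;> nlinarith
    · rw [max_eq_left h1, max_eq_right h2, abs_le]; constructor <;> nlinarith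
    · rw [max_eq_left h1, max_eq_left h2, abs_le]; constructor <;> nlinarith
  refine le_trans key ?_
  rw [← sq_abs, sq]
  exact mul_le_mul_of_nonneg_right hx.le (abs_nonneg _)

lemma SQ.bump (hQ : SQ Q) : ∃ b : E → ℝ, Continuous b ∧ (∃ x, b x ≠ 0) ∧
    Bornology.IsBounded (Function.support b) ∧ ∀ x, GateauxDiffAt b x := by
  refine ⟨fun z => (max 0 (1 - Q z))^2, ?_, ⟨0, ?_⟩, ?_, ?_⟩
  · have h1 : Continuous (fun z => Real.sqrt (Q z)) := hQ.isEquivNorm.continuous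
    have h2 : Q = fun z => (Real.sqrt (Q z))^2 := by
      funext z; rw [Real.sq_sqrt (hQ.nonneg z)]
    have h3 : Continuous Q := by rw [h2]; exact h1.pow 2
    fun_prop
  · have : Q 0 = 0 := by
      have := hQ.hom 0 0
      simpa using this
    simp [this]
  · obtain ⟨c, C, hc, hC, hb⟩ := hQ.bd
    rw [isBounded_iff_forall_norm_le]
    refine ⟨Real.sqrt (1/c), fun x hx => ?_⟩
    rw [Function.mem_support] at hx
    have h1 : Q x < 1 := by
      by_contra hcon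
      push Not at hcon
      apply hx
      rw [max_eq_left (by linarith)]; norm_num
    have h2 := (hb x).1
    apply Real.le_sqrt_of_sq_le
    rw [le_div_iff₀ hc]
    linarith
  · intro x
    obtain ⟨L, hL⟩ := hQ.exists_L x
    refine ⟨(-2 * max 0 (1 - Q x)) • L, fun h => ?_⟩
    have h1 := hQ.D_spec x h
    have h2 : HasDerivAt (fun s : ℝ => (max 0 (1 - s))^2) (-2 * max 0 (1 - Q x)) ((fun t : ℝ => Q (x + t • h)) 0) := by
      simpa using hasDerivAt_cut (Q x)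
    have h3 := h2.comp (0:ℝ) h1
    simp only [ContinuousLinearMap.smul_apply, hL, smul_eq_mul]
    exact h3

end Abs

end LJ
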