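import Pool.Agent.Helper937.James10

set_option linter.unusedSectionVars false
set_option linter.unusedVariables false

open MeasureTheory

namespace LJ

/-- the compact group of functions from X to the circle, with its Borel sets -/
def Om (X : Type*) : Type _ := X → Circle

section OmInst
variable (X : Type*)

noncomputable instance : Group (Om X) := inferInstanceAs (Group (X → Circle))
noncomputable instance : TopologicalSpace (Om X) := inferInstanceAs (TopologicalSpace (X → Circle))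
instance : IsTopologicalGroup (Om X) := inferInstanceAs (IsTopologicalGroup (X → Circle))
instance : CompactSpace (Om X) := inferInstanceAs (CompactSpace (X → Circle))
instance : T2Space (Om X) := inferInstanceAs (T2Space (X → Circle))
noncomputable instance : MeasurableSpace (Om X) := borel _
instance : BorelSpace (Om X) := ⟨rfl⟩

/-- the Haar probability -/
noncomputable def mu : Measure (Om X) := Measure.haarMeasure (⊤ : TopologicalSpace.PositiveCompacts (Om X))

instance : (mu X).IsMulLeftInvariant := by unfold mu; infer_instance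

instance : IsProbabilityMeasure (mu X) := by
  constructor
  have := Measure.haarMeasure_self (K₀ := (⊤ : TopologicalSpace.PositiveCompacts (Om X)))
  simpa [mu] using this

end OmInst

section M1
variable {X : Type*}

/-- the random weight -/
noncomputable def wt (θ : Om X) : X → ℝ := fun x => 2 + ((θ x : Circle) : ℂ).re

lemma wt_bd (θ : Om X) : ∀ x, 1 ≤ wt θ x ∧ wt θ x ≤ 3 := by
  intro x
  have h1 := Complex.abs_re_le_norm ((θ x : Circle) : ℂ)
  rw [Circle.norm_coe] at h1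
  have := abs_le.1 h1
  unfold wt
  constructor <;> linarith

lemma cont_coord (x : X) : Continuous (fun θ : Om X => (θ x : Circle)) := continuous_apply x

lemma cont_wt (x : X) : Continuous (fun θ : Om X => wt θ x) := by
  unfold wt
  have h1 := cont_coord x
  have h2 : Continuous (fun θ : Om X => ((θ x : Circle) : ℂ)) := (by fun_prop : Continuous (fun z : Circle => (z : ℂ))).comp h1
  exact continuous_const.add (Complex.continuous_re.comp h2)

lemma cont_rho (u : ℝ) : Continuous (fun z => rho u z) := by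
  rcases eq_or_ne u 0 with rfl | hu
  · have : (fun z => rho 0 z) = fun z => z^2 := by funext z; exact rho_zero_left z
    rw [this]; fun_prop
  · unfold rho
    have h : ∀ z : ℝ, u^2 + z^2 ≠ 0 := fun z => by positivity
    refine Continuous.add (by fun_prop) (Continuous.div (by fun_prop) (by fun_prop) h)

lemma cont_tl {Z : Type*} [TopologicalSpace Z] (f : X → ℝ) (y : Z → X → ℝ)
    (hy : ∀ x, Continuous (fun z => y z x)) : ∀ (L : List X) (a : X), Continuous (fun z => tl f (y z) a L) := by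
  intro L
  induction L with
  | nil => intro a; simp only [tl]; exact continuous_const
  | cons b L ih =>
    intro a; simp only [tl]
    exact ((cont_rho (f b - f a)).comp (hy b)).add (ih b)

lemma cont_cost {Z : Type*} [TopologicalSpace Z] (f : X → ℝ) (y : Z → X → ℝ)
    (hy : ∀ x, Continuous (fun z => y z x)) (L : List X) : Continuous (fun z => cost f (y z) L) := by
  cases L with
  | nil => simp only [cost]; exact continuous_const
  | cons a L =>
    simp only [cost]
    exact ((hy a).pow 2).add (cont_tl f y hy L a)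

end M1

section M2
variable {X : Type*} [LinearOrder X] [OrderTop X] [WellFoundedLT X] [SuccOrder X]
variable {f g h : X → ℝ}

lemma Gw_meas (hf : IsA f) : Measurable (fun θ : Om X => Gw (wt θ) f) := by
  apply measurable_of_Ioi
  intro c
  have e : (fun θ : Om X => Gw (wt θ) f) ⁻¹' Set.Ioi c =
      ⋃ l ∈ {l : List X | l.Pairwise (· < ·)}, {θ : Om X | c < cost f (fun x => wt θ x * Dj f x) l} := by
    ext θ
    simp only [Set.mem_preimage, Set.mem_Ioi, Set.mem_iUnion, Set.mem_setOf_eq, exists_prop]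
    constructor
    · intro hc
      have hne : {v | ∃ l : List X, l.Pairwise (· < ·) ∧ v = cost f (fun x => wt θ x * Dj f x) l}.Nonempty :=
        ⟨_, [], by simp, rfl⟩
      obtain ⟨v, ⟨l, hl, rfl⟩, hv⟩ := exists_lt_of_lt_csSup hne hc
      exact ⟨l, hl, hv⟩
    · rintro ⟨l, hl, hv⟩
      exact lt_of_lt_of_le hv (le_Psi_of (hf.cb (wt_bd θ)) hl)
  rw [e]
  apply IsOpen.measurableSet
  apply isOpen_biUnion
  intro l _
  apply isOpen_lt continuous_const
  exact cont_cost f (fun θ : Om X => fun x => wt θ x * Dj f x) (fun x => (cont_wt x).mul continuous_const) l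

lemma Gw_int (hf : IsA f) : Integrable (fun θ : Om X => Gw (wt θ) f) (mu X) := by
  apply Integrable.of_bound (Gw_meas hf).aestronglyMeasurable (15 * VV f)
  filter_upwards with θ
  rw [Real.norm_eq_abs, abs_of_nonneg (Gw_nonneg hf (wt_bd θ))]
  exact Gw_le hf.bv hf.top (wt_bd θ)

/-- the averaged functional -/
noncomputable def GG (f : X → ℝ) : ℝ := ∫ θ, Gw (wt θ) f ∂(mu X)

lemma GG_le (hf : IsA f) : GG f ≤ 15 * VV f := by
  have : GG f ≤ ∫ θ, 15 * VV f ∂(mu X) :=
    integral_mono (Gw_int hf) (integrable_const _) (fun θ => Gw_le hf.bv hf.top (wt_bd θ))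
  simpa using this

lemma VV_le_GG (hf : IsA f) : VV f ≤ GG f := by
  have : ∫ θ, VV f ∂(mu X) ≤ GG f :=
    integral_mono (integrable_const _) (Gw_int hf) (fun θ => VV_le_Gw hf.bv hf.top (wt_bd θ))
  simpa using this

lemma GG_convex (hf : IsA f) (hg : IsA g) {l : ℝ} (h0 : 0 ≤ l) (h1 : l ≤ 1) :
    GG (fun x => (1-l)*f x + l*g x) ≤ (1-l) * GG f + l * GG g := by
  unfold GG
  rw [← integral_const_mul, ← integral_const_mul, ← integral_add ((Gw_int hf).const_mul _) ((Gw_int hg).const_mul _)]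
  exact integral_mono (Gw_int ((hf.smul _).add (hg.smul _))) (((Gw_int hf).const_mul _).add ((Gw_int hg).const_mul _))
    (fun θ => Gw_convex hf hg (wt_bd θ) h0 h1)

lemma GG_smul (hf : IsA f) (c : ℝ) : GG (fun x => c * f x) = c^2 * GG f := by
  unfold GG
  rw [← integral_const_mul]
  congr 1
  funext θ
  exact Gw_smul hf (wt_bd θ) c

/-- rotation in one coordinate -/
noncomputable def rot (c : X) (τ : ℝ) : Om X := (Pi.mulSingle c (Circle.exp τ) : X → Circle)

lemma rot_ne (c : X) (τ : ℝ) (θ : Om X) {x : X} (hx : x ≠ c) : (rot c τ * θ) x = θ x := by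
  show (Pi.mulSingle c (Circle.exp τ) : X → Circle) x * θ x = θ x
  rw [Pi.mulSingle_eq_of_ne hx, one_mul]

lemma rot_self (c : X) (τ : ℝ) (θ : Om X) : (rot c τ * θ) c = Circle.exp τ * θ c := by
  show (Pi.mulSingle c (Circle.exp τ) : X → Circle) c * θ c = _
  rw [Pi.mulSingle_eq_same]

lemma exp_re (τ : ℝ) : ((Circle.exp τ : Circle) : ℂ).re = Real.cos τ := by
  rw [Circle.coe_exp, Complex.exp_ofReal_mul_I_re]

lemma exp_im (τ : ℝ) : ((Circle.exp τ : Circle) : ℂ).im = Real.sin τ := by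
  rw [Circle.coe_exp, Complex.exp_ofReal_mul_I_im]

lemma rot_re (c : X) (τ : ℝ) (θ : Om X) : (((rot c τ * θ) c : Circle) : ℂ).re =
    Real.cos τ * ((θ c : Circle) : ℂ).re - Real.sin τ * ((θ c : Circle) : ℂ).im := by
  rw [rot_self, Circle.coe_mul, Complex.mul_re, exp_re, exp_im]

lemma rot_im (c : X) (τ : ℝ) (θ : Om X) : (((rot c τ * θ) c : Circle) : ℂ).im =
    Real.cos τ * ((θ c : Circle) : ℂ).im + Real.sin τ * ((θ c : Circle) : ℂ).re := by
  rw [rot_self, Circle.coe_mul, Complex.mul_im, exp_re, exp_im]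

lemma circle_sq (z : Circle) : (z : ℂ).re^2 + (z : ℂ).im^2 = 1 := by
  have := Circle.normSq_coe z
  rw [Complex.normSq_apply] at this
  nlinarith

lemma ae_im_ne (c : X) : ∀ᵐ θ ∂(mu X), ((θ c : Circle) : ℂ).im ≠ 0 := by
  rw [ae_iff]
  simp only [not_not]
  set Z : Set (Om X) := {θ | ((θ c : Circle) : ℂ).im = 0} with hZ
  have hcont : Continuous (fun θ : Om X => ((θ c : Circle) : ℂ).im) :=
    Complex.continuous_im.comp ((by fun_prop : Continuous (fun z : Circle => (z : ℂ))).comp (cont_coord c))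
  have hZm : IsClosed Z := isClosed_eq hcont continuous_const
  by_contra hne
  let τ : ℕ → ℝ := fun k => 1/((k:ℝ)+1)
  have hτ0 : ∀ k, 0 < τ k := fun k => by simp only [τ]; positivity
  have hτ1 : ∀ k, τ k ≤ 1 := fun k => by
    simp only [τ]; rw [div_le_one (by positivity)]; have : (0:ℝ) ≤ k := by positivity
    linarith
  have hτinj : ∀ k l, τ k = τ l → k = l := by
    intro k l h
    simp only [τ] at h
    have : (k:ℝ) + 1 = l + 1 := by
      have h2 := congrArg (fun x => 1/x) h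
      simpa using h2
    exact_mod_cast (by linarith : (k:ℝ) = l)
  have hdisj : Pairwise (Function.onFun Disjoint fun k => (fun θ : Om X => rot c (τ k) * θ) ⁻¹' Z) := by
    intro k l hkl
    rw [Function.onFun, Set.disjoint_left]
    intro θ h1 h2
    simp only [hZ, Set.mem_preimage, Set.mem_setOf_eq] at h1 h2
    rw [rot_im] at h1 h2
    set r := ((θ c : Circle) : ℂ).re
    set i := ((θ c : Circle) : ℂ).im
    have hri : r^2 + i^2 = 1 := circle_sq (θ c)
    have hs : Real.sin (τ k - τ l) = 0 := by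
      rw [Real.sin_sub]
      have e1 : (Real.sin (τ k) * Real.cos (τ l) - Real.cos (τ k) * Real.sin (τ l)) * r = 0 := by
        linear_combination Real.cos (τ l) * h1 - Real.cos (τ k) * h2
      have e2 : (Real.sin (τ k) * Real.cos (τ l) - Real.cos (τ k) * Real.sin (τ l)) * i = 0 := by
        linear_combination Real.sin (τ k) * h2 - Real.sin (τ l) * h1
      have e3 : (Real.sin (τ k) * Real.cos (τ l) - Real.cos (τ k) * Real.sin (τ l)) * (r^2 + i^2) = 0 := by
        linear_combination r * e1 + i * e2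
      rwa [hri, mul_one] at e3
    have hpi := Real.pi_gt_three
    rw [Real.sin_eq_zero_iff_of_lt_of_lt] at hs
    · exact hkl (hτinj k l (by linarith))
    · linarith [hτ0 k, hτ1 l]
    · linarith [hτ0 l, hτ1 k]
  have hmeas : ∀ k, MeasurableSet ((fun θ : Om X => rot c (τ k) * θ) ⁻¹' Z) := by
    intro k
    apply IsClosed.measurableSet
    exact hZm.preimage (continuous_const.mul continuous_id)
  have h1 := measure_iUnion (μ := mu X) hdisj hmeas
  have h2 : ∀ k, (mu X) ((fun θ : Om X => rot c (τ k) * θ) ⁻¹' Z) = (mu X) Z := fun k => measure_preimage_mul (mu X) (rot c (τ k)) Z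
  simp only [h2] at h1
  rw [ENNReal.tsum_const_eq_top_of_ne_zero hne] at h1
  have h3 := measure_ne_top (mu X) (⋃ k, (fun θ : Om X => rot c (τ k) * θ) ⁻¹' Z)
  exact h3 h1

lemma convR_mvy {f y : X → ℝ} (hc : CB f y) (c : X) : ConvR (fun t => Psi f (mvy y c t)) := by
  intro s t l h0 h1
  have := Psi_convex (CB_mvy hc c s) (CB_mvy hc c t) h0 h1
  have e1 : (fun x => (1-l)*f x + l*f x) = f := by funext x; ring
  have e2 : (fun x => (1-l)*mvy y c s x + l*mvy y c t x) = mvy y c ((1-l)*s+l*t) := by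
    funext x; simp only [mvy]; split_ifs <;> ring
  rw [e1, e2] at this
  exact this

lemma wt_rot (f : X → ℝ) (c : X) (τ : ℝ) (θ : Om X) : (fun x => wt (rot c τ * θ) x * Dj f x) =
    mvy (fun x => wt θ x * Dj f x) c ((((rot c τ * θ) c : Circle) : ℂ).re * Dj f c - ((θ c : Circle) : ℂ).re * Dj f c) := by
  funext x
  by_cases hx : x = c
  · subst hx; rw [mvy_self]; simp only [wt]; ring
  · rw [mvy_ne _ _ hx]; simp only [wt]; rw [rot_ne c τ θ hx]

lemma phi_bound (hf : IsA f) (c : X) (θ : Om X) {τ : ℝ} (h0 : 0 < τ) (h1 : τ ≤ 1) :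
    let p := Real.sin τ * ((θ c : Circle) : ℂ).im * Dj f c
    Psi f (mvy (fun x => wt θ x * Dj f x) c p) + Psi f (mvy (fun x => wt θ x * Dj f x) c (-p)) -
      2 * Psi f (mvy (fun x => wt θ x * Dj f x) c 0) ≤
    Gw (wt (rot c τ * θ)) f + Gw (wt (rot c (-τ) * θ)) f - 2 * Gw (wt θ) f + 14 * (Dj f c)^2 * τ^2 := by
  intro p
  set y : X → ℝ := fun x => wt θ x * Dj f x with hy
  set a := Dj f c with ha
  set r := ((θ c : Circle) : ℂ).re with hr
  set i := ((θ c : Circle) : ℂ).im with hi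
  have hcb : CB f y := hf.cb (wt_bd θ)
  have hri : r^2 + i^2 = 1 := circle_sq (θ c)
  have hr1 : |r| ≤ 1 := by rw [abs_le]; constructor <;> nlinarith [sq_nonneg i]
  set q := (Real.cos τ - 1) * r * a with hq
  have hqa : |q| ≤ τ^2/2 * |a| := by
    rw [hq, abs_mul, abs_mul]
    have hcos : |Real.cos τ - 1| ≤ τ^2/2 := by
      rw [abs_le]
      have := Real.one_sub_sq_div_two_le_cos (x := τ)
      have := Real.cos_le_one τ
      constructor <;> nlinarith
    have : |Real.cos τ - 1| * |r| ≤ τ^2/2 * 1 := mul_le_mul hcos hr1 (abs_nonneg _) (by positivity)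
    rw [mul_one] at this
    exact mul_le_mul_of_nonneg_right this (abs_nonneg _)
  have e0 : Gw (wt θ) f = Psi f (mvy y c 0) := by rw [mvy_zero]; rfl
  have e1 : Gw (wt (rot c τ * θ)) f = Psi f (mvy y c (q - p)) := by
    unfold Gw
    rw [wt_rot, rot_re]
    congr 2
    simp only [p, hq]; ring
  have e2 : Gw (wt (rot c (-τ) * θ)) f = Psi f (mvy y c (q + p)) := by
    unfold Gw
    rw [wt_rot, rot_re, Real.cos_neg, Real.sin_neg]
    congr 2
    simp only [p, hq]; ring
  have key : ∀ (s : ℝ) (σ : ℝ), Gw (wt (rot c σ * θ)) f = Psi f (mvy y c (q + s)) →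
      (fun x => wt (rot c σ * θ) x * Dj f x) = mvy y c (q + s) →
      Psi f (mvy y c s) ≤ Psi f (mvy y c (q + s)) + 7*a^2*τ^2 := by
    intro s σ _ hσ
    have b1 := Psi_mvy_le (CB_mvy hcb c (q+s)) c (-q)
    rw [mvy_mvy, show q + s + -q = s by ring] at b1
    have b2 : |mvy y c (q+s) c| ≤ 3 * |a| := by
      rw [← hσ, abs_mul]
      have := wt_bd (rot c σ * θ) c
      apply mul_le_mul_of_nonneg_right _ (abs_nonneg _)
      rw [abs_of_nonneg (by linarith)]; exact this.2
    rw [abs_neg, neg_sq] at b1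
    have b3 : |mvy y c (q+s) c| * |q| ≤ 3 * |a| * (τ^2/2 * |a|) := mul_le_mul b2 hqa (abs_nonneg _) (by positivity)
    have b4 : q^2 ≤ (τ^2/2 * |a|)^2 := by
      rw [← sq_abs q]; exact pow_le_pow_left₀ (abs_nonneg _) hqa 2
    have b5 : |a| * |a| = a^2 := by rw [← sq, sq_abs]
    have b6 : (τ^2/2 * |a|)^2 = τ^2 * τ^2 * a^2/4 := by rw [mul_pow, sq_abs]; ring
    have b7 : 3 * |a| * (τ^2/2 * |a|) = 3/2*(τ^2*a^2) := by rw [← b5]; ring
    rw [b6] at b4
    rw [b7] at b3
    have b8 : τ^2 ≤ 1 := by nlinarith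
    have b9 : τ^2 * τ^2 * a^2 ≤ τ^2 * a^2 := by
      have : 0 ≤ τ^2 * a^2 := by positivity
      nlinarith
    nlinarith
  have k1 := key (-p) τ (by rw [e1, sub_eq_add_neg]) (by
    rw [wt_rot, rot_re]; congr 1; simp only [p, hq]; ring)
  have k2 := key p (-τ) e2 (by
    rw [wt_rot, rot_re, Real.cos_neg, Real.sin_neg]; congr 1; simp only [p, hq]; ring)
  rw [e0, e1, e2, sub_eq_add_neg q p]
  linarith

/-- the excess function -/
noncomputable def Phi (f : X → ℝ) (c : X) (τ : ℝ) (θ : Om X) : ℝ :=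
  Gw (wt (rot c τ * θ)) f + Gw (wt (rot c (-τ) * θ)) f - 2 * Gw (wt θ) f + 14 * (Dj f c)^2 * τ^2

lemma Phi_nonneg (hf : IsA f) (c : X) (θ : Om X) {τ : ℝ} (h0 : 0 < τ) (h1 : τ ≤ 1) : 0 ≤ Phi f c τ θ := by
  have h2 := phi_bound hf c θ h0 h1
  have h3 := (convR_mvy (hf.cb (wt_bd θ)) c).second_nonneg (Real.sin τ * ((θ c : Circle) : ℂ).im * Dj f c)
  exact le_trans h3 h2

lemma rot_int (hf : IsA f) (c : X) (τ : ℝ) : Integrable (fun θ : Om X => Gw (wt (rot c τ * θ)) f) (mu X) := by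
  have := (Gw_int hf)
  exact this.comp_mul_left (rot c τ)

lemma Phi_int (hf : IsA f) (c : X) (τ : ℝ) : Integrable (Phi f c τ) (mu X) := by
  unfold Phi
  exact (((rot_int hf c τ).add (rot_int hf c (-τ))).sub ((Gw_int hf).const_mul 2)).add (integrable_const _)

lemma Phi_integral (hf : IsA f) (c : X) (τ : ℝ) : ∫ θ, Phi f c τ θ ∂(mu X) = 14 * (Dj f c)^2 * τ^2 := by
  unfold Phi
  have i1 := rot_int hf c τ
  have i2 := rot_int hf c (-τ)
  have i3 := (Gw_int hf).const_mul 2
  have h1 : ∫ θ, Gw (wt (rot c τ * θ)) f ∂(mu X) = ∫ θ, Gw (wt θ) f ∂(mu X) :=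
    integral_mul_left_eq_self (μ := mu X) (fun θ => Gw (wt θ) f) (rot c τ)
  have h2 : ∫ θ, Gw (wt (rot c (-τ) * θ)) f ∂(mu X) = ∫ θ, Gw (wt θ) f ∂(mu X) :=
    integral_mul_left_eq_self (μ := mu X) (fun θ => Gw (wt θ) f) (rot c (-τ))
  have e1 : ∫ θ, (Gw (wt (rot c τ * θ)) f + Gw (wt (rot c (-τ) * θ)) f - 2 * Gw (wt θ) f + 14 * (Dj f c)^2 * τ^2) ∂(mu X)
      = ∫ θ, (Gw (wt (rot c τ * θ)) f + Gw (wt (rot c (-τ) * θ)) f - 2 * Gw (wt θ) f) ∂(mu X) + ∫ θ, 14 * (Dj f c)^2 * τ^2 ∂(mu X) :=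
    integral_add ((i1.add i2).sub i3) (integrable_const _)
  have e2 : ∫ θ, (Gw (wt (rot c τ * θ)) f + Gw (wt (rot c (-τ) * θ)) f - 2 * Gw (wt θ) f) ∂(mu X)
      = ∫ θ, (Gw (wt (rot c τ * θ)) f + Gw (wt (rot c (-τ) * θ)) f) ∂(mu X) - ∫ θ, 2 * Gw (wt θ) f ∂(mu X) :=
    integral_sub (i1.add i2) i3
  have e3 : ∫ θ, (Gw (wt (rot c τ * θ)) f + Gw (wt (rot c (-τ) * θ)) f) ∂(mu X)
      = ∫ θ, Gw (wt (rot c τ * θ)) f ∂(mu X) + ∫ θ, Gw (wt (rot c (-τ) * θ)) f ∂(mu X) :=
    integral_add i1 i2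
  rw [e1, e2, e3, h1, h2, integral_const_mul]
  simp
  ring

/-- smoothness in a bonus direction for almost every weight -/
lemma ae_bonus (hf : IsA f) (c : X) : ∀ᵐ θ ∂(mu X), Dj f c ≠ 0 →
    Sm0 (fun t => Psi f (mvy (fun x => wt θ x * Dj f x) c t)) := by
  have hbad : ∀ m : ℕ, ∀ᵐ θ ∂(mu X), ∃ n : ℕ, Phi f c (1/((n:ℝ)+1)) θ < 1/((m:ℝ)+1) * (1/((n:ℝ)+1)) := by
    intro m
    rw [ae_iff]
    push Not
    set B : Set (Om X) := {θ | ∀ n : ℕ, 1/((m:ℝ)+1) * (1/((n:ℝ)+1)) ≤ Phi f c (1/((n:ℝ)+1)) θ} with hB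
    have hm : (0:ℝ) < 1/((m:ℝ)+1) := by positivity
    have key : ∀ n : ℕ, (mu X).real B ≤ 14 * (Dj f c)^2 * ((m:ℝ)+1) * (1/((n:ℝ)+1)) := by
      intro n
      have hn : (0:ℝ) < 1/((n:ℝ)+1) := by positivity
      have hn1 : 1/((n:ℝ)+1) ≤ 1 := by
        rw [div_le_one (by positivity)]; have : (0:ℝ) ≤ n := by positivity
        linarith
      have h1 := mul_meas_ge_le_integral_of_nonneg (μ := mu X) (f := Phi f c (1/((n:ℝ)+1)))
        (Filter.Eventually.of_forall (fun θ => Phi_nonneg hf c θ hn hn1)) (Phi_int hf c _) (1/((m:ℝ)+1) * (1/((n:ℝ)+1)))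
      rw [Phi_integral hf] at h1
      have h2 : (mu X).real B ≤ (mu X).real {θ | 1/((m:ℝ)+1) * (1/((n:ℝ)+1)) ≤ Phi f c (1/((n:ℝ)+1)) θ} :=
        measureReal_mono (fun θ hθ => hθ n) (measure_ne_top _ _)
      have h3 : 1/((m:ℝ)+1) * (1/((n:ℝ)+1)) * (mu X).real B ≤ 14 * (Dj f c)^2 * (1/((n:ℝ)+1))^2 :=
        le_trans (mul_le_mul_of_nonneg_left h2 (by positivity)) h1
      have hmm : (0:ℝ) < (m:ℝ)+1 := by positivity
      have h4 : (1/((n:ℝ)+1)) * (mu X).real B ≤ (1/((n:ℝ)+1)) * (14 * (Dj f c)^2 * ((m:ℝ)+1) * (1/((n:ℝ)+1))) := by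
        have := mul_le_mul_of_nonneg_left h3 hmm.le
        calc (1/((n:ℝ)+1)) * (mu X).real B = ((m:ℝ)+1) * (1/((m:ℝ)+1) * (1/((n:ℝ)+1)) * (mu X).real B) := by field_simp
          _ ≤ ((m:ℝ)+1) * (14 * (Dj f c)^2 * (1/((n:ℝ)+1))^2) := this
          _ = _ := by ring
      exact le_of_mul_le_mul_left h4 hn
    have hlim : Filter.Tendsto (fun n : ℕ => 14 * (Dj f c)^2 * ((m:ℝ)+1) * (1/((n:ℝ)+1))) Filter.atTop (nhds 0) := by
      have := tendsto_one_div_add_atTop_nhds_zero_nat (𝕜 := ℝ)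
      simpa using this.const_mul (14 * (Dj f c)^2 * ((m:ℝ)+1))
    have h0 : (mu X).real B ≤ 0 := ge_of_tendsto' hlim key
    have h0' : (mu X).real B = 0 := le_antisymm h0 measureReal_nonneg
    exact (measureReal_eq_zero_iff (measure_ne_top _ _)).1 h0'
  have hall := ae_all_iff.2 hbad
  filter_upwards [hall, ae_im_ne c] with θ hθ him ha
  set y : X → ℝ := fun x => wt θ x * Dj f x with hy
  set i := ((θ c : Circle) : ℂ).im with hi
  have hcv := convR_mvy (hf.cb (wt_bd θ)) c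
  intro ε hε
  have hia : 0 < |i| * |Dj f c| := mul_pos (abs_pos.2 him) (abs_pos.2 ha)
  obtain ⟨m, hm⟩ := exists_nat_one_div_lt (show 0 < ε*(|i| * |Dj f c|)/2 by positivity)
  obtain ⟨n, hn⟩ := hθ m
  set τ := 1/((n:ℝ)+1) with hτ
  have hτ0 : 0 < τ := by positivity
  have hτ1 : τ ≤ 1 := by
    rw [hτ, div_le_one (by positivity)]; have : (0:ℝ) ≤ n := by positivity
    linarith
  have hsin : τ/2 ≤ Real.sin τ := by
    have h1 := Real.mul_le_sin hτ0.le (by linarith [Real.pi_gt_three])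
    have h2 : τ/2 ≤ 2/Real.pi * τ := by
      rw [div_mul_eq_mul_div, le_div_iff₀ Real.pi_pos]
      have := Real.pi_lt_four
      nlinarith
    linarith
  have hsin0 : 0 < Real.sin τ := by linarith
  set P := Real.sin τ * (|i| * |Dj f c|) with hP
  have hPp : 0 < P := by positivity
  have hpb := phi_bound hf c θ hτ0 hτ1
  have hPhi : Psi f (mvy y c P) + Psi f (mvy y c (-P)) - 2 * Psi f (mvy y c 0) < ε * P := by
    have h1 : Psi f (mvy y c P) + Psi f (mvy y c (-P)) = Psi f (mvy y c (Real.sin τ * i * Dj f c)) + Psi f (mvy y c (-(Real.sin τ * i * Dj f c))) := by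
      have : P = |Real.sin τ * i * Dj f c| := by rw [abs_mul, abs_mul, abs_of_pos hsin0, hP]; ring
      rw [this]
      rcases abs_choice (Real.sin τ * i * Dj f c) with h | h
      · rw [h]
      · rw [h, neg_neg, add_comm]
    have h2 : Phi f c τ θ < ε * P := by
      refine lt_of_lt_of_le hn ?_
      calc 1/((m:ℝ)+1) * τ ≤ ε*(|i| * |Dj f c|)/2 * τ := mul_le_mul_of_nonneg_right hm.le hτ0.le
        _ = ε * (τ/2 * (|i| * |Dj f c|)) := by ring
        _ ≤ ε * P := by
            apply mul_le_mul_of_nonneg_left _ hε.le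
            exact mul_le_mul_of_nonneg_right hsin hia.le
    rw [h1]
    exact lt_of_le_of_lt hpb h2
  refine ⟨P, hPp, fun t ht htP => ?_⟩
  have h1 := hcv.second_mono ht htP.le
  have h2 : (Psi f (mvy y c t) + Psi f (mvy y c (-t)) - 2 * Psi f (mvy y c 0)) * P ≤ (ε * t) * P := by
    calc _ ≤ (Psi f (mvy y c P) + Psi f (mvy y c (-P)) - 2 * Psi f (mvy y c 0)) * t := h1
      _ ≤ (ε * P) * t := mul_le_mul_of_nonneg_right hPhi.le ht.le
      _ = _ := by ring
  exact le_of_mul_le_mul_right h2 hPp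

lemma countable_supp (hf : IsA f) : {c : X | Dj f c ≠ 0}.Countable := by
  have h := summable_y hf.bv (w := fun _ => 1) (fun _ => ⟨le_refl _, by norm_num⟩)
  have h2 := h.countable_support
  apply h2.mono
  intro c hc
  simp only [Function.mem_support, one_mul, ne_eq, OfNat.ofNat_ne_zero, not_false_eq_true, pow_eq_zero_iff]
  exact hc

end M2

section M3
variable {X : Type*} [LinearOrder X] [OrderTop X] [WellFoundedLT X] [SuccOrder X] [TopologicalSpace X] [OrderTopology X]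
variable {f h : X → ℝ}

lemma GD_ae (hf : IsJ f) : ∀ᵐ θ ∂(mu X), ∀ h : X → ℝ, IsJ h → GD (wt θ) f h := by
  have hc := countable_supp hf.isA
  have := (ae_ball_iff hc).2 (fun c (_ : c ∈ {c : X | Dj f c ≠ 0}) => ae_bonus hf.isA c)
  filter_upwards [this] with θ hθ h hh
  apply GD_all (wt_bd θ) hf _ hh
  intro c hc
  have hc' : Dj f c ≠ 0 := right_ne_zero_of_mul hc
  exact hθ c hc' hc'

lemma convR_Gw (hf : IsA f) (hh : IsA h) {w : X → ℝ} (hw : ∀ x, 1 ≤ w x ∧ w x ≤ 3) :
    ConvR (fun t => Gw w (fun x => f x + t * h x)) := by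
  intro s t l h0 h1
  have := Gw_convex (hf.add (hh.smul s)) (hf.add (hh.smul t)) hw h0 h1
  have e : (fun x => (1-l)*(f x + s * h x) + l*(f x + t * h x)) = fun x => f x + ((1-l)*s+l*t) * h x := by
    funext x; ring
  rw [e] at this
  exact this

lemma convR_GG (hf : IsA f) (hh : IsA h) : ConvR (fun t => GG (fun x => f x + t * h x)) := by
  intro s t l h0 h1
  have := GG_convex (hf.add (hh.smul s)) (hf.add (hh.smul t)) h0 h1
  have e : (fun x => (1-l)*(f x + s * h x) + l*(f x + t * h x)) = fun x => f x + ((1-l)*s+l*t) * h x := by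
    funext x; ring
  rw [e] at this
  exact this

/-- the averaged functional is smooth -/
theorem GG_smooth (hf : IsJ f) (hh : IsJ h) : Sm0 (fun t => GG (fun x => f x + t * h x)) := by
  set φ : Om X → ℝ → ℝ := fun θ t => Gw (wt θ) (fun x => f x + t * h x) with hφ
  have hA : ∀ t : ℝ, IsA (fun x => f x + t * h x) := fun t => hf.isA.add (hh.isA.smul t)
  have hint : ∀ t : ℝ, Integrable (fun θ => φ θ t) (mu X) := fun t => Gw_int (hA t)
  have hcv : ∀ θ, ConvR (φ θ) := fun θ => convR_Gw hf.isA hh.isA (wt_bd θ)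
  set F : ℕ → Om X → ℝ := fun n θ => (φ θ (1/((n:ℝ)+1)) + φ θ (-(1/((n:ℝ)+1))) - 2 * φ θ 0) * ((n:ℝ)+1) with hF
  have hFint : ∀ n, Integrable (F n) (mu X) := fun n =>
    (((hint _).add (hint _)).sub ((hint 0).const_mul 2)).mul_const _
  have hF0 : ∀ n θ, 0 ≤ F n θ := by
    intro n θ
    have := (hcv θ).second_nonneg (1/((n:ℝ)+1))
    simp only [hF]; positivity
  have hFb : ∀ n θ, F n θ ≤ 15 * VV (fun x => f x + 1 * h x) + 15 * VV (fun x => f x + (-1) * h x) := by
    intro n θ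
    have hn : (0:ℝ) < 1/((n:ℝ)+1) := by positivity
    have hn1 : 1/((n:ℝ)+1) ≤ 1 := by
      rw [div_le_one (by positivity)]; have : (0:ℝ) ≤ n := by positivity
      linarith
    have h1 := (hcv θ).second_mono hn hn1
    have h2 : F n θ ≤ φ θ 1 + φ θ (-1) - 2 * φ θ 0 := by
      simp only [hF]
      have := mul_le_mul_of_nonneg_right h1 (show (0:ℝ) ≤ (n:ℝ)+1 by positivity)
      rw [mul_one] at this
      have e : (φ θ 1 + φ θ (-1) - 2 * φ θ 0) * (1/((n:ℝ)+1)) * ((n:ℝ)+1) = φ θ 1 + φ θ (-1) - 2 * φ θ 0 := by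
        field_simp
      rwa [e] at this
    have h3 : φ θ 1 ≤ 15 * VV (fun x => f x + 1 * h x) := Gw_le (hA 1).bv (hA 1).top (wt_bd θ)
    have h4 : φ θ (-1) ≤ 15 * VV (fun x => f x + (-1) * h x) := Gw_le (hA (-1)).bv (hA (-1)).top (wt_bd θ)
    have h5 : 0 ≤ φ θ 0 := Gw_nonneg (hA 0) (wt_bd θ)
    linarith
  have hlim : ∀ᵐ θ ∂(mu X), Filter.Tendsto (fun n => F n θ) Filter.atTop (nhds 0) := by
    filter_upwards [GD_ae hf] with θ hθ
    have hg := hθ h hh
    rw [Metric.tendsto_atTop]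
    intro ε hε
    obtain ⟨t0, ht0, hs⟩ := hg (ε/2) (by positivity)
    obtain ⟨N, hN⟩ := exists_nat_one_div_lt ht0
    refine ⟨N, fun n hn => ?_⟩
    have hnp : (0:ℝ) < 1/((n:ℝ)+1) := by positivity
    have hlt : 1/((n:ℝ)+1) < t0 := by
      refine lt_of_le_of_lt ?_ hN
      apply one_div_le_one_div_of_le (by positivity)
      have : (N:ℝ) ≤ n := by exact_mod_cast hn
      linarith
    have h1 := hs _ hnp hlt
    rw [Real.dist_eq, sub_zero, abs_of_nonneg (hF0 n θ)]
    have h2 : F n θ ≤ ε/2 := by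
      have h3 := mul_le_mul_of_nonneg_right h1 (show (0:ℝ) ≤ (n:ℝ)+1 by positivity)
      have e : ε/2 * (1/((n:ℝ)+1)) * ((n:ℝ)+1) = ε/2 := by field_simp
      rw [e] at h3
      exact h3
    linarith
  have hDCT := tendsto_integral_of_dominated_convergence (μ := mu X) (F := F) (f := fun _ => 0)
    (fun _ => 15 * VV (fun x => f x + 1 * h x) + 15 * VV (fun x => f x + (-1) * h x))
    (fun n => (hFint n).aestronglyMeasurable) (integrable_const _)
    (fun n => Filter.Eventually.of_forall (fun θ => by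
      rw [Real.norm_eq_abs, abs_of_nonneg (hF0 n θ)]; exact hFb n θ)) hlim
  rw [integral_zero] at hDCT
  have hFI : ∀ n : ℕ, ∫ θ, F n θ ∂(mu X) = (GG (fun x => f x + (1/((n:ℝ)+1)) * h x) +
      GG (fun x => f x + (-(1/((n:ℝ)+1))) * h x) - 2 * GG (fun x => f x + 0 * h x)) * ((n:ℝ)+1) := by
    intro n
    simp only [hF]
    rw [integral_mul_const]
    congr 1
    have e1 : ∫ θ, (φ θ (1/((n:ℝ)+1)) + φ θ (-(1/((n:ℝ)+1))) - 2 * φ θ 0) ∂(mu X) =
        ∫ θ, (φ θ (1/((n:ℝ)+1)) + φ θ (-(1/((n:ℝ)+1)))) ∂(mu X) - ∫ θ, 2 * φ θ 0 ∂(mu X) :=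
      integral_sub ((hint _).add (hint _)) ((hint 0).const_mul 2)
    have e2 : ∫ θ, (φ θ (1/((n:ℝ)+1)) + φ θ (-(1/((n:ℝ)+1)))) ∂(mu X) =
        ∫ θ, φ θ (1/((n:ℝ)+1)) ∂(mu X) + ∫ θ, φ θ (-(1/((n:ℝ)+1))) ∂(mu X) :=
      integral_add (hint _) (hint _)
    rw [e1, e2, integral_const_mul]
    rfl
  intro ε hε
  rw [Metric.tendsto_atTop] at hDCT
  obtain ⟨n, hn⟩ := hDCT ε hε
  have hn := hn n le_rfl
  rw [Real.dist_eq, sub_zero, hFI] at hn
  have hn := lt_of_le_of_lt (le_abs_self _) hn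
  have hnp : (0:ℝ) < 1/((n:ℝ)+1) := by positivity
  refine ⟨1/((n:ℝ)+1), hnp, fun t ht htn => ?_⟩
  have h1 := (convR_GG hf.isA hh.isA).second_mono ht htn.le
  have hn1 : (0:ℝ) < (n:ℝ)+1 := by positivity
  set A := GG (fun x => f x + t * h x) + GG (fun x => f x + (-t) * h x) - 2 * GG (fun x => f x + 0 * h x) with hAd
  set Bn := GG (fun x => f x + (1/((n:ℝ)+1)) * h x) +
      GG (fun x => f x + (-(1/((n:ℝ)+1))) * h x) - 2 * GG (fun x => f x + 0 * h x) with hBn
  have h2 : A * (1/((n:ℝ)+1)) ≤ Bn * t := h1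
  have h3 : A ≤ (Bn * ((n:ℝ)+1)) * t := by
    have := mul_le_mul_of_nonneg_right h2 hn1.le
    have e : A * (1/((n:ℝ)+1)) * ((n:ℝ)+1) = A := by field_simp
    rw [e] at this
    linarith
  exact le_trans h3 (mul_le_mul_of_nonneg_right hn.le ht.le)

end M3

end LJ
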