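import Pool.Agent.Helper937.James11

set_option linter.unusedSectionVars false
set_option linter.unusedVariables false

namespace LJ

section TopX5
variable {X : Type*} [LinearOrder X]
variable {f g : X → ℝ}

/-- square variations along finite strictly increasing sequences -/
def jset (f : X → ℝ) : Set ℝ :=
  {r | ∃ (n : ℕ) (α : Fin (n + 2) → X), StrictMono α ∧
    r = Real.sqrt (∑ i : Fin (n + 1), |f (α i.succ) - f (α i.castSucc)| ^ 2)}

lemma vs_ofFn (f : X → ℝ) : ∀ (n : ℕ) (α : Fin (n+1) → X),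
    vs f (α 0) (List.ofFn (fun i : Fin n => α i.succ)) = ∑ i : Fin n, |f (α i.succ) - f (α i.castSucc)| ^ 2 := by
  intro n
  induction n with
  | zero => intro α; simp [vs]
  | succ n ih =>
    intro α
    have := ih (fun i => α i.succ)
    rw [List.ofFn_succ, Fin.sum_univ_succ]
    simp only [vs]
    rw [this, sq_abs]
    rfl

lemma exists_fin (f : X → ℝ) (a : X) (l : List X) (h : (a :: l).Pairwise (· < ·)) :
    ∃ α : Fin (l.length + 1) → X, StrictMono α ∧ vs f a l = ∑ i : Fin l.length, |f (α i.succ) - f (α i.castSucc)| ^ 2 := by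
  refine ⟨fun i => (a :: l).get i, ?_, ?_⟩
  · intro i j hij
    exact List.pairwise_iff_get.1 h i j hij
  · have h1 := vs_ofFn f l.length (fun i => (a :: l).get i)
    have e : List.ofFn (fun i : Fin l.length => (a :: l).get i.succ) = l := by
      have : (fun i : Fin l.length => (a :: l).get i.succ) = fun i => l.get i := by
        funext i; rfl
      rw [this]
      exact List.ofFn_get l
    rw [e] at h1
    exact h1

lemma chain_of_fin {n : ℕ} (α : Fin (n+1) → X) (h : StrictMono α) :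
    (α 0 :: List.ofFn (fun i : Fin n => α i.succ)).Pairwise (· < ·) := by
  rw [← List.ofFn_succ, List.pairwise_ofFn]
  intro i j hij
  exact h hij

end TopX5

section TopX6
variable {X : Type*} [LinearOrder X] [OrderTop X] [WellFoundedLT X] [SuccOrder X]
variable {f g : X → ℝ}

lemma bdd_iff : BddAbove (jset f) ↔ BV f := by
  constructor
  · rintro ⟨B, hB⟩
    refine ⟨B^2, fun a l hl => ?_⟩
    cases l with
    | nil => simp only [vs]; positivity
    | cons b l =>
      obtain ⟨α, hα, e⟩ := exists_fin f a (b :: l) hl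
      have h1 : Real.sqrt (vs f a (b :: l)) ≤ B := hB ⟨l.length, α, hα, by rw [e]; rfl⟩
      have h0 := vs_nonneg f (b :: l) a
      calc vs f a (b :: l) = (Real.sqrt (vs f a (b :: l)))^2 := (Real.sq_sqrt h0).symm
        _ ≤ B^2 := pow_le_pow_left₀ (Real.sqrt_nonneg _) h1 2
  · rintro ⟨B, hB⟩
    refine ⟨Real.sqrt B, ?_⟩
    rintro r ⟨n, α, hα, rfl⟩
    apply Real.sqrt_le_sqrt
    rw [← vs_ofFn f (n+1) α]
    exact hB _ _ (chain_of_fin α hα)

lemma sSup_jset (h : BV f) : sSup (jset f) = Real.sqrt (VV f) := by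
  have h0 : 0 ≤ sSup (jset f) := by
    apply Real.sSup_nonneg
    rintro r ⟨n, α, hα, rfl⟩
    exact Real.sqrt_nonneg _
  apply le_antisymm
  · apply Real.sSup_le _ (Real.sqrt_nonneg _)
    rintro r ⟨n, α, hα, rfl⟩
    apply Real.sqrt_le_sqrt
    rw [← vs_ofFn f (n+1) α]
    exact le_VV h (chain_of_fin α hα)
  · rw [Real.sqrt_le_left h0]
    apply VV_le
    intro a l hl
    cases l with
    | nil => simp only [vs]; positivity
    | cons b l =>
      obtain ⟨α, hα, e⟩ := exists_fin f a (b :: l) hl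
      have h1 : Real.sqrt (vs f a (b :: l)) ≤ sSup (jset f) :=
        le_csSup (bdd_iff.2 h) ⟨l.length, α, hα, by rw [e]; rfl⟩
      have h0 := vs_nonneg f (b :: l) a
      calc vs f a (b :: l) = (Real.sqrt (vs f a (b :: l)))^2 := (Real.sq_sqrt h0).symm
        _ ≤ (sSup (jset f))^2 := pow_le_pow_left₀ (Real.sqrt_nonneg _) h1 2

end TopX6

section TopX7
variable {X : Type*} [LinearOrder X] [OrderTop X] [WellFoundedLT X] [SuccOrder X] [TopologicalSpace X] [OrderTopology X]
variable {f g : X → ℝ}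

lemma IsJ.add (hf : IsJ f) (hg : IsJ g) : IsJ (f + g) :=
  ⟨hf.cont.add hg.cont, by simp [hf.top, hg.top], hf.bv.add hg.bv⟩

lemma IsJ.smul (c : ℝ) (hf : IsJ f) : IsJ (c • f) :=
  ⟨hf.cont.const_smul c, by simp [hf.top], hf.bv.smul c⟩

lemma IsJ.zero : IsJ (0 : X → ℝ) :=
  ⟨continuous_zero, rfl, ⟨0, fun a l _ => (vs_zero (f := (0 : X → ℝ)) (v := 0) l a (fun _ _ => rfl)).le⟩⟩

lemma jn_triangle (hf : IsJ f) (hg : IsJ g) :
    Real.sqrt (VV (f + g)) ≤ Real.sqrt (VV f) + Real.sqrt (VV g) :=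
  sqrt_triangle (VV_nonneg hf.bv) (VV_nonneg hg.bv) (fun κ hκ => VV_add_le hκ hf.bv hg.bv)

lemma jn_smul (c : ℝ) (hf : IsJ f) : Real.sqrt (VV (c • f)) = |c| * Real.sqrt (VV f) := by
  have : VV (c • f) = c^2 * VV f := VV_smul c hf.bv
  rw [this, Real.sqrt_mul (sq_nonneg c), Real.sqrt_sq_eq_abs]

lemma jn_zero (hf : IsJ f) (h : Real.sqrt (VV f) = 0) : f = 0 := by
  funext x
  have h1 := abs_le_sqrt hf.bv hf.top x
  rw [h] at h1
  exact abs_eq_zero.1 (le_antisymm h1 (abs_nonneg _))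

theorem main_SQ {E : Type*} [NormedAddCommGroup E] [NormedSpace ℝ E] (ι : E → X → ℝ)
    (hadd : ∀ e e', ι (e + e') = ι e + ι e') (hsmul : ∀ (c : ℝ) e, ι (c • e) = c • ι e)
    (hJ : ∀ e, IsJ (ι e)) (hn : ∀ e, ‖e‖ = Real.sqrt (VV (ι e))) : SQ (fun e => GG (ι e)) where
  conv := by
    intro x y l h0 h1
    show GG (ι ((1-l) • x + l • y)) ≤ _
    rw [hadd, hsmul, hsmul]
    exact GG_convex (hJ x).isA (hJ y).isA h0 h1
  hom := by
    intro c x
    show GG (ι (c • x)) = _
    rw [hsmul]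
    exact GG_smul (hJ x).isA c
  bd := by
    refine ⟨1, 15, one_pos, by norm_num, fun x => ?_⟩
    rw [hn, Real.sq_sqrt (VV_nonneg (hJ x).bv), one_mul]
    exact ⟨VV_le_GG (hJ x).isA, GG_le (hJ x).isA⟩
  sm := by
    intro x h
    have := GG_smooth (hJ x) (hJ h)
    have e : (fun t : ℝ => GG (ι (x + t • h))) = fun t => GG (fun z => ι x z + t * ι h z) := by
      funext t
      rw [hadd, hsmul]
      rfl
    rw [e]; exact this

end TopX7

end LJ
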