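import Pool.Agent.Helper937.James12

set_option linter.unusedSectionVars false
set_option linter.unusedVariables false

namespace LJ

section JTsec
variable {X : Type*} [LinearOrder X] [OrderTop X] [WellFoundedLT X] [SuccOrder X] [TopologicalSpace X] [OrderTopology X]

/-- a submodule as a type without topology -/
def JT (S : Submodule ℝ (X → ℝ)) : Type _ := ↥S

noncomputable instance (S : Submodule ℝ (X → ℝ)) : AddCommGroup (JT S) := inferInstanceAs (AddCommGroup ↥S)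
noncomputable instance (S : Submodule ℝ (X → ℝ)) : Module ℝ (JT S) := inferInstanceAs (Module ℝ ↥S)
noncomputable instance (S : Submodule ℝ (X → ℝ)) : Norm (JT S) := ⟨fun f => Real.sqrt (VV f.1)⟩

lemma core (S : Submodule ℝ (X → ℝ)) (hS : ∀ f ∈ S, IsJ f) : NormedSpace.Core ℝ (JT S) where
  norm_nonneg f := Real.sqrt_nonneg _
  norm_smul c f := jn_smul c (hS f.1 f.2)
  norm_triangle f g := jn_triangle (hS f.1 f.2) (hS g.1 g.2)
  norm_eq_zero_iff f := by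
    constructor
    · intro h
      exact Subtype.ext (jn_zero (hS f.1 f.2) h)
    · rintro rfl
      show Real.sqrt (VV ((0 : ↥S) : X → ℝ)) = 0
      have h0 : ((0 : ↥S) : X → ℝ) = (0:ℝ) • (0 : X → ℝ) := by simp
      rw [h0, jn_smul 0 IsJ.zero]; simp

/-- the submodule of all admissible functions -/
def SJ (X : Type*) [LinearOrder X] [OrderTop X] [WellFoundedLT X] [SuccOrder X] [TopologicalSpace X] [OrderTopology X] :
    Submodule ℝ (X → ℝ) where
  carrier := {f | IsJ f}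
  add_mem' := fun hf hg => IsJ.add hf hg
  zero_mem' := IsJ.zero
  smul_mem' := fun c f hf => IsJ.smul c hf

lemma gat_transfer {F : (X → ℝ) → ℝ} {f : X → ℝ} (hf : IsJ f) (L0 : SJ X → ℝ)
    (hadd : ∀ g h, L0 (g + h) = L0 g + L0 h) (hsmul : ∀ (c : ℝ) g, L0 (c • g) = c * L0 g)
    (K : ℝ) (hK : ∀ h : SJ X, |L0 h| ≤ K * Real.sqrt (VV (h : X → ℝ)))
    (hd : ∀ h : SJ X, HasDerivAt (fun t : ℝ => F (fun x => f x + t * (h : X → ℝ) x)) (L0 h) 0) :
    ∃ L : (X → ℝ) → ℝ,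
      (∀ g h, IsJ g → IsJ h → ∀ a b : ℝ, L (fun x => a * g x + b * h x) = a * L g + b * L h) ∧
      (∃ K : ℝ, ∀ h, IsJ h → |L h| ≤ K * sSup (jset h)) ∧
      ∀ h, IsJ h → HasDerivAt (fun t : ℝ => F (fun x => f x + t * h x)) (L h) 0 := by
  classical
  refine ⟨fun h => if hh : IsJ h then L0 ⟨h, hh⟩ else 0, ?_, ⟨K, ?_⟩, ?_⟩
  · intro g h hg hh a b
    have hgh : IsJ (fun x => a * g x + b * h x) := (hg.smul a).add (hh.smul b)
    simp only [dif_pos hgh, dif_pos hg, dif_pos hh]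
    have e : (⟨fun x => a * g x + b * h x, hgh⟩ : SJ X) = a • (⟨g, hg⟩ : SJ X) + b • (⟨h, hh⟩ : SJ X) := rfl
    rw [e, hadd, hsmul, hsmul]
  · intro h hh
    simp only [dif_pos hh]
    rw [sSup_jset hh.bv]
    exact hK ⟨h, hh⟩
  · intro h hh
    simp only [dif_pos hh]
    exact hd ⟨h, hh⟩

/-- the equivalent norm, on a general well-ordered set with a top -/
theorem final_norm : ∃ N : (X → ℝ) → ℝ,
    (∀ f g, IsJ f → IsJ g → N (fun x => f x + g x) ≤ N f + N g) ∧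
    (∀ (c : ℝ) f, IsJ f → N (fun x => c * f x) = |c| * N f) ∧
    (∃ c C : ℝ, 0 < c ∧ 0 < C ∧ ∀ f, IsJ f → c * sSup (jset f) ≤ N f ∧ N f ≤ C * sSup (jset f)) ∧
    ∀ f, IsJ f → (∃ x, f x ≠ 0) → ∃ L : (X → ℝ) → ℝ,
      (∀ g h, IsJ g → IsJ h → ∀ a b : ℝ, L (fun x => a * g x + b * h x) = a * L g + b * L h) ∧
      (∃ K : ℝ, ∀ h, IsJ h → |L h| ≤ K * sSup (jset h)) ∧
      ∀ h, IsJ h → HasDerivAt (fun t : ℝ => N (fun x => f x + t * h x)) (L h) 0 := by
  letI i1 : NormedAddCommGroup (JT (SJ X)) := NormedAddCommGroup.ofCore (core (SJ X) (fun f hf => hf))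
  letI i2 : NormedSpace ℝ (JT (SJ X)) := NormedSpace.ofCore (core (SJ X) (fun f hf => hf))
  have hn : ∀ f : JT (SJ X), ‖f‖ = Real.sqrt (VV f.1) := fun f => rfl
  have hQ : SQ (fun f : JT (SJ X) => GG f.1) :=
    main_SQ (X := X) (fun f : JT (SJ X) => f.1) (fun _ _ => rfl) (fun _ _ => rfl) (fun f => f.2) hn
  have hN := hQ.isEquivNorm
  refine ⟨fun f => Real.sqrt (GG f), ?_, ?_, ?_, ?_⟩
  · intro f g hf hg
    exact hN.add_le ⟨f, hf⟩ ⟨g, hg⟩
  · intro c f hf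
    exact hN.smul c ⟨f, hf⟩
  · obtain ⟨c, C, hc, hC, h⟩ := hN.equiv
    refine ⟨c, C, hc, hC, fun f hf => ?_⟩
    rw [sSup_jset hf.bv]
    exact h ⟨f, hf⟩
  · intro f hf hf0
    have hne : (⟨f, hf⟩ : JT (SJ X)) ≠ 0 := by
      intro h
      obtain ⟨x, hx⟩ := hf0
      apply hx
      have h1 : f = 0 := congrArg (fun g : JT (SJ X) => g.1) h
      rw [h1]; rfl
    obtain ⟨L, hL⟩ := hQ.gateaux_sqrt hne
    exact gat_transfer (F := fun f => Real.sqrt (GG f)) hf L (fun g h => L.map_add g h)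
      (fun c g => L.map_smul c g) ‖L‖ (fun h => L.le_opNorm h) (fun h => hL h)

/-- the smooth bump, on a general well-ordered set with a top -/
theorem final_bump : ∃ b : (X → ℝ) → ℝ,
    (∀ f, IsJ f → ∀ ε > 0, ∃ δ > 0, ∀ g, IsJ g → sSup (jset (fun x => g x - f x)) < δ → |b g - b f| < ε) ∧
    (∃ f, IsJ f ∧ b f ≠ 0) ∧
    (∃ R : ℝ, ∀ f, IsJ f → b f ≠ 0 → sSup (jset f) ≤ R) ∧
    ∀ f, IsJ f → ∃ L : (X → ℝ) → ℝ,
      (∀ g h, IsJ g → IsJ h → ∀ a b : ℝ, L (fun x => a * g x + b * h x) = a * L g + b * L h) ∧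
      (∃ K : ℝ, ∀ h, IsJ h → |L h| ≤ K * sSup (jset h)) ∧
      ∀ h, IsJ h → HasDerivAt (fun t : ℝ => b (fun x => f x + t * h x)) (L h) 0 := by
  classical
  letI i1 : NormedAddCommGroup (JT (SJ X)) := NormedAddCommGroup.ofCore (core (SJ X) (fun f hf => hf))
  letI i2 : NormedSpace ℝ (JT (SJ X)) := NormedSpace.ofCore (core (SJ X) (fun f hf => hf))
  have hn : ∀ f : JT (SJ X), ‖f‖ = Real.sqrt (VV f.1) := fun f => rfl
  have hQ : SQ (fun f : JT (SJ X) => GG f.1) :=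
    main_SQ (X := X) (fun f : JT (SJ X) => f.1) (fun _ _ => rfl) (fun _ _ => rfl) (fun f => f.2) hn
  obtain ⟨b, hb1, hb2, hb3, hb4⟩ := hQ.bump
  set b' : (X → ℝ) → ℝ := fun f => if hf : IsJ f then b ⟨f, hf⟩ else 0 with hb'
  have hbb : ∀ f (hf : IsJ f), b' f = b ⟨f, hf⟩ := fun f hf => by simp only [hb', dif_pos hf]
  refine ⟨b', ?_, ?_, ?_, ?_⟩
  · intro f hf ε hε
    obtain ⟨δ, hδ, h⟩ := (Metric.continuous_iff.1 hb1) ⟨f, hf⟩ ε hε
    refine ⟨δ, hδ, fun g hg hgf => ?_⟩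
    have hsub : IsJ (fun x => g x - f x) := by
      have := hg.add (hf.smul (-1))
      convert this using 1
      funext x; simp; ring
    rw [sSup_jset hsub.bv] at hgf
    have h1 := h ⟨g, hg⟩ (by
      rw [dist_eq_norm]
      exact hgf)
    rw [Real.dist_eq] at h1
    rw [hbb f hf, hbb g hg]
    exact h1
  · obtain ⟨f, hf⟩ := hb2
    refine ⟨f.1, f.2, ?_⟩
    rw [hbb f.1 f.2]
    exact hf
  · rw [isBounded_iff_forall_norm_le] at hb3
    obtain ⟨R, hR⟩ := hb3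
    refine ⟨R, fun f hf hbf => ?_⟩
    rw [hbb f hf] at hbf
    rw [sSup_jset hf.bv]
    exact hR ⟨f, hf⟩ hbf
  · intro f hf
    obtain ⟨L, hL⟩ := hb4 ⟨f, hf⟩
    refine gat_transfer hf L (fun g h => L.map_add g h) (fun c g => L.map_smul c g) ‖L‖
      (fun h => L.le_opNorm h) (fun h => ?_)
    have := hL h
    have e : (fun t : ℝ => b' (fun x => f x + t * (h : X → ℝ) x)) = fun t : ℝ => b ((⟨f, hf⟩ : JT (SJ X)) + t • (h : JT (SJ X))) := by
      funext t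
      exact hbb _ (hf.add (IsJ.smul t h.2))
    rw [e]; exact this

end JTsec

end LJ
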