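import Pool.Agent.Helper937.James1

set_option linter.unusedSectionVars false
set_option linter.unusedVariables false

namespace LJ

section WO
variable {X : Type*} [LinearOrder X] [OrderTop X] [WellFoundedLT X]

/-- standing hypotheses on a function f, its bonus y and a bound M -/
structure Good (f y : X → ℝ) (M : ℝ) : Prop where
  top : f ⊤ = 0
  ytop : y ⊤ = 0
  bdd : ∀ x, |f x| ≤ M
  cont : ∀ p : X, (∃ l, l < p) → ∀ ε : ℝ, 0 < ε → ∃ μ < p, ∀ x, μ < x → x ≤ p → |f x - f p| < ε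
  tail : ∀ p : X, (∃ l, l < p) → ∀ ε : ℝ, 0 < ε → ∃ μ < p, ∀ (a : X) (l : List X),
    (a :: l).Pairwise (· ≤ ·) → (∀ x ∈ a :: l, μ < x ∧ x ≤ p) → vs f a l < ε
  ysum : ∀ ε : ℝ, 0 < ε → ∃ F : Finset X, ∀ l : List X, l.Nodup → (∀ x ∈ l, x ∉ F) → ys y l < ε
  yD : ∀ x x', x ⋖ x' → (y x ≠ 0 ↔ f x' ≠ f x)
  cbdd : ∃ B : ℝ, ∀ l : List X, l.Pairwise (· < ·) → cost f y l ≤ B

lemma min_prop {P : X → Prop} (h : ∃ x, P x) : ∃ m, P m ∧ ∀ x, x < m → ¬ P x := by
  obtain ⟨m, hm, hm2⟩ := (wellFounded_lt : WellFounded ((· < ·) : X → X → Prop)).has_min {w | P w} h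
  exact ⟨m, hm, fun x hx hP => hm2 x hP hx⟩

lemma exists_cov {x z : X} (h : x < z) : ∃ x', x ⋖ x' ∧ x' ≤ z := by
  obtain ⟨m, hm, hm2⟩ := min_prop (P := fun w => x < w) ⟨z, h⟩
  refine ⟨m, ⟨hm, fun w hw hw2 => hm2 w hw2 hw⟩, ?_⟩
  by_contra hc
  exact hm2 z (not_le.1 hc) h

variable {f y : X → ℝ} {M : ℝ}

/-- the end of the plateau which starts at p -/
lemma plateau (hg : Good f y M) (p : X) :
    (∃ c, p ≤ c ∧ (∀ x, p ≤ x → x ≤ c → f x = f p) ∧ y c ≠ 0 ∧ (∀ x, p ≤ x → x < c → y x = 0)) ∨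
      ((∀ x, p ≤ x → f x = 0) ∧ (∀ x, p ≤ x → y x = 0)) := by
  by_cases hex : ∃ x, p ≤ x ∧ f x ≠ f p
  · left
    obtain ⟨m, ⟨hpm, hfm⟩, hmin⟩ := min_prop hex
    have hpm' : p < m := lt_of_le_of_ne hpm (by rintro rfl; exact hfm rfl)
    have hconst : ∀ x, p ≤ x → x < m → f x = f p := by
      intro x hx hxm
      by_contra hc
      exact hmin x hxm ⟨hx, hc⟩
    obtain ⟨μ, hμ, hμ2⟩ := hg.cont m ⟨p, hpm'⟩ |f p - f m| (abs_pos.2 (sub_ne_zero.2 (Ne.symm hfm)))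
    have hnot : ∀ x, p ≤ x → x < m → ¬ μ < x := by
      intro x hx hxm hμx
      have h1 := hμ2 x hμx hxm.le
      rw [hconst x hx hxm] at h1
      exact lt_irrefl _ h1
    have hpμ : p ≤ μ := not_lt.1 (hnot p le_rfl hpm')
    have hcov : μ ⋖ m := ⟨hμ, fun x hx hxm => hnot x (le_trans hpμ hx.le) hxm hx⟩
    refine ⟨μ, hpμ, fun x hx hxc => hconst x hx (lt_of_le_of_lt hxc hμ), ?_, ?_⟩
    · rw [hg.yD μ m hcov, hconst μ hpμ hμ]
      exact hfm
    · intro x hx hxc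
      obtain ⟨x', hcx, hx'⟩ := exists_cov hxc
      by_contra hy
      rw [← ne_eq, hg.yD x x' hcx] at hy
      exact hy (by rw [hconst x hx (lt_trans hxc hμ), hconst x' (le_trans hx hcx.lt.le) (lt_of_le_of_lt hx' hμ)])
  · right
    push Not at hex
    have hp : f p = 0 := by rw [← hex ⊤ le_top, hg.top]
    have h0 : ∀ x, p ≤ x → f x = 0 := fun x hx => by rw [hex x hx, hp]
    refine ⟨h0, ?_⟩
    intro x hx
    rcases eq_or_lt_of_le (le_top : x ≤ ⊤) with rfl | hlt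
    · exact hg.ytop
    · obtain ⟨x', hcx, hx'⟩ := exists_cov hlt
      by_contra hy
      rw [← ne_eq, hg.yD x x' hcx] at hy
      exact hy (by rw [h0 x hx, h0 x' (le_trans hx hcx.lt.le)])

lemma vs_zero {v : ℝ} : ∀ (l : List X) (a : X), (∀ x ∈ a :: l, f x = v) → vs f a l = 0 := by
  intro l
  induction l with
  | nil => intro a _; simp [vs]
  | cons b l ih =>
    intro a h; simp only [vs]
    rw [ih b (fun x hx => h x (List.mem_cons_of_mem _ hx)), h a (by simp), h b (by simp)]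
    ring

/-- left neighbourhoods of p on which everything is small -/
lemma loc (hg : Good f y M) (p : X) (ε : ℝ) (hε : 0 < ε) : ∃ U : X → Prop, U p ∧ (∀ x, U x → x ≤ p) ∧
    (∀ x z, U x → x ≤ z → z ≤ p → U z) ∧ ((∃ l, l < p) → ∃ μ < p, ∀ x, μ < x → x ≤ p → U x) ∧
    (∀ x, U x → |f x - f p| < ε) ∧
    (∀ (a : X) (l : List X), (a :: l).Pairwise (· ≤ ·) → (∀ x ∈ a :: l, U x) → vs f a l < ε) ∧
    (∀ l : List X, l.Nodup → (∀ x ∈ l, U x ∧ x < p) → ys y l < ε) := by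
  by_cases hp : ∃ l, l < p
  · obtain ⟨μ1, h1, h1'⟩ := hg.cont p hp ε hε
    obtain ⟨μ2, h2, h2'⟩ := hg.tail p hp ε hε
    obtain ⟨F, hF⟩ := hg.ysum ε hε
    have h3 : ∃ μ3 < p, ∀ x ∈ F, x < p → x ≤ μ3 := by
      by_cases hne : (F.filter (· < p)).Nonempty
      · refine ⟨(F.filter (· < p)).max' hne, ?_, ?_⟩
        · exact (Finset.mem_filter.1 (Finset.max'_mem _ hne)).2
        · intro x hx hxp
          exact Finset.le_max' _ _ (Finset.mem_filter.2 ⟨hx, hxp⟩)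
      · obtain ⟨l, hl⟩ := hp
        refine ⟨l, hl, fun x hx hxp => ?_⟩
        exact absurd ⟨x, Finset.mem_filter.2 ⟨hx, hxp⟩⟩ hne
    obtain ⟨μ3, h3, h3'⟩ := h3
    refine ⟨fun x => max μ1 (max μ2 μ3) < x ∧ x ≤ p, ⟨by simp [h1, h2, h3], le_rfl⟩, fun x hx => hx.2,
      fun x z hx hz hzp => ⟨lt_of_lt_of_le hx.1 hz, hzp⟩, fun _ => ⟨max μ1 (max μ2 μ3), by simp [h1, h2, h3],
        fun x h h' => ⟨h, h'⟩⟩, ?_, ?_, ?_⟩
    · intro x hx
      exact h1' x (lt_of_le_of_lt (le_max_left _ _) hx.1) hx.2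
    · intro a l hal hU
      exact h2' a l hal (fun x hx => ⟨lt_of_le_of_lt (le_trans (le_max_left _ _) (le_max_right _ _)) (hU x hx).1, (hU x hx).2⟩)
    · intro l hl hU
      apply hF l hl
      intro x hx hxF
      have := h3' x hxF (hU x hx).2
      exact absurd (lt_of_le_of_lt (le_trans (le_max_right _ _) (le_max_right _ _)) (hU x hx).1.1) (not_lt.2 this)
  · push Not at hp
    refine ⟨fun x => x = p, rfl, fun x hx => hx.le, fun x z hx hz hzp => le_antisymm hzp (hx ▸ hz),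
      fun ⟨l, hl⟩ => absurd hl (not_lt.2 (hp l)), ?_, ?_, ?_⟩
    · rintro x rfl; simpa using hε
    · intro a l hal hU
      rw [vs_zero (v := f p) l a (fun x hx => by rw [hU x hx])]
      exact hε
    · intro l hl hU
      cases l with
      | nil => simpa [ys] using hε
      | cons a l =>
        have := hU a (by simp)
        exact absurd this.2 (by rw [this.1]; exact lt_irrefl _)

/-- compactness -/
lemma unif (A : ℝ → X → Prop) (hm : ∀ δ δ' x, 0 < δ' → δ' ≤ δ → A δ x → A δ' x)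
    (h : ∀ p, ∃ δ > 0, ∃ U : X → Prop, U p ∧ ((∃ l, l < p) → ∃ μ < p, ∀ x, μ < x → x ≤ p → U x) ∧
      ∀ x, U x → A δ x) : ∃ δ > 0, ∀ x, A δ x := by
  have key : ∀ p : X, ∃ δ > 0, ∀ x ≤ p, A δ x := by
    intro p
    induction p using WellFoundedLT.induction with
    | _ p ih =>
      obtain ⟨δ, hδ, U, hUp, hU, hA⟩ := h p
      by_cases hp : ∃ l, l < p
      · obtain ⟨μ, hμ, hμ2⟩ := hU hp
        obtain ⟨δ', hδ', hA'⟩ := ih μ hμ
        refine ⟨min δ δ', lt_min hδ hδ', ?_⟩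
        intro x hx
        by_cases hxμ : x ≤ μ
        · exact hm _ _ _ (lt_min hδ hδ') (min_le_right _ _) (hA' x hxμ)
        · exact hm _ _ _ (lt_min hδ hδ') (min_le_left _ _) (hA x (hμ2 x (not_le.1 hxμ) hx))
      · push Not at hp
        refine ⟨δ, hδ, fun x hx => ?_⟩
        have : x = p := le_antisymm hx (hp x)
        rw [this]; exact hA p hUp
  obtain ⟨δ, hδ, hA⟩ := key ⊤
  exact ⟨δ, hδ, fun x => hA x le_top⟩

lemma M_nonneg (hg : Good f y M) : 0 ≤ M := le_trans (abs_nonneg _) (hg.bdd ⊤)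

lemma sq_diff {M a b c ε : ℝ} (ha : |a| ≤ M) (hb : |b| ≤ M) (hc : |c| ≤ M) (h : |a - b| ≤ ε) :
    (a - c)^2 ≤ (b - c)^2 + 4*M*ε := by
  have h1 : (a-c)^2 - (b-c)^2 = (a-b)*(a+b-2*c) := by ring
  have h2 : |(a-b)*(a+b-2*c)| ≤ ε * (4*M) := by
    rw [abs_mul]
    apply mul_le_mul h _ (abs_nonneg _) (le_trans (abs_nonneg _) h)
    have := abs_le.1 ha; have := abs_le.1 hb; have := abs_le.1 hc
    rw [abs_le]; constructor <;> linarith
  have := le_abs_self ((a-b)*(a+b-2*c))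
  linarith

lemma pre_exch (hg : Good f y M) {P : List X} {a c : X} {ε δ : ℝ} (hf : |f a - f c| ≤ ε) (hy : |y a| ≤ δ) :
    pre f y a P + (y c)^2 - (2*δ^2 + 4*M*ε) ≤ pre f y c P := by
  have hδ : (y a)^2 ≤ δ^2 := by
    have := abs_le.1 hy; nlinarith [abs_nonneg (y a)]
  have hε : 0 ≤ ε := le_trans (abs_nonneg _) hf
  have hM := M_nonneg hg
  rcases List.eq_nil_or_concat P with rfl | ⟨P', x, rfl⟩
  · simp only [pre]
    nlinarith [mul_nonneg hM hε, sq_nonneg δ]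
  · rw [List.concat_eq_append, pre_snoc, pre_snoc]
    have h1 := rho_lb (f c - f x) (y c)
    have h2 := rho_ub2 (f a - f x) (y a)
    have h3 := sq_diff (hg.bdd a) (hg.bdd c) (hg.bdd x) hf
    nlinarith

lemma tl_exch (hg : Good f y M) {Q : List X} {x c : X} {ε : ℝ} (hf : |f x - f c| ≤ ε) :
    tl f y x Q ≤ tl f y c Q + (8*M*ε + 2*ε^2) := by
  have hε : 0 ≤ ε := le_trans (abs_nonneg _) hf
  have hM := M_nonneg hg
  cases Q with
  | nil =>
    simp only [tl]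
    have h3 := sq_diff (c := 0) (hg.bdd x) (hg.bdd c) (by simpa using hM) hf
    have h4 : (f x)^2 - (f c)^2 = (f x - f c)*(f x + f c) := by ring
    have h5 : |(f x - f c)*(f x + f c)| ≤ ε * (2*M) := by
      rw [abs_mul]
      apply mul_le_mul hf _ (abs_nonneg _) hε
      have := abs_le.1 (hg.bdd x); have := abs_le.1 (hg.bdd c)
      rw [abs_le]; constructor <;> linarith
    have := le_abs_self ((f x - f c)*(f x + f c))
    nlinarith [sq_nonneg ε]
  | cons z Q =>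
    simp only [tl]
    have h1 := rho_shift (f z - f x) (f x - f c) (y z)
    have h2 : f z - f x + (f x - f c) = f z - f c := by ring
    rw [h2] at h1
    have h3 : |f z - f c| ≤ 2*M := by
      have := abs_le.1 (hg.bdd z); have := abs_le.1 (hg.bdd c)
      rw [abs_le]; constructor <;> linarith
    have h4 : |f z - f c| * |f x - f c| ≤ 2*M*ε := mul_le_mul h3 hf (abs_nonneg _) (by linarith)
    have h5 : (f x - f c)^2 ≤ ε^2 := by
      rw [← sq_abs]; exact pow_le_pow_left₀ (abs_nonneg _) hf 2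
    nlinarith

end WO

end LJ
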