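import Pool.Agent.Helper937.James2

set_option linter.unusedSectionVars false
set_option linter.unusedVariables false

namespace LJ

section WO
variable {X : Type*} [LinearOrder X] [OrderTop X] [WellFoundedLT X]
variable {f y : X → ℝ} {M : ℝ}

/-- the supremum of the costs of all chains -/
noncomputable def Psi (f y : X → ℝ) : ℝ := sSup {v | ∃ l : List X, l.Pairwise (· < ·) ∧ v = cost f y l}

lemma le_Psi_of {f y : X → ℝ} (h : ∃ B : ℝ, ∀ l : List X, l.Pairwise (· < ·) → cost f y l ≤ B) {l : List X}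
    (hl : l.Pairwise (· < ·)) : cost f y l ≤ Psi f y := by
  obtain ⟨B, hB⟩ := h
  apply le_csSup
  · exact ⟨B, by rintro v ⟨l, hl, rfl⟩; exact hB l hl⟩
  · exact ⟨l, hl, rfl⟩

lemma Psi_le_of {f y : X → ℝ} {B : ℝ} (hB : ∀ l : List X, l.Pairwise (· < ·) → cost f y l ≤ B) :
    Psi f y ≤ B := by
  apply csSup_le
  · exact ⟨0, [], List.Pairwise.nil, rfl⟩
  · rintro v ⟨l, hl, rfl⟩; exact hB l hl

lemma exists_near (f y : X → ℝ) {δ : ℝ} (hδ : 0 < δ) :
    ∃ l : List X, l.Pairwise (· < ·) ∧ Psi f y - δ ≤ cost f y l := by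
  have hne : {v | ∃ l : List X, l.Pairwise (· < ·) ∧ v = cost f y l}.Nonempty := ⟨0, [], List.Pairwise.nil, rfl⟩
  obtain ⟨v, ⟨l, hl, rfl⟩, hv⟩ := exists_lt_of_lt_csSup hne (show Psi f y - δ < Psi f y by linarith)
  exact ⟨l, hl, hv.le⟩

lemma small {M η κ : ℝ} (hM : 0 ≤ M) (hη : 0 < η) (hκ : 0 < κ) :
    ∃ ε > 0, 4*ε < η ∧ 20*M*ε + 20*ε + 20*ε^2 < κ := by
  have hM1 : 0 < 100*(M+1) := by positivity
  refine ⟨min (η/8) (min 1 (κ/(100*(M+1)))), by positivity, ?_, ?_⟩
  · have := min_le_left (η/8) (min 1 (κ/(100*(M+1)))); linarith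
  · set ε := min (η/8) (min 1 (κ/(100*(M+1)))) with hε
    have h0 : 0 < ε := by positivity
    have h1 : ε ≤ 1 := le_trans (min_le_right _ _) (min_le_left _ _)
    have h2 : ε ≤ κ/(100*(M+1)) := le_trans (min_le_right _ _) (min_le_right _ _)
    rw [le_div_iff₀ hM1] at h2
    nlinarith

lemma ys_end {p c : X} (hy0 : ∀ x, p ≤ x → x < c → y x = 0) : ∀ l : List X, l.Pairwise (· < ·) →
    (∀ x ∈ l, p ≤ x ∧ x ≤ c) → ys y l ≤ (y c)^2 := by
  intro l
  induction l with
  | nil => intro _ _; simp only [ys]; positivity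
  | cons a l ih =>
    intro h hl
    obtain ⟨h1, h2⟩ := List.pairwise_cons.1 h
    simp only [ys]
    rcases eq_or_lt_of_le (hl a (by simp)).2 with rfl | hlt
    · have : l = [] := by
        cases l with
        | nil => rfl
        | cons b l => exact absurd (h1 b (by simp)) (not_lt.2 (hl b (by simp)).2)
      subst this; simp [ys]
    · rw [hy0 a (hl a (by simp)).1 hlt]
      have := ih h2 (fun x hx => hl x (List.mem_cons_of_mem _ hx))
      linarith

lemma region {U : X → Prop} {p c b : X} {ε : ℝ} {Q : List X} (hpc : p ≤ c) (hUp : U p) (hUle : ∀ x, U x → x ≤ p)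
    (hvs : ∀ (a : X) (l : List X), (a :: l).Pairwise (· ≤ ·) → (∀ x ∈ a :: l, U x) → vs f a l < ε)
    (hys : ∀ l : List X, l.Nodup → (∀ x ∈ l, U x ∧ x < p) → ys y l < ε)
    (hconst : ∀ x, p ≤ x → x ≤ c → f x = f p) (hy0 : ∀ x, p ≤ x → x < c → y x = 0)
    (hQ : (b :: Q).Pairwise (· < ·)) (hreg : ∀ x ∈ b :: Q, U x ∨ (p ≤ x ∧ x ≤ c)) :
    vs f b Q < ε ∧ ys y Q < ε + (y c)^2 := by
  constructor
  · have hmin : ∀ x ∈ b :: Q, f x = f (min x p) := by
      intro x hx
      rcases hreg x hx with h | h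
      · rw [min_eq_left (hUle x h)]
      · rw [min_eq_right h.1, hconst x h.1 h.2]
    have e1 : vs f b Q = vs (fun x => f (min x p)) b Q :=
      vs_congr _ _ Q b (hmin b (by simp)) (fun x hx => hmin x (List.mem_cons_of_mem _ hx))
    rw [e1, vs_map f (fun x => min x p)]
    apply hvs
    · have : (min b p :: Q.map (fun x => min x p)) = (b :: Q).map (fun x => min x p) := rfl
      rw [this]
      apply List.Pairwise.map _ _ hQ
      intro x z hxz
      exact min_le_min_right p hxz.le
    · have : (min b p :: Q.map (fun x => min x p)) = (b :: Q).map (fun x => min x p) := rfl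
      rw [this]
      intro x hx
      obtain ⟨z, hz, rfl⟩ := List.mem_map.1 hx
      rcases hreg z hz with h | h
      · simp only [min_eq_left (hUle z h)]; exact h
      · simp only [min_eq_right h.1]; exact hUp
  · have hQ' := (List.pairwise_cons.1 hQ).2
    obtain ⟨R1, R2, e, h1, h2⟩ := split_lt p Q hQ'
    rw [e, ys_append]
    have hR := hQ'
    rw [e] at hR
    obtain ⟨hR1, hR2, _⟩ := List.pairwise_append.1 hR
    have a1 : ys y R1 < ε := by
      apply hys R1 (hR1.imp (fun h => ne_of_lt h))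
      intro x hx
      refine ⟨?_, h1 x hx⟩
      have hxQ : x ∈ b :: Q := by rw [e]; simp [hx]
      rcases hreg x hxQ with h | h
      · exact h
      · exact absurd (h1 x hx) (not_lt.2 h.1)
    have a2 : ys y R2 ≤ (y c)^2 := by
      apply ys_end hy0 R2 hR2
      intro x hx
      refine ⟨h2 x hx, ?_⟩
      have hxQ : x ∈ b :: Q := by rw [e]; simp [hx]
      rcases hreg x hxQ with h | h
      · exact le_trans (hUle x h) hpc
      · exact h.2
    linarith


/-- a chain whose point a carries (almost) no bonus and is followed by a large gap is far from optimal -/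
lemma claim1 (hg : Good f y M) {η : ℝ} (hη : 0 < η) : ∃ δ > 0, ∀ a : X, ∀ P Q : List X,
    (P ++ a :: Q).Pairwise (· < ·) → Psi f y - δ ≤ cost f y (P ++ a :: Q) →
    ((Q = [] ∧ η ≤ |f a|) ∨ (∃ b Q', Q = b :: Q' ∧ η ≤ |f b - f a|)) → δ ≤ |y a| := by
  have hM := M_nonneg hg
  apply unif (fun δ a => ∀ P Q : List X,
    (P ++ a :: Q).Pairwise (· < ·) → Psi f y - δ ≤ cost f y (P ++ a :: Q) →
    ((Q = [] ∧ η ≤ |f a|) ∨ (∃ b Q', Q = b :: Q' ∧ η ≤ |f b - f a|)) → δ ≤ |y a|)
  · intro δ δ' x hδ' hle hA P Q h1 h2 h3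
    exact le_trans hle (hA P Q h1 (by linarith) h3)
  intro p
  rcases plateau hg p with ⟨c, hpc, hconst, hyc, hy0⟩ | ⟨h0, hy0⟩
  · have hκ : 0 < (y c)^2 := by positivity
    obtain ⟨ε, hε, hε1, hε2⟩ := small hM hη (show 0 < (y c)^2/4 by positivity)
    obtain ⟨δ, hδ, hδ1, hδ2⟩ := small (le_refl (0:ℝ)) hη (show 0 < (y c)^2/4 by positivity)
    obtain ⟨U, hUp, hUle, hUconv, hUnb, hUf, hUvs, hUys⟩ := loc hg p ε hε
    refine ⟨δ, hδ, U, hUp, hUnb, ?_⟩
    intro a hUa P Q h1 h2 h3
    by_contra hya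
    push Not at hya
    have hac : a ≠ c := by
      rintro rfl
      have : (y a)^2 ≤ δ^2 := by rw [← sq_abs]; exact pow_le_pow_left₀ (abs_nonneg _) hya.le 2
      nlinarith
    have hac' : a < c := lt_of_le_of_ne (le_trans (hUle a hUa) hpc) hac
    obtain ⟨hP, hQ, hPQ⟩ := List.pairwise_append.1 h1
    obtain ⟨hQ1, hQ2⟩ := List.pairwise_cons.1 hQ
    have hcQ : ∀ x ∈ Q, c < x := by
      rcases h3 with ⟨rfl, _⟩ | ⟨b, Q', rfl, hb⟩
      · simp
      · have hcb : c < b := by
          by_contra hcb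
          have hbc := not_lt.1 hcb
          have hab := hQ1 b (by simp)
          have hfb : |f b - f p| < ε := by
            rcases le_total b p with h | h
            · exact hUf b (hUconv a b hUa hab.le h)
            · rw [hconst b h hbc]; simpa using hε
          have hfa := hUf a hUa
          have : |f b - f a| < 2*ε := by
            have e : f b - f a = (f b - f p) - (f a - f p) := by ring
            rw [e]
            have := abs_sub (f b - f p) (f a - f p)
            linarith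
          linarith
        intro x hx
        rcases List.mem_cons.1 hx with rfl | hx
        · exact hcb
        · exact lt_trans hcb ((List.pairwise_cons.1 hQ2).1 x hx)
    have hnew : (P ++ c :: Q).Pairwise (· < ·) := by
      rw [List.pairwise_append]
      refine ⟨hP, List.pairwise_cons.2 ⟨hcQ, hQ2⟩, ?_⟩
      intro x hx z hz
      rcases List.mem_cons.1 hz with rfl | hz
      · exact lt_trans (hPQ x hx a (by simp)) hac'
      · exact hPQ x hx z (List.mem_cons_of_mem _ hz)
    have hle := le_Psi_of hg.cbdd hnew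
    have hfac : |f a - f c| ≤ ε := by rw [hconst c hpc le_rfl]; exact (hUf a hUa).le
    have e1 := pre_exch hg (P := P) hfac hya.le
    have e2 := tl_exch hg (Q := Q) hfac
    rw [cost_append] at hle h2
    nlinarith
  · obtain ⟨ε, hε, hε1, hε2⟩ := small hM hη (show (0:ℝ) < 1 by norm_num)
    obtain ⟨U, hUp, hUle, hUconv, hUnb, hUf, hUvs, hUys⟩ := loc hg p ε hε
    refine ⟨1, one_pos, U, hUp, hUnb, ?_⟩
    intro a hUa P Q h1 h2 h3
    exfalso
    have hfa := hUf a hUa
    rw [h0 p le_rfl, sub_zero] at hfa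
    rcases h3 with ⟨rfl, h⟩ | ⟨b, Q', rfl, hb⟩
    · linarith
    · obtain ⟨hP, hQ, hPQ⟩ := List.pairwise_append.1 h1
      obtain ⟨hQ1, hQ2⟩ := List.pairwise_cons.1 hQ
      have hab := hQ1 b (by simp)
      have hfb : |f b| < ε := by
        rcases le_total b p with h | h
        · have := hUf b (hUconv a b hUa hab.le h)
          rwa [h0 p le_rfl, sub_zero] at this
        · rw [h0 b h]; simpa using hε
      have := abs_sub (f b) (f a)
      linarith

end WO

end LJ
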