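import Pool.Agent.Helper937.James3

set_option linter.unusedSectionVars false
set_option linter.unusedVariables false

namespace LJ

section WO
variable {X : Type*} [LinearOrder X] [OrderTop X] [WellFoundedLT X]
variable {f y : X → ℝ} {M : ℝ}

lemma tl_app (Q1 Q2 : List X) (a : X) : ∃ x ∈ a :: Q1, tl f y a (Q1 ++ Q2) = seg f y a Q1 + tl f y x Q2 := by
  rcases List.eq_nil_or_concat Q1 with rfl | ⟨Q', x, rfl⟩
  · exact ⟨a, by simp, by simp [seg]⟩
  · refine ⟨x, by simp, ?_⟩
    rw [List.concat_eq_append, List.append_assoc, List.singleton_append, tl_append]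

/-- a chain whose point b carries (almost) no bonus and is preceded by a large gap is far from optimal -/
lemma claim2 (hg : Good f y M) {η : ℝ} (hη : 0 < η) : ∃ δ > 0, ∀ b : X, ∀ (P : List X) (a : X) (Q : List X),
    (P ++ a :: b :: Q).Pairwise (· < ·) → Psi f y - δ ≤ cost f y (P ++ a :: b :: Q) →
    η ≤ |f b - f a| → δ ≤ |y b| := by
  have hM := M_nonneg hg
  apply unif (fun δ b => ∀ (P : List X) (a : X) (Q : List X),
    (P ++ a :: b :: Q).Pairwise (· < ·) → Psi f y - δ ≤ cost f y (P ++ a :: b :: Q) →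
    η ≤ |f b - f a| → δ ≤ |y b|)
  · intro δ δ' x hδ' hle hA P a Q h1 h2 h3
    exact le_trans hle (hA P a Q h1 (by linarith) h3)
  intro p
  rcases plateau hg p with ⟨c, hpc, hconst, hyc, hy0⟩ | ⟨h0, hy0⟩
  · have hκ : 0 < (y c)^2 := by positivity
    have hg0 : 0 < (η/2)^2*(y c)^2/((η/2)^2+(y c)^2) := by positivity
    set g0 := (η/2)^2*(y c)^2/((η/2)^2+(y c)^2) with hg0def
    obtain ⟨ε, hε, hε1, hε2⟩ := small hM hη (show 0 < g0/2 by positivity)
    obtain ⟨δ, hδ, hδ1, hδ2⟩ := small (le_refl (0:ℝ)) hη (show 0 < g0/2 by positivity)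
    obtain ⟨U, hUp, hUle, hUconv, hUnb, hUf, hUvs, hUys⟩ := loc hg p ε hε
    refine ⟨δ, hδ, U, hUp, hUnb, ?_⟩
    intro b hUb P a Q h1 h2 h3
    by_contra hyb
    push Not at hyb
    have hyb2 : (y b)^2 ≤ δ^2 := by rw [← sq_abs]; exact pow_le_pow_left₀ (abs_nonneg _) hyb.le 2
    obtain ⟨hP, haQ, hPQ⟩ := List.pairwise_append.1 h1
    obtain ⟨haQ1, hbQ⟩ := List.pairwise_cons.1 haQ
    obtain ⟨hbQ1, hQ⟩ := List.pairwise_cons.1 hbQ
    have hbc : b ≤ c := le_trans (hUle b hUb) hpc
    have hac : a < c := lt_of_lt_of_le (haQ1 b (by simp)) hbc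
    obtain ⟨Q1, Q2, e, hQ1, hQ2⟩ := split_le c Q hQ
    subst e
    obtain ⟨hQ1p, hQ2p, hQ12⟩ := List.pairwise_append.1 hQ
    have hnew : (P ++ a :: c :: Q2).Pairwise (· < ·) := by
      rw [List.pairwise_append]
      refine ⟨hP, List.pairwise_cons.2 ⟨?_, List.pairwise_cons.2 ⟨hQ2, hQ2p⟩⟩, ?_⟩
      · intro x hx
        rcases List.mem_cons.1 hx with rfl | hx
        · exact hac
        · exact lt_trans hac (hQ2 x hx)
      · intro x hx z hz
        have hxa := hPQ x hx a (by simp)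
        rcases List.mem_cons.1 hz with rfl | hz
        · exact hxa
        rcases List.mem_cons.1 hz with rfl | hz
        · exact lt_trans hxa hac
        · exact lt_trans hxa (lt_trans hac (hQ2 z hz))
    have hle := le_Psi_of hg.cbdd hnew
    have hreg : ∀ x ∈ b :: Q1, U x ∨ (p ≤ x ∧ x ≤ c) := by
      intro x hx
      rcases List.mem_cons.1 hx with rfl | hx
      · exact Or.inl hUb
      · rcases le_total x p with h | h
        · exact Or.inl (hUconv b x hUb (hbQ1 x (by simp [hx])).le h)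
        · exact Or.inr ⟨h, hQ1 x hx⟩
    have hbQ1' : (b :: Q1).Pairwise (· < ·) :=
      List.pairwise_cons.2 ⟨fun x hx => hbQ1 x (by simp [hx]), hQ1p⟩
    obtain ⟨hv, hyy⟩ := region hpc hUp hUle hUvs hUys hconst hy0 hbQ1' hreg
    obtain ⟨x, hx, htl⟩ := tl_app (f := f) (y := y) Q1 Q2 b
    have hfx : |f x - f c| ≤ ε := by
      rw [hconst c hpc le_rfl]
      rcases hreg x hx with h | h
      · exact (hUf x h).le
      · rw [hconst x h.1 h.2]; simpa using hε.le
    have hfb : |f b - f c| ≤ ε := by rw [hconst c hpc le_rfl]; exact (hUf b hUb).le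
    have e2 := tl_exch hg (Q := Q2) hfx
    have e3 := seg_le f y Q1 b
    have e4 := rho_ub2 (f b - f a) (y b)
    have e5 := sq_diff (hg.bdd b) (hg.bdd c) (hg.bdd a) hfb
    have hη2 : η/2 ≤ |f c - f a| := by
      have e : f b - f a = (f b - f c) + (f c - f a) := by ring
      rw [e] at h3
      have := abs_add_le (f b - f c) (f c - f a)
      linarith
    have e6 := rho_gain (u := f c - f a) (z := y c) (show 0 ≤ η/2 by positivity) hη2
    rw [← hg0def] at e6
    rw [cost_append] at hle h2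
    simp only [tl] at hle h2
    rw [htl] at h2
    nlinarith
  · have hg0 : 0 < (η/2)^2 := by positivity
    obtain ⟨ε, hε, hε1, hε2⟩ := small hM hη (show 0 < (η/2)^2 by positivity)
    obtain ⟨δ, hδ, hδ1, hδ2⟩ := small (le_refl (0:ℝ)) hη (show 0 < (η/2)^2 by positivity)
    obtain ⟨U, hUp, hUle, hUconv, hUnb, hUf, hUvs, hUys⟩ := loc hg p ε hε
    refine ⟨δ, hδ, U, hUp, hUnb, ?_⟩
    intro b hUb P a Q h1 h2 h3
    by_contra hyb
    push Not at hyb
    have hyb2 : (y b)^2 ≤ δ^2 := by rw [← sq_abs]; exact pow_le_pow_left₀ (abs_nonneg _) hyb.le 2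
    obtain ⟨hP, haQ, hPQ⟩ := List.pairwise_append.1 h1
    obtain ⟨haQ1, hbQ⟩ := List.pairwise_cons.1 haQ
    obtain ⟨hbQ1, hQ⟩ := List.pairwise_cons.1 hbQ
    have hnew : (P ++ [a]).Pairwise (· < ·) := by
      rw [List.pairwise_append]
      refine ⟨hP, by simp, ?_⟩
      intro x hx z hz
      rw [List.mem_singleton] at hz
      rw [hz]
      exact hPQ x hx a (by simp)
    have hle := le_Psi_of hg.cbdd hnew
    have hreg : ∀ x ∈ b :: Q, U x ∨ (p ≤ x ∧ x ≤ (⊤ : X)) := by
      intro x hx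
      rcases List.mem_cons.1 hx with rfl | hx
      · exact Or.inl hUb
      · rcases le_total x p with h | h
        · exact Or.inl (hUconv b x hUb (hbQ1 x hx).le h)
        · exact Or.inr ⟨h, le_top⟩
    obtain ⟨hv, hyy⟩ := region (c := ⊤) le_top hUp hUle hUvs hUys
      (fun x hx _ => by rw [h0 x hx, h0 p le_rfl]) (fun x hx _ => hy0 x hx) hbQ hreg
    rw [hg.ytop] at hyy
    obtain ⟨x, hx, htl⟩ := tl_app (f := f) (y := y) Q [] b
    rw [List.append_nil] at htl
    have hsm : ∀ x, (U x ∨ (p ≤ x ∧ x ≤ (⊤ : X))) → |f x| ≤ ε := by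
      intro x hx
      rcases hx with h | h
      · have := hUf x h
        rw [h0 p le_rfl, sub_zero] at this
        exact this.le
      · rw [h0 x h.1]; simpa using hε.le
    have hfx := hsm x (hreg x hx)
    have hfb := hsm b (Or.inl hUb)
    have hfx2 : (f x)^2 ≤ ε^2 := by rw [← sq_abs]; exact pow_le_pow_left₀ (abs_nonneg _) hfx 2
    have e3 := seg_le f y Q b
    have e4 := rho_ub2 (f b - f a) (y b)
    have e5 := sq_diff (a := f b) (b := 0) (c := f a) (hg.bdd b) (by simpa using hM) (hg.bdd a) (by simpa using hfb)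
    have hη2 : η/2 ≤ |f a| := by
      have := abs_sub (f b) (f a)
      linarith
    have hη3 : (η/2)^2 ≤ (f a)^2 := by
      rw [← sq_abs (f a)]; exact pow_le_pow_left₀ (by positivity) hη2 2
    rw [cost_append] at hle h2
    simp only [tl] at hle h2 htl
    rw [htl] at h2
    nlinarith

end WO

end LJ
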