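import Pool.Agent.Helper937.James4

set_option linter.unusedSectionVars false
set_option linter.unusedVariables false

namespace LJ

section WO
variable {X : Type*} [LinearOrder X] [OrderTop X] [WellFoundedLT X]
variable {f y : X → ℝ} {M : ℝ}

lemma vs_split (f : X → ℝ) (l1 l2 : List X) (a z : X) : ∃ x P, a :: l1 = P ++ [x] ∧
    vs f a (l1 ++ z :: l2) = vs f a l1 + (f z - f x)^2 + vs f z l2 := by
  rcases List.eq_nil_or_concat l1 with rfl | ⟨l', x, rfl⟩
  · exact ⟨a, [], by simp, by simp [vs]⟩
  · refine ⟨x, a :: l', by simp, ?_⟩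
    rw [List.concat_eq_append, List.append_assoc, List.singleton_append, vs_append]
    simp only [vs]; ring

/-- if all gaps are small then the total variation sum is small -/
lemma small_gaps (hg : Good f y M) {ε : ℝ} (hε : 0 < ε) : ∃ η > 0, ∀ (a : X) (l : List X),
    (a :: l).Pairwise (· < ·) → (∀ P x z Q, a :: l = P ++ x :: z :: Q → |f z - f x| < η) → vs f a l < ε := by
  have key : ∀ p : X, ∀ ε : ℝ, 0 < ε → ∃ η > 0, ∀ (a : X) (l : List X),
      (a :: l).Pairwise (· < ·) → (∀ x ∈ a :: l, x ≤ p) →
      (∀ P x z Q, a :: l = P ++ x :: z :: Q → |f z - f x| < η) → vs f a l < ε := by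
    intro p
    induction p using WellFoundedLT.induction with
    | _ p ih =>
      intro ε hε
      by_cases hp : ∃ l, l < p
      · obtain ⟨μ, hμ, hμ2⟩ := hg.tail p hp (ε/3) (by positivity)
        obtain ⟨η0, hη0, hη1⟩ := ih μ hμ (ε/3) (by positivity)
        refine ⟨min η0 (min 1 (ε/3)), by positivity, ?_⟩
        intro a l hal hle hgap
        obtain ⟨l1, l2, e, h1, h2⟩ := split_le μ (a :: l) hal
        have hall := hal
        rw [e] at hall
        obtain ⟨hp1, hpq2, hp12⟩ := List.pairwise_append.1 hall
        cases l1 with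
        | nil =>
          rw [List.nil_append] at e
          have : vs f a l < ε/3 := by
            apply hμ2 a l (hal.imp (fun h => le_of_lt h))
            intro x hx
            exact ⟨h2 x (e ▸ hx), hle x hx⟩
          linarith
        | cons a' l1' =>
          rw [List.cons_append] at e
          obtain ⟨rfl, e'⟩ := List.cons_eq_cons.1 e
          have hv1 : vs f a l1' < ε/3 := by
            apply hη1 a l1' hp1 h1
            intro P x z Q he
            apply lt_of_lt_of_le (hgap P x z (Q ++ l2) _) (min_le_left _ _)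
            rw [e, ← List.cons_append, he]; simp
          cases l2 with
          | nil => rw [e', List.append_nil]; linarith
          | cons z l2' =>
            obtain ⟨x, P, hx, hvs⟩ := vs_split f l1' l2' a z
            rw [e', hvs]
            have hz : vs f z l2' < ε/3 := by
              apply hμ2 z l2' (hpq2.imp (fun h => le_of_lt h))
              intro w hw
              exact ⟨h2 w hw, hle w (by rw [e, ← List.cons_append]; exact List.mem_append_right _ hw)⟩
            have hgz : |f z - f x| < min η0 (min 1 (ε/3)) := by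
              apply hgap P x z l2'
              rw [e, ← List.cons_append, hx]; simp
            have hz1 : |f z - f x| < 1 := lt_of_lt_of_le hgz (le_trans (min_le_right _ _) (min_le_left _ _))
            have hz2 : |f z - f x| < ε/3 := lt_of_lt_of_le hgz (le_trans (min_le_right _ _) (min_le_right _ _))
            have : (f z - f x)^2 < ε/3 := by
              rw [← sq_abs]; nlinarith [abs_nonneg (f z - f x)]
            linarith
      · push Not at hp
        refine ⟨1, one_pos, ?_⟩
        intro a l hal hle _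
        rw [vs_zero (v := f p) l a (fun x hx => by rw [le_antisymm (hle x hx) (hp x)])]
        exact hε
  obtain ⟨η, hη, h⟩ := key ⊤ ε hε
  exact ⟨η, hη, fun a l hal hgap => h a l hal (fun x _ => le_top) hgap⟩

lemma ys_filter (y : X → ℝ) (p : X → Prop) [DecidablePred p] : ∀ l : List X, (∀ x ∈ l, ¬ p x → y x = 0) →
    ys y l = ys y (l.filter (fun x => p x)) := by
  intro l
  induction l with
  | nil => intro _; simp [ys]
  | cons a l ih =>
    intro h
    have ih' := ih (fun x hx => h x (List.mem_cons_of_mem _ hx))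
    by_cases hp : p a
    · rw [List.filter_cons_of_pos (by simpa using hp)]
      simp only [ys]; rw [ih']
    · rw [List.filter_cons_of_neg (by simpa using hp)]
      simp only [ys]; rw [ih', h a (by simp) hp]; ring

lemma small_ys (hg : Good f y M) {ε : ℝ} (hε : 0 < ε) : ∃ δ > 0, ∀ l : List X, l.Nodup →
    (∀ x ∈ l, |y x| < δ) → ys y l < ε := by
  classical
  obtain ⟨F, hF⟩ := hg.ysum ε hε
  have h1 : ∃ δ > 0, ∀ x ∈ F, |y x| < δ → y x = 0 := by
    clear hF
    induction F using Finset.induction_on with
    | empty => exact ⟨1, one_pos, by simp⟩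
    | insert a F ha ih =>
      obtain ⟨δ, hδ, h⟩ := ih
      by_cases hya : y a = 0
      · refine ⟨δ, hδ, ?_⟩
        intro x hx hxd
        rcases Finset.mem_insert.1 hx with rfl | hx
        · exact hya
        · exact h x hx hxd
      · refine ⟨min δ |y a|, lt_min hδ (abs_pos.2 hya), ?_⟩
        intro x hx hxd
        rcases Finset.mem_insert.1 hx with rfl | hx
        · exact absurd (lt_of_lt_of_le hxd (min_le_right _ _)) (lt_irrefl _)
        · exact h x hx (lt_of_lt_of_le hxd (min_le_left _ _))
  obtain ⟨δ, hδ, h⟩ := h1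
  refine ⟨δ, hδ, ?_⟩
  intro l hl hld
  rw [ys_filter y (fun x => y x ≠ 0) l (by intro x _ hx; push Not at hx; exact hx)]
  apply hF _ (hl.filter _)
  intro x hx hxF
  rw [List.mem_filter] at hx
  have := h x hxF (hld x hx.1)
  simp [this] at hx

lemma fin_y (hg : Good f y M) {δ : ℝ} (hδ : 0 < δ) : {x | δ ≤ |y x|}.Finite := by
  obtain ⟨F, hF⟩ := hg.ysum (δ^2) (by positivity)
  apply (Finset.finite_toSet F).subset
  intro x hx
  by_contra hxF
  have := hF [x] (by simp) (by simpa using hxF)
  simp only [ys] at this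
  have hx' : δ ≤ |y x| := hx
  have : δ^2 ≤ (y x)^2 := by rw [← sq_abs (y x)]; exact pow_le_pow_left₀ hδ.le hx' 2
  linarith

/-- derivative of the cost in the direction of the indicator of {x ≤ β} -/
noncomputable def DD (f y : X → ℝ) (β : X) : X → List X → ℝ
  | a, [] => if a ≤ β then 8 * f a else 0
  | a, b :: l => (if a ≤ β ∧ β < b then -rhoD (f b - f a) (y b) else 0) + DD f y β b l

noncomputable def DL (f y : X → ℝ) (β : X) : List X → ℝ
  | [] => 0
  | a :: l => DD f y β a l

lemma DD_gt (β : X) : ∀ (l : List X) (a : X), β < a → (a :: l).Pairwise (· < ·) → DD f y β a l = 0 := by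
  intro l
  induction l with
  | nil => intro a ha _; simp [DD, ha]
  | cons b l ih =>
    intro a ha h
    obtain ⟨h1, h2⟩ := List.pairwise_cons.1 h
    simp only [DD]
    rw [ih b (lt_trans ha (h1 b (by simp))) h2, if_neg (fun h => absurd h.1 (not_le.2 ha))]
    simp

lemma DD_cases (β : X) : ∀ (l : List X) (a : X), a ≤ β → (a :: l).Pairwise (· < ·) →
    (∃ P x z Q, a :: l = P ++ x :: z :: Q ∧ x ≤ β ∧ β < z ∧ DD f y β a l = -rhoD (f z - f x) (y z)) ∨
    (∃ P x, a :: l = P ++ [x] ∧ x ≤ β ∧ DD f y β a l = 8 * f x) := by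
  intro l
  induction l with
  | nil => intro a ha _; right; exact ⟨[], a, by simp, ha, by simp [DD, ha]⟩
  | cons b l ih =>
    intro a ha h
    obtain ⟨h1, h2⟩ := List.pairwise_cons.1 h
    by_cases hb : b ≤ β
    · have e : DD f y β a (b :: l) = DD f y β b l := by
        simp only [DD]; rw [if_neg (fun h => absurd h.2 (not_lt.2 hb))]; simp
      rcases ih b hb h2 with ⟨P, x, z, Q, e1, e2, e3, e4⟩ | ⟨P, x, e1, e2, e3⟩
      · left; exact ⟨a :: P, x, z, Q, by rw [e1]; simp, e2, e3, by rw [e, e4]⟩
      · right; exact ⟨a :: P, x, by rw [e1]; simp, e2, by rw [e, e3]⟩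
    · left
      have hb' := not_le.1 hb
      refine ⟨[], a, b, l, by simp, ha, hb', ?_⟩
      simp only [DD]; rw [if_pos ⟨ha, hb'⟩, DD_gt β l b hb' h2]; simp

lemma DL_cases (β : X) (L : List X) (h : L.Pairwise (· < ·)) : DL f y β L = 0 ∨
    (∃ P x z Q, L = P ++ x :: z :: Q ∧ x ≤ β ∧ β < z ∧ DL f y β L = -rhoD (f z - f x) (y z)) ∨
    (∃ P x, L = P ++ [x] ∧ x ≤ β ∧ DL f y β L = 8 * f x) := by
  cases L with
  | nil => left; rfl
  | cons a l =>
    by_cases ha : a ≤ β
    · right; exact DD_cases β l a ha h
    · left; exact DD_gt β l a (not_le.1 ha) h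

lemma DD_append (β : X) {a : X} {l : List X} (ha : a ≤ β) : ∀ (P : List X) (x : X), (∀ w ∈ x :: P, w ≤ β) →
    DD f y β x (P ++ a :: l) = DD f y β a l := by
  intro P
  induction P with
  | nil =>
    intro x _
    rw [List.nil_append]
    simp only [DD]; rw [if_neg (fun h => absurd h.2 (not_lt.2 ha))]; simp
  | cons z P ih =>
    intro x hx
    rw [List.cons_append]
    simp only [DD]
    rw [if_neg (fun h => absurd h.2 (not_lt.2 (hx z (by simp)))), ih z (fun w hw => hx w (List.mem_cons_of_mem _ hw))]
    simp

lemma DL_append (β : X) {a : X} {P l : List X} (ha : a ≤ β) (hP : ∀ w ∈ P, w ≤ β) :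
    DL f y β (P ++ a :: l) = DD f y β a l := by
  cases P with
  | nil => rfl
  | cons x P => exact DD_append β ha P x hP

lemma DL_bound (hg : Good f y M) (β : X) (L : List X) (h : L.Pairwise (· < ·)) : |DL f y β L| ≤ 8*M := by
  have hM := M_nonneg hg
  rcases DL_cases (f := f) (y := y) β L h with e | ⟨P, x, z, Q, _, _, _, e⟩ | ⟨P, x, _, _, e⟩
  · rw [e]; simp; exact hM
  · rw [e, abs_neg]
    have h1 := abs_rhoD (f z - f x) (y z)
    have h2 := abs_sub (f z) (f x)
    have := hg.bdd z; have := hg.bdd x
    linarith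
  · rw [e, abs_mul]
    have := hg.bdd x
    have : |(8:ℝ)| = 8 := by norm_num
    rw [this]; linarith

/-- moving f in the direction of the indicator of {x ≤ β} -/
noncomputable def mv (f : X → ℝ) (β : X) (t : ℝ) : X → ℝ := fun x => f x + if x ≤ β then t else 0

lemma tl_mv_gt (β : X) (t : ℝ) : ∀ (l : List X) (a : X), β < a → (a :: l).Pairwise (· < ·) →
    tl (mv f β t) y a l = tl f y a l := by
  intro l
  induction l with
  | nil => intro a ha _; simp [tl, mv, not_le.2 ha]
  | cons b l ih =>
    intro a ha h
    obtain ⟨h1, h2⟩ := List.pairwise_cons.1 h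
    have hb := lt_trans ha (h1 b (by simp))
    simp only [tl]
    rw [ih b hb h2]
    simp [mv, not_le.2 ha, not_le.2 hb]

lemma tl_mv (β : X) (t : ℝ) : ∀ (l : List X) (a : X), a ≤ β → (a :: l).Pairwise (· < ·) →
    tl (mv f β t) y a l ≤ tl f y a l + t * DD f y β a l + 4*t^2 := by
  intro l
  induction l with
  | nil => intro a ha _; simp only [tl, mv, DD, ha, if_true]; nlinarith
  | cons b l ih =>
    intro a ha h
    obtain ⟨h1, h2⟩ := List.pairwise_cons.1 h
    by_cases hb : b ≤ β
    · have e : DD f y β a (b :: l) = DD f y β b l := by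
        simp only [DD]; rw [if_neg (fun h => absurd h.2 (not_lt.2 hb))]; simp
      have := ih b hb h2
      rw [e]
      simp only [tl]
      have e2 : mv f β t b - mv f β t a = f b - f a := by simp [mv, ha, hb]
      rw [e2]; linarith
    · have hb' := not_le.1 hb
      have e : DD f y β a (b :: l) = -rhoD (f b - f a) (y b) := by
        simp only [DD]; rw [if_pos ⟨ha, hb'⟩, DD_gt β l b hb' h2]; simp
      rw [e]
      simp only [tl]
      rw [tl_mv_gt β t l b hb' h2]
      have e2 : mv f β t b - mv f β t a = (f b - f a) + (-t) := by simp [mv, ha, hb]; ring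
      rw [e2]
      have := rho_taylor (f b - f a) (y b) (-t)
      nlinarith [sq_nonneg t]

lemma cost_mv (β : X) (t : ℝ) (L : List X) (h : L.Pairwise (· < ·)) :
    cost (mv f β t) y L ≤ cost f y L + t * DL f y β L + 4*t^2 := by
  cases L with
  | nil => simp only [cost, DL]; nlinarith [sq_nonneg t]
  | cons a l =>
    simp only [cost, DL]
    by_cases ha : a ≤ β
    · have := tl_mv (f := f) (y := y) β t l a ha h; linarith
    · have ha' := not_le.1 ha
      rw [tl_mv_gt β t l a ha' h, DD_gt β l a ha' h]
      nlinarith [sq_nonneg t]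

end WO

end LJ
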