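import Pool.Agent.Helper937.James5

set_option linter.unusedSectionVars false
set_option linter.unusedVariables false

namespace LJ

section WO
variable {X : Type*} [LinearOrder X] [OrderTop X] [WellFoundedLT X]
variable {f y : X → ℝ} {M : ℝ}

lemma fin_min {Y : Type*} {T : Set Y} (hT : T.Finite) (A : Y → ℝ → Prop)
    (hanti : ∀ c γ γ', 0 < γ' → γ' ≤ γ → A c γ → A c γ') (h : ∀ c ∈ T, ∃ γ > 0, A c γ) :
    ∃ γ > 0, ∀ c ∈ T, A c γ := by
  induction T, hT using Set.Finite.induction_on with
  | empty => exact ⟨1, one_pos, by simp⟩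
  | @insert a s ha hs ih =>
    obtain ⟨γ1, h1, h1'⟩ := ih (fun c hc => h c (Set.mem_insert_of_mem _ hc))
    obtain ⟨γ2, h2, h2'⟩ := h a (Set.mem_insert _ _)
    refine ⟨min γ1 γ2, lt_min h1 h2, ?_⟩
    intro c hc
    rcases hc with rfl | hc
    · exact hanti _ _ _ (lt_min h1 h2) (min_le_right _ _) h2'
    · exact hanti _ _ _ (lt_min h1 h2) (min_le_left _ _) (h1' c hc)

/-- every point is either forced on or forced off nearly optimal chains -/
def Dec (f y : X → ℝ) : Prop := ∀ c, y c ≠ 0 →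
  (∃ γ > 0, ∀ L : List X, L.Pairwise (· < ·) → c ∈ L → cost f y L ≤ Psi f y - γ) ∨
  (∃ γ > 0, ∀ L : List X, L.Pairwise (· < ·) → c ∉ L → cost f y L ≤ Psi f y - γ)

lemma caseE1 (hg : Good f y M) (hdec : Dec f y) {β a b : X} (ha : a ≤ β) (hb : β < b) (hab : f b ≠ f a)
    (hE : ∀ δ > 0, ∃ P Q : List X, (P ++ a :: b :: Q).Pairwise (· < ·) ∧ Psi f y - δ ≤ cost f y (P ++ a :: b :: Q)) :
    ∃ δ > 0, ∀ L : List X, L.Pairwise (· < ·) → Psi f y - δ ≤ cost f y L →
      DL f y β L = -rhoD (f b - f a) (y b) := by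
  have hab' : a < b := lt_of_le_of_lt ha hb
  have hne : 0 < |f b - f a| := abs_pos.2 (sub_ne_zero.2 hab)
  set u0 := (f b - f a)^2 with hu0
  have hu0p : 0 < u0 := by rw [hu0, ← sq_abs]; positivity
  obtain ⟨η1, hη1, hsg⟩ := small_gaps hg (show 0 < u0/8 by positivity)
  obtain ⟨δ2, hδ2, hsy⟩ := small_ys hg (show 0 < u0/8 by positivity)
  obtain ⟨δc1, hδc1, hc1⟩ := claim1 hg hη1
  obtain ⟨δc2, hδc2, hc2⟩ := claim2 hg hη1
  -- a and b carry bonus
  have hya : y a ≠ 0 := by
    obtain ⟨δ, hδ, h⟩ := claim1 hg hne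
    obtain ⟨P, Q, h1, h2⟩ := hE δ hδ
    have := h a P (b :: Q) h1 h2 (Or.inr ⟨b, Q, rfl, le_rfl⟩)
    intro h0; rw [h0, abs_zero] at this; linarith
  have hyb : y b ≠ 0 := by
    obtain ⟨δ, hδ, h⟩ := claim2 hg hne
    obtain ⟨P, Q, h1, h2⟩ := hE δ hδ
    have := h b P a Q h1 h2 le_rfl
    intro h0; rw [h0, abs_zero] at this; linarith
  have hγa : ∃ γ > 0, ∀ L : List X, L.Pairwise (· < ·) → a ∉ L → cost f y L ≤ Psi f y - γ := by
    rcases hdec a hya with ⟨γ, hγ, h⟩ | h
    · obtain ⟨P, Q, h1, h2⟩ := hE (γ/2) (by positivity)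
      have := h _ h1 (by simp); linarith
    · exact h
  have hγb : ∃ γ > 0, ∀ L : List X, L.Pairwise (· < ·) → b ∉ L → cost f y L ≤ Psi f y - γ := by
    rcases hdec b hyb with ⟨γ, hγ, h⟩ | h
    · obtain ⟨P, Q, h1, h2⟩ := hE (γ/2) (by positivity)
      have := h _ h1 (by simp); linarith
    · exact h
  obtain ⟨γa, hγa, hAa⟩ := hγa
  obtain ⟨γb, hγb, hAb⟩ := hγb
  set δ' := min (min δc1 δc2) δ2 with hδ'
  have hδ'p : 0 < δ' := by positivity
  have hfin : ({x | δ' ≤ |y x|} ∩ {x | a < x ∧ x < b}).Finite := (fin_y hg hδ'p).subset Set.inter_subset_left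
  obtain ⟨γT, hγT, hT⟩ := fin_min hfin (fun c γ => ∀ L : List X, L.Pairwise (· < ·) → c ∈ L → cost f y L ≤ Psi f y - γ)
    (by intro c γ γ' _ hle h L hL hc; have := h L hL hc; linarith)
    (by
      intro c hc
      have hyc : y c ≠ 0 := by
        intro h0
        have : δ' ≤ |y c| := hc.1
        rw [h0, abs_zero] at this; linarith
      rcases hdec c hyc with h | ⟨γ, hγ, h⟩
      · exact h
      · obtain ⟨P, Q, h1, h2⟩ := hE (γ/2) (by positivity)
        have hcn : c ∉ P ++ a :: b :: Q := by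
          obtain ⟨hP, haQ, hPQ⟩ := List.pairwise_append.1 h1
          obtain ⟨haQ1, hbQ⟩ := List.pairwise_cons.1 haQ
          obtain ⟨hbQ1, hQ⟩ := List.pairwise_cons.1 hbQ
          intro hmem
          rcases List.mem_append.1 hmem with h | h
          · exact absurd (hPQ c h a (by simp)) (not_lt.2 hc.2.1.le)
          rcases List.mem_cons.1 h with rfl | h
          · exact absurd hc.2.1 (lt_irrefl _)
          rcases List.mem_cons.1 h with rfl | h
          · exact absurd hc.2.2 (lt_irrefl _)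
          · exact absurd (hbQ1 c h) (not_lt.2 hc.2.2.le)
        have := h _ h1 hcn; linarith)
  refine ⟨min (min (min δc1 δc2) (min (γa/2) (γb/2))) (min (γT/2) (u0/4)), by positivity, ?_⟩
  set δ := min (min (min δc1 δc2) (min (γa/2) (γb/2))) (min (γT/2) (u0/4)) with hδdef
  have d1 : δ ≤ δc1 := by simp [hδdef]
  have d2 : δ ≤ δc2 := by simp [hδdef]
  have d3 : δ ≤ γa/2 := by simp [hδdef]
  have d4 : δ ≤ γb/2 := by simp [hδdef]
  have d5 : δ ≤ γT/2 := by simp [hδdef]
  have d6 : δ ≤ u0/4 := by simp [hδdef]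
  intro L hL hnear
  have haL : a ∈ L := by
    by_contra h; have := hAa L hL h; linarith
  have hbL : b ∈ L := by
    by_contra h; have := hAb L hL h; linarith
  have hnoT : ∀ c, δ' ≤ |y c| → a < c → c < b → c ∉ L := by
    intro c h1 h2 h3 hc
    have := hT c ⟨h1, h2, h3⟩ L hL hc; linarith
  obtain ⟨P', R, rfl⟩ := List.append_of_mem haL
  obtain ⟨hP, haR, hPR⟩ := List.pairwise_append.1 hL
  obtain ⟨haR1, hR⟩ := List.pairwise_cons.1 haR
  have hbR : b ∈ R := by
    rcases List.mem_append.1 hbL with h | h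
    · exact absurd (hPR b h a (by simp)) (not_lt.2 hab'.le)
    rcases List.mem_cons.1 h with rfl | h
    · exact absurd hab' (lt_irrefl _)
    · exact h
  obtain ⟨M', Q', rfl⟩ := List.append_of_mem hbR
  obtain ⟨hM', hbQ', hMQ⟩ := List.pairwise_append.1 hR
  have hP'β : ∀ w ∈ P', w ≤ β := fun w hw => le_trans (hPR w hw a (by simp)).le ha
  rcases eq_or_ne M' [] with rfl | hMne
  · rw [DL_append β ha hP'β, List.nil_append]
    simp only [DD]
    rw [if_pos ⟨ha, hb⟩, DD_gt β Q' b hb hbQ']; simp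
  · exfalso
    have hMmem : ∀ w ∈ M', a < w ∧ w < b := fun w hw => ⟨haR1 w (by simp [hw]), hMQ w hw b (by simp)⟩
    have hsub : (a :: (M' ++ [b])).Pairwise (· < ·) := by
      have hs : (a :: (M' ++ [b])).Sublist (P' ++ a :: (M' ++ b :: Q')) := by
        apply List.Sublist.trans _ (List.sublist_append_right _ _)
        apply List.Sublist.cons_cons
        apply List.Sublist.append_left
        apply List.Sublist.cons_cons
        simp
      exact hL.sublist hs
    have hgap : ∀ P x z Q, a :: (M' ++ [b]) = P ++ x :: z :: Q → |f z - f x| < η1 := by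
      intro P x z Q e
      by_contra hge
      push Not at hge
      have eL : P' ++ a :: (M' ++ b :: Q') = (P' ++ P) ++ x :: z :: (Q ++ Q') := by
        have : a :: (M' ++ b :: Q') = (a :: (M' ++ [b])) ++ Q' := by simp
        rw [this, e]; simp
      have k1 := hc1 x (P' ++ P) (z :: (Q ++ Q')) (eL ▸ hL) (by rw [← eL]; linarith) (Or.inr ⟨z, _, rfl, hge⟩)
      have k2 := hc2 z (P' ++ P) x (Q ++ Q') (eL ▸ hL) (by rw [← eL]; linarith) hge
      have hxz : x < z := by
        have hh := hsub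
        rw [e] at hh
        exact (List.pairwise_cons.1 (List.pairwise_append.1 hh).2.1).1 z (by simp)
      have hz_le : z ≤ b := by
        have : z ∈ a :: (M' ++ [b]) := by rw [e]; simp
        rcases List.mem_cons.1 this with rfl | h
        · exact hab'.le
        rcases List.mem_append.1 h with h | h
        · exact (hMmem z h).2.le
        · rw [List.mem_singleton.1 h]
      have hmid : ∃ w, w ∈ M' ∧ (w = x ∨ w = z) := by
        cases P with
        | nil =>
          rw [List.nil_append] at e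
          obtain ⟨e1, e2⟩ := List.cons_eq_cons.1 e
          cases M' with
          | nil => exact absurd rfl hMne
          | cons m M'' =>
            rw [List.cons_append] at e2
            obtain ⟨e3, e4⟩ := List.cons_eq_cons.1 e2
            exact ⟨m, by simp, Or.inr e3⟩
        | cons p0 P0 =>
          rw [List.cons_append] at e
          obtain ⟨e1, e2⟩ := List.cons_eq_cons.1 e
          have hx : x ∈ M' ++ [b] := by rw [e2]; simp
          rcases List.mem_append.1 hx with h | h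
          · exact ⟨x, h, Or.inl rfl⟩
          · rw [List.mem_singleton] at h
            rw [h] at hxz
            exact absurd hxz (not_lt.2 hz_le)
      obtain ⟨w, hw, hw2⟩ := hmid
      have hyw : δ' ≤ |y w| := by
        rcases hw2 with rfl | rfl
        · exact le_trans (le_trans (min_le_left _ _) (min_le_left _ _)) k1
        · exact le_trans (le_trans (min_le_left _ _) (min_le_right _ _)) k2
      exact hnoT w hyw (hMmem w hw).1 (hMmem w hw).2 (by simp [hw])
    have hvs := hsg a (M' ++ [b]) hsub hgap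
    have hyM : ys y M' < u0/8 := by
      apply hsy M' (hM'.imp (fun h => ne_of_lt h))
      intro w hw
      by_contra hge
      push Not at hge
      exact hnoT w (le_trans (min_le_right _ _) hge) (hMmem w hw).1 (hMmem w hw).2 (by simp [hw])
    have hseg := seg_le f y (M' ++ [b]) a
    rw [ys_append] at hseg
    simp only [ys] at hseg
    have hnew : (P' ++ a :: b :: Q').Pairwise (· < ·) := by
      have hs : (P' ++ a :: b :: Q').Sublist (P' ++ a :: (M' ++ b :: Q')) := by
        apply List.Sublist.append_left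
        apply List.Sublist.cons_cons
        exact List.sublist_append_right _ _
      exact hL.sublist hs
    have hle := le_Psi_of hg.cbdd hnew
    rw [cost_append] at hle hnear
    rw [tl_append] at hnear
    simp only [tl] at hle
    have := rho_lb (f b - f a) (y b)
    rw [← hu0] at this
    linarith

lemma caseE2 (hg : Good f y M) (hdec : Dec f y) {β a : X} (ha : a ≤ β) (hfa : f a ≠ 0)
    (hE : ∀ δ > 0, ∃ P : List X, (P ++ [a]).Pairwise (· < ·) ∧ Psi f y - δ ≤ cost f y (P ++ [a])) :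
    ∃ δ > 0, ∀ L : List X, L.Pairwise (· < ·) → Psi f y - δ ≤ cost f y L → DL f y β L = 8 * f a := by
  have hne : 0 < |f a| := abs_pos.2 hfa
  set v0 := 4*(f a)^2 with hv0
  have hv0p : 0 < v0 := by rw [hv0]; positivity
  obtain ⟨η1, hη1, hsg⟩ := small_gaps hg (show 0 < v0/16 by positivity)
  obtain ⟨δ2, hδ2, hsy⟩ := small_ys hg (show 0 < v0/16 by positivity)
  set η := min η1 (min 1 (v0/128)) with hη
  have hηp : 0 < η := by positivity
  obtain ⟨δc1, hδc1, hc1⟩ := claim1 hg hηp
  obtain ⟨δc2, hδc2, hc2⟩ := claim2 hg hηp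
  have hya : y a ≠ 0 := by
    obtain ⟨δ, hδ, h⟩ := claim1 hg hne
    obtain ⟨P, h1, h2⟩ := hE δ hδ
    have := h a P [] h1 h2 (Or.inl ⟨rfl, le_rfl⟩)
    intro h0; rw [h0, abs_zero] at this; linarith
  have hγa : ∃ γ > 0, ∀ L : List X, L.Pairwise (· < ·) → a ∉ L → cost f y L ≤ Psi f y - γ := by
    rcases hdec a hya with ⟨γ, hγ, h⟩ | h
    · obtain ⟨P, h1, h2⟩ := hE (γ/2) (by positivity)
      have := h _ h1 (by simp); linarith
    · exact h
  obtain ⟨γa, hγa, hAa⟩ := hγa
  set δ' := min (min δc1 δc2) δ2 with hδ'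
  have hδ'p : 0 < δ' := by positivity
  have hfin : ({x | δ' ≤ |y x|} ∩ {x | a < x}).Finite := (fin_y hg hδ'p).subset Set.inter_subset_left
  obtain ⟨γT, hγT, hT⟩ := fin_min hfin (fun c γ => ∀ L : List X, L.Pairwise (· < ·) → c ∈ L → cost f y L ≤ Psi f y - γ)
    (by intro c γ γ' _ hle h L hL hc; have := h L hL hc; linarith)
    (by
      intro c hc
      have hyc : y c ≠ 0 := by
        intro h0
        have : δ' ≤ |y c| := hc.1
        rw [h0, abs_zero] at this; linarith
      rcases hdec c hyc with h | ⟨γ, hγ, h⟩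
      · exact h
      · obtain ⟨P, h1, h2⟩ := hE (γ/2) (by positivity)
        have hcn : c ∉ P ++ [a] := by
          obtain ⟨hP, haQ, hPQ⟩ := List.pairwise_append.1 h1
          intro hmem
          rcases List.mem_append.1 hmem with h | h
          · exact absurd (hPQ c h a (by simp)) (not_lt.2 (le_of_lt hc.2))
          · rw [List.mem_singleton] at h
            have : a < c := hc.2
            rw [h] at this
            exact lt_irrefl _ this
        have := h _ h1 hcn; linarith)
  refine ⟨min (min (min δc1 δc2) (γa/2)) (min (γT/2) (v0/4)), by positivity, ?_⟩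
  set δ := min (min (min δc1 δc2) (γa/2)) (min (γT/2) (v0/4)) with hδdef
  have d1 : δ ≤ δc1 := by simp [hδdef]
  have d2 : δ ≤ δc2 := by simp [hδdef]
  have d3 : δ ≤ γa/2 := by simp [hδdef]
  have d5 : δ ≤ γT/2 := by simp [hδdef]
  have d6 : δ ≤ v0/4 := by simp [hδdef]
  intro L hL hnear
  have haL : a ∈ L := by
    by_contra h; have := hAa L hL h; linarith
  have hnoT : ∀ c, δ' ≤ |y c| → a < c → c ∉ L := by
    intro c h1 h2 hc
    have := hT c ⟨h1, h2⟩ L hL hc; linarith
  obtain ⟨P', R, rfl⟩ := List.append_of_mem haL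
  obtain ⟨hP, haR, hPR⟩ := List.pairwise_append.1 hL
  obtain ⟨haR1, hR⟩ := List.pairwise_cons.1 haR
  have hP'β : ∀ w ∈ P', w ≤ β := fun w hw => le_trans (hPR w hw a (by simp)).le ha
  rcases List.eq_nil_or_concat R with rfl | ⟨R', x, hRx⟩
  · rw [DL_append β ha hP'β]; simp [DD, ha]
  · exfalso
    rw [List.concat_eq_append] at hRx
    have hgap : ∀ P x z Q, a :: R = P ++ x :: z :: Q → |f z - f x| < η1 := by
      intro P x z Q e
      by_contra hge
      push Not at hge
      have hge' : η ≤ |f z - f x| := le_trans (min_le_left _ _) hge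
      have eL : P' ++ a :: R = (P' ++ P) ++ x :: z :: Q := by rw [e]; simp
      have k2 := hc2 z (P' ++ P) x Q (eL ▸ hL) (by rw [← eL]; linarith) hge'
      have hz : z ∈ R := by
        have hxz : x < z := by
          have hh := haR
          rw [e] at hh
          exact (List.pairwise_cons.1 (List.pairwise_append.1 hh).2.1).1 z (by simp)
        have hz : z ∈ a :: R := by rw [e]; simp
        have hx : x ∈ a :: R := by rw [e]; simp
        rcases List.mem_cons.1 hz with rfl | h
        · rcases List.mem_cons.1 hx with rfl | h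
          · exact absurd hxz (lt_irrefl _)
          · exact absurd hxz (not_lt.2 (haR1 x h).le)
        · exact h
      have hyw : δ' ≤ |y z| := le_trans (le_trans (min_le_left _ _) (min_le_right _ _)) k2
      exact hnoT z hyw (haR1 z hz) (by simp [hz])
    have hxR : x ∈ R := by rw [hRx]; simp
    have hfx : |f x| < η := by
      by_contra hge
      push Not at hge
      have eL : P' ++ a :: R = (P' ++ a :: R') ++ [x] := by rw [hRx]; simp
      have k1 := hc1 x (P' ++ a :: R') [] (eL ▸ hL) (by rw [← eL]; linarith) (Or.inl ⟨rfl, hge⟩)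
      have hyw : δ' ≤ |y x| := le_trans (le_trans (min_le_left _ _) (min_le_left _ _)) k1
      exact hnoT x hyw (haR1 x hxR) (by simp [hxR])
    have hvs := hsg a R haR hgap
    have hyM : ys y R < v0/16 := by
      apply hsy R (hR.imp (fun h => ne_of_lt h))
      intro w hw
      by_contra hge
      push Not at hge
      exact hnoT w (le_trans (min_le_right _ _) hge) (haR1 w hw) (by simp [hw])
    have hseg := seg_le f y R a
    have hnew : (P' ++ [a]).Pairwise (· < ·) := by
      have hs : (P' ++ [a]).Sublist (P' ++ a :: R) := by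
        apply List.Sublist.append_left
        apply List.Sublist.cons_cons
        simp
      exact hL.sublist hs
    have hle := le_Psi_of hg.cbdd hnew
    rw [cost_append] at hle hnear
    have htl : tl f y a R = seg f y a R + 4*(f x)^2 := by
      rw [hRx, tl_append]; simp [tl]
    rw [htl] at hnear
    simp only [tl] at hle
    have hη2 : η^2 ≤ v0/128 := by
      have h1 : η ≤ 1 := le_trans (min_le_right _ _) (min_le_left _ _)
      have h2 : η ≤ v0/128 := le_trans (min_le_right _ _) (min_le_right _ _)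
      nlinarith
    have hfx2 : (f x)^2 ≤ η^2 := by rw [← sq_abs]; exact pow_le_pow_left₀ (abs_nonneg _) hfx.le 2
    linarith

/-- the derivatives along nearly optimal chains are nearly equal -/
lemma condN (hg : Good f y M) (hdec : Dec f y) (β : X) {ε : ℝ} (hε : 0 < ε) :
    ∃ δ > 0, ∀ L L' : List X, L.Pairwise (· < ·) → L'.Pairwise (· < ·) →
      Psi f y - δ ≤ cost f y L → Psi f y - δ ≤ cost f y L' → |DL f y β L - DL f y β L'| ≤ ε := by
  suffices h : ∃ δ > 0, ∃ v : ℝ, ∀ L : List X, L.Pairwise (· < ·) → Psi f y - δ ≤ cost f y L →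
      |DL f y β L - v| ≤ ε/2 by
    obtain ⟨δ, hδ, v, hv⟩ := h
    refine ⟨δ, hδ, fun L L' h1 h2 h3 h4 => ?_⟩
    have e : DL f y β L - DL f y β L' = (DL f y β L - v) - (DL f y β L' - v) := by ring
    rw [e]
    have := abs_sub (DL f y β L - v) (DL f y β L' - v)
    have := hv L h1 h3
    have := hv L' h2 h4
    linarith
  by_cases hE1 : ∃ a b, a ≤ β ∧ β < b ∧ f b ≠ f a ∧ ∀ δ > 0, ∃ P Q : List X,
      (P ++ a :: b :: Q).Pairwise (· < ·) ∧ Psi f y - δ ≤ cost f y (P ++ a :: b :: Q)
  · obtain ⟨a, b, ha, hb, hab, hE⟩ := hE1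
    obtain ⟨δ, hδ, h⟩ := caseE1 hg hdec ha hb hab hE
    refine ⟨δ, hδ, -rhoD (f b - f a) (y b), fun L hL hn => ?_⟩
    rw [h L hL hn, sub_self, abs_zero]; positivity
  by_cases hE2 : ∃ a, a ≤ β ∧ f a ≠ 0 ∧ ∀ δ > 0, ∃ P : List X,
      (P ++ [a]).Pairwise (· < ·) ∧ Psi f y - δ ≤ cost f y (P ++ [a])
  · obtain ⟨a, ha, hfa, hE⟩ := hE2
    obtain ⟨δ, hδ, h⟩ := caseE2 hg hdec ha hfa hE
    refine ⟨δ, hδ, 8 * f a, fun L hL hn => ?_⟩
    rw [h L hL hn, sub_self, abs_zero]; positivity
  push Not at hE1 hE2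
  have hη : 0 < ε/16 := by positivity
  obtain ⟨δc1, hδc1, hc1⟩ := claim1 hg hη
  obtain ⟨δc2, hδc2, hc2⟩ := claim2 hg hη
  have hfin := fin_y hg (show 0 < min δc1 δc2 by positivity)
  obtain ⟨γ1, hγ1, h1⟩ := fin_min (hfin.prod hfin) (fun c γ => c.1 ≤ β → β < c.2 → f c.2 ≠ f c.1 →
      ∀ P Q : List X, (P ++ c.1 :: c.2 :: Q).Pairwise (· < ·) → cost f y (P ++ c.1 :: c.2 :: Q) < Psi f y - γ)
    (by intro c γ γ' _ hle h a1 a2 a3 P Q h4; have := h a1 a2 a3 P Q h4; linarith)
    (by
      intro c hc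
      by_cases h : c.1 ≤ β ∧ β < c.2 ∧ f c.2 ≠ f c.1
      · obtain ⟨γ, hγ, h'⟩ := hE1 c.1 c.2 h.1 h.2.1 h.2.2
        exact ⟨γ, hγ, fun _ _ _ P Q hPQ => h' P Q hPQ⟩
      · exact ⟨1, one_pos, fun a1 a2 a3 => absurd ⟨a1, a2, a3⟩ h⟩)
  obtain ⟨γ2, hγ2, h2⟩ := fin_min hfin (fun c γ => c ≤ β → f c ≠ 0 →
      ∀ P : List X, (P ++ [c]).Pairwise (· < ·) → cost f y (P ++ [c]) < Psi f y - γ)
    (by intro c γ γ' _ hle h a1 a2 P h4; have := h a1 a2 P h4; linarith)
    (by
      intro c hc
      by_cases h : c ≤ β ∧ f c ≠ 0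
      · obtain ⟨γ, hγ, h'⟩ := hE2 c h.1 h.2
        exact ⟨γ, hγ, fun _ _ P hP => h' P hP⟩
      · exact ⟨1, one_pos, fun a1 a2 => absurd ⟨a1, a2⟩ h⟩)
  refine ⟨min (min δc1 δc2) (min γ1 γ2), by positivity, 0, ?_⟩
  set δ := min (min δc1 δc2) (min γ1 γ2) with hδdef
  have d1 : δ ≤ δc1 := by simp [hδdef]
  have d2 : δ ≤ δc2 := by simp [hδdef]
  have d3 : δ ≤ γ1 := by simp [hδdef]
  have d4 : δ ≤ γ2 := by simp [hδdef]
  intro L hL hnear
  rw [sub_zero]
  rcases DL_cases (f := f) (y := y) β L hL with e | ⟨P, x, z, Q, e, hx, hz, eD⟩ | ⟨P, x, e, hx, eD⟩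
  · rw [e, abs_zero]; positivity
  · rw [eD, abs_neg]
    have hb := abs_rhoD (f z - f x) (y z)
    by_contra hge
    push Not at hge
    have hge2 : ε/16 ≤ |f z - f x| := by linarith
    have k1 := hc1 x P (z :: Q) (e ▸ hL) (by rw [← e]; linarith) (Or.inr ⟨z, Q, rfl, hge2⟩)
    have k2 := hc2 z P x Q (e ▸ hL) (by rw [← e]; linarith) hge2
    have hne : f z ≠ f x := by
      intro h; rw [h, sub_self, abs_zero] at hge2; linarith
    have := h1 (x, z) ⟨le_trans (min_le_left _ _) k1, le_trans (min_le_right _ _) k2⟩ hx hz hne P Q (e ▸ hL)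
    rw [← e] at this
    linarith
  · rw [eD, abs_mul]
    have h8 : |(8:ℝ)| = 8 := by norm_num
    rw [h8]
    by_contra hge
    push Not at hge
    have hge2 : ε/16 ≤ |f x| := by linarith
    have k1 := hc1 x P [] (e ▸ hL) (by rw [← e]; linarith) (Or.inl ⟨rfl, hge2⟩)
    have hne : f x ≠ 0 := by
      intro h; rw [h, abs_zero] at hge2; linarith
    have := h2 x (le_trans (min_le_left _ _) k1) hx hne P (e ▸ hL)
    rw [← e] at this
    linarith

end WO

end LJ
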