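import Pool.Agent.Helper937.James6

set_option linter.unusedSectionVars false
set_option linter.unusedVariables false

namespace LJ

/-- second differences at 0 are o(t) -/
def Sm0 (φ : ℝ → ℝ) : Prop := ∀ ε : ℝ, 0 < ε → ∃ t0 > 0, ∀ t, 0 < t → t < t0 → φ t + φ (-t) - 2 * φ 0 ≤ ε * t

section WO
variable {X : Type*} [LinearOrder X] [OrderTop X] [WellFoundedLT X]
variable {f y : X → ℝ} {M : ℝ}

def CB (f y : X → ℝ) : Prop := ∃ B : ℝ, ∀ l : List X, l.Pairwise (· < ·) → cost f y l ≤ B

lemma DL_bound' {M : ℝ} (hM : ∀ x, |f x| ≤ M) (β : X) (L : List X) (h : L.Pairwise (· < ·)) :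
    |DL f y β L| ≤ 8*M := by
  have hM0 : 0 ≤ M := le_trans (abs_nonneg _) (hM ⊤)
  rcases DL_cases (f := f) (y := y) β L h with e | ⟨P, x, z, Q, _, _, _, e⟩ | ⟨P, x, _, _, e⟩
  · rw [e]; simp; exact hM0
  · rw [e, abs_neg]
    have h1 := abs_rhoD (f z - f x) (y z)
    have h2 := abs_sub (f z) (f x)
    have := hM z; have := hM x
    linarith
  · rw [e, abs_mul]
    have := hM x
    have : |(8:ℝ)| = 8 := by norm_num
    rw [this]; linarith

lemma mv_mv (f : X → ℝ) (β : X) (t : ℝ) : mv (mv f β t) β (-t) = f := by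
  funext x; simp only [mv]; split_ifs <;> ring

lemma mv_zero (f : X → ℝ) (β : X) : mv f β 0 = f := by
  funext x; simp [mv]

lemma mv_bdd {M : ℝ} (hM : ∀ x, |f x| ≤ M) (β : X) (t : ℝ) : ∀ x, |mv f β t x| ≤ M + |t| := by
  intro x
  simp only [mv]
  split_ifs with h
  · exact le_trans (abs_add_le _ _) (by linarith [hM x])
  · rw [add_zero]; linarith [hM x, abs_nonneg t]

lemma CB_mv (hM : ∀ x, |f x| ≤ M) (hc : CB f y) (β : X) (t : ℝ) : CB (mv f β t) y := by
  obtain ⟨B, hB⟩ := hc
  refine ⟨B + |t| * (8*M) + 4*t^2, fun l hl => ?_⟩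
  have h1 := cost_mv (f := f) (y := y) β t l hl
  have h2 := hB l hl
  have h3 : t * DL f y β l ≤ |t| * (8*M) := by
    calc t * DL f y β l ≤ |t * DL f y β l| := le_abs_self _
      _ = |t| * |DL f y β l| := abs_mul _ _
      _ ≤ |t| * (8*M) := mul_le_mul_of_nonneg_left (DL_bound' hM β l hl) (abs_nonneg _)
  linarith

/-- direction of the indicator of {x ≤ β} -/
lemma smooth_mv (hg : Good f y M) (hdec : Dec f y) (β : X) : Sm0 (fun t => Psi (mv f β t) y) := by
  intro ε hε
  have hM := M_nonneg hg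
  obtain ⟨δ, hδ, hN⟩ := condN hg hdec β (show 0 < ε/4 by positivity)
  refine ⟨min 1 (min (ε/64) (δ/(ε+16*M+32))), by positivity, ?_⟩
  intro t ht ht0
  have t1 : t < 1 := lt_of_lt_of_le ht0 (min_le_left _ _)
  have t2 : t < ε/64 := lt_of_lt_of_le ht0 (le_trans (min_le_right _ _) (min_le_left _ _))
  have t3 : t < δ/(ε+16*M+32) := lt_of_lt_of_le ht0 (le_trans (min_le_right _ _) (min_le_right _ _))
  rw [lt_div_iff₀ (by positivity)] at t3
  -- lower bound for the moved supremum
  have hlow : ∀ s : ℝ, |s| = t → ∀ L : List X, L.Pairwise (· < ·) → Psi (mv f β s) y - t*(ε/8) ≤ cost (mv f β s) y L →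
      Psi f y - δ ≤ cost f y L := by
    intro s hs L hL hn
    have a1 := cost_mv (f := f) (y := y) β s L hL
    have a2 : s * DL f y β L ≤ t*(8*M) := by
      calc s * DL f y β L ≤ |s * DL f y β L| := le_abs_self _
        _ = t * |DL f y β L| := by rw [abs_mul, hs]
        _ ≤ t*(8*M) := mul_le_mul_of_nonneg_left (DL_bound' hg.bdd β L hL) ht.le
    have hs2 : s^2 = t^2 := by rw [← sq_abs, hs]
    have a3 : Psi f y ≤ Psi (mv f β s) y + t*(8*(M+t)) + 4*t^2 := by
      apply Psi_le_of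
      intro l hl
      have b1 := cost_mv (f := mv f β s) (y := y) β (-s) l hl
      rw [mv_mv] at b1
      have b2 : -s * DL (mv f β s) y β l ≤ t*(8*(M+t)) := by
        calc -s * DL (mv f β s) y β l ≤ |-s * DL (mv f β s) y β l| := le_abs_self _
          _ = t * |DL (mv f β s) y β l| := by rw [abs_mul, abs_neg, hs]
          _ ≤ t*(8*(M+t)) := by
              apply mul_le_mul_of_nonneg_left _ ht.le
              have := DL_bound' (y := y) (mv_bdd hg.bdd β s) β l hl
              rwa [hs] at this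
      have b3 := le_Psi_of (CB_mv hg.bdd hg.cbdd β s) hl
      have b4 : (-s)^2 = t^2 := by rw [neg_sq, hs2]
      rw [b4] at b1
      linarith
    rw [hs2] at a1
    nlinarith
  obtain ⟨L, hL, hLn⟩ := exists_near (mv f β t) y (show 0 < t*(ε/8) by positivity)
  obtain ⟨L', hL', hLn'⟩ := exists_near (mv f β (-t)) y (show 0 < t*(ε/8) by positivity)
  have c1 := hlow t (abs_of_pos ht) L hL hLn
  have c2 := hlow (-t) (by rw [abs_neg, abs_of_pos ht]) L' hL' hLn'
  have c3 := hN L L' hL hL' c1 c2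
  have d1 := cost_mv (f := f) (y := y) β t L hL
  have d2 := cost_mv (f := f) (y := y) β (-t) L' hL'
  have d3 := le_Psi_of hg.cbdd hL
  have d4 := le_Psi_of hg.cbdd hL'
  have c4 := (abs_le.1 c3).2
  simp only [mv_zero]
  have : t * DL f y β L - t * DL f y β L' ≤ t*(ε/4) := by
    rw [← mul_sub]; exact mul_le_mul_of_nonneg_left c4 ht.le
  nlinarith

/-- moving the bonus at the point c -/
noncomputable def mvy (y : X → ℝ) (c : X) (t : ℝ) : X → ℝ := fun x => y x + if x = c then t else 0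

lemma mvy_zero (y : X → ℝ) (c : X) : mvy y c 0 = y := by funext x; simp [mvy]

lemma mvy_self (y : X → ℝ) (c : X) (t : ℝ) : mvy y c t c = y c + t := by simp [mvy]

lemma mvy_ne (y : X → ℝ) {c x : X} (t : ℝ) (h : x ≠ c) : mvy y c t x = y x := by simp [mvy, h]

lemma mvy_mvy (y : X → ℝ) (c : X) (s t : ℝ) : mvy (mvy y c s) c t = mvy y c (s+t) := by
  funext x; simp only [mvy]; split_ifs <;> ring

lemma seg_mvy (f : X → ℝ) {c : X} (t : ℝ) : ∀ (Q : List X) (a : X), c ∉ Q →
    seg f (mvy y c t) a Q = seg f y a Q := by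
  intro Q
  induction Q with
  | nil => intro a _; rfl
  | cons b Q ih =>
    intro a h
    simp only [List.mem_cons, not_or] at h
    simp only [seg]; rw [ih b h.2, mvy_ne y t (Ne.symm h.1)]

lemma tl_mvy (f : X → ℝ) {c : X} (t : ℝ) : ∀ (Q : List X) (a : X), c ∉ Q →
    tl f (mvy y c t) a Q = tl f y a Q := by
  intro Q
  induction Q with
  | nil => intro a _; rfl
  | cons b Q ih =>
    intro a h
    simp only [List.mem_cons, not_or] at h
    simp only [tl]; rw [ih b h.2, mvy_ne y t (Ne.symm h.1)]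

lemma cost_mvy_not (f : X → ℝ) {c : X} (t : ℝ) {L : List X} (h : c ∉ L) :
    cost f (mvy y c t) L = cost f y L := by
  cases L with
  | nil => rfl
  | cons a L =>
    simp only [List.mem_cons, not_or] at h
    simp only [cost]; rw [tl_mvy f t L a h.2, mvy_ne y t (Ne.symm h.1)]

lemma pre_mvy (f : X → ℝ) {c x : X} (t : ℝ) {P : List X} (h : c ∉ P) (hx : x ≠ c) :
    pre f (mvy y c t) x P = pre f y x P := by
  cases P with
  | nil => simp only [pre]; rw [mvy_ne y t hx]
  | cons a P =>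
    simp only [List.mem_cons, not_or] at h
    simp only [pre]
    rw [seg_mvy f t _ a (by simp [h.2, Ne.symm hx]), mvy_ne y t (Ne.symm h.1)]

/-- if c lies on the chain then the cost depends on y c through one single term -/
lemma cost_through (f y : X → ℝ) {c : X} {L : List X} (hL : L.Pairwise (· < ·)) (h : c ∈ L) :
    ∃ k u : ℝ, ∀ t, cost f (mvy y c t) L = k + rho u (y c + t) := by
  obtain ⟨P, Q, rfl⟩ := List.append_of_mem h
  obtain ⟨hP, hcQ, hPQ⟩ := List.pairwise_append.1 hL
  have hcQ' : c ∉ Q := fun h => absurd ((List.pairwise_cons.1 hcQ).1 c h) (lt_irrefl _)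
  have hcP : c ∉ P := fun h => absurd (hPQ c h c (by simp)) (lt_irrefl _)
  rcases List.eq_nil_or_concat P with rfl | ⟨P', x, rfl⟩
  · refine ⟨tl f y c Q, 0, fun t => ?_⟩
    rw [cost_append, tl_mvy f t Q c hcQ', rho_zero_left]
    simp only [pre]; rw [mvy_self]; ring
  · rw [List.concat_eq_append] at *
    have hx : x ≠ c := fun h => hcP (by simp [h])
    have hcP' : c ∉ P' := fun h => hcP (by simp [h])
    refine ⟨pre f y x P' + tl f y c Q, f c - f x, fun t => ?_⟩
    rw [cost_append, tl_mvy f t Q c hcQ', pre_snoc, pre_mvy f t hcP' hx, mvy_self]; ring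

lemma cost_mvy_le (f y : X → ℝ) (c : X) {L : List X} (hL : L.Pairwise (· < ·)) (t : ℝ) :
    cost f (mvy y c t) L ≤ cost f y L + 4*|y c| * |t| + 2*t^2 := by
  by_cases h : c ∈ L
  · obtain ⟨k, u, hk⟩ := cost_through f y hL h
    have h0 := hk 0
    rw [mvy_zero, add_zero] at h0
    rw [hk t, h0, rho_comm u (y c + t), rho_comm u (y c)]
    have h1 := rho_taylor (y c) u t
    have h2 : t * rhoD (y c) u ≤ |t| * (4*|y c|) := by
      calc t * rhoD (y c) u ≤ |t * rhoD (y c) u| := le_abs_self _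
        _ = |t| * |rhoD (y c) u| := abs_mul _ _
        _ ≤ _ := mul_le_mul_of_nonneg_left (abs_rhoD _ _) (abs_nonneg _)
    nlinarith
  · rw [cost_mvy_not f t h]
    have : 0 ≤ 4*|y c| * |t| + 2*t^2 := by positivity
    linarith

lemma CB_mvy (hc : CB f y) (c : X) (t : ℝ) : CB f (mvy y c t) := by
  obtain ⟨B, hB⟩ := hc
  refine ⟨B + 4*|y c| * |t| + 2*t^2, fun l hl => ?_⟩
  have := cost_mvy_le f y c hl t
  have := hB l hl
  linarith

lemma Psi_mvy_le (hc : CB f y) (c : X) (t : ℝ) : Psi f (mvy y c t) ≤ Psi f y + 4*|y c| * |t| + 2*t^2 := by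
  apply Psi_le_of
  intro l hl
  have := cost_mvy_le f y c hl t
  have := le_Psi_of hc hl
  linarith

/-- direction of the bonus at a point which carries no bonus -/
lemma smooth_mvy_zero (hc : CB f y) {c : X} (hy : y c = 0) : Sm0 (fun t => Psi f (mvy y c t)) := by
  intro ε hε
  refine ⟨ε/4, by positivity, fun t ht ht0 => ?_⟩
  have h1 := Psi_mvy_le hc c t
  have h2 := Psi_mvy_le hc c (-t)
  rw [hy, abs_zero] at h1 h2
  simp only [mvy_zero]
  nlinarith

/-- smoothness in all bonus directions forces decisions -/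
lemma dec_of_smooth (hc : CB f y) (hs : ∀ c, y c ≠ 0 → Sm0 (fun t => Psi f (mvy y c t))) : Dec f y := by
  intro c hyc
  by_contra hcon
  push Not at hcon
  obtain ⟨hin, hout⟩ := hcon
  have hyp : 0 < |y c| := abs_pos.2 hyc
  obtain ⟨t0, ht0, h⟩ := hs c hyc (|y c|) hyp
  set t := t0/2 with ht
  have htp : 0 < t := by positivity
  have h1 := h t htp (by rw [ht]; linarith)
  simp only [mvy_zero] at h1
  -- lower bounds
  have hlow2 : ∀ s : ℝ, Psi f y ≤ Psi f (mvy y c s) := by
    intro s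
    apply le_of_forall_pos_le_add
    intro γ hγ
    obtain ⟨L, hL, hcL, hcost⟩ := hout γ hγ
    have := le_Psi_of (CB_mvy hc c s) hL
    rw [cost_mvy_not f s hcL] at this
    linarith
  have hlow1 : ∀ s : ℝ, 0 < s * y c → |s| = t → Psi f y + 2*|y c| * t ≤ Psi f (mvy y c s) := by
    intro s hs1 hs2
    apply le_of_forall_pos_le_add
    intro γ hγ
    obtain ⟨L, hL, hcL, hcost⟩ := hin γ hγ
    obtain ⟨k, u, hk⟩ := cost_through f y hL hcL
    have h0 := hk 0
    rw [mvy_zero, add_zero] at h0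
    have := le_Psi_of (CB_mvy hc c s) hL
    rw [hk s] at this
    have hsy : s * y c = t * |y c| := by
      rw [← hs2, ← abs_mul, abs_of_pos hs1]
    have hsq : (y c)^2 ≤ (y c + s)^2 := by nlinarith [sq_nonneg s]
    have hm := rho_mono_z u hsq
    nlinarith [sq_nonneg s]
  rcases lt_or_gt_of_ne hyc with hneg | hpos
  · have a1 := hlow1 (-t) (by nlinarith) (by rw [abs_neg, abs_of_pos htp])
    have a2 := hlow2 t
    nlinarith
  · have a1 := hlow1 t (by positivity) (abs_of_pos htp)
    have a2 := hlow2 (-t)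
    nlinarith

/-- convexity of the cost -/
lemma tl_convex (f1 y1 f2 y2 : X → ℝ) {l : ℝ} (h0 : 0 ≤ l) (h1 : l ≤ 1) : ∀ (L : List X) (a : X),
    tl (fun x => (1-l)*f1 x + l*f2 x) (fun x => (1-l)*y1 x + l*y2 x) a L ≤
      (1-l) * tl f1 y1 a L + l * tl f2 y2 a L := by
  intro L
  induction L with
  | nil =>
    intro a; simp only [tl]
    nlinarith [mul_nonneg (mul_nonneg h0 (sub_nonneg.2 h1)) (sq_nonneg (f1 a - f2 a))]
  | cons b L ih =>
    intro a; simp only [tl]
    have h := rho_convex (f1 b - f1 a) (y1 b) (f2 b - f2 a) (y2 b) l h0 h1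
    have e : (1-l)*f1 b + l*f2 b - ((1-l)*f1 a + l*f2 a) = (1-l)*(f1 b - f1 a) + l*(f2 b - f2 a) := by ring
    rw [e]
    have := ih b
    nlinarith

lemma cost_convex (f1 y1 f2 y2 : X → ℝ) {l : ℝ} (h0 : 0 ≤ l) (h1 : l ≤ 1) (L : List X) :
    cost (fun x => (1-l)*f1 x + l*f2 x) (fun x => (1-l)*y1 x + l*y2 x) L ≤
      (1-l) * cost f1 y1 L + l * cost f2 y2 L := by
  cases L with
  | nil => simp [cost]
  | cons a L =>
    simp only [cost]
    have := tl_convex f1 y1 f2 y2 h0 h1 L a
    nlinarith [mul_nonneg (mul_nonneg h0 (sub_nonneg.2 h1)) (sq_nonneg (y1 a - y2 a))]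

lemma Psi_convex {f1 y1 f2 y2 : X → ℝ} (hc1 : CB f1 y1) (hc2 : CB f2 y2) {l : ℝ} (h0 : 0 ≤ l) (h1 : l ≤ 1) :
    Psi (fun x => (1-l)*f1 x + l*f2 x) (fun x => (1-l)*y1 x + l*y2 x) ≤
      (1-l) * Psi f1 y1 + l * Psi f2 y2 := by
  apply Psi_le_of
  intro L hL
  have := cost_convex f1 y1 f2 y2 h0 h1 L
  have a1 := mul_le_mul_of_nonneg_left (le_Psi_of hc1 hL) (sub_nonneg.2 h1)
  have a2 := mul_le_mul_of_nonneg_left (le_Psi_of hc2 hL) h0
  linarith

lemma tl_smul (f y : X → ℝ) (c : ℝ) : ∀ (L : List X) (a : X),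
    tl (fun x => c * f x) (fun x => c * y x) a L = c^2 * tl f y a L := by
  intro L
  induction L with
  | nil => intro a; simp only [tl]; ring
  | cons b L ih =>
    intro a; simp only [tl]
    rw [ih b, ← mul_sub, rho_smul]; ring

lemma cost_smul (f y : X → ℝ) (c : ℝ) (L : List X) :
    cost (fun x => c * f x) (fun x => c * y x) L = c^2 * cost f y L := by
  cases L with
  | nil => simp [cost]
  | cons a L => simp only [cost]; rw [tl_smul]; ring

lemma Psi_nonneg (hc : CB f y) : 0 ≤ Psi f y := le_Psi_of hc (List.Pairwise.nil)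

lemma Psi_smul (hc : CB f y) (c : ℝ) : Psi (fun x => c * f x) (fun x => c * y x) = c^2 * Psi f y := by
  apply le_antisymm
  · apply Psi_le_of
    intro L hL
    rw [cost_smul]
    exact mul_le_mul_of_nonneg_left (le_Psi_of hc hL) (sq_nonneg _)
  · rcases eq_or_ne c 0 with rfl | hc0
    · simp only [ne_eq, OfNat.ofNat_ne_zero, not_false_eq_true, zero_pow, zero_mul]
      have hcb : CB (fun _ : X => (0:ℝ)) (fun _ : X => (0:ℝ)) := by
        refine ⟨0, fun l hl => ?_⟩
        have := cost_smul f y 0 l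
        simp only [zero_mul, ne_eq, OfNat.ofNat_ne_zero, not_false_eq_true, zero_pow] at this
        exact this.le
      exact Psi_nonneg hcb
    · have hcb : CB (fun x => c * f x) (fun x => c * y x) := by
        obtain ⟨B, hB⟩ := hc
        refine ⟨c^2 * B, fun l hl => ?_⟩
        rw [cost_smul]
        exact mul_le_mul_of_nonneg_left (hB l hl) (sq_nonneg _)
      have h : Psi f y ≤ (c^2)⁻¹ * Psi (fun x => c * f x) (fun x => c * y x) := by
        apply Psi_le_of
        intro L hL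
        have := le_Psi_of hcb hL
        rw [cost_smul] at this
        have hc2 : 0 < c^2 := by positivity
        rw [inv_mul_eq_div, le_div_iff₀ hc2]
        linarith
      have hc2 : 0 < c^2 := by positivity
      rw [inv_mul_eq_div, le_div_iff₀ hc2] at h
      linarith

end WO

end LJ
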