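import Pool.Agent.Helper937.James7

set_option linter.unusedSectionVars false
set_option linter.unusedVariables false

namespace LJ

section TopX
variable {X : Type*} [LinearOrder X] [OrderTop X] [WellFoundedLT X] [SuccOrder X]
variable {f : X → ℝ}

/-- bounded 2-variation -/
def BV (f : X → ℝ) : Prop := ∃ B : ℝ, ∀ (a : X) (l : List X), (a :: l).Pairwise (· < ·) → vs f a l ≤ B

/-- the square of the James norm -/
noncomputable def VV (f : X → ℝ) : ℝ := sSup {v | ∃ (a : X) (l : List X), (a :: l).Pairwise (· < ·) ∧ v = vs f a l}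

lemma le_VV (h : BV f) {a : X} {l : List X} (hl : (a :: l).Pairwise (· < ·)) : vs f a l ≤ VV f := by
  obtain ⟨B, hB⟩ := h
  apply le_csSup
  · exact ⟨B, by rintro v ⟨a, l, hl, rfl⟩; exact hB a l hl⟩
  · exact ⟨a, l, hl, rfl⟩

lemma VV_le {B : ℝ} (hB : ∀ (a : X) (l : List X), (a :: l).Pairwise (· < ·) → vs f a l ≤ B) : VV f ≤ B := by
  apply csSup_le
  · exact ⟨0, ⊤, [], by simp, rfl⟩
  · rintro v ⟨a, l, hl, rfl⟩; exact hB a l hl

lemma le_VV_weak (h : BV f) {a : X} {l : List X} (hl : (a :: l).Pairwise (· ≤ ·)) : vs f a l ≤ VV f := by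
  obtain ⟨l', h1, _, h3⟩ := weak_to_strict f l a hl
  rw [← h3]; exact le_VV h h1

lemma VV_nonneg (h : BV f) : 0 ≤ VV f := le_VV h (a := ⊤) (l := []) (by simp)

/-- jumps -/
noncomputable def Dj (f : X → ℝ) : X → ℝ := fun x => f x - f (Order.succ x)

/-- the list a1, succ a1, a2, succ a2, ... -/
def inter : List X → List X
  | [] => []
  | b :: l => b :: Order.succ b :: inter l

lemma inter_ge (m : X) : ∀ l : List X, (∀ z ∈ l, m ≤ z) → ∀ x ∈ inter l, m ≤ x := by
  intro l
  induction l with
  | nil => intro _ x hx; simp [inter] at hx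
  | cons b l ih =>
    intro h x hx
    simp only [inter, List.mem_cons] at hx
    rcases hx with rfl | rfl | hx
    · exact h x (by simp)
    · exact le_trans (h b (by simp)) (Order.le_succ b)
    · exact ih (fun z hz => h z (List.mem_cons_of_mem _ hz)) x hx

lemma inter_pairwise : ∀ l : List X, l.Pairwise (· < ·) → (inter l).Pairwise (· ≤ ·) := by
  intro l
  induction l with
  | nil => intro _; simp [inter]
  | cons b l ih =>
    intro h
    obtain ⟨h1, h2⟩ := List.pairwise_cons.1 h
    simp only [inter]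
    have hs : ∀ x ∈ inter l, Order.succ b ≤ x := inter_ge _ l (fun z hz => Order.succ_le_of_lt (h1 z hz))
    rw [List.pairwise_cons, List.pairwise_cons]
    refine ⟨?_, hs, ih h2⟩
    intro x hx
    rcases List.mem_cons.1 hx with rfl | hx
    · exact Order.le_succ b
    · exact le_trans (Order.le_succ b) (hs x hx)

lemma ysD_le_vs (f : X → ℝ) : ∀ (l : List X) (a : X), ys (Dj f) (a :: l) ≤ vs f a (Order.succ a :: inter l) := by
  intro l
  induction l with
  | nil => intro a; simp only [ys, vs, inter, Dj]; nlinarith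
  | cons b l ih =>
    intro a
    have := ih b
    simp only [ys, vs, inter, Dj] at this ⊢
    nlinarith [sq_nonneg (f b - f (Order.succ a))]

lemma ysD_le (h : BV f) {L : List X} (hL : L.Pairwise (· < ·)) : ys (Dj f) L ≤ VV f := by
  cases L with
  | nil => simp only [ys]; exact VV_nonneg h
  | cons a l =>
    refine le_trans (ysD_le_vs f l a) (le_VV_weak h ?_)
    have := inter_pairwise (a :: l) hL
    simpa [inter] using this

lemma ys_w_le {w : X → ℝ} (hw : ∀ x, 1 ≤ w x ∧ w x ≤ 3) : ∀ L : List X,
    ys (fun x => w x * Dj f x) L ≤ 9 * ys (Dj f) L := by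
  intro L
  induction L with
  | nil => simp [ys]
  | cons a l ih =>
    simp only [ys]
    have h1 := (hw a).1
    have h2 := (hw a).2
    have : (w a * Dj f a)^2 ≤ 9 * (Dj f a)^2 := by
      rw [mul_pow]
      apply mul_le_mul_of_nonneg_right _ (sq_nonneg _)
      nlinarith
    linarith

lemma sq_le_VV (h : BV f) (ht : f ⊤ = 0) (x : X) : (f x)^2 ≤ VV f := by
  rcases eq_or_lt_of_le (le_top : x ≤ ⊤) with rfl | hlt
  · rw [ht]; simpa using VV_nonneg h
  · have := le_VV h (a := x) (l := [⊤]) (by simpa using hlt)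
    simp only [vs, ht] at this
    nlinarith

lemma abs_le_sqrt (h : BV f) (ht : f ⊤ = 0) (x : X) : |f x| ≤ Real.sqrt (VV f) := by
  rw [← Real.sqrt_sq_eq_abs]
  exact Real.sqrt_le_sqrt (sq_le_VV h ht x)

lemma tl_le {M : ℝ} (h : ∀ x, (f x)^2 ≤ M) : ∀ (L : List X) (a : X) (y : X → ℝ), tl f y a L ≤ 2 * vs f a L + ys y L + 4*M := by
  intro L
  induction L with
  | nil => intro a y; simp only [tl, vs, ys]; linarith [h a]
  | cons b L ih =>
    intro a y; simp only [tl, vs, ys]
    have := ih b y
    have := rho_ub1 (f b - f a) (y b)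
    linarith

lemma cost_le (h : BV f) (ht : f ⊤ = 0) {w : X → ℝ} (hw : ∀ x, 1 ≤ w x ∧ w x ≤ 3) {L : List X}
    (hL : L.Pairwise (· < ·)) : cost f (fun x => w x * Dj f x) L ≤ 15 * VV f := by
  cases L with
  | nil => simp only [cost]; linarith [VV_nonneg h]
  | cons a l =>
    simp only [cost]
    have h1 := tl_le (sq_le_VV h ht) l a (fun x => w x * Dj f x)
    have h2 := ys_w_le (f := f) hw (a :: l)
    simp only [ys] at h2
    have h3 := ysD_le h hL
    simp only [ys] at h3
    have h4 := le_VV h hL
    linarith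

lemma vs_le_cost (f y : X → ℝ) (a : X) (l : List X) : vs f a l ≤ cost f y (a :: l) := by
  have key : ∀ (l : List X) (a : X), vs f a l ≤ tl f y a l := by
    intro l
    induction l with
    | nil => intro a; simp only [vs, tl]; positivity
    | cons b l ih =>
      intro a; simp only [vs, tl]
      have := ih b
      have := rho_lb (f b - f a) (y b)
      nlinarith [sq_nonneg (y b)]
  simp only [cost]
  have := key l a
  nlinarith [sq_nonneg (y a)]

/-- the functional attached to the weight w -/
noncomputable def Gw (w : X → ℝ) (f : X → ℝ) : ℝ := Psi f (fun x => w x * Dj f x)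

lemma CBw (h : BV f) (ht : f ⊤ = 0) {w : X → ℝ} (hw : ∀ x, 1 ≤ w x ∧ w x ≤ 3) :
    CB f (fun x => w x * Dj f x) := ⟨15 * VV f, fun _ hL => cost_le h ht hw hL⟩

lemma Gw_le (h : BV f) (ht : f ⊤ = 0) {w : X → ℝ} (hw : ∀ x, 1 ≤ w x ∧ w x ≤ 3) : Gw w f ≤ 15 * VV f :=
  Psi_le_of (fun _ hL => cost_le h ht hw hL)

lemma VV_le_Gw (h : BV f) (ht : f ⊤ = 0) {w : X → ℝ} (hw : ∀ x, 1 ≤ w x ∧ w x ≤ 3) : VV f ≤ Gw w f := by
  apply VV_le
  intro a l hal
  exact le_trans (vs_le_cost f _ a l) (le_Psi_of (CBw h ht hw) hal)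

/-- sums over finite sets -/
lemma ys_eq_sum (y : X → ℝ) : ∀ l : List X, l.Nodup → ys y l = ∑ x ∈ l.toFinset, (y x)^2 := by
  intro l
  induction l with
  | nil => intro _; simp [ys]
  | cons a l ih =>
    intro h
    obtain ⟨h1, h2⟩ := List.nodup_cons.1 h
    simp only [ys, List.toFinset_cons]
    rw [Finset.sum_insert (by simpa using h1), ih h2]

lemma summable_y (h : BV f) {w : X → ℝ} (hw : ∀ x, 1 ≤ w x ∧ w x ≤ 3) :
    Summable (fun x => (w x * Dj f x)^2) := by
  apply summable_of_sum_le (c := 9 * VV f) (fun x => sq_nonneg _)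
  intro s
  have hs : (s.sort (· ≤ ·)).Pairwise (· < ·) := by
    exact (Finset.sortedLT_sort s).pairwise
  have e := ys_eq_sum (fun x => w x * Dj f x) (s.sort (· ≤ ·)) (Finset.sort_nodup s _)
  rw [Finset.sort_toFinset] at e
  rw [← e]
  have h1 := ys_w_le (f := f) hw (s.sort (· ≤ ·))
  have h2 := ysD_le h hs
  linarith

lemma ysum_tail (h : BV f) {w : X → ℝ} (hw : ∀ x, 1 ≤ w x ∧ w x ≤ 3) {ε : ℝ} (hε : 0 < ε) :
    ∃ F : Finset X, ∀ l : List X, l.Nodup → (∀ x ∈ l, x ∉ F) → ys (fun x => w x * Dj f x) l < ε := by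
  obtain ⟨F, hF⟩ := summable_iff_vanishing_norm.1 (summable_y h hw) ε hε
  refine ⟨F, fun l hl hlF => ?_⟩
  rw [ys_eq_sum _ l hl]
  have := hF l.toFinset (by
    rw [Finset.disjoint_left]
    intro x hx; exact hlF x (by simpa using hx))
  rw [Real.norm_eq_abs] at this
  exact lt_of_le_of_lt (le_abs_self _) this

end TopX

section TopX2
variable {X : Type*} [LinearOrder X] [OrderTop X] [WellFoundedLT X] [SuccOrder X] [TopologicalSpace X] [OrderTopology X]
variable {f : X → ℝ}

lemma cont_local (hf : Continuous f) (p : X) (hp : ∃ l, l < p) {ε : ℝ} (hε : 0 < ε) :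
    ∃ μ < p, ∀ x, μ < x → x ≤ p → |f x - f p| < ε := by
  have : {x | |f x - f p| < ε} ∈ nhds p := by
    have h1 : Filter.Tendsto f (nhds p) (nhds (f p)) := hf.tendsto p
    have := h1 (Metric.ball_mem_nhds (f p) hε)
    filter_upwards [this] with x hx
    simpa [Real.dist_eq] using hx
  obtain ⟨l, hl, hl2⟩ := exists_Ioc_subset_of_mem_nhds this hp
  exact ⟨l, hl, fun x h1 h2 => hl2 ⟨h1, h2⟩⟩

/-- tails of the variation are small -/
lemma tail_small (hf : Continuous f) (h : BV f) (p : X) (hp : ∃ l, l < p) {ε : ℝ} (hε : 0 < ε) :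
    ∃ μ < p, ∀ (a : X) (l : List X), (a :: l).Pairwise (· ≤ ·) → (∀ x ∈ a :: l, μ < x ∧ x ≤ p) → vs f a l < ε := by
  by_cases hq : ∃ q, q ⋖ p
  · obtain ⟨q, hq⟩ := hq
    refine ⟨q, hq.lt, fun a l _ hal => ?_⟩
    rw [vs_zero (v := f p) l a]
    · exact hε
    · intro x hx
      obtain ⟨h1, h2⟩ := hal x hx
      rcases eq_or_lt_of_le h2 with rfl | h3
      · rfl
      · exact absurd h3 (hq.2 h1)
  · have hlim : ∀ m, m < p → ∃ m', m < m' ∧ m' < p := by
      intro m hm
      by_contra hc
      push Not at hc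
      exact hq ⟨m, hm, fun x h1 h2 => absurd h2 (not_lt.2 (hc x h1))⟩
    obtain ⟨B, hB⟩ := h
    have hbdd : BddAbove {v | ∃ (a : X) (l : List X), (a :: l).Pairwise (· < ·) ∧ (∀ x ∈ a :: l, x < p) ∧ v = vs f a l} :=
      ⟨B, by rintro v ⟨a, l, hl, _, rfl⟩; exact hB a l hl⟩
    set s := sSup {v | ∃ (a : X) (l : List X), (a :: l).Pairwise (· < ·) ∧ (∀ x ∈ a :: l, x < p) ∧ v = vs f a l} with hs
    obtain ⟨l0, hl0⟩ := hp
    have hne : {v | ∃ (a : X) (l : List X), (a :: l).Pairwise (· < ·) ∧ (∀ x ∈ a :: l, x < p) ∧ v = vs f a l}.Nonempty :=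
      ⟨0, l0, [], by simp, by simpa using hl0, rfl⟩
    obtain ⟨v, ⟨a0, L0, hL0, hL0p, rfl⟩, hv⟩ := exists_lt_of_lt_csSup hne (show s - ε/2 < s by linarith)
    -- last point of a0 :: L0
    obtain ⟨μ, P0, hμ⟩ : ∃ μ P0, a0 :: L0 = P0 ++ [μ] := by
      rcases List.eq_nil_or_concat (a0 :: L0) with h | ⟨P0, μ, h⟩
      · simp at h
      · exact ⟨μ, P0, by rw [h]; simp⟩
    have hμp : μ < p := hL0p μ (by rw [hμ]; simp)
    have hle_μ : ∀ x ∈ a0 :: L0, x ≤ μ := by
      intro x hx
      rw [hμ] at hx
      rcases List.mem_append.1 hx with h | h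
      · have := hL0
        rw [hμ] at this
        exact ((List.pairwise_append.1 this).2.2 x h μ (by simp)).le
      · rw [List.mem_singleton] at h; exact h.le
    -- strict chains inside (μ, p)
    have hin : ∀ (a : X) (l : List X), (a :: l).Pairwise (· < ·) → (∀ x ∈ a :: l, μ < x ∧ x < p) → vs f a l < ε/2 := by
      intro a l hal hl
      have hcat : (a0 :: (L0 ++ a :: l)).Pairwise (· < ·) := by
        have e : a0 :: (L0 ++ a :: l) = (a0 :: L0) ++ (a :: l) := by simp
        rw [e, List.pairwise_append]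
        exact ⟨hL0, hal, fun x hx z hz => lt_of_le_of_lt (hle_μ x hx) (hl z hz).1⟩
      obtain ⟨x, P, hx, hvs⟩ := vs_split f L0 l a0 a
      have : vs f a0 (L0 ++ a :: l) ≤ s := by
        apply le_csSup hbdd
        refine ⟨a0, _, hcat, ?_, rfl⟩
        intro z hz
        have e : a0 :: (L0 ++ a :: l) = (a0 :: L0) ++ (a :: l) := by simp
        rw [e] at hz
        rcases List.mem_append.1 hz with h | h
        · exact hL0p z h
        · exact (hl z h).2
      rw [hvs] at this
      nlinarith [sq_nonneg (f a - f x)]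
    refine ⟨μ, hμp, ?_⟩
    intro a l hal hl
    obtain ⟨l', h1, h2, h3⟩ := weak_to_strict f l a hal
    rw [← h3]
    have hl' : ∀ x ∈ a :: l', μ < x ∧ x ≤ p := by
      intro x hx
      rcases List.mem_cons.1 hx with rfl | hx
      · exact hl x (by simp)
      · exact hl x (List.mem_cons_of_mem _ (h2 x hx))
    rcases List.eq_nil_or_concat l' with rfl | ⟨l'', z, e⟩
    · simpa [vs] using hε
    · rw [List.concat_eq_append] at e
      rcases eq_or_lt_of_le (hl' z (by rw [e]; simp)).2 with hz | hz
      · -- z = p: approximate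
        subst hz
        have hall : ∀ x ∈ a :: l'', μ < x ∧ x < z := by
          intro x hx
          have hxl : x ∈ a :: l' := by
            rw [e]
            rcases List.mem_cons.1 hx with rfl | hx
            · simp
            · simp [hx]
          refine ⟨(hl' x hxl).1, ?_⟩
          have hh := h1
          rw [e, ← List.cons_append] at hh
          exact (List.pairwise_append.1 hh).2.2 x hx z (by simp)
        obtain ⟨x, P, hxP, hvsz⟩ : ∃ x P, a :: l'' = P ++ [x] ∧ ∀ u, vs f a (l'' ++ [u]) = vs f a l'' + (f u - f x)^2 := by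
          rcases List.eq_nil_or_concat l'' with rfl | ⟨m, x, rfl⟩
          · exact ⟨a, [], by simp, fun u => by simp [vs]⟩
          · refine ⟨x, a :: m, by simp, fun u => ?_⟩
            rw [List.concat_eq_append, List.append_assoc, List.singleton_append, vs_append]
            simp only [vs]; ring
        have hxz : x < z := (hall x (by rw [hxP]; simp)).2
        have hd : 0 < ε/(8*(|f x| + |f z| + 1)) := by positivity
        obtain ⟨ν, hν, hν2⟩ := cont_local hf z ⟨x, hxz⟩ (lt_min one_pos hd)
        obtain ⟨m', hm1, hm2⟩ := hlim (max x ν) (max_lt hxz hν)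
        have hm3 := hν2 m' (lt_of_le_of_lt (le_max_right _ _) hm1) hm2.le
        have hxm : x < m' := lt_of_le_of_lt (le_max_left _ _) hm1
        have hchain : (a :: (l'' ++ [m'])).Pairwise (· < ·) := by
          rw [← List.cons_append, List.pairwise_append]
          have hh := h1
          rw [e, ← List.cons_append] at hh
          refine ⟨(List.pairwise_append.1 hh).1, by simp, ?_⟩
          intro w hw u hu
          rw [List.mem_singleton] at hu
          rw [hu]
          rw [hxP] at hw
          rcases List.mem_append.1 hw with h | h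
          · have := (List.pairwise_append.1 hh).1
            rw [hxP] at this
            exact lt_trans ((List.pairwise_append.1 this).2.2 w h x (by simp)) hxm
          · rw [List.mem_singleton] at h; rw [h]; exact hxm
        have hb := hin a (l'' ++ [m']) hchain (by
          intro w hw
          rw [← List.cons_append] at hw
          rcases List.mem_append.1 hw with h | h
          · exact hall w h
          · rw [List.mem_singleton] at h; rw [h]
            exact ⟨lt_trans (hall x (by rw [hxP]; simp)).1 hxm, hm2⟩)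
        rw [hvsz] at hb
        rw [e, hvsz]
        have h1' : |f m' - f z| < 1 := lt_of_lt_of_le hm3 (min_le_left _ _)
        have h2' : |f m' - f z| < ε/(8*(|f x| + |f z| + 1)) := lt_of_lt_of_le hm3 (min_le_right _ _)
        rw [lt_div_iff₀ (by positivity)] at h2'
        have e1 : (f z - f x)^2 - (f m' - f x)^2 = (f z - f m')*(f z + f m' - 2*f x) := by ring
        have e2 : |(f z - f m')*(f z + f m' - 2*f x)| ≤ |f m' - f z| * (2*(|f x| + |f z| + 1)) := by
          rw [abs_mul, abs_sub_comm]
          apply mul_le_mul_of_nonneg_left _ (abs_nonneg _)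
          have a1 := abs_le.1 h1'.le
          have a2 := abs_le.1 (le_refl |f x|)
          have a3 := abs_le.1 (le_refl |f z|)
          rw [abs_le]; constructor <;> linarith
        have e3 := le_abs_self ((f z - f m')*(f z + f m' - 2*f x))
        nlinarith
      · have := hin a l' h1 (by
          intro w hw
          refine ⟨(hl' w hw).1, ?_⟩
          have hh := h1
          rw [e, ← List.cons_append] at hw hh
          rcases List.mem_append.1 hw with h | h
          · exact lt_trans ((List.pairwise_append.1 hh).2.2 w h z (by simp)) hz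
          · rw [List.mem_singleton] at h; rw [h]; exact hz)
        linarith

/-- membership in the long James space -/
structure IsJ (f : X → ℝ) : Prop where
  cont : Continuous f
  top : f ⊤ = 0
  bv : BV f

lemma good_of_isJ (h : IsJ f) {w : X → ℝ} (hw : ∀ x, 1 ≤ w x ∧ w x ≤ 3) :
    Good f (fun x => w x * Dj f x) (Real.sqrt (VV f)) where
  top := h.top
  ytop := by simp [Dj, Order.succ_top]
  bdd := abs_le_sqrt h.bv h.top
  cont := fun p hp ε hε => cont_local h.cont p hp hε
  tail := fun p hp ε hε => tail_small h.cont h.bv p hp hε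
  ysum := fun ε hε => ysum_tail h.bv hw hε
  yD := by
    intro x x' hx
    have hs : Order.succ x = x' := hx.succ_eq
    have hw' : w x ≠ 0 := by have := (hw x).1; linarith
    simp only [Dj, hs, ne_eq, mul_eq_zero, hw', false_or, sub_eq_zero]
    constructor
    · intro h e; exact h e.symm
    · intro h e; exact h e.symm
  cbdd := CBw h.bv h.top hw

end TopX2

end LJ
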