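import Pool.Agent.Helper937.James8

set_option linter.unusedSectionVars false
set_option linter.unusedVariables false

namespace LJ

section TopX3
variable {X : Type*} [LinearOrder X] [OrderTop X] [WellFoundedLT X] [SuccOrder X]
variable {f g h : X → ℝ} {w : X → ℝ}

lemma vs_add_le {κ : ℝ} (hκ : 0 < κ) (f g : X → ℝ) : ∀ (l : List X) (a : X),
    vs (fun x => f x + g x) a l ≤ (1+κ) * vs f a l + (1+κ⁻¹) * vs g a l := by
  intro l
  induction l with
  | nil => intro a; simp [vs]
  | cons b l ih =>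
    intro a; simp only [vs]
    have := ih b
    have h2 : (f b + g b - (f a + g a))^2 ≤ (1+κ)*(f b - f a)^2 + (1+κ⁻¹)*(g b - g a)^2 := by
      have e : (1+κ)*(f b - f a)^2 + (1+κ⁻¹)*(g b - g a)^2 - (f b + g b - (f a + g a))^2
          = κ⁻¹ * (κ*(f b - f a) - (g b - g a))^2 := by
        field_simp; ring
      have : 0 ≤ κ⁻¹ * (κ*(f b - f a) - (g b - g a))^2 := by positivity
      linarith
    linarith

lemma vs_smul (c : ℝ) (f : X → ℝ) : ∀ (l : List X) (a : X),
    vs (fun x => c * f x) a l = c^2 * vs f a l := by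
  intro l
  induction l with
  | nil => intro a; simp [vs]
  | cons b l ih => intro a; simp only [vs]; rw [ih b]; ring

lemma BV.add (hf : BV f) (hg : BV g) : BV (fun x => f x + g x) := by
  obtain ⟨B, hB⟩ := hf
  obtain ⟨C, hC⟩ := hg
  refine ⟨2*B + 2*C, fun a l hl => ?_⟩
  have := vs_add_le one_pos f g l a
  rw [inv_one] at this
  have := hB a l hl
  have := hC a l hl
  linarith

lemma BV.smul (c : ℝ) (hf : BV f) : BV (fun x => c * f x) := by
  obtain ⟨B, hB⟩ := hf
  refine ⟨c^2*B, fun a l hl => ?_⟩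
  rw [vs_smul]
  exact mul_le_mul_of_nonneg_left (hB a l hl) (sq_nonneg _)

lemma VV_add_le {κ : ℝ} (hκ : 0 < κ) (hf : BV f) (hg : BV g) :
    VV (fun x => f x + g x) ≤ (1+κ) * VV f + (1+κ⁻¹) * VV g := by
  apply VV_le
  intro a l hl
  have h1 := vs_add_le hκ f g l a
  have h2 := mul_le_mul_of_nonneg_left (le_VV hf hl) (show 0 ≤ 1+κ by positivity)
  have h3 := mul_le_mul_of_nonneg_left (le_VV hg hl) (show 0 ≤ 1+κ⁻¹ by positivity)
  linarith

lemma VV_smul (c : ℝ) (hf : BV f) : VV (fun x => c * f x) = c^2 * VV f := by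
  apply le_antisymm
  · apply VV_le
    intro a l hl
    rw [vs_smul]
    exact mul_le_mul_of_nonneg_left (le_VV hf hl) (sq_nonneg _)
  · rcases eq_or_ne c 0 with rfl | hc
    · simp only [ne_eq, OfNat.ofNat_ne_zero, not_false_eq_true, zero_pow, zero_mul]
      exact VV_nonneg ⟨0, fun a l _ => by rw [vs_zero (v := 0) l a (fun _ _ => rfl)]⟩
    · have hc2 : 0 < c^2 := by positivity
      have : VV f ≤ (c^2)⁻¹ * VV (fun x => c * f x) := by
        apply VV_le
        intro a l hl
        have := le_VV (hf.smul c) hl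
        rw [vs_smul] at this
        rw [inv_mul_eq_div, le_div_iff₀ hc2]
        linarith
      rw [inv_mul_eq_div, le_div_iff₀ hc2] at this
      linarith

lemma Dj_add (f g : X → ℝ) (x : X) : Dj (fun x => f x + g x) x = Dj f x + Dj g x := by
  simp only [Dj]; ring

lemma Dj_smul (c : ℝ) (f : X → ℝ) (x : X) : Dj (fun x => c * f x) x = c * Dj f x := by
  simp only [Dj]; ring

/-- algebraic part of membership -/
structure IsA (f : X → ℝ) : Prop where
  top : f ⊤ = 0
  bv : BV f

lemma IsA.add (hf : IsA f) (hg : IsA g) : IsA (fun x => f x + g x) :=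
  ⟨by simp [hf.top, hg.top], hf.bv.add hg.bv⟩

lemma IsA.smul (c : ℝ) (hf : IsA f) : IsA (fun x => c * f x) :=
  ⟨by simp [hf.top], hf.bv.smul c⟩

lemma IsA.cb (hf : IsA f) (hw : ∀ x, 1 ≤ w x ∧ w x ≤ 3) : CB f (fun x => w x * Dj f x) := CBw hf.bv hf.top hw

lemma Gw_convex (hf : IsA f) (hg : IsA g) (hw : ∀ x, 1 ≤ w x ∧ w x ≤ 3) {l : ℝ} (h0 : 0 ≤ l) (h1 : l ≤ 1) :
    Gw w (fun x => (1-l)*f x + l*g x) ≤ (1-l) * Gw w f + l * Gw w g := by
  unfold Gw
  have e : (fun x => w x * Dj (fun x => (1-l)*f x + l*g x) x) =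
      (fun x => (1-l)*(w x * Dj f x) + l*(w x * Dj g x)) := by
    funext x; simp only [Dj]; ring
  rw [e]
  exact Psi_convex (hf.cb hw) (hg.cb hw) h0 h1

lemma Gw_smul (hf : IsA f) (hw : ∀ x, 1 ≤ w x ∧ w x ≤ 3) (c : ℝ) :
    Gw w (fun x => c * f x) = c^2 * Gw w f := by
  unfold Gw
  have e : (fun x => w x * Dj (fun x => c * f x) x) = (fun x => c * (w x * Dj f x)) := by
    funext x; simp only [Dj]; ring
  rw [e]
  exact Psi_smul (hf.cb hw) c

lemma Gw_nonneg (hf : IsA f) (hw : ∀ x, 1 ≤ w x ∧ w x ≤ 3) : 0 ≤ Gw w f := Psi_nonneg (hf.cb hw)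

lemma Gw_add_le (hf : IsA f) (hg : IsA g) (hw : ∀ x, 1 ≤ w x ∧ w x ≤ 3) {κ : ℝ} (hκ : 0 < κ) :
    Gw w (fun x => f x + g x) ≤ (1+κ) * Gw w f + (1+κ⁻¹) * Gw w g := by
  set l := κ/(1+κ) with hl
  have h1 : 1 - l = 1/(1+κ) := by rw [hl]; field_simp; ring
  have h1p : 0 < 1 + κ := by linarith
  have h0 : 0 < l := by positivity
  have h1' : 0 < 1 - l := by rw [h1]; positivity
  have := Gw_convex (hf.smul (1-l)⁻¹) (hg.smul l⁻¹) hw h0.le (by linarith)
  rw [Gw_smul hf hw, Gw_smul hg hw] at this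
  have e : (fun x => (1-l)*((1-l)⁻¹ * f x) + l*(l⁻¹ * g x)) = fun x => f x + g x := by
    funext x; rw [mul_inv_cancel_left₀ h1'.ne', mul_inv_cancel_left₀ h0.ne']
  rw [e] at this
  have e1 : (1-l) * ((1-l)⁻¹^2 * Gw w f) = (1+κ) * Gw w f := by
    rw [h1]; field_simp
  have e2 : l * (l⁻¹^2 * Gw w g) = (1+κ⁻¹) * Gw w g := by
    rw [hl]; field_simp; ring
  rw [e1, e2] at this
  exact this

lemma Gw_half (hf : IsA f) (hg : IsA g) (hw : ∀ x, 1 ≤ w x ∧ w x ≤ 3) :
    Gw w (fun x => (f x + g x)/2) ≤ (Gw w f + Gw w g)/2 := by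
  have := Gw_convex hf hg hw (l := 1/2) (by norm_num) (by norm_num)
  have e : (fun x => (1-(1/2:ℝ))*f x + (1/2)*g x) = fun x => (f x + g x)/2 := by
    funext x; ring
  rw [e] at this
  linarith

/-- smooth directions -/
def GD (w f h : X → ℝ) : Prop := Sm0 (fun t => Gw w (fun x => f x + t * h x))

lemma GD_zero (w f : X → ℝ) : GD w f (fun _ => 0) := by
  intro ε hε
  refine ⟨1, one_pos, fun t ht _ => ?_⟩
  simp only [mul_zero, add_zero]
  nlinarith

lemma Sm0.comp_mul {φ : ℝ → ℝ} (h : Sm0 φ) (c : ℝ) : Sm0 (fun t => φ (t * c)) := by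
  intro ε hε
  rcases lt_trichotomy c 0 with hc | hc | hc
  · obtain ⟨t0, ht0, h⟩ := h (ε/(-c)) (div_pos hε (by linarith))
    refine ⟨t0/(-c), div_pos ht0 (by linarith), fun t ht ht1 => ?_⟩
    have hc' : 0 < -c := by linarith
    rw [lt_div_iff₀ hc'] at ht1
    have := h (t*(-c)) (by positivity) ht1
    have e1 : t * (-c) = -(t*c) := by ring
    have hcne : -c ≠ 0 := hc'.ne'
    have e2 : ε/(-c) * (t*(-c)) = ε * t := by
      rw [mul_comm t, ← mul_assoc, div_mul_cancel₀ _ hcne]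
    rw [e2] at this
    have e3 : -t * c = t * (-c) := by ring
    simp only [zero_mul, e3]
    rw [e1, neg_neg] at this
    rw [e1]
    linarith
  · subst hc
    refine ⟨1, one_pos, fun t ht _ => ?_⟩
    simp only [mul_zero]
    nlinarith
  · obtain ⟨t0, ht0, h⟩ := h (ε/c) (div_pos hε hc)
    refine ⟨t0/c, div_pos ht0 hc, fun t ht ht1 => ?_⟩
    rw [lt_div_iff₀ hc] at ht1
    have := h (t*c) (by positivity) ht1
    have e2 : ε/c * (t*c) = ε * t := by field_simp
    rw [e2] at this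
    have e3 : -t * c = -(t*c) := by ring
    simp only [zero_mul, e3]
    linarith

lemma GD.smul {w f h : X → ℝ} (hh : GD w f h) (c : ℝ) : GD w f (fun x => c * h x) := by
  have := Sm0.comp_mul hh c
  unfold GD
  have e : (fun t => Gw w (fun x => f x + t * (c * h x))) = (fun t => (fun t => Gw w (fun x => f x + t * h x)) (t*c)) := by
    funext t; congr 1; funext x; ring
  rw [e]; exact this

lemma GD.add {w f h1 h2 : X → ℝ} (hw : ∀ x, 1 ≤ w x ∧ w x ≤ 3) (hf : IsA f) (hh1 : IsA h1) (hh2 : IsA h2)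
    (g1 : GD w f h1) (g2 : GD w f h2) : GD w f (fun x => h1 x + h2 x) := by
  have k1 := Sm0.comp_mul g1 2
  have k2 := Sm0.comp_mul g2 2
  intro ε hε
  obtain ⟨a, ha, k1⟩ := k1 ε hε
  obtain ⟨b, hb, k2⟩ := k2 ε hε
  refine ⟨min a b, lt_min ha hb, fun t ht ht0 => ?_⟩
  have k1 := k1 t ht (lt_of_lt_of_le ht0 (min_le_left _ _))
  have k2 := k2 t ht (lt_of_lt_of_le ht0 (min_le_right _ _))
  have key : ∀ t : ℝ, Gw w (fun x => f x + t * (h1 x + h2 x)) ≤
      (Gw w (fun x => f x + t * 2 * h1 x) + Gw w (fun x => f x + t * 2 * h2 x))/2 := by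
    intro t
    have := Gw_half (hf.add (hh1.smul (t*2))) (hf.add (hh2.smul (t*2))) hw
    convert this using 2
    funext x; ring
  have p1 := key t
  have p2 := key (-t)
  simp only [zero_mul, add_zero] at k1 k2 ⊢
  linarith

lemma GD.limit {w f h : X → ℝ} (hw : ∀ x, 1 ≤ w x ∧ w x ≤ 3) (hf : IsA f) (hh : IsA h)
    (H : ∀ ε > 0, ∃ h', IsA h' ∧ GD w f h' ∧ VV (fun x => h x - h' x) ≤ ε) : GD w f h := by
  intro ε hε
  have hG := Gw_nonneg hf hw
  set C := 2 * Gw w f + 1 with hC
  have hCp : 0 < C := by linarith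
  set σ := ε/(8*C) with hσ
  have hσp : 0 < σ := by positivity
  obtain ⟨h', hh', hg', hv⟩ := H (ε*σ/240) (by positivity)
  obtain ⟨a, ha, k⟩ := hg' (ε/4) (by positivity)
  set B := Gw w h' with hB
  have hB0 : 0 ≤ B := Gw_nonneg hh' hw
  set d : X → ℝ := fun x => h x + (-1) * h' x with hd
  have hdA : IsA d := hh.add (hh'.smul (-1))
  have hdG : Gw w d ≤ ε*σ/16 := by
    have h1 := Gw_le hdA.bv hdA.top hw
    have e : (fun x => h x - h' x) = d := by funext x; rw [hd]; ring
    rw [e] at hv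
    linarith
  have hdG0 := Gw_nonneg hdA hw
  refine ⟨min (min a 1) (min (1/(2*B+1)) (1/σ)), by positivity, fun t ht ht0 => ?_⟩
  have ta : t < a := lt_of_lt_of_le ht0 (le_trans (min_le_left _ _) (min_le_left _ _))
  have t1 : t < 1 := lt_of_lt_of_le ht0 (le_trans (min_le_left _ _) (min_le_right _ _))
  have tB : t < 1/(2*B+1) := lt_of_lt_of_le ht0 (le_trans (min_le_right _ _) (min_le_left _ _))
  have tσ : t < 1/σ := lt_of_lt_of_le ht0 (le_trans (min_le_right _ _) (min_le_right _ _))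
  rw [lt_div_iff₀ (by positivity)] at tB tσ
  have k := k t ht ta
  have hκ : 0 < t*σ := by positivity
  have key : ∀ s : ℝ, |s| = t → Gw w (fun x => f x + s * h x) ≤ Gw w (fun x => f x + s * h' x) + t*(ε/4) := by
    intro s hs
    have hs2 : s^2 = t^2 := by rw [← sq_abs, hs]
    have a1 := Gw_add_le (hf.add (hh'.smul s)) (hdA.smul s) hw hκ
    have e : (fun x => f x + s * h' x + s * d x) = fun x => f x + s * h x := by
      funext x; rw [hd]; ring
    rw [e, Gw_smul hdA hw, hs2] at a1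
    have a2 := Gw_add_le hf (hh'.smul s) hw one_pos
    rw [Gw_smul hh' hw, hs2, inv_one] at a2
    have a3 : Gw w (fun x => f x + s * h' x) ≤ C := by
      have : t^2 * (2*B) ≤ 1 := by nlinarith
      rw [hC]; nlinarith
    have a4 : t*σ*C = t*(ε/8) := by rw [hσ]; field_simp
    have a5 : (1+(t*σ)⁻¹) * (t^2 * Gw w d) ≤ t*(ε/8) := by
      have e : (1+(t*σ)⁻¹) * (t^2 * Gw w d) = (t*σ+1)*t*(Gw w d/σ) := by field_simp
      rw [e]
      have : Gw w d/σ ≤ ε/16 := by rw [div_le_iff₀ hσp]; linarith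
      have h2 : (t*σ+1)*t ≤ 2*t := by nlinarith
      calc (t*σ+1)*t*(Gw w d/σ) ≤ 2*t*(ε/16) := by
            apply mul_le_mul h2 this (by positivity) (by positivity)
        _ = t*(ε/8) := by ring
    nlinarith
  have p1 := key t (abs_of_pos ht)
  have p2 := key (-t) (by rw [abs_neg, abs_of_pos ht])
  simp only [zero_mul, add_zero] at k ⊢
  have := mul_pos hε ht
  linarith

/-- the indicator of {x ≤ β} -/
noncomputable def ee (β : X) : X → ℝ := fun x => if x ≤ β then 1 else 0

lemma ee_anti (β : X) : Antitone (ee β) := by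
  intro x z hxz
  simp only [ee]
  split_ifs with h1 h2 <;> norm_num
  exact h2 (le_trans hxz h1)

lemma vs_ee (β : X) : ∀ (l : List X) (a : X), (a :: l).Pairwise (· < ·) → vs (ee β) a l ≤ ee β a := by
  intro l
  induction l with
  | nil => intro a _; simp only [vs, ee]; split_ifs <;> norm_num
  | cons b l ih =>
    intro a h
    obtain ⟨h1, h2⟩ := List.pairwise_cons.1 h
    have := ih b h2
    have hm := ee_anti β (h1 b (by simp)).le
    have hb : 0 ≤ ee β b := by simp only [ee]; split_ifs <;> norm_num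
    have ha : ee β a ≤ 1 := by simp only [ee]; split_ifs <;> norm_num
    simp only [vs]
    nlinarith

lemma IsA_ee {β : X} (hβ : β < ⊤) : IsA (ee β) := by
  refine ⟨by simp [ee, hβ.ne], 1, fun a l hl => le_trans (vs_ee β l a hl) ?_⟩
  simp only [ee]; split_ifs <;> norm_num

lemma Dj_ee {β : X} (hβ : β < ⊤) (x : X) : Dj (ee β) x = if x = β then 1 else 0 := by
  have hs : β < Order.succ β := Order.lt_succ_of_not_isMax (by simpa using hβ.ne)
  simp only [Dj, ee]
  by_cases h : x = β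
  · subst h; rw [if_pos le_rfl, if_neg (not_le.2 hs), if_pos rfl]; ring
  · rcases lt_or_gt_of_ne h with h1 | h1
    · have : Order.succ x ≤ β := Order.succ_le_of_lt h1
      simp [this, h1.le, h]
    · have h2 : β < Order.succ x := lt_of_lt_of_le h1 (Order.le_succ x)
      simp [h, not_le.2 h1, not_le.2 h2]

lemma GD_ee {w f : X → ℝ} {M : ℝ} (hw : ∀ x, 1 ≤ w x ∧ w x ≤ 3) (hf : IsA f)
    (hg : Good f (fun x => w x * Dj f x) M)
    (hs : ∀ c, (w c * Dj f c) ≠ 0 → Sm0 (fun t => Psi f (mvy (fun x => w x * Dj f x) c t)))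
    {β : X} (hβ : β < ⊤) : GD w f (ee β) := by
  set y : X → ℝ := fun x => w x * Dj f x with hy
  have hdec : Dec f y := dec_of_smooth hg.cbdd hs
  have k1 := (smooth_mv hg hdec β).comp_mul 2
  have k2' : Sm0 (fun t => Psi f (mvy y β t)) := by
    by_cases h0 : y β = 0
    · exact smooth_mvy_zero hg.cbdd h0
    · exact hs β h0
  have k2 := k2'.comp_mul (2 * w β)
  intro ε hε
  obtain ⟨a, ha, k1⟩ := k1 ε hε
  obtain ⟨b, hb, k2⟩ := k2 ε hε
  refine ⟨min a b, lt_min ha hb, fun t ht ht0 => ?_⟩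
  have k1 := k1 t ht (lt_of_lt_of_le ht0 (min_le_left _ _))
  have k2 := k2 t ht (lt_of_lt_of_le ht0 (min_le_right _ _))
  have key : ∀ t : ℝ, Gw w (fun x => f x + t * ee β x) ≤
      (Psi (mv f β (t*2)) y + Psi f (mvy y β (t*(2*w β))))/2 := by
    intro t
    have c1 := Psi_convex (f1 := mv f β (t*2)) (y1 := y) (f2 := f) (y2 := mvy y β (t*(2*w β)))
      (CB_mv hg.bdd hg.cbdd β (t*2)) (CB_mvy hg.cbdd β (t*(2*w β))) (l := 1/2) (by norm_num) (by norm_num)
    have e : Gw w (fun x => f x + t * ee β x) = Psi (fun x => (1-(1/2:ℝ))*mv f β (t*2) x + (1/2)*f x)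
        (fun x => (1-(1/2:ℝ))*y x + (1/2)*mvy y β (t*(2*w β)) x) := by
      unfold Gw
      congr 1
      · funext x; simp only [mv, ee]; split_ifs <;> ring
      · funext x
        rw [Dj_add, Dj_smul, Dj_ee hβ]
        simp only [mvy, hy]
        by_cases hx : x = β
        · subst hx; simp; ring
        · simp [hx]; ring
    rw [e]; linarith
  have p1 := key t
  have p2 := key (-t)
  simp only [zero_mul, mv_zero, mvy_zero] at k1 k2
  have e0 : Gw w (fun x => f x + 0 * ee β x) = Psi f y := by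
    unfold Gw; simp [hy]
  show Gw w (fun x => f x + t * ee β x) + Gw w (fun x => f x + (-t) * ee β x) - 2 * Gw w (fun x => f x + 0 * ee β x) ≤ ε * t
  rw [e0]
  linarith

/-- stopped function -/
noncomputable def Pl (h : X → ℝ) (p : X) : X → ℝ := fun x => h (min x p) - h p

lemma vs_sub_const (h : X → ℝ) (v : ℝ) : ∀ (l : List X) (a : X), vs (fun x => h x - v) a l = vs h a l := by
  intro l
  induction l with
  | nil => intro a; rfl
  | cons b l ih => intro a; simp only [vs]; rw [ih b]; ring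

lemma vs_mono_map {g : X → X} (hg : Monotone g) {l : List X} {a : X} (hl : (a :: l).Pairwise (· < ·)) :
    (g a :: l.map g).Pairwise (· ≤ ·) := by
  rw [← List.map_cons, List.pairwise_map]
  exact hl.imp (fun h => hg h.le)

lemma IsA_Pl (hh : IsA h) (p : X) : IsA (Pl h p) := by
  obtain ⟨B, hB⟩ := hh.bv
  refine ⟨by simp [Pl], VV h, fun a l hl => ?_⟩
  unfold Pl
  rw [vs_sub_const (fun x => h (min x p)) (h p), vs_map h (fun x => min x p)]
  exact le_VV_weak hh.bv (vs_mono_map (fun x z hxz => min_le_min_right p hxz) hl)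

lemma Pl_succ (h : X → ℝ) {q p : X} (hq : q ⋖ p) (x : X) :
    Pl h p x = Pl h q x + (h q - h p) * ee q x := by
  simp only [Pl, ee]
  by_cases hx : x ≤ q
  · rw [if_pos hx, min_eq_left hx, min_eq_left (le_trans hx hq.lt.le)]; ring
  · have hx' : p ≤ x := by
      by_contra hc
      exact hq.2 (not_le.1 hx) (not_le.1 hc)
    rw [if_neg hx, min_eq_right (not_le.1 hx).le, min_eq_right hx']; ring

end TopX3

section TopX4
variable {X : Type*} [LinearOrder X] [OrderTop X] [WellFoundedLT X] [SuccOrder X] [TopologicalSpace X] [OrderTopology X]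
variable {f h : X → ℝ} {w : X → ℝ}

lemma IsJ.isA (h : IsJ f) : IsA f := ⟨h.top, h.bv⟩

lemma GD_Pl (hw : ∀ x, 1 ≤ w x ∧ w x ≤ 3) (hf : IsJ f)
    (hs : ∀ c, (w c * Dj f c) ≠ 0 → Sm0 (fun t => Psi f (mvy (fun x => w x * Dj f x) c t)))
    (hh : IsJ h) : ∀ p : X, GD w f (Pl h p) := by
  have hg := good_of_isJ hf hw
  intro p
  induction p using WellFoundedLT.induction with
  | _ p ih =>
  by_cases hmin : ∃ l, l < p
  · by_cases hq : ∃ q, q ⋖ p
    · obtain ⟨q, hq⟩ := hq
      have e : Pl h p = fun x => Pl h q x + (h q - h p) * ee q x := by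
        funext x; exact Pl_succ h hq x
      rw [e]
      have hqt : q < ⊤ := lt_of_lt_of_le hq.lt le_top
      exact GD.add hw hf.isA (IsA_Pl hh.isA q) ((IsA_ee hqt).smul _) (ih q hq.lt)
        ((GD_ee hw hf.isA hg hs hqt).smul _)
    · apply GD.limit hw hf.isA (IsA_Pl hh.isA p)
      intro ε hε
      obtain ⟨μ, hμ, hsm⟩ := tail_small hh.cont hh.bv p hmin hε
      obtain ⟨q, hq1, hq2⟩ : ∃ q, μ < q ∧ q < p := by
        by_contra hc
        push Not at hc
        exact hq ⟨μ, hμ, fun x h1 h2 => absurd h2 (not_lt.2 (hc x h1))⟩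
      refine ⟨Pl h q, IsA_Pl hh.isA q, ih q hq2, ?_⟩
      apply VV_le
      intro a l hl
      have e : (fun x => Pl h p x - Pl h q x) = fun x => (fun x => h (max q (min x p))) x - h p := by
        funext x
        simp only [Pl]
        rcases le_total x q with hx | hx
        · rw [min_eq_left hx, min_eq_left (le_trans hx hq2.le), max_eq_left hx]; ring
        · rw [min_eq_right hx, max_eq_right (le_min hx hq2.le)]; ring
      rw [e, vs_sub_const (fun x => h (max q (min x p))) (h p), vs_map h (fun x => max q (min x p))]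
      apply le_of_lt
      apply hsm
      · exact vs_mono_map (fun x z hxz => max_le_max_left q (min_le_min_right p hxz)) hl
      · intro x hx
        rw [← List.map_cons (f := fun x => max q (min x p))] at hx
        obtain ⟨z, _, rfl⟩ := List.mem_map.1 hx
        exact ⟨lt_of_lt_of_le hq1 (le_max_left _ _), max_le hq2.le (min_le_right _ _)⟩
  · have e : Pl h p = fun _ => 0 := by
      funext x
      push Not at hmin
      simp only [Pl]
      rw [min_eq_right (hmin x)]; ring
    rw [e]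
    exact GD_zero w f

/-- all directions of the space are smooth -/
theorem GD_all (hw : ∀ x, 1 ≤ w x ∧ w x ≤ 3) (hf : IsJ f)
    (hs : ∀ c, (w c * Dj f c) ≠ 0 → Sm0 (fun t => Psi f (mvy (fun x => w x * Dj f x) c t)))
    (hh : IsJ h) : GD w f h := by
  have := GD_Pl hw hf hs hh ⊤
  have e : Pl h ⊤ = h := by
    funext x; simp [Pl, hh.top]
  rwa [e] at this

end TopX4

end LJ
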