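import Pool.Agent.Helper937.JayLuz

/-!
# The convex compactum: `P(2^ω)` with the Dirac measures at the points of a generic set blown up
to segments
-/

set_option autoImplicit false

namespace Pool.Agent.Helper937.JayK

open Cardinal Set Topology Filter TopologicalSpace
open Pool.Agent.Helper937.JayLuz

/-- the coordinates -/
abbrev Ix : Type := List Bool ⊕ Om

/-- the ambient space -/
abbrev E : Type := Ix → ℝ

/-- a dense sequence in `[0,1]` -/
noncomputable def q (n : ℕ) : ℝ := (denseSeq (Set.Icc (0 : ℝ) 1) n : ℝ)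

theorem q_nonneg (n : ℕ) : 0 ≤ q n := (denseSeq (Set.Icc (0 : ℝ) 1) n).2.1

theorem q_le (n : ℕ) : q n ≤ 1 := (denseSeq (Set.Icc (0 : ℝ) 1) n).2.2

theorem q_dense {r ε : ℝ} (h0 : 0 ≤ r) (h1 : r ≤ 1) (hε : 0 < ε) : ∃ n, |r - q n| < ε := by
  obtain ⟨n, hn⟩ := (denseRange_denseSeq (Set.Icc (0 : ℝ) 1)).exists_dist_lt
    (⟨r, h0, h1⟩ : Set.Icc (0 : ℝ) 1) hε
  exact ⟨n, by simpa [Subtype.dist_eq, Real.dist_eq, q] using hn⟩

/-- the value attached to the splitting level `n` -/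
noncomputable def c (n : ℕ) : ℝ := q (col n)

theorem c_nonneg (n : ℕ) : 0 ≤ c n := q_nonneg _

theorem c_le (n : ℕ) : c n ≤ 1 := q_le _

/-- the restriction of `b` to `n` -/
abbrev on (b : C) (n : ℕ) : List Bool := PiNat.res b n

/-- the sibling of the restriction of `b` to `n + 1` -/
def off (b : C) (n : ℕ) : List Bool := (!(b n)) :: PiNat.res b n

/-- the part of the integral of the function `y ↦ c (Δ(y, b))` decided by the level `N` -/
noncomputable def ell (x : E) (b : C) (N : ℕ) : ℝ :=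
  ∑ n ∈ Finset.range N, c n * x (Sum.inl (off b n))

variable (a : Om → C)

/-- The convex compactum. -/
def K : Set E :=
  {x | x (Sum.inl []) = 1 ∧ (∀ t : List Bool, 0 ≤ x (Sum.inl t)) ∧
    (∀ t : List Bool, x (Sum.inl t) = x (Sum.inl (false :: t)) + x (Sum.inl (true :: t))) ∧
    (∀ (i : Om) (N : ℕ), ell x (a i) N ≤ x (Sum.inr i)) ∧
    ∀ (i : Om) (N : ℕ), x (Sum.inr i) ≤ ell x (a i) N + x (Sum.inl (on (a i) N))}

theorem continuous_ell (b : C) (N : ℕ) : Continuous fun x : E => ell x b N := by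
  unfold ell
  fun_prop

theorem isClosed_K : IsClosed (K a) := by
  have : K a = {x | x (Sum.inl []) = 1} ∩ ((⋂ t : List Bool, {x | 0 ≤ x (Sum.inl t)}) ∩
    ((⋂ t : List Bool, {x | x (Sum.inl t) = x (Sum.inl (false :: t)) + x (Sum.inl (true :: t))}) ∩
    ((⋂ i : Om, ⋂ N : ℕ, {x | ell x (a i) N ≤ x (Sum.inr i)}) ∩
    (⋂ i : Om, ⋂ N : ℕ, {x | x (Sum.inr i) ≤ ell x (a i) N + x (Sum.inl (on (a i) N))})))) := by
    ext x
    simp [K]
  rw [this]
  refine (isClosed_eq (by fun_prop) (by fun_prop)).inter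
    ((isClosed_iInter fun t => isClosed_le (by fun_prop) (by fun_prop)).inter
    ((isClosed_iInter fun t => isClosed_eq (by fun_prop) (by fun_prop)).inter
    ((isClosed_iInter fun i => isClosed_iInter fun N =>
      isClosed_le (continuous_ell _ _) (by fun_prop)).inter
    (isClosed_iInter fun i => isClosed_iInter fun N =>
      isClosed_le (by fun_prop) ((continuous_ell _ _).add (by fun_prop))))))

variable {a}

theorem K_le_one {x : E} (hx : x ∈ K a) (t : List Bool) : x (Sum.inl t) ≤ 1 := by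
  induction t with
  | nil => exact hx.1.le
  | cons b t ih =>
    have h1 := hx.2.2.1 t
    have h2 := hx.2.1 (false :: t)
    have h3 := hx.2.1 (true :: t)
    cases b <;> linarith

theorem isCompact_K : IsCompact (K a) := by
  have h1 : IsCompact (Set.pi Set.univ fun _ : Ix => Set.Icc (0 : ℝ) 1) :=
    isCompact_univ_pi fun _ => isCompact_Icc
  refine h1.of_isClosed_subset (isClosed_K a) ?_
  intro x hx
  rw [Set.mem_univ_pi]
  rintro (t | i)
  · exact ⟨hx.2.1 t, K_le_one hx t⟩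
  · constructor
    · have := hx.2.2.2.1 i 0
      simpa [ell] using this
    · have := hx.2.2.2.2 i 0
      have h2 := hx.1
      simp only [ell, Finset.range_zero, Finset.sum_empty, zero_add, on, PiNat.res_zero] at this
      rw [h2] at this
      exact this

theorem ell_comb (x y : E) (b : C) (N : ℕ) (s t : ℝ) :
    ell (s • x + t • y) b N = s * ell x b N + t * ell y b N := by
  unfold ell
  rw [Finset.mul_sum, Finset.mul_sum, ← Finset.sum_add_distrib]
  refine Finset.sum_congr rfl fun n _ => ?_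
  simp only [Pi.add_apply, Pi.smul_apply, smul_eq_mul]
  ring

theorem convex_K : Convex ℝ (K a) := by
  intro x hx y hy s t hs ht hst
  obtain ⟨x1, x2, x3, x4, x5⟩ := hx
  obtain ⟨y1, y2, y3, y4, y5⟩ := hy
  refine ⟨?_, fun t' => ?_, fun t' => ?_, fun i N => ?_, fun i N => ?_⟩
  · simp only [Pi.add_apply, Pi.smul_apply, smul_eq_mul]
    rw [x1, y1]; linarith
  · simp only [Pi.add_apply, Pi.smul_apply, smul_eq_mul]
    exact add_nonneg (mul_nonneg hs (x2 t')) (mul_nonneg ht (y2 t'))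
  · simp only [Pi.add_apply, Pi.smul_apply, smul_eq_mul]
    rw [x3 t', y3 t']; ring
  · rw [ell_comb]
    simp only [Pi.add_apply, Pi.smul_apply, smul_eq_mul]
    exact add_le_add (mul_le_mul_of_nonneg_left (x4 i N) hs) (mul_le_mul_of_nonneg_left (y4 i N) ht)
  · rw [ell_comb]
    simp only [Pi.add_apply, Pi.smul_apply, smul_eq_mul]
    have h1 := mul_le_mul_of_nonneg_left (x5 i N) hs
    have h2 := mul_le_mul_of_nonneg_left (y5 i N) ht
    linarith

section mass

variable {x : E} (hx : x ∈ K a)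

include hx

theorem on_split (b : C) (n : ℕ) :
    x (Sum.inl (on b n)) = x (Sum.inl (on b (n + 1))) + x (Sum.inl (off b n)) := by
  have h := hx.2.2.1 (on b n)
  simp only [on, off, PiNat.res_succ] at h ⊢
  rw [h]
  cases b n <;> simp <;> ring

theorem sum_off (b : C) {N N' : ℕ} (h : N ≤ N') :
    ∑ n ∈ Finset.Ico N N', x (Sum.inl (off b n)) + x (Sum.inl (on b N')) = x (Sum.inl (on b N)) := by
  induction N', h using Nat.le_induction with
  | base => simp
  | succ k hk ih =>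
    rw [Finset.sum_Ico_succ_top hk]
    have := on_split hx b k
    linarith

theorem on_anti (b : C) {N N' : ℕ} (h : N ≤ N') : x (Sum.inl (on b N')) ≤ x (Sum.inl (on b N)) := by
  have h1 := sum_off hx b h
  have h2 : 0 ≤ ∑ n ∈ Finset.Ico N N', x (Sum.inl (off b n)) :=
    Finset.sum_nonneg fun n _ => hx.2.1 _
  linarith

theorem ell_eq (b : C) {N N' : ℕ} (h : N ≤ N') :
    ell x b N' = ell x b N + ∑ n ∈ Finset.Ico N N', c n * x (Sum.inl (off b n)) := by
  unfold ell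
  rw [Finset.sum_range_add_sum_Ico _ h]

/-- the main estimate -/
theorem est {i : Om} {b' : C} {D N : ℕ} (hrel : Rel D (a i) b') (hN : N ≤ D) :
    |x (Sum.inr i) - (ell x (a i) N + c D * x (Sum.inl (on (a i) N)))| ≤
      x (Sum.inl (on (a i) N)) - x (Sum.inl (on b' (D + 1))) := by
  have hoff : on b' (D + 1) = off (a i) D := by
    simp only [on, off, PiNat.res_succ]
    have h1 : b' D = !(a i D) := by
      have := hrel.2
      cases h1 : a i D <;> cases h2 : b' D <;> simp_all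
    have h2 : PiNat.res b' D = PiNat.res (a i) D :=
      PiNat.res_eq_res.2 fun m hm => (hrel.1 m hm).symm
    rw [h1, h2]
  have e1 := hx.2.2.2.1 i (D + 1)
  have e2 := hx.2.2.2.2 i (D + 1)
  have e3 : ell x (a i) (D + 1) = ell x (a i) D + c D * x (Sum.inl (off (a i) D)) := by
    simp [ell, Finset.sum_range_succ]
  have e4 := ell_eq hx (a i) hN
  have e5 := sum_off hx (a i) hN
  have e6 := on_split hx (a i) D
  have e7 : 0 ≤ ∑ n ∈ Finset.Ico N D, c n * x (Sum.inl (off (a i) n)) :=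
    Finset.sum_nonneg fun n _ => mul_nonneg (c_nonneg n) (hx.2.1 _)
  have e8 : ∑ n ∈ Finset.Ico N D, c n * x (Sum.inl (off (a i) n)) ≤
      ∑ n ∈ Finset.Ico N D, x (Sum.inl (off (a i) n)) :=
    Finset.sum_le_sum fun n _ => mul_le_of_le_one_left (hx.2.1 _) (c_le n)
  rw [hoff]
  set P := x (Sum.inl (off (a i) D))
  set M := x (Sum.inl (on (a i) N))
  set Q := x (Sum.inl (on (a i) (D + 1)))
  set T := ∑ n ∈ Finset.Ico N D, x (Sum.inl (off (a i) n))
  have hQ : 0 ≤ Q := hx.2.1 _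
  have hT : 0 ≤ T := Finset.sum_nonneg fun n _ => hx.2.1 _
  have hMP : 0 ≤ M - P := by linarith
  have hc0 := c_nonneg D
  have hc1 := c_le D
  have f1 : c D * (M - P) ≤ M - P := mul_le_of_le_one_left hMP hc1
  have f2 : 0 ≤ c D * (M - P) := mul_nonneg hc0 hMP
  have f3 : c D * (M - P) = c D * M - c D * P := by ring
  rw [abs_le]
  constructor <;> linarith

end mass

theorem ell_congr {b b' : C} {N : ℕ} (h : on b N = on b' N) (x : E) : ell x b N = ell x b' N := by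
  unfold ell
  refine Finset.sum_congr rfl fun n hn => ?_
  have hn' := Finset.mem_range.1 hn
  have h1 := PiNat.res_eq_res.1 h
  have h2 : PiNat.res b n = PiNat.res b' n :=
    PiNat.res_eq_res.2 fun m hm => h1 (hm.trans hn')
  simp only [off]
  rw [h2, h1 hn']

/-- the approximating value -/
noncomputable def psi (x : E) (b : C) (N s : ℕ) : ℝ := ell x b N + q s * x (Sum.inl (on b N))

theorem exists_N {x : E} (hx : x ∈ K a) (b : C) {ε : ℝ} (hε : 0 < ε) :
    ∃ N, ∀ n, x (Sum.inl (on b N)) - x (Sum.inl (on b n)) < ε := by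
  have hbdd : BddBelow (Set.range fun n => x (Sum.inl (on b n))) :=
    ⟨0, by rintro _ ⟨n, rfl⟩; exact hx.2.1 _⟩
  obtain ⟨N, hN⟩ := exists_lt_of_ciInf_lt (lt_add_of_pos_right (⨅ n, x (Sum.inl (on b n))) hε)
  refine ⟨N, fun n => ?_⟩
  have := ciInf_le hbdd n
  linarith

theorem exists_s {x : E} (hx : x ∈ K a) (i : Om) (N : ℕ) {ε : ℝ} (hε : 0 < ε) :
    ∃ s, |x (Sum.inr i) - psi x (a i) N s| < ε := by
  have h1 := hx.2.2.2.1 i N
  have h2 := hx.2.2.2.2 i N
  set M := x (Sum.inl (on (a i) N))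
  have hM : 0 ≤ M := hx.2.1 _
  have hM1 : M ≤ 1 := K_le_one hx _
  obtain ⟨r, hr0, hr1, hr⟩ : ∃ r : ℝ, 0 ≤ r ∧ r ≤ 1 ∧ x (Sum.inr i) - ell x (a i) N = r * M := by
    rcases hM.eq_or_lt with h | h
    · exact ⟨0, le_rfl, zero_le_one, by rw [← h] at h2 ⊢; linarith⟩
    · refine ⟨(x (Sum.inr i) - ell x (a i) N) / M, div_nonneg (by linarith) hM, ?_, ?_⟩
      · rw [div_le_one h]; linarith
      · field_simp
  obtain ⟨s, hs⟩ := q_dense hr0 hr1 hε
  refine ⟨s, ?_⟩
  have : x (Sum.inr i) - psi x (a i) N s = (r - q s) * M := by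
    unfold psi
    have : x (Sum.inr i) = ell x (a i) N + r * M := by linarith
    rw [this]; ring
  rw [this, abs_mul, abs_of_nonneg hM]
  calc |r - q s| * M ≤ |r - q s| * 1 := mul_le_mul_of_nonneg_left hM1 (abs_nonneg _)
    _ < ε := by rw [mul_one]; exact hs

/-- the radius -/
noncomputable def ep (n : ℕ) : ℝ := 1 / (3 * ((n : ℝ) + 1))

theorem ep_pos (n : ℕ) : 0 < ep n := by unfold ep; positivity

theorem exists_nhd (x : K a) {V : Set (K a)} (hV : IsOpen V) (hx : x ∈ V) :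
    ∃ (F : Finset (List Bool)) (k : ℕ) (b : Fin k → Om) (n : ℕ), StrictMono b ∧
      ∀ y : K a, (∀ t ∈ F, |(y : E) (Sum.inl t) - (x : E) (Sum.inl t)| < 3 * ep n) →
        (∀ j, |(y : E) (Sum.inr (b j)) - (x : E) (Sum.inr (b j))| < 3 * ep n) → y ∈ V := by
  classical
  obtain ⟨O, hO, rfl⟩ := isOpen_induced_iff.1 hV
  rw [isOpen_pi_iff] at hO
  obtain ⟨I, u, hu, hsub⟩ := hO _ hx
  have h1 : ∀ g : Ix, ∃ n : ℕ, g ∈ I → ∀ r : ℝ, |r - (x : E) g| < 3 * ep n → r ∈ u g := by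
    intro g
    by_cases hg : g ∈ I
    · obtain ⟨δ, hδ, hball⟩ := Metric.isOpen_iff.1 (hu g hg).1 _ (hu g hg).2
      obtain ⟨n, hn⟩ := exists_nat_one_div_lt hδ
      refine ⟨n, fun _ r hr => hball ?_⟩
      rw [Metric.mem_ball, Real.dist_eq]
      refine hr.trans ?_
      have : 3 * ep n = 1 / ((n : ℝ) + 1) := by unfold ep; field_simp
      rw [this]; exact hn
    · exact ⟨0, fun h => absurd h hg⟩
  choose nn hnn using h1
  refine ⟨I.toLeft, (I.toRight).card, (I.toRight).orderEmbOfFin rfl, I.sup nn,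
    (I.toRight.orderEmbOfFin rfl).strictMono, ?_⟩
  intro y hy1 hy2
  apply hsub
  intro g hg
  have hle : ∀ g ∈ I, ep (I.sup nn) ≤ ep (nn g) := by
    intro g hg
    have h2 : nn g ≤ I.sup nn := Finset.le_sup hg
    unfold ep
    have h3 : ((nn g : ℕ) : ℝ) ≤ ((I.sup nn : ℕ) : ℝ) := by exact_mod_cast h2
    gcongr
  refine hnn g hg _ ?_
  refine lt_of_lt_of_le ?_ (mul_le_mul_of_nonneg_left (hle g hg) (by norm_num))
  rcases g with t | i
  · exact hy1 t (Finset.mem_toLeft.2 hg)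
  · have hi : i ∈ Set.range (I.toRight.orderEmbOfFin rfl) := by
      rw [Finset.range_orderEmbOfFin]
      exact Finset.mem_coe.2 (Finset.mem_toRight.2 hg)
    obtain ⟨j, rfl⟩ := hi
    exact hy2 j

/-- the countable type of patterns -/
abbrev Pat : Type := Σ k : ℕ, (ℕ × ℕ × (Fin k → List Bool) × (Fin k → ℕ) × (Fin k → ℤ) ×
  Finset (List Bool × ℤ))

open Classical in
/-- the point `x` with neighbourhood `V` has the pattern `p`, as witnessed by `b` -/
def HasPat (x : K a) (V : Set (K a)) (k n N : ℕ) (τ : Fin k → List Bool) (σ : Fin k → ℕ)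
    (z : Fin k → ℤ) (G : Finset (List Bool × ℤ)) (b : Fin k → Om) : Prop :=
  StrictMono b ∧ (∀ j, on (a (b j)) N = τ j) ∧
  (∀ j, |(x : E) (Sum.inr (b j)) - psi x (a (b j)) N (σ j)| < ep n) ∧
  (∀ j, ⌊psi x (a (b j)) N (σ j) / ep n⌋ = z j) ∧
  (∀ j, ∀ n', (x : E) (Sum.inl (on (a (b j)) N)) - (x : E) (Sum.inl (on (a (b j)) n')) < ep n) ∧
  ∃ F : Finset (List Bool), G = F.image (fun t => (t, ⌊(x : E) (Sum.inl t) / ep n⌋)) ∧
    ∀ y : K a, (∀ t ∈ F, |(y : E) (Sum.inl t) - (x : E) (Sum.inl t)| < 3 * ep n) →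
      (∀ j, |(y : E) (Sum.inr (b j)) - (x : E) (Sum.inr (b j))| < 3 * ep n) → y ∈ V

theorem exists_pat (x : K a) {V : Set (K a)} (hV : IsOpen V) (hx : x ∈ V) :
    ∃ p : Pat, ∃ b, HasPat x V p.1 p.2.1 p.2.2.1 p.2.2.2.1 p.2.2.2.2.1 p.2.2.2.2.2.1
      p.2.2.2.2.2.2 b := by
  classical
  obtain ⟨F, k, b, n, hb, h⟩ := exists_nhd x hV hx
  choose Nj hNj using fun j => exists_N x.2 (a (b j)) (ep_pos n)
  let N := Finset.univ.sup Nj
  have hN : ∀ j, ∀ n', (x : E) (Sum.inl (on (a (b j)) N)) - (x : E) (Sum.inl (on (a (b j)) n')) < ep n := by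
    intro j n'
    have h1 := hNj j n'
    have h2 : (x : E) (Sum.inl (on (a (b j)) N)) ≤ (x : E) (Sum.inl (on (a (b j)) (Nj j))) :=
      on_anti x.2 _ (Finset.le_sup (Finset.mem_univ j))
    linarith
  choose σ hσ using fun j => exists_s x.2 (b j) N (ep_pos n)
  exact ⟨⟨k, n, N, fun j => on (a (b j)) N, σ, fun j => ⌊psi x (a (b j)) N (σ j) / ep n⌋,
    F.image (fun t => (t, ⌊(x : E) (Sum.inl t) / ep n⌋))⟩, b, hb, fun j => rfl, hσ, fun j => rfl,
    hN, F, rfl, h⟩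

theorem abs_lt_of_floor {u v e : ℝ} (he : 0 < e) (h : ⌊u / e⌋ = ⌊v / e⌋) : |u - v| < e := by
  have h1 := Int.abs_sub_lt_one_of_floor_eq_floor h
  rw [← sub_div, abs_div, abs_of_pos he, div_lt_one he] at h1
  exact h1

theorem close {x y : K a} {V V' : Set (K a)} {k n N : ℕ} {τ : Fin k → List Bool} {σ : Fin k → ℕ}
    {z : Fin k → ℤ} {G : Finset (List Bool × ℤ)} {b b' : Fin k → Om}
    (hx : HasPat x V k n N τ σ z G b) (hy : HasPat y V' k n N τ σ z G b')
    (h : ∀ j, b j = b' j ∨ ∃ m, col m = σ j ∧ Rel m (a (b j)) (a (b' j))) : y ∈ V := by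
  obtain ⟨-, x2, x3, x4, x5, F, xG, xF⟩ := hx
  obtain ⟨-, y2, y3, y4, y5, F', yG, -⟩ := hy
  have hep := ep_pos n
  refine xF y ?_ ?_
  · intro t ht
    have h1 : (t, ⌊(x : E) (Sum.inl t) / ep n⌋) ∈ G := by
      rw [xG]; exact Finset.mem_image_of_mem _ ht
    rw [yG, Finset.mem_image] at h1
    obtain ⟨t', _, ht'⟩ := h1
    rw [Prod.mk.injEq] at ht'
    obtain ⟨rfl, h2⟩ := ht'
    have := abs_lt_of_floor hep h2
    linarith
  · intro j
    have h1 := x3 j
    have h2 : |psi x (a (b j)) N (σ j) - psi y (a (b' j)) N (σ j)| < ep n :=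
      abs_lt_of_floor hep ((x4 j).trans (y4 j).symm)
    have hon : on (a (b j)) N = on (a (b' j)) N := (x2 j).trans (y2 j).symm
    have h3 : |(y : E) (Sum.inr (b j)) - psi y (a (b' j)) N (σ j)| < ep n := by
      rcases h j with h | ⟨m, hm, hrel⟩
      · rw [h]; exact y3 j
      · have hNm : N ≤ m := by
          by_contra hlt
          exact hrel.2 (PiNat.res_eq_res.1 hon (not_le.1 hlt))
        have h4 := est y.2 hrel hNm
        have h5 : psi y (a (b' j)) N (σ j) =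
            ell (y : E) (a (b j)) N + c m * (y : E) (Sum.inl (on (a (b j)) N)) := by
          unfold psi
          rw [ell_congr hon, ← hon, c, hm]
        rw [h5]
        refine h4.trans_lt ?_
        rw [hon]
        exact y5 j (m + 1)
    rw [abs_lt] at h1 h2 h3 ⊢
    constructor <;> linarith [h1.1, h1.2, h2.1, h2.2, h3.1, h3.2]

theorem noRight (ha : Gen a) (x : Om → K a) (V : Om → Set (K a)) (hV : ∀ ξ, IsOpen (V ξ))
    (hx : ∀ ξ, x ξ ∈ V ξ) : ∃ ξ η, ξ < η ∧ x η ∈ V ξ := by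
  have h1 : ∀ ξ, ∃ p : Pat, ∃ b, HasPat (x ξ) (V ξ) p.1 p.2.1 p.2.2.1 p.2.2.2.1 p.2.2.2.2.1
      p.2.2.2.2.2.1 p.2.2.2.2.2.2 b := fun ξ => exists_pat (x ξ) (hV ξ) (hx ξ)
  have h2 : ∃ p : Pat, ¬ {ξ | ∃ b, HasPat (x ξ) (V ξ) p.1 p.2.1 p.2.2.1 p.2.2.2.1 p.2.2.2.2.1
      p.2.2.2.2.2.1 p.2.2.2.2.2.2 b}.Countable := by
    by_contra hc
    push Not at hc
    refine not_countable_univ ((Set.countable_iUnion hc).mono ?_)
    intro ξ _
    exact mem_iUnion.2 (h1 ξ)
  obtain ⟨p, hp⟩ := h2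
  have h3 : ∀ ξ : {ξ | ∃ b, HasPat (x ξ) (V ξ) p.1 p.2.1 p.2.2.1 p.2.2.2.1 p.2.2.2.2.1
      p.2.2.2.2.2.1 p.2.2.2.2.2.2 b}, ∃ b, HasPat (x ξ) (V ξ) p.1 p.2.1 p.2.2.1 p.2.2.2.1
      p.2.2.2.2.1 p.2.2.2.2.2.1 p.2.2.2.2.2.2 b := fun ξ => ξ.2
  choose b hb using h3
  obtain ⟨i, _, i', _, hne, h⟩ := star ha p.1 _ (Set.univ : Set {ξ | ∃ b, HasPat (x ξ) (V ξ) p.1
      p.2.1 p.2.2.1 p.2.2.2.1 p.2.2.2.2.1 p.2.2.2.2.2.1 p.2.2.2.2.2.2 b})
    (by
      intro hc
      apply hp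
      have := hc.image (Subtype.val)
      rwa [image_univ, Subtype.range_coe] at this) b (fun i _ => (hb i).1) p.2.2.2.2.1
  have hne' : (i : Om) ≠ i' := fun h => hne (Subtype.ext h)
  rcases lt_or_gt_of_ne hne' with hlt | hlt
  · exact ⟨i, i', hlt, close (hb i) (hb i') h⟩
  · refine ⟨i', i, hlt, close (hb i') (hb i) fun j => ?_⟩
    rcases h j with h | ⟨m, hm, hrel⟩
    · exact Or.inl h.symm
    · exact Or.inr ⟨m, hm, hrel.symm⟩

end Pool.Agent.Helper937.JayK
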