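import Mathlib

/-!
# A generic sequence of type `ω₁` in the Cantor space under CH
-/

set_option autoImplicit false

namespace Pool.Agent.Helper937.JayLuz

open Cardinal Set Topology Filter TopologicalSpace

/-- The well-ordered set of the countable ordinals (order type `ω₁`). -/
abbrev Om : Type := (ℵ₁ : Cardinal.{0}).ord.ToType

/-- the Cantor space -/
abbrev C : Type := ℕ → Bool

theorem countable_Iio (a : Om) : (Set.Iio a).Countable := by
  have h : #(Set.Iio a) < ℵ₁ := mk_Iio_toType_ord_lt a
  have h1 : ℵ₁ ≤ Order.succ (ℵ₀ : Cardinal.{0}) := succ_aleph0.ge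
  exact (le_aleph0_iff_set_countable).1 (Order.lt_succ_iff.1 (h.trans_le h1))

theorem not_countable_univ : ¬ (Set.univ : Set Om).Countable := by
  intro h
  have h1 : #(Set.univ : Set Om) ≤ ℵ₀ := le_aleph0_iff_set_countable.2 h
  have h2 : #(Set.univ : Set Om) = ℵ₁ := by
    rw [mk_univ]; simp [Om]
  rw [h2] at h1
  exact absurd h1 (not_le.2 aleph0_lt_aleph_one)

theorem countable_Iic (a : Om) : (Set.Iic a).Countable := by
  have : Set.Iic a = insert a (Set.Iio a) := by
    ext b; simp [le_iff_eq_or_lt]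
  rw [this]
  exact (countable_Iio a).insert a

theorem exists_bound {ι : Type} [Countable ι] (f : ι → Om) : ∃ a : Om, ∀ n, f n < a := by
  by_contra hc
  push Not at hc
  have h1 : (Set.univ : Set Om) ⊆ ⋃ n, Set.Iic (f n) := by
    intro a _
    obtain ⟨n, hn⟩ := hc a
    exact Set.mem_iUnion.2 ⟨n, hn⟩
  exact not_countable_univ ((Set.countable_iUnion fun n => countable_Iic (f n)).mono h1)

/-- `a` is generic for the open subsets of the finite powers of the Cantor space -/
def Gen (a : Om → C) : Prop :=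
  ∀ (k : ℕ) (W : Set (Fin (k + 1) → C)), IsOpen W → ∃ γ : Om, ∀ β0 : Om, γ < β0 →
    ∀ β : Fin k → Om, (∀ j, β j < β0) →
    Dense {x : C | (Fin.snoc (fun j => a (β j)) x : Fin (k + 1) → C) ∈ W} →
      (Fin.snoc (fun j => a (β j)) (a β0) : Fin (k + 1) → C) ∈ W

theorem mk_opens_le (X : Type) [TopologicalSpace X] [SecondCountableTopology X] :
    #(Opens X) ≤ 2 ^ (ℵ₀ : Cardinal.{0}) := by
  have hinj : Function.Injective
      (fun U : Opens X => {b : countableBasis X | (b : Set X) ⊆ U}) := by
    intro U V h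
    have key : ∀ W : Opens X, (W : Set X) = ⋃ b ∈ {b : countableBasis X | (b : Set X) ⊆ W}, (b : Set X) := by
      intro W
      ext x
      constructor
      · intro hx
        obtain ⟨b, hb, hxb, hbW⟩ := (isBasis_countableBasis X).exists_subset_of_mem_open hx W.2
        simp only [mem_iUnion]
        exact ⟨⟨b, hb⟩, hbW, hxb⟩
      · intro hx
        simp only [mem_iUnion] at hx
        obtain ⟨b, hb, hxb⟩ := hx
        exact hb hxb
    apply SetLike.coe_injective
    simp only at h
    rw [key U, key V, h]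
  calc #(Opens X) ≤ #(Set (countableBasis X)) := mk_le_of_injective hinj
    _ = 2 ^ #(countableBasis X) := mk_set
    _ ≤ 2 ^ (ℵ₀ : Cardinal.{0}) := by
      apply power_le_power_left two_ne_zero
      exact mk_le_aleph0_iff.2 (countable_countableBasis X).to_subtype

/-- codes of open sets -/
abbrev Cod : Type := Σ k : ℕ, Opens (Fin (k + 1) → C)

theorem exists_enum (hCH : (2 : Cardinal.{0}) ^ (ℵ₀ : Cardinal.{0}) = ℵ₁) :
    ∃ e : Om → Cod, Function.Surjective e := by
  have h1 : #Cod ≤ #Om := by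
    rw [mk_sigma]
    have h2 : Cardinal.sum (fun k : ℕ => #(Opens (Fin (k + 1) → C))) ≤
        Cardinal.sum (fun _ : ℕ => (2 : Cardinal.{0}) ^ (ℵ₀ : Cardinal.{0})) :=
      Cardinal.sum_le_sum _ _ fun k => mk_opens_le _
    refine h2.trans ?_
    rw [Cardinal.sum_const, mk_nat, lift_aleph0, lift_id, hCH]
    have : #Om = ℵ₁ := by simp [Om]
    rw [this]
    rw [aleph0_mul_aleph]
  obtain ⟨f⟩ := Cardinal.le_def _ _ |>.1 h1
  haveI : Nonempty Cod := ⟨⟨0, ⊤⟩⟩
  exact ⟨Function.invFun f, Function.invFun_surjective f.injective⟩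

section rec

variable (e : Om → Cod)

/-- the requirement on the new point `x` -/
def Req (β0 : Om) (g : ∀ β : Om, β < β0 → C) (x : C) : Prop :=
  (∀ γ : Om, γ < β0 → ∀ t : Fin (e γ).1 → Set.Iio β0,
    Dense {y : C | (Fin.snoc (fun j => g (t j).1 (t j).2) y : Fin ((e γ).1 + 1) → C) ∈ (e γ).2} →
      (Fin.snoc (fun j => g (t j).1 (t j).2) x : Fin ((e γ).1 + 1) → C) ∈ (e γ).2) ∧
  ∀ β (h : β < β0), x ≠ g β h

theorem exists_req (β0 : Om) (g : ∀ β : Om, β < β0 → C) : ∃ x, Req e β0 g x := by
  classical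
  haveI : Countable (Set.Iio β0) := (countable_Iio β0).to_subtype
  let J : Type := Σ γ : Set.Iio β0, (Fin (e γ.1).1 → Set.Iio β0)
  let sec : J → Set C := fun p =>
    {y : C | (Fin.snoc (fun j => g (p.2 j).1 (p.2 j).2) y : Fin ((e p.1.1).1 + 1) → C) ∈ (e p.1.1).2}
  have hsec : ∀ p, IsOpen (sec p) := by
    intro p
    refine (e p.1.1).2.2.preimage ?_
    refine continuous_pi fun j => ?_
    refine Fin.lastCases ?_ (fun i => ?_) j
    · simpa using (continuous_id' : Continuous fun x : C => x)
    · simpa using continuous_const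
  let D : J ⊕ (Set.Iio β0) → Set C := fun q => match q with
    | Sum.inl p => if Dense (sec p) then sec p else univ
    | Sum.inr β => {g β.1 β.2}ᶜ
  have hopen : ∀ q, IsOpen (D q) := by
    rintro (p | β)
    · simp only [D]
      split_ifs
      · exact hsec p
      · exact isOpen_univ
    · exact isOpen_compl_singleton
  have hperf : ∀ z : C, Dense ({z}ᶜ : Set C) := by
    intro z
    rw [dense_compl_singleton_iff_not_open]
    intro hz
    rw [isOpen_pi_iff] at hz
    obtain ⟨I, u, hu, hsub⟩ := hz z rfl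
    obtain ⟨n, hn⟩ := Infinite.exists_notMem_finset I
    have : Function.update z n (!z n) ∈ (I : Set ℕ).pi u := by
      intro i hi
      have : i ≠ n := fun h => hn (h ▸ hi)
      rw [Function.update_of_ne this]
      exact (hu i hi).2
    have h2 := hsub this
    have h3 := congrFun (Set.mem_singleton_iff.1 h2) n
    simp at h3
  have hdense : ∀ q, Dense (D q) := by
    rintro (p | β)
    · simp only [D]
      split_ifs with h
      · exact h
      · exact dense_univ
    · exact hperf _
  obtain ⟨x, hx⟩ := (dense_iInter_of_isOpen hopen hdense).nonempty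
  rw [mem_iInter] at hx
  refine ⟨x, ?_, ?_⟩
  · intro γ hγ t ht
    have h1 := hx (Sum.inl ⟨⟨γ, hγ⟩, t⟩)
    simp only [D] at h1
    rw [if_pos ht] at h1
    exact h1
  · intro β h
    have h1 := hx (Sum.inr ⟨β, h⟩)
    exact h1

end rec

theorem exists_gen (hCH : (2 : Cardinal.{0}) ^ (ℵ₀ : Cardinal.{0}) = ℵ₁) :
    ∃ a : Om → C, Gen a ∧ Function.Injective a := by
  obtain ⟨e, he⟩ := exists_enum hCH
  let F : ∀ β0 : Om, (∀ β : Om, β < β0 → C) → C := fun β0 g => (exists_req e β0 g).choose
  let a : Om → C := (wellFounded_lt : WellFounded ((· < ·) : Om → Om → Prop)).fix F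
  have ha : ∀ β0, Req e β0 (fun β _ => a β) (a β0) := by
    intro β0
    have h1 : a β0 = F β0 (fun β _ => a β) := WellFounded.fix_eq _ _ _
    rw [h1]
    exact (exists_req e β0 (fun β _ => a β)).choose_spec
  refine ⟨a, ?_, ?_⟩
  · intro k W hW
    obtain ⟨γ, hγ⟩ := he ⟨k, ⟨W, hW⟩⟩
    refine ⟨γ, fun β0 hβ0 β hβ hd => ?_⟩
    have key : ∀ p : Cod, (∀ t : Fin p.1 → Set.Iio β0,
        Dense {y : C | (Fin.snoc (fun j => a (t j).1) y : Fin (p.1 + 1) → C) ∈ p.2} →
        (Fin.snoc (fun j => a (t j).1) (a β0) : Fin (p.1 + 1) → C) ∈ p.2) →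
        p = ⟨k, ⟨W, hW⟩⟩ → (Fin.snoc (fun j => a (β j)) (a β0) : Fin (k + 1) → C) ∈ W := by
      rintro p hp rfl
      exact hp (fun j => ⟨β j, hβ j⟩) hd
    exact key (e γ) ((ha β0).1 γ hβ0) hγ
  · intro x y hxy
    rcases lt_trichotomy x y with h | h | h
    · exact absurd hxy.symm ((ha y).2 x h)
    · exact h
    · exact absurd hxy ((ha x).2 y h)

/-- the tuples far out lie in every dense open set -/
theorem tuples {a : Om → C} (ha : Gen a) : ∀ (k : ℕ) (W : Set (Fin k → C)), IsOpen W → Dense W →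
    ∃ δ : Om, ∀ β : Fin k → Om, StrictMono β → (∀ j, δ < β j) → (fun j => a (β j)) ∈ W := by
  intro k
  induction k with
  | zero =>
    intro W _ hd
    obtain ⟨x, hx⟩ := hd.nonempty
    haveI : Nonempty Om := ⟨(exists_bound (fun n : Fin 0 => n.elim0)).choose⟩
    refine ⟨Classical.arbitrary Om, fun β _ _ => ?_⟩
    have : (fun j => a (β j)) = x := Subsingleton.elim _ _
    rw [this]
    exact hx
  | succ k ih =>
    intro W hW hd
    have hsn : ∀ x : C, Continuous (fun y : Fin k → C => (Fin.snoc y x : Fin (k + 1) → C)) := by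
      intro x
      refine continuous_pi fun j => ?_
      refine Fin.lastCases ?_ (fun i => ?_) j
      · simpa using continuous_const
      · simpa using continuous_apply i
    let Wu : countableBasis C → Set (Fin k → C) := fun u =>
      {y | ∃ x ∈ (u : Set C), (Fin.snoc y x : Fin (k + 1) → C) ∈ W}
    have hWo : ∀ u, IsOpen (Wu u) := by
      intro u
      have : Wu u = ⋃ x ∈ (u : Set C), (fun y : Fin k → C => (Fin.snoc y x : Fin (k + 1) → C)) ⁻¹' W := by
        ext y; simp [Wu]
      rw [this]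
      exact isOpen_biUnion fun x _ => hW.preimage (hsn x)
    have hWd : ∀ u, Dense (Wu u) := by
      intro u
      rw [dense_iff_inter_open]
      rintro O hO ⟨y0, hy0⟩
      obtain ⟨x0, hx0⟩ : ((u : Set C)).Nonempty := nonempty_of_mem_countableBasis u.2
      have hO' : IsOpen {z : Fin (k + 1) → C | (fun j : Fin k => z j.castSucc) ∈ O ∧ z (Fin.last k) ∈ (u : Set C)} := by
        refine IsOpen.inter ?_ ?_
        · exact hO.preimage (continuous_pi fun j => continuous_apply _)
        · exact (isOpen_of_mem_countableBasis u.2).preimage (continuous_apply _)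
      obtain ⟨z, ⟨hz1, hz2⟩, hzW⟩ := hd.inter_open_nonempty _ hO'
        ⟨(Fin.snoc y0 x0 : Fin (k + 1) → C), by
          constructor
          · simpa using hy0
          · simpa using hx0⟩
      refine ⟨fun j : Fin k => z j.castSucc, hz1, z (Fin.last k), hz2, ?_⟩
      have : (Fin.snoc (fun j : Fin k => z j.castSucc) (z (Fin.last k)) : Fin (k + 1) → C) = z := by
        funext j
        refine Fin.lastCases ?_ (fun i => ?_) j
        · simp
        · simp
      rw [this]
      exact hzW
    choose δu hδu using fun u => ih (Wu u) (hWo u) (hWd u)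
    haveI : Countable (countableBasis C) := (countable_countableBasis C).to_subtype
    obtain ⟨δ1, hδ1⟩ := exists_bound δu
    obtain ⟨γ, hγ⟩ := ha k W hW
    refine ⟨max δ1 γ, fun β hβ hβδ => ?_⟩
    have hlast : ∀ j : Fin k, β j.castSucc < β (Fin.last k) := fun j => hβ (Fin.castSucc_lt_last j)
    have hy : ∀ u, (fun j : Fin k => a (β j.castSucc)) ∈ Wu u := by
      intro u
      refine hδu u (fun j => β j.castSucc) ?_ ?_
      · intro i j hij
        exact hβ (Fin.castSucc_lt_castSucc_iff.2 hij)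
      · intro j
        exact (hδ1 u).trans ((le_max_left _ _).trans_lt (hβδ _))
    have hdense : Dense {x : C | (Fin.snoc (fun j : Fin k => a (β j.castSucc)) x : Fin (k + 1) → C) ∈ W} := by
      rw [(isBasis_countableBasis C).dense_iff]
      intro o ho hne
      obtain ⟨x, hx, hxW⟩ := hy ⟨o, ho⟩
      exact ⟨x, hx, hxW⟩
    have h1 := hγ (β (Fin.last k)) ((le_max_right _ _).trans_lt (hβδ _)) (fun j => β j.castSucc) hlast hdense
    have : (Fin.snoc (fun j : Fin k => a (β j.castSucc)) (a (β (Fin.last k))) : Fin (k + 1) → C)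
        = fun j => a (β j) := by
      funext j
      refine Fin.lastCases ?_ (fun i => ?_) j
      · simp
      · simp
    rw [this] at h1
    exact h1

/-- `x` and `d` split exactly at `n` -/
def Rel (n : ℕ) (x d : C) : Prop := (∀ m < n, x m = d m) ∧ x n ≠ d n

theorem Rel.symm {n : ℕ} {x d : C} (h : Rel n x d) : Rel n d x :=
  ⟨fun m hm => (h.1 m hm).symm, h.2.symm⟩

theorem isOpen_rel (n : ℕ) (d : C) : IsOpen {x : C | Rel n x d} := by
  have : {x : C | Rel n x d} = (⋂ m ∈ Finset.range n, {x : C | x m = d m}) ∩ {x : C | x n ≠ d n} := by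
    ext x; simp [Rel]
  rw [this]
  refine IsOpen.inter (isOpen_biInter_finset fun m _ => ?_) ?_
  · have hc : Continuous (fun x : C => x m) := continuous_apply m
    exact (isOpen_discrete ({b | b = d m} : Set Bool)).preimage hc
  · have hc : Continuous (fun x : C => x n) := continuous_apply n
    exact (isOpen_discrete ({b | b ≠ d n} : Set Bool)).preimage hc

/-- the colour of `n` -/
def col (n : ℕ) : ℕ := (Nat.unpair n).1

theorem star1 {a : Om → C} (ha : Gen a) (k : ℕ) (S : Set (Fin k → Om)) (hS : ∀ b ∈ S, StrictMono b)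
    (hunb : ∀ δ : Om, ∃ b ∈ S, ∀ j, δ < b j) (σ : Fin k → ℕ) :
    ∃ b ∈ S, ∃ b' ∈ S, ∀ j, ∃ n, col n = σ j ∧ Rel n (a (b j)) (a (b' j)) := by
  let D : Set (Fin k → C) := {x | ∃ b ∈ S, x = fun j => a (b j)}
  let G : Set (Fin k → C) := {x | ∃ d ∈ D, ∀ j, ∃ n, col n = σ j ∧ Rel n (x j) (d j)}
  have hG : IsOpen G := by
    have : G = ⋃ d ∈ D, ⋂ j ∈ (Finset.univ : Finset (Fin k)), ⋃ n ∈ {n | col n = σ j},
        (fun x : Fin k → C => x j) ⁻¹' {x : C | Rel n x (d j)} := by
      ext x; simp [G]
    rw [this]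
    refine isOpen_biUnion fun d _ => isOpen_biInter_finset fun j _ => isOpen_biUnion fun n _ => ?_
    exact (isOpen_rel n (d j)).preimage (continuous_apply j)
  have hDG : D ⊆ closure G := by
    intro d hd
    let y : ℕ → (Fin k → C) := fun i j =>
      Function.update (d j) (Nat.pair (σ j) i) (!(d j (Nat.pair (σ j) i)))
    have hy : ∀ i, y i ∈ G := by
      intro i
      refine ⟨d, hd, fun j => ⟨Nat.pair (σ j) i, by simp [col], ?_, ?_⟩⟩
      · intro m hm
        simp only [y]
        rw [Function.update_of_ne (ne_of_lt hm)]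
      · simp [y]
    have hlim : Tendsto y atTop (𝓝 d) := by
      rw [tendsto_pi_nhds]
      intro j
      rw [tendsto_pi_nhds]
      intro m
      refine tendsto_const_nhds.congr' ?_
      filter_upwards [eventually_gt_atTop m] with i hi
      simp only [y]
      rw [Function.update_of_ne]
      have := Nat.right_le_pair (σ j) i
      omega
    exact mem_closure_of_tendsto hlim (Eventually.of_forall hy)
  have hW : IsOpen (G ∪ (closure D)ᶜ) := hG.union isClosed_closure.isOpen_compl
  have hWd : Dense (G ∪ (closure D)ᶜ) := by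
    intro x
    by_cases hx : x ∈ closure D
    · have h1 : closure D ⊆ closure G := closure_minimal hDG isClosed_closure
      exact closure_mono subset_union_left (h1 hx)
    · exact subset_closure (Or.inr hx)
  obtain ⟨δ, hδ⟩ := tuples ha k _ hW hWd
  obtain ⟨b, hb, hbδ⟩ := hunb δ
  have h1 := hδ b (hS b hb) hbδ
  have h2 : (fun j => a (b j)) ∈ closure D := subset_closure ⟨b, hb, rfl⟩
  rcases h1 with h1 | h1
  · obtain ⟨d, ⟨b', hb', rfl⟩, h3⟩ := h1
    exact ⟨b, hb, b', hb', h3⟩
  · exact absurd h2 h1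

/-- The entangledness-like property of the generic sequence. -/
theorem star {a : Om → C} (ha : Gen a) : ∀ (k : ℕ) (ι : Type) (S : Set ι), ¬ S.Countable →
    ∀ (b : ι → (Fin k → Om)), (∀ i ∈ S, StrictMono (b i)) → ∀ (σ : Fin k → ℕ),
    ∃ i ∈ S, ∃ i' ∈ S, i ≠ i' ∧
      ∀ j, b i j = b i' j ∨ ∃ n, col n = σ j ∧ Rel n (a (b i j)) (a (b i' j)) := by
  intro k
  induction k with
  | zero =>
    intro ι S hS b hb σ
    have : S.Nontrivial := by
      by_contra h
      exact hS (Set.not_nontrivial_iff.1 h).countable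
    obtain ⟨i, hi, i', hi', hne⟩ := this
    exact ⟨i, hi, i', hi', hne, fun j => j.elim0⟩
  | succ k ih =>
    intro ι S hS b hb σ
    by_cases hu : ∀ δ : Om, ∃ i ∈ S, δ < b i 0
    · obtain ⟨b1, ⟨i, hi, rfl⟩, b2, ⟨i', hi', rfl⟩, h⟩ := star1 ha (k + 1) (b '' S)
        (by rintro _ ⟨i, hi, rfl⟩; exact hb i hi)
        (by
          intro δ
          obtain ⟨i, hi, hδ⟩ := hu δ
          exact ⟨b i, ⟨i, hi, rfl⟩, fun j => hδ.trans_le ((hb i hi).monotone (Fin.zero_le j))⟩) σ
      refine ⟨i, hi, i', hi', ?_, fun j => Or.inr (h j)⟩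
      rintro rfl
      obtain ⟨n, _, hn⟩ := h 0
      exact hn.2 rfl
    · push Not at hu
      obtain ⟨δ, hδ⟩ := hu
      have : ∃ c ∈ Set.Iic δ, ¬ {i ∈ S | b i 0 = c}.Countable := by
        by_contra hc
        push Not at hc
        refine hS (((countable_Iic δ).biUnion hc).mono ?_)
        intro i hi
        simp only [mem_iUnion]
        exact ⟨b i 0, hδ i hi, hi, rfl⟩
      obtain ⟨c, _, hc⟩ := this
      obtain ⟨i, hi, i', hi', hne, h⟩ := ih ι {i ∈ S | b i 0 = c} hc (fun i j => b i j.succ)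
        (by
          intro i hi p q hpq
          exact hb i hi.1 (Fin.succ_lt_succ_iff.2 hpq)) (fun j => σ j.succ)
      refine ⟨i, hi.1, i', hi'.1, hne, fun j => ?_⟩
      refine Fin.cases ?_ (fun j => ?_) j
      · left
        rw [hi.2, hi'.2]
      · exact h j

end Pool.Agent.Helper937.JayLuz
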