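import Pool.Agent.Helper937.JayK

/-!
# The convex compactum is not metrizable
-/

set_option autoImplicit false

namespace Pool.Agent.Helper937.JayN

open Cardinal Set Topology Filter TopologicalSpace
open Pool.Agent.Helper937.JayLuz Pool.Agent.Helper937.JayK

open Classical in
/-- the point over the Dirac measure at `a i` with the `i`-th coordinate `v` -/
noncomputable def pt (a : Om → C) (i : Om) (v : ℝ) : E
  | Sum.inl t => if t = on (a i) t.length then 1 else 0
  | Sum.inr j => if j = i then v else c (PiNat.firstDiff (a j) (a i))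

variable {a : Om → C}

theorem pt_on (i : Om) (v : ℝ) (b : C) (n : ℕ) :
    pt a i v (Sum.inl (on b n)) = if on b n = on (a i) n then 1 else 0 := by
  simp only [pt, PiNat.res_length]

theorem pt_off (i : Om) (v : ℝ) (b : C) (n : ℕ) :
    pt a i v (Sum.inl (off b n)) = if off b n = on (a i) (n + 1) then 1 else 0 := by
  simp only [pt, off, List.length_cons, PiNat.res_length]
  congr

theorem off_eq_iff (b d : C) (n : ℕ) : off b n = on d (n + 1) ↔ JayLuz.Rel n b d := by
  simp only [off, on, PiNat.res_succ, List.cons.injEq, PiNat.res_eq_res, JayLuz.Rel]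
  constructor
  · rintro ⟨h1, h2⟩
    refine ⟨fun m hm => h2 hm, ?_⟩
    rw [← h1]; simp
  · rintro ⟨h1, h2⟩
    refine ⟨?_, fun m hm => h1 hm⟩
    cases h3 : b n <;> cases h4 : d n <;> simp_all

theorem rel_unique {n m : ℕ} {b d : C} (h : JayLuz.Rel n b d) (h' : JayLuz.Rel m b d) : n = m := by
  rcases lt_trichotomy n m with hlt | heq | hgt
  · exact absurd (h'.1 n hlt) h.2
  · exact heq
  · exact absurd (h.1 m hgt) h'.2

theorem rel_firstDiff {b d : C} (h : b ≠ d) : JayLuz.Rel (PiNat.firstDiff b d) b d :=
  ⟨fun _ hm => PiNat.apply_eq_of_lt_firstDiff hm, PiNat.apply_firstDiff_ne h⟩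

theorem pt_mem (hinj : Function.Injective a) (i : Om) {v : ℝ} (h0 : 0 ≤ v) (h1 : v ≤ 1) :
    pt a i v ∈ K a := by
  classical
  refine ⟨?_, ?_, ?_, ?_, ?_⟩
  · simp [pt]
  · intro t
    simp only [pt]
    split_ifs <;> norm_num
  · intro t
    simp only [pt, List.length_cons]
    by_cases ht : t = on (a i) t.length
    · rw [if_pos ht]
      have e : ∀ b : Bool, (b :: t = on (a i) (t.length + 1)) ↔ b = a i t.length := by
        intro b
        simp only [on, PiNat.res_succ, List.cons.injEq]
        exact ⟨fun h => h.1, fun h => ⟨h, ht⟩⟩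
      simp only [e]
      cases a i t.length <;> simp
    · rw [if_neg ht]
      have e : ∀ b : Bool, ¬ (b :: t = on (a i) (t.length + 1)) := by
        intro b h
        simp only [on, PiNat.res_succ, List.cons.injEq] at h
        exact ht h.2
      rw [if_neg (e _), if_neg (e _)]; norm_num
  · intro j N
    by_cases hj : j = i
    · subst hj
      have : ell (pt a j v) (a j) N = 0 := by
        unfold ell
        refine Finset.sum_eq_zero fun n _ => ?_
        rw [pt_off, if_neg, mul_zero]
        rw [off_eq_iff]
        intro h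
        exact h.2 rfl
      rw [this]
      simp [pt, h0]
    · have hne : a j ≠ a i := fun h => hj (hinj h)
      have hrel := rel_firstDiff hne
      have : ell (pt a i v) (a j) N ≤ c (PiNat.firstDiff (a j) (a i)) := by
        have h2 : ∀ n, c n * pt a i v (Sum.inl (off (a j) n)) =
            if n = PiNat.firstDiff (a j) (a i) then c (PiNat.firstDiff (a j) (a i)) else 0 := by
          intro n
          rw [pt_off]
          by_cases hn : n = PiNat.firstDiff (a j) (a i)
          · rw [if_pos hn, if_pos ((off_eq_iff _ _ _).2 (hn ▸ hrel)), hn, mul_one]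
          · rw [if_neg hn, if_neg, mul_zero]
            intro h
            exact hn (rel_unique ((off_eq_iff _ _ _).1 h) hrel)
        unfold ell
        simp only [h2]
        rw [Finset.sum_ite_eq']
        split_ifs
        · exact le_rfl
        · exact c_nonneg _
      refine this.trans ?_
      simp [pt, hj]
  · intro j N
    by_cases hj : j = i
    · subst hj
      have : ell (pt a j v) (a j) N = 0 := by
        unfold ell
        refine Finset.sum_eq_zero fun n _ => ?_
        rw [pt_off, if_neg, mul_zero]
        rw [off_eq_iff]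
        intro h
        exact h.2 rfl
      rw [this, pt_on]
      simp [pt, h1]
    · have hne : a j ≠ a i := fun h => hj (hinj h)
      have hrel := rel_firstDiff hne
      have h2 : ∀ n, c n * pt a i v (Sum.inl (off (a j) n)) =
          if n = PiNat.firstDiff (a j) (a i) then c (PiNat.firstDiff (a j) (a i)) else 0 := by
        intro n
        rw [pt_off]
        by_cases hn : n = PiNat.firstDiff (a j) (a i)
        · rw [if_pos hn, if_pos ((off_eq_iff _ _ _).2 (hn ▸ hrel)), hn, mul_one]
        · rw [if_neg hn, if_neg, mul_zero]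
          intro h
          exact hn (rel_unique ((off_eq_iff _ _ _).1 h) hrel)
      have h3 : pt a i v (Sum.inr j) = c (PiNat.firstDiff (a j) (a i)) := by simp [pt, hj]
      rw [h3, pt_on]
      unfold ell
      simp only [h2]
      rw [Finset.sum_ite_eq']
      by_cases hN : PiNat.firstDiff (a j) (a i) < N
      · rw [if_pos (Finset.mem_range.2 hN)]
        have : (0 : ℝ) ≤ if on (a j) N = on (a i) N then 1 else 0 := by split_ifs <;> norm_num
        linarith
      · rw [if_neg (fun h => hN (Finset.mem_range.1 h)), if_pos]
        · have := c_le (PiNat.firstDiff (a j) (a i))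
          linarith
        · exact PiNat.res_eq_res.2 fun m hm => hrel.1 m (lt_of_lt_of_le hm (not_lt.1 hN))

theorem not_metrizable (hinj : Function.Injective a) : ¬ MetrizableSpace (K a) := by
  intro hmet
  letI : MetricSpace (K a) := metrizableSpaceMetric (K a)
  haveI : CompactSpace (K a) := isCompact_iff_compactSpace.1 isCompact_K
  haveI : SecondCountableTopology (K a) := inferInstance
  have hc : ∀ i : Om, Continuous fun x : K a => (x : E) (Sum.inr i) := fun i =>
    (continuous_apply (Sum.inr i : Ix)).comp continuous_subtype_val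
  have h0 : ∀ i : Om, ∃ B ∈ countableBasis (K a), (⟨pt a i 0, pt_mem hinj i le_rfl zero_le_one⟩ : K a) ∈ B ∧
      B ⊆ {x : K a | (x : E) (Sum.inr i) < 1 / 2} := by
    intro i
    refine (isBasis_countableBasis (K a)).exists_subset_of_mem_open ?_
      (isOpen_lt (hc i) continuous_const)
    simp [pt]
  have h1 : ∀ i : Om, ∃ B ∈ countableBasis (K a), (⟨pt a i 1, pt_mem hinj i zero_le_one le_rfl⟩ : K a) ∈ B ∧
      B ⊆ {x : K a | 1 / 2 < (x : E) (Sum.inr i)} := by
    intro i
    refine (isBasis_countableBasis (K a)).exists_subset_of_mem_open ?_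
      (isOpen_lt continuous_const (hc i))
    simp only [mem_setOf_eq, pt, if_true]
    norm_num
  choose B0 hB0 hp0 hs0 using h0
  choose B1 hB1 hp1 hs1 using h1
  haveI : Countable (countableBasis (K a)) := (countable_countableBasis (K a)).to_subtype
  let f : Om → countableBasis (K a) × countableBasis (K a) := fun i => (⟨B0 i, hB0 i⟩, ⟨B1 i, hB1 i⟩)
  have hf : Function.Injective f := by
    intro i j hij
    by_contra hne
    simp only [f, Prod.mk.injEq, Subtype.mk.injEq] at hij
    have e0 : (⟨pt a j 0, pt_mem hinj j le_rfl zero_le_one⟩ : K a) ∈ B0 i := hij.1 ▸ hp0 j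
    have e1 : (⟨pt a j 1, pt_mem hinj j zero_le_one le_rfl⟩ : K a) ∈ B1 i := hij.2 ▸ hp1 j
    have f0 : pt a j 0 (Sum.inr i) < 1 / 2 := hs0 i e0
    have f1 : 1 / 2 < pt a j 1 (Sum.inr i) := hs1 i e1
    simp only [pt, if_neg hne] at f0 f1
    linarith
  have : Countable Om := hf.countable
  exact not_countable_univ Set.countable_univ

end Pool.Agent.Helper937.JayN
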