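import Mathlib

/-!
# Two topological facts: perfect normality from the absence of right-separated families, and
metrizability of convex compacta with a map with totally disconnected fibres
-/

set_option autoImplicit false

namespace Pool.Agent.Helper937.JayTop

open Cardinal

/-- A compact Hausdorff space without right-separated families of type `ω₁`
is perfectly normal. -/
theorem perfNormal_of_noRight {X : Type} [TopologicalSpace X] [CompactSpace X] [T2Space X]
    (h : ∀ (x : (ℵ₁ : Cardinal.{0}).ord.ToType → X) (V : (ℵ₁ : Cardinal.{0}).ord.ToType → Set X),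
      (∀ ξ, IsOpen (V ξ)) → (∀ ξ, x ξ ∈ V ξ) → ∃ ξ η, ξ < η ∧ x η ∈ V ξ) :
    PerfectlyNormalSpace X := by
  classical
  refine { closed_gdelta := ?_ }
  intro F hF
  have hU : IsOpen Fᶜ := hF.isOpen_compl
  have hV : ∀ x : X, ∃ V : Set X, IsOpen V ∧ x ∈ V ∧ (x ∈ Fᶜ → closure V ⊆ Fᶜ) := by
    intro x
    by_cases hx : x ∈ Fᶜ
    · obtain ⟨V, hVo, hxV, hVU⟩ := (isCompact_singleton (x := x)).exists_isOpen_closure_subset
        (by rw [nhdsSet_singleton]; exact hU.mem_nhds hx)
      exact ⟨V, hVo, hxV rfl, fun _ => hVU⟩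
    · exact ⟨Set.univ, isOpen_univ, trivial, fun h => absurd h hx⟩
  choose V hVo hxV hVU using hV
  have key : ∃ S : Set X, S.Countable ∧ S ⊆ Fᶜ ∧ Fᶜ ⊆ ⋃ x ∈ S, V x := by
    by_contra hcon
    push Not at hcon
    have hne : ∀ S : Set X, S.Countable → S ⊆ Fᶜ → ∃ y ∈ Fᶜ, ∀ x ∈ S, y ∉ V x := by
      intro S hS hSF
      have h1 := hcon S hS hSF
      rw [Set.not_subset] at h1
      obtain ⟨y, hy, hy2⟩ := h1
      refine ⟨y, hy, fun x hx hyx => hy2 ?_⟩
      exact Set.mem_biUnion hx hyx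
    -- choice function
    let pick : Set X → Fᶜ.Elem → Fᶜ.Elem := fun S d =>
      if hS : ∃ y ∈ Fᶜ, ∀ x ∈ S, y ∉ V x then ⟨hS.choose, hS.choose_spec.1⟩ else d
    obtain ⟨d, hd, -⟩ := hne ∅ Set.countable_empty (Set.empty_subset _)
    let W := (ℵ₁ : Cardinal.{0}).ord.ToType
    let f : W → Fᶜ.Elem := WellFounded.fix (wellFounded_lt (α := W))
      (fun η ih => pick {y | ∃ (ξ : W) (hξ : ξ < η), y = (ih ξ hξ : X)} ⟨d, hd⟩)
    have hf : ∀ η : W, f η = pick {y | ∃ (ξ : W) (_ : ξ < η), y = (f ξ : X)} ⟨d, hd⟩ := by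
      intro η
      exact WellFounded.fix_eq (wellFounded_lt (α := W))
        (fun η ih => pick {y | ∃ (ξ : W) (hξ : ξ < η), y = (ih ξ hξ : X)} ⟨d, hd⟩) η
    have hcount : ∀ η : W, (Set.Iio η).Countable := by
      intro η
      rw [Cardinal.countable_iff_lt_aleph_one]
      exact Cardinal.mk_Iio_toType_ord_lt η
    have hspec : ∀ η : W, ∀ ξ < η, (f η : X) ∉ V (f ξ) := by
      intro η ξ hξ
      have hc : Set.Countable {y : X | ∃ (ξ : W) (_ : ξ < η), y = (f ξ : X)} := by
        have h1 := (hcount η).image (fun ξ => (f ξ : X))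
        refine h1.mono ?_
        rintro y ⟨ξ, hξ, rfl⟩
        exact ⟨ξ, hξ, rfl⟩
      have hs : {y : X | ∃ (ξ : W) (_ : ξ < η), y = (f ξ : X)} ⊆ Fᶜ := by
        rintro y ⟨ξ, hξ, rfl⟩
        exact (f ξ).2
      have hS := hne _ hc hs
      have h2 : (f η : X) = hS.choose := by
        rw [hf η]
        simp only [pick]
        rw [dif_pos hS]
      rw [h2]
      exact hS.choose_spec.2 _ ⟨ξ, hξ, rfl⟩
    obtain ⟨ξ, η, hlt, hmem⟩ := h (fun ξ => (f ξ : X)) (fun ξ => V (f ξ)) (fun ξ => hVo _)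
      (fun ξ => hxV _)
    exact hspec η ξ hlt hmem
  obtain ⟨S, hS, hSF, hcov⟩ := key
  have hFe : F = ⋂ x ∈ S, (closure (V x))ᶜ := by
    ext y
    simp only [Set.mem_iInter, Set.mem_compl_iff]
    constructor
    · intro hy x hx hyx
      exact hVU x (hSF hx) hyx hy
    · intro hy
      by_contra hyF
      have h1 := hcov hyF
      simp only [Set.mem_iUnion] at h1
      obtain ⟨x, hx, hyx⟩ := h1
      exact hy x hx (subset_closure hyx)
  rw [hFe]
  exact IsGδ.biInter_of_isOpen hS (fun x _ => isClosed_closure.isOpen_compl)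


/-- A convex compactum with a continuous map with totally disconnected fibres into a
metrizable space is metrizable. -/
theorem metrizable_of_totDisc_fibres {E : Type} [AddCommGroup E] [Module ℝ E]
    [TopologicalSpace E] [IsTopologicalAddGroup E] [ContinuousSMul ℝ E] [LocallyConvexSpace ℝ E]
    [T2Space E] (K : Set E) (hK : IsCompact K) (hc : Convex ℝ K)
    {M : Type} [TopologicalSpace M] [TopologicalSpace.MetrizableSpace M]
    (φ : K → M) (hφ : Continuous φ) (hfib : ∀ y : M, IsTotallyDisconnected (φ ⁻¹' {y})) :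
    TopologicalSpace.MetrizableSpace K := by
  letI : MetricSpace M := TopologicalSpace.metrizableSpaceMetric M
  haveI : CompactSpace K := isCompact_iff_compactSpace.mp hK
  have hdist : Continuous (fun p : K × K => dist (φ p.1) (φ p.2)) :=
    (hφ.comp continuous_fst).dist (hφ.comp continuous_snd)
  have hopen : ∀ f : E →L[ℝ] ℝ, IsOpen {p : K × K | f p.1 ≠ f p.2} := by
    intro f
    exact isOpen_ne_fun (f.continuous.comp (continuous_subtype_val.comp continuous_fst))
      (f.continuous.comp (continuous_subtype_val.comp continuous_snd))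
  have hfin : ∀ n : ℕ, ∃ t : Finset (E →L[ℝ] ℝ),
      {p : K × K | 1 / ((n : ℝ) + 1) ≤ dist (φ p.1) (φ p.2)} ⊆
        ⋃ f ∈ t, {p : K × K | f p.1 ≠ f p.2} := by
    intro n
    have hclosed : IsClosed {p : K × K | 1 / ((n : ℝ) + 1) ≤ dist (φ p.1) (φ p.2)} :=
      isClosed_le continuous_const hdist
    refine hclosed.isCompact.elim_finite_subcover _ hopen ?_
    intro p hp
    have hne : (p.1 : E) ≠ p.2 := by
      intro h
      have h1 : p.1 = p.2 := Subtype.ext h
      have h2 : 1 / ((n : ℝ) + 1) ≤ dist (φ p.1) (φ p.2) := hp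
      rw [h1, dist_self] at h2
      have h3 : 0 < 1 / ((n : ℝ) + 1) := by positivity
      linarith
    obtain ⟨f, hf⟩ := geometric_hahn_banach_point_point hne
    exact Set.mem_iUnion.mpr ⟨f, hf.ne⟩
  choose t ht using hfin
  set A : Set (E →L[ℝ] ℝ) := ⋃ n, (t n : Set (E →L[ℝ] ℝ)) with hA
  have hAc : Countable A := (Set.countable_iUnion fun n => (t n).countable_toSet).to_subtype
  have hsep : ∀ x y : K, (∀ f : A, (f : E →L[ℝ] ℝ) x = (f : E →L[ℝ] ℝ) y) → φ x = φ y := by
    intro x y h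
    by_contra hne
    have hpos : 0 < dist (φ x) (φ y) := dist_pos.mpr hne
    obtain ⟨n, hn⟩ := exists_nat_one_div_lt hpos
    have h1 : (x, y) ∈ {p : K × K | 1 / ((n : ℝ) + 1) ≤ dist (φ p.1) (φ p.2)} := hn.le
    have h2 := ht n h1
    simp only [Set.mem_iUnion] at h2
    obtain ⟨f, hf, h3⟩ := h2
    exact h3 (h ⟨f, Set.mem_iUnion.mpr ⟨n, hf⟩⟩)
  set P : K → (A → ℝ) := fun x f => (f : E →L[ℝ] ℝ) x with hP
  have hPc : Continuous P :=
    continuous_pi fun f => (f : E →L[ℝ] ℝ).continuous.comp continuous_subtype_val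
  have hPi : Function.Injective P := by
    intro x y hxy
    have hf : ∀ f : A, (f : E →L[ℝ] ℝ) x = (f : E →L[ℝ] ℝ) y := fun f => congrFun hxy f
    let γ : unitInterval → K := fun s => ⟨(1 - (s : ℝ)) • (x : E) + (s : ℝ) • (y : E),
      hc x.2 y.2 (by linarith [s.2.2]) s.2.1 (by ring)⟩
    have hγ : Continuous γ := by
      apply Continuous.subtype_mk
      fun_prop
    have hpre : IsPreconnected (Set.range γ) := isPreconnected_range hγ
    have hsub : Set.range γ ⊆ φ ⁻¹' {φ x} := by
      rintro _ ⟨s, rfl⟩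
      show φ (γ s) = φ x
      apply hsep
      intro f
      show (f : E →L[ℝ] ℝ) ((1 - (s : ℝ)) • (x : E) + (s : ℝ) • (y : E)) = (f : E →L[ℝ] ℝ) x
      rw [map_add, map_smul, map_smul, ← hf f]
      simp only [smul_eq_mul]
      ring
    have hss := hfib (φ x) (Set.range γ) hsub hpre
    have h0 : γ 0 = x := by
      apply Subtype.ext
      simp [γ]
    have h1 : γ 1 = y := by
      apply Subtype.ext
      simp [γ]
    rw [← h0, ← h1]
    exact hss ⟨0, rfl⟩ ⟨1, rfl⟩
  have hemb : Topology.IsClosedEmbedding P := hPc.isClosedEmbedding hPi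
  exact hemb.isEmbedding.metrizableSpace

end Pool.Agent.Helper937.JayTop
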