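import Pool.Agent.Helper937.Rat7

set_option autoImplicit false

open Cardinal Set MeasureTheory

namespace Pool.Agent.Helper937.Rat

def Gdi {X : Type} (ι : Type) [MeasurableSpace X] (μ : Measure X) (T E : Set X) : Prop :=
  MeasurableSet E ∧ ∃ V' : ι → Set X, (∀ ξ, Full μ (V' ξ) (T ∩ E)) ∧
        ∀ ξ η, ξ ≠ η → Disjoint (V' ξ) (V' η)

theorem gdi_iUnion {X : Type} (ι : Type) [MeasurableSpace X] (μ : Measure X) (T : Set X)
    (E : ℕ → Set X) (hE : ∀ k, Gdi ι μ T (E k)) : Gdi ι μ T (⋃ k, E k) := by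
  refine ⟨MeasurableSet.iUnion fun k => (hE k).1, ?_⟩
  choose V hV hVd using fun k => (hE k).2
  have hD : ∀ k, MeasurableSet (disjointed E k) := fun k =>
    MeasurableSet.disjointed (fun k => (hE k).1) k
  refine ⟨fun ξ => ⋃ k, (V k ξ ∩ disjointed E k), fun ξ => ⟨?_, ?_⟩, ?_⟩
  · refine iUnion_subset fun k => ?_
    rintro x ⟨hx, -⟩
    have := (hV k ξ).1 hx
    exact ⟨this.1, mem_iUnion.2 ⟨k, this.2⟩⟩
  · intro H hH hVH
    have hsub : (T ∩ ⋃ k, E k) \ H ⊆ ⋃ k, ((T ∩ E k) \ (H ∪ (disjointed E k)ᶜ)) := by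
      rintro x ⟨⟨hxT, hxE⟩, hxH⟩
      rw [← iUnion_disjointed] at hxE
      obtain ⟨k, hk⟩ := mem_iUnion.1 hxE
      refine mem_iUnion.2 ⟨k, ⟨hxT, disjointed_subset E k hk⟩, ?_⟩
      rintro (hx | hx)
      · exact hxH hx
      · exact hx hk
    refine measure_mono_null hsub (measure_iUnion_null fun k => ?_)
    apply (hV k ξ).2 _ (hH.union (hD k).compl)
    intro x hx
    by_cases hxD : x ∈ disjointed E k
    · left
      exact hVH (mem_iUnion.2 ⟨k, hx, hxD⟩)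
    · right
      exact hxD
  · intro ξ η hne
    rw [Set.disjoint_left]
    intro x hx hy
    obtain ⟨k, hk1, hk2⟩ := mem_iUnion.1 hx
    obtain ⟨j, hj1, hj2⟩ := mem_iUnion.1 hy
    by_cases hkj : k = j
    · subst hkj
      exact Set.disjoint_left.1 (hVd k ξ η hne) hk1 hj1
    · exact Set.disjoint_left.1 (disjoint_disjointed E hkj) hk2 hj2

theorem exhaust_gen {X : Type} (ι : Type) [MeasurableSpace X] (μ : Measure X) [IsFiniteMeasure μ]
    (T : Set X)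
    (h : ∀ G, MeasurableSet G → μ (T ∩ G) ≠ 0 → ∃ E, MeasurableSet E ∧ E ⊆ G ∧
      μ (T ∩ E) ≠ 0 ∧ ∃ V' : ι → Set X, (∀ ξ, Full μ (V' ξ) (T ∩ E)) ∧
        ∀ ξ η, ξ ≠ η → Disjoint (V' ξ) (V' η)) :
    ∃ V : ι → Set X, (∀ ξ, Full μ (V ξ) T) ∧ ∀ ξ η, ξ ≠ η → Disjoint (V ξ) (V η) := by
  obtain ⟨S, hS⟩ : ∃ S : Set ENNReal, S = {r | ∃ E, Gdi ι μ T E ∧ r = μ (T ∩ E)} := ⟨_, rfl⟩
  have hne : S.Nonempty := by
    rw [hS]
    refine ⟨_, ∅, ⟨MeasurableSet.empty, fun _ => ∅, fun ξ => ⟨empty_subset _, fun H _ _ => ?_⟩,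
      fun ξ η _ => disjoint_bot_left⟩, rfl⟩
    simp
  obtain ⟨u, -, hu, huS⟩ := exists_seq_tendsto_sSup hne (OrderTop.bddAbove S)
  have huS' : ∀ n, ∃ E, Gdi ι μ T E ∧ u n = μ (T ∩ E) := by
    intro n
    have := huS n
    rw [hS] at this
    exact this
  choose E hE hEu using huS'
  have hG := gdi_iUnion ι μ T E hE
  obtain ⟨G, hGdef⟩ : ∃ G, G = ⋃ k, E k := ⟨_, rfl⟩
  rw [← hGdef] at hG
  have hsup : sSup S ≤ μ (T ∩ G) := by
    refine le_of_tendsto' hu fun n => ?_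
    rw [hEu n, hGdef]
    exact measure_mono (inter_subset_inter_right _ (subset_iUnion E n))
  have hle : ∀ F, Gdi ι μ T F → μ (T ∩ F) ≤ μ (T ∩ G) := by
    intro F hF
    refine le_trans (le_sSup ?_) hsup
    rw [hS]
    exact ⟨F, hF, rfl⟩
  have h0 : μ (T ∩ Gᶜ) = 0 := by
    by_contra hcon
    obtain ⟨E', hE'm, hE'G, hE'0, hfam⟩ := h Gᶜ hG.1.compl hcon
    have hE'gd : Gdi ι μ T E' := ⟨hE'm, hfam⟩
    have hU := gdi_iUnion ι μ T (fun k => if k = 0 then G else E')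
      (fun k => by
        by_cases hk : k = 0
        · simp only [hk, if_true]; exact hG
        · simp only [hk, if_false]; exact hE'gd)
    have h1 := hle _ hU
    have h2 : T ∩ (⋃ k : ℕ, if k = 0 then G else E') = T ∩ (G ∪ E') := by
      congr 1
      ext x
      simp only [mem_iUnion, mem_union]
      constructor
      · rintro ⟨k, hk⟩
        by_cases hk0 : k = 0
        · rw [if_pos hk0] at hk; exact Or.inl hk
        · rw [if_neg hk0] at hk; exact Or.inr hk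
      · rintro (hx | hx)
        · exact ⟨0, by simpa using hx⟩
        · exact ⟨1, by simpa using hx⟩
    rw [h2, ← measure_inter_add_diff (T ∩ (G ∪ E')) hG.1] at h1
    have h3 : T ∩ (G ∪ E') ∩ G = T ∩ G := by
      ext x; simp only [mem_inter_iff, mem_union]; tauto
    have h4 : (T ∩ (G ∪ E')) \ G = T ∩ E' := by
      ext x
      simp only [mem_inter_iff, mem_union, mem_diff]
      constructor
      · rintro ⟨⟨hx1, hx2⟩, hx3⟩
        exact ⟨hx1, hx2.resolve_left hx3⟩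
      · rintro ⟨hx1, hx2⟩
        exact ⟨⟨hx1, Or.inr hx2⟩, hE'G hx2⟩
    rw [h3, h4] at h1
    have h5 : μ (T ∩ G) ≠ ⊤ := measure_ne_top _ _
    apply hE'0
    have h6 : μ (T ∩ G) + μ (T ∩ E') ≤ μ (T ∩ G) + 0 := by rw [add_zero]; exact h1
    exact le_antisymm ((ENNReal.add_le_add_iff_left h5).1 h6) bot_le
  obtain ⟨-, V, hV, hVd⟩ := hG
  refine ⟨V, fun ξ => ⟨(hV ξ).1.trans inter_subset_left, fun H hH hVH => ?_⟩, hVd⟩
  have h7 := (hV ξ).2 H hH hVH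
  have h8 : T \ H ⊆ ((T ∩ G) \ H) ∪ (T ∩ Gᶜ) := by
    rintro x ⟨hx1, hx2⟩
    by_cases hxG : x ∈ G
    · exact Or.inl ⟨⟨hx1, hxG⟩, hx2⟩
    · exact Or.inr ⟨hx1, hxG⟩
  exact measure_mono_null h8 (measure_union_null h7 h0)

/-- if no positive piece of T splits into two full subsets then every subset of T is relatively
measurable -/
theorem rel_meas {X : Type} [MeasurableSpace X] (μ : Measure X) [IsFiniteMeasure μ] (T : Set X)
    (h : ¬ ∃ E, MeasurableSet E ∧ μ (T ∩ E) ≠ 0 ∧ ∃ V W, Full μ V (T ∩ E) ∧ Full μ W (T ∩ E) ∧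
      Disjoint V W) (Y : Set X) (hY : Y ⊆ T) :
    ∃ H, MeasurableSet H ∧ Y ⊆ H ∧ μ ((T \ Y) ∩ H) = 0 := by
  by_contra hcon
  apply h
  push Not at hcon
  have hH := hcon (toMeasurable μ Y) (measurableSet_toMeasurable _ _) (subset_toMeasurable _ _)
  obtain ⟨H1, hH1⟩ : ∃ H1, H1 = toMeasurable μ Y := ⟨_, rfl⟩
  obtain ⟨H2, hH2⟩ : ∃ H2, H2 = toMeasurable μ (T \ Y) := ⟨_, rfl⟩
  have hm1 : MeasurableSet H1 := by rw [hH1]; exact measurableSet_toMeasurable _ _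
  have hm2 : MeasurableSet H2 := by rw [hH2]; exact measurableSet_toMeasurable _ _
  have hs1 : Y ⊆ H1 := by rw [hH1]; exact subset_toMeasurable _ _
  have hs2 : T \ Y ⊆ H2 := by rw [hH2]; exact subset_toMeasurable _ _
  have hmu1 : μ H1 = μ Y := by rw [hH1]; exact measure_toMeasurable _
  have hmu2 : μ H2 = μ (T \ Y) := by rw [hH2]; exact measure_toMeasurable _
  rw [← hH1] at hH
  -- a set in a hull
  have key : ∀ (Z H' : Set X), Z ⊆ H' → MeasurableSet H' → μ H' = μ Z → Z ⊆ T →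
      ∀ E, MeasurableSet E → E ⊆ H' → Full μ (Z ∩ E) (T ∩ E) := by
    intro Z H' hZH hH' hmu hZT E hE hEH
    refine ⟨Set.inter_subset_inter_left _ hZT, fun K hK hZK => ?_⟩
    have hDm : MeasurableSet (E \ K) := hE.diff hK
    have hsub : Z ⊆ H' \ (E \ K) := by
      intro x hx
      exact ⟨hZH hx, fun h => h.2 (hZK ⟨hx, h.1⟩)⟩
    have h1 : μ (H' \ (E \ K)) + μ (H' ∩ (E \ K)) = μ H' := measure_sdiff_add_inter _ hDm
    have h2 : μ H' ≤ μ (H' \ (E \ K)) := by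
      rw [hmu]; exact measure_mono hsub
    have h3 : H' ∩ (E \ K) = E \ K := Set.inter_eq_right.2 (Set.diff_subset.trans hEH)
    rw [h3] at h1
    have hfin : μ (H' \ (E \ K)) ≠ ⊤ := measure_ne_top _ _
    have h4 : μ (H' \ (E \ K)) + μ (E \ K) ≤ μ (H' \ (E \ K)) + 0 := by
      rw [h1, add_zero]; exact h2
    have h5 : μ (E \ K) ≤ 0 := (ENNReal.add_le_add_iff_left hfin).1 h4
    refine measure_mono_null ?_ (le_antisymm h5 bot_le)
    intro x hx
    exact ⟨hx.1.2, hx.2⟩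
  refine ⟨H1 ∩ H2, hm1.inter hm2, ?_, Y ∩ (H1 ∩ H2), (T \ Y) ∩ (H1 ∩ H2), ?_, ?_, ?_⟩
  · intro h0
    apply hH
    refine measure_mono_null ?_ h0
    rintro x ⟨hx1, hx2⟩
    exact ⟨hx1.1, hx2, hs2 hx1⟩
  · exact key Y H1 hs1 hm1 hmu1 hY _ (hm1.inter hm2) Set.inter_subset_left
  · exact key (T \ Y) H2 hs2 hm2 hmu2 Set.diff_subset _ (hm1.inter hm2) Set.inter_subset_right
  · rw [Set.disjoint_left]
    rintro x ⟨h1, _⟩ ⟨h2, _⟩
    exact h2.2 h1

end Pool.Agent.Helper937.Rat
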