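import Pool.Agent.Helper937.Lus1

set_option autoImplicit false

open Cardinal Set MeasureTheory

namespace Pool.Agent.Helper937.Rat

theorem lusin_core {X : Type} [TopologicalSpace X] [SecondCountableTopology X]
    [MeasurableSpace X] [BorelSpace X] (μ : Measure X) [IsFiniteMeasure μ] [μ.OuterRegular]
    {Λ : Type} [LinearOrder Λ] (ρ : X → Λ) (S : Set X) (hS : μ S ≠ 0)
    (hρ : ∀ a, μ {x | x ∈ S ∧ ρ x ≤ a} = 0)
    (hM : ∀ Y ⊆ S, ∃ H, MeasurableSet H ∧ Y ⊆ H ∧ μ ((S \ Y) ∩ H) = 0) : False := by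
  classical
  obtain ⟨b, hbc, -, hb⟩ := TopologicalSpace.exists_countable_basis X
  obtain ⟨Bk, hBk⟩ := (hbc.insert (∅ : Set X)).exists_eq_range (Set.insert_nonempty _ _)
  have hBopen : ∀ k, IsOpen (Bk k) := by
    intro k
    have h1 : Bk k ∈ insert (∅ : Set X) b := by rw [hBk]; exact ⟨k, rfl⟩
    rcases h1 with h1 | h1
    · rw [h1]; exact isOpen_empty
    · exact hb.isOpen h1
  have hε : ∀ n : ℕ, (0 : ENNReal) < ((n : ENNReal) + 1)⁻¹ := by
    intro n
    rw [ENNReal.inv_pos]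
    exact ENNReal.add_ne_top.mpr ⟨ENNReal.natCast_ne_top n, ENNReal.one_ne_top⟩
  have hU : ∀ (n : ℕ) (y : X), ∃ U : Set X, {x | x ∈ S ∧ ρ x ≤ ρ y} ⊆ U ∧ IsOpen U ∧
      μ U < ((n : ENNReal) + 1)⁻¹ := by
    intro n y
    obtain ⟨U, h1, h2, h3⟩ := Set.exists_isOpen_lt_of_lt (μ := μ) {x | x ∈ S ∧ ρ x ≤ ρ y}
      (((n : ENNReal) + 1)⁻¹) (by rw [hρ]; exact hε n)
    exact ⟨U, h1, h2, h3⟩
  choose U hUsub hUopen hUmu using hU
  have hH : ∀ (n k : ℕ), ∃ H, MeasurableSet H ∧ {y | y ∈ S ∧ Bk k ⊆ U n y} ⊆ H ∧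
      μ ((S \ {y | y ∈ S ∧ Bk k ⊆ U n y}) ∩ H) = 0 := fun n k => hM _ (fun y hy => hy.1)
  choose H hHm hHsub hHnull using hH
  set W : ℕ → Set (X × X) := fun n => ⋃ k, (Bk k) ×ˢ (H n k) with hW
  have hWm : ∀ n, MeasurableSet (W n) := fun n =>
    MeasurableSet.iUnion fun k => ((hBopen k).measurableSet).prod (hHm n k)
  set N : Set X := ⋃ n : ℕ, ⋃ k : ℕ, (S \ {y | y ∈ S ∧ Bk k ⊆ U n y}) ∩ H n k with hN
  have hN0 : μ N = 0 := by
    rw [hN]
    refine measure_iUnion_null fun n => measure_iUnion_null fun k => hHnull n k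
  have hsec : ∀ y, y ∈ S → y ∉ N → ∀ n, (fun x => (x, y)) ⁻¹' (W n) = U n y := by
    intro y hyS hyN n
    ext x
    simp only [hW, Set.mem_preimage, Set.mem_iUnion, Set.mem_prod]
    constructor
    · rintro ⟨k, hx, hy⟩
      by_contra hcon
      apply hyN
      rw [hN]
      refine Set.mem_iUnion.mpr ⟨n, Set.mem_iUnion.mpr ⟨k, ⟨hyS, ?_⟩, hy⟩⟩
      rintro ⟨-, h2⟩
      exact hcon (h2 hx)
    · intro hx
      obtain ⟨v, hv, hxv, hvU⟩ := hb.exists_subset_of_mem_open hx (hUopen n y)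
      have hv' : v ∈ insert (∅ : Set X) b := Or.inr hv
      rw [hBk] at hv'
      obtain ⟨k, rfl⟩ := hv'
      exact ⟨k, hxv, hHsub n k ⟨hyS, hvU⟩⟩
  set D : Set X := {y | ∀ n : ℕ, μ ((fun x => (x, y)) ⁻¹' (W n)) ≤ ((n : ENNReal) + 1)⁻¹} with hD
  have hDm : MeasurableSet D := by
    have : D = ⋂ n : ℕ, {y | μ ((fun x => (x, y)) ⁻¹' (W n)) ≤ ((n : ENNReal) + 1)⁻¹} := by
      ext y; simp [hD]
    rw [this]
    exact MeasurableSet.iInter fun n =>
      measurableSet_le (measurable_measure_prodMk_right (hWm n)) measurable_const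
  set V : Set (X × X) := (⋂ n, W n) ∩ (Prod.snd ⁻¹' D) with hV
  have hVm : MeasurableSet V := (MeasurableSet.iInter hWm).inter (measurable_snd hDm)
  have hVsec : ∀ y, μ ((fun x => (x, y)) ⁻¹' V) = 0 := by
    intro y
    by_cases hy : y ∈ D
    · have hle : ∀ n : ℕ, μ ((fun x => (x, y)) ⁻¹' V) ≤ ((n : ENNReal) + 1)⁻¹ := by
        intro n
        refine le_trans (measure_mono ?_) (hy n)
        intro x hx
        exact Set.mem_iInter.mp hx.1 n
      have ht : Filter.Tendsto (fun n : ℕ => ((n : ENNReal) + 1)⁻¹) Filter.atTop (nhds 0) := by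
        have h1 := (Filter.tendsto_add_atTop_iff_nat 1).2 ENNReal.tendsto_inv_nat_nhds_zero
        refine h1.congr fun n => ?_
        push_cast
        rfl
      exact le_antisymm (ge_of_tendsto' ht hle) zero_le
    · have : (fun x => (x, y)) ⁻¹' V = ∅ := by
        ext x
        simp only [Set.mem_preimage, Set.mem_empty_iff_false, iff_false]
        intro h
        exact hy h.2
      rw [this]
      exact measure_empty
  have hV0 : (μ.prod μ) V = 0 := by
    rw [Measure.prod_apply_symm hVm]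
    simp only [hVsec]
    exact lintegral_zero
  have hae := Measure.measure_ae_null_of_prod_null hV0
  have hex : ∃ x ∈ S, μ (Prod.mk x ⁻¹' V) = 0 := by
    by_contra hcon
    push Not at hcon
    apply hS
    refine measure_mono_null ?_ (Filter.eventually_iff.mp hae |> fun h => h)
    intro x hx hx'
    exact hcon x hx hx'
  obtain ⟨x, hxS, hx0⟩ := hex
  apply hS
  have hcover : S ⊆ (N ∪ {y | y ∈ S ∧ ρ y ≤ ρ x}) ∪ (Prod.mk x ⁻¹' V) := by
    intro y hyS
    by_cases hyN : y ∈ N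
    · exact Or.inl (Or.inl hyN)
    by_cases hle : ρ y ≤ ρ x
    · exact Or.inl (Or.inr ⟨hyS, hle⟩)
    · right
      have hxy : ρ x ≤ ρ y := (not_le.mp hle).le
      refine ⟨Set.mem_iInter.mpr fun n => ?_, ?_⟩
      · have h1 : x ∈ U n y := hUsub n y ⟨hxS, hxy⟩
        rw [← hsec y hyS hyN n] at h1
        exact h1
      · show y ∈ D
        intro n
        rw [hsec y hyS hyN n]
        exact (hUmu n y).le
  refine measure_mono_null hcover ?_
  exact measure_union_null (measure_union_null hN0 (hρ (ρ x))) hx0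

theorem small_rank {X : Type} [MeasurableSpace X] (μ : Measure X) (hμ0 : ∀ x, μ {x} = 0)
    (T : Set X) (hT : μ T ≠ 0) :
    ∃ S ⊆ T, μ S ≠ 0 ∧ ∃ (Λ : Type) (_ : LinearOrder Λ) (ρ : X → Λ),
      ∀ a, μ {x | x ∈ S ∧ ρ x ≤ a} = 0 := by
  classical
  let C : Set Cardinal.{0} := {c | ∃ S ⊆ T, μ S ≠ 0 ∧ #S = c}
  have hne : C.Nonempty := ⟨#T, T, Subset.rfl, hT, rfl⟩
  obtain ⟨κ, hκC, hmin⟩ : ∃ κ ∈ C, ∀ c ∈ C, κ ≤ c :=
    ⟨sInf C, csInf_mem hne, fun c hc => csInf_le' hc⟩
  obtain ⟨S, hST, hμS, hS⟩ := hκC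
  have hna : NullSingletonClass μ := ⟨hμ0⟩
  have hcount : ¬ S.Countable := fun h => hμS (h.measure_zero μ)
  have hinf : S.Infinite := fun h => hcount h.countable
  have hκ : ℵ₀ ≤ κ := by
    rw [← hS]
    have := hinf.to_subtype
    exact Cardinal.aleph0_le_mk _
  obtain ⟨x0, hx0⟩ := hinf.nonempty
  obtain ⟨e⟩ : Nonempty (S ≃ κ.ord.ToType) :=
    Cardinal.eq.1 (hS.trans (Cardinal.mk_ord_toType κ).symm)
  refine ⟨S, hST, hμS, κ.ord.ToType, inferInstance,
    fun x => if h : x ∈ S then e ⟨x, h⟩ else e ⟨x0, hx0⟩, ?_⟩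
  intro a
  by_contra hA
  set A : Set X := {x | x ∈ S ∧ (if h : x ∈ S then e ⟨x, h⟩ else e ⟨x0, hx0⟩) ≤ a} with hAdef
  have h1 : κ ≤ #A := hmin _ ⟨A, fun x hx => hST hx.1, hA, rfl⟩
  have h2 : #A ≤ #(Set.Iic a) := by
    refine Cardinal.mk_le_of_injective (f := fun x : A => (⟨e ⟨x.1, x.2.1⟩, ?_⟩ : Set.Iic a)) ?_
    · have := x.2.2
      rw [dif_pos x.2.1] at this
      exact this
    · intro x y hxy
      have h3 := congrArg Subtype.val hxy
      have h4 := e.injective h3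
      have h5 := congrArg Subtype.val h4
      exact Subtype.ext h5
  have h3 : #(Set.Iic a) < κ := by
    have h4 : #(Set.Iio a) < κ := Cardinal.mk_Iio_toType_ord_lt a
    have h5 : (Set.Iic a) = insert a (Set.Iio a) := by
      ext y; simp [le_iff_eq_or_lt]
    rw [h5]
    exact lt_of_le_of_lt Cardinal.mk_insert_le
      (Cardinal.add_lt_of_lt hκ h4 (lt_of_lt_of_le Cardinal.one_lt_aleph0 hκ))
  exact absurd (h1.trans h2) (not_le.mpr h3)

theorem nat_split {X : Type} [MeasurableSpace X] (μ : Measure X)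
    (htrans : ∀ S T U : Set X, Full μ S T → Full μ T U → Full μ S U)
    (hsplit : ∀ T : Set X, ∃ V W, Full μ V T ∧ Full μ W T ∧ Disjoint V W) (T : Set X) :
    ∃ V : ℕ → Set X, (∀ i, Full μ (V i) T) ∧ ∀ i j, i ≠ j → Disjoint (V i) (V j) := by
  choose V W hV hW hd using hsplit
  let w : ℕ → Set X := fun n => Nat.rec T (fun _ s => W s) n
  have w0 : w 0 = T := rfl
  have ws : ∀ n, w (n + 1) = W (w n) := fun n => rfl
  have hfull : ∀ n, Full μ (w n) T := by
    intro n
    induction n with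
    | zero =>
      rw [w0]
      refine ⟨subset_rfl, fun H _ hH => ?_⟩
      rw [Set.sdiff_eq_empty.mpr hH, measure_empty]
    | succ n ih =>
      rw [ws]
      exact htrans _ _ _ (hW (w n)) ih
  have hanti : Antitone w := by
    refine antitone_nat_of_succ_le fun n => ?_
    rw [ws]
    exact (hW (w n)).1
  refine ⟨fun i => V (w i), fun i => htrans _ _ _ (hV (w i)) (hfull i), ?_⟩
  have key : ∀ i j, i < j → Disjoint (V (w i)) (V (w j)) := by
    intro i j hij
    have h1 : V (w j) ⊆ W (w i) := by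
      refine (hV (w j)).1.trans ?_
      have := hanti (Nat.succ_le_of_lt hij)
      rw [Nat.succ_eq_add_one, ws] at this
      exact this
    exact (hd (w i)).mono_right h1
  intro i j hij
  rcases lt_or_gt_of_ne hij with h | h
  · exact key i j h
  · exact (key j i h).symm

theorem approx_step {X : Type} [MeasurableSpace X] (μ : Measure X) [IsFiniteMeasure μ]
    (V : ℕ → Set X) (hd : ∀ i j, i ≠ j → Disjoint (V i) (V j)) (R : Set X)
    (f : X → Finset X) (ε : ENNReal) (hε : ε ≠ 0) :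
    ∃ i, μ R ≤ μ {x | x ∈ R ∧ ∀ y ∈ f x, y ∉ V i} + ε := by
  classical
  by_cases hR : μ R = 0
  · exact ⟨0, by rw [hR]; exact bot_le⟩
  set P : ℕ → Set X := fun n => {x | x ∈ R ∧ ∀ i, n ≤ i → ∀ y ∈ f x, y ∉ V i} with hP
  have hmono : Monotone P := by
    intro n m hnm x hx
    exact ⟨hx.1, fun i hi => hx.2 i (hnm.trans hi)⟩
  have hU : ⋃ n, P n = R := by
    ext x
    rw [Set.mem_iUnion]
    constructor
    · rintro ⟨n, hx⟩; exact hx.1
    · intro hx
      have key : ∀ F : Finset X, ∃ n, ∀ i, n ≤ i → ∀ y ∈ F, y ∉ V i := by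
        intro F
        refine Finset.induction_on F ⟨0, by simp⟩ ?_
        intro a s _ ih
        obtain ⟨n, hn⟩ := ih
        by_cases ha : ∃ j, a ∈ V j
        · obtain ⟨j, hj⟩ := ha
          refine ⟨max n (j + 1), fun i hi y hy => ?_⟩
          rw [Finset.mem_insert] at hy
          rcases hy with rfl | hy
          · intro hyi
            have hij : j ≠ i := by
              have := (le_max_right n (j + 1)).trans hi
              omega
            exact Set.disjoint_left.mp (hd j i hij) hj hyi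
          · exact hn i ((le_max_left _ _).trans hi) y hy
        · refine ⟨n, fun i hi y hy => ?_⟩
          rw [Finset.mem_insert] at hy
          rcases hy with rfl | hy
          · intro hyi; exact ha ⟨i, hyi⟩
          · exact hn i hi y hy
      obtain ⟨n, hn⟩ := key (f x)
      exact ⟨n, hx, hn⟩
  have hsup : μ R = ⨆ n, μ (P n) := by
    rw [← hU]; exact hmono.measure_iUnion
  have hlt : μ R - ε < μ R := ENNReal.sub_lt_self (measure_ne_top μ R) hR hε
  have hlt2 : μ R - ε < ⨆ n, μ (P n) := by rw [← hsup]; exact hlt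
  obtain ⟨n, hn⟩ := lt_iSup_iff.mp hlt2
  refine ⟨n, ?_⟩
  have h1 : μ R ≤ μ (P n) + ε := tsub_le_iff_right.mp hn.le
  refine h1.trans (add_le_add (measure_mono ?_) le_rfl)
  intro x hx
  exact ⟨hx.1, hx.2 n le_rfl⟩

theorem ranked_eps {X : Type} [MeasurableSpace X] (μ : Measure X) [IsFiniteMeasure μ]
    (f : X → Finset X) (d : X → ℕ)
    (hstep : ∀ T R : Set X, ∀ ε : ENNReal, ε ≠ 0 → ∃ V, Full μ V T ∧
      μ R ≤ μ {x | x ∈ R ∧ ∀ y ∈ f x, y ∉ V} + ε)
    (hfull : ∀ S T : Set X, Full μ S T → μ S = μ T) (j : ℕ) :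
    ∀ (A : Set X) (m : ℕ), (∀ x ∈ A, ∀ y ∈ f x, d y < d x) → (∀ x ∈ A, m ≤ d x ∧ d x < m + j) →
      ∀ ε : ENNReal, ε ≠ 0 →
      ∃ B ⊆ A, μ A ≤ μ B + ε ∧ ∀ x ∈ B, ∀ y ∈ f x, y ∉ B := by
  induction j with
  | zero =>
    intro A m hd hr ε hε
    refine ⟨∅, Set.empty_subset _, ?_, by intro x hx; exact absurd hx (Set.notMem_empty x)⟩
    have hA : A = ∅ := by
      ext x
      constructor
      · intro hx
        have := hr x hx
        omega
      · intro hx
        exact absurd hx (Set.notMem_empty x)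
    rw [hA]
    simp
  | succ j ih =>
    intro A m hd hr ε hε
    have hε2 : ε / 2 ≠ 0 := (ENNReal.half_pos hε).ne'
    obtain ⟨T, hT⟩ : ∃ T : Set X, T = {x | x ∈ A ∧ d x = m} := ⟨_, rfl⟩
    obtain ⟨E, hE⟩ : ∃ E : Set X, E = toMeasurable μ T := ⟨_, rfl⟩
    have hEm : MeasurableSet E := by rw [hE]; exact measurableSet_toMeasurable μ T
    have hTE : T ⊆ E := by rw [hE]; exact subset_toMeasurable μ T
    have hEμ : μ E = μ T := by rw [hE]; exact measure_toMeasurable T
    obtain ⟨V, hV, hVR⟩ := hstep T (A \ E) (ε/2) hε2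
    obtain ⟨R', hR'⟩ : ∃ R' : Set X, R' = {x | x ∈ A \ E ∧ ∀ y ∈ f x, y ∉ V} := ⟨_, rfl⟩
    rw [← hR'] at hVR
    have hR'1 : ∀ x ∈ R', x ∈ A ∧ x ∉ E ∧ ∀ y ∈ f x, y ∉ V := by
      intro x hx
      rw [hR'] at hx
      exact ⟨hx.1.1, hx.1.2, hx.2⟩
    have hr' : ∀ x ∈ R', m + 1 ≤ d x ∧ d x < m + 1 + j := by
      intro x hx
      have h0 := hR'1 x hx
      have h1 := hr x h0.1
      have h2 : d x ≠ m := by
        intro h
        apply h0.2.1
        apply hTE
        rw [hT]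
        exact ⟨h0.1, h⟩
      omega
    obtain ⟨B', hB'R, hB'μ, hB'f⟩ := ih R' (m+1) (fun x hx => hd x (hR'1 x hx).1) hr' (ε/2) hε2
    have hVT : V ⊆ T := hV.1
    have hTA : ∀ x ∈ T, x ∈ A ∧ d x = m := by
      intro x hx
      rw [hT] at hx
      exact hx
    have hVμ : μ V = μ T := hfull V T hV
    refine ⟨V ∪ B', ?_, ?_, ?_⟩
    · intro x hx
      rcases hx with hx | hx
      · exact (hTA x (hVT hx)).1
      · exact (hR'1 x (hB'R hx)).1
    · have h1 : μ A = μ (A ∩ E) + μ (A \ E) := (measure_inter_add_sdiff A hEm).symm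
      have h2 : μ (A ∩ E) ≤ μ V := by
        rw [hVμ, ← hEμ]
        exact measure_mono Set.inter_subset_right
      have h3 : μ V + μ B' ≤ μ (V ∪ B') := by
        rw [← measure_inter_add_sdiff (V ∪ B') hEm]
        apply add_le_add
        · apply measure_mono
          intro x hx
          exact ⟨Or.inl hx, hTE (hVT hx)⟩
        · apply measure_mono
          intro x hx
          exact ⟨Or.inr hx, (hR'1 x (hB'R hx)).2.1⟩
      calc μ A = μ (A ∩ E) + μ (A \ E) := h1
        _ ≤ μ V + (μ R' + ε/2) := add_le_add h2 hVR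
        _ ≤ μ V + ((μ B' + ε/2) + ε/2) := add_le_add le_rfl (add_le_add hB'μ le_rfl)
        _ = (μ V + μ B') + (ε/2 + ε/2) := by ring
        _ = (μ V + μ B') + ε := by rw [ENNReal.add_halves]
        _ ≤ μ (V ∪ B') + ε := add_le_add h3 le_rfl
    · intro x hx y hy hyB
      rcases hx with hx | hx
      · have hxT := hTA x (hVT hx)
        have hdy := hd x hxT.1 y hy
        have hyA : y ∈ A := by
          rcases hyB with hy' | hy'
          · exact (hTA y (hVT hy')).1
          · exact (hR'1 y (hB'R hy')).1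
        have h4 := (hr y hyA).1
        have h5 := hxT.2
        omega
      · rcases hyB with hy' | hy'
        · exact (hR'1 x (hB'R hx)).2.2 y hy hy'
        · exact hB'f x hx y hy hy'

theorem lusin_split {X : Type} [TopologicalSpace X] [SecondCountableTopology X]
    [MeasurableSpace X] [BorelSpace X] (μ : Measure X) [IsFiniteMeasure μ] [μ.OuterRegular]
    (hμ0 : ∀ x, μ {x} = 0) (T : Set X) :
    ∃ V W, Full μ V T ∧ Full μ W T ∧ Disjoint V W := by
  classical
  obtain ⟨V, hV, hd⟩ := exhaust_gen Bool μ T (by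
    intro G hG hTG
    by_contra hcon
    have hno : ¬ ∃ E, MeasurableSet E ∧ μ ((T ∩ G) ∩ E) ≠ 0 ∧
        ∃ V W, Full μ V ((T ∩ G) ∩ E) ∧ Full μ W ((T ∩ G) ∩ E) ∧ Disjoint V W := by
      rintro ⟨E, hE, h0, V, W, hV, hW, hd⟩
      apply hcon
      refine ⟨G ∩ E, hG.inter hE, Set.inter_subset_left, by rwa [← Set.inter_assoc],
        fun b => if b then V else W, ?_, ?_⟩
      · intro b
        rw [← Set.inter_assoc]
        cases b
        · simpa using hW
        · simpa using hV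
      · intro a b hab
        cases a <;> cases b
        · exact absurd rfl hab
        · simpa using hd.symm
        · simpa using hd
        · exact absurd rfl hab
    obtain ⟨S, hST, hS0, Λ, hΛ, ρ, hρ⟩ := small_rank μ hμ0 (T ∩ G) hTG
    apply lusin_core μ ρ S hS0 hρ
    intro Y hY
    obtain ⟨H, hH, hYH, h0⟩ := rel_meas μ (T ∩ G) hno Y (hY.trans hST)
    refine ⟨H, hH, hYH, measure_mono_null ?_ h0⟩
    rintro x ⟨⟨hx1, hx2⟩, hx3⟩
    exact ⟨⟨hST hx1, hx2⟩, hx3⟩)
  exact ⟨V true, V false, hV true, hV false, hd true false (by decide)⟩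

theorem step_all {X : Type} [TopologicalSpace X] [SecondCountableTopology X]
    [MeasurableSpace X] [BorelSpace X] (μ : Measure X) [IsFiniteMeasure μ] [μ.OuterRegular]
    (hμ0 : ∀ x, μ {x} = 0) (f : X → Finset X) (T R : Set X) (ε : ENNReal) (hε : ε ≠ 0) :
    ∃ V, Full μ V T ∧ μ R ≤ μ {x | x ∈ R ∧ ∀ y ∈ f x, y ∉ V} + ε := by
  obtain ⟨V, hV, hd⟩ := nat_split μ (fun S T U h1 h2 => Full.trans h1 h2)
    (lusin_split μ hμ0) T
  obtain ⟨i, hi⟩ := approx_step μ V hd R f ε hε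
  exact ⟨V i, hV i, hi⟩

/-- the abstract theorem, approximate form -/
theorem free_eps {X : Type} [TopologicalSpace X] [SecondCountableTopology X]
    [MeasurableSpace X] [BorelSpace X] (μ : Measure X) [IsFiniteMeasure μ] [μ.OuterRegular]
    (hμ0 : ∀ x, μ {x} = 0)
    (r : X → X → Prop) (hsymm : ∀ a b, r a b → r b a)
    (hcn : ∀ a b, a ≠ b → {x | r x a ∧ r x b}.Countable)
    (A : Set X) (c : ENNReal) (hc : c < μ A) :
    ∃ B ⊆ A, c < μ B ∧ ∀ x ∈ B, ∀ y ∈ B, x ≠ y → ¬ r x y := by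
  classical
  obtain ⟨W, lt, hlt, π, hπ, hfin0⟩ := blocks_gen r hcn _ A rfl
  have hf : ∀ i, ∃ g : X → ℕ, Set.InjOn g (A ∩ π ⁻¹' {i}) := fun i =>
    Set.countable_iff_exists_injOn.mp (hπ i)
  choose g hg using hf
  let e : X → ℕ := fun x => g (π x) x
  have he : ∀ x ∈ A, ∀ y ∈ A, π x = π y → e x = e y → x = y := by
    intro x hx y hy h1 h2
    apply hg (π x) ⟨hx, rfl⟩ ⟨hy, h1.symm⟩
    simp only [e] at h2
    rw [h2, h1]
  let lt' : W × ℕ → W × ℕ → Prop := Prod.Lex lt (fun a b : ℕ => a < b)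
  let π' : X → W × ℕ := fun x => (π x, e x)
  have hwo : IsWellOrder (W × ℕ) lt' := inferInstance
  have hfin : ∀ x ∈ A, {y | y ∈ A ∧ r x y ∧ lt' (π' y) (π' x)}.Finite := by
    intro x hx
    have h1 : {y | y ∈ A ∧ r x y ∧ lt' (π' y) (π' x)} ⊆
        {y | y ∈ A ∧ r x y ∧ lt (π y) (π x)} ∪ {y | y ∈ A ∧ π y = π x ∧ e y < e x} := by
      rintro y ⟨hy1, hy2, hy3⟩
      rcases Prod.lex_def.1 hy3 with h | ⟨h, h'⟩
      · exact Or.inl ⟨hy1, hy2, h⟩
      · exact Or.inr ⟨hy1, h, h'⟩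
    refine Set.Finite.subset ((hfin0 x hx).union ?_) h1
    refine Set.Finite.of_finite_image (f := e) ((Set.finite_Iio (e x)).subset ?_) ?_
    · rintro _ ⟨y, hy, rfl⟩
      exact hy.2.2
    · intro y hy z hz hyz
      exact he y hy.1 z hz.1 (hy.2.1.trans hz.2.1.symm) hyz
  let f : X → Finset X := fun x => if h : x ∈ A then (hfin x h).toFinset else ∅
  have hf1 : ∀ x, ∀ y ∈ f x, x ∈ A ∧ y ∈ A ∧ r x y ∧ lt' (π' y) (π' x) := by
    intro x y hy
    by_cases h : x ∈ A
    · simp only [f] at hy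
      rw [dif_pos h, Set.Finite.mem_toFinset] at hy
      exact ⟨h, hy⟩
    · simp only [f] at hy
      rw [dif_neg h] at hy
      exact absurd hy (Finset.notMem_empty y)
  have hf2 : ∀ x ∈ A, ∀ y ∈ A, r x y → lt' (π' y) (π' x) → y ∈ f x := by
    intro x hx y hy h1 h2
    simp only [f]
    rw [dif_pos hx, Set.Finite.mem_toFinset]
    exact ⟨hy, h1, h2⟩
  obtain ⟨d, hd⟩ := rank_fun lt' π' f (fun x y hy => (hf1 x y hy).2.2.2)
  let An : ℕ → Set X := fun n => {x | x ∈ A ∧ d x < n}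
  have hmono : Monotone An := fun a b hab x hx => ⟨hx.1, hx.2.trans_le hab⟩
  have hU : (⋃ n, An n) = A := by
    ext x
    rw [Set.mem_iUnion]
    constructor
    · rintro ⟨n, hn⟩; exact hn.1
    · intro hx; exact ⟨d x + 1, hx, Nat.lt_succ_self _⟩
  have hsup : c < ⨆ n, μ (An n) := by
    rw [← hmono.measure_iUnion, hU]; exact hc
  obtain ⟨n, hn⟩ := lt_iSup_iff.1 hsup
  obtain ⟨c', hc1, hc2⟩ := exists_between hn
  have hε : c' - c ≠ 0 := (tsub_pos_of_lt hc1).ne'
  obtain ⟨B, hBA, hB, hfree⟩ := ranked_eps μ f d (step_all μ hμ0 f)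
    (fun S T h => Full.measure_eq h) n (An n) 0 (fun x hx y hy => hd x y hy)
    (fun x hx => ⟨Nat.zero_le _, by simpa using hx.2⟩) (c' - c) hε
  refine ⟨B, fun x hx => (hBA hx).1, ?_, ?_⟩
  · by_contra hcon
    rw [not_lt] at hcon
    have h1 : μ (An n) ≤ c + (c' - c) := hB.trans (add_le_add_left hcon _)
    rw [add_tsub_cancel_of_le hc1.le] at h1
    exact absurd hc2 (not_lt.2 h1)
  · intro x hx y hy hne hr
    have hx' : x ∈ A := (hBA hx).1
    have hy' : y ∈ A := (hBA hy).1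
    rcases trichotomous_of lt' (π' x) (π' y) with h | h | h
    · exact hfree y hy x (hf2 y hy' x hx' (hsymm x y hr) h) hx
    · have h1 : π x = π y := congrArg Prod.fst h
      have h2 : e x = e y := congrArg Prod.snd h
      exact hne (he x hx' y hy' h1 h2)
    · exact hfree x hx y (hf2 x hx' y hy' hr h) hy

/-- the plane, approximate form -/
theorem plane_eps (D : Set ℝ) (hD : D.Countable) (A : Set (EuclideanSpace ℝ (Fin 2)))
    (c : ENNReal) (hc : c < volume A) :
    ∃ B ⊆ A, c < volume B ∧ ∀ x ∈ B, ∀ y ∈ B, x ≠ y → dist x y ∉ D := by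
  have hmono : Monotone (fun n : ℕ => A ∩ Metric.ball (0 : EuclideanSpace ℝ (Fin 2)) n) := by
    intro a b hab
    exact Set.inter_subset_inter_right _ (Metric.ball_subset_ball (by exact_mod_cast hab))
  have hU : (⋃ n : ℕ, A ∩ Metric.ball (0 : EuclideanSpace ℝ (Fin 2)) n) = A := by
    rw [← Set.inter_iUnion, Metric.iUnion_ball_nat, Set.inter_univ]
  have hsup : c < ⨆ n : ℕ, volume (A ∩ Metric.ball (0 : EuclideanSpace ℝ (Fin 2)) n) := by
    rw [← hmono.measure_iUnion, hU]; exact hc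
  obtain ⟨n, hn⟩ := lt_iSup_iff.1 hsup
  have hfin : IsFiniteMeasure ((volume : Measure (EuclideanSpace ℝ (Fin 2))).restrict
      (Metric.ball (0 : EuclideanSpace ℝ (Fin 2)) n)) := by
    refine ⟨?_⟩
    rw [Measure.restrict_apply_univ]
    exact measure_ball_lt_top
  obtain ⟨B, hBA, hB, hfree⟩ := free_eps ((volume : Measure (EuclideanSpace ℝ (Fin 2))).restrict
      (Metric.ball (0 : EuclideanSpace ℝ (Fin 2)) n))
      (fun x => by
        rw [Measure.restrict_apply' measurableSet_ball]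
        refine measure_mono_null Set.inter_subset_left ?_
        simp)
      (fun x y => dist x y ∈ D) (fun a b h => by rw [dist_comm]; exact h)
      (fun a b hab => two_circles' D hD a b hab) A c
      (by rw [Measure.restrict_apply' measurableSet_ball]; exact hn)
  refine ⟨B, hBA, ?_, hfree⟩
  rw [Measure.restrict_apply' measurableSet_ball] at hB
  exact hB.trans_le (measure_mono Set.inter_subset_left)


end Pool.Agent.Helper937.Rat
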