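import Mathlib

/-!
# The compact spaces `KK η` and sigma-discreteness

For a family `η` of sequences indexed by `Γ`, the points of `KK η` are the subsets of `Γ` all of
whose finite subsets `F` consist of sequences with the same first `card F` values.
-/

set_option autoImplicit false

namespace Pool.Agent.Helper937.Mcs

open MeasureTheory Set

variable {Γ β : Type}

/-- All members of `F` have the same first `card F` values. -/
def Adm (η : Γ → ℕ → β) (F : Finset Γ) : Prop := ∀ x ∈ F, ∀ y ∈ F, ∀ k < F.card, η x k = η y k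

/-- The space of all subsets of `Γ` (as characteristic functions) all of whose finite subsets are
admissible, with the topology of pointwise convergence. -/
abbrev KK (η : Γ → ℕ → β) : Type :=
  {s : Γ → Bool // ∀ F : Finset Γ, (∀ x ∈ F, s x = true) → Adm η F}

theorem isClosed_KK (η : Γ → ℕ → β) :
    IsClosed {s : Γ → Bool | ∀ F : Finset Γ, (∀ x ∈ F, s x = true) → Adm η F} := by
  rw [← isOpen_compl_iff]
  refine isOpen_iff_forall_mem_open.mpr fun s hs => ?_
  have hs' : ¬ ∀ F : Finset Γ, (∀ x ∈ F, s x = true) → Adm η F := hs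
  push Not at hs'
  obtain ⟨F, hF, hA⟩ := hs'
  refine ⟨⋂ x ∈ F, (fun s : Γ → Bool => s x) ⁻¹' {true}, ?_, ?_, ?_⟩
  · intro s' hs' h
    refine hA (h F fun x hx => ?_)
    have := Set.mem_iInter₂.mp hs' x hx
    exact this
  · exact isOpen_biInter_finset fun x _ =>
      (isOpen_discrete _).preimage (continuous_apply x)
  · exact Set.mem_iInter₂.mpr fun x hx => hF x hx

instance instCompactKK (η : Γ → ℕ → β) : CompactSpace (KK η) :=
  isCompact_iff_compactSpace.mp (isClosed_KK η).isCompact

/-- `S` is sigma-discrete: it has a colouring by natural numbers such that different points of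
the same colour `n` differ at some coordinate below `n`. -/
def SD (η : Γ → ℕ → β) (S : Set Γ) : Prop :=
  ∃ c : Γ → ℕ, ∀ x ∈ S, ∀ y ∈ S, x ≠ y → c x = c y → ∃ k < c x, η x k ≠ η y k

open Classical in
/-- The restriction of a point of `KK η` to the set `D`. -/
noncomputable def restr (η : Γ → ℕ → β) (D : Set Γ) (s : KK η) : KK η :=
  ⟨fun x => if x ∈ D then s.1 x else false, fun F hF => s.2 F fun x hx => by
    have h := hF x hx
    by_cases hD : x ∈ D
    · simpa [hD] using h
    · simp [hD] at h⟩

/-- Pettis integrability on `[0,1]`. -/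
def Pettis {E : Type} [NormedAddCommGroup E] [NormedSpace ℝ E] (f : ℝ → E) : Prop :=
  (∀ φ : E →L[ℝ] ℝ, IntegrableOn (fun t => φ (f t)) (Icc (0:ℝ) 1)) ∧
  (∀ A : Set ℝ, MeasurableSet A → A ⊆ Icc (0:ℝ) 1 →
    ∃ x : E, ∀ φ : E →L[ℝ] ℝ, φ x = ∫ t in A, φ (f t))

/-- McShane integrability on `[0,1]` (Mathlib's box integral). -/
def McS {E : Type} [NormedAddCommGroup E] [NormedSpace ℝ E] (f : ℝ → E) : Prop :=
  BoxIntegral.Integrable
    (⟨fun _ => (0:ℝ), fun _ => (1:ℝ), fun _ => (zero_lt_one : (0:ℝ) < 1)⟩ :
      BoxIntegral.Box (Fin 1))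
    BoxIntegral.IntegrationParams.McShane (fun x => f (x 0))
    BoxIntegral.BoxAdditiveMap.volume

end Pool.Agent.Helper937.Mcs
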