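import Pool.Agent.Helper937.McsDef

set_option autoImplicit false

namespace Pool.Agent.Helper937.Mcs

open MeasureTheory Set

namespace Eber

variable {Γ β : Type}

theorem ebl_subset_adm (η : Γ → ℕ → β) (s : KK η) (F : Finset Γ) (h : ∀ x ∈ F, s.1 x = true) :
    Adm η F := s.2 F h

/-- every point of `KK η` has finite support -/
theorem ebl_finite (η : Γ → ℕ → β) (hη : Function.Injective η) (s : KK η) :
    {x | s.1 x = true}.Finite := by
  classical
  by_contra hinf
  have hinf' : {x | s.1 x = true}.Infinite := hinf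
  obtain ⟨x, hx⟩ := hinf'.nonempty
  obtain ⟨y, hy, hxy⟩ := hinf'.exists_notMem_finset {x}
  rw [Finset.mem_singleton] at hxy
  have hne : η x ≠ η y := fun h => hxy (hη h).symm
  obtain ⟨k, hk⟩ := Function.ne_iff.1 hne
  -- a finite subset containing x and y with more than k elements
  obtain ⟨G, hG1, hG2⟩ := hinf'.exists_subset_card_eq (k + 1)
  have hF : ∀ z ∈ insert x (insert y G), s.1 z = true := by
    intro z hz
    rw [Finset.mem_insert, Finset.mem_insert] at hz
    rcases hz with rfl | rfl | hz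
    · exact hx
    · exact hy
    · exact hG1 hz
  have hadm := s.2 _ hF
  have hcard : k < (insert x (insert y G)).card := by
    have h1 : G ⊆ insert x (insert y G) := fun z hz => by simp [hz]
    have := Finset.card_le_card h1
    omega
  exact hk (hadm x (by simp) y (by simp) k hcard)

/-- the indicator of a point as an element of `ℓ^∞` -/
noncomputable def eblE (η : Γ → ℕ → β) (s : KK η) : lp (fun _ : Γ => ℝ) ⊤ :=
  ⟨fun x => if s.1 x then 1 else 0, by
    apply memℓp_infty
    refine ⟨1, ?_⟩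
    rintro _ ⟨x, rfl⟩
    dsimp only
    split <;> simp⟩

theorem eblE_apply (η : Γ → ℕ → β) (s : KK η) (x : Γ) :
    (eblE η s : Γ → ℝ) x = if s.1 x then 1 else 0 := rfl

/-- coordinate functional -/
noncomputable def eblc (x : Γ) : lp (fun _ : Γ => ℝ) ⊤ →L[ℝ] ℝ :=
  LinearMap.mkContinuous
    { toFun := fun f => (f : Γ → ℝ) x
      map_add' := fun f g => rfl
      map_smul' := fun c f => rfl } 1 (fun f => by
        rw [one_mul]
        exact lp.norm_apply_le_norm (by simp) f x)

theorem eblc_apply (x : Γ) (f : lp (fun _ : Γ => ℝ) ⊤) : eblc x f = (f : Γ → ℝ) x := rfl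

theorem ebl_summable [DecidableEq Γ] (ψ : lp (fun _ : Γ => ℝ) ⊤ →L[ℝ] ℝ) :
    Summable (fun x : Γ => |ψ (lp.single ⊤ x (1:ℝ))|) := by
  apply summable_of_sum_le (c := ‖ψ‖) (fun x => abs_nonneg _)
  intro F
  obtain ⟨v, hv⟩ : ∃ v : lp (fun _ : Γ => ℝ) ⊤, v = ∑ x ∈ F,
    (SignType.sign (ψ (lp.single ⊤ x (1:ℝ))) : ℝ) • lp.single ⊤ x (1:ℝ) := ⟨_, rfl⟩
  have h1 : ∑ x ∈ F, |ψ (lp.single ⊤ x (1:ℝ))| = ψ v := by
    rw [hv, map_sum]
    refine Finset.sum_congr rfl (fun x _ => ?_)
    rw [map_smul, smul_eq_mul, sign_mul_self]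
  have h2 : ‖v‖ ≤ 1 := by
    apply lp.norm_le_of_forall_le zero_le_one
    intro y
    rw [hv, lp.coeFn_sum, Finset.sum_apply]
    by_cases hy : y ∈ F
    · rw [Finset.sum_eq_single y]
      · simp only [lp.coeFn_smul, Pi.smul_apply, lp.single_apply_self, smul_eq_mul, mul_one]
        rcases SignType.sign (ψ (lp.single ⊤ y (1:ℝ))) with _ | _ | _ <;> simp
      · intro x _ hxy
        rw [lp.coeFn_smul, Pi.smul_apply, lp.single_apply_ne _ _ _ hxy.symm, smul_zero]
      · intro h; exact absurd hy h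
    · rw [Finset.sum_eq_zero]
      · simp
      · intro x hx
        have hxy : y ≠ x := fun h => hy (h ▸ hx)
        rw [lp.coeFn_smul, Pi.smul_apply, lp.single_apply_ne _ _ _ hxy, smul_zero]
  rw [h1]
  calc ψ v ≤ |ψ v| := le_abs_self _
    _ ≤ ‖ψ‖ * ‖v‖ := ψ.le_opNorm v
    _ ≤ ‖ψ‖ * 1 := by gcongr
    _ = ‖ψ‖ := mul_one _

theorem ebl_eval [DecidableEq Γ] (η : Γ → ℕ → β) (hη : Function.Injective η)
    (ψ : lp (fun _ : Γ => ℝ) ⊤ →L[ℝ] ℝ) (s : KK η) :
    ψ (eblE η s) = ∑' x : Γ, (if s.1 x then ψ (lp.single ⊤ x (1:ℝ)) else 0) := by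
  have hfin := ebl_finite η hη s
  have h1 : eblE η s = ∑ x ∈ hfin.toFinset, lp.single ⊤ x (1:ℝ) := by
    ext y
    rw [lp.coeFn_sum, Finset.sum_apply, eblE_apply]
    by_cases hy : s.1 y = true
    · rw [if_pos hy, Finset.sum_eq_single y]
      · rw [lp.single_apply_self]
      · intro x _ hxy
        rw [lp.single_apply_ne _ _ _ hxy.symm]
      · intro h
        exact absurd (hfin.mem_toFinset.2 hy) h
    · rw [if_neg hy, Finset.sum_eq_zero]
      intro x hx
      have hxy : y ≠ x := fun h => hy (h ▸ hfin.mem_toFinset.1 hx)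
      rw [lp.single_apply_ne _ _ _ hxy]
  rw [h1, map_sum, tsum_eq_sum (s := hfin.toFinset)]
  · refine Finset.sum_congr rfl (fun x hx => ?_)
    have hx' : s.1 x = true := hfin.mem_toFinset.1 hx
    rw [if_pos hx']
  · intro x hx
    have hx' : ¬ s.1 x = true := fun h => hx (hfin.mem_toFinset.2 h)
    rw [if_neg hx']

theorem ebl_cont_eval (η : Γ → ℕ → β) (hη : Function.Injective η)
    (ψ : lp (fun _ : Γ => ℝ) ⊤ →L[ℝ] ℝ) : Continuous (fun s : KK η => ψ (eblE η s)) := by
  classical
  have h : (fun s : KK η => ψ (eblE η s)) =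
      fun s : KK η => ∑' x : Γ, (if s.1 x then ψ (lp.single ⊤ x (1:ℝ)) else 0) := by
    funext s
    exact ebl_eval η hη ψ s
  rw [h]
  apply continuous_tsum _ (ebl_summable ψ)
  · intro x s
    by_cases hs : s.1 x = true
    · rw [if_pos hs]; exact le_rfl
    · rw [if_neg hs]; simp
  · intro x
    have h2 : Continuous (fun b : Bool => if b then ψ (lp.single ⊤ x (1:ℝ)) else 0) :=
      continuous_of_discreteTopology
    exact h2.comp ((continuous_apply x).comp continuous_subtype_val)

/-- `KK η` is an Eberlein compactum: it embeds in a Banach space with its weak topology. -/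
theorem eberlein (η : Γ → ℕ → β) (hη : Function.Injective η) :
    ∃ (X : Type) (_ : NormedAddCommGroup X) (_ : NormedSpace ℝ X) (_ : CompleteSpace X)
        (e : KK η → WeakSpace ℝ X), Topology.IsEmbedding e := by
  refine ⟨lp (fun _ : Γ => ℝ) ⊤, inferInstance, inferInstance, inferInstance,
    fun s => toWeakSpace ℝ _ (eblE η s), ?_⟩
  have hcont : Continuous (fun s : KK η => toWeakSpace ℝ (lp (fun _ : Γ => ℝ) ⊤) (eblE η s)) := by
    apply WeakBilin.continuous_of_continuous_eval
    intro ψ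
    exact ebl_cont_eval η hη ψ
  obtain ⟨r, hr⟩ : ∃ r : WeakSpace ℝ (lp (fun _ : Γ => ℝ) ⊤) → (Γ → ℝ),
    r = fun f x => eblc x ((toWeakSpace ℝ _).symm f) := ⟨_, rfl⟩
  have hrc : Continuous r := by
    rw [hr]
    apply continuous_pi
    intro x
    exact WeakBilin.eval_continuous (topDualPairing ℝ (lp (fun _ : Γ => ℝ) ⊤)).flip (eblc x)
  refine Topology.IsEmbedding.of_comp hcont hrc ?_
  have hb : Topology.IsEmbedding (fun b : Bool => if b then (1:ℝ) else 0) := by
    apply Topology.IsClosedEmbedding.isEmbedding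
    apply Continuous.isClosedEmbedding continuous_of_discreteTopology
    intro a b hab
    cases a <;> cases b <;> simp at hab ⊢
  have h3 : (r ∘ fun s : KK η => toWeakSpace ℝ (lp (fun _ : Γ => ℝ) ⊤) (eblE η s)) =
      (Pi.map (fun _ : Γ => fun b : Bool => if b then (1:ℝ) else 0)) ∘
        (Subtype.val : KK η → (Γ → Bool)) := by
    rw [hr]
    funext s x
    show eblc x (eblE η s) = if s.1 x then (1:ℝ) else 0
    rw [eblc_apply, eblE_apply]
  rw [h3]
  exact (Topology.IsEmbedding.piMap (fun _ => hb)).comp Topology.IsEmbedding.subtypeVal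

end Eber

end Pool.Agent.Helper937.Mcs
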