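import Pool.Agent.Helper937.McsDef

/-!
# A forcing notion adding a non-reflecting non-sigma-discrete family

A sentence of the forcing language of a preordered set `P` of conditions is represented by the
set of the conditions which force it. Negation, conjunction and universal quantification are the
primitive connectives, with their usual forcing clauses; the other connectives are defined from
them classically. A name for a subset of a ground model set `X` is a map sending `x : X` to the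
set of the conditions attached to `x`.
-/

set_option autoImplicit false

namespace Pool.Agent.Helper937.Mcs

open Set

universe u v w

section

variable {P : Type u} [Preorder P]

/-- `p` forces `not φ` iff no `q ≤ p` forces `φ`. -/
def fnot (φ : Set P) : Set P := {p | ∀ q ≤ p, q ∉ φ}

/-- `p` forces `φ and ψ` iff it forces both. -/
def fand (φ ψ : Set P) : Set P := {p | p ∈ φ ∧ p ∈ ψ}

/-- `p` forces `for all i, φ i` iff it forces every `φ i`. -/
def fall {ι : Sort v} (φ : ι → Set P) : Set P := {p | ∀ i, p ∈ φ i}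

/-- `φ implies ψ` is `not (φ and not ψ)`. -/
def fimp (φ ψ : Set P) : Set P := fnot (fand φ (fnot ψ))

/-- `φ if and only if ψ`. -/
def fiff (φ ψ : Set P) : Set P := fand (fimp φ ψ) (fimp ψ φ)

/-- `there is i with φ i` is `not for all i, not φ i`. -/
def fex {ι : Sort v} (φ : ι → Set P) : Set P := fnot (fall fun i => fnot (φ i))

/-- An absolute statement about ground model objects. -/
def fground (h : Prop) : Set P := {_p | h}

/-- `p` forces that the generic filter meets the set `N` of conditions: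
the set of `r` lying below some member of `N` is dense below `p`. -/
def meets (N : Set P) : Set P := {p | ∀ q ≤ p, ∃ r ≤ q, ∃ s ∈ N, r ≤ s}

/-- The relation named by `R` is a function from `X` to `Y`. -/
def IsFun {X : Type v} {Y : Type w} (R : X → Y → Set P) : Set P :=
  fand (fall fun x => fex fun y => meets (R x y))
    (fall fun x => fall fun y => fall fun y' =>
      fimp (fand (meets (R x y)) (meets (R x y'))) (fground (y = y')))

variable (P) in
/-- Every subset of `ℕ` in the extension belongs to the ground model. -/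
def NoNewReals : Set P :=
  fall fun x : ℕ → Set P => fex fun A : Set ℕ => fall fun n : ℕ =>
    fiff (meets (x n)) (fground (n ∈ A))

variable (P) in
/-- In the extension every function from the ground model power set of `ℕ` to `Θ` is bounded. -/
def PowBounded (Θ : Type) [LT Θ] : Set P :=
  fall fun R : Set ℕ → Θ → Set P => fimp (IsFun R)
    (fex fun γ : Θ => fall fun A : Set ℕ => fall fun x : Θ =>
      fimp (meets (R A x)) (fground (x < γ)))

/-- In the extension the set named by `S`, intersected with `U`, is sigma-discrete for `η`: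
the definition `SD` relativised to the extension. -/
def SDName {Θ β : Type} (η : Θ → ℕ → β) (S : Θ → Set P) (U : Set Θ) : Set P :=
  fex fun c : Θ → ℕ → Set P => fand (IsFun c)
    (fall fun x : Θ => fall fun y : Θ => fall fun n : ℕ =>
      fimp (fand (fground (x ≠ y ∧ x ∈ U ∧ y ∈ U))
          (fand (fand (meets (S x)) (meets (S y))) (fand (meets (c x n)) (meets (c y n)))))
        (fground (∃ k < n, η x k ≠ η y k)))

variable (P) in
/-- In the extension: there are no new subsets of `ℕ`, every function from the power set of `ℕ`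
to `Θ` is bounded, and some subset of `Θ` which is not sigma-discrete has sigma-discrete
initial segments. -/
def NonReflecting {Θ β : Type} [LinearOrder Θ] (η : Θ → ℕ → β) : Set P :=
  fand (NoNewReals P) (fand (PowBounded P Θ)
    (fex fun S : Θ → Set P => fand (fall fun γ : Θ => SDName η S (Iio γ))
      (fnot (SDName η S univ))))

/-! ### General facts -/

theorem mem_fex {ι : Sort v} {φ : ι → Set P} {p : P} :
    p ∈ fex φ ↔ ∀ q ≤ p, ∃ r ≤ q, ∃ i, r ∈ φ i := by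
  simp only [fex, fnot, fall, Set.mem_ofPred_eq, not_forall, not_not]
  constructor
  · intro h q hq
    obtain ⟨i, r, hr, h'⟩ := h q hq
    exact ⟨r, hr, i, h'⟩
  · intro h q hq
    obtain ⟨r, hr, i, h'⟩ := h q hq
    exact ⟨i, r, hr, h'⟩

theorem mem_fimp {φ ψ : Set P} {p : P} :
    p ∈ fimp φ ψ ↔ ∀ q ≤ p, q ∈ φ → ∃ r ≤ q, r ∈ ψ := by
  simp only [fimp, fnot, fand, Set.mem_ofPred_eq, not_and, not_forall, not_not]
  constructor
  · intro h q hq h'
    obtain ⟨r, hr, h''⟩ := h q hq h'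
    exact ⟨r, hr, h''⟩
  · intro h q hq h'
    obtain ⟨r, hr, h''⟩ := h q hq h'
    exact ⟨r, hr, h''⟩

def Down (φ : Set P) : Prop := ∀ p ∈ φ, ∀ q ≤ p, q ∈ φ

theorem down_fnot (φ : Set P) : Down (fnot φ) :=
  fun _ hp _ hq r hr => hp r (hr.trans hq)

theorem down_meets (N : Set P) : Down (meets N) :=
  fun _ hp _ hq r hr => hp r (hr.trans hq)

theorem fimp_of {φ ψ : Set P} {p : P} (h : ∀ q ≤ p, q ∈ φ → q ∈ ψ) : p ∈ fimp φ ψ :=
  mem_fimp.2 fun q hq h' => ⟨q, le_rfl, h q hq h'⟩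

theorem meets_const {h : Prop} (hh : h) (p : P) : p ∈ meets {_q : P | h} :=
  fun q _ => ⟨q, le_rfl, q, hh, le_rfl⟩

theorem of_meets_const {h : Prop} {p : P} (hp : p ∈ meets {_q : P | h}) : h := by
  obtain ⟨_, _, _, hs, _⟩ := hp p le_rfl
  exact hs

end

/-! ### Ladders -/

section

variable {Θ : Type} [LinearOrder Θ]

/-- `a` is a strictly increasing sequence converging to `δ`. -/
def IsLadder (δ : Θ) (a : ℕ → Θ) : Prop :=
  StrictMono a ∧ (∀ n, a n < δ) ∧ ∀ γ < δ, ∃ n, γ < a n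

open Classical in
/-- A ladder of `δ` if there is one, and the constant sequence otherwise. -/
noncomputable def lad (δ : Θ) : ℕ → Θ :=
  if h : ∃ a, IsLadder δ a then h.choose else fun _ => δ

theorem lad_spec {δ : Θ} (h : ∃ a, IsLadder δ a) : IsLadder δ (lad δ) := by
  unfold lad
  rw [dif_pos h]
  exact h.choose_spec

theorem lad_le (δ : Θ) (n : ℕ) : lad δ n ≤ δ := by
  by_cases h : ∃ a, IsLadder δ a
  · exact ((lad_spec h).2.1 n).le
  · unfold lad
    rw [dif_neg h]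

theorem lad_ne {δ δ' : Θ} (h : δ < δ') : lad δ ≠ lad δ' := by
  intro he
  by_cases h' : ∃ a, IsLadder δ' a
  · obtain ⟨n, hn⟩ := (lad_spec h').2.2 δ h
    rw [← he] at hn
    exact absurd (lad_le δ n) (not_le.2 hn)
  · have h1 : lad δ' 0 = δ' := by
      unfold lad
      rw [dif_neg h']
    have h2 := lad_le δ 0
    rw [he, h1] at h2
    exact absurd h2 (not_le.2 h)

theorem lad_injective : Function.Injective (lad : Θ → ℕ → Θ) := by
  intro δ δ' h
  rcases lt_trichotomy δ δ' with h1 | h1 | h1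
  · exact absurd h (lad_ne h1)
  · exact h1
  · exact absurd h.symm (lad_ne h1)

/-! ### The forcing notion -/

variable (Θ) in
/-- Conditions: a bound `p.1 ∈ Θ` and a sigma-discrete set `p.2` of points below or equal to the
bound which have ladders. -/
def CondS : Type :=
  {p : Θ × Set Θ // p.2 ⊆ Iic p.1 ∧ (∀ δ ∈ p.2, ∃ a, IsLadder δ a) ∧ SD lad p.2}

/-- Extension: larger bound, and the same set up to the old bound. -/
instance : Preorder (CondS Θ) where
  le q p := p.1.1 ≤ q.1.1 ∧ ∀ x ≤ p.1.1, (x ∈ q.1.2 ↔ x ∈ p.1.2)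
  le_refl p := ⟨le_rfl, fun _ _ => Iff.rfl⟩
  le_trans q p r h h' := ⟨h'.1.trans h.1, fun x hx =>
    (h.2 x (hx.trans h'.1)).trans (h'.2 x hx)⟩

theorem CondS.le_def {q p : CondS Θ} :
    q ≤ p ↔ p.1.1 ≤ q.1.1 ∧ ∀ x ≤ p.1.1, (x ∈ q.1.2 ↔ x ∈ p.1.2) := Iff.rfl

theorem CondS.mem_of_le {q p : CondS Θ} (h : q ≤ p) {x : Θ} (hx : x ∈ p.1.2) : x ∈ q.1.2 :=
  (h.2 x (p.2.1 hx)).2 hx

/-- `c` shows that `S` is sigma-discrete. -/
def Good (S : Set Θ) (c : Θ → ℕ) : Prop :=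
  ∀ x ∈ S, ∀ y ∈ S, x ≠ y → c x = c y → ∃ k < c x, lad x k ≠ lad y k

variable (Θ) in
/-- Conditions whose bound is outside the set, with a colouring. -/
def QC : Type := {x : CondS Θ × (Θ → ℕ) // x.1.1.1 ∉ x.1.1.2 ∧ Good x.1.1.2 x.2}

def QC.le (x y : QC Θ) : Prop := x.1.1 ≤ y.1.1 ∧ ∀ z ∈ y.1.1.1.2, x.1.2 z = y.1.2 z

theorem QC.le_refl (x : QC Θ) : QC.le x x := ⟨_root_.le_refl _, fun _ _ => rfl⟩

theorem QC.le_trans {x y z : QC Θ} (h : QC.le x y) (h' : QC.le y z) : QC.le x z :=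
  ⟨h.1.trans h'.1, fun a ha => (h.2 a (CondS.mem_of_le h'.1 ha)).trans (h'.2 a ha)⟩

theorem QC.lower {ι : Type} [LinearOrder ι] (F : ι → QC Θ)
    (hF : ∀ i j, i ≤ j → QC.le (F j) (F i)) (γ : Θ) (hγ : ∀ i, (F i).1.1.1.1 < γ) :
    ∃ x : QC Θ, ∀ i, QC.le x (F i) := by
  classical
  let S : Set Θ := ⋃ i, (F i).1.1.1.2
  let c : Θ → ℕ := fun x => if h : ∃ i, x ∈ (F i).1.1.1.2 then (F h.choose).1.2 x else 0
  have hmono : ∀ i j, i ≤ j → ∀ x ∈ (F i).1.1.1.2, x ∈ (F j).1.1.1.2 := fun i j hij x hx =>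
    CondS.mem_of_le (hF i j hij).1 hx
  have hc : ∀ i, ∀ x ∈ (F i).1.1.1.2, c x = (F i).1.2 x := by
    intro i x hx
    have h : ∃ i, x ∈ (F i).1.1.1.2 := ⟨i, hx⟩
    have h1 : c x = (F h.choose).1.2 x := dif_pos h
    rw [h1]
    rcases le_total h.choose i with h2 | h2
    · exact ((hF _ _ h2).2 x h.choose_spec).symm
    · exact (hF _ _ h2).2 x hx
  have hgood : Good S c := by
    intro x hx y hy hxy hcc
    obtain ⟨i, hi⟩ := mem_iUnion.1 hx
    obtain ⟨j, hj⟩ := mem_iUnion.1 hy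
    have h1 : x ∈ (F (max i j)).1.1.1.2 := hmono _ _ (le_max_left _ _) _ hi
    have h2 : y ∈ (F (max i j)).1.1.1.2 := hmono _ _ (le_max_right _ _) _ hj
    rw [hc _ x h1, hc _ y h2] at hcc
    rw [hc _ x h1]
    exact (F (max i j)).2.2 x h1 y h2 hxy hcc
  have hsub : ∀ x ∈ S, x < γ := by
    intro x hx
    obtain ⟨i, hi⟩ := mem_iUnion.1 hx
    exact lt_of_le_of_lt ((F i).1.1.2.1 hi) (hγ i)
  refine ⟨⟨(⟨(γ, S), fun x hx => (hsub x hx).le, ?_, ⟨c, hgood⟩⟩, c), fun h => (hsub γ h).false,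
    hgood⟩, fun i => ⟨⟨(hγ i).le, fun x hx => ⟨fun h => ?_, fun h => mem_iUnion.2 ⟨i, h⟩⟩⟩,
    fun z hz => hc i z hz⟩⟩
  · intro δ hδ
    obtain ⟨i, hi⟩ := mem_iUnion.1 hδ
    exact (F i).1.1.2.2.1 δ hi
  · obtain ⟨j, hj⟩ := mem_iUnion.1 h
    rcases le_total i j with h1 | h1
    · exact ((hF _ _ h1).1.2 x hx).1 hj
    · exact hmono _ _ h1 x hj

theorem QC.step (hmax : ∀ a : Θ, ∃ b, a < b) (y : QC Θ) (r : CondS Θ) (hr : r ≤ y.1.1) :
    ∃ x : QC Θ, QC.le x y ∧ x.1.1 ≤ r := by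
  classical
  obtain ⟨b, hb⟩ := hmax r.1.1
  obtain ⟨e, he⟩ := r.2.2.2
  have hlt : ∀ x ∈ r.1.2, x ∉ y.1.1.1.2 → ∃ m, y.1.1.1.1 < lad x m := by
    intro x hx hxy
    have h1 : y.1.1.1.1 < x := by
      by_contra h
      exact hxy ((hr.2 x (not_lt.1 h)).1 hx)
    exact (lad_spec (r.2.2.1 x hx)).2.2 _ h1
  let c : Θ → ℕ := fun x => if x ∈ y.1.1.1.2 then y.1.2 x else
    if h : ∃ m, y.1.1.1.1 < lad x m then Nat.pair (e x) (h.choose + 1) else 0
  have hc1 : ∀ x ∈ y.1.1.1.2, c x = y.1.2 x := fun x hx => if_pos hx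
  have hc2 : ∀ x ∈ r.1.2, x ∉ y.1.1.1.2 → ∃ m, y.1.1.1.1 < lad x m ∧
      c x = Nat.pair (e x) (m + 1) := by
    intro x hx hxy
    have h := hlt x hx hxy
    refine ⟨h.choose, h.choose_spec, ?_⟩
    change (if x ∈ y.1.1.1.2 then y.1.2 x else _) = _
    rw [if_neg hxy, dif_pos h]
  have hmix : ∀ x ∈ r.1.2, x ∉ y.1.1.1.2 → ∀ z ∈ y.1.1.1.2, ∃ k < c x, lad x k ≠ lad z k := by
    intro x hx hxy z hz
    obtain ⟨m, hm, hcx⟩ := hc2 x hx hxy
    refine ⟨m, ?_, ?_⟩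
    · rw [hcx]
      exact Nat.lt_of_lt_of_le (Nat.lt_succ_self m) (Nat.right_le_pair _ _)
    · intro h
      rw [h] at hm
      exact absurd ((lad_le z m).trans (y.1.1.2.1 hz)) (not_le.2 hm)
  have hgood : Good r.1.2 c := by
    intro x hx z hz hxz hcc
    by_cases h1 : x ∈ y.1.1.1.2
    · by_cases h2 : z ∈ y.1.1.1.2
      · rw [hc1 x h1, hc1 z h2] at hcc
        rw [hc1 x h1]
        exact y.2.2 x h1 z h2 hxz hcc
      · obtain ⟨k, hk, hk'⟩ := hmix z hz h2 x h1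
        exact ⟨k, hcc ▸ hk, hk'.symm⟩
    · by_cases h2 : z ∈ y.1.1.1.2
      · exact hmix x hx h1 z h2
      · obtain ⟨m, _, hcx⟩ := hc2 x hx h1
        obtain ⟨m', _, hcz⟩ := hc2 z hz h2
        rw [hcx, hcz] at hcc
        obtain ⟨h3, _⟩ := Nat.pair_eq_pair.1 hcc
        obtain ⟨k, hk, hk'⟩ := he x hx z hz hxz h3
        exact ⟨k, hk.trans_le (hcx ▸ Nat.left_le_pair _ _), hk'⟩
  refine ⟨⟨(⟨(b, r.1.2), fun x hx => (r.2.1 hx).trans hb.le, r.2.2.1, r.2.2.2⟩, c), ?_, hgood⟩,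
    ⟨?_, hc1⟩, ⟨hb.le, fun x _ => Iff.rfl⟩⟩
  · intro h
    exact absurd (r.2.1 h) (not_le.2 hb)
  · exact ⟨hr.1.trans hb.le, hr.2⟩

theorem exists_all {ι : Type} [LinearOrder ι] [WellFoundedLT ι] [Nonempty ι]
    (hb : ∀ g : ι → Θ, ∃ γ, ∀ i, g i < γ) (D : ι → Set (CondS Θ)) (hD : ∀ i, Down (D i))
    (p : CondS Θ) (hd : ∀ i, ∀ r ≤ p, ∃ q ≤ r, q ∈ D i) : ∃ q ≤ p, ∀ i, q ∈ D i := by
  classical
  have hmax : ∀ a : Θ, ∃ b, a < b := fun a => by
    obtain ⟨γ, h⟩ := hb fun _ => a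
    exact ⟨γ, h (Classical.arbitrary ι)⟩
  -- the starting point
  obtain ⟨b, hb0⟩ := hmax p.1.1
  obtain ⟨e, he⟩ := p.2.2.2
  let q0 : QC Θ := ⟨(⟨(b, p.1.2), fun x hx => (p.2.1 hx).trans hb0.le, p.2.2.1, p.2.2.2⟩, e),
    fun h => absurd (p.2.1 h) (not_le.2 hb0), he⟩
  have hq0 : q0.1.1 ≤ p := ⟨hb0.le, fun _ _ => Iff.rfl⟩
  let F : ι → QC Θ := (wellFounded_lt (α := ι)).fix fun i rec =>
    if h : ∃ x : QC Θ, QC.le x q0 ∧ (∀ j (hj : j < i), QC.le x (rec j hj)) ∧ x.1.1 ∈ D i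
    then h.choose else q0
  have hFeq : ∀ i, F i = if h : ∃ x : QC Θ, QC.le x q0 ∧ (∀ j, j < i → QC.le x (F j)) ∧
      x.1.1 ∈ D i then h.choose else q0 := by
    intro i
    exact (wellFounded_lt (α := ι)).fix_eq _ i
  have key : ∀ i, QC.le (F i) q0 ∧ (∀ j, j < i → QC.le (F i) (F j)) ∧ (F i).1.1 ∈ D i := by
    intro i
    induction i using (wellFounded_lt (α := ι)).induction with
    | _ i ih =>
      have hex : ∃ x : QC Θ, QC.le x q0 ∧ (∀ j, j < i → QC.le x (F j)) ∧ x.1.1 ∈ D i := by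
        have hy : ∃ y : QC Θ, QC.le y q0 ∧ ∀ j, j < i → QC.le y (F j) := by
          by_cases hne : ∃ j, j < i
          · obtain ⟨j0, hj0⟩ := hne
            obtain ⟨γ, hγ⟩ := hb fun j => (F j).1.1.1.1
            obtain ⟨y, hy⟩ := QC.lower (ι := {j : ι // j < i}) (fun j => F j.1) (by
              intro a b hab
              rcases eq_or_lt_of_le hab with h | h
              · rw [h]; exact QC.le_refl _
              · exact (ih b.1 b.2).2.1 a.1 h) γ (fun j => hγ j.1)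
            exact ⟨y, QC.le_trans (hy ⟨j0, hj0⟩) (ih j0 hj0).1, fun j hj => hy ⟨j, hj⟩⟩
          · exact ⟨q0, QC.le_refl _, fun j hj => absurd ⟨j, hj⟩ hne⟩
        obtain ⟨y, hy1, hy2⟩ := hy
        obtain ⟨r, hr, hrD⟩ := hd i y.1.1 (hy1.1.trans hq0)
        obtain ⟨x, hx, hxr⟩ := QC.step hmax y r hr
        exact ⟨x, QC.le_trans hx hy1, fun j hj => QC.le_trans hx (hy2 j hj), hD i _ hrD _ hxr⟩
      have h1 : F i = hex.choose := by
        rw [hFeq i, dif_pos hex]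
      rw [h1]
      exact hex.choose_spec
  obtain ⟨γ, hγ⟩ := hb fun j => (F j).1.1.1.1
  obtain ⟨y, hy⟩ := QC.lower F (by
    intro a b hab
    rcases eq_or_lt_of_le hab with h | h
    · rw [h]; exact QC.le_refl _
    · exact (key b).2.1 a h) γ hγ
  let i0 := Classical.arbitrary ι
  exact ⟨y.1.1, ((hy i0).1.trans (key i0).1.1).trans hq0, fun i => hD i _ (key i).2.2 _ (hy i).1⟩

end

/-! ### The forced statement -/

section

variable {Θ : Type} [LinearOrder Θ] [WellFoundedLT Θ]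

theorem exists_all' (hb : ∀ g : Set ℕ → Θ, ∃ γ, ∀ A, g A < γ) (D : Set ℕ → Set (CondS Θ))
    (hD : ∀ i, Down (D i)) (p : CondS Θ) (hd : ∀ i, ∀ r ≤ p, ∃ q ≤ r, q ∈ D i) :
    ∃ q ≤ p, ∀ i, q ∈ D i := by
  let ι := (Cardinal.mk (Set ℕ)).ord.ToType
  have hι : Cardinal.mk ι = Cardinal.mk (Set ℕ) := by
    rw [Cardinal.mk_toType, Cardinal.card_ord]
  obtain ⟨e⟩ := Cardinal.eq.1 hι
  haveI : Nonempty ι := ⟨e.symm ∅⟩
  obtain ⟨q, hq, h⟩ := exists_all (ι := ι) (fun g => by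
    obtain ⟨γ, hγ⟩ := hb (fun A => g (e.symm A))
    exact ⟨γ, fun i => by simpa using hγ (e i)⟩) (fun i => D (e i)) (fun i => hD _) p
    (fun i => hd _)
  exact ⟨q, hq, fun A => by simpa using h (e.symm A)⟩

/-- The generic set. -/
def genS (x : Θ) : Set (CondS Θ) := {p | x ∈ p.1.2}

theorem mem_meets_genS {x : Θ} {p : CondS Θ} (h : x ∈ p.1.2) : p ∈ meets (genS x) :=
  fun q hq => ⟨q, le_rfl, p, h, hq⟩

theorem of_meets_genS {x : Θ} {p : CondS Θ} (h : p ∈ meets (genS x)) (hx : x ≤ p.1.1) :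
    x ∈ p.1.2 := by
  obtain ⟨r, hr, s, hs, hrs⟩ := h p le_rfl
  exact (hr.2 x hx).1 (CondS.mem_of_le hrs hs)

theorem noNewReals (hb : ∀ g : Set ℕ → Θ, ∃ γ, ∀ A, g A < γ) (p : CondS Θ) :
    p ∈ NoNewReals (CondS Θ) := by
  intro x
  refine mem_fex.2 fun q _ => ?_
  obtain ⟨r, hr, h⟩ := exists_all' hb
    (fun A => {r | r ∈ meets (x (sInf A)) ∨ r ∈ fnot (meets (x (sInf A)))})
    (fun A r hr t ht => hr.elim (fun h => Or.inl (down_meets _ _ h _ ht))
      fun h => Or.inr (down_fnot _ _ h _ ht)) q (fun A r _ => by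
        by_cases h2 : ∃ t ≤ r, t ∈ meets (x (sInf A))
        · obtain ⟨t, ht, h3⟩ := h2
          exact ⟨t, ht, Or.inl h3⟩
        · exact ⟨r, le_rfl, Or.inr fun t ht h3 => h2 ⟨t, ht, h3⟩⟩)
  refine ⟨r, hr, {n | r ∈ meets (x n)}, fun n => ?_⟩
  have h1 : r ∈ meets (x n) ∨ r ∈ fnot (meets (x n)) := by
    have := h {n}
    simpa using this
  rcases h1 with h1 | h1
  · exact ⟨fimp_of fun _ _ _ => h1, fimp_of fun t ht _ => down_meets _ _ h1 _ ht⟩
  · refine ⟨fimp_of fun t ht h2 => absurd h2 (h1 t ht), fimp_of fun t ht h2 => ?_⟩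
    exact absurd (h2 : r ∈ meets (x n)) (h1 r le_rfl)

theorem powBounded (hb : ∀ g : Set ℕ → Θ, ∃ γ, ∀ A, g A < γ) (p : CondS Θ) :
    p ∈ PowBounded (CondS Θ) Θ := by
  intro R
  refine fimp_of fun q _ hq => mem_fex.2 fun q' hq' => ?_
  obtain ⟨t, ht, h⟩ := exists_all' hb (fun A => {r | ∃ x, r ∈ meets (R A x)})
    (fun A r ⟨x, hx⟩ t ht => ⟨x, down_meets _ _ hx _ ht⟩) q' (fun A r hr => by
      obtain ⟨t, ht, x, hx⟩ := mem_fex.1 (hq.1 A) r (hr.trans hq')
      exact ⟨t, ht, x, hx⟩)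
  choose g hg using h
  obtain ⟨γ, hγ⟩ := hb g
  refine ⟨t, ht, γ, fun A x => fimp_of fun u hu hux => ?_⟩
  obtain ⟨v, _, hv⟩ := mem_fimp.1 (hq.2 A x (g A)) u (hu.trans (ht.trans hq'))
    ⟨hux, down_meets _ _ (hg A) _ hu⟩
  have hv' : x = g A := hv
  change x < γ
  rw [hv']
  exact hγ A

theorem sdName_Iio (γ : Θ) (p : CondS Θ) : p ∈ SDName (lad (Θ := Θ)) genS (Iio γ) := by
  refine mem_fex.2 fun q _ => ?_
  let r : CondS Θ := ⟨(max q.1.1 γ, q.1.2), fun x hx => (q.2.1 hx).trans (le_max_left _ _),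
    q.2.2.1, q.2.2.2⟩
  have hr : r ≤ q := ⟨le_max_left _ _, fun _ _ => Iff.rfl⟩
  obtain ⟨e, he⟩ := q.2.2.2
  refine ⟨r, hr, fun x n => {_u | e x = n}, ⟨fun x => mem_fex.2 fun u _ =>
    ⟨u, le_rfl, e x, meets_const rfl u⟩, fun x y y' => fimp_of fun u _ hu => ?_⟩,
    fun x y n => fimp_of fun u hu h => ?_⟩
  · have h1 := of_meets_const hu.1
    have h2 := of_meets_const hu.2
    exact h1.symm.trans h2
  · obtain ⟨⟨hxy, hx, hy⟩, ⟨hSx, hSy⟩, hcx, hcy⟩ := h
    have hcx' := of_meets_const hcx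
    have hcy' := of_meets_const hcy
    have hx' : x ≤ r.1.1 := (le_of_lt hx).trans (le_max_right _ _)
    have hy' : y ≤ r.1.1 := (le_of_lt hy).trans (le_max_right _ _)
    have h1 : x ∈ q.1.2 := (hu.2 x hx').1 (of_meets_genS hSx (hx'.trans hu.1))
    have h2 : y ∈ q.1.2 := (hu.2 y hy').1 (of_meets_genS hSy (hy'.trans hu.1))
    obtain ⟨k, hk, hk'⟩ := he x h1 y h2 hxy (hcx'.trans hcy'.symm)
    exact ⟨k, hcx' ▸ hk, hk'⟩

theorem exists_decode : ∃ d : Set ℕ → ℕ × (ℕ → Set ℕ), Function.Surjective d := by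
  have h : Cardinal.mk (ℕ × (ℕ → Set ℕ)) = Cardinal.mk (Set ℕ) := by
    simp only [Cardinal.mk_prod, Cardinal.lift_uzero, Cardinal.mk_pi, Cardinal.prod_const,
      Cardinal.mk_set, Cardinal.mk_nat]
    simp
  obtain ⟨e⟩ := Cardinal.eq.1 h.symm
  exact ⟨e, e.surjective⟩

theorem not_sdName_univ (hb : ∀ g : Set ℕ → Θ, ∃ γ, ∀ A, g A < γ)
    (hs : ∀ α : Θ, ∃ e : Set ℕ → Θ, Iic α ⊆ range e) (p : CondS Θ) :
    p ∈ fnot (SDName (lad (Θ := Θ)) genS univ) := by
  classical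
  intro q _ hq
  obtain ⟨r0, _, c, hfun, hc⟩ := mem_fex.1 hq q le_rfl
  let W : ℕ → (ℕ → Θ) → Set (CondS Θ) := fun n t =>
    {q | ∃ δ ∈ q.1.2, (∀ k < n, lad δ k = t k) ∧ q ∈ meets (c δ n)}
  have hW : ∀ n t, Down (W n t) := by
    rintro n t r ⟨δ, h1, h2, h3⟩ u hu
    exact ⟨δ, CondS.mem_of_le hu h1, h2, down_meets _ _ h3 _ hu⟩
  obtain ⟨d, hd⟩ := exists_decode
  have step : ∀ r ≤ r0, ∃ r' ≤ r, r.1.1 < r'.1.1 ∧ ∀ n, ∀ t : ℕ → Θ, (∀ k, t k ≤ r.1.1) →
      r' ∈ W n t ∨ r' ∈ fnot (W n t) := by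
    intro r _
    obtain ⟨e, he⟩ := hs r.1.1
    obtain ⟨r', hr', h1⟩ := exists_all' hb
      (fun A => W (d A).1 (fun k => e ((d A).2 k)) ∪ fnot (W (d A).1 (fun k => e ((d A).2 k))))
      (fun A u hu v hv => hu.elim (fun h => Or.inl (hW _ _ _ h _ hv))
        fun h => Or.inr (down_fnot _ _ h _ hv)) r (fun A u _ => by
          by_cases h2 : ∃ v ≤ u, v ∈ W (d A).1 (fun k => e ((d A).2 k))
          · obtain ⟨v, hv, h3⟩ := h2
            exact ⟨v, hv, Or.inl h3⟩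
          · exact ⟨u, le_rfl, Or.inr fun v hv h3 => h2 ⟨v, hv, h3⟩⟩)
    obtain ⟨b, hb'⟩ := hb fun _ => r'.1.1
    let r'' : CondS Θ := ⟨(b, r'.1.2), fun x hx => (r'.2.1 hx).trans (hb' ∅).le,
      r'.2.2.1, r'.2.2.2⟩
    have hr'' : r'' ≤ r' := ⟨(hb' ∅).le, fun _ _ => Iff.rfl⟩
    refine ⟨r'', hr''.trans hr', lt_of_le_of_lt hr'.1 (hb' ∅), fun n t ht => ?_⟩
    choose u hu using fun k => he (ht k)
    obtain ⟨A, hA⟩ := hd (n, u)
    have h2 := h1 A
    rw [hA] at h2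
    have h3 : (fun k => e (u k)) = t := funext hu
    simp only at h2
    rw [h3] at h2
    exact h2.elim (fun h => Or.inl (hW _ _ _ h _ hr'')) fun h => Or.inr (down_fnot _ _ h _ hr'')
  choose f hf1 hf2 hf3 using step
  let s : ℕ → {r : CondS Θ // r ≤ r0} := fun n => Nat.rec ⟨r0, le_rfl⟩
    (fun _ t => ⟨f t.1 t.2, (hf1 t.1 t.2).trans t.2⟩) n
  have hs1 : ∀ n, (s (n + 1)).1 ≤ (s n).1 := fun n => hf1 _ (s n).2
  have hanti : ∀ m n, m ≤ n → (s n).1 ≤ (s m).1 := by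
    intro m n h
    induction h with
    | refl => exact le_rfl
    | step h ih => exact (hs1 _).trans ih
  let α : ℕ → Θ := fun n => (s n).1.1.1
  have hα : StrictMono α := strictMono_nat_of_lt_succ fun n => hf2 _ (s n).2
  have hne : {a : Θ | ∀ n, α n < a}.Nonempty := by
    obtain ⟨γ, hγ⟩ := hb fun A => α (sInf A)
    exact ⟨γ, fun n => by simpa using hγ {n}⟩
  let δ : Θ := WellFounded.min (wellFounded_lt (α := Θ)) {a : Θ | ∀ n, α n < a} hne
  have hδ1 : ∀ n, α n < δ := WellFounded.min_mem (wellFounded_lt (α := Θ)) _ hne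
  have hδ2 : ∀ γ < δ, ∃ n, γ < α n := by
    intro γ hγ
    by_contra hcon
    push Not at hcon
    refine WellFounded.not_lt_min (wellFounded_lt (α := Θ)) (s := {a : Θ | ∀ n, α n < a})
      (x := γ) ?_ hγ
    intro n
    exact lt_of_lt_of_le (hα (Nat.lt_succ_self n)) (hcon (n + 1))
  have hlad : IsLadder δ α := ⟨hα, hδ1, hδ2⟩
  -- the limit condition
  let T : Set Θ := insert δ (⋃ n, (s n).1.1.2)
  have hmono : ∀ m n, m ≤ n → ∀ x ∈ (s m).1.1.2, x ∈ (s n).1.1.2 := fun m n h x hx =>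
    CondS.mem_of_le (hanti m n h) hx
  have hSlt : ∀ n, ∀ x ∈ (s n).1.1.2, x < δ := fun n x hx =>
    lt_of_le_of_lt ((s n).1.2.1 hx) (hδ1 n)
  have hTsd : SD lad T := by
    choose e he using fun n => (s n).1.2.2.2
    let g : Θ → ℕ := fun x => if h : ∃ n, x ∈ (s n).1.1.2 then
      Nat.pair (Nat.find h) (e (Nat.find h) x) + 1 else 0
    have hg0 : g δ = 0 := by
      refine dif_neg ?_
      rintro ⟨n, hn⟩
      exact (hSlt n δ hn).false
    have hg1 : ∀ x, (∃ n, x ∈ (s n).1.1.2) → ∃ n, x ∈ (s n).1.1.2 ∧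
        g x = Nat.pair n (e n x) + 1 := by
      intro x hx
      exact ⟨Nat.find hx, Nat.find_spec hx, dif_pos hx⟩
    refine ⟨g, fun x hx y hy hxy hgg => ?_⟩
    rcases hx with rfl | hx
    · rcases hy with rfl | hy
      · exact absurd rfl hxy
      · obtain ⟨n, _, hn⟩ := hg1 y (mem_iUnion.1 hy)
        rw [hg0, hn] at hgg
        exact absurd hgg (by omega)
    · obtain ⟨n, hn1, hn⟩ := hg1 x (mem_iUnion.1 hx)
      rcases hy with rfl | hy
      · rw [hg0, hn] at hgg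
        exact absurd hgg (by omega)
      · obtain ⟨m, hm1, hm⟩ := hg1 y (mem_iUnion.1 hy)
        rw [hn, hm] at hgg
        obtain ⟨h1, h2⟩ := Nat.pair_eq_pair.1 (Nat.succ_injective hgg)
        subst h1
        obtain ⟨k, hk, hk'⟩ := he n x hn1 y hm1 hxy h2
        refine ⟨k, ?_, hk'⟩
        rw [hn]
        exact (hk.trans_le (Nat.right_le_pair _ _)).trans (Nat.lt_succ_self _)
  let qs : CondS Θ := ⟨(δ, T), by
      rintro x (rfl | hx)
      · exact le_rfl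
      · obtain ⟨n, hn⟩ := mem_iUnion.1 hx
        exact (hSlt n x hn).le, by
      rintro x (rfl | hx)
      · exact ⟨α, hlad⟩
      · obtain ⟨n, hn⟩ := mem_iUnion.1 hx
        exact (s n).1.2.2.1 x hn, hTsd⟩
  have hqs : ∀ n, qs ≤ (s n).1 := by
    intro n
    refine ⟨(hδ1 n).le, fun x hx => ⟨fun h => ?_, fun h => Or.inr (mem_iUnion.2 ⟨n, h⟩)⟩⟩
    rcases h with rfl | h
    · exact absurd hx (not_le.2 (hδ1 n))
    · obtain ⟨m, hm⟩ := mem_iUnion.1 h
      rcases le_total n m with h1 | h1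
      · exact ((hanti n m h1).2 x hx).1 hm
      · exact hmono m n h1 x hm
  obtain ⟨v, hv, n, hvn⟩ := mem_fex.1 (hfun.1 δ) qs (hqs 0)
  have hδl : IsLadder δ (lad δ) := lad_spec ⟨α, hlad⟩
  obtain ⟨j, hj⟩ := hδ2 (lad δ n) (hδl.2.1 n)
  have hδv : δ ∈ v.1.2 := CondS.mem_of_le hv (Or.inl rfl)
  have hvW : v ∈ W n (fun k => lad δ (min k n)) :=
    ⟨δ, hδv, fun k hk => by simp [min_eq_left hk.le], hvn⟩
  have h5 : (s (j + 1)).1 ∈ W n (fun k => lad δ (min k n)) := by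
    rcases hf3 _ (s j).2 n (fun k => lad δ (min k n)) (fun k =>
      ((hδl.1.monotone (min_le_right k n)).trans hj.le)) with h | h
    · exact h
    · exact absurd hvW (h v (hv.trans (hqs (j + 1))))
  obtain ⟨δ', hδ', hagree, hcol⟩ := h5
  have hlt : δ' < δ := hSlt (j + 1) δ' hδ'
  have hvs : v ≤ (s (j + 1)).1 := hv.trans (hqs (j + 1))
  obtain ⟨w, _, hw⟩ := mem_fimp.1 (hc δ δ' n) v (hv.trans (hqs 0))
    ⟨⟨hlt.ne', mem_univ _, mem_univ _⟩, ⟨mem_meets_genS hδv,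
      mem_meets_genS (CondS.mem_of_le hvs hδ')⟩, hvn, down_meets _ _ hcol _ hvs⟩
  obtain ⟨k, hk, hk'⟩ := hw
  refine hk' ?_
  rw [hagree k hk]
  simp [min_eq_left hk.le]

theorem nonReflecting (hb : ∀ g : Set ℕ → Θ, ∃ γ, ∀ A, g A < γ)
    (hs : ∀ α : Θ, ∃ e : Set ℕ → Θ, Iic α ⊆ range e) (p : CondS Θ) :
    p ∈ NonReflecting (CondS Θ) (lad (Θ := Θ)) :=
  ⟨noNewReals hb p, powBounded hb p, mem_fex.2 fun q _ => ⟨q, le_rfl, genS,
    fun γ => sdName_Iio γ q, not_sdName_univ hb hs q⟩⟩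

end

/-- There are a well-ordered set `Θ`, sequences `η` and a forcing notion all of whose conditions
force `NonReflecting η`. -/
theorem exists_forcing : ∃ (Θ : Type) (_ : LinearOrder Θ) (η : Θ → ℕ → Θ) (P : Type)
    (_ : Preorder P), Function.Injective η ∧ Nonempty P ∧ ∀ p : P, p ∈ NonReflecting P η := by
  let κ : Cardinal.{0} := Cardinal.mk (Set ℕ)
  have hκ : Cardinal.aleph0 ≤ κ := Cardinal.aleph0_le_mk _
  let Θ : Type := (Order.succ κ).ord.ToType
  have hΘ : Cardinal.mk Θ = Order.succ κ := by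
    rw [Cardinal.mk_toType, Cardinal.card_ord]
  have hIic : ∀ α : Θ, Cardinal.mk (Iic α) ≤ κ := by
    intro α
    have h1 : Cardinal.mk (Iio α) < Order.succ κ := Cardinal.mk_Iio_toType_ord_lt α
    have h2 : Iic α = insert α (Iio α) := by
      ext x
      simp [le_iff_eq_or_lt]
    rw [h2]
    refine (Cardinal.mk_insert_le).trans ?_
    exact Cardinal.add_le_of_le hκ (Order.lt_succ_iff.1 h1) (Cardinal.one_le_aleph0.trans hκ)
  have hne : Nonempty Θ := by
    have : Cardinal.mk Θ ≠ 0 := by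
      rw [hΘ]
      exact (lt_of_le_of_lt zero_le (Order.lt_succ κ)).ne'
    exact Cardinal.mk_ne_zero_iff.1 this
  have hb : ∀ g : Set ℕ → Θ, ∃ γ, ∀ A, g A < γ := by
    intro g
    by_contra hc
    push Not at hc
    have h1 : (Set.univ : Set Θ) ⊆ ⋃ A, Iic (g A) := by
      intro a _
      obtain ⟨A, hA⟩ := hc a
      exact mem_iUnion.2 ⟨A, hA⟩
    have h2 : Cardinal.mk (⋃ A, Iic (g A)) ≤ κ := by
      refine (Cardinal.mk_iUnion_le_sum_mk).trans ?_
      refine (Cardinal.sum_le_sum _ (fun _ => κ) fun A => hIic (g A)).trans ?_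
      rw [Cardinal.sum_const']
      exact (Cardinal.mul_eq_self hκ).le
    have h3 := (Cardinal.mk_le_mk_of_subset h1).trans h2
    rw [Cardinal.mk_univ, hΘ] at h3
    exact absurd h3 (not_le.2 (Order.lt_succ κ))
  have hs : ∀ α : Θ, ∃ e : Set ℕ → Θ, Iic α ⊆ range e := by
    intro α
    obtain ⟨f, hf⟩ := Cardinal.le_def _ _ |>.1 (hIic α)
    classical
    refine ⟨fun A => if h : ∃ x : Iic α, f x = A then h.choose.1 else α, fun x hx => ?_⟩
    refine ⟨f ⟨x, hx⟩, ?_⟩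
    have h : ∃ y : Iic α, f y = f ⟨x, hx⟩ := ⟨⟨x, hx⟩, rfl⟩
    have h1 := hf h.choose_spec
    simp only
    rw [dif_pos h]
    exact congrArg Subtype.val h1
  refine ⟨Θ, inferInstance, lad, CondS Θ, inferInstance, lad_injective, ?_,
    nonReflecting hb hs⟩
  obtain ⟨θ⟩ := hne
  exact ⟨⟨(θ, ∅), empty_subset _, fun _ h => absurd h (notMem_empty _),
    ⟨fun _ => 0, fun _ h => absurd h (notMem_empty _)⟩⟩⟩

end Pool.Agent.Helper937.Mcs
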