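import Pool.Agent.Helper937.McsDef

set_option autoImplicit false

namespace Pool.Agent.Helper937.Mcs

open MeasureTheory Set

namespace NoHilb

variable {Γ β : Type}

/-- (L1) -/
theorem nh_L1 (η : Γ → ℕ → β) (hΓ : ¬ SD η univ) (c : Γ → ℕ) :
    ∃ i : ℕ, ∀ n : ℕ, ∃ F : Finset Γ, (∀ x ∈ F, c x = i) ∧ F.card = n ∧ Adm η F := by
  classical
  by_contra hcon
  push Not at hcon
  choose N hN using hcon
  apply hΓ
  obtain ⟨cell, hcell⟩ : ∃ cell : Γ → Set Γ, cell = fun x =>
    {y | c y = c x ∧ ∀ k < N (c x), η x k = η y k} := ⟨_, rfl⟩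
  have hfin : ∀ x, (cell x).Finite := by
    intro x
    by_contra hinf
    have hinf' : (cell x).Infinite := hinf
    obtain ⟨G, hG1, hG2⟩ := hinf'.exists_subset_card_eq (N (c x))
    have h1 : ∀ y ∈ G, c y = c x ∧ ∀ k < N (c x), η x k = η y k := by
      intro y hy
      have := hG1 hy
      rw [hcell] at this
      exact this
    refine hN (c x) G (fun y hy => (h1 y hy).1) hG2 ?_
    intro y hy z hz k hk
    rw [hG2] at hk
    exact ((h1 y hy).2 k hk).symm.trans ((h1 z hz).2 k hk)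
  have hg : ∀ C : Set Γ, ∃ g : Γ → ℕ, C.Finite → Set.InjOn g C := by
    intro C
    by_cases hC : C.Finite
    · obtain ⟨g, hg⟩ := Set.countable_iff_exists_injOn.1 hC.countable
      exact ⟨g, fun _ => hg⟩
    · exact ⟨fun _ => 0, fun h => absurd h hC⟩
  choose g hg using hg
  refine ⟨fun x => Nat.pair (Nat.pair (c x) (g (cell x) x)) (N (c x)), ?_⟩
  intro x _ y _ hxy hc
  by_contra hno
  push Not at hno
  dsimp only at hc hno
  obtain ⟨h1, h2⟩ := Nat.pair_eq_pair.1 hc
  obtain ⟨h3, h4⟩ := Nat.pair_eq_pair.1 h1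
  have h5 : ∀ k < N (c x), η x k = η y k := fun k hk =>
    hno k (lt_of_lt_of_le hk (Nat.right_le_pair _ _))
  have hcc : cell x = cell y := by
    rw [hcell]
    ext z
    simp only [Set.mem_ofPred_eq]
    constructor
    · rintro ⟨h6, h7⟩
      refine ⟨h6.trans h3, fun k hk => ?_⟩
      rw [← h3] at hk
      exact (h5 k hk).symm.trans (h7 k hk)
    · rintro ⟨h6, h7⟩
      refine ⟨h6.trans h3.symm, fun k hk => ?_⟩
      have h8 := h5 k hk
      rw [h3] at hk
      exact h8.trans (h7 k hk)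
  rw [← hcc] at h4
  have hx : x ∈ cell x := by
    rw [hcell]; exact ⟨rfl, fun _ _ => rfl⟩
  have hy : y ∈ cell x := by
    rw [hcell]; exact ⟨h3.symm, h5⟩
  exact hxy (hg (cell x) (hfin x) hx hy h4)

/-- (L2) -/
theorem nh_L2 (B : Γ → Finset Γ) (l : ℕ) (n : ℕ) : ∀ V : Finset Γ, (∀ x ∈ V, (B x).card ≤ l) →
    n * (2 * l + 1) ≤ V.card →
    ∃ V' : Finset Γ, V' ⊆ V ∧ V'.card = n ∧ ∀ x ∈ V', ∀ y ∈ V', x ≠ y → y ∉ B x := by
  classical
  induction n with
  | zero => exact fun V _ _ => ⟨∅, by simp, by simp, by simp⟩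
  | succ n ih =>
    intro V hV hcard
    have hpos : 0 < V.card := by
      have : 0 < (n + 1) * (2 * l + 1) := by positivity
      omega
    obtain ⟨v, hv, hvin⟩ : ∃ v ∈ V, (V.filter (fun x => v ∈ B x)).card ≤ l := by
      by_contra hno
      push Not at hno
      have h1 : V.card * (l + 1) ≤ ∑ v ∈ V, (V.filter (fun x => v ∈ B x)).card := by
        have := Finset.card_nsmul_le_sum V (fun v => (V.filter (fun x => v ∈ B x)).card) (l + 1)
          (fun v hv => hno v hv)
        simpa [smul_eq_mul] using this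
      have h2 : ∑ v ∈ V, (V.filter (fun x => v ∈ B x)).card =
          ∑ x ∈ V, (V.filter (fun v => v ∈ B x)).card := by
        simp only [Finset.card_filter]
        rw [Finset.sum_comm]
      have h3 : ∑ x ∈ V, (V.filter (fun v => v ∈ B x)).card ≤ V.card * l := by
        have := Finset.sum_le_card_nsmul V (fun x => (V.filter (fun v => v ∈ B x)).card) l
          (fun x hx => by
            refine (Finset.card_le_card ?_).trans (hV x hx)
            intro v hv
            exact (Finset.mem_filter.1 hv).2)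
        simpa [smul_eq_mul] using this
      have h4 : V.card * (l + 1) ≤ V.card * l := by omega
      nlinarith
    obtain ⟨V1, hV1⟩ : ∃ V1 : Finset Γ,
      V1 = V \ (insert v (B v ∪ V.filter (fun x => v ∈ B x))) := ⟨_, rfl⟩
    have hsub1 : V1 ⊆ V := by rw [hV1]; exact Finset.sdiff_subset
    have hc1 : n * (2 * l + 1) ≤ V1.card := by
      have h1 : V.card - (insert v (B v ∪ V.filter (fun x => v ∈ B x))).card ≤ V1.card := by
        rw [hV1]; exact Finset.le_card_sdiff _ _
      have h2 := Finset.card_insert_le v (B v ∪ V.filter (fun x => v ∈ B x))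
      have h3 := Finset.card_union_le (B v) (V.filter (fun x => v ∈ B x))
      have h4 := hV v hv
      have h5 : (n + 1) * (2 * l + 1) = n * (2 * l + 1) + (2 * l + 1) := by ring
      omega
    obtain ⟨V', hV', hn, hfree⟩ := ih V1 (fun x hx => hV x (hsub1 hx)) hc1
    have hmem : ∀ x ∈ V', x ∈ V ∧ x ≠ v ∧ x ∉ B v ∧ v ∉ B x := by
      intro x hx
      have hx1 := hV' hx
      rw [hV1, Finset.mem_sdiff, Finset.mem_insert, Finset.mem_union, Finset.mem_filter] at hx1
      push Not at hx1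
      exact ⟨hx1.1, hx1.2.1, hx1.2.2.1, hx1.2.2.2 hx1.1⟩
    refine ⟨insert v V', ?_, ?_, ?_⟩
    · intro x hx
      rcases Finset.mem_insert.1 hx with rfl | hx
      · exact hv
      · exact (hmem x hx).1
    · rw [Finset.card_insert_of_notMem (fun h => (hmem v h).2.1 rfl), hn]
    · intro x hx y hy hxy
      rcases Finset.mem_insert.1 hx with hxv | hx'
      · rcases Finset.mem_insert.1 hy with hyv | hy'
        · exact absurd (hxv.trans hyv.symm) hxy
        · rw [hxv]; exact (hmem y hy').2.2.1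
      · rcases Finset.mem_insert.1 hy with hyv | hy'
        · rw [hyv]; exact (hmem x hx').2.2.2
        · exact hfree x hx' y hy' hxy

theorem nh_adm_mono {η : Γ → ℕ → β} {F G : Finset Γ} (h : Adm η G) (hFG : F ⊆ G) : Adm η F := by
  intro x hx y hy k hk
  exact h x (hFG hx) y (hFG hy) k (lt_of_lt_of_le hk (Finset.card_le_card hFG))

/-- the point of `KK η` given by an admissible set -/
noncomputable def nhPt (η : Γ → ℕ → β) (V : Finset Γ) (h : Adm η V) : KK η := by
  classical
  exact ⟨fun y => decide (y ∈ V), fun F hF => nh_adm_mono h (fun x hx => by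
    simpa using hF x hx)⟩

theorem nhPt_true (η : Γ → ℕ → β) (V : Finset Γ) (h : Adm η V) (y : Γ) :
    (nhPt η V h).1 y = true ↔ y ∈ V := by
  classical
  unfold nhPt
  simp

theorem nhPt_false (η : Γ → ℕ → β) (V : Finset Γ) (h : Adm η V) (y : Γ) :
    (nhPt η V h).1 y = false ↔ y ∉ V := by
  classical
  unfold nhPt
  simp

theorem nh_adm_single (η : Γ → ℕ → β) (x : Γ) : Adm η {x} := by
  intro y hy z hz k _
  rw [Finset.mem_singleton] at hy hz
  rw [hy, hz]

theorem nh_adm_empty (η : Γ → ℕ → β) : Adm η ∅ := by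
  intro y hy
  simp at hy

theorem nh_cont_fin (η : Γ → ℕ → β) (G : KK η → ℝ) (hG : Continuous G) (s0 : KK η) (ε : ℝ)
    (hε : 0 < ε) : ∃ A : Finset Γ, ∀ s : KK η, (∀ x ∈ A, s.1 x = s0.1 x) → |G s - G s0| < ε := by
  have hU : IsOpen (G ⁻¹' Metric.ball (G s0) ε) := Metric.isOpen_ball.preimage hG
  obtain ⟨V, hV, hVU⟩ := isOpen_induced_iff.1 hU
  have hs0 : s0.1 ∈ V := by
    have : s0 ∈ Subtype.val ⁻¹' V := by
      rw [hVU]
      exact Metric.mem_ball_self hε
    exact this
  obtain ⟨I, u, hu, hIu⟩ := isOpen_pi_iff.1 hV s0.1 hs0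
  refine ⟨I, fun s hs => ?_⟩
  have hsV : s.1 ∈ V := by
    apply hIu
    intro x hx
    rw [hs x hx]
    exact (hu x hx).2
  have : s ∈ G ⁻¹' Metric.ball (G s0) ε := by
    rw [← hVU]; exact hsV
  exact this

theorem nh_compact (η : Γ → ℕ → β) : CompactSpace (KK η) := by
  suffices h : IsCompact {s : Γ → Bool | ∀ F : Finset Γ, (∀ x ∈ F, s x = true) → Adm η F} from
    isCompact_iff_compactSpace.1 h
  apply IsClosed.isCompact
  have : {s : Γ → Bool | ∀ F : Finset Γ, (∀ x ∈ F, s x = true) → Adm η F} =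
      ⋂ F : Finset Γ, {s : Γ → Bool | (∀ x ∈ F, s x = true) → Adm η F} := by
    ext s; simp
  rw [this]
  apply isClosed_iInter
  intro F
  by_cases hF : Adm η F
  · have : {s : Γ → Bool | (∀ x ∈ F, s x = true) → Adm η F} = univ := by
      ext s; simp [hF]
    rw [this]; exact isClosed_univ
  · have : {s : Γ → Bool | (∀ x ∈ F, s x = true) → Adm η F} =
        ⋃ x ∈ F, {s : Γ → Bool | s x = false} := by
      ext s; simp [hF]
    rw [this]
    apply Set.Finite.isClosed_biUnion F.finite_toSet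
    intro x _
    have h1 : Continuous (fun s : Γ → Bool => s x) := continuous_apply x
    exact (isClosed_discrete {false}).preimage h1

theorem nh_main (η : Γ → ℕ → β) (hΓ : ¬ SD η univ) (H : Type) [NormedAddCommGroup H]
    [InnerProductSpace ℝ H] [CompleteSpace H] (E : KK η → H)
    (hEc : ∀ y : H, Continuous fun s => inner ℝ y (E s)) (hEi : Function.Injective E) : False := by
  classical
  haveI := nh_compact η
  obtain ⟨w, b, hb⟩ := exists_hilbertBasis ℝ H
  obtain ⟨σ, hσ⟩ : ∃ σ : Γ → KK η, σ = fun x => nhPt η {x} (nh_adm_single η x) := ⟨_, rfl⟩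
  obtain ⟨z, hz⟩ : ∃ z : KK η, z = nhPt η ∅ (nh_adm_empty η) := ⟨_, rfl⟩
  obtain ⟨G, hG⟩ : ∃ G : w → KK η → ℝ, G = fun i s => inner ℝ (b i) (E s - E z) := ⟨_, rfl⟩
  have hGc : ∀ i, Continuous (G i) := by
    intro i
    rw [hG]
    simp only [inner_sub_right]
    exact (hEc (b i)).sub continuous_const
  have hGz : ∀ i, G i z = 0 := by
    intro i; rw [hG]; simp
  have hσz : ∀ x, σ x ≠ z := by
    intro x h
    have h1 : (σ x).1 x = true := by rw [hσ]; simp [nhPt_true]
    rw [h, hz, nhPt_true] at h1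
    simp at h1
  -- a coordinate which distinguishes `σ x` from `z`
  have hex : ∀ x, ∃ i : w, ∃ k : ℕ, 1 / ((k : ℝ) + 1) ≤ |G i (σ x)| := by
    intro x
    have hne : E (σ x) - E z ≠ 0 := fun h => hσz x (hEi (sub_eq_zero.1 h))
    have h1 : ∃ i : w, inner ℝ (b i) (E (σ x) - E z) ≠ (0:ℝ) := by
      by_contra hno
      push Not at hno
      apply hne
      apply b.repr.injective
      ext i
      rw [b.repr_apply_apply, hno i]
      simp
    obtain ⟨i, hi⟩ := h1
    obtain ⟨k, hk⟩ := exists_nat_one_div_lt (abs_pos.2 hi)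
    refine ⟨i, k, ?_⟩
    rw [hG]
    exact hk.le
  choose ix kx hkx using hex
  have hB : ∀ x, ∃ B : Finset Γ, x ∉ B ∧ ∀ s : KK η, (∀ y ∈ B, s.1 y = false) →
      (s.1 x = true → |G (ix x) s - G (ix x) (σ x)| < 1 / (4 * ((kx x : ℝ) + 1))) ∧
      (s.1 x = false → |G (ix x) s| < 1 / (4 * ((kx x : ℝ) + 1))) := by
    intro x
    have hε : 0 < 1 / (4 * ((kx x : ℝ) + 1)) := by positivity
    obtain ⟨A1, hA1⟩ := nh_cont_fin η (G (ix x)) (hGc _) (σ x) _ hε
    obtain ⟨A2, hA2⟩ := nh_cont_fin η (G (ix x)) (hGc _) z _ hε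
    refine ⟨(A1 ∪ A2).erase x, by simp, fun s hs => ⟨fun hsx => hA1 s ?_, fun hsx => ?_⟩⟩
    · intro y hy
      by_cases hyx : y = x
      · rw [hyx, hsx, hσ]; symm; simp [nhPt_true]
      · rw [hs y (by simp [hyx, hy]), hσ]; symm; simp [nhPt_false, hyx]
    · have := hA2 s (by
        intro y hy
        by_cases hyx : y = x
        · rw [hyx, hsx, hz]; symm; simp [nhPt_false]
        · rw [hs y (by simp [hyx, hy]), hz]; symm; simp [nhPt_false])
      rwa [hGz, sub_zero] at this
  choose B hxB hBs using hB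
  -- norm bound
  have hnorm : ∃ R : ℝ, ∀ s : KK η, ‖E s‖ ≤ R := by
    obtain ⟨R, hR⟩ := banach_steinhaus (g := fun s : KK η => innerSL ℝ (E s)) (by
      intro y
      obtain ⟨C, hC⟩ := (isCompact_univ (X := KK η)).exists_bound_of_continuousOn
        (hEc y).continuousOn
      refine ⟨C, fun s => ?_⟩
      rw [innerSL_apply_apply, real_inner_comm]
      exact hC s (mem_univ _))
    refine ⟨R, fun s => ?_⟩
    have := hR s
    rwa [innerSL_apply_norm] at this
  obtain ⟨R, hR⟩ := hnorm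
  obtain ⟨i, hi⟩ := nh_L1 η hΓ (fun x => Nat.pair (kx x) (B x).card)
  obtain ⟨k, hk⟩ : ∃ k : ℕ, k = i.unpair.1 := ⟨_, rfl⟩
  obtain ⟨l, hl⟩ : ∃ l : ℕ, l = i.unpair.2 := ⟨_, rfl⟩
  have hbound : ∀ n : ℕ, (n : ℝ) * (3 / (4 * ((k : ℝ) + 1))) ^ 2 ≤ (2 * R) ^ 2 := by
    intro n
    obtain ⟨F, hF1, hF2, hF3⟩ := hi (n * (2 * l + 1))
    have hFk : ∀ x ∈ F, kx x = k := by
      intro x hx
      have := hF1 x hx
      rw [hk, ← this, Nat.unpair_pair]
    have hFl : ∀ x ∈ F, (B x).card ≤ l := by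
      intro x hx
      have := hF1 x hx
      rw [hl, ← this, Nat.unpair_pair]
    obtain ⟨V, hVF, hVn, hfree⟩ := nh_L2 B l n F hFl hF2.ge
    obtain ⟨s, hs⟩ : ∃ s : KK η, s = nhPt η V (nh_adm_mono hF3 hVF) := ⟨_, rfl⟩
    have hst : ∀ y, s.1 y = true ↔ y ∈ V := fun y => by rw [hs]; exact nhPt_true _ _ _ _
    have hsf : ∀ y, s.1 y = false ↔ y ∉ V := fun y => by rw [hs]; exact nhPt_false _ _ _ _
    have hbig : ∀ x ∈ V, 3 / (4 * ((k : ℝ) + 1)) ≤ |G (ix x) s| := by
      intro x hx
      have h1 := (hBs x s (fun y hy => by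
        rw [hsf]
        intro hyV
        have hyx : x ≠ y := fun h => hxB x (h ▸ hy)
        exact hfree x hx y hyV hyx hy)).1 ((hst x).2 hx)
      have h2 := hkx x
      rw [hFk x (hVF hx)] at h1 h2
      have h3 : |G (ix x) (σ x)| ≤ |G (ix x) s| + |G (ix x) s - G (ix x) (σ x)| := by
        have := abs_sub_abs_le_abs_sub (G (ix x) (σ x)) (G (ix x) s)
        rw [abs_sub_comm] at this
        linarith
      have h4 : 3 / (4 * ((k : ℝ) + 1)) = 1 / ((k : ℝ) + 1) - 1 / (4 * ((k : ℝ) + 1)) := by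
        have : (k : ℝ) + 1 ≠ 0 := by positivity
        field_simp
        ring
      rw [h4]
      linarith
    have hinj : Set.InjOn ix (V : Set Γ) := by
      intro x hx y hy hxy
      by_contra hne
      have h1 := (hBs y (σ x) (fun u hu => by
        rw [hσ]
        rw [nhPt_false, Finset.mem_singleton]
        intro hux
        rw [hux] at hu
        exact hfree y hy x hx (Ne.symm hne) hu)).2 (by
          rw [hσ, nhPt_false, Finset.mem_singleton]
          exact Ne.symm hne)
      have h2 := hkx x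
      rw [hFk x (hVF hx), hxy] at h2
      rw [hFk y (hVF hy)] at h1
      have h4 : 1 / (4 * ((k : ℝ) + 1)) ≤ 1 / ((k : ℝ) + 1) := by
        apply one_div_le_one_div_of_le (by positivity)
        have : (0:ℝ) ≤ k := Nat.cast_nonneg k
        linarith
      linarith
    have hbessel := b.orthonormal.sum_inner_products_le (E s - E z) (s := V.image ix)
    rw [Finset.sum_image hinj] at hbessel
    calc (n : ℝ) * (3 / (4 * ((k : ℝ) + 1))) ^ 2
        = ∑ x ∈ V, (3 / (4 * ((k : ℝ) + 1))) ^ 2 := by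
          rw [Finset.sum_const, hVn, nsmul_eq_mul]
      _ ≤ ∑ x ∈ V, ‖(inner ℝ (b (ix x)) (E s - E z) : ℝ)‖ ^ 2 := by
          apply Finset.sum_le_sum
          intro x hx
          have h1 := hbig x hx
          rw [hG] at h1
          apply pow_le_pow_left₀ (by positivity)
          exact h1
      _ ≤ ‖E s - E z‖ ^ 2 := hbessel
      _ ≤ (2 * R) ^ 2 := by
          apply pow_le_pow_left₀ (norm_nonneg _)
          calc ‖E s - E z‖ ≤ ‖E s‖ + ‖E z‖ := norm_sub_le _ _
            _ ≤ R + R := add_le_add (hR s) (hR z)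
            _ = 2 * R := by ring
  have hpos : 0 < (3 / (4 * ((k : ℝ) + 1))) ^ 2 := by positivity
  obtain ⟨n, hn⟩ := exists_nat_gt ((2 * R) ^ 2 / (3 / (4 * ((k : ℝ) + 1))) ^ 2)
  rw [div_lt_iff₀ hpos] at hn
  exact absurd (hbound n) (not_le.2 hn)

/-- `KK η` does not embed in a Hilbert space with its weak topology if `Γ` is not sigma-discrete. -/
theorem no_hilbert (η : Γ → ℕ → β) (hη : Function.Injective η) (hΓ : ¬ SD η univ) :
    ¬ ∃ (H : Type) (_ : NormedAddCommGroup H) (_ : InnerProductSpace ℝ H) (_ : CompleteSpace H)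
        (e : KK η → WeakSpace ℝ H), Topology.IsEmbedding e := by
  rintro ⟨H, _, _, _, e, he⟩
  refine nh_main η hΓ H (fun s => (toWeakSpace ℝ H).symm (e s)) ?_ ?_
  · intro y
    have h1 := WeakBilin.eval_continuous (topDualPairing ℝ H).flip (innerSL ℝ y)
    exact h1.comp he.continuous
  · intro s t hst
    exact he.injective ((toWeakSpace ℝ H).symm.injective hst)

end NoHilb

end Pool.Agent.Helper937.Mcs
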