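import Pool.Agent.Helper937.McsDef

set_option autoImplicit false

namespace Pool.Agent.Helper937.Mcs

open MeasureTheory Set

namespace Null

variable {Γ β : Type}

theorem approx_aux (η : Γ → ℕ → β) (g : C(KK η, ℝ)) (ε : ℝ) (hε : 0 < ε) :
    ∃ P : Finset Γ, ∀ s s' : KK η, (∀ x ∈ P, s.1 x = s'.1 x) → |g s - g s'| ≤ ε := by
  classical
  have h1 : ∀ s : KK η, ∃ P : Finset Γ, ∀ s' : KK η, (∀ x ∈ P, s'.1 x = s.1 x) →
      |g s' - g s| < ε / 2 := by
    intro s
    have hc : ContinuousAt g s := g.continuous.continuousAt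
    have hb : Metric.ball (g s) (ε / 2) ∈ nhds (g s) := Metric.ball_mem_nhds _ (by positivity)
    have h2 := hc hb
    rw [Filter.mem_map, nhds_subtype_eq_comap, Filter.mem_comap] at h2
    obtain ⟨V, hV, hVs⟩ := h2
    rw [nhds_pi, Filter.mem_pi'] at hV
    obtain ⟨I, t, ht, hI⟩ := hV
    refine ⟨I, fun s' hs' => ?_⟩
    have h3 : s' ∈ Subtype.val ⁻¹' V := by
      apply hI
      intro i hi
      have h4 := hs' i (by simpa using hi)
      show s'.1 i ∈ t i
      rw [h4]
      exact mem_of_mem_nhds (ht i)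
    have h5 := hVs h3
    simpa [Real.dist_eq] using h5
  choose P hP using h1
  have hopen : ∀ s : KK η, IsOpen {s' : KK η | ∀ x ∈ P s, s'.1 x = s.1 x} := by
    intro s
    have : {s' : KK η | ∀ x ∈ P s, s'.1 x = s.1 x}
        = ⋂ x ∈ P s, {s' : KK η | s'.1 x = s.1 x} := by
      ext; simp
    rw [this]
    refine isOpen_biInter_finset fun x _ => ?_
    exact (isOpen_discrete ({s.1 x} : Set Bool)).preimage
      (show Continuous (fun s' : KK η => s'.1 x) from
        (continuous_apply (A := fun _ : Γ => Bool) x).comp continuous_subtype_val)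
  obtain ⟨T, -, hT⟩ := isCompact_univ.elim_nhds_subcover
    (fun s : KK η => {s' : KK η | ∀ x ∈ P s, s'.1 x = s.1 x})
    (fun s _ => (hopen s).mem_nhds (by simp))
  refine ⟨T.biUnion P, fun s s' hss => ?_⟩
  have hs := hT (Set.mem_univ s)
  simp only [Set.mem_iUnion, Set.mem_setOf_eq] at hs
  obtain ⟨u, hu, hsu⟩ := hs
  have h1 := hP u s hsu
  have h2 := hP u s' (fun x hx => by
    rw [← hss x (Finset.mem_biUnion.2 ⟨u, hu, hx⟩)]; exact hsu x hx)
  have h3 : g s - g s' = (g s - g u) - (g s' - g u) := by ring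
  rw [h3]
  have h4 := abs_sub (g s - g u) (g s' - g u)
  linarith

theorem count_aux (η : Γ → ℕ → β) (S : Set Γ) (c : Γ → ℕ)
    (hc : ∀ x ∈ S, ∀ y ∈ S, x ≠ y → c x = c y → ∃ k < c x, η x k ≠ η y k)
    (s : KK η) (n : ℕ) (F : Finset Γ) (hF : ∀ x ∈ F, x ∈ S ∧ s.1 x = true ∧ c x ≤ n) :
    F.card ≤ (n + 1) * (n + 1) := by
  classical
  have h1 := Finset.card_le_mul_card_image_of_maps_to (s := F) (t := Finset.range (n + 1)) (f := c)
    (fun a ha => by
      have := (hF a ha).2.2
      simp; omega) (n + 1) (fun i hi => by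
      by_contra hcon
      push Not at hcon
      have h2 : 1 < (F.filter (fun a => c a = i)).card := by omega
      obtain ⟨x, hx, y, hy, hxy⟩ := Finset.one_lt_card.1 h2
      have hx' := Finset.mem_filter.1 hx
      have hy' := Finset.mem_filter.1 hy
      obtain ⟨k, hk, hne⟩ := hc x (hF x hx'.1).1 y (hF y hy'.1).1 hxy (by rw [hx'.2, hy'.2])
      have hadm := s.2 (F.filter (fun a => c a = i)) (fun z hz =>
        (hF z (Finset.mem_filter.1 hz).1).2.1)
      rw [hx'.2] at hk
      have hi' : i < n + 1 := by simpa using hi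
      exact hne (hadm x hx y hy k (by omega)))
  simpa using h1

theorem exists_b (η : Γ → ℕ → β) : ∃ b : Finset Γ → KK η, ∀ (P B : Finset Γ) (s : KK η),
    (∀ x, x ∈ B ↔ x ∈ P ∧ s.1 x = true) → restr η P s = b B := by
  classical
  have h0 : ∀ B : Finset Γ, ∃ u : KK η, ∀ (P : Finset Γ) (s : KK η),
      (∀ x, x ∈ B ↔ x ∈ P ∧ s.1 x = true) → restr η P s = u := by
    intro B
    by_cases h : ∃ s : KK η, ∀ x ∈ B, s.1 x = true
    · obtain ⟨s₀, hs₀⟩ := h
      refine ⟨restr η B s₀, fun P s hPs => ?_⟩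
      apply Subtype.ext
      funext x
      simp only [restr, Finset.mem_coe]
      by_cases hxB : x ∈ B
      · have h1 := (hPs x).1 hxB
        simp [hxB, h1.1, h1.2, hs₀ x hxB]
      · have h1 : ¬ (x ∈ P ∧ s.1 x = true) := fun h => hxB ((hPs x).2 h)
        by_cases hxP : x ∈ P
        · have h2 : s.1 x = false := by
            cases hsx : s.1 x
            · rfl
            · exact absurd ⟨hxP, hsx⟩ h1
          simp [hxB, hxP, h2]
        · simp [hxB, hxP]
    · refine ⟨⟨fun _ => false, fun F hF => ?_⟩, fun P s hPs => ?_⟩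
      · intro x hx
        exact absurd (hF x hx) (by simp)
      · exact absurd ⟨s, fun x hx => ((hPs x).1 hx).2⟩ h
  choose b hb using h0
  exact ⟨b, fun P B s h => hb B P s h⟩

/-- A family of pairwise disjoint boxes of a prepartition inside an open set. -/
theorem vol_sum_le {I : BoxIntegral.Box (Fin 1)} (π : BoxIntegral.Prepartition I)
    (T : Finset (BoxIntegral.Box (Fin 1))) (hT : T ⊆ π.boxes) (U : Set (Fin 1 → ℝ))
    (hU : ∀ J ∈ T, (J : Set (Fin 1 → ℝ)) ⊆ U) (hfin : volume U ≠ ⊤) :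
    ∑ J ∈ T, (volume : Measure (Fin 1 → ℝ)).real (J : Set (Fin 1 → ℝ)) ≤
      (volume : Measure (Fin 1 → ℝ)).real U := by
  classical
  have h1 : (volume : Measure (Fin 1 → ℝ)).real (⋃ J ∈ T, (J : Set (Fin 1 → ℝ)))
      = ∑ J ∈ T, (volume : Measure (Fin 1 → ℝ)).real (J : Set (Fin 1 → ℝ)) := by
    apply measureReal_biUnion_finset
    · intro J hJ J' hJ' hne
      exact π.pairwiseDisjoint (hT hJ) (hT hJ') hne
    · intro J _
      exact J.measurableSet_coe
    · intro J _
      exact (J.measure_coe_lt_top _).ne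
  rw [← h1]
  exact measureReal_mono (Set.iUnion₂_subset hU) hfin

/-- Scalarly null functions which live on a sigma-discrete set are McShane integrable. -/
theorem null_mcshane (η : Γ → ℕ → β) (S : Set Γ) (hS : SD η S)
    (f : ℝ → C(KK η, ℝ))
    (h1 : ∀ t ∈ Icc (0:ℝ) 1, ∀ s : KK η, f t s = f t (restr η S s))
    (h2 : ∀ s : KK η, ∀ᵐ t ∂(volume.restrict (Icc (0:ℝ) 1)), f t s = 0) : McS f := by
  classical
  obtain ⟨c, hc⟩ := hS
  refine ⟨0, ?_⟩
  rw [BoxIntegral.hasIntegral_iff]
  intro ε hε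
  have hε2 : 0 < ε / 2 := by positivity
  -- approximating finite sets
  have hP : ∀ t : ℝ, ∃ P : Finset Γ, t ∈ Icc (0:ℝ) 1 → (∀ x ∈ P, x ∈ S) ∧
      ∀ s : KK η, |f t s - f t (restr η P s)| ≤ ε / 2 := by
    intro t
    by_cases ht : t ∈ Icc (0:ℝ) 1
    · obtain ⟨P', hP'⟩ := approx_aux η (f t) (ε / 2) hε2
      refine ⟨P'.filter (fun x => x ∈ S), fun _ => ⟨fun x hx => (Finset.mem_filter.1 hx).2,
        fun s => ?_⟩⟩
      rw [h1 t ht s]
      apply hP'
      intro x hx
      simp only [restr, Finset.coe_filter, Set.mem_setOf_eq]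
      by_cases hxS : x ∈ S
      · simp [hx, hxS]
      · simp [hxS]
    · exact ⟨∅, fun h => absurd h ht⟩
  choose P hP using hP
  have hn : ∀ t : ℝ, ∃ n : ℕ, (∀ x ∈ P t, c x ≤ n) ∧ ‖f t‖ ≤ n := by
    intro t
    obtain ⟨m, hm⟩ := exists_nat_ge ‖f t‖
    refine ⟨max m ((P t).sup c), fun x hx => le_max_of_le_right (Finset.le_sup hx), ?_⟩
    exact hm.trans (by exact_mod_cast le_max_left _ _)
  choose n hn using hn
  obtain ⟨b, hb⟩ := exists_b η
  -- the null sets
  set κ : ℕ → ℝ := fun m => (ε / 2) / (2 ^ ((m + 1) * (m + 1)) * (m + 1) * 2 ^ (m + 1)) with hκ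
  have hκpos : ∀ m, 0 < κ m := fun m => by positivity
  set E : Finset Γ → Set (Fin 1 → ℝ) := fun B =>
    {x | x 0 ∈ Icc (0:ℝ) 1 ∧ f (x 0) (b B) ≠ 0} with hE
  have hEnull : ∀ B, volume (E B) = 0 := by
    intro B
    have h3 := h2 (b B)
    rw [ae_restrict_iff' measurableSet_Icc] at h3
    have h4 : volume {t : ℝ | t ∈ Icc (0:ℝ) 1 ∧ f t (b B) ≠ 0} = 0 := by
      rw [ae_iff] at h3
      convert h3 using 2
      ext t
      simp [and_assoc]
    have h5 := (volume_preserving_funUnique (Fin 1) ℝ).quasiMeasurePreserving.preimage_null h4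
    exact h5
  have hU : ∀ (B : Finset Γ) (m : ℕ), ∃ U : Set (Fin 1 → ℝ), E B ⊆ U ∧ IsOpen U ∧
      volume U ≤ ENNReal.ofReal (κ m) := by
    intro B m
    obtain ⟨U, hU1, hU2, hU3⟩ := (E B).exists_isOpen_le_add volume
      (ε := ENNReal.ofReal (κ m)) (by simpa using hκpos m)
    refine ⟨U, hU1, hU2, ?_⟩
    rwa [hEnull B, zero_add] at hU3
  choose U hU1 hU2 hU3 using hU
  -- the gauge
  have hr : ∀ x : Fin 1 → ℝ, ∃ r : ℝ, 0 < r ∧ ∀ B ∈ (P (x 0)).powerset, x ∈ E B →
      Metric.closedBall x r ⊆ U B (n (x 0)) := by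
    intro x
    have hop : IsOpen (⋂ B ∈ (P (x 0)).powerset.filter (fun B => x ∈ E B), U B (n (x 0))) :=
      isOpen_biInter_finset fun B _ => hU2 B _
    have hx : x ∈ ⋂ B ∈ (P (x 0)).powerset.filter (fun B => x ∈ E B), U B (n (x 0)) := by
      simp only [Set.mem_iInter]
      intro B hB
      exact hU1 B _ (Finset.mem_filter.1 hB).2
    obtain ⟨r, hr0, hr⟩ := Metric.nhds_basis_closedBall.mem_iff.1 (hop.mem_nhds hx)
    refine ⟨r, hr0, fun B hB hxB => hr.trans ?_⟩
    exact Set.biInter_subset_of_mem (Finset.mem_coe.2 (Finset.mem_filter.2 ⟨hB, hxB⟩))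
  choose r hr0 hr using hr
  refine ⟨fun _ x => ⟨r x, hr0 x⟩, fun _ h => absurd h (by simp [BoxIntegral.IntegrationParams.McShane]), ?_⟩
  intro c' π hπ _
  rw [dist_zero_right, ContinuousMap.norm_le _ hε.le]
  intro s
  have hsum : (BoxIntegral.integralSum (fun x : Fin 1 → ℝ => f (x 0))
      BoxIntegral.BoxAdditiveMap.volume π) s
      = ∑ J ∈ π.boxes, (volume : Measure (Fin 1 → ℝ)).real (J : Set (Fin 1 → ℝ)) *
        f (π.tag J 0) s := by
    unfold BoxIntegral.integralSum
    rw [ContinuousMap.sum_apply]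
    refine Finset.sum_congr rfl fun J _ => ?_
    rw [BoxIntegral.BoxAdditiveMap.volume_apply, ← BoxIntegral.Box.volume_apply,
      MeasureTheory.Measure.toBoxAdditive_apply]
    simp
  rw [hsum]
  have htag : ∀ J, π.tag J 0 ∈ Icc (0:ℝ) 1 := by
    intro J
    have h3 := π.tag_mem_Icc J
    rw [BoxIntegral.Box.Icc_def] at h3
    exact ⟨h3.1 0, h3.2 0⟩
  have hvol0 : ∀ J : BoxIntegral.Box (Fin 1),
      0 ≤ (volume : Measure (Fin 1 → ℝ)).real (J : Set (Fin 1 → ℝ)) := fun J => measureReal_nonneg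
  -- total volume
  have htot : ∑ J ∈ π.boxes, (volume : Measure (Fin 1 → ℝ)).real (J : Set (Fin 1 → ℝ)) ≤ 1 := by
    have h3 := vol_sum_le π.toPrepartition π.boxes (Finset.Subset.refl _)
      ((⟨fun _ => (0:ℝ), fun _ => (1:ℝ), fun _ => (zero_lt_one : (0:ℝ) < 1)⟩ :
      BoxIntegral.Box (Fin 1)) : Set (Fin 1 → ℝ))
      (fun J hJ => by exact_mod_cast π.le_of_mem hJ) (BoxIntegral.Box.measure_coe_lt_top _ _).ne
    refine h3.trans (le_of_eq ?_)
    have h4 := BoxIntegral.Box.volume_apply (⟨fun _ => (0:ℝ), fun _ => (1:ℝ), fun _ => (zero_lt_one : (0:ℝ) < 1)⟩ :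
      BoxIntegral.Box (Fin 1))
    rw [MeasureTheory.Measure.toBoxAdditive_apply] at h4
    rw [h4]
    simp
  set Bs : BoxIntegral.Box (Fin 1) → Finset Γ := fun J =>
    (P (π.tag J 0)).filter (fun x => s.1 x = true) with hBs
  have hbB : ∀ J, restr η (P (π.tag J 0)) s = b (Bs J) := by
    intro J
    exact hb _ _ s (fun x => by simp [hBs])
  set v : BoxIntegral.Box (Fin 1) → ℝ := fun J =>
    (volume : Measure (Fin 1 → ℝ)).real (J : Set (Fin 1 → ℝ)) with hv
  set G := π.boxes.filter (fun J => f (π.tag J 0) (b (Bs J)) ≠ 0) with hG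
  set nn : BoxIntegral.Box (Fin 1) → ℕ := fun J => n (π.tag J 0) with hnn
  -- first reduction
  have hA : |∑ J ∈ π.boxes, v J * f (π.tag J 0) s| ≤ ε / 2 + ∑ J ∈ G, v J * nn J := by
    calc |∑ J ∈ π.boxes, v J * f (π.tag J 0) s|
        ≤ ∑ J ∈ π.boxes, |v J * f (π.tag J 0) s| := Finset.abs_sum_le_sum_abs _ _
      _ ≤ ∑ J ∈ π.boxes, (v J * (ε / 2) + v J * |f (π.tag J 0) (b (Bs J))|) := by
          refine Finset.sum_le_sum fun J _ => ?_
          rw [abs_mul, abs_of_nonneg (hvol0 J), ← mul_add]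
          refine mul_le_mul_of_nonneg_left ?_ (hvol0 J)
          have h3 := (hP (π.tag J 0) (htag J)).2 s
          rw [hbB J] at h3
          have h4 : f (π.tag J 0) s = (f (π.tag J 0) s - f (π.tag J 0) (b (Bs J)))
            + f (π.tag J 0) (b (Bs J)) := by ring
          rw [h4]
          exact (abs_add_le _ _).trans (by linarith)
      _ = (∑ J ∈ π.boxes, v J) * (ε / 2) + ∑ J ∈ π.boxes, v J * |f (π.tag J 0) (b (Bs J))| := by
          rw [Finset.sum_add_distrib, Finset.sum_mul]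
      _ ≤ ε / 2 + ∑ J ∈ G, v J * nn J := by
          refine add_le_add ?_ ?_
          · nlinarith [htot]
          · rw [hG, Finset.sum_filter]
            refine Finset.sum_le_sum fun J _ => ?_
            split_ifs with hz
            · refine mul_le_mul_of_nonneg_left ?_ (hvol0 J)
              refine le_trans ?_ (hn (π.tag J 0)).2
              exact (f (π.tag J 0)).norm_coe_le_norm _
            · have hz' : f (π.tag J 0) (b (Bs J)) = 0 := by simpa using hz
              simp [hz']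
  -- grouping
  have hfib : ∀ m : ℕ, ∑ J ∈ G.filter (fun J => nn J = m), v J * nn J
      ≤ (ε / 2) / 2 ^ (m + 1) := by
    intro m
    set Gm := G.filter (fun J => nn J = m) with hGm
    set D := Gm.biUnion Bs with hD
    have hDcard : D.card ≤ (m + 1) * (m + 1) := by
      apply count_aux η S c hc s m
      intro x hx
      obtain ⟨J, hJ, hxJ⟩ := Finset.mem_biUnion.1 hx
      have hJm := (Finset.mem_filter.1 hJ).2
      have hx2 := Finset.mem_filter.1 hxJ
      refine ⟨(hP (π.tag J 0) (htag J)).1 x hx2.1, hx2.2, ?_⟩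
      rw [← hJm]
      exact (hn (π.tag J 0)).1 x hx2.1
    have hmaps : ∀ J ∈ Gm, Bs J ∈ D.powerset := fun J hJ =>
      Finset.mem_powerset.2 (Finset.subset_biUnion_of_mem Bs hJ)
    have hone : ∀ B ∈ D.powerset, ∑ J ∈ Gm.filter (fun J => Bs J = B), v J ≤ κ m := by
      intro B _
      have h3 := vol_sum_le π.toPrepartition (Gm.filter (fun J => Bs J = B))
        (fun J hJ => (Finset.mem_filter.1 (Finset.mem_filter.1 (Finset.mem_filter.1 hJ).1).1).1)
        (U B m) (fun J hJ => ?_) (ne_top_of_le_ne_top ENNReal.ofReal_ne_top (hU3 B m))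
      · refine h3.trans ?_
        exact ENNReal.toReal_le_of_le_ofReal (hκpos m).le (hU3 B m)
      · obtain ⟨hJ1, hJB⟩ := Finset.mem_filter.1 hJ
        obtain ⟨hJ2, hJm⟩ := Finset.mem_filter.1 hJ1
        obtain ⟨hJ3, hJne⟩ := Finset.mem_filter.1 hJ2
        have h4 := hπ.isSubordinate J hJ3
        have h5 := hr (π.tag J) (Bs J) (Finset.mem_powerset.2 (Finset.filter_subset _ _))
          ⟨htag J, hJne⟩
        have h6 : (J : Set (Fin 1 → ℝ)) ⊆ BoxIntegral.Box.Icc J := J.coe_subset_Icc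
        have h7 := h6.trans (h4.trans h5)
        rw [hJB] at h7
        have h8 : n (π.tag J 0) = m := hJm
        rw [h8] at h7
        exact h7
    calc ∑ J ∈ Gm, v J * nn J = (∑ J ∈ Gm, v J) * m := by
          rw [Finset.sum_mul]
          refine Finset.sum_congr rfl fun J hJ => ?_
          rw [(Finset.mem_filter.1 hJ).2]
      _ = (∑ B ∈ D.powerset, ∑ J ∈ Gm.filter (fun J => Bs J = B), v J) * m := by
          rw [Finset.sum_fiberwise_of_maps_to hmaps]
      _ ≤ (∑ B ∈ D.powerset, κ m) * m := by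
          refine mul_le_mul_of_nonneg_right (Finset.sum_le_sum hone) (by positivity)
      _ = (2:ℝ) ^ D.card * κ m * m := by
          rw [Finset.sum_const, Finset.card_powerset]
          simp
      _ ≤ (2:ℝ) ^ ((m + 1) * (m + 1)) * κ m * m := by
          have := hκpos m
          gcongr
          norm_num
      _ ≤ (ε / 2) / 2 ^ (m + 1) := by
          rw [hκ]
          have h3 : (2:ℝ) ^ ((m + 1) * (m + 1)) * ((ε / 2) / (2 ^ ((m + 1) * (m + 1)) * (m + 1) * 2 ^ (m + 1))) * m
              = ((ε / 2) / 2 ^ (m + 1)) * (m / (m + 1)) := by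
            field_simp
          rw [h3]
          refine mul_le_of_le_one_right (by positivity) ?_
          rw [div_le_one (by positivity)]
          linarith
  have hB : ∑ J ∈ G, v J * nn J ≤ ε / 2 := by
    have hmaps : ∀ J ∈ G, nn J ∈ Finset.range (G.sup nn + 1) := fun J hJ => by
      have := Finset.le_sup (f := nn) hJ
      simp; omega
    rw [← Finset.sum_fiberwise_of_maps_to hmaps]
    calc _ ≤ ∑ m ∈ Finset.range (G.sup nn + 1), (ε / 2) / 2 ^ (m + 1) :=
          Finset.sum_le_sum fun m _ => hfib m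
      _ ≤ ε / 2 := by
          have h3 : ∀ N : ℕ, ∑ m ∈ Finset.range N, (ε / 2) / 2 ^ (m + 1) = ε / 2 - (ε / 2) / 2 ^ N := by
            intro N
            induction N with
            | zero => simp
            | succ N ih => rw [Finset.sum_range_succ, ih, pow_succ]; field_simp; ring
          rw [h3]
          have : 0 ≤ (ε / 2) / 2 ^ (G.sup nn + 1) := by positivity
          linarith
  rw [Real.norm_eq_abs]
  linarith

end Null

end Pool.Agent.Helper937.Mcs
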