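import Pool.Agent.Helper937.McsDef

set_option autoImplicit false

namespace Pool.Agent.Helper937.Mcs

open MeasureTheory Set

namespace Supp

variable {Γ β : Type}

theorem supp_fin (η : Γ → ℕ → β) (hη : Function.Injective η) (s : KK η) :
    {x | s.1 x = true}.Finite := by
  by_contra hinf
  have hinf' : {x | s.1 x = true}.Infinite := hinf
  obtain ⟨x, hx, y, hy, hxy⟩ := hinf'.nontrivial
  have hne : η x ≠ η y := fun h => hxy (hη h)
  obtain ⟨k, hk⟩ := Function.ne_iff.mp hne
  obtain ⟨F, hF, hFc⟩ := hinf'.exists_subset_card_eq (k + 1)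
  classical
  have h := s.2 (insert x (insert y F)) (by
    intro z hz
    rw [Finset.mem_insert, Finset.mem_insert] at hz
    rcases hz with rfl | rfl | hz
    · exact hx
    · exact hy
    · exact hF hz)
  have hcard : k < (insert x (insert y F)).card := by
    have h1 : F ⊆ insert x (insert y F) :=
      (Finset.subset_insert _ _).trans (Finset.subset_insert _ _)
    have h2 := Finset.card_le_card h1
    omega
  exact hk (h x (by simp) y (by simp) k hcard)

/-- the integrated distance -/
noncomputable def rho (η : Γ → ℕ → β) (f : ℝ → C(KK η, ℝ)) (s s' : KK η) : ℝ :=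
  ∫ t in Icc (0:ℝ) 1, min 1 |f t s - f t s'|

theorem rho_meas (η : Γ → ℕ → β) (f : ℝ → C(KK η, ℝ))
    (hf : ∀ s : KK η, AEStronglyMeasurable (fun t => f t s) (volume.restrict (Icc (0:ℝ) 1)))
    (s s' : KK η) :
    AEStronglyMeasurable (fun t => min 1 |f t s - f t s'|) (volume.restrict (Icc (0:ℝ) 1)) :=
  aestronglyMeasurable_const.inf ((hf s).sub (hf s')).norm

theorem min_bd (a : ℝ) : ‖min 1 |a|‖ ≤ 1 := by
  rw [Real.norm_of_nonneg (le_min zero_le_one (abs_nonneg a))]
  exact min_le_left _ _

theorem rho_seq (η : Γ → ℕ → β) (f : ℝ → C(KK η, ℝ))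
    (hf : ∀ s : KK η, AEStronglyMeasurable (fun t => f t s) (volume.restrict (Icc (0:ℝ) 1)))
    (a b : ℕ → KK η) (s : KK η) (ha : Filter.Tendsto a Filter.atTop (nhds s))
    (hb : Filter.Tendsto b Filter.atTop (nhds s)) :
    Filter.Tendsto (fun n => rho η f (a n) (b n)) Filter.atTop (nhds 0) := by
  have h0 : (0 : ℝ) = ∫ t in Icc (0:ℝ) 1, (0 : ℝ) := by simp
  rw [h0]
  unfold rho
  refine tendsto_integral_of_dominated_convergence (fun _ => (1 : ℝ))
    (fun n => rho_meas η f hf (a n) (b n)) ?_ ?_ ?_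
  · exact integrable_const _
  · intro n
    exact Filter.Eventually.of_forall (fun t => min_bd _)
  · refine Filter.Eventually.of_forall (fun t => ?_)
    have h1 : Filter.Tendsto (fun n => f t (a n)) Filter.atTop (nhds (f t s)) :=
      ((f t).continuous.tendsto s).comp ha
    have h2 : Filter.Tendsto (fun n => f t (b n)) Filter.atTop (nhds (f t s)) :=
      ((f t).continuous.tendsto s).comp hb
    have h3 := (h1.sub h2).abs
    rw [sub_self, abs_zero] at h3
    have h4 := (tendsto_const_nhds (x := (1 : ℝ)) (f := Filter.atTop (α := ℕ))).min h3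
    simpa using h4

theorem claim (η : Γ → ℕ → β) (hη : Function.Injective η)
    (f : ℝ → C(KK η, ℝ))
    (hf : ∀ s : KK η, AEStronglyMeasurable (fun t => f t s) (volume.restrict (Icc (0:ℝ) 1)))
    (ε : ℝ) (hε : 0 < ε) :
    ∃ P : Finset Γ, ∀ D : Set Γ, (P : Set Γ) ⊆ D → ∀ s : KK η, rho η f s (restr η D s) ≤ ε := by
  classical
  by_contra hcon
  push Not at hcon
  choose Dc hDc sc hsc using hcon
  obtain ⟨P, hPs⟩ : ∃ P : ℕ → Finset Γ,
      ∀ n, P (n + 1) = P n ∪ (supp_fin η hη (sc (P n))).toFinset :=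
    ⟨fun n => Nat.rec ∅ (fun _ Q => Q ∪ (supp_fin η hη (sc Q)).toFinset) n, fun n => rfl⟩
  have hPm : Monotone P := monotone_nat_of_le_succ (fun n => by
    rw [hPs]; exact Finset.subset_union_left)
  let U : Set Γ := ⋃ n, (P n : Set Γ)
  have hUc : U.Countable := countable_iUnion (fun n => (P n).countable_toSet)
  have hsupp : ∀ n x, (sc (P n)).1 x = true → x ∈ U := by
    intro n x hx
    refine mem_iUnion.mpr ⟨n + 1, ?_⟩
    rw [hPs, Finset.mem_coe, Finset.mem_union]
    right
    rw [Set.Finite.mem_toFinset]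
    exact hx
  haveI : Countable U := hUc.to_subtype
  obtain ⟨u, φ, hφ, hu⟩ := CompactSpace.tendsto_subseq
    (fun n : ℕ => (fun x : U => (sc (P n)).1 x.1))
  have hev : ∀ x : U, ∀ᶠ n in Filter.atTop, (sc (P (φ n))).1 x.1 = u x := by
    intro x
    have h1 := (tendsto_pi_nhds.mp hu) x
    have h2 : ∀ᶠ b in nhds (u x), b = u x := by
      rw [nhds_discrete]; exact Filter.eventually_pure.mpr rfl
    exact h1.eventually h2
  have hev' : ∀ x : Γ, ∀ᶠ n in Filter.atTop, (sc (P (φ n))).1 x =
      (if h : x ∈ U then u ⟨x, h⟩ else false) := by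
    intro x
    by_cases hx : x ∈ U
    · rw [dif_pos hx]
      exact hev ⟨x, hx⟩
    · rw [dif_neg hx]
      refine Filter.Eventually.of_forall (fun n => ?_)
      by_contra hne
      have : (sc (P (φ n))).1 x = true := by
        cases h : (sc (P (φ n))).1 x
        · exact absurd h hne
        · rfl
      exact hx (hsupp _ _ this)
  let s : KK η := ⟨fun x => if h : x ∈ U then u ⟨x, h⟩ else false, by
    intro F hF
    have h1 : ∀ᶠ n in Filter.atTop, ∀ x ∈ F, (sc (P (φ n))).1 x =
        (if h : x ∈ U then u ⟨x, h⟩ else false) := by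
      rw [Filter.eventually_all_finset]
      intro x _
      exact hev' x
    obtain ⟨n, hn⟩ := h1.exists
    exact (sc (P (φ n))).2 F (fun x hx => by rw [hn x hx]; exact hF x hx)⟩
  have ha : Filter.Tendsto (fun n => sc (P (φ n))) Filter.atTop (nhds s) := by
    rw [tendsto_subtype_rng, tendsto_pi_nhds]
    intro x
    refine (Filter.tendsto_congr' ?_).mpr tendsto_const_nhds
    exact hev' x
  have hb : Filter.Tendsto (fun n => restr η (Dc (P (φ n))) (sc (P (φ n)))) Filter.atTop
      (nhds s) := by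
    rw [tendsto_subtype_rng, tendsto_pi_nhds]
    intro x
    refine (Filter.tendsto_congr' ?_).mpr tendsto_const_nhds
    by_cases hx : x ∈ U
    · obtain ⟨m, hm⟩ := mem_iUnion.mp hx
      have h1 := hev' x
      have h2 : ∀ᶠ n in Filter.atTop, m ≤ φ n := hφ.tendsto_atTop.eventually_ge_atTop m
      filter_upwards [h1, h2] with n hn1 hn2
      have h3 : x ∈ Dc (P (φ n)) := hDc _ (hPm hn2 hm)
      show (if x ∈ Dc (P (φ n)) then (sc (P (φ n))).1 x else false) = _
      rw [if_pos h3]
      exact hn1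
    · have h1 := hev' x
      filter_upwards [h1] with n hn1
      show (if x ∈ Dc (P (φ n)) then (sc (P (φ n))).1 x else false) = _
      have h4 : s.1 x = false := by
        show (if h : x ∈ U then u ⟨x, h⟩ else false) = false
        rw [dif_neg hx]
      rw [h4]
      rw [dif_neg hx] at hn1
      rw [hn1]
      simp
  have hlim := rho_seq η f hf _ _ s ha hb
  have h5 : ∀ᶠ n in Filter.atTop, rho η f (sc (P (φ n)))
      (restr η (Dc (P (φ n))) (sc (P (φ n)))) < ε := hlim.eventually (gt_mem_nhds hε)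
  obtain ⟨n, hn⟩ := h5.exists
  exact absurd (hsc (P (φ n))) (not_lt.mpr hn.le)

/-- For `f : ℝ → C(KK η, ℝ)` with measurable evaluations there is a countable set `D` such that
for each point `s` almost all `f t` take the same value at `s` and at its restriction to `D`. -/
theorem exists_countable_support (η : Γ → ℕ → β) (hη : Function.Injective η)
    (f : ℝ → C(KK η, ℝ))
    (hf : ∀ s : KK η, AEStronglyMeasurable (fun t => f t s) (volume.restrict (Icc (0:ℝ) 1))) :
    ∃ D : Set Γ, D.Countable ∧
      ∀ s : KK η, ∀ᵐ t ∂(volume.restrict (Icc (0:ℝ) 1)), f t s = f t (restr η D s) := by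
  have hc : ∀ m : ℕ, ∃ P : Finset Γ, ∀ D : Set Γ, (P : Set Γ) ⊆ D → ∀ s : KK η,
      rho η f s (restr η D s) ≤ 1 / ((m : ℝ) + 1) := fun m =>
    claim η hη f hf (1 / ((m : ℝ) + 1)) (by positivity)
  choose P hP using hc
  refine ⟨⋃ m, (P m : Set Γ), countable_iUnion (fun m => (P m).countable_toSet), fun s => ?_⟩
  have h0 : 0 ≤ rho η f s (restr η (⋃ m, (P m : Set Γ)) s) :=
    integral_nonneg (fun t => le_min zero_le_one (abs_nonneg _))
  have h1 : rho η f s (restr η (⋃ m, (P m : Set Γ)) s) ≤ 0 := by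
    refine ge_of_tendsto' (tendsto_one_div_add_atTop_nhds_zero_nat (𝕜 := ℝ)) (fun m => ?_)
    exact hP m _ (subset_iUnion (fun m => (P m : Set Γ)) m) s
  have h2 : rho η f s (restr η (⋃ m, (P m : Set Γ)) s) = 0 := le_antisymm h1 h0
  unfold rho at h2
  rw [integral_eq_zero_iff_of_nonneg (fun t => le_min zero_le_one (abs_nonneg _))] at h2
  · filter_upwards [h2] with t ht
    have ht' : min 1 |f t s - f t (restr η (⋃ m, (P m : Set Γ)) s)| = 0 := ht
    rcases min_eq_iff.mp ht' with h | h
    · exact absurd h.1 one_ne_zero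
    · have := abs_eq_zero.mp h.1
      linarith
  · refine Integrable.mono' (integrable_const (1 : ℝ)) (rho_meas η f hf _ _) ?_
    exact Filter.Eventually.of_forall (fun t => min_bd _)

end Supp

end Pool.Agent.Helper937.Mcs
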