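import Pool.Agent.Helper937.McsSep
import Pool.Agent.Helper937.McsNull
import Pool.Agent.Helper937.McsSupp
import Pool.Agent.Helper937.McsEber
import Pool.Agent.Helper937.McsNoHilb

/-!
# Non-reflecting families give a positive answer
-/

set_option autoImplicit false

namespace Pool.Agent.Helper937.Mcs

open MeasureTheory Set

variable {Γ β : Type}

theorem continuous_restr (η : Γ → ℕ → β) (D : Set Γ) : Continuous (restr η D) := by
  classical
  refine Continuous.subtype_mk (continuous_pi fun x => ?_) _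
  by_cases h : x ∈ D
  · simp only [h, if_true]
    exact (continuous_apply x).comp continuous_subtype_val
  · simp only [h, if_false]
    exact continuous_const

theorem restr_restr (η : Γ → ℕ → β) (D D' : Set Γ) (s : KK η) :
    restr η D (restr η D' s) = restr η (D ∩ D') s := by
  classical
  refine Subtype.ext (funext fun x => ?_)
  simp only [restr, mem_inter_iff]
  by_cases h : x ∈ D <;> by_cases h' : x ∈ D' <;> simp [h, h']

/-- Composition with the restriction to `D`. -/
noncomputable def TD (η : Γ → ℕ → β) (D : Set Γ) : C(KK η, ℝ) →L[ℝ] C(KK η, ℝ) :=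
  LinearMap.mkContinuous
    { toFun := fun g => g.comp ⟨restr η D, continuous_restr η D⟩
      map_add' := fun _ _ => rfl
      map_smul' := fun _ _ => rfl } 1 (by
    intro g
    rw [one_mul]
    exact (ContinuousMap.norm_le _ (norm_nonneg _)).2 fun s => g.norm_coe_le_norm _)

theorem TD_apply (η : Γ → ℕ → β) (D : Set Γ) (g : C(KK η, ℝ)) (s : KK η) :
    TD η D g s = g (restr η D s) := rfl

theorem pettis_comp {E E' : Type} [NormedAddCommGroup E] [NormedSpace ℝ E]
    [NormedAddCommGroup E'] [NormedSpace ℝ E'] (T : E →L[ℝ] E') (f : ℝ → E) (hf : Pettis f) :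
    Pettis (fun t => T (f t)) := by
  refine ⟨fun φ => hf.1 (φ.comp T), fun A hA hA' => ?_⟩
  obtain ⟨x, hx⟩ := hf.2 A hA hA'
  exact ⟨T x, fun φ => hx (φ.comp T)⟩

theorem isSeparable_range_TD (η : Γ → ℕ → β) (D : Set Γ) (hD : D.Countable) :
    TopologicalSpace.IsSeparable (range (TD η D)) := by
  classical
  let Z : Set (KK η) := range (restr η D)
  haveI : CompactSpace Z := isCompact_iff_compactSpace.1 (isCompact_range (continuous_restr η D))
  haveI := hD.to_subtype
  have hemb : Topology.IsClosedEmbedding (fun (z : Z) (x : D) => z.1.1 x.1) := by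
    refine Continuous.isClosedEmbedding ?_ ?_
    · exact continuous_pi fun x => (continuous_apply x.1).comp
        (continuous_subtype_val.comp continuous_subtype_val)
    · rintro ⟨z, s, rfl⟩ ⟨z', s', rfl⟩ h
      refine Subtype.ext (Subtype.ext (funext fun x => ?_))
      by_cases hx : x ∈ D
      · exact congrFun h ⟨x, hx⟩
      · simp [restr, hx]
  haveI : SecondCountableTopology Z := hemb.isInducing.secondCountableTopology
  let G : C(Z, ℝ) → C(KK η, ℝ) := fun h => h.comp
    ⟨fun s => ⟨restr η D s, mem_range_self s⟩, (continuous_restr η D).subtype_mk _⟩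
  have hG : Continuous G := ContinuousMap.continuous_precomp _
  refine (TopologicalSpace.isSeparable_range hG).mono ?_
  rintro _ ⟨g, rfl⟩
  exact ⟨g.restrict Z, rfl⟩

theorem mcs_add {E : Type} [NormedAddCommGroup E] [NormedSpace ℝ E] {f g : ℝ → E}
    (hf : McS f) (hg : McS g) : McS (fun t => f t + g t) :=
  BoxIntegral.Integrable.add hf hg

/-- A continuous function on `KK η` depends on countably many coordinates. -/
theorem exists_supp (η : Γ → ℕ → β) (g : C(KK η, ℝ)) : ∃ D : Set Γ, D.Countable ∧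
    ∀ s s' : KK η, (∀ x ∈ D, s.1 x = s'.1 x) → g s = g s' := by
  choose P hP using fun n : ℕ => Null.approx_aux η g (1 / ((n : ℝ) + 1)) (by positivity)
  refine ⟨⋃ n, (P n : Set Γ), countable_iUnion fun n => (P n).countable_toSet,
    fun s s' h => ?_⟩
  have h1 : |g s - g s'| ≤ 0 := by
    refine ge_of_tendsto' tendsto_one_div_add_atTop_nhds_zero_nat fun n => ?_
    exact hP n s s' fun x hx => h x (mem_iUnion.2 ⟨n, hx⟩)
  exact sub_eq_zero.1 (abs_nonpos_iff.1 h1)

/-- Reduction to scalarly null functions. -/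
theorem mcs_of_null (η : Γ → ℕ → β) (hη : Function.Injective η) (f : ℝ → C(KK η, ℝ))
    (hf : Pettis f)
    (h : ∀ D : Set Γ, D.Countable →
      (∀ s : KK η, ∀ᵐ t ∂(volume.restrict (Icc (0:ℝ) 1)), (f t - TD η D (f t)) s = 0) →
      McS (fun t => f t - TD η D (f t))) : McS f := by
  have hmeas : ∀ s : KK η,
      AEStronglyMeasurable (fun t => f t s) (volume.restrict (Icc (0:ℝ) 1)) := fun s =>
    (hf.1 (ContinuousMap.evalCLM ℝ s)).aestronglyMeasurable
  obtain ⟨D, hD, hDs⟩ := Supp.exists_countable_support η hη f hmeas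
  have h1 : McS (fun t => TD η D (f t)) :=
    Sep.sep_mcshane _ (pettis_comp (TD η D) f hf)
      ((isSeparable_range_TD η D hD).mono (by rintro _ ⟨t, rfl⟩; exact ⟨f t, rfl⟩))
  have h2 := h D hD fun s => by
    filter_upwards [hDs s] with t ht
    rw [ContinuousMap.sub_apply, TD_apply, ← ht, sub_self]
  have h3 := mcs_add h2 h1
  simpa using h3

/-- The positive answer to the question (the statement S03719). -/
def PositiveAnswer : Prop :=
  ∃ (K : Type) (_ : TopologicalSpace K) (_ : CompactSpace K) (_ : T2Space K),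
    (∃ (X : Type) (_ : NormedAddCommGroup X) (_ : NormedSpace ℝ X) (_ : CompleteSpace X)
        (e : K → WeakSpace ℝ X), Topology.IsEmbedding e) ∧
    (¬ ∃ (H : Type) (_ : NormedAddCommGroup H) (_ : InnerProductSpace ℝ H) (_ : CompleteSpace H)
        (e : K → WeakSpace ℝ H), Topology.IsEmbedding e) ∧
    ∀ f : ℝ → C(K, ℝ),
      ((∀ φ : C(K, ℝ) →L[ℝ] ℝ,
          MeasureTheory.IntegrableOn (fun t => φ (f t)) (Set.Icc (0:ℝ) 1)) ∧
       (∀ A : Set ℝ, MeasurableSet A → A ⊆ Set.Icc (0:ℝ) 1 →
          ∃ x : C(K, ℝ), ∀ φ : C(K, ℝ) →L[ℝ] ℝ, φ x = ∫ t in A, φ (f t))) →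
      BoxIntegral.Integrable
        (⟨fun _ => (0:ℝ), fun _ => (1:ℝ), fun _ => (zero_lt_one : (0:ℝ) < 1)⟩ :
          BoxIntegral.Box (Fin 1))
        BoxIntegral.IntegrationParams.McShane (fun x => f (x 0))
        BoxIntegral.BoxAdditiveMap.volume

/-- General form: `Γ` is not sigma-discrete, but every subset of cardinality at most the
continuum is. -/
theorem positive_of_small (η : Γ → ℕ → β) (hη : Function.Injective η) (h0 : ¬ SD η univ)
    (hsmall : ∀ u : Set ℕ → Γ, SD η (range u)) : PositiveAnswer := by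
  classical
  have hne : Nonempty Γ := by
    by_contra hem
    rw [not_nonempty_iff] at hem
    exact h0 ⟨fun _ => 0, fun x => (hem.false x).elim⟩
  refine ⟨KK η, inferInstance, inferInstance, inferInstance, Eber.eberlein η hη,
    NoHilb.no_hilbert η hη h0, fun f hf => ?_⟩
  refine mcs_of_null η hη f hf fun D hD hnull => ?_
  choose C hC hCs using fun t => exists_supp η (f t)
  -- a set of size at most the continuum which supports everything
  obtain ⟨u, hu⟩ : ∃ u : Set ℕ → Γ, D ∪ ⋃ t, C t ⊆ range u := by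
    have h1 : Cardinal.mk (D ∪ ⋃ t, C t : Set Γ) ≤ Cardinal.mk (Set ℕ) := by
      have hcont : Cardinal.mk (Set ℕ) = Cardinal.continuum := by simp
      rw [hcont]
      refine (Cardinal.mk_union_le _ _).trans (Cardinal.add_le_of_le Cardinal.aleph0_le_continuum
        ((Cardinal.le_aleph0_iff_set_countable.2 hD).trans Cardinal.aleph0_le_continuum) ?_)
      refine (Cardinal.mk_iUnion_le_sum_mk).trans ?_
      refine (Cardinal.sum_le_sum _ (fun _ => Cardinal.aleph0) fun t =>
        Cardinal.le_aleph0_iff_set_countable.2 (hC t)).trans ?_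
      rw [Cardinal.sum_const', Cardinal.mk_real]
      exact (Cardinal.mul_le_max_of_aleph0_le_left Cardinal.aleph0_le_continuum).trans
        (max_le le_rfl Cardinal.aleph0_le_continuum)
    obtain ⟨v, hv⟩ := Cardinal.le_def _ _ |>.1 h1
    refine ⟨fun A => if h : ∃ x, v x = A then h.choose.1 else Classical.arbitrary Γ,
      fun x hx => ⟨v ⟨x, hx⟩, ?_⟩⟩
    have h : ∃ y, v y = v ⟨x, hx⟩ := ⟨⟨x, hx⟩, rfl⟩
    simp only
    rw [dif_pos h]
    exact congrArg Subtype.val (hv h.choose_spec)
  have hf' : ∀ t s, f t s = f t (restr η (range u) s) := fun t s => by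
    refine hCs t _ _ fun x hx => ?_
    have hxu : x ∈ range u := hu (Or.inr (mem_iUnion.2 ⟨t, hx⟩))
    exact (if_pos hxu).symm
  refine Null.null_mcshane η (range u) (hsmall u) _ (fun t _ s => ?_) hnull
  rw [ContinuousMap.sub_apply, ContinuousMap.sub_apply, TD_apply, TD_apply, ← hf' t s,
    hf' t (restr η D s), restr_restr, restr_restr, inter_comm]

/-- The form which is forced: a set `S` which is not sigma-discrete, in a linear order in which
every function from the power set of `ℕ` is bounded, with sigma-discrete initial segments. -/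
theorem positive_of_nonReflecting {Θ : Type} [LinearOrder Θ] (η : Θ → ℕ → β)
    (hη : Function.Injective η) (hb : ∀ g : Set ℕ → Θ, ∃ γ, ∀ A, g A < γ) (S : Set Θ)
    (h1 : ∀ γ, SD η (S ∩ Iio γ)) (h2 : ¬ SD η S) : PositiveAnswer := by
  classical
  refine positive_of_small (fun x : S => η x.1) (fun x y h => Subtype.ext (hη h)) ?_ ?_
  · rintro ⟨c, hc⟩
    refine h2 ⟨fun x => if h : x ∈ S then c ⟨x, h⟩ else 0, fun x hx y hy hxy hcc => ?_⟩
    simp only [dif_pos hx, dif_pos hy] at hcc ⊢
    exact hc ⟨x, hx⟩ (mem_univ _) ⟨y, hy⟩ (mem_univ _) (fun h => hxy (congrArg Subtype.val h)) hcc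
  · intro u
    obtain ⟨γ, hγ⟩ := hb fun A => (u A).1
    obtain ⟨c, hc⟩ := h1 γ
    refine ⟨fun x => c x.1, ?_⟩
    rintro _ ⟨A, rfl⟩ _ ⟨B, rfl⟩ hxy hcc
    exact hc _ ⟨(u A).2, hγ A⟩ _ ⟨(u B).2, hγ B⟩ (fun h => hxy (Subtype.ext h)) hcc

/-- A set of `0`-`1` sequences is sigma-discrete only if it is countable. -/
theorem countable_of_sd {T : Set (ℕ → Bool)} (h : SD (fun x : T => x.1) univ) : T.Countable := by
  obtain ⟨c, hc⟩ := h
  rw [← countable_coe_iff, ← countable_univ_iff]
  have h1 : (univ : Set T) = ⋃ n, {x : T | c x = n} := by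
    ext x; simp
  rw [h1]
  refine countable_iUnion fun n => Finite.countable ?_
  have hinj : InjOn (fun (x : T) (k : Fin n) => x.1 k) {x : T | c x = n} := by
    intro x hx y hy hxy
    by_contra hne
    obtain ⟨k, hk, hk'⟩ := hc x (mem_univ _) y (mem_univ _) hne (hx.trans hy.symm)
    rw [show c x = n from hx] at hk
    exact hk' (congrFun hxy ⟨k, hk⟩)
  exact Finite.of_finite_image (toFinite _) hinj

/-- If the union of any `ℵ₁` null sets of reals is null, then the answer is positive. -/
theorem positive_of_add (hadd : ∀ (I : Type) (N : I → Set ℝ), Cardinal.mk I ≤ Cardinal.aleph 1 →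
    (∀ i, volume (N i) = 0) → volume (⋃ i, N i) = 0) : PositiveAnswer := by
  classical
  obtain ⟨T, hT⟩ : ∃ T : Set (ℕ → Bool), Cardinal.mk T = Cardinal.aleph 1 := by
    have h : Cardinal.aleph 1 ≤ Cardinal.mk (ℕ → Bool) := by
      have : Cardinal.mk (ℕ → Bool) = Cardinal.continuum := by simp
      rw [this]
      exact Cardinal.aleph_one_le_continuum
    exact Cardinal.le_mk_iff_exists_set.1 h
  let η : T → ℕ → Bool := fun x => x.1
  have hη : Function.Injective η := Subtype.val_injective
  have h0 : ¬ SD η univ := by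
    intro h
    have h1 := countable_of_sd h
    rw [← Cardinal.le_aleph0_iff_set_countable, hT] at h1
    exact absurd h1 (not_le.2 Cardinal.aleph0_lt_aleph_one)
  refine ⟨KK η, inferInstance, inferInstance, inferInstance, Eber.eberlein η hη,
    NoHilb.no_hilbert η hη h0, fun f hf => ?_⟩
  refine mcs_of_null η hη f hf fun D _ hnull => ?_
  -- there are at most `ℵ₁` points
  have hcard : Cardinal.mk (KK η) ≤ Cardinal.aleph 1 := by
    have h1 : Cardinal.mk (KK η) ≤ Cardinal.mk (Finset T) := by
      refine Cardinal.mk_le_of_injective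
        (f := fun s : KK η => (Supp.supp_fin η hη s).toFinset) fun s s' h => ?_
      refine Subtype.ext (funext fun x => ?_)
      have h2 : x ∈ (Supp.supp_fin η hη s).toFinset ↔ x ∈ (Supp.supp_fin η hη s').toFinset := by
        rw [show (Supp.supp_fin η hη s).toFinset = (Supp.supp_fin η hη s').toFinset from h]
      simp only [Finite.mem_toFinset, mem_setOf_eq] at h2
      exact Bool.eq_iff_iff.2 h2
    haveI : Infinite T := by
      rw [Cardinal.infinite_iff, hT]
      exact Cardinal.aleph0_le_aleph 1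
    rw [Cardinal.mk_finset_of_infinite, hT] at h1
    exact h1
  have hN := hadd (KK η) (fun s => {t | t ∈ Icc (0:ℝ) 1 ∧ (f t - TD η D (f t)) s ≠ 0}) hcard
    (fun s => by
      have h3 := hnull s
      rw [ae_iff, Measure.restrict_apply' measurableSet_Icc] at h3
      refine measure_mono_null ?_ h3
      rintro t ⟨ht1, ht2⟩
      exact ⟨ht2, ht1⟩)
  refine ⟨0, BoxIntegral.HasIntegral.of_aeEq_zero ?_ rfl⟩
  have hp := (MeasureTheory.volume_preserving_funUnique (Fin 1) ℝ).quasiMeasurePreserving
  have hN' := hp.preimage_null hN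
  rw [Filter.EventuallyEq, ae_iff]
  rw [Measure.restrict_apply' (BoxIntegral.Box.measurableSet_coe _)]
  refine measure_mono_null ?_ hN'
  rintro x ⟨hx1, hx2⟩
  have hx3 : ¬ (f (x 0) - TD η D (f (x 0))) = 0 := hx1
  obtain ⟨s, hs⟩ : ∃ s, (f (x 0) - TD η D (f (x 0))) s ≠ 0 := by
    by_contra hcon
    push Not at hcon
    exact hx3 (ContinuousMap.ext hcon)
  have hx4 := hx2 (0 : Fin 1)
  refine mem_iUnion.2 ⟨s, ⟨?_, ?_⟩, hs⟩
  · exact le_of_lt hx4.1
  · exact hx4.2

end Pool.Agent.Helper937.Mcs
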