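import Pool.Agent.Helper937.McsDef

set_option autoImplicit false

namespace Pool.Agent.Helper937.Mcs

open MeasureTheory Set

namespace Sep


open MeasureTheory Set

theorem sep_mcshane_dual_le {E : Type} [NormedAddCommGroup E] [NormedSpace ℝ E] {v : E} {r : ℝ}
    (h : ∀ φ : E →L[ℝ] ℝ, ‖φ‖ ≤ 1 → φ v ≤ r) : ‖v‖ ≤ r := by
  obtain ⟨φ, h1, h2⟩ := exists_dual_vector'' ℝ v
  have := h φ h1
  rw [h2] at this
  exact this

theorem sep_mcshane_conv_sum {E : Type} [NormedAddCommGroup E] [NormedSpace ℝ E] (y : ℕ → E) (t : Finset ℕ)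
    (θ : ℕ → ℝ) (h0 : ∀ n, 0 ≤ θ n) (h1 : ∀ n, θ n ≤ 1) (ε : ℝ)
    (h : ∀ t' ⊆ t, ‖∑ n ∈ t', y n‖ ≤ ε) : ‖∑ n ∈ t, θ n • y n‖ ≤ ε := by
  classical
  refine sep_mcshane_dual_le fun φ hφ => ?_
  rw [map_sum]
  calc ∑ n ∈ t, φ (θ n • y n) ≤ ∑ n ∈ t, (if 0 < φ (y n) then φ (y n) else 0) := by
        refine Finset.sum_le_sum fun n _ => ?_
        rw [map_smul, smul_eq_mul]
        split_ifs with hn
        · nlinarith [h0 n, h1 n]
        · nlinarith [h0 n, h1 n, not_lt.mp hn]
    _ = ∑ n ∈ t with 0 < φ (y n), φ (y n) := by rw [Finset.sum_filter]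
    _ = φ (∑ n ∈ t with 0 < φ (y n), y n) := by rw [map_sum]
    _ ≤ ‖φ (∑ n ∈ t with 0 < φ (y n), y n)‖ := le_abs_self _
    _ ≤ ‖φ‖ * ‖∑ n ∈ t with 0 < φ (y n), y n‖ := φ.le_opNorm _
    _ ≤ 1 * ε := mul_le_mul hφ (h _ (Finset.filter_subset _ _)) (norm_nonneg _) zero_le_one
    _ = ε := one_mul ε

theorem sep_mcshane_est {E : Type} [NormedAddCommGroup E] [NormedSpace ℝ E] (x : ℕ → E) (m η c : ℕ → ℝ)
    (N : ℕ) (s : Finset ℕ) (V ε δ : ℝ) (hm : ∀ n, 0 ≤ m n) (hc : ∀ n, 0 ≤ c n)
    (hη : ∀ n, 0 ≤ η n) (hcm : ∀ n, c n ≤ m n + η n) (hcV : ∑ n ∈ Finset.range N, c n = V)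
    (hmV : ∑ n ∈ Finset.range N, m n ≤ V) (hηδ : ∑ n ∈ Finset.range N, η n ≤ δ)
    (hηx : ∑ n ∈ Finset.range N, η n * ‖x n‖ ≤ ε) (hδx : δ * ∑ n ∈ s, ‖x n‖ ≤ ε)
    (hs : s ⊆ Finset.range N)
    (hvan : ∀ t : Finset ℕ, Disjoint t s → ‖∑ n ∈ t, m n • x n‖ ≤ ε) :
    ‖∑ n ∈ Finset.range N, c n • x n - ∑ n ∈ Finset.range N, m n • x n‖ ≤ 3 * ε := by
  classical
  have hδ : 0 ≤ δ := (Finset.sum_nonneg fun n _ => hη n).trans hηδ
  have habs : ∀ n ∈ Finset.range N, |c n - m n| ≤ δ := by
    intro n hn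
    have h1 : η n ≤ δ := (Finset.single_le_sum (fun k _ => hη k) hn).trans hηδ
    rw [abs_le]
    constructor
    · have h2 : ∑ k ∈ (Finset.range N).erase n, c k ≤
          ∑ k ∈ (Finset.range N).erase n, (m k + η k) := Finset.sum_le_sum fun k _ => hcm k
      have h3 := Finset.add_sum_erase (Finset.range N) c hn
      have h4 := Finset.add_sum_erase (Finset.range N) (fun k => m k + η k) hn
      have h6 : ∑ k ∈ Finset.range N, (m k + η k) =
          ∑ k ∈ Finset.range N, m k + ∑ k ∈ Finset.range N, η k := Finset.sum_add_distrib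
      have h5 := hη n
      linarith
    · linarith [hcm n]
  rw [← Finset.sum_sub_distrib]
  have e1 : ∑ n ∈ Finset.range N, (c n • x n - m n • x n) =
      ∑ n ∈ s, (c n - m n) • x n + ∑ n ∈ Finset.range N \ s, (c n - m n) • x n := by
    rw [add_comm, Finset.sum_sdiff hs]
    exact Finset.sum_congr rfl fun n _ => (sub_smul _ _ _).symm
  let θ : ℕ → ℝ := fun n => max (m n - c n) 0 / m n
  have hθ0 : ∀ n, 0 ≤ θ n := fun n => div_nonneg (le_max_right _ _) (hm n)
  have hθ1 : ∀ n, θ n ≤ 1 := fun n =>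
    div_le_one_of_le₀ (max_le (by linarith [hc n]) (hm n)) (hm n)
  have hθm : ∀ n, θ n * m n = max (m n - c n) 0 := by
    intro n
    rcases (hm n).eq_or_lt with h | h
    · simp only [← h, mul_zero]
      exact (max_eq_right (by linarith [hc n])).symm
    · exact div_mul_cancel₀ _ h.ne'
  have e2 : ∑ n ∈ Finset.range N \ s, (c n - m n) • x n =
      ∑ n ∈ Finset.range N \ s, (max (c n - m n) 0) • x n -
      ∑ n ∈ Finset.range N \ s, θ n • (m n • x n) := by
    rw [← Finset.sum_sub_distrib]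
    refine Finset.sum_congr rfl fun n _ => ?_
    rw [smul_smul, hθm, ← sub_smul]
    congr 1
    rcases le_total (c n) (m n) with h | h
    · rw [max_eq_right (by linarith), max_eq_left (by linarith)]; ring
    · rw [max_eq_left (by linarith), max_eq_right (by linarith)]; ring
  have b1 : ‖∑ n ∈ s, (c n - m n) • x n‖ ≤ ε := by
    refine (norm_sum_le_of_le s (f := fun n => (c n - m n) • x n) (n := fun n => δ * ‖x n‖)
      fun n hn => ?_).trans ?_
    · rw [norm_smul, Real.norm_eq_abs]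
      exact mul_le_mul_of_nonneg_right (habs n (hs hn)) (norm_nonneg _)
    · rw [← Finset.mul_sum]; exact hδx
  have b2 : ‖∑ n ∈ Finset.range N \ s, (max (c n - m n) 0) • x n‖ ≤ ε := by
    refine (norm_sum_le_of_le _ (f := fun n => (max (c n - m n) 0) • x n)
      (n := fun n => η n * ‖x n‖) fun n hn => ?_).trans ?_
    · rw [norm_smul, Real.norm_eq_abs, abs_of_nonneg (le_max_right _ _)]
      exact mul_le_mul_of_nonneg_right (max_le (by linarith [hcm n]) (hη n)) (norm_nonneg _)
    · refine (Finset.sum_le_sum_of_subset_of_nonneg Finset.sdiff_subset fun n _ _ =>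
        mul_nonneg (hη n) (norm_nonneg _)).trans hηx
  have b3 : ‖∑ n ∈ Finset.range N \ s, θ n • (m n • x n)‖ ≤ ε := by
    refine sep_mcshane_conv_sum _ _ θ hθ0 hθ1 ε fun t' ht' => hvan t' ?_
    exact Finset.disjoint_of_subset_left ht' Finset.sdiff_disjoint
  rw [e1, e2]
  calc _ ≤ ‖∑ n ∈ s, (c n - m n) • x n‖ + ‖∑ n ∈ Finset.range N \ s, (max (c n - m n) 0) • x n -
      ∑ n ∈ Finset.range N \ s, θ n • (m n • x n)‖ := norm_add_le _ _
    _ ≤ ‖∑ n ∈ s, (c n - m n) • x n‖ + (‖∑ n ∈ Finset.range N \ s, (max (c n - m n) 0) • x n‖ +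
      ‖∑ n ∈ Finset.range N \ s, θ n • (m n • x n)‖) := by gcongr; exact norm_sub_le _ _
    _ ≤ 3 * ε := by linarith

open BoxIntegral in
theorem sep_mcshane_countable_mcs {ι : Type} [Fintype ι] {E : Type} [NormedAddCommGroup E] [NormedSpace ℝ E]
    (I : BoxIntegral.Box ι) (l : BoxIntegral.IntegrationParams) (hl : l.bRiemann = false)
    (μ : Measure (ι → ℝ)) [IsLocallyFiniteMeasure μ] (ν : (ι → ℝ) → ℕ) (hν : Measurable ν)
    (x : ℕ → E) (Z : E) (hZ : HasSum (fun n => μ.real (ν ⁻¹' {n} ∩ I) • x n) Z) :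
    BoxIntegral.HasIntegral I l (fun p => x (ν p)) μ.toBoxAdditive.toSMul Z := by
  classical
  refine HasIntegral.of_mul 4 fun ε hε => ?_
  have hfm : IsFiniteMeasure (μ.restrict I) := ⟨by
    rw [Measure.restrict_apply_univ]; exact I.measure_coe_lt_top μ⟩
  set m : ℕ → ℝ := fun n => μ.real (ν ⁻¹' {n} ∩ I) with hmdef
  have hm : ∀ n, 0 ≤ m n := fun n => measureReal_nonneg
  have hmeas : ∀ n, MeasurableSet (ν ⁻¹' {n}) := fun n => hν (measurableSet_singleton n)
  -- the finite set
  obtain ⟨s, hs⟩ : ∃ s : Finset ℕ, ∀ t : Finset ℕ, s ⊆ t → ‖∑ n ∈ t, m n • x n - Z‖ ≤ ε / 2 := by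
    have h1 := (Metric.tendsto_atTop.mp hZ) (ε / 2) (by positivity)
    obtain ⟨s, hs⟩ := h1
    exact ⟨s, fun t ht => by
      have := hs t ht
      rw [dist_eq_norm] at this
      exact this.le⟩
  have hvan : ∀ t : Finset ℕ, Disjoint t s → ‖∑ n ∈ t, m n • x n‖ ≤ ε := by
    intro t ht
    have h1 := hs (t ∪ s) Finset.subset_union_right
    have h2 := hs s subset_rfl
    rw [Finset.sum_union ht] at h1
    have h3 : ∑ n ∈ t, m n • x n = (∑ n ∈ t, m n • x n + ∑ n ∈ s, m n • x n - Z) -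
      (∑ n ∈ s, m n • x n - Z) := by abel
    rw [h3]
    linarith [norm_sub_le (∑ n ∈ t, m n • x n + ∑ n ∈ s, m n • x n - Z)
      (∑ n ∈ s, m n • x n - Z)]
  -- the numbers
  set K : ℝ := 1 + ∑ n ∈ s, ‖x n‖ with hK
  have hK1 : 1 ≤ K := by
    rw [hK]
    linarith [Finset.sum_nonneg (s := s) (f := fun n => ‖x n‖) fun n _ => norm_nonneg _]
  set δ : ℝ := ε / K with hδ
  have hδ0 : 0 < δ := by positivity
  have hδε : δ ≤ ε := div_le_self hε.le hK1
  set η : ℕ → ℝ := fun n => δ * ((1 / 2) ^ (n + 1)) / (1 + ‖x n‖) with hη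
  have hη0 : ∀ n, 0 < η n := fun n => by
    have := norm_nonneg (x n)
    simp only [hη]; positivity
  have hgeom : ∀ N, ∑ n ∈ Finset.range N, ((1 / 2 : ℝ) ^ (n + 1)) ≤ 1 := by
    intro N
    have h1 : ∑ n ∈ Finset.range N, ((1 / 2 : ℝ) ^ (n + 1)) = 1 - (1 / 2) ^ N := by
      induction N with
      | zero => simp
      | succ N ih => rw [Finset.sum_range_succ, ih]; ring
    rw [h1]
    have : (0 : ℝ) ≤ (1 / 2) ^ N := by positivity
    linarith
  have hη1 : ∀ n, η n ≤ δ * ((1 / 2) ^ (n + 1)) := fun n => by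
    have := norm_nonneg (x n)
    exact div_le_self (by positivity) (by linarith)
  have hη2 : ∀ n, η n * ‖x n‖ ≤ δ * ((1 / 2) ^ (n + 1)) := fun n => by
    have := norm_nonneg (x n)
    simp only [hη]
    rw [div_mul_eq_mul_div, div_le_iff₀ (by positivity)]
    apply mul_le_mul_of_nonneg_left _ (by positivity)
    linarith
  have hηδ : ∀ N, ∑ n ∈ Finset.range N, η n ≤ δ := fun N => by
    calc ∑ n ∈ Finset.range N, η n ≤ ∑ n ∈ Finset.range N, δ * ((1 / 2) ^ (n + 1)) :=
          Finset.sum_le_sum fun n _ => hη1 n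
      _ = δ * ∑ n ∈ Finset.range N, ((1 / 2 : ℝ) ^ (n + 1)) := by rw [Finset.mul_sum]
      _ ≤ δ * 1 := mul_le_mul_of_nonneg_left (hgeom N) hδ0.le
      _ = δ := mul_one δ
  have hηx : ∀ N, ∑ n ∈ Finset.range N, η n * ‖x n‖ ≤ ε := fun N => by
    calc ∑ n ∈ Finset.range N, η n * ‖x n‖ ≤ ∑ n ∈ Finset.range N, δ * ((1 / 2) ^ (n + 1)) :=
          Finset.sum_le_sum fun n _ => hη2 n
      _ = δ * ∑ n ∈ Finset.range N, ((1 / 2 : ℝ) ^ (n + 1)) := by rw [Finset.mul_sum]
      _ ≤ δ * 1 := mul_le_mul_of_nonneg_left (hgeom N) hδ0.le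
      _ ≤ ε := by linarith
  have hδx : δ * ∑ n ∈ s, ‖x n‖ ≤ ε := by
    have h1 : δ * K = ε := div_mul_cancel₀ _ (by linarith)
    nlinarith [h1, hδ0]
  -- the open sets
  have hU : ∀ n, ∃ U : Set (ι → ℝ), ν ⁻¹' {n} ⊆ U ∧ IsOpen U ∧
      (μ.restrict I) U < (μ.restrict I) (ν ⁻¹' {n}) + ENNReal.ofReal (η n) := by
    intro n
    refine (ν ⁻¹' {n}).exists_isOpen_lt_of_lt _ ?_
    exact ENNReal.lt_add_right (measure_ne_top _ _) (ENNReal.ofReal_pos.mpr (hη0 n)).ne'
  choose U hνU hUo hμU using hU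
  have hr : ∀ p, ∃ r : Ioi (0 : ℝ), Metric.closedBall p r ⊆ U (ν p) := fun p => by
    obtain ⟨r, hr₀, hr⟩ := Metric.nhds_basis_closedBall.mem_iff.1
      ((hUo _).mem_nhds (hνU (ν p) rfl))
    exact ⟨⟨r, hr₀⟩, hr⟩
  choose r hrU using hr
  refine ⟨fun _ => r, fun c => l.rCond_of_bRiemann_eq_false hl, fun c' π hπ hπp => ?_⟩
  set g : Box ι → ℕ := fun J => ν (π.tag J) with hg
  set c : ℕ → ℝ := fun n => ∑ J ∈ π.boxes.filter (fun J => g J = n), μ.real (J : Set (ι → ℝ))
    with hc
  obtain ⟨N, hN⟩ : ∃ N : ℕ, s ⊆ Finset.range N ∧ ∀ J ∈ π.boxes, g J ∈ Finset.range N := by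
    obtain ⟨N1, hN1⟩ := s.exists_nat_subset_range
    obtain ⟨N2, hN2⟩ := (π.boxes.image g).exists_nat_subset_range
    refine ⟨max N1 N2, fun n hn => ?_, fun J hJ => ?_⟩
    · exact Finset.mem_range.mpr (lt_of_lt_of_le (Finset.mem_range.mp (hN1 hn)) (le_max_left _ _))
    · exact Finset.mem_range.mpr (lt_of_lt_of_le
        (Finset.mem_range.mp (hN2 (Finset.mem_image_of_mem g hJ))) (le_max_right _ _))
  have hsum : integralSum (fun p => x (ν p)) μ.toBoxAdditive.toSMul π =
      ∑ n ∈ Finset.range N, c n • x n := by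
    have h1 : integralSum (fun p => x (ν p)) μ.toBoxAdditive.toSMul π =
        ∑ J ∈ π.boxes, μ.real (J : Set (ι → ℝ)) • x (g J) := rfl
    rw [h1, ← Finset.sum_fiberwise_of_maps_to hN.2]
    refine Finset.sum_congr rfl fun n _ => ?_
    rw [hc, Finset.sum_smul]
    refine Finset.sum_congr rfl fun J hJ => ?_
    rw [(Finset.mem_filter.mp hJ).2]
  have hcV : ∑ n ∈ Finset.range N, c n = μ.real I := by
    rw [hc, Finset.sum_fiberwise_of_maps_to hN.2,
      ← π.toPrepartition.measure_iUnion_toReal μ]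
    congr 1
    exact hπp.iUnion_eq
  have hmV : ∑ n ∈ Finset.range N, m n ≤ μ.real I := by
    have hbU : μ.real (⋃ n ∈ Finset.range N, (ν ⁻¹' {n} ∩ I)) = ∑ n ∈ Finset.range N, m n := by
      refine measureReal_biUnion_finset ?_ ?_ ?_
      · intro a _ b _ hab
        refine Set.disjoint_left.mpr fun p hp hq => hab ?_
        exact hp.1.symm.trans hq.1
      · exact fun n _ => (hmeas n).inter I.measurableSet_coe
      · exact fun n _ => ((measure_mono inter_subset_right).trans_lt (I.measure_coe_lt_top μ)).ne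
    rw [← hbU]
    refine measureReal_mono ?_ (I.measure_coe_lt_top μ).ne
    exact iUnion₂_subset fun n _ => inter_subset_right
  have hcm : ∀ n, c n ≤ m n + η n := by
    intro n
    have h1 : c n = μ.real (⋃ J ∈ π.boxes.filter (fun J => g J = n), (J : Set (ι → ℝ))) := by
      refine (measureReal_biUnion_finset ?_ ?_ ?_).symm
      · exact Set.PairwiseDisjoint.subset π.pairwiseDisjoint
          (Finset.coe_subset.mpr (Finset.filter_subset _ _))
      · exact fun J _ => J.measurableSet_coe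
      · exact fun J _ => (J.measure_coe_lt_top μ).ne
    have h2 : (⋃ J ∈ π.boxes.filter (fun J => g J = n), (J : Set (ι → ℝ))) ⊆ U n ∩ I := by
      refine iUnion₂_subset fun J hJ => ?_
      obtain ⟨hJ1, hJ2⟩ := Finset.mem_filter.mp hJ
      intro p hp
      refine ⟨?_, π.le_of_mem' J hJ1 hp⟩
      have h3 := hrU (π.tag J) (hπ.1 J hJ1 (Box.coe_subset_Icc hp))
      have h4 : ν (π.tag J) = n := hJ2
      rwa [h4] at h3
    have h3 : μ (U n ∩ I) ≤ ENNReal.ofReal (m n + η n) := by
      have h4 := (hμU n).le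
      rw [Measure.restrict_apply (hUo n).measurableSet, Measure.restrict_apply (hmeas n)] at h4
      rw [ENNReal.ofReal_add (hm n) (hη0 n).le]
      refine h4.trans (le_of_eq ?_)
      congr 1
      exact (ofReal_measureReal
        ((measure_mono inter_subset_right).trans_lt (I.measure_coe_lt_top μ)).ne).symm
    rw [h1]
    exact ENNReal.toReal_le_of_le_ofReal (add_nonneg (hm n) (hη0 n).le)
      ((measure_mono h2).trans h3)
  have hc0 : ∀ n, 0 ≤ c n := fun n => Finset.sum_nonneg fun J _ => measureReal_nonneg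
  have hest := sep_mcshane_est x m η c N s (μ.real I) ε δ hm hc0 (fun n => (hη0 n).le) hcm hcV hmV (hηδ N)
    (hηx N) hδx hN.1 hvan
  have hZ' := hs (Finset.range N) hN.1
  rw [hsum, dist_eq_norm]
  have e1 : ∑ n ∈ Finset.range N, c n • x n - Z =
      (∑ n ∈ Finset.range N, c n • x n - ∑ n ∈ Finset.range N, m n • x n) +
      (∑ n ∈ Finset.range N, m n • x n - Z) := by abel
  rw [e1]
  refine (norm_add_le _ _).trans ?_
  linarith

theorem sep_mcshane_orlicz_pettis {E : Type} [NormedAddCommGroup E] [NormedSpace ℝ E] [CompleteSpace E]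
    (y : ℕ → E) (h : ∀ C : Set ℕ, ∃ s : E, ∀ φ : E →L[ℝ] ℝ,
      HasSum (C.indicator fun n => φ (y n)) (φ s)) : Summable y := by
  classical
  choose S hS using h
  have habs : ∀ φ : E →L[ℝ] ℝ, Summable fun n => ‖φ (y n)‖ := by
    intro φ
    have h1 := (hS univ φ).summable
    rw [indicator_univ] at h1
    exact h1.norm
  -- finite sums
  have hfin : ∀ (C C' : Set ℕ) (t : Finset ℕ), Disjoint C' (t : Set ℕ) → C = C' ∪ t →
      S C - S C' = ∑ n ∈ t, y n := by
    intro C C' t hd hC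
    refine (SeparatingDual.eq_iff_forall_dual_eq (R := ℝ)).2 fun φ => ?_
    have h1 := (hS C φ).sub (hS C' φ)
    have h2 : HasSum (fun n => C.indicator (fun n => φ (y n)) n -
        C'.indicator (fun n => φ (y n)) n) (∑ n ∈ t, φ (y n)) := by
      have h3 : ∀ n, C.indicator (fun n => φ (y n)) n - C'.indicator (fun n => φ (y n)) n =
          if n ∈ t then φ (y n) else 0 := by
        intro n
        subst hC
        by_cases hn : n ∈ t
        · have hn' : n ∉ C' := fun hc => Set.disjoint_left.mp hd hc hn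
          simp [hn, hn']
        · by_cases hc : n ∈ C' <;> simp [hn, hc]
      simp only [h3]
      have h4 : HasSum (fun n => if n ∈ t then φ (y n) else 0)
          (∑ n ∈ t, if n ∈ t then φ (y n) else 0) :=
        hasSum_sum_of_ne_finset_zero (fun n hn => if_neg hn)
      convert h4 using 1
      exact Finset.sum_congr rfl fun n hn => (if_pos hn).symm
    have h3 := h1.unique h2
    rw [map_sub, map_sum]
    exact h3
  -- the closed span
  set Y : Set E := closure (Submodule.span ℝ (range y) : Set E) with hY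
  have hYsep : TopologicalSpace.IsSeparable Y := by
    have : TopologicalSpace.IsSeparable (range y) := (countable_range y).isSeparable
    exact (this.span (R := ℝ)).closure
  have hYc : Convex ℝ Y := (Submodule.convex _).closure
  have hSY : ∀ C, S C ∈ Y := by
    intro C
    by_contra hcon
    obtain ⟨φ, u, h1, h2⟩ := geometric_hahn_banach_closed_point hYc isClosed_closure hcon
    have h3 : φ (S C) ≤ u := by
      refine le_of_tendsto (hS C φ) (Filter.Eventually.of_forall fun t => ?_)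
      have h4 : ∑ n ∈ t, C.indicator (fun n => φ (y n)) n = φ (∑ n ∈ t, C.indicator y n) := by
        rw [map_sum]
        refine Finset.sum_congr rfl fun n _ => ?_
        by_cases hn : n ∈ C <;> simp [hn]
      rw [h4]
      refine (h1 _ (subset_closure ?_)).le
      refine Submodule.sum_mem _ fun n _ => ?_
      by_cases hn : n ∈ C
      · rw [indicator_of_mem hn]; exact Submodule.subset_span (mem_range_self n)
      · rw [indicator_of_notMem hn]; exact zero_mem _
    exact absurd h2 (not_lt.mpr h3)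
  rw [summable_iff_vanishing_norm]
  intro ε hε
  obtain ⟨T, hTY, hTc, hYT⟩ := hYsep.exists_countable_dense_subset
  have hTne : T.Nonempty := by
    have h0 : S ∅ ∈ closure T := hYT (hSY ∅)
    rcases T.eq_empty_or_nonempty with rfl | h
    · simp at h0
    · exact h
  obtain ⟨z, hz⟩ := hTc.exists_eq_range hTne
  have hε3 : 0 < ε / 3 := by positivity
  let F : ℕ → Set (ℕ → Bool) := fun m => {c | ‖S {n | c n = true} - z m‖ ≤ ε / 3}
  have hFcl : ∀ m, IsClosed (F m) := by
    intro m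
    have : F m = ⋂ φ : {φ : E →L[ℝ] ℝ // ‖φ‖ ≤ 1},
        {c | φ.1 (S {n | c n = true}) - φ.1 (z m) ≤ ε / 3} := by
      ext c
      simp only [mem_iInter, F, mem_setOf_eq]
      constructor
      · intro h φ
        rw [← map_sub]
        calc φ.1 (S {n | c n = true} - z m) ≤ ‖φ.1 (S {n | c n = true} - z m)‖ := le_abs_self _
          _ ≤ ‖φ.1‖ * ‖S {n | c n = true} - z m‖ := φ.1.le_opNorm _
          _ ≤ 1 * (ε / 3) := mul_le_mul φ.2 h (norm_nonneg _) zero_le_one
          _ = ε / 3 := one_mul _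
      · intro h
        refine sep_mcshane_dual_le fun φ hφ => ?_
        rw [map_sub]
        exact h ⟨φ, hφ⟩
    rw [this]
    refine isClosed_iInter fun φ => isClosed_le ?_ continuous_const
    refine Continuous.sub ?_ continuous_const
    have h1 : (fun c : ℕ → Bool => φ.1 (S {n | c n = true})) =
        fun c => ∑' n, (if c n = true then φ.1 (y n) else 0) := by
      funext c
      have := (hS {n | c n = true} φ.1).tsum_eq
      rw [← this]
      refine tsum_congr fun n => ?_
      simp [indicator]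
    rw [h1]
    refine continuous_tsum (u := fun n => ‖φ.1 (y n)‖) (fun n => ?_) (habs φ.1) fun n c => ?_
    · have h2 : Continuous fun b : Bool => if b = true then φ.1 (y n) else 0 := by
        exact continuous_of_discreteTopology
      exact h2.comp (continuous_apply n)
    · split_ifs
      · exact le_rfl
      · simp
  have hFU : ⋃ m, F m = univ := by
    refine eq_univ_of_forall fun c => ?_
    have h1 : S {n | c n = true} ∈ closure (range z) := hz ▸ hYT (hSY _)
    obtain ⟨w, ⟨m, rfl⟩, hm⟩ := Metric.mem_closure_iff.mp h1 (ε / 3) hε3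
    refine mem_iUnion.mpr ⟨m, ?_⟩
    rw [dist_eq_norm] at hm
    exact hm.le
  obtain ⟨m, c0, hc0⟩ := nonempty_interior_of_iUnion_of_closed hFcl hFU
  obtain ⟨I, u, hu, hsub⟩ := isOpen_pi_iff.mp isOpen_interior c0 hc0
  refine ⟨I, fun t ht => ?_⟩
  let C' : ℕ → Bool := fun n => if n ∈ I then c0 n else false
  let C : ℕ → Bool := fun n => if n ∈ t then true else C' n
  have hC' : ‖S {n | C' n = true} - z m‖ ≤ ε / 3 := by
    have : C' ∈ (I : Set ℕ).pi u := by
      intro n hn
      have : C' n = c0 n := if_pos hn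
      rw [this]
      exact (hu n hn).2
    have h5 : C' ∈ F m := interior_subset (hsub this)
    exact h5
  have hC : ‖S {n | C n = true} - z m‖ ≤ ε / 3 := by
    have : C ∈ (I : Set ℕ).pi u := by
      intro n hn
      have hnt : n ∉ t := fun h => Finset.disjoint_left.mp ht h hn
      have : C n = c0 n := by
        simp only [C, C', if_neg hnt]
        exact if_pos hn
      rw [this]
      exact (hu n hn).2
    have h5 : C ∈ F m := interior_subset (hsub this)
    exact h5
  have h1 := hfin {n | C n = true} {n | C' n = true} t (by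
    rw [Set.disjoint_left]
    intro n hn hnt
    have hnI : n ∉ I := fun h => Finset.disjoint_left.mp ht hnt h
    have : C' n = false := if_neg hnI
    rw [mem_setOf_eq, this] at hn
    exact Bool.noConfusion hn) (by
    ext n
    simp only [mem_setOf_eq, mem_union, C, Finset.mem_coe]
    by_cases hn : n ∈ t <;> simp [hn])
  rw [← h1]
  have h2 : S {n | C n = true} - S {n | C' n = true} =
      (S {n | C n = true} - z m) - (S {n | C' n = true} - z m) := by abel
  rw [h2]
  linarith [norm_sub_le (S {n | C n = true} - z m) (S {n | C' n = true} - z m)]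

theorem sep_mcshane_norming {E : Type} [NormedAddCommGroup E] [NormedSpace ℝ E] (D : Set E) (hD : D.Nonempty)
    (hs : TopologicalSpace.IsSeparable D) : ∃ φ : ℕ → E →L[ℝ] ℝ, ∀ v ∈ D, ∀ r : ℝ,
      ‖v‖ ≤ r ↔ ∀ k, φ k v ≤ r := by
  obtain ⟨T, hTD, hTc, hDT⟩ := hs.exists_countable_dense_subset
  have hTne : T.Nonempty := by
    obtain ⟨d, hd⟩ := hD
    have h0 : d ∈ closure T := hDT hd
    rcases T.eq_empty_or_nonempty with rfl | h
    · simp at h0
    · exact h
  obtain ⟨z, hz⟩ := hTc.exists_eq_range hTne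
  choose φ hφ1 hφ2 using fun k => exists_dual_vector'' ℝ (z k)
  refine ⟨φ, fun v hv r => ⟨fun h k => ?_, fun h => ?_⟩⟩
  · calc φ k v ≤ ‖φ k v‖ := le_abs_self _
      _ ≤ ‖φ k‖ * ‖v‖ := (φ k).le_opNorm v
      _ ≤ 1 * ‖v‖ := mul_le_mul_of_nonneg_right (hφ1 k) (norm_nonneg _)
      _ ≤ r := by rw [one_mul]; exact h
  · refine le_of_forall_pos_le_add fun ε hε => ?_
    have h1 : v ∈ closure (range z) := hz ▸ hDT hv
    obtain ⟨w, ⟨k, rfl⟩, hk⟩ := Metric.mem_closure_iff.mp h1 (ε / 2) (by positivity)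
    rw [dist_eq_norm] at hk
    have h2 : ‖v‖ ≤ ‖v - z k‖ + ‖z k‖ := by
      simpa using norm_add_le (v - z k) (z k)
    have h3 : ‖z k‖ = φ k v + φ k (z k - v) := by
      rw [map_sub]
      have := hφ2 k
      simp only [RCLike.ofReal_real_eq_id, id_eq] at this
      linarith
    have h4 : φ k (z k - v) ≤ ‖v - z k‖ := by
      calc φ k (z k - v) ≤ ‖φ k (z k - v)‖ := le_abs_self _
        _ ≤ ‖φ k‖ * ‖z k - v‖ := (φ k).le_opNorm _
        _ ≤ 1 * ‖z k - v‖ := mul_le_mul_of_nonneg_right (hφ1 k) (norm_nonneg _)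
        _ = ‖v - z k‖ := by rw [one_mul, norm_sub_rev]
    linarith [h k]

theorem sep_mcshane_index {α : Type} [MeasurableSpace α] {μ : Measure α} {E : Type} [NormedAddCommGroup E]
    [NormedSpace ℝ E] [Nonempty α] (f : α → E)
    (hf : ∀ φ : E →L[ℝ] ℝ, AEMeasurable (fun t => φ (f t)) μ)
    (hs : TopologicalSpace.IsSeparable (range f)) : ∃ x : ℕ → E, ∀ r : ℝ, 0 < r →
      ∃ ν : α → ℕ, Measurable ν ∧ ∀ᵐ t ∂μ, ‖f t - x (ν t)‖ ≤ r := by
  classical
  obtain ⟨T, hTf, hTc, hfT⟩ := hs.exists_countable_dense_subset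
  have hTne : T.Nonempty := by
    have h0 : f (Classical.arbitrary α) ∈ closure T := hfT (mem_range_self _)
    rcases T.eq_empty_or_nonempty with rfl | h
    · simp at h0
    · exact h
  obtain ⟨x, hx⟩ := hTc.exists_eq_range hTne
  refine ⟨x, fun r hr => ?_⟩
  have hD : TopologicalSpace.IsSeparable ((fun p : E × E => p.1 - p.2) '' (range f ×ˢ range f)) :=
    (hs.prod hs).image (by fun_prop)
  obtain ⟨φ, hφ⟩ := sep_mcshane_norming _ (by
    refine ⟨_, mem_image_of_mem _ (show (f (Classical.arbitrary α), f (Classical.arbitrary α)) ∈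
      range f ×ˢ range f from ⟨mem_range_self _, mem_range_self _⟩)⟩) hD
  let A : ℕ → Set α := fun m => {t | ‖f t - x m‖ ≤ r}
  have hA : ∀ m, NullMeasurableSet (A m) μ := by
    intro m
    have h1 : A m = ⋂ k, {t | φ k (f t) - φ k (x m) ≤ r} := by
      ext t
      have h2 : f t - x m ∈ (fun p : E × E => p.1 - p.2) '' (range f ×ˢ range f) :=
        ⟨(f t, x m), ⟨mem_range_self t, hTf (hx ▸ mem_range_self m)⟩, rfl⟩
      have h3 := hφ _ h2 r
      simp only [map_sub] at h3
      simp only [mem_iInter]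
      exact h3
    rw [h1]
    refine NullMeasurableSet.iInter fun k => ?_
    exact nullMeasurableSet_le ((hf (φ k)).sub_const _) aemeasurable_const
  have hex : ∀ t, ∃ n, t ∈ A n := by
    intro t
    have h1 : f t ∈ closure (range x) := hx ▸ hfT (mem_range_self t)
    obtain ⟨w, ⟨n, rfl⟩, hn⟩ := Metric.mem_closure_iff.mp h1 r hr
    rw [dist_eq_norm] at hn
    exact ⟨n, hn.le⟩
  let ν0 : α → ℕ := fun t => Nat.find (hex t)
  have hν0 : NullMeasurable ν0 μ := by
    intro s _
    have h1 : ν0 ⁻¹' s = ⋃ n ∈ s, ν0 ⁻¹' {n} := (biUnion_preimage_singleton ν0 s).symm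
    rw [h1]
    refine NullMeasurableSet.biUnion (Set.to_countable s) fun n _ => ?_
    have h2 : ν0 ⁻¹' {n} = A n \ ⋃ k ∈ Set.Iio n, A k := by
      ext t
      simp only [mem_preimage, mem_singleton_iff, mem_sdiff, mem_iUnion, not_exists, ν0]
      rw [Nat.find_eq_iff]
      rfl
    rw [h2]
    exact (hA n).diff (NullMeasurableSet.biUnion (Set.to_countable _) fun k _ => hA k)
  have hν0' : AEMeasurable ν0 μ := hν0.aemeasurable
  refine ⟨hν0'.mk ν0, hν0'.measurable_mk, ?_⟩
  filter_upwards [hν0'.ae_eq_mk] with t ht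
  rw [← ht]
  exact Nat.find_spec (hex t)

/-- A Pettis integrable function with separable range is McShane integrable. -/
theorem sep_mcshane {E : Type} [NormedAddCommGroup E] [NormedSpace ℝ E] [CompleteSpace E]
    (f : ℝ → E) (hf : Pettis f) (hs : TopologicalSpace.IsSeparable (range f)) : McS f := by
  classical
  obtain ⟨x, hx⟩ := sep_mcshane_index (μ := volume.restrict (Icc (0:ℝ) 1)) f
    (fun φ => (hf.1 φ).aestronglyMeasurable.aemeasurable) hs
  -- strong measurability
  have hfm : AEStronglyMeasurable f (volume.restrict (Icc (0:ℝ) 1)) := by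
    choose ν hν hν' using fun k : ℕ => hx (1 / ((k : ℝ) + 1)) (by positivity)
    refine aestronglyMeasurable_of_tendsto_ae Filter.atTop (f := fun k t => x (ν k t))
      (fun k => ?_) ?_
    · exact ((StronglyMeasurable.of_discrete : StronglyMeasurable x).comp_measurable
        (hν k)).aestronglyMeasurable
    · filter_upwards [ae_all_iff.mpr hν'] with t ht
      rw [tendsto_iff_norm_sub_tendsto_zero]
      refine squeeze_zero (fun k => norm_nonneg _) (fun k => ?_)
        tendsto_one_div_add_atTop_nhds_zero_nat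
      rw [norm_sub_rev]
      exact ht k
  obtain ⟨ν, hν, hb⟩ := hx 1 one_pos
  set h : ℝ → E := fun t => f t - x (ν t) with hh
  have hhm : AEStronglyMeasurable h (volume.restrict (Icc (0:ℝ) 1)) :=
    hfm.sub ((StronglyMeasurable.of_discrete : StronglyMeasurable x).comp_measurable
      hν).aestronglyMeasurable
  have hhi : IntegrableOn h (Icc (0:ℝ) 1) :=
    Integrable.of_bound hhm 1 hb
  -- the box
  set I : BoxIntegral.Box (Fin 1) :=
    ⟨fun _ => (0:ℝ), fun _ => (1:ℝ), fun _ => (zero_lt_one : (0:ℝ) < 1)⟩ with hI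
  have hmemI : ∀ p : Fin 1 → ℝ, p ∈ I ↔ p 0 ∈ Ioc (0:ℝ) 1 := by
    intro p
    rw [BoxIntegral.Box.mem_def]
    exact ⟨fun hp => hp 0, fun hp i => by rw [Subsingleton.elim i 0]; exact hp⟩
  have hmp := volume_preserving_funUnique (Fin 1) ℝ
  have hme := (MeasurableEquiv.funUnique (Fin 1) ℝ).measurableEmbedding
  have hIB : IntegrableOn (fun p : Fin 1 → ℝ => h (p 0)) I volume := by
    have h1 := (hmp.integrableOn_comp_preimage hme (f := h) (s := Icc (0:ℝ) 1)).mpr hhi
    refine IntegrableOn.mono_set h1 fun p hp => ?_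
    exact Ioc_subset_Icc_self ((hmemI p).mp hp)
  have hint1 := hIB.hasBoxIntegral BoxIntegral.IntegrationParams.McShane rfl
  -- the countably valued part
  set m : ℕ → ℝ := fun n => volume.real (ν ⁻¹' {n} ∩ Ioc (0:ℝ) 1) with hm
  have hsum : Summable fun n => m n • x n := by
    refine sep_mcshane_orlicz_pettis _ fun C => ?_
    have hAC : MeasurableSet (ν ⁻¹' C ∩ Ioc (0:ℝ) 1) :=
      (hν (MeasurableSet.of_discrete)).inter measurableSet_Ioc
    have hACI : ν ⁻¹' C ∩ Ioc (0:ℝ) 1 ⊆ Icc (0:ℝ) 1 :=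
      inter_subset_right.trans Ioc_subset_Icc_self
    obtain ⟨s, hs⟩ := hf.2 _ hAC hACI
    refine ⟨s - ∫ t in ν ⁻¹' C ∩ Ioc (0:ℝ) 1, h t, fun φ => ?_⟩
    have hi1 : IntegrableOn (fun t => φ (f t)) (ν ⁻¹' C ∩ Ioc (0:ℝ) 1) :=
      (hf.1 φ).mono_set hACI
    have hi2 : IntegrableOn h (ν ⁻¹' C ∩ Ioc (0:ℝ) 1) := hhi.mono_set hACI
    have hi3 : IntegrableOn (fun t => φ (h t)) (ν ⁻¹' C ∩ Ioc (0:ℝ) 1) :=
      φ.integrable_comp hi2
    have e1 : φ (s - ∫ t in ν ⁻¹' C ∩ Ioc (0:ℝ) 1, h t) =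
        ∫ t in ν ⁻¹' C ∩ Ioc (0:ℝ) 1, φ (x (ν t)) := by
      rw [map_sub, hs φ, ← φ.integral_comp_comm hi2, ← integral_sub hi1 hi3]
      refine integral_congr_ae (Filter.Eventually.of_forall fun t => ?_)
      simp only [hh, map_sub]
      ring
    rw [e1]
    let B : ℕ → Set ℝ := fun n => {t | ν t = n ∧ n ∈ C} ∩ Ioc (0:ℝ) 1
    have hBm : ∀ n, MeasurableSet (B n) := by
      intro n
      have : {t | ν t = n ∧ n ∈ C} = ν ⁻¹' {k | k = n ∧ n ∈ C} := rfl
      refine MeasurableSet.inter ?_ measurableSet_Ioc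
      rw [this]
      exact hν MeasurableSet.of_discrete
    have hBd : Pairwise (Function.onFun Disjoint B) := by
      intro a b hab
      refine Set.disjoint_left.mpr fun t h1 h2 => hab ?_
      exact h1.1.1.symm.trans h2.1.1
    have hBU : ⋃ n, B n = ν ⁻¹' C ∩ Ioc (0:ℝ) 1 := by
      ext t
      simp only [mem_iUnion]
      constructor
      · rintro ⟨n, ⟨h1, h2⟩, h3⟩
        refine ⟨?_, h3⟩
        rw [mem_preimage, h1]
        exact h2
      · rintro ⟨h1, h2⟩
        exact ⟨ν t, ⟨rfl, h1⟩, h2⟩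
    have hi4 : IntegrableOn (fun t => φ (x (ν t))) (⋃ n, B n) := by
      rw [hBU]
      refine (hi1.sub hi3).congr (Filter.Eventually.of_forall fun t => ?_)
      simp only [hh, map_sub, Pi.sub_apply]
      ring
    have h1 := hasSum_integral_iUnion hBm hBd hi4
    rw [hBU] at h1
    have e2 : (C.indicator fun n => φ (m n • x n)) = fun n => ∫ t in B n, φ (x (ν t)) := by
      funext n
      by_cases hn : n ∈ C
      · rw [indicator_of_mem hn]
        have hB : B n = ν ⁻¹' {n} ∩ Ioc (0:ℝ) 1 := by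
          ext t
          exact ⟨fun ht => ⟨ht.1.1, ht.2⟩, fun ht => ⟨⟨ht.1, hn⟩, ht.2⟩⟩
        have h2 : ∫ t in B n, φ (x (ν t)) = ∫ t in B n, φ (x n) := by
          refine setIntegral_congr_fun (hBm n) fun t ht => ?_
          have : ν t = n := ht.1.1
          simp only [this]
        rw [h2, setIntegral_const, hB, map_smul]
      · rw [indicator_of_notMem hn]
        have hB : B n = ∅ := by
          ext t
          exact ⟨fun ht => hn ht.1.2, fun ht => absurd ht (notMem_empty t)⟩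
        rw [hB, setIntegral_empty]
    rw [e2]
    exact h1
  have hint2 := sep_mcshane_countable_mcs I BoxIntegral.IntegrationParams.McShane rfl volume
    (fun p : Fin 1 → ℝ => ν (p 0)) (hν.comp (measurable_pi_apply 0)) x (∑' n, m n • x n) (by
      have h1 := hsum.hasSum
      convert h1 using 1
      funext n
      congr 1
      have h2 : ((fun p : Fin 1 → ℝ => ν (p 0)) ⁻¹' {n} ∩ (I : Set (Fin 1 → ℝ))) =
          (MeasurableEquiv.funUnique (Fin 1) ℝ) ⁻¹' (ν ⁻¹' {n} ∩ Ioc (0:ℝ) 1) := by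
        ext p
        constructor
        · rintro ⟨h3, h4⟩
          exact ⟨h3, (hmemI p).mp h4⟩
        · rintro ⟨h3, h4⟩
          exact ⟨h3, (hmemI p).mpr h4⟩
      rw [h2]
      have h5 := hmp.measure_preimage (s := ν ⁻¹' {n} ∩ Ioc (0:ℝ) 1)
        ((hν (measurableSet_singleton n)).inter measurableSet_Ioc).nullMeasurableSet
      exact congrArg ENNReal.toReal h5)
  have hfin := hint1.add hint2
  have e : ((fun p : Fin 1 → ℝ => h (p 0)) + fun p => x (ν (p 0))) = fun p => f (p 0) := by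
    funext p
    simp [hh]
  rw [e] at hfin
  exact ⟨_, hfin⟩

end Sep

end Pool.Agent.Helper937.Mcs
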