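import Mathlib

set_option autoImplicit false

open Set Topology MeasureTheory Filter

namespace Pool.Agent.Helper937.Prad

/-- Number of grid points at level `n`. -/
def N (n : ℕ) : ℕ := 8 * (n + 1) ^ 2

lemma N_pos (n : ℕ) : 0 < N n := by unfold N; positivity

lemma N_mono {m n : ℕ} (h : m ≤ n) : N m ≤ N n := by
  unfold N
  gcongr

/-- Valid indices. -/
def Valid (p : ℕ × Finset ℕ) : Prop := p.2 ⊆ Finset.range (N p.1 + 1) ∧ p.2.card ≤ p.1

noncomputable def psi (s : ℝ) : ℝ := min 1 (max 0 (s - 1))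

lemma psi_cont : Continuous psi := by unfold psi; fun_prop

lemma psi_nonneg (s : ℝ) : 0 ≤ psi s := by unfold psi; positivity

lemma psi_le (s : ℝ) : psi s ≤ 1 := min_le_left _ _

lemma psi_zero {s : ℝ} (h : s ≤ 1) : psi s = 0 := by
  unfold psi
  rw [max_eq_left (by linarith)]
  simp

lemma lt_of_psi_lt {s : ℝ} (h : psi s < 1) : s < 2 := by
  unfold psi at h
  by_contra hs
  push Not at hs
  have : (1:ℝ) ≤ max 0 (s - 1) := le_max_of_le_right (by linarith)
  rw [min_eq_left this] at h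
  exact lt_irrefl _ h

noncomputable def fn (p : ℕ × Finset ℕ) (x : ℝ) : ℝ :=
  ∏ t ∈ p.2, psi (N p.1 * |x - t / N p.1|)

lemma fn_cont (p : ℕ × Finset ℕ) : Continuous (fn p) := by
  unfold fn
  refine continuous_finset_prod _ fun t _ => ?_
  exact psi_cont.comp (by fun_prop)

def Q (p : ℕ × Finset ℕ) : Set ℝ := ⋃ t ∈ p.2, Metric.closedBall ((t : ℝ) / N p.1) (2 / N p.1)

lemma Q_closed (p : ℕ × Finset ℕ) : IsClosed (Q p) := by
  unfold Q
  exact isClosed_biUnion_finset fun t _ => Metric.isClosed_closedBall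

lemma fn_lt (p : ℕ × Finset ℕ) (x : ℝ) (h : |fn p x| < 1) : x ∈ Q p := by
  by_contra hx
  have h1 : ∀ t ∈ p.2, psi (N p.1 * |x - t / N p.1|) = 1 := by
    intro t ht
    by_contra hne
    have hlt : psi (N p.1 * |x - t / N p.1|) < 1 := lt_of_le_of_ne (psi_le _) hne
    have h2 := lt_of_psi_lt hlt
    apply hx
    unfold Q
    refine mem_biUnion ht ?_
    rw [Metric.mem_closedBall, Real.dist_eq]
    have hN : (0:ℝ) < N p.1 := by exact_mod_cast N_pos p.1
    rw [le_div_iff₀ hN]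
    linarith
  have : fn p x = 1 := by
    unfold fn
    exact Finset.prod_eq_one h1
  rw [this] at h
  simp at h

lemma Q_vol (p : ℕ × Finset ℕ) (hp : Valid p) :
    volume (Q p) ≤ ENNReal.ofReal (1 / (2 * (p.1 + 1))) := by
  unfold Q
  refine (measure_biUnion_finset_le _ _).trans ?_
  have hN : (0:ℝ) < N p.1 := by exact_mod_cast N_pos p.1
  have h1 : ∀ t ∈ p.2, volume (Metric.closedBall ((t : ℝ) / N p.1) (2 / N p.1)) =
      ENNReal.ofReal (4 / N p.1) := by
    intro t _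
    rw [Real.volume_closedBall]
    congr 1
    ring
  rw [Finset.sum_congr rfl h1, Finset.sum_const, nsmul_eq_mul,
    ← ENNReal.ofReal_natCast, ← ENNReal.ofReal_mul (by positivity)]
  apply ENNReal.ofReal_le_ofReal
  have hc : (p.2.card : ℝ) ≤ p.1 := by exact_mod_cast hp.2
  have hN2 : (N p.1 : ℝ) = 8 * ((p.1 : ℝ) + 1) ^ 2 := by unfold N; push_cast; ring
  rw [hN2]
  have hp1 : (0:ℝ) ≤ p.1 := Nat.cast_nonneg _
  calc (p.2.card : ℝ) * (4 / (8 * ((p.1 : ℝ) + 1) ^ 2))
      ≤ ((p.1 : ℝ) + 1) * (4 / (8 * ((p.1 : ℝ) + 1) ^ 2)) := by gcongr; linarith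
    _ = 1 / (2 * ((p.1 : ℝ) + 1)) := by field_simp; norm_num

lemma finite_level (n : ℕ) : {p : ℕ × Finset ℕ | Valid p ∧ p.1 ≤ n}.Finite := by
  refine ((Finset.range (n + 1) ×ˢ (Finset.range (N n + 1)).powerset :
    Finset (ℕ × Finset ℕ)).finite_toSet).subset ?_
  rintro ⟨m, T⟩ ⟨⟨h1, -⟩, h2⟩
  simp only at h1 h2
  simp only [Finset.coe_product, Finset.coe_powerset, mem_prod, Finset.mem_coe, Finset.mem_range,
    mem_preimage, Finset.coe_subset, mem_powerset_iff]
  refine ⟨by omega, h1.trans ?_⟩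
  intro t ht
  rw [Finset.mem_range] at *
  have := N_mono h2
  omega

/-- Every finite subset of the interval is in the zero set of some valid function. -/
lemma exists_fn (F : Finset unitInterval) : ∃ p, Valid p ∧ ∀ x ∈ F, fn p x = 0 := by
  classical
  let n := F.card
  let T : Finset ℕ := F.image fun x : unitInterval => ⌊(N n : ℝ) * (x : ℝ)⌋₊
  have hcard : T.card ≤ n := Finset.card_image_le
  refine ⟨(n, T), ⟨?_, hcard⟩, ?_⟩
  · intro t ht
    obtain ⟨x, -, rfl⟩ := Finset.mem_image.1 ht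
    rw [Finset.mem_range]
    have h1 : (N n : ℝ) * x ≤ N n := by
      have := x.2.2
      have h0 : (0:ℝ) ≤ N n := Nat.cast_nonneg _
      nlinarith
    have := Nat.floor_le_of_le h1
    show _ < N n + 1
    omega
  · intro x hx
    unfold fn
    refine Finset.prod_eq_zero (i := ⌊(N n : ℝ) * x⌋₊) (Finset.mem_image_of_mem _ hx) ?_
    apply psi_zero
    have hN : (0:ℝ) < N n := by exact_mod_cast N_pos n
    have h0 : 0 ≤ (N n : ℝ) * x := mul_nonneg hN.le x.2.1
    have h1 := Nat.floor_le h0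
    have h2 := Nat.lt_floor_add_one ((N n : ℝ) * x)
    show (N n : ℝ) * |(x : ℝ) - (⌊(N n : ℝ) * x⌋₊ : ℝ) / N n| ≤ 1
    have h3 : (N n : ℝ) * |(x : ℝ) - (⌊(N n : ℝ) * x⌋₊ : ℝ) / N n| =
        |(N n : ℝ) * x - (⌊(N n : ℝ) * x⌋₊ : ℝ)| := by
      rw [← abs_of_pos hN, ← abs_mul, abs_of_pos hN]
      congr 1
      field_simp
    rw [h3, abs_le]
    constructor <;> linarith

/-- Small sets: contained in one `Q p` and the union of at most `κ` closed null sets. -/
def Small (κ : Cardinal.{0}) (S : Set ℝ) : Prop :=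
  ∃ p, Valid p ∧ ∃ C : Set (Set ℝ), Cardinal.mk C ≤ κ ∧
    (∀ c ∈ C, IsClosed c ∧ volume c = 0) ∧ S ⊆ Q p ∪ ⋃₀ C

theorem not_small (κ : Cardinal.{0})
    (hκ : ∀ C : Set (Set ℝ), Cardinal.mk C ≤ κ → (∀ c ∈ C, IsClosed c ∧ volume c = 0) →
      ¬ (Icc (0:ℝ) 1 ⊆ ⋃₀ C)) : ¬ Small κ (Icc 0 1) := by
  rintro ⟨p, hp, C, hC, hCc, hcov⟩
  -- an interval outside `Q p`
  have hne : (Ioo (0:ℝ) 1 \ Q p).Nonempty := by
    rw [sdiff_nonempty]
    intro hsub
    have h1 := measure_mono (μ := volume) hsub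
    have h2 := h1.trans (Q_vol p hp)
    rw [Real.volume_Ioo, ENNReal.ofReal_le_ofReal_iff (by positivity)] at h2
    have hp1 : (0:ℝ) ≤ p.1 := Nat.cast_nonneg _
    rw [le_div_iff₀ (by positivity)] at h2
    linarith
  obtain ⟨y, hy⟩ := hne
  have hopen : IsOpen (Ioo (0:ℝ) 1 \ Q p) := isOpen_Ioo.sdiff (Q_closed p)
  obtain ⟨r, hr, hball⟩ := Metric.isOpen_iff.1 hopen y hy
  let φ : ℝ → ℝ := fun t => y + (r / 2) * t
  have hφ : Continuous φ := by fun_prop
  refine hκ ((fun c => φ ⁻¹' c) '' C) (Cardinal.mk_image_le.trans hC) ?_ ?_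
  · rintro _ ⟨c, hc, rfl⟩
    refine ⟨(hCc c hc).1.preimage hφ, ?_⟩
    have : φ ⁻¹' c = (fun t => (r / 2) * t) ⁻¹' ((fun s => y + s) ⁻¹' c) := rfl
    show volume (φ ⁻¹' c) = 0
    rw [this, Real.volume_preimage_mul_left (by positivity), measure_preimage_add,
      (hCc c hc).2, mul_zero]
  · intro t ht
    have hmem : φ t ∈ Metric.ball y r := by
      rw [Metric.mem_ball, Real.dist_eq]
      show |y + (r / 2) * t - y| < r
      rw [add_sub_cancel_left, abs_of_nonneg (mul_nonneg (by positivity) ht.1)]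
      nlinarith [ht.2]
    have h3 := hball hmem
    have h4 : φ t ∈ Icc (0:ℝ) 1 := ⟨h3.1.1.le, h3.1.2.le⟩
    rcases hcov h4 with h5 | ⟨c, hc, hct⟩
    · exact absurd h5 h3.2
    · exact ⟨φ ⁻¹' c, ⟨c, hc, rfl⟩, hct⟩

theorem small_lim (κ : Cardinal.{0}) (hω : Cardinal.aleph0 ≤ κ) (D : Type) [Preorder D]
    [IsDirected D (· ≤ ·)] [Nonempty D] (hD : Cardinal.mk D ≤ κ) (S : D → Set ℝ)
    (hS : ∀ i, Small κ (S i)) (S' : Set ℝ) (hS' : ∀ x ∈ S', ∃ i, ∀ j, i ≤ j → x ∈ S j) :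
    Small κ S' := by
  classical
  choose p hp C hC hCc hcov using hS
  by_cases hA : ∃ q, ∀ i, ∃ j, i ≤ j ∧ p j = q
  · obtain ⟨q, hq⟩ := hA
    obtain ⟨i0⟩ := ‹Nonempty D›
    obtain ⟨j0, -, hj0⟩ := hq i0
    refine ⟨q, hj0 ▸ hp j0, ⋃ j, C j, ?_, ?_, ?_⟩
    · refine (Cardinal.mk_iUnion_le _).trans ?_
      calc Cardinal.mk D * ⨆ i, Cardinal.mk (C i) ≤ κ * κ := by
            gcongr
            exact ciSup_le' hC
        _ = κ := Cardinal.mul_eq_self hω
    · intro c hc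
      obtain ⟨j, hj⟩ := mem_iUnion.1 hc
      exact hCc j c hj
    · intro x hx
      obtain ⟨i, hi⟩ := hS' x hx
      obtain ⟨j, hij, hj⟩ := hq i
      rcases hcov j (hi j hij) with h1 | ⟨c, hc, hxc⟩
      · left; rw [← hj]; exact h1
      · right; exact ⟨c, mem_iUnion.2 ⟨j, hc⟩, hxc⟩
  · push Not at hA
    -- for every i and n some j ≥ i has level > n
    have hlev : ∀ (i : D) (n : ℕ), ∃ j, i ≤ j ∧ n < (p j).1 := by
      intro i n
      choose b hb using hA
      obtain ⟨M, hM⟩ := (((finite_level n).toFinset.image b) ∪ {i}).exists_le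
      refine ⟨M, hM i (by simp), ?_⟩
      by_contra hle
      push Not at hle
      have hmem : p M ∈ (finite_level n).toFinset := by
        rw [Set.Finite.mem_toFinset]; exact ⟨hp M, hle⟩
      have := hM (b (p M)) (Finset.mem_union_left _ (Finset.mem_image_of_mem _ hmem))
      exact hb (p M) M this rfl
    choose J hJ1 hJ2 using hlev
    let K : D → Set ℝ := fun i => ⋂ n, Q (p (J i n))
    have hK : ∀ i, IsClosed (K i) ∧ volume (K i) = 0 := by
      intro i
      refine ⟨isClosed_iInter fun n => Q_closed _, ?_⟩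
      have hb : ∀ n : ℕ, volume (K i) ≤ ENNReal.ofReal (1 / (n + 1 : ℝ)) := by
        intro n
        refine (measure_mono (iInter_subset _ n)).trans ((Q_vol _ (hp _)).trans ?_)
        apply ENNReal.ofReal_le_ofReal
        have h1 : (n:ℝ) < (p (J i n)).1 := by exact_mod_cast hJ2 i n
        apply one_div_le_one_div_of_le (by positivity)
        have h0 : (0:ℝ) ≤ n := Nat.cast_nonneg _
        linarith
      have hlim : Tendsto (fun n : ℕ => ENNReal.ofReal (1 / (n + 1 : ℝ))) atTop (𝓝 0) := by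
        have := ENNReal.tendsto_ofReal (tendsto_one_div_add_atTop_nhds_zero_nat (𝕜 := ℝ))
        simpa using this
      exact le_antisymm (ge_of_tendsto' hlim hb) zero_le
    obtain ⟨i0⟩ := ‹Nonempty D›
    refine ⟨p i0, hp i0, range K ∪ ⋃ j, C j, ?_, ?_, ?_⟩
    · refine (Cardinal.mk_union_le _ _).trans ?_
      have h1 : Cardinal.mk (range K) ≤ κ := Cardinal.mk_range_le.trans hD
      have h2 : Cardinal.mk (⋃ j, C j) ≤ κ := by
        refine (Cardinal.mk_iUnion_le _).trans ?_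
        calc Cardinal.mk D * ⨆ i, Cardinal.mk (C i) ≤ κ * κ := by
              gcongr
              exact ciSup_le' hC
          _ = κ := Cardinal.mul_eq_self hω
      calc _ ≤ κ + κ := add_le_add h1 h2
        _ = κ := Cardinal.add_eq_self hω
    · rintro c (⟨i, rfl⟩ | hc)
      · exact hK i
      · obtain ⟨j, hj⟩ := mem_iUnion.1 hc
        exact hCc j c hj
    · intro x hx
      obtain ⟨i, hi⟩ := hS' x hx
      right
      by_cases hxK : x ∈ K i
      · exact ⟨K i, Or.inl ⟨i, rfl⟩, hxK⟩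
      · rw [mem_iInter] at hxK
        push Not at hxK
        obtain ⟨n, hn⟩ := hxK
        rcases hcov _ (hi _ (hJ1 i n)) with h1 | ⟨c, hc, hxc⟩
        · exact absurd h1 hn
        · exact ⟨c, Or.inr (mem_iUnion.2 ⟨_, hc⟩), hxc⟩

theorem small_lim2 (κ : Cardinal.{0}) (D : Type) [Preorder D] [Nonempty D]
    (hD : ∀ T : Set D, Cardinal.mk T ≤ Cardinal.continuum → BddAbove T) (S : D → Set ℝ)
    (hS : ∀ i, Small κ (S i)) (S' : Set ℝ) (hS' : ∀ x ∈ S', ∃ i, ∀ j, i ≤ j → x ∈ S j) :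
    Small κ S' := by
  classical
  choose! b hb using hS'
  obtain ⟨m, hm⟩ := hD (b '' S') (by
    refine Cardinal.mk_image_le.trans ?_
    refine (Cardinal.mk_set_le _).trans ?_
    rw [Cardinal.mk_real])
  obtain ⟨p, hp, C, h1, h2, h3⟩ := hS m
  exact ⟨p, hp, C, h1, h2, fun x hx => h3 (hb x hx m (hm ⟨x, hx, rfl⟩))⟩

theorem main (κ : Cardinal.{0}) (hω : Cardinal.aleph0 ≤ κ)
    (hκ : ∀ C : Set (Set ℝ), Cardinal.mk C ≤ κ → (∀ c ∈ C, IsClosed c ∧ volume c = 0) →
      ¬ (Icc (0:ℝ) 1 ⊆ ⋃₀ C))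
    (Z : Type) [TopologicalSpace Z]
    (hZ : ∀ S : Set Z, (∀ (D : Type) [Preorder D] [IsDirected D (· ≤ ·)] [Nonempty D],
      (Cardinal.mk D ≤ κ ∨ ∀ T : Set D, Cardinal.mk T ≤ Cardinal.continuum → BddAbove T) →
      ∀ s : D → Z, (∀ i, s i ∈ S) → ∀ z, Tendsto s atTop (𝓝 z) → z ∈ S) → IsClosed S)
    (e : {f : unitInterval → ℝ // Continuous f} → Z) : ¬ IsEmbedding e := by
  classical
  intro he
  let X := {f : unitInterval → ℝ // Continuous f}
  let zero : X := ⟨fun _ => 0, continuous_const⟩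
  have hU : ∀ x : unitInterval, ∃ U : Set Z, IsOpen U ∧ e ⁻¹' U = {g : X | |g.1 x| < 1} := by
    intro x
    have ho : IsOpen {g : X | |g.1 x| < 1} := by
      have : Continuous fun g : X => |g.1 x| := ((continuous_apply x).comp
        continuous_subtype_val).abs
      exact isOpen_lt this continuous_const
    obtain ⟨U, hU, h⟩ := he.isInducing.isOpen_iff.1 ho
    exact ⟨U, hU, h⟩
  choose U hUo hUe using hU
  let E : Z → Set ℝ := fun z => {t | ∃ x : unitInterval, (x : ℝ) = t ∧ z ∈ U x}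
  let S : Set Z := {z | Small κ (E z)}
  have hSc : IsClosed S := by
    apply hZ
    intro D _ _ _ hD s hs z hz
    have hE : ∀ x ∈ E z, ∃ i, ∀ j, i ≤ j → x ∈ E (s j) := by
      rintro t ⟨x, rfl, hx⟩
      have := hz.eventually ((hUo x).mem_nhds hx)
      obtain ⟨i, hi⟩ := Filter.eventually_atTop.1 this
      exact ⟨i, fun j hj => ⟨x, rfl, hi j hj⟩⟩
    rcases hD with hD | hD
    · exact small_lim κ hω D hD (fun i => E (s i)) hs (E z) hE
    · exact small_lim2 κ D hD (fun i => E (s i)) hs (E z) hE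
  let a : ℕ × Finset ℕ → X := fun p => ⟨fun x => fn p x, (fn_cont p).comp continuous_subtype_val⟩
  have haS : ∀ p, Valid p → e (a p) ∈ S := by
    intro p hp
    refine ⟨p, hp, ∅, ?_, by simp, ?_⟩
    · simp
    · rintro t ⟨x, rfl, hx⟩
      left
      have : a p ∈ e ⁻¹' U x := hx
      rw [hUe] at this
      exact fn_lt p x this
  have hcl : zero ∈ closure (a '' {p | Valid p}) := by
    rw [mem_closure_iff]
    intro O hO hzO
    obtain ⟨O', hO', rfl⟩ := isOpen_induced_iff.1 hO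
    rw [isOpen_pi_iff] at hO'
    obtain ⟨F, u, hu, hsub⟩ := hO' _ hzO
    obtain ⟨p, hp, hpF⟩ := exists_fn F
    refine ⟨a p, ?_, ⟨p, hp, rfl⟩⟩
    apply hsub
    intro x hx
    have h1 : (a p).1 x = 0 := hpF x hx
    rw [h1]
    exact (hu x hx).2
  have hz : e zero ∈ S := by
    have h1 : e zero ∈ closure (e '' (a '' {p | Valid p})) :=
      image_closure_subset_closure_image he.continuous ⟨zero, hcl, rfl⟩
    have h2 : closure (e '' (a '' {p | Valid p})) ⊆ S := by
      apply closure_minimal _ hSc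
      rintro _ ⟨_, ⟨p, hp, rfl⟩, rfl⟩
      exact haS p hp
    exact h2 h1
  apply not_small κ hκ
  have h5 : E (e zero) = Icc 0 1 := by
    ext t
    constructor
    · rintro ⟨x, rfl, -⟩
      exact x.2
    · intro ht
      refine ⟨⟨t, ht⟩, rfl, ?_⟩
      have : zero ∈ e ⁻¹' U ⟨t, ht⟩ := by
        rw [hUe]
        simp [zero]
      exact this
  rw [← h5]
  exact hz

end Pool.Agent.Helper937.Prad
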