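import Mathlib

set_option autoImplicit false

open Cardinal Set MeasureTheory

namespace Pool.Agent.Helper937.Rat

/-- an index set of size ℵ₁ -/
abbrev W1 : Type := (Cardinal.aleph 1).ord.ToType

/-- S is a subset of T of full outer measure in T -/
def Full {X : Type} [MeasurableSpace X] (μ : Measure X) (S T : Set X) : Prop :=
  S ⊆ T ∧ ∀ H, MeasurableSet H → S ⊆ H → μ (T \ H) = 0

theorem disj_small {X : Type} [MeasurableSpace X] (μ : Measure X) (n : ℕ) :
    ∀ (Ω : Type), #Ω ≤ Cardinal.aleph (n : Ordinal.{0}) → ∀ (T : Set X) (q : X → Ω), μ T ≠ 0 →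
      (∀ ω, μ (T ∩ q ⁻¹' {ω}) = 0) →
      ∃ (δ : ENNReal) (Z : W1 → Set Ω), δ ≠ 0 ∧ (∀ ξ η, ξ ≠ η → Disjoint (Z ξ) (Z η)) ∧
        ∀ ξ, δ ≤ μ (T ∩ q ⁻¹' (Z ξ)) := by
  classical
  induction n with
  | zero =>
    intro Ω hΩ T q hT hnull
    exfalso
    have hc : Countable Ω := by
      rw [← Cardinal.mk_le_aleph0_iff]
      simpa using hΩ
    apply hT
    have : T = ⋃ ω, T ∩ q ⁻¹' {ω} := by
      ext x; simp
    rw [this]
    exact measure_iUnion_null hnull
  | succ n ih =>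
    intro Ω hΩ T q hT hnull
    have hsucc : Cardinal.aleph ((n+1 : ℕ) : Ordinal.{0}) = Order.succ (Cardinal.aleph (n : Ordinal.{0})) := by
      rw [← Cardinal.aleph_succ]
      congr 1
    set Λ : Type := (Cardinal.aleph ((n+1 : ℕ) : Ordinal.{0})).ord.ToType with hΛ
    have hΛc : #Λ = Cardinal.aleph ((n+1 : ℕ) : Ordinal.{0}) := Cardinal.mk_ord_toType _
    set K : Type := (Cardinal.aleph (n : Ordinal.{0})).ord.ToType with hK
    have hKc : #K = Cardinal.aleph (n : Ordinal.{0}) := Cardinal.mk_ord_toType _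
    have haleph : ℵ₀ ≤ Cardinal.aleph (n : Ordinal.{0}) := Cardinal.aleph0_le_aleph _
    have hKne : Nonempty K := by
      rw [← Cardinal.mk_ne_zero_iff, hKc]
      exact (lt_of_lt_of_le Cardinal.aleph0_pos haleph).ne'
    obtain ⟨k0⟩ := hKne
    obtain ⟨i⟩ : Nonempty (Ω ↪ Λ) := by
      rw [← Cardinal.le_def, hΛc]; exact hΩ
    -- injections of initial segments
    have hex : ∀ b : Λ, ∃ e : Λ → K, InjOn e (Iio b) := by
      intro b
      have h1 : #(Iio b) ≤ #K := by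
        rw [hKc, ← Order.lt_succ_iff, ← hsucc]
        exact Cardinal.mk_Iio_toType_ord_lt b
      obtain ⟨f⟩ := h1
      refine ⟨fun a => if h : a < b then f ⟨a, h⟩ else k0, ?_⟩
      intro a ha a' ha' hh
      have ha1 : a < b := ha
      have ha2 : a' < b := ha'
      simp only [ha1, ha2, dif_pos] at hh
      have := f.injective hh
      simpa using this
    choose e he using hex
    have hq' : ∀ b : Λ, μ (T ∩ (fun x => i (q x)) ⁻¹' {b}) = 0 := by
      intro b
      by_cases h : ∃ ω, i ω = b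
      · obtain ⟨ω, rfl⟩ := h
        apply measure_mono_null _ (hnull ω)
        rintro x ⟨hx1, hx2⟩
        exact ⟨hx1, i.injective hx2⟩
      · have : T ∩ (fun x => i (q x)) ⁻¹' {b} = ∅ := by
          apply Set.eq_empty_of_forall_notMem
          rintro x ⟨hx1, hx2⟩
          exact h ⟨q x, hx2⟩
        rw [this]; exact measure_empty
    have hsub : ∀ B : Set Λ, B.Subsingleton → μ (T ∩ (fun x => i (q x)) ⁻¹' B) = 0 := by
      intro B hB
      rcases hB.eq_empty_or_singleton with h | ⟨b, h⟩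
      · rw [h]; simp
      · rw [h]; exact hq' b
    by_cases hcase : ∀ a : Λ, ∃ k : K, μ (T ∩ (fun x => i (q x)) ⁻¹' {b | a < b ∧ e b a = k}) ≠ 0
    · choose kf hk using hcase
      have hm : ∀ a : Λ, ∃ m : ℕ, ((m : ENNReal))⁻¹ < μ (T ∩ (fun x => i (q x)) ⁻¹' {b | a < b ∧ e b a = kf a}) :=
        fun a => ENNReal.exists_inv_nat_lt (hk a)
      choose mf hm using hm
      have hreg : (Cardinal.aleph ((n+1 : ℕ) : Ordinal.{0})).IsRegular := by
        rw [hsucc]; exact Cardinal.isRegular_succ haleph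
      have hcard : #(K × ℕ) < (Cardinal.aleph ((n+1 : ℕ) : Ordinal.{0})).ord.cof := by
        rw [hreg.cof_ord, hsucc, Order.lt_succ_iff]
        rw [Cardinal.mk_prod]
        simp only [Cardinal.lift_id, Cardinal.mk_nat, Cardinal.lift_uzero]
        rw [hKc, Cardinal.mul_eq_left haleph haleph Cardinal.aleph0_ne_zero]
      obtain ⟨⟨k, m⟩, hfib⟩ := Cardinal.infinite_pigeonhole_card (fun a : Λ => ((kf a, mf a) : K × ℕ))
        (Cardinal.aleph ((n+1 : ℕ) : Ordinal.{0})) hΛc.ge (Cardinal.aleph0_le_aleph _) hcard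
      have h1 : #W1 ≤ #((fun a : Λ => ((kf a, mf a) : K × ℕ)) ⁻¹' {(k, m)}) := by
        refine le_trans ?_ hfib
        rw [show #W1 = Cardinal.aleph 1 from Cardinal.mk_ord_toType _]
        apply Cardinal.aleph_le_aleph.mpr
        exact_mod_cast (by omega : 1 ≤ n + 1)
      obtain ⟨j⟩ := h1
      refine ⟨((m : ENNReal))⁻¹, fun ξ => i ⁻¹' {b | (j ξ : Λ) < b ∧ e b (j ξ : Λ) = k},
        ENNReal.inv_ne_zero.mpr (ENNReal.natCast_ne_top m), ?_, ?_⟩
      · intro ξ η hne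
        rw [Set.disjoint_left]
        rintro ω ⟨h1, h2⟩ ⟨h3, h4⟩
        apply hne
        apply j.injective
        apply Subtype.ext
        exact he _ h1 h3 (h2.trans h4.symm)
      · intro ξ
        have hjξ := (j ξ).2
        simp only [Set.mem_preimage, Set.mem_singleton_iff, Prod.mk.injEq] at hjξ
        have := (hm (j ξ : Λ)).le
        rw [hjξ.1, hjξ.2] at this
        exact this
    · push Not at hcase
      obtain ⟨a, ha⟩ := hcase
      set r : Λ → K ⊕ Option K := fun b => if a < b then Sum.inl (e b a) else if b < a then Sum.inr (some (e a b))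
        else Sum.inr none with hr
      have hcard : #(K ⊕ Option K) ≤ Cardinal.aleph (n : Ordinal.{0}) := by
        rw [Cardinal.mk_sum, Cardinal.mk_option]
        simp only [Cardinal.lift_id]
        rw [hKc, Cardinal.add_one_eq haleph, Cardinal.add_eq_self haleph]
      obtain ⟨δ, Z, hδ, hdisj, hle⟩ := ih (K ⊕ Option K) hcard T (fun x => r (i (q x))) hT (by
        intro ω
        rcases ω with k | k | k
        · apply measure_mono_null _ (ha k)
          rintro x ⟨hx1, hx2⟩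
          refine ⟨hx1, ?_⟩
          simp only [Set.mem_preimage, Set.mem_singleton_iff, hr] at hx2
          split_ifs at hx2 with h1 h2
          · exact ⟨h1, Sum.inl.inj hx2⟩
        · apply measure_mono_null _ (hsub {b | b = a} (by intro u hu v hv; exact hu.trans hv.symm))
          rintro x ⟨hx1, hx2⟩
          refine ⟨hx1, ?_⟩
          simp only [Set.mem_preimage, Set.mem_singleton_iff, hr] at hx2
          split_ifs at hx2 with h1 h2
          · simp at hx2
          · exact le_antisymm (not_lt.mp h1) (not_lt.mp h2)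
        · apply measure_mono_null _ (hsub {b | b < a ∧ e a b = k} (by
            intro u hu v hv
            exact he a hu.1 hv.1 (hu.2.trans hv.2.symm)))
          rintro x ⟨hx1, hx2⟩
          refine ⟨hx1, ?_⟩
          simp only [Set.mem_preimage, Set.mem_singleton_iff, hr] at hx2
          split_ifs at hx2 with h1 h2
          · exact ⟨h2, by simpa using hx2⟩
          · simp at hx2)
      refine ⟨δ, fun ξ => i ⁻¹' (r ⁻¹' (Z ξ)), hδ, ?_, ?_⟩
      · intro ξ η hne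
        exact ((hdisj ξ η hne).preimage _).preimage _
      · intro ξ
        exact hle ξ


def Gd35249 {X : Type} [MeasurableSpace X] (μ : Measure X) (T E : Set X) : Prop :=
  MeasurableSet E ∧ ∃ V' : W1 → Set X, (∀ ξ, Full μ (V' ξ) (T ∩ E)) ∧
        ∀ ξ η, ξ ≠ η → Disjoint (V' ξ) (V' η)

theorem gd_iUnion_35249 {X : Type} [MeasurableSpace X] (μ : Measure X) (T : Set X)
    (E : ℕ → Set X) (hE : ∀ k, Gd35249 μ T (E k)) : Gd35249 μ T (⋃ k, E k) := by
  refine ⟨MeasurableSet.iUnion fun k => (hE k).1, ?_⟩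
  choose V hV hVd using fun k => (hE k).2
  have hD : ∀ k, MeasurableSet (disjointed E k) := fun k =>
    MeasurableSet.disjointed (fun k => (hE k).1) k
  refine ⟨fun ξ => ⋃ k, (V k ξ ∩ disjointed E k), fun ξ => ⟨?_, ?_⟩, ?_⟩
  · refine iUnion_subset fun k => ?_
    rintro x ⟨hx, -⟩
    have := (hV k ξ).1 hx
    exact ⟨this.1, mem_iUnion.2 ⟨k, this.2⟩⟩
  · intro H hH hVH
    have hsub : (T ∩ ⋃ k, E k) \ H ⊆ ⋃ k, ((T ∩ E k) \ (H ∪ (disjointed E k)ᶜ)) := by
      rintro x ⟨⟨hxT, hxE⟩, hxH⟩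
      rw [← iUnion_disjointed] at hxE
      obtain ⟨k, hk⟩ := mem_iUnion.1 hxE
      refine mem_iUnion.2 ⟨k, ⟨hxT, disjointed_subset E k hk⟩, ?_⟩
      rintro (hx | hx)
      · exact hxH hx
      · exact hx hk
    refine measure_mono_null hsub (measure_iUnion_null fun k => ?_)
    apply (hV k ξ).2 _ (hH.union (hD k).compl)
    intro x hx
    by_cases hxD : x ∈ disjointed E k
    · left
      exact hVH (mem_iUnion.2 ⟨k, hx, hxD⟩)
    · right
      exact hxD
  · intro ξ η hne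
    rw [Set.disjoint_left]
    intro x hx hy
    obtain ⟨k, hk1, hk2⟩ := mem_iUnion.1 hx
    obtain ⟨j, hj1, hj2⟩ := mem_iUnion.1 hy
    by_cases hkj : k = j
    · subst hkj
      exact Set.disjoint_left.1 (hVd k ξ η hne) hk1 hj1
    · exact Set.disjoint_left.1 (disjoint_disjointed E hkj) hk2 hj2

theorem exhaust {X : Type} [MeasurableSpace X] (μ : Measure X) [IsFiniteMeasure μ]
    (T : Set X)
    (h : ∀ G, MeasurableSet G → μ (T ∩ G) ≠ 0 → ∃ E, MeasurableSet E ∧ E ⊆ G ∧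
      μ (T ∩ E) ≠ 0 ∧ ∃ V' : W1 → Set X, (∀ ξ, Full μ (V' ξ) (T ∩ E)) ∧
        ∀ ξ η, ξ ≠ η → Disjoint (V' ξ) (V' η)) :
    ∃ V : W1 → Set X, (∀ ξ, Full μ (V ξ) T) ∧ ∀ ξ η, ξ ≠ η → Disjoint (V ξ) (V η) := by
  obtain ⟨S, hS⟩ : ∃ S : Set ENNReal, S = {r | ∃ E, Gd35249 μ T E ∧ r = μ (T ∩ E)} := ⟨_, rfl⟩
  have hne : S.Nonempty := by
    rw [hS]
    refine ⟨_, ∅, ⟨MeasurableSet.empty, fun _ => ∅, fun ξ => ⟨empty_subset _, fun H _ _ => ?_⟩,
      fun ξ η _ => disjoint_bot_left⟩, rfl⟩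
    simp
  obtain ⟨u, -, hu, huS⟩ := exists_seq_tendsto_sSup hne (OrderTop.bddAbove S)
  have huS' : ∀ n, ∃ E, Gd35249 μ T E ∧ u n = μ (T ∩ E) := by
    intro n
    have := huS n
    rw [hS] at this
    exact this
  choose E hE hEu using huS'
  have hG := gd_iUnion_35249 μ T E hE
  obtain ⟨G, hGdef⟩ : ∃ G, G = ⋃ k, E k := ⟨_, rfl⟩
  rw [← hGdef] at hG
  have hsup : sSup S ≤ μ (T ∩ G) := by
    refine le_of_tendsto' hu fun n => ?_
    rw [hEu n, hGdef]
    exact measure_mono (inter_subset_inter_right _ (subset_iUnion E n))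
  have hle : ∀ F, Gd35249 μ T F → μ (T ∩ F) ≤ μ (T ∩ G) := by
    intro F hF
    refine le_trans (le_sSup ?_) hsup
    rw [hS]
    exact ⟨F, hF, rfl⟩
  have h0 : μ (T ∩ Gᶜ) = 0 := by
    by_contra hcon
    obtain ⟨E', hE'm, hE'G, hE'0, hfam⟩ := h Gᶜ hG.1.compl hcon
    have hE'gd : Gd35249 μ T E' := ⟨hE'm, hfam⟩
    have hU := gd_iUnion_35249 μ T (fun k => if k = 0 then G else E')
      (fun k => by
        by_cases hk : k = 0
        · simp only [hk, if_true]; exact hG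
        · simp only [hk, if_false]; exact hE'gd)
    have h1 := hle _ hU
    have h2 : T ∩ (⋃ k : ℕ, if k = 0 then G else E') = T ∩ (G ∪ E') := by
      congr 1
      ext x
      simp only [mem_iUnion, mem_union]
      constructor
      · rintro ⟨k, hk⟩
        by_cases hk0 : k = 0
        · rw [if_pos hk0] at hk; exact Or.inl hk
        · rw [if_neg hk0] at hk; exact Or.inr hk
      · rintro (hx | hx)
        · exact ⟨0, by simpa using hx⟩
        · exact ⟨1, by simpa using hx⟩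
    rw [h2, ← measure_inter_add_diff (T ∩ (G ∪ E')) hG.1] at h1
    have h3 : T ∩ (G ∪ E') ∩ G = T ∩ G := by
      ext x; simp only [mem_inter_iff, mem_union]; tauto
    have h4 : (T ∩ (G ∪ E')) \ G = T ∩ E' := by
      ext x
      simp only [mem_inter_iff, mem_union, mem_diff]
      constructor
      · rintro ⟨⟨hx1, hx2⟩, hx3⟩
        exact ⟨hx1, hx2.resolve_left hx3⟩
      · rintro ⟨hx1, hx2⟩
        exact ⟨⟨hx1, Or.inr hx2⟩, hE'G hx2⟩
    rw [h3, h4] at h1
    have h5 : μ (T ∩ G) ≠ ⊤ := measure_ne_top _ _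
    apply hE'0
    have h6 : μ (T ∩ G) + μ (T ∩ E') ≤ μ (T ∩ G) + 0 := by rw [add_zero]; exact h1
    exact le_antisymm ((ENNReal.add_le_add_iff_left h5).1 h6) bot_le
  obtain ⟨-, V, hV, hVd⟩ := hG
  refine ⟨V, fun ξ => ⟨(hV ξ).1.trans inter_subset_left, fun H hH hVH => ?_⟩, hVd⟩
  have h7 := (hV ξ).2 H hH hVH
  have h8 : T \ H ⊆ ((T ∩ G) \ H) ∪ (T ∩ Gᶜ) := by
    rintro x ⟨hx1, hx2⟩
    by_cases hxG : x ∈ G
    · exact Or.inl ⟨⟨hx1, hxG⟩, hx2⟩
    · exact Or.inr ⟨hx1, hxG⟩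
  exact measure_mono_null h8 (measure_union_null h7 h0)


theorem avoid {X : Type} [MeasurableSpace X] (μ : Measure X) [IsFiniteMeasure μ]
    (V : W1 → Set X) (hd : ∀ ξ η, ξ ≠ η → Disjoint (V ξ) (V η)) (R : Set X)
    (q : X → Finset X) :
    {ξ : W1 | ¬ Full μ {x | x ∈ R ∧ ∀ y ∈ q x, y ∉ V ξ} R}.Countable := by
  classical
  by_contra hunc
  have hH : ∀ ξ : W1, ∃ H : Set X, ¬ Full μ {x | x ∈ R ∧ ∀ y ∈ q x, y ∉ V ξ} R →
      (MeasurableSet H ∧ {x | x ∈ R ∧ ∀ y ∈ q x, y ∉ V ξ} ⊆ H ∧ μ (R \ H) ≠ 0) := by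
    intro ξ
    by_cases h : Full μ {x | x ∈ R ∧ ∀ y ∈ q x, y ∉ V ξ} R
    · exact ⟨∅, fun h' => absurd h h'⟩
    · have : ∃ H, MeasurableSet H ∧ {x | x ∈ R ∧ ∀ y ∈ q x, y ∉ V ξ} ⊆ H ∧ μ (R \ H) ≠ 0 := by
        by_contra hcon
        push Not at hcon
        exact h ⟨fun x hx => hx.1, hcon⟩
      obtain ⟨H, hH⟩ := this
      exact ⟨H, fun _ => hH⟩
  choose H hH using hH
  have hex : ∃ m : ℕ, {ξ : W1 | ¬ Full μ {x | x ∈ R ∧ ∀ y ∈ q x, y ∉ V ξ} R ∧
      (m : ENNReal)⁻¹ < μ (R \ H ξ)}.Infinite := by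
    by_contra hcon
    have hcon' : ∀ m : ℕ, {ξ : W1 | ¬ Full μ {x | x ∈ R ∧ ∀ y ∈ q x, y ∉ V ξ} R ∧
      (m : ENNReal)⁻¹ < μ (R \ H ξ)}.Finite := by
      intro m
      by_contra h
      exact hcon ⟨m, h⟩
    apply hunc
    refine (Set.countable_iUnion fun m => (hcon' m).countable).mono ?_
    intro ξ hξ
    have h1 := (hH ξ hξ).2.2
    obtain ⟨m, hm⟩ := ENNReal.exists_inv_nat_lt h1
    exact mem_iUnion.2 ⟨m, hξ, hm⟩
  obtain ⟨m, hinf⟩ := hex
  set e := hinf.natEmbedding with he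
  set xi : ℕ → W1 := fun k => (e k : W1) with hxi
  have hxinj : ∀ k l, xi k = xi l → k = l := by
    intro k l h
    exact e.injective (Subtype.ext h)
  have hbad : ∀ k, ¬ Full μ {x | x ∈ R ∧ ∀ y ∈ q x, y ∉ V (xi k)} R := fun k => (e k).2.1
  have hlow : ∀ k, (m : ENNReal)⁻¹ < μ (R \ H (xi k)) := fun k => (e k).2.2
  have hHm : ∀ k, MeasurableSet (H (xi k)) := fun k => (hH _ (hbad k)).1
  have hHs : ∀ k, {x | x ∈ R ∧ ∀ y ∈ q x, y ∉ V (xi k)} ⊆ H (xi k) := fun k => (hH _ (hbad k)).2.1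
  set B : ℕ → Set X := fun n => ⋃ (k : ℕ) (_ : n ≤ k), (H (xi k))ᶜ with hB
  have hBm : ∀ n, MeasurableSet (B n) := fun n =>
    MeasurableSet.iUnion fun k => MeasurableSet.iUnion fun _ => (hHm k).compl
  have hBa : Antitone B := by
    intro n n' hn x hx
    simp only [hB, mem_iUnion] at hx ⊢
    obtain ⟨k, hk, hx⟩ := hx
    exact ⟨k, hn.trans hk, hx⟩
  have hBl : ∀ n, (m : ENNReal)⁻¹ ≤ (μ.restrict R) (B n) := by
    intro n
    rw [Measure.restrict_apply (hBm n)]
    refine (hlow n).le.trans (measure_mono ?_)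
    rintro x ⟨hx, hxH⟩
    refine ⟨?_, hx⟩
    simp only [hB, mem_iUnion]
    exact ⟨n, le_rfl, hxH⟩
  have hlim := tendsto_measure_iInter_atTop (μ := μ.restrict R) (s := B)
    (fun n => (hBm n).nullMeasurableSet) hBa ⟨0, measure_ne_top _ _⟩
  have hge : (m : ENNReal)⁻¹ ≤ (μ.restrict R) (⋂ n, B n) :=
    ge_of_tendsto' hlim hBl
  have hne : (μ.restrict R) (⋂ n, B n) ≠ 0 := by
    intro h0
    rw [h0] at hge
    have : (m : ENNReal)⁻¹ = 0 := le_antisymm hge zero_le'
    rw [ENNReal.inv_eq_zero] at this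
    exact ENNReal.natCast_ne_top m this
  rw [Measure.restrict_apply (MeasurableSet.iInter hBm)] at hne
  obtain ⟨x, hxB, hxR⟩ := nonempty_of_measure_ne_zero hne
  have hKinf : {k : ℕ | x ∉ H (xi k)}.Infinite := by
    rw [Set.infinite_iff_frequently_cofinite, Nat.cofinite_eq_atTop, Filter.frequently_atTop]
    intro n
    have h1 := mem_iInter.1 hxB n
    simp only [hB, mem_iUnion] at h1
    obtain ⟨k, hk, hx⟩ := h1
    exact ⟨k, hk, hx⟩
  have hy : ∀ k : ℕ, ∃ y : X, x ∉ H (xi k) → (y ∈ q x ∧ y ∈ V (xi k)) := by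
    intro k
    by_cases hk : x ∈ H (xi k)
    · exact ⟨x, fun h => absurd hk h⟩
    · have : ∃ y, y ∈ q x ∧ y ∈ V (xi k) := by
        by_contra hcon
        push Not at hcon
        exact hk (hHs k ⟨hxR, hcon⟩)
      obtain ⟨y, hy⟩ := this
      exact ⟨y, fun _ => hy⟩
  choose y hy using hy
  obtain ⟨k, hk, l, hl, hkl, heq⟩ := hKinf.exists_ne_map_eq_of_mapsTo
    (f := y) (t := (q x : Set X)) (fun k hk => (hy k hk).1) (q x).finite_toSet
  have h1 := (hy k hk).2
  have h2 := (hy l hl).2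
  rw [heq] at h1
  exact Set.disjoint_left.1 (hd (xi k) (xi l) (fun h => hkl (hxinj k l h))) h1 h2


theorem Full.trans {X : Type} [MeasurableSpace X] {μ : Measure X} {S T U : Set X}
    (h1 : Full μ S T) (h2 : Full μ T U) : Full μ S U := by
  refine ⟨h1.1.trans h2.1, fun H hH hS => ?_⟩
  have h0 : μ (T \ H) = 0 := h1.2 H hH hS
  have hZm : MeasurableSet (toMeasurable μ (T \ H)) := measurableSet_toMeasurable _ _
  have hZ : μ (toMeasurable μ (T \ H)) = 0 := by rw [measure_toMeasurable]; exact h0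
  have hsub : T \ H ⊆ toMeasurable μ (T \ H) := subset_toMeasurable _ _
  have hT : T ⊆ H ∪ toMeasurable μ (T \ H) := by
    intro x hx
    by_cases hxH : x ∈ H
    · exact Or.inl hxH
    · exact Or.inr (hsub ⟨hx, hxH⟩)
  have h3 := h2.2 _ (hH.union hZm) hT
  refine measure_mono_null ?_ (measure_union_null h3 hZ)
  intro x hx
  by_cases hxZ : x ∈ toMeasurable μ (T \ H)
  · exact Or.inr hxZ
  · refine Or.inl ⟨hx.1, ?_⟩
    rintro (h | h)
    · exact hx.2 h
    · exact hxZ h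

theorem Full.refl {X : Type} [MeasurableSpace X] (μ : Measure X) (S : Set X) : Full μ S S := by
  refine ⟨Subset.rfl, fun H _ h => ?_⟩
  rw [Set.sdiff_eq_empty.2 h]
  simp

theorem Full.inter {X : Type} [MeasurableSpace X] {μ : Measure X} {S T G : Set X}
    (h1 : Full μ S T) (hG : MeasurableSet G) : Full μ (S ∩ G) (T ∩ G) := by
  refine ⟨Set.inter_subset_inter_left _ h1.1, fun H hH hS => ?_⟩
  have h2 : S ⊆ H ∪ Gᶜ := by
    intro x hx
    by_cases hxG : x ∈ G
    · exact Or.inl (hS ⟨hx, hxG⟩)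
    · exact Or.inr hxG
  refine measure_mono_null ?_ (h1.2 _ (hH.union hG.compl) h2)
  intro x hx
  refine ⟨hx.1.1, ?_⟩
  rintro (h | h)
  · exact hx.2 h
  · exact h hx.1.2

theorem Full.iUnion {X ι : Type} [Countable ι] [MeasurableSpace X] {μ : Measure X}
    {S T : ι → Set X} (h : ∀ i, Full μ (S i) (T i)) : Full μ (⋃ i, S i) (⋃ i, T i) := by
  refine ⟨Set.iUnion_mono fun i => (h i).1, fun H hH hS => ?_⟩
  rw [Set.iUnion_sdiff]
  exact measure_iUnion_null fun i => (h i).2 H hH ((Set.subset_iUnion S i).trans hS)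

theorem Full.of_null {X : Type} [MeasurableSpace X] {μ : Measure X} {S T : Set X}
    (h1 : S ⊆ T) (h2 : μ (T \ S) = 0) : Full μ S T :=
  ⟨h1, fun H _ hS => measure_mono_null (show T \ H ⊆ T \ S from fun _ hx => ⟨hx.1, fun h => hx.2 (hS h)⟩) h2⟩

theorem Full.measure_eq {X : Type} [MeasurableSpace X] {μ : Measure X} {S T : Set X}
    (h1 : Full μ S T) : μ S = μ T := by
  refine le_antisymm (measure_mono h1.1) ?_
  have h2 := h1.2 _ (measurableSet_toMeasurable μ S) (subset_toMeasurable μ S)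
  have h3 : T ⊆ toMeasurable μ S ∪ (T \ toMeasurable μ S) := by
    intro x hx
    by_cases hxH : x ∈ toMeasurable μ S
    · exact Or.inl hxH
    · exact Or.inr ⟨hx, hxH⟩
  calc μ T ≤ μ (toMeasurable μ S ∪ (T \ toMeasurable μ S)) := measure_mono h3
    _ ≤ μ (toMeasurable μ S) + μ (T \ toMeasurable μ S) := measure_union_le _ _
    _ = μ S := by rw [h2, measure_toMeasurable, add_zero]

theorem Full.of_ac {X : Type} [MeasurableSpace X] {μ ν : Measure X} {S T : Set X}
    (h1 : Full ν S T) (hac : μ ≪ ν) : Full μ S T :=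
  ⟨h1.1, fun H hH hS => hac (h1.2 H hH hS)⟩

/-- disjoint measurable pieces on which the given sets are full -/
theorem pieces {X ι : Type} [Countable ι] [LinearOrder ι] [WellFoundedLT ι] [MeasurableSpace X]
    (μ : Measure X) [IsFiniteMeasure μ] (A : ι → Set X) :
    ∃ E : ι → Set X, (∀ i, MeasurableSet (E i)) ∧ (⋃ i, A i) ⊆ (⋃ i, E i) ∧
      ∀ i, Full μ (A i ∩ E i) ((⋃ j, A j) ∩ E i) := by
  have hm : ∀ i, MeasurableSet (toMeasurable μ (A i)) := fun i => measurableSet_toMeasurable _ _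
  have hEm : ∀ i, MeasurableSet (toMeasurable μ (A i) \ ⋃ j ∈ Set.Iio i, toMeasurable μ (A j)) :=
    fun i => (hm i).diff (MeasurableSet.biUnion (Set.to_countable _) fun j _ => hm j)
  refine ⟨fun i => toMeasurable μ (A i) \ ⋃ j ∈ Set.Iio i, toMeasurable μ (A j), hEm, ?_, ?_⟩
  · intro x hx
    obtain ⟨i, hi⟩ := Set.mem_iUnion.1 hx
    have hne : {i : ι | x ∈ toMeasurable μ (A i)}.Nonempty := ⟨i, subset_toMeasurable μ _ hi⟩
    have hwf : WellFounded ((· < ·) : ι → ι → Prop) := wellFounded_lt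
    refine Set.mem_iUnion.2 ⟨hwf.min _ hne, hwf.min_mem _ hne, ?_⟩
    intro h
    obtain ⟨j, hj, hxj⟩ := Set.mem_iUnion₂.1 h
    exact hwf.not_lt_min _ hxj hj
  · intro i
    refine ⟨Set.inter_subset_inter_left _ (Set.subset_iUnion A i), fun H hH hS => ?_⟩
    obtain ⟨E, hE⟩ : ∃ E, E = toMeasurable μ (A i) \ ⋃ j ∈ Set.Iio i, toMeasurable μ (A j) := ⟨_, rfl⟩
    have hEm' : MeasurableSet E := by rw [hE]; exact hEm i
    change A i ∩ (toMeasurable μ (A i) \ ⋃ j ∈ Set.Iio i, toMeasurable μ (A j)) ⊆ H at hS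
    show μ (((⋃ j, A j) ∩ (toMeasurable μ (A i) \ ⋃ j ∈ Set.Iio i, toMeasurable μ (A j))) \ H) = 0
    rw [← hE] at hS ⊢
    have hEh : E ⊆ toMeasurable μ (A i) := by rw [hE]; exact Set.diff_subset
    have hDm : MeasurableSet (E \ H) := hEm'.diff hH
    have hsub : A i ⊆ toMeasurable μ (A i) \ (E \ H) := by
      intro x hx
      refine ⟨subset_toMeasurable μ _ hx, fun h => h.2 (hS ⟨hx, h.1⟩)⟩
    have h1 : μ (toMeasurable μ (A i) \ (E \ H)) + μ (toMeasurable μ (A i) ∩ (E \ H))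
        = μ (toMeasurable μ (A i)) := measure_sdiff_add_inter _ hDm
    have h2 : μ (toMeasurable μ (A i)) ≤ μ (toMeasurable μ (A i) \ (E \ H)) := by
      rw [measure_toMeasurable]
      exact measure_mono hsub
    have h3 : toMeasurable μ (A i) ∩ (E \ H) = E \ H :=
      Set.inter_eq_right.2 (Set.diff_subset.trans hEh)
    rw [h3] at h1
    have hfin : μ (toMeasurable μ (A i) \ (E \ H)) ≠ ⊤ := measure_ne_top _ _
    have h4 : μ (toMeasurable μ (A i) \ (E \ H)) + μ (E \ H)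
        ≤ μ (toMeasurable μ (A i) \ (E \ H)) + 0 := by
      rw [h1, add_zero]; exact h2
    have h5 : μ (E \ H) ≤ 0 := (ENNReal.add_le_add_iff_left hfin).1 h4
    refine measure_mono_null ?_ (le_antisymm h5 bot_le)
    intro x hx
    exact ⟨hx.1.2, hx.2⟩


end Pool.Agent.Helper937.Rat
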