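import Pool.Agent.Helper937.Rat1

set_option autoImplicit false

open Cardinal Set MeasureTheory

namespace Pool.Agent.Helper937.Rat

theorem exists_ub (C : Set W1) (hC : C.Countable) : ∃ b : W1, ∀ c ∈ C, c < b := by
  by_contra hcon
  push Not at hcon
  have h1 : (Set.univ : Set W1) ⊆ ⋃ c ∈ C, Set.Iic c := by
    intro b _
    obtain ⟨c, hc, hbc⟩ := hcon b
    exact Set.mem_biUnion hc hbc
  have h2 : ∀ c : W1, (Set.Iic c).Countable := by
    intro c
    have h3 : #(Set.Iio c) < Cardinal.aleph 1 := Cardinal.mk_Iio_ord_toType c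
    have h4 : (Set.Iio c).Countable := by
      rw [← Cardinal.le_aleph0_iff_set_countable]
      exact Order.lt_succ_iff.1 (h3.trans_eq Cardinal.succ_aleph0.symm)
    have h5 : Set.Iic c = insert c (Set.Iio c) := by
      ext x; simp [le_iff_eq_or_lt]
    rw [h5]
    exact h4.insert c
  have h6 : (Set.univ : Set W1).Countable :=
    (hC.biUnion fun c _ => h2 c).mono h1
  have h7 : #W1 ≤ ℵ₀ := by
    rw [← Cardinal.mk_univ, Cardinal.le_aleph0_iff_set_countable]
    exact h6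
  rw [Cardinal.mk_ord_toType] at h7
  exact absurd h7 (not_le.2 (Cardinal.aleph0_lt_aleph_one))

theorem exists_max {X : Type} [MeasurableSpace X] (μ : Measure X) [IsFiniteMeasure μ]
    (h : W1 → Set X) (β : W1) :
    ∃ C : Set W1, C.Countable ∧ C ⊆ Set.Ici β ∧ ∀ D : Set W1, D.Countable → D ⊆ Set.Ici β →
      μ (⋃ ξ ∈ D, h ξ) ≤ μ (⋃ ξ ∈ C, h ξ) := by
  let S : Set ENNReal := {t | ∃ C : Set W1, C.Countable ∧ C ⊆ Set.Ici β ∧ μ (⋃ ξ ∈ C, h ξ) = t}
  have hne : S.Nonempty := ⟨_, ∅, Set.countable_empty, Set.empty_subset _, rfl⟩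
  obtain ⟨u, -, hu, huS⟩ := exists_seq_tendsto_sSup hne (OrderTop.bddAbove S)
  choose C hC1 hC2 hC3 using huS
  refine ⟨⋃ n, C n, Set.countable_iUnion hC1, Set.iUnion_subset hC2, ?_⟩
  intro D hD1 hD2
  have h1 : μ (⋃ ξ ∈ D, h ξ) ≤ sSup S := le_sSup ⟨D, hD1, hD2, rfl⟩
  refine h1.trans (le_of_tendsto' hu fun n => ?_)
  rw [← hC3 n]
  apply measure_mono
  exact Set.biUnion_subset_biUnion_left (Set.subset_iUnion C n)

theorem exact_piece {X : Type} [MeasurableSpace X] (μ : Measure X) [IsFiniteMeasure μ]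
    (T : Set X) (δ : ENNReal) (hδ : δ ≠ 0) (V : W1 → Set X) (hV : ∀ ξ, V ξ ⊆ T)
    (hd : ∀ ξ η, ξ ≠ η → Disjoint (V ξ) (V η)) (hm : ∀ ξ, δ ≤ μ (V ξ)) :
    ∃ E, MeasurableSet E ∧ μ (T ∩ E) ≠ 0 ∧ ∃ V' : W1 → Set X,
      (∀ ξ, Full μ (V' ξ) (T ∩ E)) ∧ ∀ ξ η, ξ ≠ η → Disjoint (V' ξ) (V' η) := by
  classical
  set h : W1 → Set X := fun ξ => toMeasurable μ (V ξ) with hh
  have hmeas : ∀ ξ, MeasurableSet (h ξ) := fun ξ => measurableSet_toMeasurable _ _
  have hmu : ∀ ξ, μ (h ξ) = μ (V ξ) := fun ξ => measure_toMeasurable _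
  have hsub : ∀ ξ, V ξ ⊆ h ξ := fun ξ => subset_toMeasurable _ _
  choose C hC1 hC2 hC3 using exists_max μ h
  choose ub hub using exists_ub
  have hUm : ∀ D : Set W1, D.Countable → MeasurableSet (⋃ ξ ∈ D, h ξ) :=
    fun D hD => MeasurableSet.biUnion hD fun ξ _ => hmeas ξ
  set M : W1 → ENNReal := fun β => μ (⋃ ξ ∈ C β, h ξ) with hM
  have hanti : ∀ β β', β ≤ β' → M β' ≤ M β := by
    intro β β' hb
    exact hC3 β (C β') (hC1 β') ((hC2 β').trans (Set.Ici_subset_Ici.2 hb))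
  -- stabilisation
  obtain ⟨b0, hb0⟩ : ∃ b0, ∀ β, b0 ≤ β → M b0 ≤ M β := by
    have hne : (Set.range M).Nonempty :=
      ⟨_, ⟨(ub ∅ Set.countable_empty), rfl⟩⟩
    obtain ⟨u, -, hu, huS⟩ := exists_seq_tendsto_sInf hne (OrderBot.bddBelow (Set.range M))
    choose b hb using huS
    refine ⟨ub (Set.range b) (Set.countable_range b), ?_⟩
    intro β _
    have h1 : M (ub (Set.range b) (Set.countable_range b)) ≤ sInf (Set.range M) := by
      refine ge_of_tendsto' hu fun n => ?_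
      rw [← hb n]
      exact hanti _ _ (hub _ (Set.countable_range b) _ ⟨n, rfl⟩).le
    exact h1.trans (sInf_le ⟨β, rfl⟩)
  set E : Set X := ⋃ ξ ∈ C b0, h ξ with hE
  have hEm : MeasurableSet E := hUm _ (hC1 b0)
  have hkey : ∀ β, b0 ≤ β → μ (E \ ⋃ ξ ∈ C β, h ξ) = 0 := by
    intro β hβ
    have hD : μ (⋃ ξ ∈ (C β ∪ C b0), h ξ) ≤ M b0 :=
      hC3 b0 _ ((hC1 β).union (hC1 b0))
        (Set.union_subset ((hC2 β).trans (Set.Ici_subset_Ici.2 hβ)) (hC2 b0))
    have h1 : E \ (⋃ ξ ∈ C β, h ξ) = (⋃ ξ ∈ (C β ∪ C b0), h ξ) \ (⋃ ξ ∈ C β, h ξ) := by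
      rw [Set.biUnion_union, Set.union_diff_left]
    rw [h1, measure_diff (Set.biUnion_subset_biUnion_left Set.subset_union_left)
      (hUm _ (hC1 β)).nullMeasurableSet (measure_ne_top _ _)]
    exact tsub_eq_zero_of_le (hD.trans (hb0 β hβ))
  have hfull : ∀ β, b0 ≤ β → Full μ (⋃ ξ ∈ C β, V ξ ∩ E) (T ∩ E) := by
    intro β hβ
    refine ⟨?_, ?_⟩
    · apply Set.iUnion₂_subset
      intro ξ _
      exact Set.inter_subset_inter_left _ (hV ξ)
    · intro H hH hPH
      have h1 : (T ∩ E) \ H ⊆ (E \ ⋃ ξ ∈ C β, h ξ) ∪ ⋃ ξ ∈ C β, ((h ξ ∩ E) \ H) := by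
        rintro x ⟨⟨_, hxE⟩, hxH⟩
        by_cases hx : x ∈ ⋃ ξ ∈ C β, h ξ
        · right
          simp only [Set.mem_iUnion] at hx ⊢
          obtain ⟨ξ, hξ, hx⟩ := hx
          exact ⟨ξ, hξ, ⟨hx, hxE⟩, hxH⟩
        · left
          exact ⟨hxE, hx⟩
      have h2 : ∀ ξ ∈ C β, μ ((h ξ ∩ E) \ H) = 0 := by
        intro ξ hξ
        have hK : MeasurableSet (h ξ ∩ (H ∪ Eᶜ)) := (hmeas ξ).inter (hH.union hEm.compl)
        have hVK : V ξ ⊆ h ξ ∩ (H ∪ Eᶜ) := by
          intro x hx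
          refine ⟨hsub ξ hx, ?_⟩
          by_cases hxE : x ∈ E
          · left
            apply hPH
            simp only [Set.mem_iUnion]
            exact ⟨ξ, hξ, hx, hxE⟩
          · right; exact hxE
        have h3 : (h ξ ∩ E) \ H = h ξ \ (h ξ ∩ (H ∪ Eᶜ)) := by
          ext x
          simp only [Set.mem_diff, Set.mem_inter_iff, Set.mem_union, Set.mem_compl_iff]
          tauto
        rw [h3, measure_diff Set.inter_subset_left hK.nullMeasurableSet (measure_ne_top _ _)]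
        apply tsub_eq_zero_of_le
        rw [hmu ξ]
        exact measure_mono hVK
      refine measure_mono_null h1 (measure_union_null (hkey β hβ) ?_)
      exact (measure_biUnion_null_iff (hC1 β)).2 h2
  have hTE : μ (T ∩ E) ≠ 0 := by
    have h1 : (C b0).Nonempty := by
      by_contra hemp
      rw [Set.not_nonempty_iff_eq_empty] at hemp
      have h2 := hC3 b0 {b0} (Set.countable_singleton _) (by simp)
      rw [hemp] at h2
      simp only [Set.mem_singleton_iff, Set.iUnion_iUnion_eq_left, Set.mem_empty_iff_false,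
        Set.iUnion_of_empty, Set.iUnion_empty, measure_empty] at h2
      rw [hmu b0] at h2
      exact hδ (le_antisymm ((hm b0).trans h2) bot_le)
    obtain ⟨ξ, hξ⟩ := h1
    intro h0
    have h3 : V ξ ⊆ T ∩ E := by
      intro x hx
      refine ⟨hV ξ hx, ?_⟩
      rw [hE]
      simp only [Set.mem_iUnion]
      exact ⟨ξ, hξ, hsub ξ hx⟩
    have h4 := (hm ξ).trans (measure_mono h3)
    rw [h0] at h4
    exact hδ (le_antisymm h4 bot_le)
  refine ⟨E, hEm, hTE, ?_⟩
  -- the recursion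
  have hwf : WellFounded (fun a b : W1 => a < b) := wellFounded_lt
  have hcount : ∀ ξ : W1, (Set.Iio ξ).Countable := by
    intro c
    have h3 : #(Set.Iio c) < Cardinal.aleph 1 := Cardinal.mk_Iio_ord_toType c
    rw [← Cardinal.le_aleph0_iff_set_countable]
    exact Order.lt_succ_iff.1 (h3.trans_eq Cardinal.succ_aleph0.symm)
  have hcc : ∀ (ξ : W1) (g : (η : W1) → η < ξ → W1),
      ({b0} ∪ ⋃ (η : Set.Iio ξ), C (g η.1 η.2)).Countable := by
    intro ξ g
    have : Countable (Set.Iio ξ) := (hcount ξ).to_subtype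
    exact (Set.countable_singleton _).union (Set.countable_iUnion fun η => hC1 _)
  obtain ⟨g, hg⟩ : ∃ g : W1 → W1, ∀ ξ, ∀ c ∈ ({b0} ∪ ⋃ (η : Set.Iio ξ), C (g η.1)), c < g ξ := by
    refine ⟨hwf.fix (fun ξ g => ub _ (hcc ξ g)), ?_⟩
    intro ξ c hc
    rw [WellFounded.fix_eq]
    exact hub _ (hcc ξ (fun η _ => hwf.fix (fun ξ g => ub _ (hcc ξ g)) η)) c hc
  have hg1 : ∀ ξ, b0 ≤ g ξ := fun ξ => (hg ξ b0 (Or.inl rfl)).le
  have hg2 : ∀ ξ η, η < ξ → ∀ c ∈ C (g η), c < g ξ := by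
    intro ξ η hη c hc
    apply hg ξ c
    right
    exact Set.mem_iUnion.2 ⟨⟨η, hη⟩, hc⟩
  refine ⟨fun ξ => ⋃ c ∈ C (g ξ), V c ∩ E, fun ξ => hfull _ (hg1 ξ), ?_⟩
  have hdis : ∀ ξ η, ∀ c ∈ C (g ξ), ∀ d ∈ C (g η), η < ξ → c ≠ d := by
    intro ξ η c hc d hd hlt he
    have h1 := hg2 ξ η hlt d hd
    have h2 : g ξ ≤ c := hC2 (g ξ) hc
    rw [he] at h2
    exact absurd h1 (not_lt.2 h2)
  intro ξ η hne
  rw [Set.disjoint_left]
  intro x hx hy
  simp only [Set.mem_iUnion] at hx hy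
  obtain ⟨c, hc, hxc, _⟩ := hx
  obtain ⟨d, hd', hxd, _⟩ := hy
  have hcd : c ≠ d := by
    rcases lt_or_gt_of_ne hne with hlt | hlt
    · exact (hdis η ξ d hd' c hc hlt).symm
    · exact hdis ξ η c hc d hd' hlt
  exact Set.disjoint_left.1 (hd c d hcd) hxc hxd


/-- the selection property of A: every subset T of A has a subset V of full outer measure which is
avoided by full subsets of countably many given sets R k, with respect to maps q k to finite sets -/
def Sel {X : Type} [MeasurableSpace X] (μ : Measure X) (A : Set X) : Prop :=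
  ∀ T ⊆ A, ∀ (R : ℕ → Set X) (q : ℕ → X → Finset X), ∃ V, Full μ V T ∧
    ∀ k, Full μ {x | x ∈ R k ∧ ∀ y ∈ q k x, y ∉ V} (R k)


theorem transversal {X ι : Type} [MeasurableSpace X] (μ : Measure X) [IsFiniteMeasure μ]
    (A : Set X) (hsel : Sel μ A) (π : X → ι) (hπ : ∀ i, (A ∩ π ⁻¹' {i}).Countable) :
    ∃ A', Full μ A' A ∧ Set.InjOn π A' := by
  classical
  have hf : ∀ i, ∃ f : X → ℕ, Set.InjOn f (A ∩ π ⁻¹' {i}) := fun i =>
    Set.countable_iff_exists_injOn.mp (hπ i)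
  choose f hf using hf
  let B : ℕ → Set X := fun n => {x | x ∈ A ∧ f (π x) x = n}
  have hBinj : ∀ n, ∀ x ∈ B n, ∀ y ∈ B n, π x = π y → x = y := by
    intro n x hx y hy hxy
    apply hf (π x) ⟨hx.1, rfl⟩ ⟨hy.1, hxy.symm⟩
    have h1 : f (π x) x = n := hx.2
    have h2 : f (π y) y = n := hy.2
    rw [h1, hxy, h2]
  have hBA : ∀ n, B n ⊆ A := fun n x hx => hx.1
  have hBU : (⋃ n, B n) = A := by
    ext x
    simp only [Set.mem_iUnion]
    constructor
    · rintro ⟨n, hx⟩; exact hx.1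
    · intro hx; exact ⟨f (π x) x, hx, rfl⟩
  obtain ⟨E, hEm, hEU, hEF⟩ := pieces μ B
  rw [hBU] at hEU
  rw [hBU] at hEF
  -- step
  have step : ∀ (n : ℕ) (T : ℕ → Set X), (∀ k, T k ⊆ B k) → ∃ V, Full μ V (T n) ∧
      ∀ k, Full μ {x | x ∈ T k ∧ ∀ y ∈ V, π y ≠ π x} (T k) := by
    intro n T hT
    let g : X → Finset X := fun x => if h : ∃ y, y ∈ B n ∧ π y = π x then {h.choose} else ∅
    have hg : ∀ x y, y ∈ B n → π y = π x → y ∈ g x := by
      intro x y hy hyx
      have h : ∃ y, y ∈ B n ∧ π y = π x := ⟨y, hy, hyx⟩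
      have h2 := h.choose_spec
      have h3 : y = h.choose := hBinj n y hy _ h2.1 (hyx.trans h2.2.symm)
      simp only [g]
      rw [dif_pos h]
      rw [Finset.mem_singleton]
      exact h3
    obtain ⟨V, hV, hk⟩ := hsel (T n) ((hT n).trans (hBA n)) T (fun _ => g)
    refine ⟨V, hV, fun k => ⟨fun x hx => hx.1, fun H hH hsub => ?_⟩⟩
    apply (hk k).2 H hH
    intro x hx
    apply hsub
    refine ⟨hx.1, fun y hy hyx => ?_⟩
    exact hx.2 y (hg x y (hT n (hV.1 hy)) hyx) hy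
  choose V hV1 hV2 using step
  let nxt : ℕ → {T : ℕ → Set X // ∀ k, T k ⊆ B k} → {T : ℕ → Set X // ∀ k, T k ⊆ B k} :=
    fun n s => ⟨fun k => if n < k then {x | x ∈ s.1 k ∧ ∀ y ∈ V n s.1 s.2, π y ≠ π x} else s.1 k, by
      intro k
      by_cases h : n < k
      · simp only [h, if_true]
        exact fun x hx => s.2 k hx.1
      · simp only [h, if_false]
        exact s.2 k⟩
  let st : ℕ → {T : ℕ → Set X // ∀ k, T k ⊆ B k} := fun n =>
    Nat.rec ⟨fun k => B k ∩ E k, fun k x hx => hx.1⟩ (fun n s => nxt n s) n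
  have hst0 : ∀ k, (st 0).1 k = B k ∩ E k := fun k => rfl
  have hst1 : ∀ n, st (n+1) = nxt n (st n) := fun n => rfl
  have hstlt : ∀ n k, n < k → (st (n+1)).1 k
      = {x | x ∈ (st n).1 k ∧ ∀ y ∈ V n (st n).1 (st n).2, π y ≠ π x} := by
    intro n k h
    rw [hst1]
    simp only [nxt, h, if_true]
  have hstge : ∀ n k, ¬ n < k → (st (n+1)).1 k = (st n).1 k := by
    intro n k h
    rw [hst1]
    simp only [nxt, h, if_false]
  have hmono1 : ∀ n k, (st (n+1)).1 k ⊆ (st n).1 k := by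
    intro n k
    by_cases h : n < k
    · rw [hstlt n k h]; exact fun x hx => hx.1
    · rw [hstge n k h]
  have hmono : ∀ k, Antitone (fun n => (st n).1 k) := fun k =>
    antitone_nat_of_succ_le (fun n => hmono1 n k)
  have hfull1 : ∀ n k, Full μ ((st (n+1)).1 k) ((st n).1 k) := by
    intro n k
    by_cases h : n < k
    · rw [hstlt n k h]; exact hV2 n (st n).1 (st n).2 k
    · rw [hstge n k h]; exact Full.refl μ _
  have hfull : ∀ n k, Full μ ((st n).1 k) (B k ∩ E k) := by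
    intro n k
    induction n with
    | zero => rw [hst0 k]; exact Full.refl μ _
    | succ n ih => exact Full.trans (hfull1 n k) ih
  let W : ℕ → Set X := fun n => V n (st n).1 (st n).2
  have hW1 : ∀ n, Full μ (W n) ((st n).1 n) := fun n => hV1 n (st n).1 (st n).2
  have hW2 : ∀ n, Full μ (W n) (A ∩ E n) := fun n =>
    Full.trans (Full.trans (hW1 n) (hfull n n)) (hEF n)
  have hAE : (⋃ n, A ∩ E n) = A := by
    rw [← Set.inter_iUnion]
    exact Set.inter_eq_left.mpr hEU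
  refine ⟨⋃ n, W n, ?_, ?_⟩
  · have := Full.iUnion hW2
    rw [hAE] at this
    exact this
  · have key : ∀ m n, n < m → ∀ x ∈ W m, ∀ y ∈ W n, π y ≠ π x := by
      intro m n hnm x hx y hy
      have h1 : x ∈ (st m).1 m := (hW1 m).1 hx
      have h2 : x ∈ (st (n+1)).1 m := hmono m (Nat.succ_le_of_lt hnm) h1
      rw [hstlt n m hnm] at h2
      exact h2.2 y hy
    intro x hx y hy hxy
    obtain ⟨m, hm⟩ := Set.mem_iUnion.mp hx
    obtain ⟨n, hn⟩ := Set.mem_iUnion.mp hy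
    rcases lt_trichotomy m n with h | h | h
    · exact absurd hxy (key n m h y hn x hm)
    · subst h
      exact hBinj m x ((st m).2 m ((hW1 m).1 hm)) y ((st m).2 m ((hW1 m).1 hn)) hxy
    · exact absurd hxy.symm (key m n h x hm y hn)


theorem finite_classes {X : Type} [MeasurableSpace X] (μ : Measure X) [IsFiniteMeasure μ]
    (A : Set X) (hsel : Sel μ A) (m : ℕ) (c : X → Fin m) (f : X → Finset X)
    (hcf : ∀ x ∈ A, ∀ y ∈ f x, y ∈ A → c y ≠ c x) :
    ∃ B, Full μ B A ∧ ∀ x ∈ B, ∀ y ∈ f x, y ∉ B := by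
  classical
  set A' : Fin m → Set X := fun j => {x | x ∈ A ∧ c x = j} with hA'
  have hU : (⋃ j, A' j) = A := by
    ext x
    simp only [hA', Set.mem_iUnion, Set.mem_setOf_eq]
    constructor
    · rintro ⟨j, h, -⟩; exact h
    · intro h; exact ⟨c x, h, rfl⟩
  obtain ⟨E, hE, hAE, hp⟩ := pieces μ A'
  rw [hU] at hAE
  simp_rw [hU] at hp
  have claim : ∀ n : ℕ, n ≤ m → ∃ T : Fin m → Set X, (∀ k, Full μ (T k) (A' k ∩ E k)) ∧
      ∀ i : Fin m, (i : ℕ) < n → ∀ k, k ≠ i → ∀ x ∈ T k, ∀ y ∈ f x, y ∉ T i := by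
    intro n
    induction n with
    | zero =>
      intro _
      exact ⟨fun k => A' k ∩ E k, fun k => Full.refl μ _, fun i hi => absurd hi (Nat.not_lt_zero _)⟩
    | succ n ih =>
      intro hn
      obtain ⟨T, hT, hTp⟩ := ih (by omega)
      set i : Fin m := ⟨n, by omega⟩ with hi
      have hsub : T i ⊆ A := fun x hx => ((hT i).1 hx).1.1
      obtain ⟨V, hV, hk⟩ := hsel (T i) hsub (fun k => if h : k < m then T ⟨k, h⟩ else ∅)
        (fun _ => f)
      have hk' : ∀ k : Fin m, Full μ {x | x ∈ T k ∧ ∀ y ∈ f x, y ∉ V} (T k) := by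
        intro k
        have h1 := hk k
        simp only [k.2, dif_pos] at h1
        exact h1
      set T' : Fin m → Set X := fun k => if k = i then V else {x | x ∈ T k ∧ ∀ y ∈ f x, y ∉ V}
        with hT'
      have hTi : T' i = V := by simp [hT']
      have hTk : ∀ k, k ≠ i → T' k = {x | x ∈ T k ∧ ∀ y ∈ f x, y ∉ V} := by
        intro k hk0
        simp only [hT']
        rw [if_neg hk0]
      have hsubT : ∀ k, T' k ⊆ T k := by
        intro k
        by_cases h : k = i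
        · rw [h, hTi]; exact hV.1
        · rw [hTk k h]; exact fun x hx => hx.1
      refine ⟨T', ?_, ?_⟩
      · intro k
        by_cases h : k = i
        · rw [h, hTi]; exact hV.trans (hT i)
        · rw [hTk k h]; exact (hk' k).trans (hT k)
      · intro j hj k hkj x hx y hy
        by_cases h : j = i
        · subst h
          rw [hTk k hkj] at hx
          rw [hTi]
          exact hx.2 y hy
        · have hj' : (j : ℕ) < n := by
            have : (j : ℕ) ≠ n := fun hh => h (Fin.ext hh)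
            omega
          intro hy'
          exact hTp j hj' k hkj x (hsubT k hx) y hy (hsubT j hy')
  obtain ⟨T, hT, hTp⟩ := claim m le_rfl
  refine ⟨⋃ k, T k, ?_, ?_⟩
  · have h1 : Full μ (⋃ k, T k) (⋃ k, (A' k ∩ E k)) := Full.iUnion hT
    have h2 : Full μ (⋃ k, (A' k ∩ E k)) (⋃ k, (A ∩ E k)) := Full.iUnion hp
    have h3 : (⋃ k, (A ∩ E k)) = A := by
      rw [← Set.inter_iUnion]
      exact Set.inter_eq_left.2 hAE
    rw [h3] at h2
    exact h1.trans h2
  · intro x hx y hy hy'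
    rw [Set.mem_iUnion] at hx hy'
    obtain ⟨k, hk⟩ := hx
    obtain ⟨i, hi⟩ := hy'
    by_cases h : k = i
    · subst h
      have hx1 := ((hT k).1 hk).1
      have hy1 := ((hT k).1 hi).1
      exact hcf x hx1.1 y hy hy1.1 (by rw [hy1.2, hx1.2])
    · exact hTp i i.2 k h x hk y hy hi



theorem greedy {V W : Type} (lt : W → W → Prop) [IsWellOrder W lt] (π : V → W)
    (f : V → Finset V) (n : ℕ) (hf : ∀ x, ∀ y ∈ f x, lt (π y) (π x))
    (hcard : ∀ x, (f x).card ≤ n) :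
    ∃ c : V → Fin (n + 1), ∀ x, ∀ y ∈ f x, c y ≠ c x := by
  classical
  have wf0 : WellFounded lt := IsWellFounded.wf
  have wf : WellFounded (InvImage lt π) := InvImage.wf π wf0
  have hf' : ∀ x, ∀ y ∈ f x, InvImage lt π y x := fun x y hy => hf x y hy
  have pick : ∀ (x : V) (g : ∀ y, InvImage lt π y x → Fin (n+1)),
      ∃ k : Fin (n+1), ∀ y (hy : y ∈ f x), g y (hf' x y hy) ≠ k := by
    intro x g
    let S : Finset (Fin (n+1)) := (f x).attach.image (fun y => g y.1 (hf' x y.1 y.2))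
    have hS : S.card < (Finset.univ : Finset (Fin (n+1))).card := by
      calc S.card ≤ (f x).attach.card := Finset.card_image_le
        _ = (f x).card := Finset.card_attach
        _ ≤ n := hcard x
        _ < _ := by simp
    obtain ⟨k, _, hk⟩ := Finset.exists_mem_notMem_of_card_lt_card hS
    refine ⟨k, fun y hy h => hk ?_⟩
    exact Finset.mem_image.2 ⟨⟨y, hy⟩, Finset.mem_attach _ _, h⟩
  choose pk hpk using pick
  refine ⟨wf.fix pk, fun x y hy => ?_⟩
  have h := hpk x (fun y _ => wf.fix pk y) y hy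
  rw [← wf.fix_eq pk x] at h
  exact h

end Pool.Agent.Helper937.Rat
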