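import Mathlib

set_option autoImplicit false

open Cardinal Set

namespace Pool.Agent.Helper937.Rat

def stp {V : Type} (r : V → V → Prop) (S : Set V) : Set V :=
  S ∪ ⋃ p ∈ {p : V × V | p.1 ∈ S ∧ p.2 ∈ S ∧ p.1 ≠ p.2}, {x | r x p.1 ∧ r x p.2}

/-- the closure -/
def clo {V : Type} (r : V → V → Prop) (S : Set V) : Set V := ⋃ k : ℕ, (stp r)^[k] S

theorem stp_card {V : Type} (r : V → V → Prop)
    (hcn : ∀ a b, a ≠ b → {x | r x a ∧ r x b}.Countable) (κ : Cardinal.{0}) (hκ : ℵ₀ ≤ κ)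
    (S : Set V) (hS : #S ≤ κ) : #(stp r S) ≤ κ := by
  unfold stp
  refine (mk_union_le _ _).trans (Cardinal.add_le_of_le hκ hS ?_)
  refine (mk_biUnion_le _ _).trans (Cardinal.mul_le_of_le hκ ?_ ?_)
  · have h1 : #{p : V × V | p.1 ∈ S ∧ p.2 ∈ S ∧ p.1 ≠ p.2} ≤ #(S × S) := by
      refine Cardinal.mk_le_of_injective
        (f := fun p : {p : V × V | p.1 ∈ S ∧ p.2 ∈ S ∧ p.1 ≠ p.2} =>
          ((⟨p.1.1, p.2.1⟩, ⟨p.1.2, p.2.2.1⟩) : S × S)) ?_
      intro p q h
      simp only [Prod.mk.injEq, Subtype.mk.injEq] at h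
      exact Subtype.ext (Prod.ext h.1 h.2)
    refine h1.trans ?_
    rw [Cardinal.mk_prod, Cardinal.lift_id]
    exact Cardinal.mul_le_of_le hκ hS hS
  · refine ciSup_le' ?_
    intro p
    exact ((hcn _ _ p.2.2.2).le_aleph0).trans hκ

theorem clo_card {V : Type} (r : V → V → Prop)
    (hcn : ∀ a b, a ≠ b → {x | r x a ∧ r x b}.Countable) (κ : Cardinal.{0}) (hκ : ℵ₀ ≤ κ)
    (S : Set V) (hS : #S ≤ κ) : #(clo r S) ≤ κ := by
  have hk : ∀ k : ℕ, #((stp r)^[k] S : Set V) ≤ κ := by
    intro k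
    induction k with
    | zero => exact hS
    | succ k ih =>
      rw [Function.iterate_succ_apply']
      exact stp_card r hcn κ hκ _ ih
  unfold clo
  refine (mk_iUnion_le _).trans (Cardinal.mul_le_of_le hκ ?_ (ciSup_le' hk))
  rw [Cardinal.mk_nat]
  exact hκ

theorem subset_stp {V : Type} (r : V → V → Prop) (S : Set V) : S ⊆ stp r S :=
  Set.subset_union_left

theorem stp_mono {V : Type} (r : V → V → Prop) : Monotone (stp r) := by
  intro S T h x hx
  rcases hx with hx | hx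
  · exact Or.inl (h hx)
  · right
    simp only [Set.mem_iUnion] at hx ⊢
    obtain ⟨p, hp, hx⟩ := hx
    exact ⟨p, ⟨h hp.1, h hp.2.1, hp.2.2⟩, hx⟩

theorem iter_mono {V : Type} (r : V → V → Prop) (S : Set V) :
    Monotone (fun k : ℕ => (stp r)^[k] S) := by
  refine monotone_nat_of_le_succ fun k => ?_
  simp only [Function.iterate_succ_apply']
  exact subset_stp r _

theorem subset_clo {V : Type} (r : V → V → Prop) (S : Set V) : S ⊆ clo r S :=
  Set.subset_iUnion (fun k : ℕ => (stp r)^[k] S) 0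

theorem clo_mono {V : Type} (r : V → V → Prop) : Monotone (clo r) := by
  intro S T h
  exact Set.iUnion_mono fun k => (stp_mono r).iterate k h

theorem clo_closed {V : Type} (r : V → V → Prop) (S : Set V) (a b x : V) (ha : a ∈ clo r S)
    (hb : b ∈ clo r S) (hab : a ≠ b) (h1 : r x a) (h2 : r x b) : x ∈ clo r S := by
  obtain ⟨i, hi⟩ := Set.mem_iUnion.1 ha
  obtain ⟨j, hj⟩ := Set.mem_iUnion.1 hb
  refine Set.mem_iUnion.2 ⟨max i j + 1, ?_⟩
  rw [Function.iterate_succ_apply']
  right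
  simp only [Set.mem_iUnion]
  exact ⟨(a, b), ⟨iter_mono r S (le_max_left i j) hi, iter_mono r S (le_max_right i j) hj, hab⟩,
    h1, h2⟩

/-- in a graph in which two distinct vertices have only countably many common neighbours, every
set of at most ℵ_n vertices is a well-ordered union of countable blocks such that every vertex
has at most n neighbours in earlier blocks -/
theorem blocks {V : Type} (r : V → V → Prop)
    (hcn : ∀ a b, a ≠ b → {x | r x a ∧ r x b}.Countable) (n : ℕ) :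
    ∀ A : Set V, #A ≤ Cardinal.aleph (n : Ordinal.{0}) →
      ∃ (W : Type) (lt : W → W → Prop) (_ : IsWellOrder W lt) (π : V → W),
        (∀ w, (A ∩ π ⁻¹' {w}).Countable) ∧
        ∀ x ∈ A, {y | y ∈ A ∧ r x y ∧ lt (π y) (π x)}.encard ≤ n := by
  classical
  induction n with
  | zero =>
    intro A hA
    have hA' : A.Countable := by
      rw [← Cardinal.le_aleph0_iff_set_countable]
      simpa using hA
    refine ⟨Unit, fun _ _ => False, ⟨⟩, fun _ => (), ?_, ?_⟩
    · intro w
      exact hA'.mono Set.inter_subset_left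
    · intro x _
      simp
  | succ n ih =>
    intro A hA
    rcases A.eq_empty_or_nonempty with rfl | hne
    · refine ⟨Unit, fun _ _ => False, ⟨⟩, fun _ => (), ?_, ?_⟩
      · intro w; simp
      · intro x hx; exact absurd hx (Set.notMem_empty x)
    set κ : Cardinal.{0} := Cardinal.aleph (n : Ordinal.{0}) with hκdef
    have hκ : ℵ₀ ≤ κ := Cardinal.aleph0_le_aleph _
    have hsucc : Cardinal.aleph ((n + 1 : ℕ) : Ordinal.{0}) = Order.succ κ := by
      rw [hκdef, Cardinal.succ_aleph]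
      congr 1
    rw [hsucc] at hA
    let Λ := (Order.succ κ).ord.ToType
    have hΛcard : #Λ = Order.succ κ := Cardinal.mk_ord_toType _
    have hIio : ∀ α : Λ, #(Set.Iio α) ≤ κ := by
      intro α
      have h1 : #(Set.Iio α) < #Λ := Cardinal.mk_Iio_lt α (by simp [Λ])
      rw [hΛcard] at h1
      exact Order.lt_succ_iff.1 h1
    -- enumeration
    obtain ⟨a, ha⟩ : ∃ a : Λ → V, A ⊆ Set.range a := by
      have h1 : #A ≤ #Λ := by rw [hΛcard]; exact hA
      obtain ⟨f⟩ := Cardinal.le_def _ _ |>.1 h1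
      haveI : Nonempty A := hne.to_subtype
      refine ⟨fun l => ((Function.invFun f l : A) : V), ?_⟩
      intro x hx
      refine ⟨f ⟨x, hx⟩, ?_⟩
      show ((Function.invFun f (f ⟨x, hx⟩) : A) : V) = x
      rw [Function.leftInverse_invFun f.injective]
    let M : Λ → Set V := fun α => clo r (a '' Set.Iic α)
    have hMmono : Monotone M := fun α β h => clo_mono r (Set.image_mono (Set.Iic_subset_Iic.2 h))
    have hMcard : ∀ α, #(M α) ≤ κ := by
      intro α
      refine clo_card r hcn κ hκ _ (Cardinal.mk_image_le.trans ?_)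
      have : (Set.Iic α) = insert α (Set.Iio α) := by
        ext β; simp [le_iff_eq_or_lt]
      rw [this]
      refine (Cardinal.mk_insert_le).trans ?_
      exact Cardinal.add_le_of_le hκ (hIio α) (Cardinal.one_le_aleph0.trans hκ)
    have hAM : ∀ x ∈ A, ∃ α, x ∈ M α := by
      intro x hx
      obtain ⟨α, rfl⟩ := ha hx
      exact ⟨α, subset_clo r _ ⟨α, le_refl α, rfl⟩⟩
    obtain ⟨x₀, hx₀⟩ := hne
    obtain ⟨α₀, -⟩ := hAM x₀ hx₀
    have hwf : WellFounded (fun x y : Λ => x < y) := wellFounded_lt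
    let ρ : V → Λ := fun x => if h : ∃ α, x ∈ M α then hwf.min {α | x ∈ M α} h else α₀
    have hρ1 : ∀ x, (∃ α, x ∈ M α) → x ∈ M (ρ x) := by
      intro x h
      have : ρ x = hwf.min {α | x ∈ M α} h := dif_pos h
      rw [this]
      exact hwf.min_mem {α | x ∈ M α} h
    have hρ2 : ∀ x α, x ∈ M α → ρ x ≤ α := by
      intro x α h
      have h' : ∃ α, x ∈ M α := ⟨α, h⟩
      have : ρ x = hwf.min {α | x ∈ M α} h' := dif_pos h'
      rw [this]
      exact not_lt.1 (hwf.not_lt_min {α | x ∈ M α} h)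
    -- levels
    have hlev : ∀ α : Λ, ∃ (W : Type) (lt : W → W → Prop) (_ : IsWellOrder W lt) (π : V → W),
        (∀ w, ({x | x ∈ A ∧ ρ x = α} ∩ π ⁻¹' {w}).Countable) ∧
        ∀ x ∈ {x | x ∈ A ∧ ρ x = α},
          {y | y ∈ {x | x ∈ A ∧ ρ x = α} ∧ r x y ∧ lt (π y) (π x)}.encard ≤ n := by
      intro α
      apply ih
      refine (Cardinal.mk_le_mk_of_subset (t := M α) ?_).trans (hMcard α)
      rintro x ⟨hx, rfl⟩
      exact hρ1 x (hAM x hx)
    choose W lt hwo π hπ1 hπ2 using hlev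
    refine ⟨Σ' α : Λ, W α, PSigma.Lex (fun x y : Λ => x < y) (fun α => lt α), ?_,
      fun x => ⟨ρ x, π (ρ x) x⟩, ?_, ?_⟩
    · haveI : Std.Trichotomous (PSigma.Lex (fun x y : Λ => x < y) (fun α => lt α)) := by
        constructor
        rintro ⟨α, u⟩ ⟨β, v⟩ h1 h2
        rcases lt_trichotomy α β with h | h | h
        · exact absurd (PSigma.Lex.left _ _ h) h1
        · subst h
          have : u = v := by
            refine (hwo α).toTrichotomous.trichotomous u v ?_ ?_
            · intro h3; exact h1 (PSigma.Lex.right _ h3)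
            · intro h3; exact h2 (PSigma.Lex.right _ h3)
          rw [this]
        · exact absurd (PSigma.Lex.left _ _ h) h2
      haveI : IsWellFounded (Σ' α : Λ, W α) (PSigma.Lex (fun x y : Λ => x < y) (fun α => lt α)) := by
        constructor
        constructor
        rintro ⟨α, u⟩
        exact PSigma.lexAccessible (hwf.apply α) (fun β => (hwo β).toIsWellFounded.wf) u
      exact {}
    · rintro ⟨α, w⟩
      refine (hπ1 α w).mono ?_
      rintro x ⟨hxA, hx⟩
      have hx' : (⟨ρ x, π (ρ x) x⟩ : Σ' α : Λ, W α) = ⟨α, w⟩ := hx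
      have h1 : ρ x = α := congrArg PSigma.fst hx'
      subst h1
      refine ⟨⟨hxA, rfl⟩, ?_⟩
      have := (PSigma.mk.inj hx').2
      exact eq_of_heq this
    · intro x hxA
      have hlex : ∀ (α β : Λ) (u : W α) (y : V), u = π α y → ∀ (v : W β), v = π β x →
          PSigma.Lex (fun x y : Λ => x < y) (fun α => lt α) (⟨α, u⟩ : Σ' α : Λ, W α) ⟨β, v⟩ →
          α < β ∨ (α = β ∧ lt β (π β y) (π β x)) := by
        intro α β u y hu v hv h
        cases h with
        | left _ _ h => exact Or.inl h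
        | right _ h => right; refine ⟨rfl, ?_⟩; rw [← hu, ← hv]; exact h
      have hsub : {y | y ∈ A ∧ r x y ∧ PSigma.Lex (fun x y : Λ => x < y) (fun α => lt α)
          (⟨ρ y, π (ρ y) y⟩ : Σ' α : Λ, W α) ⟨ρ x, π (ρ x) x⟩} ⊆
          {y | y ∈ A ∧ r x y ∧ ρ y < ρ x} ∪
          {y | y ∈ {z | z ∈ A ∧ ρ z = ρ x} ∧ r x y ∧ lt (ρ x) (π (ρ x) y) (π (ρ x) x)} := by
        rintro y ⟨h1, h2, h3⟩
        rcases hlex _ _ _ y rfl _ rfl h3 with h | ⟨h, h'⟩
        · exact Or.inl ⟨h1, h2, h⟩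
        · exact Or.inr ⟨⟨h1, h⟩, h2, h'⟩
      refine (Set.encard_le_encard hsub).trans ((Set.encard_union_le _ _).trans ?_)
      have e2 := hπ2 (ρ x) x ⟨hxA, rfl⟩
      have e1 : {y | y ∈ A ∧ r x y ∧ ρ y < ρ x}.encard ≤ 1 := by
        rw [Set.encard_le_one_iff]
        rintro y z ⟨hy, hry, hρy⟩ ⟨hz, hrz, hρz⟩
        by_contra hyz
        let γ := max (ρ y) (ρ z)
        have h1 : y ∈ M γ := hMmono (le_max_left _ _) (hρ1 y (hAM y hy))
        have h2 : z ∈ M γ := hMmono (le_max_right _ _) (hρ1 z (hAM z hz))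
        have h3 : x ∈ M γ := clo_closed r _ y z x h1 h2 hyz hry hrz
        have h4 := hρ2 x γ h3
        exact absurd (lt_of_le_of_lt h4 (max_lt hρy hρz)) (lt_irrefl _)
      calc {y | y ∈ A ∧ r x y ∧ ρ y < ρ x}.encard + _ ≤ 1 + (n : ℕ∞) := add_le_add e1 e2
        _ = ((n + 1 : ℕ) : ℕ∞) := by push_cast; ring


end Pool.Agent.Helper937.Rat
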