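import Pool.Agent.Helper937.Rat2
import Pool.Agent.Helper937.Rat3

set_option autoImplicit false

open Cardinal Set MeasureTheory

namespace Pool.Agent.Helper937.Rat

theorem uncountable_W1 : ¬ (Set.univ : Set W1).Countable := by
  rw [Set.countable_univ_iff, ← Cardinal.mk_le_aleph0_iff, Cardinal.mk_ord_toType, not_le]
  exact Cardinal.aleph0_lt_aleph_one

theorem sel_of_card {X : Type} [MeasurableSpace X] (μ : Measure X) [IsFiniteMeasure μ]
    (hμ0 : ∀ x, μ {x} = 0) (A : Set X) (n : ℕ) (hA : #A ≤ Cardinal.aleph (n : Ordinal.{0})) : Sel μ A := by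
  classical
  intro T hT R q
  have hfam : ∃ V : W1 → Set X, (∀ ξ, Full μ (V ξ) T) ∧
      ∀ ξ η, ξ ≠ η → Disjoint (V ξ) (V η) := by
    apply exhaust μ T
    intro G hG hTG
    have hne : (T ∩ G).Nonempty := by
      rw [Set.nonempty_iff_ne_empty]
      intro h
      rw [h] at hTG
      exact hTG measure_empty
    obtain ⟨x0, hx0⟩ := hne
    let q0 : X → A := fun x => if h : x ∈ A then ⟨x, h⟩ else ⟨x0, hT hx0.1⟩
    have hq0 : ∀ x ∈ A, (q0 x : X) = x := by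
      intro x hx
      simp only [q0]
      rw [dif_pos hx]
    obtain ⟨δ, Z, hδ, hd, hm⟩ := disj_small μ n A hA (T ∩ G) q0 hTG (by
      intro ω
      refine measure_mono_null (t := {(ω : X)}) ?_ (hμ0 _)
      rintro x ⟨hx, hxq⟩
      rw [Set.mem_preimage, Set.mem_singleton_iff] at hxq
      rw [Set.mem_singleton_iff, ← hxq, hq0 x (hT hx.1)])
    obtain ⟨E, hE, hTE, V', hV', hd'⟩ := exact_piece μ (T ∩ G) δ hδ
      (fun ξ => (T ∩ G) ∩ q0 ⁻¹' (Z ξ)) (fun ξ => Set.inter_subset_left)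
      (by
        intro ξ η hne
        rw [Set.disjoint_left]
        rintro x ⟨_, hx1⟩ ⟨_, hx2⟩
        exact Set.disjoint_left.1 (hd ξ η hne) hx1 hx2) hm
    refine ⟨G ∩ E, hG.inter hE, Set.inter_subset_left, ?_, V', ?_, hd'⟩
    · rwa [← Set.inter_assoc]
    · intro ξ
      rw [← Set.inter_assoc]
      exact hV' ξ
  obtain ⟨V, hV, hd⟩ := hfam
  have hbad : (⋃ k : ℕ, {ξ : W1 | ¬ Full μ {x | x ∈ R k ∧ ∀ y ∈ q k x, y ∉ V ξ} (R k)}).Countable :=
    Set.countable_iUnion fun k => avoid μ V hd (R k) (q k)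
  have hex : ∃ ξ, ξ ∉ ⋃ k : ℕ, {ξ : W1 | ¬ Full μ {x | x ∈ R k ∧ ∀ y ∈ q k x, y ∉ V ξ} (R k)} := by
    by_contra hcon
    push Not at hcon
    exact uncountable_W1 (hbad.mono fun ξ _ => hcon ξ)
  obtain ⟨ξ, hξ⟩ := hex
  refine ⟨V ξ, hV ξ, fun k => ?_⟩
  by_contra hcon
  exact hξ (Set.mem_iUnion.2 ⟨k, hcon⟩)

theorem Sel.mono {X : Type} [MeasurableSpace X] {μ : Measure X} {A A' : Set X} (h : Sel μ A)
    (hA : A' ⊆ A) : Sel μ A' := fun T hT => h T (hT.trans hA)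

/-- the abstract theorem -/
theorem free_full {X : Type} [MeasurableSpace X] (μ : Measure X) [IsFiniteMeasure μ]
    (hμ0 : ∀ x, μ {x} = 0) (r : X → X → Prop) (hsymm : ∀ a b, r a b → r b a)
    (hcn : ∀ a b, a ≠ b → {x | r x a ∧ r x b}.Countable)
    (A : Set X) (n : ℕ) (hA : #A ≤ Cardinal.aleph (n : Ordinal.{0})) :
    ∃ B, Full μ B A ∧ ∀ x ∈ B, ∀ y ∈ B, x ≠ y → ¬ r x y := by
  classical
  have hsel := sel_of_card μ hμ0 A n hA
  obtain ⟨W, lt, hlt, π, hπ, hcard⟩ := blocks r hcn n A hA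
  obtain ⟨A', hA', hinj⟩ := transversal μ A hsel π hπ
  have hfin : ∀ x ∈ A', {y | y ∈ A' ∧ r x y ∧ lt (π y) (π x)}.Finite := by
    intro x hx
    have h1 : {y | y ∈ A' ∧ r x y ∧ lt (π y) (π x)} ⊆ {y | y ∈ A ∧ r x y ∧ lt (π y) (π x)} :=
      fun y hy => ⟨hA'.1 hy.1, hy.2⟩
    refine Set.Finite.subset ?_ h1
    apply Set.finite_of_encard_le_coe (hcard x (hA'.1 hx))
  let f : X → Finset X := fun x => if h : x ∈ A' then (hfin x h).toFinset else ∅
  have hf1 : ∀ x, ∀ y ∈ f x, x ∈ A' ∧ y ∈ A' ∧ r x y ∧ lt (π y) (π x) := by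
    intro x y hy
    by_cases h : x ∈ A'
    · simp only [f] at hy
      rw [dif_pos h, Set.Finite.mem_toFinset] at hy
      exact ⟨h, hy⟩
    · simp only [f] at hy
      rw [dif_neg h] at hy
      exact absurd hy (Finset.notMem_empty y)
  have hf2 : ∀ x ∈ A', ∀ y ∈ A', r x y → lt (π y) (π x) → y ∈ f x := by
    intro x hx y hy h1 h2
    simp only [f]
    rw [dif_pos hx, Set.Finite.mem_toFinset]
    exact ⟨hy, h1, h2⟩
  have hf3 : ∀ x, (f x).card ≤ n := by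
    intro x
    by_cases h : x ∈ A'
    · have h0 : {y | y ∈ A' ∧ r x y ∧ lt (π y) (π x)} ⊆
          {y | y ∈ A ∧ r x y ∧ lt (π y) (π x)} := fun y hy => ⟨hA'.1 hy.1, hy.2⟩
      have h1 : {y | y ∈ A' ∧ r x y ∧ lt (π y) (π x)}.encard ≤ n :=
        (Set.encard_le_encard h0).trans (hcard x (hA'.1 h))
      rw [(hfin x h).encard_eq_coe_toFinset_card] at h1
      simp only [f]
      rw [dif_pos h]
      exact_mod_cast h1
    · simp only [f]
      rw [dif_neg h]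
      simp
  obtain ⟨c, hc⟩ := greedy lt π f n (fun x y hy => (hf1 x y hy).2.2.2) hf3
  obtain ⟨B, hB, hfree⟩ := finite_classes μ A' (hsel.mono hA'.1) (n + 1) c f
    (fun x _ y hy _ => hc x y hy)
  refine ⟨B, hB.trans hA', ?_⟩
  intro x hx y hy hne hr
  have hx' := hB.1 hx
  have hy' := hB.1 hy
  rcases trichotomous_of lt (π x) (π y) with h | h | h
  · exact hfree y hy x (hf2 y hy' x hx' (hsymm x y hr) h) hx
  · exact hne (hinj hx' hy' h)
  · exact hfree x hx y (hf2 x hx' y hy' hr h) hy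

theorem two_circles' (D : Set ℝ) (hD : D.Countable) (a b : EuclideanSpace ℝ (Fin 2)) (hab : a ≠ b) :
    {x : EuclideanSpace ℝ (Fin 2) | dist x a ∈ D ∧ dist x b ∈ D}.Countable := by
  have h1 : {x : EuclideanSpace ℝ (Fin 2) | dist x a ∈ D ∧ dist x b ∈ D} ⊆
      ⋃ p ∈ D ×ˢ D, {x : EuclideanSpace ℝ (Fin 2) | dist x a = p.1 ∧ dist x b = p.2} := by
    intro x hx
    rw [Set.mem_iUnion₂]
    exact ⟨(dist x a, dist x b), ⟨hx.1, hx.2⟩, rfl, rfl⟩
  refine Set.Countable.mono h1 (Set.Countable.biUnion (hD.prod hD) ?_)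
  rintro ⟨p, q⟩ -
  apply Set.Finite.countable
  by_cases h2 : ({x : EuclideanSpace ℝ (Fin 2) | dist x a = p ∧ dist x b = q}).Subsingleton
  · exact h2.finite
  · rw [Set.not_subsingleton_iff] at h2
    obtain ⟨x, hx, y, hy, hxy⟩ := h2
    refine Set.Finite.subset (Set.toFinite {x, y}) ?_
    intro z hz
    have hd : Module.finrank ℝ (EuclideanSpace ℝ (Fin 2)) = 2 := finrank_euclideanSpace_fin
    exact EuclideanGeometry.eq_of_dist_eq_of_dist_eq_of_finrank_eq_two hd hab hxy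
      hx.1 hy.1 hz.1 hx.2 hy.2 hz.2

/-- a finite measure with the same null sets as Lebesgue measure -/
theorem exists_fin : ∃ ν : Measure (EuclideanSpace ℝ (Fin 2)), IsFiniteMeasure ν ∧
    (volume : Measure (EuclideanSpace ℝ (Fin 2))) ≪ ν ∧ ν ≪ volume ∧ ∀ x, ν {x} = 0 := by
  obtain ⟨ν, h1, h2, h3⟩ := exists_isFiniteMeasure_absolutelyContinuous
    (volume : Measure (EuclideanSpace ℝ (Fin 2)))
  refine ⟨ν, h1, h2, h3, fun x => h3 ?_⟩
  simp


end Pool.Agent.Helper937.Rat
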