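import Pool.Agent.Helper937.Rat4

set_option autoImplicit false

open Cardinal Set MeasureTheory

namespace Pool.Agent.Helper937.Rat

/-- a rank function with values in ℕ -/
theorem rank_fun {V W : Type} (lt : W → W → Prop) [IsWellOrder W lt] (π : V → W)
    (f : V → Finset V) (hf : ∀ x, ∀ y ∈ f x, lt (π y) (π x)) :
    ∃ c : V → ℕ, ∀ x, ∀ y ∈ f x, c y < c x := by
  classical
  have wf0 : WellFounded lt := IsWellFounded.wf
  have wf : WellFounded (InvImage lt π) := InvImage.wf π wf0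
  have hf' : ∀ x, ∀ y ∈ f x, InvImage lt π y x := fun x y hy => hf x y hy
  have pick : ∀ (x : V) (g : ∀ y, InvImage lt π y x → ℕ),
      ∃ k : ℕ, ∀ y (hy : y ∈ f x), g y (hf' x y hy) < k := by
    intro x g
    refine ⟨(f x).attach.sup (fun y => g y.1 (hf' x y.1 y.2)) + 1, fun y hy => ?_⟩
    exact Nat.lt_succ_of_le
      (Finset.le_sup (f := fun y : {y // y ∈ f x} => g y.1 (hf' x y.1 y.2))
        (Finset.mem_attach _ ⟨y, hy⟩))
  choose pk hpk using pick
  refine ⟨wf.fix pk, fun x y hy => ?_⟩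
  have h := hpk x (fun y _ => wf.fix pk y) y hy
  rw [← wf.fix_eq pk x] at h
  exact h

theorem ranked_classes {X : Type} [MeasurableSpace X] (μ : Measure X) [IsFiniteMeasure μ]
    (A : Set X) (hsel : Sel μ A) (d : X → ℕ) (f : X → Finset X)
    (hd : ∀ x ∈ A, ∀ y ∈ f x, d y < d x) :
    ∃ B, Full μ B A ∧ ∀ x ∈ B, ∀ y ∈ f x, y ∉ B := by
  classical
  let B : ℕ → Set X := fun n => {x | x ∈ A ∧ d x = n}
  have hBA : ∀ n, B n ⊆ A := fun n x hx => hx.1
  have hBU : (⋃ n, B n) = A := by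
    ext x
    simp only [Set.mem_iUnion]
    constructor
    · rintro ⟨n, hx⟩; exact hx.1
    · intro hx; exact ⟨d x, hx, rfl⟩
  obtain ⟨E, hEm, hEU, hEF⟩ := pieces μ B
  rw [hBU] at hEU
  rw [hBU] at hEF
  -- step
  have step : ∀ (n : ℕ) (T : ℕ → Set X), (∀ k, T k ⊆ B k) → ∃ V, Full μ V (T n) ∧
      ∀ k, Full μ {x | x ∈ T k ∧ ∀ y ∈ f x, y ∉ V} (T k) := by
    intro n T hT
    exact hsel (T n) ((hT n).trans (hBA n)) T (fun _ => f)
  choose V hV1 hV2 using step
  let nxt : ℕ → {T : ℕ → Set X // ∀ k, T k ⊆ B k} → {T : ℕ → Set X // ∀ k, T k ⊆ B k} :=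
    fun n s => ⟨fun k => if n < k then {x | x ∈ s.1 k ∧ ∀ y ∈ f x, y ∉ V n s.1 s.2} else s.1 k, by
      intro k
      by_cases h : n < k
      · simp only [h, if_true]
        exact fun x hx => s.2 k hx.1
      · simp only [h, if_false]
        exact s.2 k⟩
  let st : ℕ → {T : ℕ → Set X // ∀ k, T k ⊆ B k} := fun n =>
    Nat.rec ⟨fun k => B k ∩ E k, fun k x hx => hx.1⟩ (fun n s => nxt n s) n
  have hst0 : ∀ k, (st 0).1 k = B k ∩ E k := fun k => rfl
  have hst1 : ∀ n, st (n+1) = nxt n (st n) := fun n => rfl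
  have hstlt : ∀ n k, n < k → (st (n+1)).1 k
      = {x | x ∈ (st n).1 k ∧ ∀ y ∈ f x, y ∉ V n (st n).1 (st n).2} := by
    intro n k h
    rw [hst1]
    simp only [nxt, h, if_true]
  have hstge : ∀ n k, ¬ n < k → (st (n+1)).1 k = (st n).1 k := by
    intro n k h
    rw [hst1]
    simp only [nxt, h, if_false]
  have hmono1 : ∀ n k, (st (n+1)).1 k ⊆ (st n).1 k := by
    intro n k
    by_cases h : n < k
    · rw [hstlt n k h]; exact fun x hx => hx.1
    · rw [hstge n k h]
  have hmono : ∀ k, Antitone (fun n => (st n).1 k) := fun k =>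
    antitone_nat_of_succ_le (fun n => hmono1 n k)
  have hfull1 : ∀ n k, Full μ ((st (n+1)).1 k) ((st n).1 k) := by
    intro n k
    by_cases h : n < k
    · rw [hstlt n k h]; exact hV2 n (st n).1 (st n).2 k
    · rw [hstge n k h]; exact Full.refl μ _
  have hfull : ∀ n k, Full μ ((st n).1 k) (B k ∩ E k) := by
    intro n k
    induction n with
    | zero => rw [hst0 k]; exact Full.refl μ _
    | succ n ih => exact Full.trans (hfull1 n k) ih
  let W : ℕ → Set X := fun n => V n (st n).1 (st n).2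
  have hW1 : ∀ n, Full μ (W n) ((st n).1 n) := fun n => hV1 n (st n).1 (st n).2
  have hW2 : ∀ n, Full μ (W n) (A ∩ E n) := fun n =>
    Full.trans (Full.trans (hW1 n) (hfull n n)) (hEF n)
  have hAE : (⋃ n, A ∩ E n) = A := by
    rw [← Set.inter_iUnion]
    exact Set.inter_eq_left.mpr hEU
  refine ⟨⋃ n, W n, ?_, ?_⟩
  · have := Full.iUnion hW2
    rw [hAE] at this
    exact this
  · intro x hx y hy hyB
    obtain ⟨m, hm⟩ := Set.mem_iUnion.mp hx
    obtain ⟨n, hn⟩ := Set.mem_iUnion.mp hyB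
    have hxm := (hW1 m).1 hm
    have h1 := (st m).2 m hxm
    have h2 := (st n).2 n ((hW1 n).1 hn)
    have h3 := hd x h1.1 y hy
    rw [h1.2, h2.2] at h3
    have h4 : x ∈ (st (n+1)).1 m := hmono m (Nat.succ_le_of_lt h3) hxm
    rw [hstlt n m h3] at h4
    exact h4.2 y hy hn

/-- in a graph in which two distinct vertices have only countably many common neighbours, every
set of vertices is a well-ordered union of countable blocks such that every vertex
has only finitely many neighbours in earlier blocks -/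
theorem blocks_gen {V : Type} (r : V → V → Prop)
    (hcn : ∀ a b, a ≠ b → {x | r x a ∧ r x b}.Countable) (κ : Cardinal.{0}) :
    ∀ A : Set V, #A = κ →
      ∃ (W : Type) (lt : W → W → Prop) (_ : IsWellOrder W lt) (π : V → W),
        (∀ w, (A ∩ π ⁻¹' {w}).Countable) ∧
        ∀ x ∈ A, {y | y ∈ A ∧ r x y ∧ lt (π y) (π x)}.Finite := by
  classical
  induction κ using WellFoundedLT.induction with
  | ind κ ih =>
    intro A hA
    rcases le_or_gt κ ℵ₀ with hκ0 | hκ0
    · have hA' : A.Countable := by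
        rw [← Cardinal.le_aleph0_iff_set_countable, hA]
        exact hκ0
      refine ⟨Unit, fun _ _ => False, ⟨⟩, fun _ => (), ?_, ?_⟩
      · intro w
        exact hA'.mono Set.inter_subset_left
      · intro x _
        simp
    have hκ : ℵ₀ ≤ κ := hκ0.le
    have hne : A.Nonempty := by
      rw [Set.nonempty_iff_ne_empty]
      rintro rfl
      rw [Cardinal.mk_emptyCollection] at hA
      rw [← hA] at hκ0
      exact absurd hκ0 (not_lt.2 bot_le)
    let Λ := κ.ord.ToType
    have hΛcard : #Λ = κ := Cardinal.mk_ord_toType _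
    have hIio : ∀ α : Λ, #(Set.Iio α) < κ := by
      intro α
      have h1 : #(Set.Iio α) < #Λ := Cardinal.mk_Iio_lt α (by simp [Λ])
      rwa [hΛcard] at h1
    -- enumeration
    obtain ⟨a, ha⟩ : ∃ a : Λ → V, A ⊆ Set.range a := by
      have h1 : #A ≤ #Λ := by rw [hΛcard]; exact hA.le
      obtain ⟨f⟩ := Cardinal.le_def _ _ |>.1 h1
      haveI : Nonempty A := hne.to_subtype
      refine ⟨fun l => ((Function.invFun f l : A) : V), ?_⟩
      intro x hx
      refine ⟨f ⟨x, hx⟩, ?_⟩
      show ((Function.invFun f (f ⟨x, hx⟩) : A) : V) = x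
      rw [Function.leftInverse_invFun f.injective]
    let M : Λ → Set V := fun α => clo r (a '' Set.Iic α)
    have hMmono : Monotone M := fun α β h => clo_mono r (Set.image_mono (Set.Iic_subset_Iic.2 h))
    have hMcard : ∀ α, #(M α) < κ := by
      intro α
      have h1 : #(M α) ≤ max ℵ₀ #(Set.Iio α) := by
        refine clo_card r hcn _ (le_max_left _ _) _ (Cardinal.mk_image_le.trans ?_)
        have : (Set.Iic α) = insert α (Set.Iio α) := by
          ext β; simp [le_iff_eq_or_lt]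
        rw [this]
        refine (Cardinal.mk_insert_le).trans ?_
        exact Cardinal.add_le_of_le (le_max_left _ _) (le_max_right _ _)
          (Cardinal.one_le_aleph0.trans (le_max_left _ _))
      exact h1.trans_lt (max_lt hκ0 (hIio α))
    have hAM : ∀ x ∈ A, ∃ α, x ∈ M α := by
      intro x hx
      obtain ⟨α, rfl⟩ := ha hx
      exact ⟨α, subset_clo r _ ⟨α, le_refl α, rfl⟩⟩
    obtain ⟨x₀, hx₀⟩ := hne
    obtain ⟨α₀, -⟩ := hAM x₀ hx₀
    have hwf : WellFounded (fun x y : Λ => x < y) := wellFounded_lt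
    let ρ : V → Λ := fun x => if h : ∃ α, x ∈ M α then hwf.min {α | x ∈ M α} h else α₀
    have hρ1 : ∀ x, (∃ α, x ∈ M α) → x ∈ M (ρ x) := by
      intro x h
      have : ρ x = hwf.min {α | x ∈ M α} h := dif_pos h
      rw [this]
      exact hwf.min_mem {α | x ∈ M α} h
    have hρ2 : ∀ x α, x ∈ M α → ρ x ≤ α := by
      intro x α h
      have h' : ∃ α, x ∈ M α := ⟨α, h⟩
      have : ρ x = hwf.min {α | x ∈ M α} h' := dif_pos h'
      rw [this]
      exact not_lt.1 (hwf.not_lt_min {α | x ∈ M α} h)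
    -- levels
    have hlev : ∀ α : Λ, ∃ (W : Type) (lt : W → W → Prop) (_ : IsWellOrder W lt) (π : V → W),
        (∀ w, ({x | x ∈ A ∧ ρ x = α} ∩ π ⁻¹' {w}).Countable) ∧
        ∀ x ∈ {x | x ∈ A ∧ ρ x = α},
          {y | y ∈ {x | x ∈ A ∧ ρ x = α} ∧ r x y ∧ lt (π y) (π x)}.Finite := by
      intro α
      refine ih (#{x | x ∈ A ∧ ρ x = α}) ?_ _ rfl
      refine (Cardinal.mk_le_mk_of_subset (t := M α) ?_).trans_lt (hMcard α)
      rintro x ⟨hx, rfl⟩
      exact hρ1 x (hAM x hx)
    choose W lt hwo π hπ1 hπ2 using hlev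
    refine ⟨Σ' α : Λ, W α, PSigma.Lex (fun x y : Λ => x < y) (fun α => lt α), ?_,
      fun x => ⟨ρ x, π (ρ x) x⟩, ?_, ?_⟩
    · haveI : Std.Trichotomous (PSigma.Lex (fun x y : Λ => x < y) (fun α => lt α)) := by
        constructor
        rintro ⟨α, u⟩ ⟨β, v⟩ h1 h2
        rcases lt_trichotomy α β with h | h | h
        · exact absurd (PSigma.Lex.left _ _ h) h1
        · subst h
          have : u = v := by
            refine (hwo α).toTrichotomous.trichotomous u v ?_ ?_
            · intro h3; exact h1 (PSigma.Lex.right _ h3)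
            · intro h3; exact h2 (PSigma.Lex.right _ h3)
          rw [this]
        · exact absurd (PSigma.Lex.left _ _ h) h2
      haveI : IsWellFounded (Σ' α : Λ, W α) (PSigma.Lex (fun x y : Λ => x < y) (fun α => lt α)) := by
        constructor
        constructor
        rintro ⟨α, u⟩
        exact PSigma.lexAccessible (hwf.apply α) (fun β => (hwo β).toIsWellFounded.wf) u
      exact {}
    · rintro ⟨α, w⟩
      refine (hπ1 α w).mono ?_
      rintro x ⟨hxA, hx⟩
      have hx' : (⟨ρ x, π (ρ x) x⟩ : Σ' α : Λ, W α) = ⟨α, w⟩ := hx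
      have h1 : ρ x = α := congrArg PSigma.fst hx'
      subst h1
      refine ⟨⟨hxA, rfl⟩, ?_⟩
      have := (PSigma.mk.inj hx').2
      exact eq_of_heq this
    · intro x hxA
      have hlex : ∀ (α β : Λ) (u : W α) (y : V), u = π α y → ∀ (v : W β), v = π β x →
          PSigma.Lex (fun x y : Λ => x < y) (fun α => lt α) (⟨α, u⟩ : Σ' α : Λ, W α) ⟨β, v⟩ →
          α < β ∨ (α = β ∧ lt β (π β y) (π β x)) := by
        intro α β u y hu v hv h
        cases h with
        | left _ _ h => exact Or.inl h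
        | right _ h => right; refine ⟨rfl, ?_⟩; rw [← hu, ← hv]; exact h
      have hsub : {y | y ∈ A ∧ r x y ∧ PSigma.Lex (fun x y : Λ => x < y) (fun α => lt α)
          (⟨ρ y, π (ρ y) y⟩ : Σ' α : Λ, W α) ⟨ρ x, π (ρ x) x⟩} ⊆
          {y | y ∈ A ∧ r x y ∧ ρ y < ρ x} ∪
          {y | y ∈ {z | z ∈ A ∧ ρ z = ρ x} ∧ r x y ∧ lt (ρ x) (π (ρ x) y) (π (ρ x) x)} := by
        rintro y ⟨h1, h2, h3⟩
        rcases hlex _ _ _ y rfl _ rfl h3 with h | ⟨h, h'⟩
        · exact Or.inl ⟨h1, h2, h⟩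
        · exact Or.inr ⟨⟨h1, h⟩, h2, h'⟩
      refine Set.Finite.subset (Set.Finite.union ?_ (hπ2 (ρ x) x ⟨hxA, rfl⟩)) hsub
      have e1 : {y | y ∈ A ∧ r x y ∧ ρ y < ρ x}.encard ≤ 1 := by
        rw [Set.encard_le_one_iff]
        rintro y z ⟨hy, hry, hρy⟩ ⟨hz, hrz, hρz⟩
        by_contra hyz
        let γ := max (ρ y) (ρ z)
        have h1 : y ∈ M γ := hMmono (le_max_left _ _) (hρ1 y (hAM y hy))
        have h2 : z ∈ M γ := hMmono (le_max_right _ _) (hρ1 z (hAM z hz))
        have h3 : x ∈ M γ := clo_closed r _ y z x h1 h2 hyz hry hrz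
        have h4 := hρ2 x γ h3
        exact absurd (lt_of_le_of_lt h4 (max_lt hρy hρz)) (lt_irrefl _)
      exact Set.finite_of_encard_le_coe (k := 1) (by exact_mod_cast e1)

end Pool.Agent.Helper937.Rat
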