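import Pool.Agent.Helper937.Rat5

set_option autoImplicit false

open Cardinal Set MeasureTheory

namespace Pool.Agent.Helper937.Rat

/-- the splitting property for maps into Ω -/
def DS {X : Type} [MeasurableSpace X] (μ : Measure X) (Ω : Type) : Prop :=
  ∀ (T : Set X) (q : X → Ω), μ T ≠ 0 → (∀ ω, μ (T ∩ q ⁻¹' {ω}) = 0) →
    ∃ (δ : ENNReal) (Z : W1 → Set Ω), δ ≠ 0 ∧ (∀ ξ η, ξ ≠ η → Disjoint (Z ξ) (Z η)) ∧
      ∀ ξ, δ ≤ μ (T ∩ q ⁻¹' (Z ξ))

theorem disj_sing {X : Type} [MeasurableSpace X] (μ : Measure X) (κ : Cardinal.{0}) (hκ : ℵ₀ ≤ κ)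
    (hreg : ¬ κ.IsRegular) (ih : ∀ Ω : Type, #Ω < κ → DS μ Ω) (Ω : Type) (hΩ : #Ω = κ) :
    DS μ Ω := by
  intro T q hT hnull
  classical
  have hcof : κ.ord.cof < κ := by
    refine lt_of_le_of_ne (Ordinal.cof_ord_le κ) ?_
    intro h
    exact hreg ⟨hκ, h.ge⟩
  obtain ⟨S, hScof, hScard⟩ := Order.exists_cof_eq (κ.ord.ToType)
  have hS : #S < κ := by
    rw [hScard, Ordinal.cof_toType]
    exact hcof
  have hΛ : #κ.ord.ToType = κ := mk_ord_toType κ
  obtain ⟨e⟩ : Nonempty (Ω ≃ κ.ord.ToType) := Cardinal.eq.mp (hΩ.trans hΛ.symm)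
  have hex : ∀ ω, ∃ s ∈ S, e ω ≤ s := fun ω => hScof (e ω)
  choose h hhS hh using hex
  let g : Ω → S := fun ω => ⟨h ω, hhS ω⟩
  have hfib : ∀ s : S, #{ω // g ω = s} < κ := by
    intro s
    have h1 : #{ω // g ω = s} ≤ #(Iic (s : κ.ord.ToType)) := by
      refine mk_le_of_injective (f := fun ω : {ω // g ω = s} => (⟨e ω.1, ?_⟩ : Iic (s : κ.ord.ToType))) ?_
      · have h2 : h ω.1 = s := congrArg Subtype.val ω.2
        rw [mem_Iic, ← h2]
        exact hh ω.1
      · intro a b hab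
        have h2 : e a.1 = e b.1 := congrArg Subtype.val hab
        exact Subtype.ext (e.injective h2)
    have h2 : #(Iic (s : κ.ord.ToType)) < κ := by
      rw [← Iio_insert]
      refine lt_of_le_of_lt mk_insert_le ?_
      refine Cardinal.add_lt_of_lt hκ ?_ (one_lt_aleph0.trans_le hκ)
      have h3 := mk_Iio_lt (s : κ.ord.ToType) (by rw [hΛ, Ordinal.type_toType])
      rw [hΛ] at h3
      exact h3
    exact lt_of_le_of_lt h1 h2
  by_cases hc : ∃ s : S, μ (T ∩ (g ∘ q) ⁻¹' {s}) ≠ 0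
  · obtain ⟨s, hs⟩ := hc
    have hne : (T ∩ (g ∘ q) ⁻¹' {s}).Nonempty := nonempty_of_measure_ne_zero hs
    obtain ⟨x0, hx0⟩ := hne
    have hx0' : g (q x0) = s := hx0.2
    let q' : X → {ω // g ω = s} := fun x => if hx : g (q x) = s then ⟨q x, hx⟩ else ⟨q x0, hx0'⟩
    have hq' : ∀ x ∈ T ∩ (g ∘ q) ⁻¹' {s}, (q' x).1 = q x := by
      intro x hx
      have hx' : g (q x) = s := hx.2
      show (if hx : g (q x) = s then (⟨q x, hx⟩ : {ω // g ω = s}) else ⟨q x0, hx0'⟩).1 = q x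
      rw [dif_pos hx']
    obtain ⟨δ, Z', hδ, hdisj, hge⟩ := ih {ω // g ω = s} (hfib s) (T ∩ (g ∘ q) ⁻¹' {s}) q' hs (by
      intro ω'
      refine measure_mono_null ?_ (hnull ω'.1)
      intro x hx
      refine ⟨hx.1.1, ?_⟩
      have h1 : q' x = ω' := hx.2
      show q x = ω'.1
      rw [← hq' x hx.1, h1])
    refine ⟨δ, fun ξ => Subtype.val '' Z' ξ, hδ, ?_, ?_⟩
    · intro ξ η hξη
      exact (Set.disjoint_image_iff Subtype.val_injective).mpr (hdisj ξ η hξη)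
    · intro ξ
      refine (hge ξ).trans (measure_mono ?_)
      intro x hx
      refine ⟨hx.1.1, ?_⟩
      exact ⟨q' x, hx.2, hq' x hx.1⟩
  · push Not at hc
    obtain ⟨δ, Z', hδ, hdisj, hge⟩ := ih S hS T (g ∘ q) hT hc
    refine ⟨δ, fun ξ => g ⁻¹' Z' ξ, hδ, ?_, ?_⟩
    · intro ξ η hξη
      exact (hdisj ξ η hξη).preimage g
    · intro ξ
      exact hge ξ

theorem disj_succ {X : Type} [MeasurableSpace X] (μ : Measure X) (κ : Cardinal.{0})
    (haleph : ℵ₀ ≤ κ) (ih : ∀ Ω : Type, #Ω ≤ κ → DS μ Ω) (Ω : Type) (hΩ : #Ω ≤ Order.succ κ) :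
    DS μ Ω := by
  classical
  intro T q hT hnull
  set Λ : Type := (Order.succ κ).ord.ToType with hΛ
  have hΛc : #Λ = Order.succ κ := Cardinal.mk_ord_toType _
  set K : Type := (κ).ord.ToType with hK
  have hKc : #K = κ := Cardinal.mk_ord_toType _
  have haleph' : ℵ₀ ≤ κ := haleph
  have hKne : Nonempty K := by
    rw [← Cardinal.mk_ne_zero_iff, hKc]
    exact (lt_of_lt_of_le Cardinal.aleph0_pos haleph).ne'
  obtain ⟨k0⟩ := hKne
  obtain ⟨i⟩ : Nonempty (Ω ↪ Λ) := by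
    rw [← Cardinal.le_def, hΛc]; exact hΩ
  -- injections of initial segments
  have hex : ∀ b : Λ, ∃ e : Λ → K, InjOn e (Iio b) := by
    intro b
    have h1 : #(Iio b) ≤ #K := by
      rw [hKc, ← Order.lt_succ_iff]
      exact Cardinal.mk_Iio_toType_ord_lt b
    obtain ⟨f⟩ := h1
    refine ⟨fun a => if h : a < b then f ⟨a, h⟩ else k0, ?_⟩
    intro a ha a' ha' hh
    have ha1 : a < b := ha
    have ha2 : a' < b := ha'
    simp only [ha1, ha2, dif_pos] at hh
    have := f.injective hh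
    simpa using this
  choose e he using hex
  have hq' : ∀ b : Λ, μ (T ∩ (fun x => i (q x)) ⁻¹' {b}) = 0 := by
    intro b
    by_cases h : ∃ ω, i ω = b
    · obtain ⟨ω, rfl⟩ := h
      apply measure_mono_null _ (hnull ω)
      rintro x ⟨hx1, hx2⟩
      exact ⟨hx1, i.injective hx2⟩
    · have : T ∩ (fun x => i (q x)) ⁻¹' {b} = ∅ := by
        apply Set.eq_empty_of_forall_notMem
        rintro x ⟨hx1, hx2⟩
        exact h ⟨q x, hx2⟩
      rw [this]; exact measure_empty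
  have hsub : ∀ B : Set Λ, B.Subsingleton → μ (T ∩ (fun x => i (q x)) ⁻¹' B) = 0 := by
    intro B hB
    rcases hB.eq_empty_or_singleton with h | ⟨b, h⟩
    · rw [h]; simp
    · rw [h]; exact hq' b
  by_cases hcase : ∀ a : Λ, ∃ k : K, μ (T ∩ (fun x => i (q x)) ⁻¹' {b | a < b ∧ e b a = k}) ≠ 0
  · choose kf hk using hcase
    have hm : ∀ a : Λ, ∃ m : ℕ, ((m : ENNReal))⁻¹ < μ (T ∩ (fun x => i (q x)) ⁻¹' {b | a < b ∧ e b a = kf a}) :=
      fun a => ENNReal.exists_inv_nat_lt (hk a)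
    choose mf hm using hm
    have hreg : (Order.succ κ).IsRegular := by
      exact Cardinal.isRegular_succ haleph
    have hcard : #(K × ℕ) < (Order.succ κ).ord.cof := by
      rw [hreg.cof_ord, Order.lt_succ_iff]
      rw [Cardinal.mk_prod]
      simp only [Cardinal.lift_id, Cardinal.mk_nat, Cardinal.lift_uzero]
      rw [hKc, Cardinal.mul_eq_left haleph haleph Cardinal.aleph0_ne_zero]
    obtain ⟨⟨k, m⟩, hfib⟩ := Cardinal.infinite_pigeonhole_card (fun a : Λ => ((kf a, mf a) : K × ℕ))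
      (Order.succ κ) hΛc.ge (haleph.trans (Order.le_succ κ)) hcard
    have h1 : #W1 ≤ #((fun a : Λ => ((kf a, mf a) : K × ℕ)) ⁻¹' {(k, m)}) := by
      refine le_trans ?_ hfib
      rw [show #W1 = Cardinal.aleph 1 from Cardinal.mk_ord_toType _]
      rw [← Cardinal.succ_aleph0]
      exact Order.succ_le_succ haleph
    obtain ⟨j⟩ := h1
    refine ⟨((m : ENNReal))⁻¹, fun ξ => i ⁻¹' {b | (j ξ : Λ) < b ∧ e b (j ξ : Λ) = k},
      ENNReal.inv_ne_zero.mpr (ENNReal.natCast_ne_top m), ?_, ?_⟩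
    · intro ξ η hne
      rw [Set.disjoint_left]
      rintro ω ⟨h1, h2⟩ ⟨h3, h4⟩
      apply hne
      apply j.injective
      apply Subtype.ext
      exact he _ h1 h3 (h2.trans h4.symm)
    · intro ξ
      have hjξ := (j ξ).2
      simp only [Set.mem_preimage, Set.mem_singleton_iff, Prod.mk.injEq] at hjξ
      have := (hm (j ξ : Λ)).le
      rw [hjξ.1, hjξ.2] at this
      exact this
  · push Not at hcase
    obtain ⟨a, ha⟩ := hcase
    set r : Λ → K ⊕ Option K := fun b => if a < b then Sum.inl (e b a) else if b < a then Sum.inr (some (e a b))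
      else Sum.inr none with hr
    have hcard : #(K ⊕ Option K) ≤ κ := by
      rw [Cardinal.mk_sum, Cardinal.mk_option]
      simp only [Cardinal.lift_id]
      rw [hKc, Cardinal.add_one_eq haleph, Cardinal.add_eq_self haleph]
    obtain ⟨δ, Z, hδ, hdisj, hle⟩ := ih (K ⊕ Option K) hcard T (fun x => r (i (q x))) hT (by
      intro ω
      rcases ω with k | k | k
      · apply measure_mono_null _ (ha k)
        rintro x ⟨hx1, hx2⟩
        refine ⟨hx1, ?_⟩
        simp only [Set.mem_preimage, Set.mem_singleton_iff, hr] at hx2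
        split_ifs at hx2 with h1 h2
        · exact ⟨h1, Sum.inl.inj hx2⟩
      · apply measure_mono_null _ (hsub {b | b = a} (by intro u hu v hv; exact hu.trans hv.symm))
        rintro x ⟨hx1, hx2⟩
        refine ⟨hx1, ?_⟩
        simp only [Set.mem_preimage, Set.mem_singleton_iff, hr] at hx2
        split_ifs at hx2 with h1 h2
        · simp at hx2
        · exact le_antisymm (not_lt.mp h1) (not_lt.mp h2)
      · apply measure_mono_null _ (hsub {b | b < a ∧ e a b = k} (by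
          intro u hu v hv
          exact he a hu.1 hv.1 (hu.2.trans hv.2.symm)))
        rintro x ⟨hx1, hx2⟩
        refine ⟨hx1, ?_⟩
        simp only [Set.mem_preimage, Set.mem_singleton_iff, hr] at hx2
        split_ifs at hx2 with h1 h2
        · exact ⟨h2, by simpa using hx2⟩
        · simp at hx2)
    refine ⟨δ, fun ξ => i ⁻¹' (r ⁻¹' (Z ξ)), hδ, ?_, ?_⟩
    · intro ξ η hne
      exact ((hdisj ξ η hne).preimage _).preimage _
    · intro ξ
      exact hle ξ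

theorem disj_gen {X : Type} [MeasurableSpace X] (μ : Measure X) (κ₀ : Cardinal.{0})
    (h0 : ∀ κ ≤ κ₀, ¬ (ℵ₀ < κ ∧ κ.IsRegular ∧ Order.IsSuccLimit κ)) (κ : Cardinal.{0}) :
    κ ≤ κ₀ → ∀ Ω : Type, #Ω = κ → DS μ Ω := by
  classical
  induction κ using WellFoundedLT.induction with
  | ind κ ih =>
    intro hκ Ω hΩ
    rcases le_or_gt κ ℵ₀ with h1 | h1
    · intro T q hT hnull
      exfalso
      have hc : Countable Ω := by
        rw [← Cardinal.mk_le_aleph0_iff, hΩ]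
        exact h1
      apply hT
      have : T = ⋃ ω, T ∩ q ⁻¹' {ω} := by
        ext x; simp
      rw [this]
      exact measure_iUnion_null hnull
    by_cases h2 : κ.IsRegular
    · have h3 : ¬ Order.IsSuccLimit κ := fun h => h0 κ hκ ⟨h1, h2, h⟩
      have h4 : ¬ Order.IsSuccPrelimit κ := by
        intro h
        apply h3
        refine ⟨?_, h⟩
        intro hmin
        exact absurd (hmin h1.le) (not_le.2 h1)
      obtain ⟨κ', h5'⟩ := Order.not_isSuccPrelimit_iff.1 h4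
      have h5 : Order.succ κ' = κ := h5'.succ_eq
      subst h5
      have h6 : ℵ₀ ≤ κ' := Order.lt_succ_iff.1 h1
      refine disj_succ μ κ' h6 ?_ Ω hΩ.le
      intro Ω' hΩ'
      refine ih #Ω' (Order.lt_succ_iff.2 hΩ') ?_ Ω' rfl
      exact (hΩ'.trans (Order.le_succ κ')).trans hκ
    · refine disj_sing μ κ h1.le h2 ?_ Ω hΩ
      intro Ω' hΩ'
      exact ih #Ω' hΩ' (hΩ'.le.trans hκ) Ω' rfl

/-- every non-null subset of A contains ω₁ pairwise disjoint non-null sets -/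
def NS {X : Type} [MeasurableSpace X] (μ : Measure X) (A : Set X) : Prop :=
  ∀ T ⊆ A, μ T ≠ 0 → ∃ Z : W1 → Set X, (∀ ξ, Z ξ ⊆ T ∧ μ (Z ξ) ≠ 0) ∧
    ∀ ξ η, ξ ≠ η → Disjoint (Z ξ) (Z η)

theorem ns_of_ds {X : Type} [MeasurableSpace X] (μ : Measure X) (A : Set X)
    (hμ0 : ∀ x, μ {x} = 0) (h : DS μ A) : NS μ A := by
  classical
  intro T hT hT0
  obtain ⟨x0, hx0⟩ := nonempty_of_measure_ne_zero hT0
  let q0 : X → A := fun x => if h : x ∈ A then ⟨x, h⟩ else ⟨x0, hT hx0⟩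
  have hq0 : ∀ x ∈ A, (q0 x : X) = x := by
    intro x hx
    simp only [q0]
    rw [dif_pos hx]
  obtain ⟨δ, Z, hδ, hd, hm⟩ := h T q0 hT0 (by
    intro ω
    refine measure_mono_null (t := {(ω : X)}) ?_ (hμ0 _)
    rintro x ⟨hx, hxq⟩
    rw [Set.mem_preimage, Set.mem_singleton_iff] at hxq
    rw [Set.mem_singleton_iff, ← hxq, hq0 x (hT hx)])
  refine ⟨fun ξ => T ∩ q0 ⁻¹' (Z ξ), fun ξ => ⟨Set.inter_subset_left, ?_⟩, ?_⟩
  · intro h0
    have := hm ξ
    rw [h0] at this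
    exact hδ (le_antisymm this bot_le)
  · intro ξ η hne
    rw [Set.disjoint_left]
    rintro x ⟨_, hx1⟩ ⟨_, hx2⟩
    exact Set.disjoint_left.1 (hd ξ η hne) hx1 hx2

/-- uncountably many of the sets have measure at least 1/m -/
theorem uniform_part {X : Type} [MeasurableSpace X] (μ : Measure X) (Z : W1 → Set X)
    (hZ : ∀ ξ, μ (Z ξ) ≠ 0) : ∃ (δ : ENNReal) (j : W1 → W1), δ ≠ 0 ∧ Function.Injective j ∧
      ∀ ξ, δ ≤ μ (Z (j ξ)) := by
  classical
  have hm : ∀ a : W1, ∃ m : ℕ, ((m : ENNReal))⁻¹ < μ (Z a) :=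
    fun a => ENNReal.exists_inv_nat_lt (hZ a)
  choose mf hm using hm
  have hreg : (Cardinal.aleph 1).IsRegular := Cardinal.isRegular_aleph_one
  have hcard : #ℕ < (Cardinal.aleph 1).ord.cof := by
    rw [hreg.cof_ord, Cardinal.mk_nat]
    exact Cardinal.aleph0_lt_aleph_one
  obtain ⟨m, hfib⟩ := Cardinal.infinite_pigeonhole_card mf
    (Cardinal.aleph 1) (Cardinal.mk_ord_toType _).ge (Cardinal.aleph0_le_aleph _) hcard
  have h1 : #W1 ≤ #(mf ⁻¹' {m}) := by
    refine le_trans ?_ hfib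
    rw [show #W1 = Cardinal.aleph 1 from Cardinal.mk_ord_toType _]
  obtain ⟨j⟩ := h1
  refine ⟨((m : ENNReal))⁻¹, fun ξ => (j ξ : W1),
    ENNReal.inv_ne_zero.mpr (ENNReal.natCast_ne_top m), ?_, ?_⟩
  · intro ξ η h
    exact j.injective (Subtype.ext h)
  · intro ξ
    have hjξ := (j ξ).2
    simp only [Set.mem_preimage, Set.mem_singleton_iff] at hjξ
    have := (hm (j ξ : W1)).le
    rwa [hjξ] at this

theorem sel_of_ns {X : Type} [MeasurableSpace X] (μ : Measure X) [IsFiniteMeasure μ]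
    (A : Set X) (hA : NS μ A) : Sel μ A := by
  classical
  intro T hT R q
  have hfam : ∃ V : W1 → Set X, (∀ ξ, Full μ (V ξ) T) ∧
      ∀ ξ η, ξ ≠ η → Disjoint (V ξ) (V η) := by
    apply exhaust μ T
    intro G hG hTG
    obtain ⟨Z, hZ, hd⟩ := hA (T ∩ G) (Set.inter_subset_left.trans hT) hTG
    obtain ⟨δ, j, hδ, hj, hm⟩ := uniform_part μ Z (fun ξ => (hZ ξ).2)
    obtain ⟨E, hE, hTE, V', hV', hd'⟩ := exact_piece μ (T ∩ G) δ hδ
      (fun ξ => Z (j ξ)) (fun ξ => (hZ (j ξ)).1)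
      (fun ξ η hne => hd _ _ (fun h => hne (hj h))) hm
    refine ⟨G ∩ E, hG.inter hE, Set.inter_subset_left, ?_, V', ?_, hd'⟩
    · rwa [← Set.inter_assoc]
    · intro ξ
      rw [← Set.inter_assoc]
      exact hV' ξ
  obtain ⟨V, hV, hd⟩ := hfam
  have hbad : (⋃ k : ℕ, {ξ : W1 | ¬ Full μ {x | x ∈ R k ∧ ∀ y ∈ q k x, y ∉ V ξ} (R k)}).Countable :=
    Set.countable_iUnion fun k => avoid μ V hd (R k) (q k)
  have hex : ∃ ξ, ξ ∉ ⋃ k : ℕ, {ξ : W1 | ¬ Full μ {x | x ∈ R k ∧ ∀ y ∈ q k x, y ∉ V ξ} (R k)} := by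
    by_contra hcon
    push Not at hcon
    exact uncountable_W1 (hbad.mono fun ξ _ => hcon ξ)
  obtain ⟨ξ, hξ⟩ := hex
  refine ⟨V ξ, hV ξ, fun k => ?_⟩
  by_contra hcon
  exact hξ (Set.mem_iUnion.2 ⟨k, hcon⟩)

/-- the abstract theorem -/
theorem free_gen {X : Type} [MeasurableSpace X] (μ : Measure X) [IsFiniteMeasure μ]
    (r : X → X → Prop) (hsymm : ∀ a b, r a b → r b a)
    (hcn : ∀ a b, a ≠ b → {x | r x a ∧ r x b}.Countable)
    (A : Set X) (hA : NS μ A) :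
    ∃ B, Full μ B A ∧ ∀ x ∈ B, ∀ y ∈ B, x ≠ y → ¬ r x y := by
  classical
  have hsel := sel_of_ns μ A hA
  obtain ⟨W, lt, hlt, π, hπ, hfin0⟩ := blocks_gen r hcn _ A rfl
  obtain ⟨A', hA', hinj⟩ := transversal μ A hsel π hπ
  have hfin : ∀ x ∈ A', {y | y ∈ A' ∧ r x y ∧ lt (π y) (π x)}.Finite := by
    intro x hx
    have h1 : {y | y ∈ A' ∧ r x y ∧ lt (π y) (π x)} ⊆ {y | y ∈ A ∧ r x y ∧ lt (π y) (π x)} :=
      fun y hy => ⟨hA'.1 hy.1, hy.2⟩
    exact Set.Finite.subset (hfin0 x (hA'.1 hx)) h1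
  let f : X → Finset X := fun x => if h : x ∈ A' then (hfin x h).toFinset else ∅
  have hf1 : ∀ x, ∀ y ∈ f x, x ∈ A' ∧ y ∈ A' ∧ r x y ∧ lt (π y) (π x) := by
    intro x y hy
    by_cases h : x ∈ A'
    · simp only [f] at hy
      rw [dif_pos h, Set.Finite.mem_toFinset] at hy
      exact ⟨h, hy⟩
    · simp only [f] at hy
      rw [dif_neg h] at hy
      exact absurd hy (Finset.notMem_empty y)
  have hf2 : ∀ x ∈ A', ∀ y ∈ A', r x y → lt (π y) (π x) → y ∈ f x := by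
    intro x hx y hy h1 h2
    simp only [f]
    rw [dif_pos hx, Set.Finite.mem_toFinset]
    exact ⟨hy, h1, h2⟩
  obtain ⟨c, hc⟩ := rank_fun lt π f (fun x y hy => (hf1 x y hy).2.2.2)
  obtain ⟨B, hB, hfree⟩ := ranked_classes μ A' (hsel.mono hA'.1) c f
    (fun x _ y hy => hc x y hy)
  refine ⟨B, hB.trans hA', ?_⟩
  intro x hx y hy hne hr
  have hx' := hB.1 hx
  have hy' := hB.1 hy
  rcases trichotomous_of lt (π x) (π y) with h | h | h
  · exact hfree y hy x (hf2 y hy' x hx' (hsymm x y hr) h) hx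
  · exact hne (hinj hx' hy' h)
  · exact hfree x hx y (hf2 x hx' y hy' hr h) hy

end Pool.Agent.Helper937.Rat
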