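import Pool.Agent.Helper937.Rat6

set_option autoImplicit false

open Cardinal Set MeasureTheory

namespace Pool.Agent.Helper937.Rat

theorem large_add {X : Type} [MeasurableSpace X]
    (μ : Measure X) (BB : Set (Set X)) (hB : ∀ N ∈ BB, μ N = 0)
    (hbase : ∀ S, μ S = 0 → ∃ N ∈ BB, S ⊆ N) (lam : Cardinal.{0}) (hlam : #BB ≤ lam)
    (hlam1 : Cardinal.aleph 1 ≤ lam) (T : Set X) (hT : μ T ≠ 0)
    (hadd : ∀ S ⊆ T, #S < lam → μ S = 0) :
    ∃ Z : W1 → Set X, (∀ ξ, Z ξ ⊆ T ∧ μ (Z ξ) ≠ 0) ∧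
      ∀ ξ η, ξ ≠ η → Disjoint (Z ξ) (Z η) := by
  classical
  have hlam0 : ℵ₀ ≤ lam := (Cardinal.aleph0_le_aleph 1).trans hlam1
  have hP : #(BB × W1) ≤ lam := by
    rw [Cardinal.mk_prod, Cardinal.lift_id, Cardinal.lift_id]
    refine Cardinal.mul_le_of_le hlam0 hlam ?_
    rw [show #W1 = Cardinal.aleph 1 from Cardinal.mk_ord_toType _]
    exact hlam1
  let Λ : Type := lam.ord.ToType
  have hΛ : #Λ = lam := Cardinal.mk_ord_toType _
  have hne : Nonempty (BB × W1) := by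
    obtain ⟨N, hN, -⟩ := hbase ∅ measure_empty
    exact ⟨(⟨N, hN⟩, (exists_ub ∅ Set.countable_empty).choose)⟩
  obtain ⟨e, he⟩ : ∃ e : Λ → BB × W1, Function.Surjective e := by
    have h1 : #(BB × W1) ≤ #Λ := by rw [hΛ]; exact hP
    obtain ⟨f⟩ := h1
    exact ⟨Function.invFun f, Function.invFun_surjective f.injective⟩
  have pick : ∀ (α : Λ) (g : ∀ β, β < α → X),
      ∃ x, x ∈ T ∧ x ∉ (e α).1.1 ∧ ∀ β (hβ : β < α), x ≠ g β hβ := by
    intro α g
    by_contra hcon
    push Not at hcon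
    apply hT
    let S : Set X := {x | x ∈ T ∧ ∃ β, ∃ hβ : β < α, x = g β hβ}
    have hS : #S < lam := by
      have h1 : #S ≤ #(Set.Iio α) := by
        have hch : ∀ x : S, ∃ β : Set.Iio α, x.1 = g β.1 β.2 := by
          rintro ⟨x, _, β, hβ, hx⟩
          exact ⟨⟨β, hβ⟩, hx⟩
        choose c hc using hch
        refine Cardinal.mk_le_of_injective (f := c) ?_
        intro x y hxy
        apply Subtype.ext
        rw [hc x, hc y, hxy]
      refine h1.trans_lt ?_
      have h2 : #(Set.Iio α) < #Λ := Cardinal.mk_Iio_lt α (by simp [Λ])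
      rwa [hΛ] at h2
    have hS0 : μ S = 0 := hadd S (fun x hx => hx.1) hS
    refine measure_mono_null (t := (e α).1.1 ∪ S) ?_
      (measure_union_null (hB _ (e α).1.2) hS0)
    intro x hx
    by_cases hxN : x ∈ (e α).1.1
    · exact Or.inl hxN
    · right
      obtain ⟨β, hβ, h⟩ := hcon x hx hxN
      exact ⟨hx, β, hβ, h⟩
  choose pk hpk1 hpk2 hpk3 using pick
  have hwf : WellFounded (fun a b : Λ => a < b) := wellFounded_lt
  obtain ⟨x, hx⟩ : ∃ x : Λ → X, ∀ α, x α = pk α (fun β _ => x β) :=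
    ⟨hwf.fix pk, fun α => hwf.fix_eq pk α⟩
  have hx1 : ∀ α, x α ∈ T := fun α => by rw [hx α]; exact hpk1 _ _
  have hx2 : ∀ α, x α ∉ (e α).1.1 := fun α => by rw [hx α]; exact hpk2 _ _
  have hx3 : ∀ α β, β < α → x α ≠ x β := by
    intro α β hβ
    rw [hx α]
    exact hpk3 α (fun β _ => x β) β hβ
  refine ⟨fun ξ => {y | ∃ α, (e α).2 = ξ ∧ x α = y}, fun ξ => ⟨?_, ?_⟩, ?_⟩
  · rintro y ⟨α, -, rfl⟩
    exact hx1 α
  · intro h0
    obtain ⟨N, hN, hsub⟩ := hbase _ h0
    obtain ⟨α, hα⟩ := he (⟨N, hN⟩, ξ)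
    apply hx2 α
    rw [hα]
    exact hsub ⟨α, by rw [hα], rfl⟩
  · intro ξ η hne
    rw [Set.disjoint_left]
    rintro y ⟨α, hα, hy⟩ ⟨β, hβ, hy'⟩
    rcases lt_trichotomy α β with h | h | h
    · exact hx3 β α h (hy'.trans hy.symm)
    · subst h
      exact hne (hα.symm.trans hβ)
    · exact hx3 α β h (hy.trans hy'.symm)

/-- a set is unsaturated as soon as its subsets of size less than the cofinality of the null
ideal are -/
theorem ns_of_small {X : Type} [MeasurableSpace X]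
    (μ : Measure X) (hμ0 : ∀ x, μ {x} = 0) (BB : Set (Set X)) (hB : ∀ N ∈ BB, μ N = 0)
    (hbase : ∀ S, μ S = 0 → ∃ N ∈ BB, S ⊆ N) (A : Set X)
    (h : ∀ S ⊆ A, #S < #BB → NS μ S) : NS μ A := by
  classical
  intro T hT hT0
  by_cases hcase : ∃ S ⊆ T, #S < max #BB (Cardinal.aleph 1) ∧ μ S ≠ 0
  · obtain ⟨S, hST, hSc, hS0⟩ := hcase
    rcases lt_max_iff.1 hSc with h1 | h1
    · obtain ⟨Z, hZ, hd⟩ := h S (hST.trans hT) h1 S Subset.rfl hS0
      exact ⟨Z, fun ξ => ⟨(hZ ξ).1.trans hST, (hZ ξ).2⟩, hd⟩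
    · exfalso
      apply hS0
      have h2 : S.Countable := by
        rw [← Cardinal.le_aleph0_iff_set_countable]
        exact Order.lt_succ_iff.1 (h1.trans_eq Cardinal.succ_aleph0.symm)
      have h3 : S = ⋃ x ∈ S, {x} := by simp
      rw [h3]
      exact (measure_biUnion_null_iff h2).2 fun x _ => hμ0 x
  · push Not at hcase
    exact large_add μ BB hB hbase _ (le_max_left _ _) (le_max_right _ _) T hT0 hcase

/-- the null ideal has a base of at most continuum many sets -/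
theorem base_continuum {X : Type} [MeasurableSpace X] [MeasurableSpace.CountablyGenerated X]
    (μ : Measure X) : ∃ BB : Set (Set X), (∀ N ∈ BB, μ N = 0) ∧
      (∀ S, μ S = 0 → ∃ N ∈ BB, S ⊆ N) ∧ #BB ≤ Cardinal.continuum := by
  refine ⟨{N | MeasurableSet N ∧ μ N = 0}, fun N hN => hN.2, ?_, ?_⟩
  · intro S hS
    exact ⟨toMeasurable μ S, ⟨measurableSet_toMeasurable _ _, by rw [measure_toMeasurable]; exact hS⟩,
      subset_toMeasurable _ _⟩
  · refine le_trans (Cardinal.mk_subtype_mono (q := fun s : Set X => MeasurableSet s)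
      (fun s hs => hs.1)) ?_
    obtain ⟨b, hb, hgen⟩ := MeasurableSpace.CountablyGenerated.isCountablyGenerated (α := X)
    have := MeasurableSpace.cardinal_measurableSet_le_continuum
      (s := b) (hb.le_aleph0.trans Cardinal.aleph0_le_continuum)
    rw [← hgen] at this
    exact this

end Pool.Agent.Helper937.Rat
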