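import Mathlib

set_option autoImplicit false

namespace Pool.Agent.Helper937.Spl

/-- finite partial functions from I to the natural numbers -/
def Fn (I : Type) : Type := {p : Finset (I × ℕ) // ∀ i a b, (i, a) ∈ p → (i, b) ∈ p → a = b}

/-- q extends p -/
def ext {I : Type} (p q : Fn I) : Prop := p.1 ⊆ q.1

/-- the name N (a truth value) is forced by r: the conditions that extend an element of N are
dense below r -/
def Forces {I : Type} (N : Set (Fn I)) (r : Fn I) : Prop :=
  ∀ s, ext r s → ∃ t, ext s t ∧ ∃ w ∈ N, ext w t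

theorem ext_refl {I : Type} (p : Fn I) : ext p p := Finset.Subset.refl _

theorem ext_trans {I : Type} {p q r : Fn I} (h1 : ext p q) (h2 : ext q r) : ext p r :=
  Finset.Subset.trans h1 h2

theorem Forces.mono {I : Type} {N : Set (Fn I)} {p q : Fn I} (h : Forces N p) (hpq : ext p q) :
    Forces N q := fun s hs => h s (ext_trans hpq hs)

theorem Forces.of_mem {I : Type} {N : Set (Fn I)} {p : Fn I} (h : p ∈ N) : Forces N p :=
  fun s hs => ⟨s, ext_refl s, p, h, hs⟩

theorem Forces.of_dense {I : Type} {N M : Set (Fn I)} {p : Fn I} (h : Forces N p)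
    (hNM : ∀ w ∈ N, Forces M w) : Forces M p := by
  intro s hs
  obtain ⟨t, ht, w, hw, hwt⟩ := h s hs
  obtain ⟨t', ht', w', hw', hw't'⟩ := hNM w hw t hwt
  exact ⟨t', ext_trans ht ht', w', hw', hw't'⟩

variable {I L : Type}

/-- r forces that F is a function from L to T -/
def IsFun {T : Type} (F : L → T → Set (Fn I)) (r : Fn I) : Prop :=
  (∀ v s, ext r s → ∃ t, ext s t ∧ ∃ a, Forces (F v a) t) ∧
  (∀ v a b t, ext r t → Forces (F v a) t → Forces (F v b) t → a = b)

/-- r forces that H is (the adjacency relation of) a graph on L -/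
def IsGraph (H : L → L → Set (Fn I)) (r : Fn I) : Prop :=
  (∀ v w t, ext r t → Forces (H v w) t → Forces (H w v) t) ∧
  (∀ v t, ext r t → ¬ Forces (H v v) t)

/-- r forces that F is a proper colouring of H -/
def IsProper {T : Type} (H : L → L → Set (Fn I)) (F : L → T → Set (Fn I)) (r : Fn I) : Prop :=
  ∀ v w a t, ext r t → Forces (H v w) t → Forces (F v a) t → Forces (F w a) t → False

/-- r forces that every function from L to ℕ is constant on some edge of H -/
def UncChrom (H : L → L → Set (Fn I)) (r : Fn I) : Prop :=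
  ∀ (D : L → ℕ → Set (Fn I)) (s : Fn I), ext r s → IsFun D s →
    ∃ t, ext s t ∧ ∃ n v w, Forces (D v n) t ∧ Forces (D w n) t ∧ Forces (H v w) t

/-- r forces that the graph H splits to D parts, by the classes K d -/
def Splits {D : Type} (H : L → L → Set (Fn I)) (K : D → L → L → Set (Fn I)) (r : Fn I) : Prop :=
  (∀ i v w t, ext r t → Forces (K i v w) t → Forces (H v w) t ∧ Forces (K i w v) t) ∧
  (∀ v w t, ext r t → Forces (H v w) t → ∃ t', ext t t' ∧ ∃ i, Forces (K i v w) t') ∧
  (∀ i j v w t, ext r t → Forces (K i v w) t → Forces (K j v w) t → i = j) ∧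
  (∀ (π : L → ℕ → Set (Fn I)) (s : Fn I), ext r s → IsFun π s →
    ∃ t, ext s t ∧ ∃ n, ∀ i, ∀ t', ext t t' → ∃ t'', ext t' t'' ∧
      ∃ v w, Forces (π v n) t'' ∧ Forces (π w n) t'' ∧ Forces (K i v w) t'')

theorem of_cover {K : Type} [Countable K] (H : L → L → Set (Fn I)) (r : Fn I)
    (hU : UncChrom H r) (C : K → L → Set (Fn I)) (s : Fn I) (hs : ext r s)
    (hC : ∀ v t, ext s t → ∃ t', ext t t' ∧ ∃ k, Forces (C k v) t') :
    ∃ t, ext s t ∧ ∃ k v w, Forces (C k v) t ∧ Forces (C k w) t ∧ Forces (H v w) t := by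
  classical
  obtain ⟨enc, henc⟩ := Countable.exists_injective_nat K
  let C' : ℕ → L → Set (Fn I) := fun n v => {p | ∃ k, enc k = n ∧ p ∈ C k v}
  have hC'1 : ∀ k v, C' (enc k) v = C k v := by
    intro k v
    ext p
    constructor
    · rintro ⟨k', hk', hp⟩
      rw [henc hk'] at hp
      exact hp
    · intro hp
      exact ⟨k, rfl, hp⟩
  let D : L → ℕ → Set (Fn I) := fun v n =>
    {p | Forces (C' n v) p ∧ ∀ m, m < n → ∀ q, ext p q → ¬ Forces (C' m v) q}
  have hDC : ∀ v n t, Forces (D v n) t → Forces (C' n v) t := fun v n t h =>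
    h.of_dense fun w hw => hw.1
  have hfun : IsFun D s := by
    refine ⟨?_, ?_⟩
    · intro v t ht
      have hex : ∃ n, ∃ t', ext t t' ∧ Forces (C' n v) t' := by
        obtain ⟨t', ht', k, hk⟩ := hC v t ht
        exact ⟨enc k, t', ht', by rw [hC'1]; exact hk⟩
      obtain ⟨t', ht', hF⟩ := Nat.find_spec hex
      refine ⟨t', ht', Nat.find hex, Forces.of_mem ⟨hF, ?_⟩⟩
      intro m hm q hq hFq
      exact Nat.find_min hex hm ⟨q, ext_trans ht' hq, hFq⟩
    · have key : ∀ v n m t, n < m → Forces (D v n) t → Forces (D v m) t → False := by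
        intro v n m t hnm h1 h2
        obtain ⟨t1, ht1, w, hw, hwt⟩ := h1 t (ext_refl t)
        obtain ⟨t2, ht2, w', hw', hw't⟩ := (h2.mono ht1) t1 (ext_refl t1)
        exact hw'.2 n hnm t2 hw't (hw.1.mono (ext_trans hwt ht2))
      intro v a b t _ h1 h2
      rcases lt_trichotomy a b with h | h | h
      · exact (key v a b t h h1 h2).elim
      · exact h
      · exact (key v b a t h h2 h1).elim
  obtain ⟨t, ht, n, v, w, h1, h2, h3⟩ := hU D s hs hfun
  have h1' := hDC v n t h1
  have h2' := hDC w n t h2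
  obtain ⟨t1, _, p, ⟨k, hk, _⟩, _⟩ := h1' t (ext_refl t)
  subst hk
  rw [hC'1] at h1' h2'
  exact ⟨t, ht, k, v, w, h1', h2', h3⟩

end Pool.Agent.Helper937.Spl
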