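import Pool.Agent.Helper937.Spl0

set_option autoImplicit false

namespace Pool.Agent.Helper937.Spl

/-- the index set of the coordinates -/
abbrev Tr : Type := (ℕ → Bool) × (ℕ → Bool) × (ℕ → Bool)

/-- add the pair (c, i) to the condition t, erasing the old value at c -/
noncomputable def flip {I : Type} (t : Fn I) (c : I) (i : ℕ) : Fn I := by
  classical
  exact ⟨insert (c, i) (t.1.filter fun x => x.1 ≠ c), by
    intro j a b ha hb
    rw [Finset.mem_insert, Finset.mem_filter] at ha hb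
    rcases ha with ha | ⟨ha, ha'⟩ <;> rcases hb with hb | ⟨hb, hb'⟩
    · rw [Prod.mk.injEq] at ha hb
      exact ha.2.trans hb.2.symm
    · rw [Prod.mk.injEq] at ha
      exact absurd ha.1 hb'
    · rw [Prod.mk.injEq] at hb
      exact absurd hb.1 ha'
    · exact t.2 j a b ha hb⟩

theorem mem_flip {I : Type} (t : Fn I) (c : I) (i : ℕ) : (c, i) ∈ (flip t c i).1 := by
  classical
  unfold flip
  exact Finset.mem_insert_self _ _

theorem mem_flip_of {I : Type} (t : Fn I) (c : I) (i : ℕ) (d : I) (n : ℕ) (hd : d ≠ c)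
    (h : (d, n) ∈ t.1) : (d, n) ∈ (flip t c i).1 := by
  classical
  unfold flip
  exact Finset.mem_insert_of_mem (Finset.mem_filter.2 ⟨h, hd⟩)

theorem ext_flip {I : Type} (p t : Fn I) (c : I) (i : ℕ) (h : ext p t)
    (hc : ∀ n, (c, n) ∉ p.1) : ext p (flip t c i) := by
  rintro ⟨d, n⟩ hd
  refine mem_flip_of t c i d n ?_ (h hd)
  rintro rfl
  exact hc n hd

/-- the class of index i -/
def Kc {L : Type} (H : L → L → Set (Fn Tr)) (f : L → (ℕ → Bool) → Set (Fn Tr))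
    (co : L → L → (ℕ → Bool) → (ℕ → Bool) → Tr) (i : ℕ) (v w : L) : Set (Fn Tr) :=
  {p | Forces (H v w) p ∧ ∃ a b, Forces (f v a) p ∧ Forces (f w b) p ∧ (co v w a b, i) ∈ p.1}

section
variable {L : Type} (H : L → L → Set (Fn Tr)) (f : L → (ℕ → Bool) → Set (Fn Tr))
  (co : L → L → (ℕ → Bool) → (ℕ → Bool) → Tr)

theorem Kc.mono {i : ℕ} {v w : L} {p q : Fn Tr} (h : p ∈ Kc H f co i v w) (hpq : ext p q) :
    q ∈ Kc H f co i v w := by
  obtain ⟨h1, a, b, h2, h3, h4⟩ := h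
  exact ⟨h1.mono hpq, a, b, h2.mono hpq, h3.mono hpq, hpq h4⟩

theorem Kc.dense {i : ℕ} {v w : L} {t s : Fn Tr} (h : Forces (Kc H f co i v w) t)
    (hs : ext t s) : ∃ u, ext s u ∧ u ∈ Kc H f co i v w := by
  obtain ⟨u, hu, p, hp, hpu⟩ := h s hs
  exact ⟨u, hu, Kc.mono H f co hp hpu⟩

theorem forces_of_dense_mem {I : Type} {N : Set (Fn I)} {t : Fn I}
    (h : ∀ s, ext t s → ∃ u, ext s u ∧ u ∈ N) : Forces N t := by
  intro s hs
  obtain ⟨u, hu, huN⟩ := h s hs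
  exact ⟨u, hu, u, huN, ext_refl u⟩

theorem Kc.symm (r : Fn Tr) (hG : IsGraph H r)
    (hco : ∀ v w a b, v ≠ w → co v w a b = co w v b a)
    {i : ℕ} {v w : L} {t : Fn Tr} (hrt : ext r t) (h : Forces (Kc H f co i v w) t) :
    Forces (H v w) t ∧ Forces (Kc H f co i w v) t := by
  refine ⟨h.of_dense fun p hp => hp.1, forces_of_dense_mem fun s hs => ?_⟩
  obtain ⟨u, hu, h1, a, b, h2, h3, h4⟩ := Kc.dense H f co h hs
  have hru : ext r u := ext_trans hrt (ext_trans hs hu)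
  have hne : v ≠ w := by
    rintro rfl
    exact hG.2 v u hru h1
  refine ⟨u, hu, hG.1 v w u hru h1, b, a, h3, h2, ?_⟩
  rw [← hco v w a b hne]
  exact h4

theorem Kc.total (r : Fn Tr) (hf : IsFun f r) {v w : L} {t : Fn Tr} (hrt : ext r t)
    (h : Forces (H v w) t) : ∃ t', ext t t' ∧ ∃ i, Forces (Kc H f co i v w) t' := by
  obtain ⟨t1, ht1, a, ha⟩ := hf.1 v t hrt
  obtain ⟨t2, ht2, b, hb⟩ := hf.1 w t1 (ext_trans hrt ht1)
  by_cases hc : ∃ i, (co v w a b, i) ∈ t2.1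
  · obtain ⟨i, hi⟩ := hc
    exact ⟨t2, ext_trans ht1 ht2, i, Forces.of_mem
      ⟨h.mono (ext_trans ht1 ht2), a, b, ha.mono ht2, hb, hi⟩⟩
  · push Not at hc
    have h3 : ext t2 (flip t2 (co v w a b) 0) := ext_flip t2 t2 _ 0 (ext_refl t2) hc
    exact ⟨flip t2 (co v w a b) 0, ext_trans (ext_trans ht1 ht2) h3, 0, Forces.of_mem
      ⟨h.mono (ext_trans (ext_trans ht1 ht2) h3), a, b, ha.mono (ext_trans ht2 h3), hb.mono h3,
        mem_flip t2 _ 0⟩⟩

theorem Kc.disj (r : Fn Tr) (hf : IsFun f r) {i j : ℕ} {v w : L} {t : Fn Tr} (hrt : ext r t)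
    (h1 : Forces (Kc H f co i v w) t) (h2 : Forces (Kc H f co j v w) t) : i = j := by
  obtain ⟨u1, hu1, hm1⟩ := Kc.dense H f co h1 (ext_refl t)
  obtain ⟨u, hu, _, a, b, h3, h4, h5⟩ := Kc.dense H f co h2 hu1
  obtain ⟨_, a', b', h3', h4', h5'⟩ := Kc.mono H f co hm1 hu
  have hru : ext r u := ext_trans hrt (ext_trans hu1 hu)
  have ha := hf.2 v a a' u hru h3 h3'
  have hb := hf.2 w b b' u hru h4 h4'
  subst ha hb
  exact u.2 _ i j h5' h5

theorem Kc.main (r : Fn Tr) (hf : IsFun f r) (hP : IsProper H f r) (hU : UncChrom H r)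
    (hco1 : ∀ v w a b, ((co v w a b).1 = a ∧ (co v w a b).2.1 = b) ∨
      ((co v w a b).1 = b ∧ (co v w a b).2.1 = a))
    (hco2 : ∀ v w a b (q q' : Fn Tr), (∀ c, c ≠ co v w a b → ∀ n, (c, n) ∈ q.1 → (c, n) ∈ q'.1) →
      Forces (H v w) q → Forces (H v w) q')
    (π : L → ℕ → Set (Fn Tr)) (s : Fn Tr) (hrs : ext r s) (hπ : IsFun π s) :
    ∃ t, ext s t ∧ ∃ n, ∀ i, ∀ t', ext t t' → ∃ t'', ext t' t'' ∧
      ∃ v w, Forces (π v n) t'' ∧ Forces (π w n) t'' ∧ Forces (Kc H f co i v w) t'' := by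
  classical
  by_contra hcon
  have hcon' : ∀ t, ext s t → ∀ n, ∃ i t', ext t t' ∧ ∀ t'', ext t' t'' →
      ¬ ∃ v w, Forces (π v n) t'' ∧ Forces (π w n) t'' ∧ Forces (Kc H f co i v w) t'' := by
    intro t ht n
    by_contra h
    apply hcon
    refine ⟨t, ht, n, fun i t' ht' => ?_⟩
    by_contra h'
    apply h
    refine ⟨i, t', ht', fun t'' ht'' hA => ?_⟩
    exact h' ⟨t'', ht'', hA⟩
  let C : (ℕ × ℕ × (Σ m : ℕ, (Fin m → Bool))) → L → Set (Fn Tr) := fun k v =>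
    {p | ext s p ∧ ∃ a : ℕ → Bool, Forces (π v k.1) p ∧ Forces (f v a) p ∧
      (∀ t'', ext p t'' → ¬ ∃ v w, Forces (π v k.1) t'' ∧ Forces (π w k.1) t'' ∧
        Forces (Kc H f co k.2.1 v w) t'') ∧
      (∀ j : Fin k.2.2.1, a j = k.2.2.2 j) ∧
      ∀ c n, (c, n) ∈ p.1 → (c.1 ≠ a → ∃ j : Fin k.2.2.1, c.1 j ≠ k.2.2.2 j) ∧
        (c.2.1 ≠ a → ∃ j : Fin k.2.2.1, c.2.1 j ≠ k.2.2.2 j)}
  have hC : ∀ v t, ext s t → ∃ t', ext t t' ∧ ∃ k, Forces (C k v) t' := by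
    intro v t ht
    obtain ⟨t1, ht1, n, hn⟩ := hπ.1 v t ht
    obtain ⟨t2, ht2, a, ha⟩ := hf.1 v t1 (ext_trans hrs (ext_trans ht ht1))
    obtain ⟨i, t3, ht3, h3⟩ := hcon' t2 (ext_trans (ext_trans ht ht1) ht2) n
    -- a length at which a differs from all the other sequences that occur in t3
    have hm : ∃ m : ℕ, ∀ c n, (c, n) ∈ t3.1 → (c.1 ≠ a → ∃ j < m, c.1 j ≠ a j) ∧
        (c.2.1 ≠ a → ∃ j < m, c.2.1 j ≠ a j) := by
      have h1 : ∀ F : Finset (Tr × ℕ), ∃ m : ℕ, ∀ x ∈ F, (x.1.1 ≠ a → ∃ j < m, x.1.1 j ≠ a j) ∧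
          (x.1.2.1 ≠ a → ∃ j < m, x.1.2.1 j ≠ a j) := by
        intro F
        induction F using Finset.induction_on with
        | empty => exact ⟨0, fun x hx => absurd hx (Finset.notMem_empty x)⟩
        | insert x F _ ih =>
          obtain ⟨m, hm⟩ := ih
          have hx1 : ∃ m1 : ℕ, x.1.1 ≠ a → ∃ j < m1, x.1.1 j ≠ a j := by
            by_cases h : x.1.1 = a
            · exact ⟨0, fun h' => absurd h h'⟩
            · obtain ⟨j, hj⟩ := Function.ne_iff.1 h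
              exact ⟨j + 1, fun _ => ⟨j, Nat.lt_succ_self j, hj⟩⟩
          have hx2 : ∃ m2 : ℕ, x.1.2.1 ≠ a → ∃ j < m2, x.1.2.1 j ≠ a j := by
            by_cases h : x.1.2.1 = a
            · exact ⟨0, fun h' => absurd h h'⟩
            · obtain ⟨j, hj⟩ := Function.ne_iff.1 h
              exact ⟨j + 1, fun _ => ⟨j, Nat.lt_succ_self j, hj⟩⟩
          obtain ⟨m1, hm1⟩ := hx1
          obtain ⟨m2, hm2⟩ := hx2
          refine ⟨m + m1 + m2, ?_⟩
          intro y hy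
          rcases Finset.mem_insert.1 hy with rfl | hy
          · refine ⟨fun h => ?_, fun h => ?_⟩
            · obtain ⟨j, hj, hj'⟩ := hm1 h
              exact ⟨j, by omega, hj'⟩
            · obtain ⟨j, hj, hj'⟩ := hm2 h
              exact ⟨j, by omega, hj'⟩
          · refine ⟨fun h => ?_, fun h => ?_⟩
            · obtain ⟨j, hj, hj'⟩ := (hm y hy).1 h
              exact ⟨j, by omega, hj'⟩
            · obtain ⟨j, hj, hj'⟩ := (hm y hy).2 h
              exact ⟨j, by omega, hj'⟩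
      obtain ⟨m, hm⟩ := h1 t3.1
      exact ⟨m, fun c n hcn => hm (c, n) hcn⟩
    obtain ⟨m, hm⟩ := hm
    refine ⟨t3, ext_trans (ext_trans ht1 ht2) ht3, (n, i, ⟨m, fun j => a j⟩), Forces.of_mem ?_⟩
    refine ⟨ext_trans ht (ext_trans (ext_trans ht1 ht2) ht3), a, hn.mono (ext_trans ht2 ht3),
      ha.mono ht3, h3, fun j => rfl, ?_⟩
    intro c n hcn
    refine ⟨fun h => ?_, fun h => ?_⟩
    · obtain ⟨j, hj, hj'⟩ := (hm c n hcn).1 h
      exact ⟨⟨j, hj⟩, hj'⟩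
    · obtain ⟨j, hj, hj'⟩ := (hm c n hcn).2 h
      exact ⟨⟨j, hj⟩, hj'⟩
  obtain ⟨t, hst, k, v, w, hv, hw, hvw⟩ := of_cover H r hU C s hrs hC
  obtain ⟨t1, ht1, pv, hpv, hpvt⟩ := hv t (ext_refl t)
  obtain ⟨t2, ht2, pw, hpw, hpwt⟩ := (hw.mono ht1) t1 (ext_refl t1)
  obtain ⟨hspv, a, hπv, hfv, hno, haU, hasep⟩ := hpv
  obtain ⟨_, b, hπw, hfw, _, hbU, hbsep⟩ := hpw
  have hpvt2 : ext pv t2 := ext_trans hpvt ht2
  have hrt2 : ext r t2 := ext_trans hrs (ext_trans hst (ext_trans ht1 ht2))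
  have hvw2 : Forces (H v w) t2 := hvw.mono (ext_trans ht1 ht2)
  have hab : a ≠ b := by
    rintro rfl
    exact hP v w a t2 hrt2 hvw2 (hfv.mono hpvt2) (hfw.mono hpwt)
  have hcv : ∀ n, (co v w a b, n) ∉ pv.1 := by
    intro n hn
    rcases hco1 v w a b with ⟨_, h2⟩ | ⟨h1, _⟩
    · obtain ⟨j, hj⟩ := (hasep _ n hn).2 (by rw [h2]; exact hab.symm)
      rw [h2] at hj
      exact hj (hbU j)
    · obtain ⟨j, hj⟩ := (hasep _ n hn).1 (by rw [h1]; exact hab.symm)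
      rw [h1] at hj
      exact hj (hbU j)
  have hcw : ∀ n, (co v w a b, n) ∉ pw.1 := by
    intro n hn
    rcases hco1 v w a b with ⟨h1, _⟩ | ⟨_, h2⟩
    · obtain ⟨j, hj⟩ := (hbsep _ n hn).1 (by rw [h1]; exact hab)
      rw [h1] at hj
      exact hj (haU j)
    · obtain ⟨j, hj⟩ := (hbsep _ n hn).2 (by rw [h2]; exact hab)
      rw [h2] at hj
      exact hj (haU j)
  have hpvs : ext pv (flip t2 (co v w a b) k.2.1) := ext_flip pv t2 _ _ hpvt2 hcv
  have hpws : ext pw (flip t2 (co v w a b) k.2.1) := ext_flip pw t2 _ _ hpwt hcw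
  have hH : Forces (H v w) (flip t2 (co v w a b) k.2.1) :=
    hco2 v w a b t2 _ (fun c hc n hn => mem_flip_of t2 _ _ c n hc hn) hvw2
  exact hno _ hpvs ⟨v, w, hπv.mono hpvs, hπw.mono hpws, Forces.of_mem
    ⟨hH, a, b, hfv.mono hpvs, hfw.mono hpws, mem_flip t2 _ _⟩⟩

end

end Pool.Agent.Helper937.Spl
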