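import Pool.Agent.Helper937.Spl1
import Pool.Agent.Helper937.Eta1
import Pool.Agent.Helper937.Eta5

set_option autoImplicit false

open Cardinal Ordinal Set

namespace Pool.Agent.Helper937.Spl

/-- the poset of finite partial functions is ccc -/
theorem fn_ccc (I : Type) (A : Set (Fn I))
    (hA : ∀ a ∈ A, ∀ b ∈ A, a ≠ b → ¬ ∃ c, ext a c ∧ ext b c) : A.Countable := by
  classical
  by_contra hnc
  have hle : ℵ_ 1 ≤ #A := not_lt.1 (fun h => hnc ((countable_iff_lt_aleph_one A).2 h))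
  obtain ⟨V', hV'A, hV'θ, R0, hR0⟩ := Eta.delta_system (J := Fn I) (I := I) (ℵ_ 1) isRegular_aleph_one
    aleph0_lt_aleph_one (fun p => p.1.image Prod.fst) A hle
  have hV'nc : ¬ V'.Countable := fun h => absurd hV'θ (not_le.2 ((countable_iff_lt_aleph_one V').1 h))
  have hT : ((R0 : Set I) ×ˢ (univ : Set ℕ)).Countable := R0.countable_toSet.prod countable_univ
  have hW := Set.countable_setOf_finite_subset hT
  have hninj : ¬ InjOn (fun p : Fn I => ((p.1.filter (fun q => q.1 ∈ R0) : Finset (I × ℕ)) : Set (I × ℕ))) V' := by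
    intro hinj
    apply hV'nc
    refine MapsTo.countable_of_injOn (t := {t | t.Finite ∧ t ⊆ (R0 : Set I) ×ˢ (univ : Set ℕ)}) ?_ hinj hW
    intro p _
    refine ⟨Finset.finite_toSet _, ?_⟩
    intro q hq
    have := (Finset.mem_filter.1 (Finset.mem_coe.1 hq)).2
    exact ⟨this, mem_univ _⟩
  simp only [InjOn, not_forall] at hninj
  obtain ⟨a, ha, b, hb, hab, hne⟩ := hninj
  have hab' : a.1.filter (fun q => q.1 ∈ R0) = b.1.filter (fun q => q.1 ∈ R0) :=
    Finset.coe_injective hab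
  have key : ∀ i x y, (i, x) ∈ a.1 → (i, y) ∈ b.1 → x = y := by
    intro i x y hx hy
    have hi : i ∈ R0 := (hR0 a ha b hb hne).1 i
      (Finset.mem_image.2 ⟨(i, x), hx, rfl⟩) (Finset.mem_image.2 ⟨(i, y), hy, rfl⟩)
    have h1 : (i, y) ∈ b.1.filter (fun q => q.1 ∈ R0) := Finset.mem_filter.2 ⟨hy, hi⟩
    rw [← hab'] at h1
    exact a.2 i x y hx (Finset.mem_filter.1 h1).1
  refine hA a (hV'A ha) b (hV'A hb) hne ⟨⟨a.1 ∪ b.1, ?_⟩, Finset.subset_union_left,
    Finset.subset_union_right⟩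
  intro i x y hx hy
  rcases Finset.mem_union.1 hx with hx | hx <;> rcases Finset.mem_union.1 hy with hy | hy
  · exact a.2 i x y hx hy
  · exact key i x y hx hy
  · exact (key i y x hy hx).symm
  · exact b.2 i x y hx hy

/-- names have countable support: assuming every name is equivalent to a countable one -/
theorem support_of_countable (I : Type) (N A : Set (Fn I)) (hA : A.Countable)
    (hNA : ∀ r, Forces A r ↔ Forces N r) :
    ∃ S : Set I, S.Countable ∧ ∀ q q' : Fn I,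
      (∀ c ∈ S, ∀ n, (c, n) ∈ q.1 → (c, n) ∈ q'.1) → Forces N q → Forces N q' := by
  classical
  refine ⟨⋃ w ∈ A, ((w.1.image Prod.fst : Finset I) : Set I),
    hA.biUnion fun w _ => (w.1.image Prod.fst).countable_toSet, fun q q' hqq' hN => ?_⟩
  set S : Set I := ⋃ w ∈ A, ((w.1.image Prod.fst : Finset I) : Set I) with hS
  have hSw : ∀ w ∈ A, ∀ x ∈ w.1, x.1 ∈ S := by
    intro w hw x hx
    rw [hS]
    simp only [Set.mem_iUnion]
    exact ⟨w, hw, by exact_mod_cast Finset.mem_image_of_mem Prod.fst hx⟩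
  rw [← hNA] at hN ⊢
  intro s hs
  have hc0 : ∀ i a b, (i, a) ∈ (s.1.filter (fun x => x.1 ∈ S)) ∪ q.1 →
      (i, b) ∈ (s.1.filter (fun x => x.1 ∈ S)) ∪ q.1 → a = b := by
    intro i a b ha hb
    rw [Finset.mem_union, Finset.mem_filter] at ha hb
    rcases ha with ⟨ha, haS⟩ | ha
    · rcases hb with ⟨hb, _⟩ | hb
      · exact s.2 i a b ha hb
      · exact s.2 i a b ha (hs (hqq' i haS b hb))
    · rcases hb with ⟨hb, hbS⟩ | hb
      · exact s.2 i a b (hs (hqq' i hbS a ha)) hb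
      · exact q.2 i a b ha hb
  obtain ⟨t, ht, w, hw, hwt⟩ := hN ⟨_, hc0⟩ (Finset.subset_union_right)
  have ht1 : ∀ i a b, (i, a) ∈ (t.1.filter (fun x => x.1 ∈ S)) ∪ s.1 →
      (i, b) ∈ (t.1.filter (fun x => x.1 ∈ S)) ∪ s.1 → a = b := by
    intro i a b ha hb
    rw [Finset.mem_union, Finset.mem_filter] at ha hb
    rcases ha with ⟨ha, haS⟩ | ha
    · rcases hb with ⟨hb, _⟩ | hb
      · exact t.2 i a b ha hb
      · exact t.2 i a b ha (ht (Finset.mem_union_left _ (Finset.mem_filter.2 ⟨hb, haS⟩)))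
    · rcases hb with ⟨hb, hbS⟩ | hb
      · exact t.2 i a b (ht (Finset.mem_union_left _ (Finset.mem_filter.2 ⟨ha, hbS⟩))) hb
      · exact s.2 i a b ha hb
  refine ⟨⟨_, ht1⟩, Finset.subset_union_right, w, hw, fun x hx => ?_⟩
  exact Finset.mem_union_left _ (Finset.mem_filter.2 ⟨hwt hx, hSw w hw x hx⟩)

theorem mk_fn_le_aux : #(ℕ → Bool) = 2 ^ ℵ₀ := by
  simp

theorem mk_fn_le : #(Fn ((ℕ → Bool) × (ℕ → Bool) × (ℕ → Bool))) ≤ 2 ^ ℵ₀ := by
  have h1 : #(Fn ((ℕ → Bool) × (ℕ → Bool) × (ℕ → Bool))) ≤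
      #(Finset (((ℕ → Bool) × (ℕ → Bool) × (ℕ → Bool)) × ℕ)) :=
    Cardinal.mk_subtype_le _
  refine h1.trans ?_
  rw [Cardinal.mk_finset_of_infinite]
  simp only [Cardinal.mk_prod, Cardinal.lift_uzero, mk_fn_le_aux, Cardinal.mk_nat]
  have hinf : ℵ₀ ≤ (2 : Cardinal.{0}) ^ ℵ₀ := (Cardinal.cantor ℵ₀).le
  rw [Cardinal.mul_eq_self hinf, Cardinal.mul_eq_self hinf]
  exact (mul_le_mul' le_rfl hinf).trans (Cardinal.mul_eq_self hinf).le

theorem continuum_power : ((2 : Cardinal.{0}) ^ ℵ₀) ^ (ℵ₀ * #ℕ) = 2 ^ ℵ₀ := by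
  rw [Cardinal.mk_nat, Cardinal.aleph0_mul_aleph0, ← Cardinal.power_mul,
    Cardinal.aleph0_mul_aleph0]

/-- from an enumeration of length 2^ℵ₀ to an enumeration by the type of 0-1 sequences -/
theorem reindex {Q : Type} (X : ((2 : Cardinal.{0}) ^ ℵ₀).ord.ToType → Q) :
    ∃ X' : (ℕ → Bool) → Q, ∀ ξ, ∃ x, X' x = X ξ := by
  have h : #(((2 : Cardinal.{0}) ^ ℵ₀).ord.ToType) = #(ℕ → Bool) := by
    rw [Cardinal.mk_ord_toType, mk_fn_le_aux]
  obtain ⟨e⟩ := Cardinal.eq.1 h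
  exact ⟨fun x => X (e.symm x), fun ξ => ⟨e ξ, congrArg X (e.symm_apply_apply ξ)⟩⟩

/-- a countable set of triples does not have all sequences as third coordinates -/
theorem exists_third (S : Set ((ℕ → Bool) × (ℕ → Bool) × (ℕ → Bool))) (hS : S.Countable) :
    ∃ x : ℕ → Bool, ∀ c ∈ S, c.2.2 ≠ x := by
  by_contra hcon
  push Not at hcon
  have h1 : (fun c : (ℕ → Bool) × (ℕ → Bool) × (ℕ → Bool) => c.2.2) '' S = Set.univ := by
    ext x
    simp only [Set.mem_image, Set.mem_univ, iff_true]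
    obtain ⟨c, hc, hx⟩ := hcon x
    exact ⟨c, hc, hx⟩
  have h2 : (Set.univ : Set (ℕ → Bool)).Countable := h1 ▸ hS.image _
  have h3 : #(ℕ → Bool) ≤ ℵ₀ := by
    rw [Cardinal.mk_le_aleph0_iff]
    exact Set.countable_univ_iff.1 h2
  rw [mk_fn_le_aux] at h3
  exact absurd h3 (not_le.2 (Cardinal.cantor ℵ₀))


theorem support (I : Type) (N : Set (Fn I)) :
    ∃ S : Set I, S.Countable ∧ ∀ q q' : Fn I,
      (∀ c ∈ S, ∀ n, (c, n) ∈ q.1 → (c, n) ∈ q'.1) → Forces N q → Forces N q' := by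
  obtain ⟨A, hA, hNA⟩ := Eta.nice_step1 (P := Fn I) ext ext_refl
    (fun a b c h1 h2 => ext_trans h1 h2) (fn_ccc I) N
  exact support_of_countable I N A hA hNA

theorem few_names : ∃ X : (ℕ → Bool) → ℕ → Set (Fn Tr), ∀ Y : ℕ → Set (Fn Tr), ∃ x, ∀ n r,
    Forces (X x n) r ↔ Forces (Y n) r := by
  obtain ⟨X, hX⟩ := Eta.nice_names (P := Fn Tr) ext ext_refl
    (fun a b c h1 h2 => ext_trans h1 h2) (fn_ccc Tr) (2 ^ ℵ₀) mk_fn_le ℕ continuum_power
    (Cardinal.cantor ℵ₀).le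
  obtain ⟨X', hX'⟩ := reindex X
  refine ⟨X', fun Y => ?_⟩
  obtain ⟨ξ, hξ⟩ := hX Y
  obtain ⟨x, hx⟩ := hX' ξ
  refine ⟨x, fun n r => ?_⟩
  rw [hx]
  exact hξ n r

theorem splits_nat {L : Type} (H : L → L → Set (Fn Tr)) (f : L → (ℕ → Bool) → Set (Fn Tr))
    (r : Fn Tr) (hG : IsGraph H r) (hf : IsFun f r) (hP : IsProper H f r) (hU : UncChrom H r) :
    ∃ K : ℕ → L → L → Set (Fn Tr), Splits H K r := by
  classical
  choose S hS1 hS2 using support Tr
  choose x hx using fun v w : L => exists_third (S (H v w) ∪ S (H w v))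
    ((hS1 (H v w)).union (hS1 (H w v)))
  let co : L → L → (ℕ → Bool) → (ℕ → Bool) → Tr := fun v w a b =>
    if WellOrderingRel v w then (a, b, x v w) else (b, a, x w v)
  refine ⟨Kc H f co, ?_, ?_, ?_, ?_⟩
  · intro i v w t hrt h
    refine Kc.symm H f co r hG ?_ hrt h
    intro v w a b hvw
    simp only [co]
    rcases trichotomous_of (WellOrderingRel (α := L)) v w with h1 | h1 | h1
    · rw [if_pos h1, if_neg (asymm_of (WellOrderingRel (α := L)) h1)]
    · exact absurd h1 hvw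
    · rw [if_pos h1, if_neg (asymm_of (WellOrderingRel (α := L)) h1)]
  · intro v w t hrt h
    exact Kc.total H f co r hf hrt h
  · intro i j v w t hrt h1 h2
    exact Kc.disj H f co r hf hrt h1 h2
  · intro π s hrs hπ
    refine Kc.main H f co r hf hP hU ?_ ?_ π s hrs hπ
    · intro v w a b
      simp only [co]
      split_ifs
      · exact Or.inl ⟨rfl, rfl⟩
      · exact Or.inr ⟨rfl, rfl⟩
    · intro v w a b q q' hqq' hF
      refine hS2 (H v w) q q' ?_ hF
      intro c hc n hn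
      refine hqq' c ?_ n hn
      rintro rfl
      by_cases h : WellOrderingRel v w
      · refine hx v w (co v w a b) (Or.inl hc) ?_
        simp only [co]
        rw [if_pos h]
      · refine hx w v (co v w a b) (Or.inr hc) ?_
        simp only [co]
        rw [if_neg h]

/-- a splitting to ℵ₀ parts gives one to D parts for every nonempty countable D -/
theorem Splits.map {I L D : Type} (H : L → L → Set (Fn I)) (K : ℕ → L → L → Set (Fn I))
    (r : Fn I) (g : ℕ → D) (hg : Function.Surjective g) (h : Splits H K r) :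
    Splits H (fun d v w => {p | ∃ i, g i = d ∧ p ∈ K i v w}) r := by
  obtain ⟨h1, h2, h3, h4⟩ := h
  have key : ∀ (d : D) (v w : L) (t s : Fn I),
      Forces {p | ∃ i, g i = d ∧ p ∈ K i v w} t → ext t s →
      ∃ u, ext s u ∧ ∃ i, g i = d ∧ Forces (K i v w) u := by
    intro d v w t s hF hs
    obtain ⟨u, hu, p, ⟨i, hi, hp⟩, hpu⟩ := hF s hs
    exact ⟨u, hu, i, hi, (Forces.of_mem hp).mono hpu⟩
  have up : ∀ (i : ℕ) (v w : L) (t : Fn I), Forces (K i v w) t →
      Forces {p | ∃ j, g j = g i ∧ p ∈ K j v w} t := by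
    intro i v w t hF s hs
    obtain ⟨u, hu, p, hp, hpu⟩ := hF s hs
    exact ⟨u, hu, p, ⟨i, rfl, hp⟩, hpu⟩
  refine ⟨?_, ?_, ?_, ?_⟩
  · intro d v w t hrt hF
    refine ⟨?_, ?_⟩
    · intro s hs
      obtain ⟨u, hu, i, hi, hFi⟩ := key d v w t s hF hs
      obtain ⟨u', hu', p, hp, hpu'⟩ := (h1 i v w u (ext_trans hrt (ext_trans hs hu)) hFi).1 u
        (ext_refl u)
      exact ⟨u', ext_trans hu hu', p, hp, hpu'⟩
    · intro s hs
      obtain ⟨u, hu, i, hi, hFi⟩ := key d v w t s hF hs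
      obtain ⟨u', hu', p, hp, hpu'⟩ := (h1 i v w u (ext_trans hrt (ext_trans hs hu)) hFi).2 u
        (ext_refl u)
      exact ⟨u', ext_trans hu hu', p, ⟨i, hi, hp⟩, hpu'⟩
  · intro v w t hrt hF
    obtain ⟨t', ht', i, hi⟩ := h2 v w t hrt hF
    exact ⟨t', ht', g i, up i v w t' hi⟩
  · intro d e v w t hrt hF1 hF2
    obtain ⟨u, hu, i, hi, hFi⟩ := key d v w t t hF1 (ext_refl t)
    obtain ⟨u', hu', j, hj, hFj⟩ := key e v w t u hF2 hu
    have hij := h3 i j v w u' (ext_trans hrt (ext_trans hu hu')) (hFi.mono hu') hFj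
    rw [← hi, ← hj, hij]
  · intro π s hrs hπ
    obtain ⟨t, ht, n, hn⟩ := h4 π s hrs hπ
    refine ⟨t, ht, n, fun d t' ht' => ?_⟩
    obtain ⟨i, rfl⟩ := hg d
    obtain ⟨t'', ht'', v, w, ha, hb, hc⟩ := hn i t' ht'
    exact ⟨t'', ht'', v, w, ha, hb, up i v w t'' hc⟩

end Pool.Agent.Helper937.Spl
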