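import Mathlib

/- This file repeats, with a new namespace, the ZFC theorem of the hand-in
MP_d41870_lc.SplitAwayFromInaccessibles (helper617). -/
namespace Pool.Agent.Helper937.SplZ

open Cardinal

universe u v

/-- The graph `G` splits to `D` many parts: its edge set is the union of pairwise disjoint
classes `H ν` (`ν : D`) such that every partition `π` of the vertices into countably many pieces
has a piece which contains an edge of every class. -/
def SplitsTo {V : Type u} (G : SimpleGraph V) (D : Type v) : Prop :=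
  ∃ H : D → SimpleGraph V,
    (∀ x y, G.Adj x y ↔ ∃ ν, (H ν).Adj x y) ∧
    (∀ μ ν, μ ≠ ν → ∀ x y, (H μ).Adj x y → ¬ (H ν).Adj x y) ∧
    ∀ π : V → ℕ, ∃ n, ∀ ν, ∃ x y, (H ν).Adj x y ∧ π x = n ∧ π y = n

/-- `G` has chromatic number at most `κ`: there is a proper vertex colouring with at most `κ`
colours. -/
def ColorableBy {V : Type u} (G : SimpleGraph V) (κ : Cardinal.{u}) : Prop :=
  ∃ (α : Type u) (f : V → α), #α ≤ κ ∧ ∀ x y, G.Adj x y → f x ≠ f y

/-- No colouring of the edges by `D` witnesses that `G` splits. -/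
def NS {V : Type u} (G : SimpleGraph V) (D : Type v) : Prop :=
  ∀ c : V → V → D, (∀ x y, c x y = c y x) →
    ∃ (π : V → ℕ) (m : ℕ → D), ∀ x y, G.Adj x y → π x = π y → c x y ≠ m (π x)

theorem NS.of_not_splitsTo {V : Type u} {G : SimpleGraph V} {D : Type v}
    (h : ¬ SplitsTo G D) : NS G D := by
  intro c hc
  by_contra hcon
  push Not at hcon
  apply h
  refine ⟨fun ν =>
    { Adj := fun x y => G.Adj x y ∧ c x y = ν
      symm := ⟨fun x y hxy => ⟨hxy.1.symm, by rw [hc]; exact hxy.2⟩⟩
      loopless := ⟨fun x hx => G.loopless.irrefl x hx.1⟩ }, ?_, ?_, ?_⟩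
  · intro x y
    constructor
    · intro hxy; exact ⟨c x y, hxy, rfl⟩
    · rintro ⟨ν, hxy, _⟩; exact hxy
  · intro μ ν hne x y h1 h2
    exact hne (h1.2.symm.trans h2.2)
  · intro π
    by_contra hno
    push Not at hno
    choose m hm using hno
    obtain ⟨x, y, hxy, hpi, hcm⟩ := hcon π m
    exact hm (π x) x y ⟨hxy, hcm⟩ rfl hpi.symm

theorem NS.mono {V : Type u} {G H : SimpleGraph V} {D : Type v} (hle : ∀ x y, H.Adj x y → G.Adj x y)
    (h : NS G D) : NS H D := by
  intro c hc
  obtain ⟨π, m, hm⟩ := h c hc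
  exact ⟨π, m, fun x y hxy => hm x y (hle x y hxy)⟩

theorem ColorableBy.mono {V : Type u} {G : SimpleGraph V} {κ κ' : Cardinal.{u}} (hle : κ ≤ κ')
    (h : ColorableBy G κ) : ColorableBy G κ' := by
  obtain ⟨α, f, hα, hf⟩ := h
  exact ⟨α, f, hα.trans hle, hf⟩

/-- The subgraph of edges whose label lies in `S`. -/
def restr {V T : Type u} (G : SimpleGraph V) (lab : V → V → T) (hl : ∀ x y, lab x y = lab y x)
    (S : Set T) : SimpleGraph V where
  Adj x y := G.Adj x y ∧ lab x y ∈ S
  symm := ⟨fun x y h => ⟨h.1.symm, by rw [hl]; exact h.2⟩⟩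
  loopless := ⟨fun x hx => G.loopless.irrefl x hx.1⟩

theorem restr_colorable {V T : Type u} (G : SimpleGraph V) (lab : V → V → T)
    (hl : ∀ x y, lab x y = lab y x) (f : V → Set T)
    (hf : ∀ x y, G.Adj x y → ¬ (lab x y ∈ f x ↔ lab x y ∈ f y)) (S : Set T) :
    ColorableBy (restr G lab hl S) (2 ^ #S) := by
  refine ⟨Set S, fun x => {s : S | (s : T) ∈ f x}, by rw [mk_set], ?_⟩
  rintro x y ⟨hxy, hS⟩ heq
  apply hf x y hxy
  have := Set.ext_iff.mp heq ⟨lab x y, hS⟩
  simpa using this

theorem exists_label {V T : Type u} [Nonempty T] (G : SimpleGraph V) (f : V → Set T)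
    (hf : ∀ x y, G.Adj x y → f x ≠ f y) :
    ∃ lab : V → V → T, (∀ x y, lab x y = lab y x) ∧
      ∀ x y, G.Adj x y → ¬ (lab x y ∈ f x ↔ lab x y ∈ f y) := by
  classical
  let P : V → V → T → Prop := fun x y t => ¬ (t ∈ f x ↔ t ∈ f y)
  have hP : ∀ x y, P x y = P y x := by
    intro x y; funext t; simp only [P]; rw [Iff.comm]
  refine ⟨fun x y => Classical.epsilon (P x y), fun x y => by simp only [hP x y], ?_⟩
  intro x y hxy
  have hex : ∃ t, P x y t := by
    by_contra hno
    push Not at hno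
    apply hf x y hxy
    ext t
    exact not_not.mp (hno t)
  exact Classical.epsilon_spec hex

/-- Union of `ι` many `λ`-colourable graphs. -/
theorem union_colorable {V ι : Type u} (G : SimpleGraph V) (H : ι → SimpleGraph V)
    (lam : Cardinal.{u}) (hH : ∀ i, ColorableBy (H i) lam)
    (hG : ∀ x y, G.Adj x y → ∃ i, (H i).Adj x y) : ColorableBy G (lam ^ #ι) := by
  choose α f hα hf using hH
  refine ⟨∀ i, α i, fun x i => f i x, ?_, ?_⟩
  · rw [mk_pi]
    calc prod (fun i => #(α i)) ≤ prod (fun _ : ι => lam) := prod_le_prod _ _ hα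
      _ = lam ^ #ι := by simp
  · intro x y hxy heq
    obtain ⟨i, hi⟩ := hG x y hxy
    exact hf i x y hi (congrFun heq i)

/-- Separating systems. -/
def Sep (D : Type u) (β η : Cardinal.{u}) : Prop :=
  ∀ T : Type u, #T = η → ∃ (J : Type u) (F : J → T → D), #J < η ∧
    ∀ i : J → D, #{ξ : T | ∀ j, F j ξ ≠ i j} ≤ β

/-- One step at a separable `η`. -/
theorem step_sep {V D : Type u} (G : SimpleGraph V) (hNS : NS G D) (β η : Cardinal.{u})
    (h0 : ℵ₀ ≤ β) (hβη : β < η) (hSep : Sep D β η) (hcol : ColorableBy G (2 ^ η)) :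
    ∃ η' < η, ColorableBy G (2 ^ η') := by
  classical
  obtain ⟨α, f, hα, hf⟩ := hcol
  let T : Type u := η.out
  have hT : #T = η := mk_out η
  have hTne : Nonempty T := by
    rw [← mk_ne_zero_iff, hT]
    exact (lt_of_le_of_lt zero_le hβη).ne'
  have hinj : Nonempty (α ↪ Set T) := by
    rw [← le_def, mk_set, hT]; exact hα
  obtain ⟨e⟩ := hinj
  obtain ⟨lab, hl, hlab⟩ := exists_label G (fun x => e (f x))
    (fun x y hxy h => hf x y hxy (e.injective h))
  obtain ⟨J, F, hJ, hF⟩ := hSep T hT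
  have hc : ∀ j : J, ∃ (π : V → ℕ) (m : ℕ → D), ∀ x y, G.Adj x y → π x = π y →
      F j (lab x y) ≠ m (π x) := by
    intro j
    exact hNS (fun x y => F j (lab x y)) (fun x y => by rw [hl])
  choose π m hm using hc
  let X : (J → ℕ) → Set T := fun p => {ξ : T | ∀ j, F j ξ ≠ m j (p j)}
  refine ⟨β * #J + β, ?_, (Σ p : ULift.{u} (J → ℕ), Set (X p.down)),
    fun x => ⟨⟨fun j => π j x⟩, {s | (s : T) ∈ e (f x)}⟩, ?_, ?_⟩
  · exact add_lt_of_lt (h0.trans hβη.le) (mul_lt_of_lt (h0.trans hβη.le) hβη hJ) hβη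
  · rw [mk_sigma]
    have h1 : ∀ p : ULift.{u} (J → ℕ), #(Set (X p.down)) ≤ 2 ^ β := by
      intro p
      rw [mk_set]
      exact power_le_power_left two_ne_zero (hF _)
    calc sum (fun p : ULift.{u} (J → ℕ) => #(Set (X p.down)))
        ≤ sum (fun _ : ULift.{u} (J → ℕ) => 2 ^ β) := sum_le_sum _ _ h1
      _ = #(ULift.{u} (J → ℕ)) * 2 ^ β := by rw [sum_const']
      _ ≤ 2 ^ (β * #J) * 2 ^ β := by
          gcongr
          rw [mk_uLift]
          have : lift.{u} #(J → ℕ) = ℵ₀ ^ #J := by simp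
          rw [this, power_mul]
          refine power_le_power_right ?_
          exact h0.trans (cantor β).le
      _ = 2 ^ (β * #J + β) := by rw [power_add]
  · intro x y hxy heq
    have h1 : (fun j => π j x) = fun j => π j y := by
      have := congrArg (fun z => z.1.down) heq
      exact this
    have hmem : lab x y ∈ X (fun j => π j x) := by
      intro j
      exact hm j x y hxy (congrFun h1 j)
    apply hlab x y hxy
    have h2 : ∀ (a b : Σ p : ULift.{u} (J → ℕ), Set (X p.down)), a = b → ∀ t : T,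
        ((∃ h : t ∈ X a.1.down, (⟨t, h⟩ : X a.1.down) ∈ a.2) ↔
          (∃ h : t ∈ X b.1.down, (⟨t, h⟩ : X b.1.down) ∈ b.2)) := by
      rintro a b rfl t; rfl
    have h3 := h2 _ _ heq (lab x y)
    have hmem' : lab x y ∈ X (fun j => π j y) := by rw [← h1]; exact hmem
    simp only [Set.mem_ofPred_eq] at h3
    constructor
    · intro h
      exact (h3.1 ⟨hmem, h⟩).2
    · intro h
      exact (h3.2 ⟨hmem', h⟩).2

/-- One step at a singular `η`. -/
theorem step_singular {V D : Type u} (G : SimpleGraph V) (hNS : NS G D) (β η : Cardinal.{u})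
    (h0 : ℵ₀ ≤ β) (hβη : β < η) (hreg : ¬ η.IsRegular)
    (IH : ∀ η' < η, ∀ H : SimpleGraph V, NS H D → ColorableBy H (2 ^ η') →
      ColorableBy H (2 ^ β))
    (hcol : ColorableBy G (2 ^ η)) :
    ∃ η' < η, ColorableBy G (2 ^ η') := by
  classical
  obtain ⟨α, f, hα, hf⟩ := hcol
  have hη0 : ℵ₀ ≤ η := h0.trans hβη.le
  let T : Type u := η.ord.ToType
  have hT : #T = η := by simp [T]
  have hTne : Nonempty T := by
    rw [← mk_ne_zero_iff, hT]
    exact (lt_of_le_of_lt zero_le hβη).ne'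
  have hinj : Nonempty (α ↪ Set T) := by
    rw [← le_def, mk_set, hT]; exact hα
  obtain ⟨e⟩ := hinj
  obtain ⟨lab, hl, hlab⟩ := exists_label G (fun x => e (f x))
    (fun x y hxy h => hf x y hxy (e.injective h))
  have hcof : Order.cof T < η := by
    rw [Ordinal.cof_toType]
    by_contra hcon
    exact hreg ⟨hη0, not_lt.mp hcon⟩
  obtain ⟨C, hC, hCcard⟩ := Order.exists_cof_eq (α := T)
  have hsmall : ∀ k : T, #(Set.Iic k) < η := by
    intro k
    have := mk_Iic_lt (α := T) k (by simp [T]) (by rw [hT]; exact hη0)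
    rwa [hT] at this
  have hpiece : ∀ c : C, ColorableBy (restr G lab hl (Set.Iic (c : T))) (2 ^ β) := by
    intro c
    apply IH _ (hsmall c)
    · exact hNS.mono (fun x y h => h.1)
    · exact restr_colorable G lab hl (fun x => e (f x)) hlab _
  refine ⟨β * #C, mul_lt_of_lt hη0 hβη (by rw [hCcard]; exact hcof), ?_⟩
  rw [power_mul]
  apply union_colorable G (fun c : C => restr G lab hl (Set.Iic (c : T))) _ hpiece
  intro x y hxy
  obtain ⟨c, hcC, hle⟩ := hC (lab x y)
  exact ⟨⟨c, hcC⟩, hxy, hle⟩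

/-- The induction. -/
theorem core {V D : Type u} (β : Cardinal.{u}) (h0 : ℵ₀ ≤ β)
    (hSep : ∀ η, β < η → η.IsRegular → ¬ η.IsStrongPrelimit → Sep D β η) :
    ∀ η : Cardinal.{u}, (∀ μ, β < μ → μ ≤ η → ¬ μ.IsInaccessible) →
      ∀ G : SimpleGraph V, NS G D → ColorableBy G (2 ^ η) → ColorableBy G (2 ^ β) := by
  intro η
  induction η using WellFoundedLT.induction with
  | ind η IH =>
    intro hno G hNS hcol
    rcases le_or_gt η β with hle | hlt
    · exact hcol.mono (power_le_power_left two_ne_zero hle)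
    have IH' : ∀ η' < η, ∀ H : SimpleGraph V, NS H D → ColorableBy H (2 ^ η') →
        ColorableBy H (2 ^ β) := by
      intro η' hη' H hH hHc
      exact IH η' hη' (fun μ h1 h2 => hno μ h1 (h2.trans hη'.le)) H hH hHc
    have hstep : ∃ η' < η, ColorableBy G (2 ^ η') := by
      by_cases hreg : η.IsRegular
      · have hns : ¬ η.IsStrongPrelimit := by
          intro hs
          exact hno η hlt le_rfl ⟨lt_of_le_of_lt h0 hlt, hreg.le_cof_ord, hs⟩
        exact step_sep G hNS β η h0 hlt (hSep η hlt hreg hns) hcol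
      · exact step_singular G hNS β η h0 hlt hreg IH' hcol
    obtain ⟨η', hη', hc'⟩ := hstep
    exact IH' η' hη' G hNS hc'

/-- Existence of separating systems below the first strong limit above `β`. -/
theorem sep_of (D : Type u) [Nonempty D] (β : Cardinal.{u}) (h0 : ℵ₀ ≤ β) (hD : 2 ^ #D ≤ β)
    (η : Cardinal.{u}) (hβη : β < η) (hreg : η.IsRegular) (hns : ¬ η.IsStrongPrelimit) :
    Sep D β η := by
  classical
  have hη0 : ℵ₀ ≤ η := h0.trans hβη.le
  -- the least exponent
  have hex : ∃ ρ : Cardinal.{u}, η ≤ 2 ^ ρ := ⟨η, (cantor η).le⟩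
  let η₀ : Cardinal.{u} := sInf {ρ | η ≤ 2 ^ ρ}
  have hη₀mem : η ≤ 2 ^ η₀ := csInf_mem (s := {ρ : Cardinal.{u} | η ≤ 2 ^ ρ}) hex
  have hmin : ∀ ρ < η₀, 2 ^ ρ < η := by
    intro ρ hρ
    by_contra hcon
    exact absurd (csInf_le' (s := {ρ : Cardinal.{u} | η ≤ 2 ^ ρ}) (not_lt.mp hcon))
      (not_le.mpr hρ)
  have hη₀lt : η₀ < η := by
    unfold IsStrongPrelimit at hns
    push Not at hns
    obtain ⟨ρ, hρ, hρ2⟩ := hns
    exact lt_of_le_of_lt (csInf_le' hρ2) hρ
  have hη₀inf : ℵ₀ ≤ η₀ := by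
    by_contra hcon
    push Not at hcon
    have : (2 : Cardinal.{u}) ^ η₀ < ℵ₀ := power_lt_aleph0 (natCast_lt_aleph0 (n := 2)) hcon
    exact absurd (hη₀mem.trans this.le) (not_le.mpr (lt_of_le_of_lt h0 hβη))
  have hDη₀ : #D < η₀ := by
    by_contra hcon
    push Not at hcon
    have h1 : (2 : Cardinal.{u}) ^ η₀ ≤ 2 ^ #D := power_le_power_left two_ne_zero hcon
    exact absurd ((hη₀mem.trans h1).trans hD) (not_le.mpr hβη)
  let W : Type u := η₀.ord.ToType
  have hW : #W = η₀ := by simp [W]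
  have hsmall : ∀ k : W, #(Set.Iic k) < η₀ := by
    intro k
    have := mk_Iic_lt (α := W) k (by simp [W]) (by rw [hW]; exact hη₀inf)
    rwa [hW] at this
  intro T hT
  have hinj : Nonempty (T ↪ Set W) := by
    rw [← le_def, mk_set, hT, hW]; exact hη₀mem
  obtain ⟨s⟩ := hinj
  -- the node of `A` at level `k`
  let node : (k : W) → Set W → Set (Set.Iic k) := fun k A => {w | (w : W) ∈ A}
  let J : Type u := Σ k : W, (D → Set (Set.Iic k))
  let d0 : D := Classical.arbitrary D
  let F : J → T → D := fun j ξ =>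
    if h : ∃ d, j.2 d = node j.1 (s ξ) then h.choose else d0
  have hFspec : ∀ (j : J), Function.Injective j.2 → ∀ (ξ : T) (d : D),
      j.2 d = node j.1 (s ξ) → F j ξ = d := by
    intro j hj ξ d hd
    have h : ∃ d, j.2 d = node j.1 (s ξ) := ⟨d, hd⟩
    have : F j ξ = h.choose := dif_pos h
    rw [this]
    exact hj (h.choose_spec.trans hd.symm)
  have hJ : #J < η := by
    have : #J = sum (fun k : W => #(D → Set (Set.Iic k))) := mk_sigma _
    rw [this]
    apply sum_lt_of_isRegular hreg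
    · rw [hW]; exact hη₀lt
    · intro k
      rw [← power_def, mk_set, ← power_mul]
      exact hmin _ (mul_lt_of_lt hη₀inf (hsmall k) hDη₀)
  refine ⟨J, F, hJ, ?_⟩
  intro i
  set X : Set T := {ξ : T | ∀ j, F j ξ ≠ i j} with hX
  -- nodes of `X` at level `k`
  let N : (k : W) → Set (Set (Set.Iic k)) := fun k => (fun ξ : T => node k (s ξ)) '' X
  have hkey : ∀ k : W, ¬ ∃ t : D → Set (Set.Iic k), Function.Injective t ∧ ∀ d, t d ∈ N k := by
    rintro k ⟨t, ht, htN⟩
    let j : J := ⟨k, t⟩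
    obtain ⟨ξ, hξX, hξ⟩ := htN (i j)
    have h1 : F j ξ = i j := hFspec j ht ξ (i j) hξ.symm
    exact hξX j h1
  have hNcard : ∀ k : W, #(N k) < #D := by
    intro k
    by_contra hcon
    push Not at hcon
    rw [le_def] at hcon
    obtain ⟨g⟩ := hcon
    exact hkey k ⟨fun d => (g d : Set (Set.Iic k)),
      fun a b hab => g.injective (Subtype.ext hab), fun d => (g d).2⟩
  by_cases hA : ∀ l : D × D → W, ∃ k, ∀ p, l p ≤ k
  · -- Case A: fewer than `#D` elements
    have hlt : #X < #D := by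
      by_contra hcon
      push Not at hcon
      rw [le_def] at hcon
      obtain ⟨g⟩ := hcon
      have hsplit : ∀ p : D × D, ∃ w : W, p.1 ≠ p.2 →
          ¬ (w ∈ s (g p.1 : T) ↔ w ∈ s (g p.2 : T)) := by
        intro p
        by_cases hp : p.1 = p.2
        · have hWne : Nonempty W := by
            rw [← mk_ne_zero_iff, hW]
            exact (aleph0_pos.trans_le hη₀inf).ne'
          exact ⟨Classical.arbitrary W, fun h => absurd hp h⟩
        · have hne : s (g p.1 : T) ≠ s (g p.2 : T) := by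
            intro heq
            exact hp (g.injective (Subtype.ext (s.injective heq)))
          by_contra hno
          push Not at hno
          apply hne
          ext w
          exact (hno w).2
      choose l hlspec using hsplit
      obtain ⟨k, hk⟩ := hA l
      apply hkey k
      refine ⟨fun d => node k (s (g d : T)), ?_, ?_⟩
      · intro a b hab
        by_contra hne
        apply hlspec (a, b) hne
        have := Set.ext_iff.mp hab ⟨l (a, b), hk (a, b)⟩
        simpa [node] using this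
      · intro d
        exact ⟨(g d : T), (g d).2, rfl⟩
    exact hlt.le.trans ((cantor _).le.trans hD)
  · -- Case B: a cofinal family of levels
    push Not at hA
    obtain ⟨l, hl⟩ := hA
    have hinjX : Function.Injective
        (fun (ξ : X) (p : D × D) => (⟨node (l p) (s (ξ : T)), (ξ : T), ξ.2, rfl⟩ : N (l p))) := by
      intro a b hab
      apply Subtype.ext
      apply s.injective
      ext w
      obtain ⟨p, hp⟩ := hl w
      have h1 := congrArg Subtype.val (congrFun hab p)
      have := Set.ext_iff.mp h1 ⟨w, hp.le⟩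
      simpa [node] using this
    have h1 : #X ≤ #D ^ (#D * #D) := by
      calc #X ≤ #(∀ p : D × D, N (l p)) := mk_le_of_injective hinjX
        _ = prod (fun p : D × D => #(N (l p))) := mk_pi _
        _ ≤ prod (fun _ : D × D => #D) := prod_le_prod _ _ (fun p => (hNcard _).le)
        _ = #D ^ (#D * #D) := by simp
    refine h1.trans ?_
    rcases lt_or_ge #D ℵ₀ with hfin | hinf
    · exact (power_lt_aleph0 hfin (mul_lt_aleph0 hfin hfin)).le.trans h0
    · rw [mul_eq_self hinf, power_self_eq hinf]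
      exact hD

theorem splits {V D : Type u} [Nonempty D] (G : SimpleGraph V) (β θ : Cardinal.{u})
    (h0 : ℵ₀ ≤ β) (hD : 2 ^ #D ≤ β) (hno : ∀ μ, β < μ → μ ≤ θ → ¬ μ.IsInaccessible)
    (hlow : ¬ ColorableBy G (2 ^ β)) (hup : ColorableBy G (2 ^ θ)) : SplitsTo G D := by
  by_contra hcon
  exact hlow (core β h0 (sep_of D β h0 hD) θ hno G (NS.of_not_splitsTo hcon) hup)

theorem SplitsTo.congr {V : Type u} {G : SimpleGraph V} {D : Type v} {D' : Type*} (e : D ≃ D')
    (h : SplitsTo G D) : SplitsTo G D' := by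
  obtain ⟨H, h1, h2, h3⟩ := h
  refine ⟨fun ν => H (e.symm ν), ?_, ?_, ?_⟩
  · intro x y
    rw [h1]
    constructor
    · rintro ⟨ν, hν⟩; exact ⟨e ν, by simpa using hν⟩
    · rintro ⟨ν, hν⟩; exact ⟨e.symm ν, hν⟩
  · intro μ ν hne
    exact h2 _ _ (fun h => hne (e.symm.injective h))
  · intro π
    obtain ⟨n, hn⟩ := h3 π
    exact ⟨n, fun ν => hn (e.symm ν)⟩

/-- **Main theorem.**  First part: a graph whose chromatic number is bigger than `2 ^ ℵ₀` and
which has a proper colouring with `κ` colours, where no cardinal `≤ κ` is inaccessible, splits to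
two parts.  Second part: if `ℵ₀ ≤ β`, no inaccessible cardinal lies in the interval `(β, θ]` and
the chromatic number of `G` is bigger than `2 ^ β` and at most `2 ^ θ`, then `G` splits to `n`
parts for every positive integer `n`, and to `D` many parts for every nonempty `D` with
`2 ^ #D ≤ β` (for instance `#D = ℵ₁` and `β = 2 ^ ℵ₁`). -/
theorem zfc :
    (∀ (V : Type u) (G : SimpleGraph V) (κ : Cardinal.{u}),
      (∀ μ : Cardinal.{u}, μ ≤ κ → ¬ μ.IsInaccessible) →
      ¬ ColorableBy G (2 ^ (ℵ₀ : Cardinal.{u})) → ColorableBy G κ → SplitsTo G (Fin 2)) ∧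
    (∀ (V : Type u) (G : SimpleGraph V) (β θ : Cardinal.{u}), ℵ₀ ≤ β →
      (∀ μ : Cardinal.{u}, β < μ → μ ≤ θ → ¬ μ.IsInaccessible) →
      ¬ ColorableBy G (2 ^ β) → ColorableBy G (2 ^ θ) →
        (∀ n : ℕ, 0 < n → SplitsTo G (Fin n)) ∧
        (∀ D : Type u, Nonempty D → 2 ^ #D ≤ β → SplitsTo G D)) := by
  have main : ∀ (V : Type u) (G : SimpleGraph V) (β θ : Cardinal.{u}), ℵ₀ ≤ β →
      (∀ μ : Cardinal.{u}, β < μ → μ ≤ θ → ¬ μ.IsInaccessible) →
      ¬ ColorableBy G (2 ^ β) → ColorableBy G (2 ^ θ) →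
        (∀ n : ℕ, 0 < n → SplitsTo G (Fin n)) ∧
        (∀ D : Type u, Nonempty D → 2 ^ #D ≤ β → SplitsTo G D) := by
    intro V G β θ h0 hno hlow hup
    refine ⟨?_, ?_⟩
    · intro n hn
      have : Nonempty (ULift.{u} (Fin n)) := ⟨⟨⟨0, hn⟩⟩⟩
      refine SplitsTo.congr (D := ULift.{u} (Fin n)) Equiv.ulift
        (splits G β θ h0 ?_ hno hlow hup)
      refine le_trans (le_of_lt ?_) h0
      apply power_lt_aleph0
      · exact natCast_lt_aleph0 (n := 2)
      · simp
    · intro D hDne hD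
      exact splits G β θ h0 hD hno hlow hup
  refine ⟨?_, main⟩
  intro V G κ hno hlow hup
  refine (main V G ℵ₀ κ le_rfl (fun μ _ h => hno μ h) hlow (hup.mono (cantor κ).le)).1 2
    (by norm_num)

end Pool.Agent.Helper937.SplZ
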