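import Mathlib
import Pool.Agent.Helper937.Szd2

set_option autoImplicit false

open Set Topology Filter

namespace Pool.Agent.Helper937.Szd

/-- the shift -/
def sh (n : ℕ) (z : ℕ → Bool) : ℕ → Bool := fun i => z (i + n)

/-- the initial part of the sum -/
noncomputable def part (n : ℕ) (z : ℕ → Bool) : ℝ :=
  (1/3) * ∑ i ∈ Finset.range n, Cardinal.cantorFunctionAux (2/3) z i

theorem hdec_eq (n : ℕ) (z : ℕ → Bool) : hdec z = part n z + (2/3) ^ n * hdec (sh n z) := by
  have hs := Cardinal.summable_cantor_function z (c := 2/3) (by norm_num) (by norm_num)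
  have h1 := hs.sum_add_tsum_nat_add n
  unfold hdec part Cardinal.cantorFunction
  rw [← h1, mul_add]
  congr 1
  have h2 : ∀ i, Cardinal.cantorFunctionAux (2/3) z (i + n) = (2/3 : ℝ) ^ n * Cardinal.cantorFunctionAux (2/3) (sh n z) i := by
    intro i
    unfold Cardinal.cantorFunctionAux sh
    cases z (i + n)
    · simp
    · simp [pow_add, mul_comm]
  simp_rw [h2]
  rw [tsum_mul_left]
  ring

theorem part_congr (n : ℕ) (z w : ℕ → Bool) (h : ∀ i < n, z i = w i) : part n z = part n w := by
  unfold part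
  congr 1
  refine Finset.sum_congr rfl fun i hi => ?_
  unfold Cardinal.cantorFunctionAux
  rw [h i (Finset.mem_range.mp hi)]

/-- glueing a prefix -/
def glue (n : ℕ) (z w : ℕ → Bool) : ℕ → Bool := fun i => if i < n then z i else w (i - n)

theorem hdec_glue (n : ℕ) (z w : ℕ → Bool) : hdec (glue n z w) = part n z + (2/3) ^ n * hdec w := by
  rw [hdec_eq n (glue n z w)]
  congr 1
  · exact part_congr n _ _ fun i hi => by simp [glue, hi]
  · congr 2
    funext i
    simp [sh, glue]

theorem continuous_glue (n : ℕ) (z : ℕ → Bool) : Continuous (glue n z) := by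
  refine continuous_pi fun i => ?_
  by_cases hi : i < n
  · simp only [glue, hi, if_true]; exact continuous_const
  · simp only [glue, hi, if_false]; exact continuous_apply _

variable {X : Type*} [TopologicalSpace X]

theorem step_open (hX : SZ X) (r : X → ℝ) (hr : Continuous r) (h0 : ∀ x, 0 < r x ∧ r x < 1) :
    ∃ b : X → Bool, Continuous b ∧ ∃ r' : X → ℝ, Continuous r' ∧ (∀ x, 0 < r' x ∧ r' x < 1) ∧
      ∀ x, r x = (1/3) * (cond (b x) 1 0) + (2/3) * r' x := by
  classical
  obtain ⟨C, hC1, hC2, hC3⟩ := hX r hr (1/3) (2/3) (by norm_num)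
  have hb : Continuous (fun x => decide (x ∉ C)) := by
    rw [continuous_discrete_rng]
    intro b
    cases b
    · have : (fun x => decide (x ∉ C)) ⁻¹' {false} = C := by ext x; simp
      rw [this]; exact hC1.isOpen
    · have : (fun x => decide (x ∉ C)) ⁻¹' {true} = Cᶜ := by ext x; simp
      rw [this]; exact hC1.compl.isOpen
  have hc : Continuous (fun x => (cond (decide (x ∉ C)) 1 0 : ℝ)) :=
    (continuous_of_discreteTopology (f := fun b : Bool => (cond b 1 0 : ℝ))).comp hb
  refine ⟨fun x => decide (x ∉ C), hb, fun x => (3 * r x - cond (decide (x ∉ C)) 1 0) / 2,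
    ((continuous_const.mul hr).sub hc).div_const 2, fun x => ?_, fun x => by ring⟩
  by_cases hx : x ∈ C
  · have h1 : r x < 2/3 := hC3 hx
    have h2 := h0 x
    simp only [hx, not_true_eq_false, decide_false, cond_false]
    constructor <;> linarith
  · have h1 : 1/3 < r x := by
      by_contra h
      push Not at h
      exact hx (hC2 h)
    have h2 := h0 x
    simp only [hx, not_false_eq_true, decide_true, cond_true]
    constructor <;> linarith

theorem lift_open (hX : SZ X) (G : X → ℝ) (hG : Continuous G) (h0 : ∀ x, 0 < G x ∧ G x < 1) :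
    ∃ z : X → (ℕ → Bool), Continuous z ∧ (∀ x, hdec (z x) = G x) ∧
      ∀ x n, 0 < hdec (sh n (z x)) ∧ hdec (sh n (z x)) < 1 := by
  classical
  let R := {r : X → ℝ // Continuous r ∧ ∀ x, 0 < r x ∧ r x < 1}
  have hstep : ∀ r : R, ∃ p : (X → Bool) × R, Continuous p.1 ∧
      ∀ x, r.1 x = (1/3) * (cond (p.1 x) 1 0) + (2/3) * p.2.1 x := by
    intro r
    obtain ⟨b, hb, r', hr1, hr2, hr3⟩ := step_open hX r.1 r.2.1 r.2.2
    exact ⟨(b, ⟨r', hr1, hr2⟩), hb, hr3⟩
  choose p hp1 hp2 using hstep
  let r : ℕ → R := fun n => Nat.rec ⟨G, hG, h0⟩ (fun _ s => (p s).2) n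
  have hrs : ∀ n, r (n + 1) = (p (r n)).2 := fun n => rfl
  let z : X → (ℕ → Bool) := fun x n => (p (r n)).1 x
  have hz : Continuous z := continuous_pi fun n => hp1 (r n)
  have hsum : ∀ N n x, (r N).1 x = (1/3) * (∑ i ∈ Finset.range n, Cardinal.cantorFunctionAux (2/3) (sh N (z x)) i)
      + (2/3) ^ n * (r (n + N)).1 x := by
    intro N n x
    induction n with
    | zero => simp
    | succ n ih =>
      rw [Finset.sum_range_succ, ih]
      have h1 := hp2 (r (n + N)) x
      have h2 : Cardinal.cantorFunctionAux (2/3) (sh N (z x)) n = (2/3 : ℝ)^n * cond ((p (r (n + N))).1 x) 1 0 := by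
        unfold Cardinal.cantorFunctionAux
        show cond ((p (r (n + N))).1 x) ((2/3 : ℝ)^n) 0 = _
        cases (p (r (n + N))).1 x <;> simp
      have h3 : r (n + 1 + N) = (p (r (n + N))).2 := by
        rw [show n + 1 + N = (n + N) + 1 by ring]
      rw [h2, h3, h1]
      ring
  have key : ∀ N x, hdec (sh N (z x)) = (r N).1 x := by
    intro N x
    have hs := (Cardinal.summable_cantor_function (sh N (z x)) (c := 2/3) (by norm_num) (by norm_num)).hasSum.tendsto_sum_nat
    have h1 : Tendsto (fun n => (1/3 : ℝ) * (∑ i ∈ Finset.range n, Cardinal.cantorFunctionAux (2/3) (sh N (z x)) i)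
        + (2/3) ^ n * (r (n + N)).1 x) atTop (𝓝 ((1/3) * Cardinal.cantorFunction (2/3) (sh N (z x)) + 0)) := by
      refine (hs.const_mul (1/3)).add ?_
      have h2 : Tendsto (fun n : ℕ => (2/3 : ℝ) ^ n) atTop (𝓝 0) :=
        tendsto_pow_atTop_nhds_zero_of_lt_one (by norm_num) (by norm_num)
      refine squeeze_zero (fun n => mul_nonneg (by positivity) ((r (n + N)).2.2 x).1.le) (fun n => ?_) h2
      exact mul_le_of_le_one_right (by positivity) ((r (n + N)).2.2 x).2.le
    have h2 : Tendsto (fun n => (1/3 : ℝ) * (∑ i ∈ Finset.range n, Cardinal.cantorFunctionAux (2/3) (sh N (z x)) i)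
        + (2/3) ^ n * (r (n + N)).1 x) atTop (𝓝 ((r N).1 x)) := by
      refine tendsto_const_nhds.congr fun n => hsum N n x
    have := tendsto_nhds_unique h1 h2
    rw [add_zero] at this
    exact this
  refine ⟨z, hz, fun x => ?_, fun x n => ?_⟩
  · have := key 0 x
    exact this
  · rw [key n x]
    exact (r n).2.2 x

/-- interior lifts -/
theorem lift_int (hX : SZ X) (F : X → ℝ) (hF : Continuous F) :
    ∃ q : X → ℕ × (ℕ → Bool), Continuous q ∧ (∀ x, dec (q x) = F x) ∧
      ∀ x n, 0 < hdec (sh n (q x).2) ∧ hdec (sh n (q x).2) < 1 := by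
  classical
  let u : ℕ → X → ℝ := fun n x => 1 - |F x - ((Denumerable.ofNat ℤ n : ℤ) : ℝ) - 1|
  obtain ⟨k, hk, hku⟩ := sz_cover hX u
    (fun n => continuous_const.sub ((hF.sub continuous_const).sub continuous_const).abs) (by
      intro x
      refine ⟨Encodable.encode (⌈F x⌉ - 1 : ℤ), ?_⟩
      simp only [u, Denumerable.ofNat_encode]
      have h1 := Int.le_ceil (F x)
      have h2 := Int.ceil_lt_add_one (F x)
      push_cast
      rw [sub_pos, abs_lt]; constructor <;> linarith)
  have hm : Continuous (fun x => ((Denumerable.ofNat ℤ (k x) : ℤ) : ℝ)) :=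
    (continuous_of_discreteTopology (f := fun n : ℕ => ((Denumerable.ofNat ℤ n : ℤ) : ℝ))).comp hk
  obtain ⟨z, hz, hzG, hzI⟩ := lift_open hX (fun x => (F x - ((Denumerable.ofNat ℤ (k x) : ℤ) : ℝ)) / 2)
    ((hF.sub hm).div_const 2) (by
      intro x
      have h1 := hku x
      simp only [u] at h1
      rw [sub_pos, abs_lt] at h1
      constructor <;> linarith [h1.1, h1.2])
  refine ⟨fun x => (k x, z x), hk.prodMk hz, fun x => ?_, fun x n => hzI x n⟩
  unfold dec
  simp only [hzG x]
  ring

/-- cylinders are a base -/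
theorem exists_cyl (p : ℕ × (ℕ → Bool)) (U : Set (ℕ × (ℕ → Bool))) (hU : U ∈ 𝓝 p) :
    ∃ n, ∀ p' : ℕ × (ℕ → Bool), p'.1 = p.1 → (∀ i < n, p'.2 i = p.2 i) → p' ∈ U := by
  rw [nhds_prod_eq, mem_prod_iff] at hU
  obtain ⟨V, hV, W, hW, hVW⟩ := hU
  rw [nhds_pi, Filter.mem_pi] at hW
  obtain ⟨I, hI, w, hw, hwW⟩ := hW
  obtain ⟨n, hn⟩ := hI.bddAbove
  refine ⟨n + 1, fun p' h1 h2 => hVW ⟨?_, hwW fun i hi => ?_⟩⟩
  · rw [h1]; exact mem_of_mem_nhds hV
  · rw [h2 i (Nat.lt_succ_of_le (hn hi))]; exact mem_of_mem_nhds (hw i)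

/-- clopen sets form a base -/
theorem exists_clopen [T35Space X] (hX : SZ X) (a : X) (U : Set X) (hU : IsOpen U) (ha : a ∈ U) :
    ∃ W : Set X, IsClopen W ∧ a ∈ W ∧ W ⊆ U := by
  obtain ⟨f, hf, hfa, hfU⟩ := CompletelyRegularSpace.completely_regular a Uᶜ hU.isClosed_compl
    (fun h => h ha)
  obtain ⟨C, hC1, hC2, hC3⟩ := hX (fun x => (f x : ℝ)) (continuous_subtype_val.comp hf) 0 1 one_pos
  refine ⟨C, hC1, hC2 ?_, fun x hx => ?_⟩
  · show (f a : ℝ) ≤ 0
    rw [hfa]; simp
  · by_contra h
    have h1 : f x = 1 := hfU h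
    have h2 : (f x : ℝ) < 1 := hC3 hx
    rw [h1] at h2
    simp at h2

/-- lifts with prescribed beginnings at finitely many points -/
theorem lift_prescribed [T35Space X] (hX : SZ X) (F : X → ℝ) (hF : Continuous F)
    (q : X → ℕ × (ℕ → Bool)) (n : ℕ) (A : Finset X)
    (hA : ∀ a ∈ A, 0 < ((F a - ((Denumerable.ofNat ℤ (q a).1 : ℤ) : ℝ)) / 2 - part n (q a).2) / (2/3)^n ∧
      ((F a - ((Denumerable.ofNat ℤ (q a).1 : ℤ) : ℝ)) / 2 - part n (q a).2) / (2/3)^n < 1) :
    ∃ q' : X → ℕ × (ℕ → Bool), Continuous q' ∧ (∀ x, dec (q' x) = F x) ∧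
      ∀ a ∈ A, (q' a).1 = (q a).1 ∧ ∀ i < n, (q' a).2 i = (q a).2 i := by
  classical
  suffices h : ∀ B : Finset X, B ⊆ A → ∃ q' : X → ℕ × (ℕ → Bool), Continuous q' ∧ (∀ x, dec (q' x) = F x) ∧
      ∀ a ∈ B, (q' a).1 = (q a).1 ∧ ∀ i < n, (q' a).2 i = (q a).2 i from h A le_rfl
  intro B
  induction B using Finset.induction_on with
  | empty =>
    intro _
    obtain ⟨q', h1, h2⟩ := lift hX F hF
    exact ⟨q', h1, h2, fun a ha => absurd ha (Finset.notMem_empty a)⟩
  | insert a B haB ih =>
    intro hBA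
    obtain ⟨q0, h1, h2, h3⟩ := ih ((Finset.subset_insert a B).trans hBA)
    let t : X → ℝ := fun x => ((F x - ((Denumerable.ofNat ℤ (q a).1 : ℤ) : ℝ)) / 2 - part n (q a).2) / (2/3)^n
    have ht : Continuous t := (((hF.sub continuous_const).div_const 2).sub continuous_const).div_const _
    have hta := hA a (hBA (Finset.mem_insert_self a B))
    obtain ⟨W, hW, haW, hWs⟩ := exists_clopen hX a ({x | 0 < t x} ∩ {x | t x < 1} ∩ (B : Set X)ᶜ)
      (((isOpen_lt continuous_const ht).inter (isOpen_lt ht continuous_const)).inter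
        (Finset.isClosed B).isOpen_compl) ⟨⟨hta.1, hta.2⟩, haB⟩
    obtain ⟨z, hz, hzt⟩ := lift_bounded hX (fun x => max 0 (min 1 (t x)))
      (continuous_const.max (continuous_const.min ht))
      (fun x => ⟨le_max_left _ _, max_le zero_le_one (min_le_left _ _)⟩)
    refine ⟨fun x => if x ∈ W then ((q a).1, glue n (q a).2 (z x)) else q0 x, ?_, ?_, ?_⟩
    · refine continuous_if (fun x hx => ?_) ?_ ?_
      · exfalso
        have : frontier {x | x ∈ W} = ∅ := hW.frontier_eq
        rw [this] at hx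
        exact hx
      · exact (continuous_const.prodMk ((continuous_glue n (q a).2).comp hz)).continuousOn
      · exact h1.continuousOn
    · intro x
      by_cases hx : x ∈ W
      · simp only [hx, if_true]
        have h4 := (hWs hx).1
        unfold dec
        simp only
        rw [hdec_glue, hzt x, min_eq_right (le_of_lt h4.2), max_eq_right (le_of_lt h4.1)]
        simp only [t]
        have h5 : (2/3 : ℝ)^n ≠ 0 := by positivity
        field_simp
        ring
      · simp only [hx, if_false]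
        exact h2 x
    · intro b hb
      rcases Finset.mem_insert.mp hb with rfl | hb
      · simp only [haW, if_true]
        exact ⟨trivial, fun i hi => by simp [glue, hi]⟩
      · have hbW : b ∉ W := fun h => (hWs h).2 hb
        simp only [hbW, if_false]
        exact h3 b hb

end Pool.Agent.Helper937.Szd
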