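import Mathlib
import Pool.Agent.Helper937.Szd3
import Pool.Agent.Helper937.Fact

set_option autoImplicit false

open Set Topology Filter

namespace Pool.Agent.Helper937.Szd

open Pool.Agent.Helper937.Fact (BB BB_open Box factor CTight)

/-- packing two codes -/
def pk (p : (ℕ × (ℕ → Bool)) × (ℕ × (ℕ → Bool))) : ℕ × (ℕ → Bool) :=
  (Nat.pair p.1.1 p.2.1, fun n => if n % 2 = 0 then p.1.2 (n / 2) else p.2.2 (n / 2))

theorem continuous_pk : Continuous pk := by
  refine Continuous.prodMk ?_ (continuous_pi fun n => ?_)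
  · exact (continuous_of_discreteTopology (f := fun p : ℕ × ℕ => Nat.pair p.1 p.2)).comp
      ((continuous_fst.comp continuous_fst).prodMk (continuous_fst.comp continuous_snd))
  · by_cases hn : n % 2 = 0
    · simp only [hn, if_true]
      exact (continuous_apply (n / 2)).comp (continuous_snd.comp continuous_fst)
    · simp only [hn, if_false]
      exact (continuous_apply (n / 2)).comp (continuous_snd.comp continuous_snd)

theorem exists_H : ∃ H : ℝ → ℝ × ℝ, Continuous H ∧ ∀ p, H (iot (pk p)) = (dec p.1, dec p.2) := by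
  classical
  let d : ℕ × (ℕ → Bool) → ℝ × ℝ := fun p =>
    (dec (p.1.unpair.1, fun n => p.2 (2 * n)), dec (p.1.unpair.2, fun n => p.2 (2 * n + 1)))
  have hd : Continuous d := by
    refine Continuous.prodMk (continuous_dec.comp ?_) (continuous_dec.comp ?_)
    · refine Continuous.prodMk ((continuous_of_discreteTopology
        (f := fun n : ℕ => n.unpair.1)).comp continuous_fst) ?_
      exact continuous_pi fun n => (continuous_apply (2 * n)).comp continuous_snd
    · refine Continuous.prodMk ((continuous_of_discreteTopology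
        (f := fun n : ℕ => n.unpair.2)).comp continuous_fst) ?_
      exact continuous_pi fun n => (continuous_apply (2 * n + 1)).comp continuous_snd
  obtain ⟨H, hH⟩ := ContinuousMap.exists_extension' isClosedEmbedding_iot (⟨d, hd⟩ : C(ℕ × (ℕ → Bool), ℝ × ℝ))
  refine ⟨H, H.continuous, fun p => ?_⟩
  have h1 : H (iot (pk p)) = d (pk p) := congrFun hH (pk p)
  rw [h1]
  simp only [d, pk, Nat.unpair_pair]
  have e1 : (fun n => if 2 * n % 2 = 0 then p.1.2 (2 * n / 2) else p.2.2 (2 * n / 2)) = p.1.2 := by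
    funext n
    have h2 : 2 * n % 2 = 0 := by omega
    have h3 : 2 * n / 2 = n := by omega
    rw [if_pos h2, h3]
  have e2 : (fun n => if (2 * n + 1) % 2 = 0 then p.1.2 ((2 * n + 1) / 2) else
      p.2.2 ((2 * n + 1) / 2)) = p.2.2 := by
    funext n
    have h2 : ¬ (2 * n + 1) % 2 = 0 := by omega
    have h3 : (2 * n + 1) / 2 = n := by omega
    rw [if_neg h2, h3]
  rw [e1, e2]

theorem exists_radius {Y : Type} (F : Y → ℝ) (q : Y → ℕ × (ℕ → Bool)) (hq : ∀ x, dec (q x) = F x)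
    (hI : ∀ x n, 0 < hdec (sh n (q x).2) ∧ hdec (sh n (q x).2) < 1) (n : ℕ) (A : Finset Y) :
    ∃ δ > 0, ∀ a ∈ A, ∀ y : ℝ, |y - F a| < δ →
      0 < ((y - ((Denumerable.ofNat ℤ (q a).1 : ℤ) : ℝ)) / 2 - part n (q a).2) / (2/3)^n ∧
      ((y - ((Denumerable.ofNat ℤ (q a).1 : ℤ) : ℝ)) / 2 - part n (q a).2) / (2/3)^n < 1 := by
  classical
  induction A using Finset.induction_on with
  | empty => exact ⟨1, one_pos, fun a ha => absurd ha (Finset.notMem_empty a)⟩
  | insert a B _ ih =>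
    obtain ⟨δ, hδ, h⟩ := ih
    let t : ℝ → ℝ := fun y => ((y - ((Denumerable.ofNat ℤ (q a).1 : ℤ) : ℝ)) / 2 - part n (q a).2) / (2/3)^n
    have ht : Continuous t := by
      exact (((continuous_id.sub continuous_const).div_const 2).sub continuous_const).div_const _
    have hta : t (F a) = hdec (sh n (q a).2) := by
      simp only [t]
      rw [← hq a]
      unfold dec
      rw [hdec_eq n (q a).2]
      have h5 : (2/3 : ℝ)^n ≠ 0 := by positivity
      field_simp
      ring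
    have hU : t ⁻¹' (Ioo 0 1) ∈ 𝓝 (F a) := by
      apply ht.continuousAt.preimage_mem_nhds
      rw [hta]
      exact Ioo_mem_nhds (hI a n).1 (hI a n).2
    obtain ⟨δ', hδ', h'⟩ := Metric.mem_nhds_iff.mp hU
    refine ⟨min δ δ', lt_min hδ hδ', fun b hb y hy => ?_⟩
    rcases Finset.mem_insert.mp hb with rfl | hb
    · exact h' (by rw [Metric.mem_ball, Real.dist_eq]; exact lt_of_lt_of_le hy (min_le_right _ _))
    · exact h b hb y (lt_of_lt_of_le hy (min_le_left _ _))

theorem exists_level {Y : Type} (q1 q2 : Y → ℕ × (ℕ → Bool)) (A : Finset Y) (ε : ℝ) (hε : 0 < ε) :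
    ∃ n, ∀ a ∈ A, ∀ p1 p2 : ℕ × (ℕ → Bool), p1.1 = (q1 a).1 → (∀ i < n, p1.2 i = (q1 a).2 i) →
      p2.1 = (q2 a).1 → (∀ i < n, p2.2 i = (q2 a).2 i) →
      |iot (pk (p1, p2)) - iot (pk (q1 a, q2 a))| < ε := by
  classical
  induction A using Finset.induction_on with
  | empty => exact ⟨0, fun a ha => absurd ha (Finset.notMem_empty a)⟩
  | insert a B _ ih =>
    obtain ⟨n, h⟩ := ih
    have hc : Continuous (fun p => iot (pk p)) := isClosedEmbedding_iot.continuous.comp continuous_pk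
    have hU : (fun p => iot (pk p)) ⁻¹' (Metric.ball (iot (pk (q1 a, q2 a))) ε) ∈ 𝓝 (q1 a, q2 a) :=
      hc.continuousAt.preimage_mem_nhds (Metric.ball_mem_nhds _ hε)
    rw [nhds_prod_eq, mem_prod_iff] at hU
    obtain ⟨V, hV, W, hW, hVW⟩ := hU
    obtain ⟨n1, hn1⟩ := exists_cyl _ V hV
    obtain ⟨n2, hn2⟩ := exists_cyl _ W hW
    refine ⟨max n (max n1 n2), fun b hb p1 p2 h1 h2 h3 h4 => ?_⟩
    rcases Finset.mem_insert.mp hb with rfl | hb
    · have h5 : (p1, p2) ∈ V ×ˢ W :=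
        ⟨hn1 p1 h1 fun i hi => h2 i (lt_of_lt_of_le hi ((le_max_left _ _).trans (le_max_right _ _))),
          hn2 p2 h3 fun i hi => h4 i (lt_of_lt_of_le hi ((le_max_right _ _).trans (le_max_right _ _)))⟩
      have h6 := hVW h5
      rw [mem_preimage, Metric.mem_ball, Real.dist_eq] at h6
      exact h6
    · exact h b hb p1 p2 h1 (fun i hi => h2 i (lt_of_lt_of_le hi (le_max_left _ _))) h3
        (fun i hi => h4 i (lt_of_lt_of_le hi (le_max_left _ _)))

/-- the universal map together with the local openness of liftings -/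
theorem exists_universal_open : ∃ H : ℝ → ℝ × ℝ, Continuous H ∧
    ∀ (Y : Type) [TopologicalSpace Y] [T35Space Y], SZ Y → ∀ F G : Y → ℝ, Continuous F →
      Continuous G → ∃ f : Y → ℝ, Continuous f ∧ (∀ y, H (f y) = (F y, G y)) ∧
        ∀ (A : Finset Y) (ε : ℝ), 0 < ε → ∃ δ > 0, ∀ F' G' : Y → ℝ, Continuous F' → Continuous G' →
          (∀ a ∈ A, |F' a - F a| < δ ∧ |G' a - G a| < δ) →
          ∃ f' : Y → ℝ, Continuous f' ∧ (∀ y, H (f' y) = (F' y, G' y)) ∧ ∀ a ∈ A, |f' a - f a| < ε := by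
  obtain ⟨H, hH, hHp⟩ := exists_H
  refine ⟨H, hH, fun Y _ _ hY F G hF hG => ?_⟩
  obtain ⟨q1, hq1, hq1', hq1I⟩ := lift_int hY F hF
  obtain ⟨q2, hq2, hq2', hq2I⟩ := lift_int hY G hG
  have hc : Continuous (fun p => iot (pk p)) := isClosedEmbedding_iot.continuous.comp continuous_pk
  refine ⟨fun y => iot (pk (q1 y, q2 y)), hc.comp (hq1.prodMk hq2), fun y => ?_, fun A ε hε => ?_⟩
  · rw [hHp, hq1', hq2']
  · obtain ⟨n, hn⟩ := exists_level q1 q2 A ε hε
    obtain ⟨δ1, hδ1, h1⟩ := exists_radius F q1 hq1' hq1I n A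
    obtain ⟨δ2, hδ2, h2⟩ := exists_radius G q2 hq2' hq2I n A
    refine ⟨min δ1 δ2, lt_min hδ1 hδ2, fun F' G' hF' hG' hFG => ?_⟩
    obtain ⟨p1, hp1, hp1', hp1A⟩ := lift_prescribed hY F' hF' q1 n A
      (fun a ha => h1 a ha _ (lt_of_lt_of_le (hFG a ha).1 (min_le_left _ _)))
    obtain ⟨p2, hp2, hp2', hp2A⟩ := lift_prescribed hY G' hG' q2 n A
      (fun a ha => h2 a ha _ (lt_of_lt_of_le (hFG a ha).2 (min_le_right _ _)))
    refine ⟨fun y => iot (pk (p1 y, p2 y)), hc.comp (hp1.prodMk hp2), fun y => ?_, fun a ha => ?_⟩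
    · rw [hHp, hp1', hp2']
    · exact hn a ha _ _ (hp1A a ha).1 (hp1A a ha).2 (hp2A a ha).1 (hp2A a ha).2

theorem denseRange_Cp' (X : Type) [TopologicalSpace X] [T35Space X] :
    DenseRange (fun f : Cp X => f.1) := by
  classical
  intro x
  rw [mem_closure_iff_nhds]
  intro U hU
  rw [nhds_pi, Filter.mem_pi] at hU
  obtain ⟨J, hJ, v, hv, hvU⟩ := hU
  have hex : ∀ t ∈ hJ.toFinset, ∃ f : X → ℝ, Continuous f ∧ f t = 1 ∧ ∀ s ∈ hJ.toFinset, s ≠ t → f s = 0 := by
    intro t _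
    obtain ⟨f, hf, hft, hfK⟩ := CompletelyRegularSpace.completely_regular t
      ((hJ.toFinset.erase t : Finset X) : Set X) (Finset.isClosed _) (by simp)
    refine ⟨fun y => 1 - (f y : ℝ), continuous_const.sub (continuous_subtype_val.comp hf), by
      show 1 - (f t : ℝ) = 1
      rw [hft]; simp, fun s hs hst => ?_⟩
    have h1 : f s = 1 := hfK (Finset.mem_coe.mpr (Finset.mem_erase.mpr ⟨hst, hs⟩))
    show 1 - (f s : ℝ) = 0
    rw [h1]; simp
  choose! f hfc hf1 hf2 using hex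
  refine ⟨fun y => ∑ t ∈ hJ.toFinset, x t * f t y, hvU fun s hs => ?_, ⟨⟨_, ?_⟩, rfl⟩⟩
  · have hs' : s ∈ hJ.toFinset := by simpa using hs
    have : ∑ t ∈ hJ.toFinset, x t * f t s = x s := by
      rw [Finset.sum_eq_single s]
      · rw [hf1 s hs', mul_one]
      · intro t ht hts
        rw [hf2 t ht s hs' (Ne.symm hts), mul_zero]
      · intro h; exact absurd hs' h
    simp only [this]
    exact mem_of_mem_nhds (hv s)
  · exact continuous_finsetSum _ fun t ht => continuous_const.mul (hfc t ht)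

theorem box_ball {X : Type} (G : Finset X) (b : X → BB) (g : X → ℝ) (hg : g ∈ Box G b) :
    ∃ ε > 0, ∀ h : X → ℝ, (∀ a ∈ G, |h a - g a| < ε) → h ∈ Box G b := by
  classical
  induction G using Finset.induction_on with
  | empty => exact ⟨1, one_pos, fun h _ a ha => absurd ha (Finset.notMem_empty a)⟩
  | insert a B _ ih =>
    obtain ⟨ε, hε, h⟩ := ih (fun t ht => hg t (Finset.mem_insert_of_mem ht))
    obtain ⟨ε', hε', h'⟩ := Metric.isOpen_iff.mp (BB_open (b a)) _ (hg a (Finset.mem_insert_self a B))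
    refine ⟨min ε ε', lt_min hε hε', fun k hk c hc => ?_⟩
    rcases Finset.mem_insert.mp hc with rfl | hc
    · exact h' (by
        rw [Metric.mem_ball, Real.dist_eq]
        exact lt_of_lt_of_le (hk _ (Finset.mem_insert_self _ B)) (min_le_right _ _))
    · exact h k (fun t ht => lt_of_lt_of_le (hk t (Finset.mem_insert_of_mem ht)) (min_le_left _ _)) c hc

/-- in a perfectly normal `C_p(X)` closed sets depend on countably many points -/
theorem closed_countable (X : Type) [TopologicalSpace X] [T35Space X] (hn : NormalSpace (Cp X))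
    (hG : ∀ s : Set (Cp X), IsClosed s → IsGδ s) (P : Set (Cp X)) (hP : IsClosed P) :
    ∃ S : Set X, S.Countable ∧ ∀ f ∉ P, ∃ (A : Finset X) (ε : ℝ), (A : Set X) ⊆ S ∧ 0 < ε ∧
      ∀ g : Cp X, (∀ a ∈ A, |g.1 a - f.1 a| < ε) → g ∉ P := by
  classical
  obtain ⟨U, hU, hPU⟩ := isGδ_iff_eq_iInter_nat.mp (hG P hP)
  have hur : ∀ n : ℕ, ∃ A : Set X, A.Countable ∧ ∀ f ∉ U n, ∃ (G : Finset X) (b : X → BB),
      (G : Set X) ⊆ A ∧ f.1 ∈ Box G b ∧ ∀ z : Cp X, z.1 ∈ Box G b → z ∉ P := by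
    intro n
    have hd : Disjoint P (U n)ᶜ := by
      rw [Set.disjoint_left]
      intro x hx hx'
      rw [hPU] at hx
      exact hx' (mem_iInter.mp hx n)
    obtain ⟨φ, h1, h2, h3⟩ := exists_continuous_zero_one_of_isClosed hP (hU n).isClosed_compl hd
    have hK : CTight (Set.Icc (0:ℝ) 1) := by
      intro A x hx
      obtain ⟨s, hs, hs2⟩ := mem_closure_iff_seq_limit.mp hx
      refine ⟨range s, range_subset_iff.mpr hs, countable_range s, ?_⟩
      exact mem_closure_of_tendsto hs2 (Filter.Eventually.of_forall fun n => mem_range_self n)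
    let ψ : Cp X → Set.Icc (0:ℝ) 1 := fun s => ⟨φ s, h3 s⟩
    have hψ : Continuous ψ := φ.continuous.subtype_mk _
    obtain ⟨A, hA, hfac⟩ := factor (fun f : Cp X => f.1) ψ IsInducing.subtypeVal (denseRange_Cp' X) hK hψ
    refine ⟨A, hA, fun f hf => ?_⟩
    have hf1 : φ f = 1 := h2 hf
    obtain ⟨G, b, hG1, hb, himg⟩ := hfac f (Subtype.val ⁻¹' (Ioi (1/2 : ℝ)))
      (isOpen_Ioi.preimage continuous_subtype_val) (by
        show (1/2 : ℝ) < φ f
        rw [hf1]; norm_num)
    refine ⟨G, b, hG1, hb, fun z hz hzP => ?_⟩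
    have h4 : (1/2 : ℝ) < φ z := himg z hz
    have h5 : φ z = 0 := h1 hzP
    rw [h5] at h4
    norm_num at h4
  choose A hA hAf using hur
  refine ⟨⋃ n, A n, countable_iUnion hA, fun f hf => ?_⟩
  have h6 : ∃ n, f ∉ U n := by
    by_contra hcon
    push Not at hcon
    apply hf
    rw [hPU]
    exact mem_iInter.mpr hcon
  obtain ⟨n, hn'⟩ := h6
  obtain ⟨G, b, hG1, hb, himg⟩ := hAf n f hn'
  obtain ⟨ε, hε, h7⟩ := box_ball G b f.1 hb
  exact ⟨G, ε, hG1.trans (subset_iUnion A n), hε, fun g hg => himg g (h7 g.1 hg)⟩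

theorem square_zero (X : Type) [TopologicalSpace X] [T35Space X] (hX : SZ X)
    (hn : NormalSpace (Cp X)) (hG : ∀ s : Set (Cp X), IsClosed s → IsGδ s)
    (P : Set (Cp X × Cp X)) (hP : IsClosed P) : ∃ u : Cp X × Cp X → ℝ, Continuous u ∧ P = u ⁻¹' {0} := by
  classical
  rcases P.eq_empty_or_nonempty with rfl | hne
  · exact ⟨fun _ => 1, continuous_const, by ext; simp⟩
  obtain ⟨H, hH, hlift⟩ := exists_universal_open
  let Q : Cp X → Cp X × Cp X := fun f => (⟨fun x => (H (f.1 x)).1, (continuous_fst.comp hH).comp f.2⟩,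
    ⟨fun x => (H (f.1 x)).2, (continuous_snd.comp hH).comp f.2⟩)
  have hQ : Continuous Q := by
    refine Continuous.prodMk ?_ ?_
    · refine Continuous.subtype_mk (continuous_pi fun x => ?_) _
      exact (continuous_fst.comp hH).comp ((continuous_apply x).comp continuous_subtype_val)
    · refine Continuous.subtype_mk (continuous_pi fun x => ?_) _
      exact (continuous_snd.comp hH).comp ((continuous_apply x).comp continuous_subtype_val)
  have hQeq : ∀ (f : Cp X) (F G : Cp X), (∀ y, H (f.1 y) = (F.1 y, G.1 y)) → Q f = (F, G) := by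
    intro f F G h
    refine Prod.ext (Subtype.ext (funext fun x => ?_)) (Subtype.ext (funext fun x => ?_))
    · show (H (f.1 x)).1 = F.1 x
      rw [h x]
    · show (H (f.1 x)).2 = G.1 x
      rw [h x]
  obtain ⟨S, hS, hSf⟩ := closed_countable X hn hG (Q ⁻¹' P) (hP.preimage hQ)
  have key : ∀ F G : Cp X, (F, G) ∉ P → ∃ (A : Finset X) (δ : ℝ), (A : Set X) ⊆ S ∧ 0 < δ ∧
      ∀ F' G' : Cp X, (∀ a ∈ A, |F'.1 a - F.1 a| < δ ∧ |G'.1 a - G.1 a| < δ) → (F', G') ∉ P := by
    intro F G hFG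
    obtain ⟨f, hf, hfH, hopen⟩ := hlift X hX F.1 G.1 F.2 G.2
    have h1 : (⟨f, hf⟩ : Cp X) ∉ Q ⁻¹' P := by
      intro h
      rw [mem_preimage, hQeq ⟨f, hf⟩ F G hfH] at h
      exact hFG h
    obtain ⟨A, ε, hAS, hε, hA⟩ := hSf _ h1
    obtain ⟨δ, hδ, hδ'⟩ := hopen A ε hε
    refine ⟨A, δ, hAS, hδ, fun F' G' h hP' => ?_⟩
    obtain ⟨f', hf', hfH', hclose⟩ := hδ' F'.1 G'.1 F'.2 G'.2 h
    refine hA ⟨f', hf'⟩ hclose ?_
    rw [mem_preimage, hQeq ⟨f', hf'⟩ F' G' hfH']
    exact hP'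
  have hSc : Countable S := hS.to_subtype
  let ρ : Cp X × Cp X → (S → ℝ × ℝ) := fun p s => (p.1.1 s.1, p.2.1 s.1)
  have hρ : Continuous ρ := continuous_pi fun s =>
    ((continuous_apply s.1).comp (continuous_subtype_val.comp continuous_fst)).prodMk
      ((continuous_apply s.1).comp (continuous_subtype_val.comp continuous_snd))
  have hPK : P = ρ ⁻¹' (closure (ρ '' P)) := by
    apply Subset.antisymm
    · intro p hp
      exact subset_closure ⟨p, hp, rfl⟩
    · rintro ⟨F, G⟩ hp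
      by_contra hcon
      obtain ⟨A, δ, hAS, hδ, hA⟩ := key F G hcon
      have hU : (⋂ a : {a // a ∈ A}, {v : S → ℝ × ℝ | |(v ⟨a.1, hAS a.2⟩).1 - F.1 a.1| < δ ∧
          |(v ⟨a.1, hAS a.2⟩).2 - G.1 a.1| < δ}) ∈ 𝓝 (ρ (F, G)) := by
        rw [Filter.iInter_mem]
        intro a
        have hc1 : Continuous (fun v : S → ℝ × ℝ => |(v ⟨a.1, hAS a.2⟩).1 - F.1 a.1|) :=
          ((continuous_fst.comp (continuous_apply _)).sub continuous_const).abs
        have hc2 : Continuous (fun v : S → ℝ × ℝ => |(v ⟨a.1, hAS a.2⟩).2 - G.1 a.1|) :=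
          ((continuous_snd.comp (continuous_apply _)).sub continuous_const).abs
        refine ((isOpen_lt hc1 continuous_const).inter (isOpen_lt hc2 continuous_const)).mem_nhds ⟨?_, ?_⟩
        · show |F.1 a.1 - F.1 a.1| < δ
          rw [sub_self, abs_zero]; exact hδ
        · show |G.1 a.1 - G.1 a.1| < δ
          rw [sub_self, abs_zero]; exact hδ
      obtain ⟨v, hv, ⟨p, hpP, rfl⟩⟩ := mem_closure_iff_nhds.mp hp _ hU
      refine hA p.1 p.2 (fun a ha => ?_) hpP
      exact mem_iInter.mp hv ⟨a, ha⟩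
  have hmet : TopologicalSpace.MetrizableSpace (S → ℝ × ℝ) :=
    TopologicalSpace.metrizableSpace_of_t3_secondCountable _
  let _ := TopologicalSpace.metrizableSpaceMetric (S → ℝ × ℝ)
  refine ⟨fun p => Metric.infDist (ρ p) (closure (ρ '' P)), (Metric.continuous_infDist_pt _).comp hρ, ?_⟩
  rw [hPK]
  ext p
  have hne' : (closure (ρ '' P)).Nonempty := (hne.image ρ).closure
  constructor
  · intro hp
    show Metric.infDist (ρ p) (closure (ρ '' (ρ ⁻¹' closure (ρ '' P)))) = 0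
    rw [← hPK]
    exact (isClosed_closure.mem_iff_infDist_zero hne').mp hp
  · intro hp
    have hp' : Metric.infDist (ρ p) (closure (ρ '' (ρ ⁻¹' closure (ρ '' P)))) = 0 := hp
    rw [← hPK] at hp'
    exact (isClosed_closure.mem_iff_infDist_zero hne').mpr hp'

end Pool.Agent.Helper937.Szd
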