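import Mathlib

set_option linter.unusedSectionVars false
set_option linter.unusedVariables false
set_option autoImplicit false

/-! A family of finite subsets of a well-ordered set, and functionals on functions -/

namespace TR

section Defs
variable {Γ : Type*} [LinearOrder Γ]

/-- enumeration of initial segments -/
structure Enum (Γ : Type*) [LinearOrder Γ] where
  s : Γ → ℕ → Γ
  le : ∀ b K, s b K ≤ b
  surj : ∀ a b, a < b → ∃ K, s b K = a

/-- the admissible finite sets -/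
def Ad (s : Γ → ℕ → Γ) (F : Finset Γ) : Prop :=
  ∀ a ∈ F, ∀ b ∈ F, a < b → ∀ K, s b K = a → (F.filter (fun x => a ≤ x ∧ x < b)).card ≤ K + 1

lemma Ad.mono {s : Γ → ℕ → Γ} {F G : Finset Γ} (h : Ad s F) (hG : G ⊆ F) : Ad s G := by
  intro a ha b hb hab K hK
  refine le_trans (Finset.card_le_card ?_) (h a (hG ha) b (hG hb) hab K hK)
  exact Finset.filter_subset_filter _ hG

lemma Ad.empty (s : Γ → ℕ → Γ) : Ad s (∅ : Finset Γ) := by
  intro a ha; simp at ha

lemma Ad.singleton (s : Γ → ℕ → Γ) (g : Γ) : Ad s {g} := by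
  intro a ha b hb hab
  rw [Finset.mem_singleton] at ha hb
  subst ha; subst hb
  exact absurd hab (lt_irrefl _)

/-- the bonus -/
noncomputable def psi (s : Γ → ℕ → Γ) (f : Γ → ℝ) (b : Γ) : ℝ := ∑' K : ℕ, (1/2:ℝ)^(K+1) * f (s b K)

lemma half_sum : Summable (fun K : ℕ => (1/2:ℝ)^(K+1)) := by
  have := summable_geometric_two
  simpa [pow_succ] using this.mul_right (1/2:ℝ)

lemma half_tsum : ∑' K : ℕ, (1/2:ℝ)^(K+1) = 1 := by
  have h := tsum_geometric_two
  have e : (fun K : ℕ => (1/2:ℝ)^(K+1)) = fun K : ℕ => (1/2:ℝ)^K * (1/2) := by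
    funext K; rw [pow_succ]
  rw [e, tsum_mul_right, h]; norm_num

variable {s : Γ → ℕ → Γ} {f g : Γ → ℝ} {M : ℝ}

lemma psi_summable (h0 : ∀ x, 0 ≤ f x) (hM : ∀ x, f x ≤ M) (b : Γ) :
    Summable (fun K : ℕ => (1/2:ℝ)^(K+1) * f (s b K)) := by
  apply Summable.of_nonneg_of_le (fun K => mul_nonneg (by positivity) (h0 _)) (fun K => ?_) (half_sum.mul_right M)
  exact mul_le_mul_of_nonneg_left (hM _) (by positivity)

lemma psi_nonneg (h0 : ∀ x, 0 ≤ f x) (b : Γ) : 0 ≤ psi s f b :=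
  tsum_nonneg (fun K => mul_nonneg (by positivity) (h0 _))

lemma psi_le (h0 : ∀ x, 0 ≤ f x) (hM : ∀ x, f x ≤ M) (b : Γ) : psi s f b ≤ M := by
  have h1 : psi s f b ≤ ∑' K : ℕ, (1/2:ℝ)^(K+1) * M :=
    Summable.tsum_le_tsum (fun K => mul_le_mul_of_nonneg_left (hM _) (by positivity))
      (psi_summable h0 hM b) (half_sum.mul_right M)
  rw [tsum_mul_right, half_tsum, one_mul] at h1
  exact h1

lemma psi_mono (hf0 : ∀ x, 0 ≤ f x) (hfM : ∀ x, f x ≤ M) (hg0 : ∀ x, 0 ≤ g x) (h : ∀ x, g x ≤ f x) (b : Γ) :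
    psi s g b ≤ psi s f b :=
  Summable.tsum_le_tsum (fun K => mul_le_mul_of_nonneg_left (h _) (by positivity))
      (psi_summable hg0 (fun x => le_trans (h x) (hfM x)) b) (psi_summable hf0 hfM b)

lemma psi_smul (c : ℝ) (b : Γ) : psi s (fun x => c * f x) b = c * psi s f b := by
  unfold psi
  rw [← tsum_mul_left]
  congr 1; funext K; ring

lemma psi_lt (hf0 : ∀ x, 0 ≤ f x) (hfM : ∀ x, f x ≤ M) (hg0 : ∀ x, 0 ≤ g x) (h : ∀ x, g x ≤ f x)
    {a b : Γ} {K : ℕ} (hK : s b K = a) (ha : g a < f a) : psi s g b < psi s f b := by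
  apply Summable.tsum_lt_tsum (i := K) (fun K => mul_le_mul_of_nonneg_left (h _) (by positivity)) _
      (psi_summable hg0 (fun x => le_trans (h x) (hfM x)) b) (psi_summable hf0 hfM b)
  rw [hK]
  exact mul_lt_mul_of_pos_left ha (by positivity)

/-- value of a finite set -/
noncomputable def val (s : Γ → ℕ → Γ) (D : Finset Γ) (k : ℕ) (f : Γ → ℝ) : ℝ :=
  ∑ b ∈ D, (f b + psi s f b / (k+1))

lemma val_nonneg (h0 : ∀ x, 0 ≤ f x) (D : Finset Γ) (k : ℕ) : 0 ≤ val s D k f :=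
  Finset.sum_nonneg (fun b _ => add_nonneg (h0 b) (div_nonneg (psi_nonneg h0 b) (by positivity)))

lemma val_le (h0 : ∀ x, 0 ≤ f x) (hM : ∀ x, f x ≤ M) (D : Finset Γ) (k : ℕ) : val s D k f ≤ D.card * (2*M) := by
  unfold val
  rw [← nsmul_eq_mul]
  apply Finset.sum_le_card_nsmul
  intro b _
  have h1 := psi_le (s := s) h0 hM b
  have h2 := psi_nonneg (s := s) h0 b
  have h3 : psi s f b / (k+1) ≤ psi s f b := div_le_self h2 (by
    have : (0:ℝ) ≤ k := by positivity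
    linarith)
  have := hM b
  linarith

lemma val_mono (hf0 : ∀ x, 0 ≤ f x) (hfM : ∀ x, f x ≤ M) (hg0 : ∀ x, 0 ≤ g x) (h : ∀ x, g x ≤ f x)
    (D : Finset Γ) (k : ℕ) : val s D k g ≤ val s D k f := by
  apply Finset.sum_le_sum
  intro b _
  have h1 := psi_mono (s := s) hf0 hfM hg0 h b
  have h2 : psi s g b / (k+1) ≤ psi s f b / (k+1) := div_le_div_of_nonneg_right h1 (by positivity)
  have := h b
  linarith

lemma val_smul (c : ℝ) (D : Finset Γ) (k : ℕ) : val s D k (fun x => c * f x) = c * val s D k f := by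
  unfold val
  rw [Finset.mul_sum]
  apply Finset.sum_congr rfl
  intro b _
  rw [psi_smul]; ring

/-- supremum over sets with m+1 elements -/
noncomputable def theta (s : Γ → ℕ → Γ) (m k : ℕ) (f : Γ → ℝ) : ℝ :=
  sSup {v | ∃ D : Finset Γ, D.card = m+1 ∧ v = val s D k f}

lemma theta_bdd (h0 : ∀ x, 0 ≤ f x) (hM : ∀ x, f x ≤ M) (m k : ℕ) :
    BddAbove {v | ∃ D : Finset Γ, D.card = m+1 ∧ v = val s D k f} := by
  refine ⟨(m+1) * (2*M), ?_⟩
  rintro v ⟨D, hD, rfl⟩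
  have := val_le (s := s) h0 hM D k
  rw [hD] at this
  push_cast at this
  exact this

lemma le_theta (h0 : ∀ x, 0 ≤ f x) (hM : ∀ x, f x ≤ M) {m k : ℕ} {D : Finset Γ} (hD : D.card = m+1) :
    val s D k f ≤ theta s m k f := le_csSup (theta_bdd h0 hM m k) ⟨D, hD, rfl⟩

lemma theta_ne [Infinite Γ] (s : Γ → ℕ → Γ) (f : Γ → ℝ) (m k : ℕ) :
    {v | ∃ D : Finset Γ, D.card = m+1 ∧ v = val s D k f}.Nonempty := by
  obtain ⟨D, hD⟩ := Infinite.exists_subset_card_eq Γ (m+1)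
  exact ⟨_, D, hD, rfl⟩

lemma theta_le [Infinite Γ] {m k : ℕ} {B : ℝ} (h : ∀ D : Finset Γ, D.card = m+1 → val s D k f ≤ B) :
    theta s m k f ≤ B := by
  apply csSup_le (theta_ne s f m k)
  rintro v ⟨D, hD, rfl⟩
  exact h D hD

lemma theta_nonneg [Infinite Γ] (h0 : ∀ x, 0 ≤ f x) (hM : ∀ x, f x ≤ M) (m k : ℕ) : 0 ≤ theta s m k f := by
  obtain ⟨D, hD⟩ := Infinite.exists_subset_card_eq Γ (m+1)
  exact le_trans (val_nonneg h0 D k) (le_theta h0 hM hD)

lemma theta_ub [Infinite Γ] (h0 : ∀ x, 0 ≤ f x) (hM : ∀ x, f x ≤ M) (m k : ℕ) : theta s m k f ≤ (m+1) * (2*M) := by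
  apply theta_le
  intro D hD
  have := val_le (s := s) h0 hM D k
  rw [hD] at this
  push_cast at this
  exact this

lemma theta_mono [Infinite Γ] (hf0 : ∀ x, 0 ≤ f x) (hfM : ∀ x, f x ≤ M) (hg0 : ∀ x, 0 ≤ g x) (h : ∀ x, g x ≤ f x)
    (m k : ℕ) : theta s m k g ≤ theta s m k f := by
  apply theta_le
  intro D hD
  exact le_trans (val_mono hf0 hfM hg0 h D k) (le_theta hf0 hfM hD)

lemma theta_smul [Infinite Γ] {c : ℝ} (hc : 0 < c) (h0 : ∀ x, 0 ≤ f x) (hM : ∀ x, f x ≤ M) (m k : ℕ) :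
    theta s m k (fun x => c * f x) = c * theta s m k f := by
  apply le_antisymm
  · apply theta_le
    intro D hD
    rw [val_smul]
    exact mul_le_mul_of_nonneg_left (le_theta h0 hM hD) hc.le
  · rw [← le_div_iff₀' hc]
    apply theta_le
    intro D hD
    rw [le_div_iff₀' hc, ← val_smul]
    exact le_theta (M := c*M) (fun x => mul_nonneg hc.le (h0 x)) (fun x => mul_le_mul_of_nonneg_left (hM x) hc.le) hD

/-- the weights -/
noncomputable def w (j : ℕ × ℕ) : ℝ := (1/2)^j.1 * (1/2)^j.2 / (j.1+1)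

lemma w_pos (j : ℕ × ℕ) : 0 < w j := by unfold w; positivity

lemma w_sum : Summable (fun j : ℕ × ℕ => (1/2:ℝ)^j.1 * (1/2)^j.2) :=
  summable_geometric_two.mul_of_nonneg summable_geometric_two (fun _ => by positivity) (fun _ => by positivity)

lemma w_tsum : ∑' j : ℕ × ℕ, (1/2:ℝ)^j.1 * (1/2)^j.2 = 4 := by
  rw [← Summable.tsum_mul_tsum summable_geometric_two summable_geometric_two w_sum, tsum_geometric_two]; norm_num

/-- the total functional -/
noncomputable def Phi (s : Γ → ℕ → Γ) (f : Γ → ℝ) : ℝ := ∑' j : ℕ × ℕ, w j * theta s j.1 j.2 f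

lemma term_le [Infinite Γ] (h0 : ∀ x, 0 ≤ f x) (hM : ∀ x, f x ≤ M) (j : ℕ × ℕ) :
    w j * theta s j.1 j.2 f ≤ ((1/2:ℝ)^j.1 * (1/2)^j.2) * (2*M) := by
  have h1 := theta_ub (s := s) h0 hM j.1 j.2
  have h2 := mul_le_mul_of_nonneg_left h1 (w_pos j).le
  refine le_trans h2 (le_of_eq ?_)
  unfold w
  have : (j.1:ℝ) + 1 ≠ 0 := by positivity
  field_simp

lemma term_nonneg [Infinite Γ] (h0 : ∀ x, 0 ≤ f x) (hM : ∀ x, f x ≤ M) (j : ℕ × ℕ) : 0 ≤ w j * theta s j.1 j.2 f :=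
  mul_nonneg (w_pos j).le (theta_nonneg h0 hM _ _)

lemma Phi_summable [Infinite Γ] (h0 : ∀ x, 0 ≤ f x) (hM : ∀ x, f x ≤ M) :
    Summable (fun j : ℕ × ℕ => w j * theta s j.1 j.2 f) :=
  Summable.of_nonneg_of_le (term_nonneg h0 hM) (term_le h0 hM) (w_sum.mul_right _)

lemma Phi_le [Infinite Γ] (h0 : ∀ x, 0 ≤ f x) (hM : ∀ x, f x ≤ M) : Phi s f ≤ 8*M := by
  have h1 : Phi s f ≤ ∑' j : ℕ × ℕ, ((1/2:ℝ)^j.1 * (1/2)^j.2) * (2*M) :=
    Summable.tsum_le_tsum (term_le h0 hM) (Phi_summable h0 hM) (w_sum.mul_right _)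
  rw [tsum_mul_right, w_tsum] at h1
  linarith

lemma Phi_mono [Infinite Γ] (hf0 : ∀ x, 0 ≤ f x) (hfM : ∀ x, f x ≤ M) (hg0 : ∀ x, 0 ≤ g x) (h : ∀ x, g x ≤ f x) :
    Phi s g ≤ Phi s f :=
  Summable.tsum_le_tsum (fun j => mul_le_mul_of_nonneg_left (theta_mono hf0 hfM hg0 h _ _) (w_pos j).le)
    (Phi_summable hg0 (fun x => le_trans (h x) (hfM x))) (Phi_summable hf0 hfM)

/-- decrease of one component -/
lemma Phi_drop [Infinite Γ] (hf0 : ∀ x, 0 ≤ f x) (hfM : ∀ x, f x ≤ M) (hg0 : ∀ x, 0 ≤ g x) (h : ∀ x, g x ≤ f x)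
    (j : ℕ × ℕ) {c : ℝ} (hj : theta s j.1 j.2 g ≤ theta s j.1 j.2 f - c) : Phi s g ≤ Phi s f - w j * c := by
  have hsg := Phi_summable (s := s) hg0 (fun x => le_trans (h x) (hfM x))
  have hsf := Phi_summable (s := s) hf0 hfM
  have e1 : Phi s g = w j * theta s j.1 j.2 g + ∑' i, if i = j then 0 else w i * theta s i.1 i.2 g :=
    hsg.tsum_eq_add_tsum_ite j
  have e2 : Phi s f = w j * theta s j.1 j.2 f + ∑' i, if i = j then 0 else w i * theta s i.1 i.2 f :=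
    hsf.tsum_eq_add_tsum_ite j
  have hs1 : Summable (fun i => if i = j then 0 else w i * theta s i.1 i.2 g) := by
    apply Summable.of_nonneg_of_le _ _ hsg
    · intro i; split_ifs; exact le_rfl; exact term_nonneg hg0 (fun x => le_trans (h x) (hfM x)) i
    · intro i; split_ifs; exact term_nonneg hg0 (fun x => le_trans (h x) (hfM x)) i; exact le_rfl
  have hs2 : Summable (fun i => if i = j then 0 else w i * theta s i.1 i.2 f) := by
    apply Summable.of_nonneg_of_le _ _ hsf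
    · intro i; split_ifs; exact le_rfl; exact term_nonneg hf0 hfM i
    · intro i; split_ifs; exact term_nonneg hf0 hfM i; exact le_rfl
  have h3 : (∑' i, if i = j then 0 else w i * theta s i.1 i.2 g) ≤ ∑' i, if i = j then 0 else w i * theta s i.1 i.2 f := by
    apply Summable.tsum_le_tsum _ hs1 hs2
    intro i
    split_ifs
    · exact le_rfl
    · exact mul_le_mul_of_nonneg_left (theta_mono hf0 hfM hg0 h _ _) (w_pos i).le
  have h4 := mul_le_mul_of_nonneg_left hj (w_pos j).le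
  rw [e1, e2]
  linarith

lemma Phi_smul [Infinite Γ] {c : ℝ} (hc : 0 < c) (h0 : ∀ x, 0 ≤ f x) (hM : ∀ x, f x ≤ M) :
    Phi s (fun x => c * f x) = c * Phi s f := by
  unfold Phi
  rw [← tsum_mul_left]
  congr 1; funext j
  rw [theta_smul hc h0 hM]; ring

lemma le_Phi [Infinite Γ] (h0 : ∀ x, 0 ≤ f x) (hM : ∀ x, f x ≤ M) (b : Γ) : f b ≤ Phi s f := by
  have h1 : f b ≤ theta s 0 0 f := by
    refine le_trans ?_ (le_theta (D := {b}) h0 hM (by simp))
    simp only [val, Finset.sum_singleton]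
    have := psi_nonneg (s := s) h0 b
    have : 0 ≤ psi s f b / ((0:ℕ)+1 : ℝ) := div_nonneg this (by norm_num)
    linarith
  have h2 : w (0,0) * theta s 0 0 f ≤ Phi s f :=
    (Phi_summable (s := s) h0 hM).le_tsum (0,0) (fun i _ => term_nonneg h0 hM i)
  have h3 : w (0,0) = 1 := by simp [w]
  rw [h3, one_mul] at h2
  exact le_trans h1 h2

end Defs

end TR
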