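import Pool.Agent.Helper937.Tro1

set_option linter.unusedSectionVars false
set_option linter.unusedVariables false
set_option autoImplicit false

namespace TR

section Tame
variable {Γ : Type*} [LinearOrder Γ]
variable {s : Γ → ℕ → Γ} {f g x y : Γ → ℝ} {M : ℝ}

/-- tails are small on admissible sets -/
def Tm (s : Γ → ℕ → Γ) (x : Γ → ℝ) : Prop :=
  ∀ ε > 0, ∃ F0 : Finset Γ, ∀ F : Finset Γ, Ad s F → Disjoint F F0 → ∑ g ∈ F, |x g| ≤ ε

lemma Tm.bdd (h : Tm s x) : ∃ B, ∀ F : Finset Γ, Ad s F → ∑ g ∈ F, |x g| ≤ B := by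
  obtain ⟨F0, h0⟩ := h 1 one_pos
  refine ⟨1 + ∑ g ∈ F0, |x g|, fun F hF => ?_⟩
  classical
  have h1 := h0 (F \ F0) (hF.mono Finset.sdiff_subset) Finset.sdiff_disjoint
  have h2 : ∑ g ∈ F ∩ F0, |x g| ≤ ∑ g ∈ F0, |x g| :=
    Finset.sum_le_sum_of_subset_of_nonneg Finset.inter_subset_right (fun _ _ _ => abs_nonneg _)
  have h3 := Finset.sum_inter_add_sum_sdiff F F0 (fun g => |x g|)
  linarith

/-- the norm -/
noncomputable def nrm (s : Γ → ℕ → Γ) (x : Γ → ℝ) : ℝ := sSup {v | ∃ F : Finset Γ, Ad s F ∧ v = ∑ g ∈ F, |x g|}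

lemma le_nrm (h : Tm s x) {F : Finset Γ} (hF : Ad s F) : ∑ g ∈ F, |x g| ≤ nrm s x := by
  obtain ⟨B, hB⟩ := h.bdd
  exact le_csSup ⟨B, by rintro v ⟨F, hF, rfl⟩; exact hB F hF⟩ ⟨F, hF, rfl⟩

lemma nrm_le {B : ℝ} (h : ∀ F : Finset Γ, Ad s F → ∑ g ∈ F, |x g| ≤ B) : nrm s x ≤ B := by
  have hne : {v | ∃ F : Finset Γ, Ad s F ∧ v = ∑ g ∈ F, |x g|}.Nonempty := ⟨0, ∅, Ad.empty s, by simp⟩
  apply csSup_le hne
  rintro v ⟨F, hF, rfl⟩; exact h F hF

lemma nrm_nonneg (h : Tm s x) : 0 ≤ nrm s x := by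
  have := le_nrm h (Ad.empty s); simpa using this

lemma abs_le_nrm (h : Tm s x) (g : Γ) : |x g| ≤ nrm s x := by
  have := le_nrm h (Ad.singleton s g); simpa using this

lemma Tm.add (hx : Tm s x) (hy : Tm s y) : Tm s (fun g => x g + y g) := by
  classical
  intro ε hε
  obtain ⟨F1, h1⟩ := hx (ε/2) (by positivity)
  obtain ⟨F2, h2⟩ := hy (ε/2) (by positivity)
  refine ⟨F1 ∪ F2, fun F hF hd => ?_⟩
  rw [Finset.disjoint_union_right] at hd
  have a1 := h1 F hF hd.1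
  have a2 := h2 F hF hd.2
  have : ∑ g ∈ F, |x g + y g| ≤ ∑ g ∈ F, |x g| + ∑ g ∈ F, |y g| := by
    rw [← Finset.sum_add_distrib]
    exact Finset.sum_le_sum (fun g _ => abs_add_le _ _)
  linarith

lemma Tm.of_le {C : ℝ} (hx : Tm s x) (hC : 0 ≤ C) (h : ∀ g, |y g| ≤ C * |x g|) : Tm s y := by
  intro ε hε
  obtain ⟨F1, h1⟩ := hx (ε/(C+1)) (by positivity)
  refine ⟨F1, fun F hF hd => ?_⟩
  have a1 := h1 F hF hd
  have : ∑ g ∈ F, |y g| ≤ C * ∑ g ∈ F, |x g| := by
    rw [Finset.mul_sum]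
    exact Finset.sum_le_sum (fun g _ => h g)
  have h2 : C * (ε/(C+1)) ≤ ε := by
    rw [mul_div_assoc', div_le_iff₀ (by positivity)]
    nlinarith
  have h3 := mul_le_mul_of_nonneg_left a1 hC
  linarith

lemma Tm.smul (c : ℝ) (hx : Tm s x) : Tm s (fun g => c * x g) :=
  hx.of_le (abs_nonneg c) (fun g => by rw [abs_mul])

lemma Tm.fin (F0 : Finset Γ) (h : ∀ g, g ∉ F0 → x g = 0) : Tm s x := by
  intro ε hε
  refine ⟨F0, fun F hF hd => ?_⟩
  rw [Finset.sum_eq_zero]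
  · exact hε.le
  · intro g hg
    rw [h g (fun hg0 => (Finset.disjoint_left.1 hd) hg hg0), abs_zero]

/-- admissible functionals: nonnegative, bounded, with admissible support -/
structure Adm (s : Γ → ℕ → Γ) (f : Γ → ℝ) (M : ℝ) : Prop where
  nn : ∀ g, 0 ≤ f g
  bd : ∀ g, f g ≤ M
  su : ∀ F : Finset Γ, (∀ g ∈ F, 0 < f g) → Ad s F

lemma Adm.M_nonneg [Nonempty Γ] (h : Adm s f M) : 0 ≤ M := le_trans (h.nn (Classical.arbitrary Γ)) (h.bd _)

/-- the pairing -/
noncomputable def pr (f x : Γ → ℝ) : ℝ := ∑' g, f g * |x g|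

lemma fin_pr_le (hf : Adm s f M) (hM : 0 ≤ M) {F0 : Finset Γ} {δ : ℝ}
    (h : ∀ F : Finset Γ, Ad s F → Disjoint F F0 → ∑ g ∈ F, |x g| ≤ δ) (F : Finset Γ) (hd : Disjoint F F0) :
    ∑ g ∈ F, f g * |x g| ≤ M * δ := by
  classical
  have h1 : ∑ g ∈ F, f g * |x g| = ∑ g ∈ F.filter (fun g => 0 < f g), f g * |x g| := by
    rw [Finset.sum_filter]
    apply Finset.sum_congr rfl
    intro g _
    split_ifs with h
    · rfl
    · have := hf.nn g
      have : f g = 0 := le_antisymm (not_lt.1 h) this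
      rw [this]; ring
  rw [h1]
  have h2 : ∑ g ∈ F.filter (fun g => 0 < f g), f g * |x g| ≤ ∑ g ∈ F.filter (fun g => 0 < f g), M * |x g| :=
    Finset.sum_le_sum (fun g _ => mul_le_mul_of_nonneg_right (hf.bd g) (abs_nonneg _))
  rw [← Finset.mul_sum] at h2
  refine le_trans h2 (mul_le_mul_of_nonneg_left ?_ hM)
  apply h
  · apply hf.su
    intro g hg
    exact (Finset.mem_filter.1 hg).2
  · exact Finset.disjoint_of_subset_left (Finset.filter_subset _ _) hd

lemma pr_summable (hf : Adm s f M) (hM : 0 ≤ M) (hx : Tm s x) : Summable (fun g => f g * |x g|) := by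
  apply summable_of_sum_le (c := M * nrm s x) (fun g => mul_nonneg (hf.nn g) (abs_nonneg _))
  intro F
  exact fin_pr_le (F0 := ∅) hf hM (fun F hF _ => le_nrm hx hF) F (Finset.disjoint_empty_right _)

lemma pr_nonneg (hf : ∀ g, 0 ≤ f g) : 0 ≤ pr f x := tsum_nonneg (fun g => mul_nonneg (hf g) (abs_nonneg _))

lemma pr_le (hf : Adm s f M) (hM : 0 ≤ M) (hx : Tm s x) : pr f x ≤ M * nrm s x := by
  apply (pr_summable hf hM hx).tsum_le_of_sum_le
  intro F
  exact fin_pr_le (F0 := ∅) hf hM (fun F hF _ => le_nrm hx hF) F (Finset.disjoint_empty_right _)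

lemma pr_smul (c : ℝ) : pr (fun g => c * f g) x = c * pr f x := by
  unfold pr
  rw [← tsum_mul_left]
  congr 1; funext g; ring

/-- the dual body -/
def BB (s : Γ → ℕ → Γ) : Set (Γ → ℝ) := {f | Adm s f 1 ∧ Phi s f ≤ 1}

/-- the basic norm -/
noncomputable def nu (s : Γ → ℕ → Γ) (x : Γ → ℝ) : ℝ := sSup {v | ∃ f ∈ BB s, v = pr f x}

lemma nu_bdd (hx : Tm s x) : BddAbove {v | ∃ f ∈ BB s, v = pr f x} := by
  refine ⟨1 * nrm s x, ?_⟩
  rintro v ⟨f, hf, rfl⟩
  exact pr_le hf.1 zero_le_one hx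

lemma le_nu (hx : Tm s x) (hf : f ∈ BB s) : pr f x ≤ nu s x := le_csSup (nu_bdd hx) ⟨f, hf, rfl⟩

lemma zero_mem [Infinite Γ] (s : Γ → ℕ → Γ) : (fun _ => (0:ℝ)) ∈ BB s := by
  refine ⟨⟨fun _ => le_rfl, fun _ => zero_le_one, ?_⟩, ?_⟩
  · intro F hF
    have : F = ∅ := by
      rw [Finset.eq_empty_iff_forall_notMem]
      intro g hg
      exact absurd (hF g hg) (lt_irrefl _)
    rw [this]; exact Ad.empty s
  · have := Phi_le (s := s) (f := fun _ : Γ => (0:ℝ)) (M := 0) (fun _ => le_rfl) (fun _ => le_rfl)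
    linarith

lemma nu_le [Infinite Γ] {B : ℝ} (h : ∀ f ∈ BB s, pr f x ≤ B) : nu s x ≤ B := by
  have hne : {v | ∃ f ∈ BB s, v = pr f x}.Nonempty := ⟨_, _, zero_mem s, rfl⟩
  apply csSup_le hne
  rintro v ⟨f, hf, rfl⟩; exact h f hf

lemma nu_nonneg [Infinite Γ] (hx : Tm s x) : 0 ≤ nu s x := by
  have := le_nu hx (zero_mem s)
  simpa [pr] using this

lemma nu_le_nrm [Infinite Γ] (hx : Tm s x) : nu s x ≤ nrm s x := by
  apply nu_le
  intro f hf
  have := pr_le hf.1 zero_le_one hx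
  linarith

lemma nrm_le_nu [Infinite Γ] (hx : Tm s x) : nrm s x ≤ 8 * nu s x := by
  classical
  apply nrm_le
  intro F hF
  set f : Γ → ℝ := fun g => if g ∈ F then 1/8 else 0 with hf
  have h0 : ∀ g, 0 ≤ f g := fun g => by simp only [hf]; split_ifs <;> norm_num
  have h1 : ∀ g, f g ≤ 1/8 := fun g => by simp only [hf]; split_ifs <;> norm_num
  have hmem : f ∈ BB s := by
    refine ⟨⟨h0, fun g => le_trans (h1 g) (by norm_num), ?_⟩, ?_⟩
    · intro G hG
      apply hF.mono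
      intro g hg
      have := hG g hg
      simp only [hf] at this
      by_contra hc
      rw [if_neg hc] at this
      exact lt_irrefl _ this
    · have := Phi_le (s := s) h0 h1
      linarith
  have h2 := le_nu hx hmem
  have h3 : pr f x = ∑ g ∈ F, (1/8) * |x g| := by
    unfold pr
    rw [tsum_eq_sum (s := F)]
    · apply Finset.sum_congr rfl
      intro g hg
      simp only [hf, if_pos hg]
    · intro g hg
      simp only [hf, if_neg hg, zero_mul]
  rw [h3, ← Finset.mul_sum] at h2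
  linarith

/-- scaling inequality -/
lemma pr_le_Phi [Infinite Γ] (hf : Adm s f M) (hM : 0 ≤ M) (hx : Tm s x) : pr f x ≤ Phi s f * nu s x := by
  rcases eq_or_lt_of_le (show 0 ≤ Phi s f from tsum_nonneg (term_nonneg hf.nn hf.bd)) with h | h
  · have hz : ∀ g, f g = 0 := fun g => le_antisymm (by rw [h]; exact le_Phi hf.nn hf.bd g) (hf.nn g)
    rw [← h, zero_mul]
    unfold pr
    simp [hz]
  · set r := Phi s f with hr
    have hri : 0 < r⁻¹ := inv_pos.2 h
    have e1 : Phi s (fun g => r⁻¹ * f g) = 1 := by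
      rw [Phi_smul hri hf.nn hf.bd, ← hr, inv_mul_cancel₀ h.ne']
    have hn : ∀ g, 0 ≤ r⁻¹ * f g := fun g => mul_nonneg hri.le (hf.nn g)
    have hb : ∀ g, r⁻¹ * f g ≤ r⁻¹ * M := fun g => mul_le_mul_of_nonneg_left (hf.bd g) hri.le
    have hmem : (fun g => r⁻¹ * f g) ∈ BB s := by
      refine ⟨⟨hn, fun g => ?_, ?_⟩, e1.le⟩
      · have := le_Phi (s := s) hn hb g
        rw [e1] at this; exact this
      · intro F hF
        apply hf.su
        intro g hg
        exact pos_of_mul_pos_right (hF g hg) hri.le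
    have h2 := le_nu hx hmem
    rw [pr_smul] at h2
    rw [inv_mul_le_iff₀ h] at h2
    exact h2

lemma pr_add_le (hf : Adm s f M) (hM : 0 ≤ M) (hx : Tm s x) (hy : Tm s y) :
    pr f (fun g => x g + y g) ≤ pr f x + pr f y := by
  unfold pr
  rw [← (pr_summable hf hM hx).tsum_add (pr_summable hf hM hy)]
  apply Summable.tsum_le_tsum _ (pr_summable hf hM (hx.add hy)) ((pr_summable hf hM hx).add (pr_summable hf hM hy))
  intro g
  rw [← mul_add]
  exact mul_le_mul_of_nonneg_left (abs_add_le _ _) (hf.nn g)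

lemma pr_smul_right (c : ℝ) : pr f (fun g => c * x g) = |c| * pr f x := by
  unfold pr
  rw [← tsum_mul_left]
  congr 1; funext g; rw [abs_mul]; ring

lemma pr_mono (hf : Adm s f M) (hM : 0 ≤ M) (hx : Tm s x) (hy : Tm s y) (h : ∀ g, |x g| ≤ |y g|) : pr f x ≤ pr f y :=
  Summable.tsum_le_tsum (fun g => mul_le_mul_of_nonneg_left (h g) (hf.nn g)) (pr_summable hf hM hx) (pr_summable hf hM hy)

lemma nu_add_le [Infinite Γ] (hx : Tm s x) (hy : Tm s y) : nu s (fun g => x g + y g) ≤ nu s x + nu s y := by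
  apply nu_le
  intro f hf
  have := pr_add_le hf.1 zero_le_one hx hy
  have := le_nu hx hf
  have := le_nu hy hf
  linarith

lemma nu_smul_le [Infinite Γ] (hx : Tm s x) (c : ℝ) : nu s (fun g => c * x g) ≤ |c| * nu s x := by
  apply nu_le
  intro f hf
  rw [pr_smul_right]
  exact mul_le_mul_of_nonneg_left (le_nu hx hf) (abs_nonneg c)

lemma nu_smul [Infinite Γ] (hx : Tm s x) (c : ℝ) : nu s (fun g => c * x g) = |c| * nu s x := by
  apply le_antisymm (nu_smul_le hx c)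
  rcases eq_or_ne c 0 with rfl | hc
  · rw [abs_zero, zero_mul]
    exact nu_nonneg (hx.smul 0)
  · have h := nu_smul_le (hx.smul c) c⁻¹
    have e : (fun g => c⁻¹ * (c * x g)) = x := by funext g; rw [inv_mul_cancel_left₀ hc]
    rw [e, abs_inv] at h
    rwa [inv_mul_eq_div, le_div_iff₀' (abs_pos.2 hc)] at h

lemma nu_mono [Infinite Γ] (hx : Tm s x) (hy : Tm s y) (h : ∀ g, |x g| ≤ |y g|) : nu s x ≤ nu s y := by
  apply nu_le
  intro f hf
  exact le_trans (pr_mono hf.1 zero_le_one hx hy h) (le_nu hy hf)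

end Tame

end TR
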