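import Pool.Agent.Helper937.Tro2

set_option linter.unusedSectionVars false
set_option linter.unusedVariables false
set_option autoImplicit false

namespace TR

section Att
variable {Γ : Type*} [LinearOrder Γ]
variable {s : Γ → ℕ → Γ} {f g x y : Γ → ℝ} {M : ℝ}

lemma one_div_k (k : ℕ) : (0:ℝ) < 1/((k:ℝ)+1) := by positivity

/-- exchange: near-maximal sets live where f is large -/
lemma near_max [Infinite Γ] (h0 : ∀ g, 0 ≤ f g) (h1 : ∀ g, f g ≤ 1) {l : ℝ} (hl : 0 < l)
    (hinf : ∀ ε > 0, {g | l - ε < f g}.Infinite) (m k : ℕ) (hk : 1/((k:ℝ)+1) ≤ l/8)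
    {D : Finset Γ} (hD : D.card = m+1) (hval : theta s m k f - l/8 ≤ val s D k f) :
    ∀ g ∈ D, l/2 ≤ f g := by
  classical
  intro g hg
  by_contra hc
  push Not at hc
  obtain ⟨g', hg', hgD⟩ := (hinf (l/8) (by positivity)).exists_notMem_finset D
  simp only [Set.mem_setOf_eq] at hg'
  set D' := insert g' (D.erase g) with hD'
  have hgE : g' ∉ D.erase g := fun h => hgD (Finset.mem_of_mem_erase h)
  have hcard : D'.card = m+1 := by
    rw [hD', Finset.card_insert_of_notMem hgE, Finset.card_erase_of_mem hg, hD]; rfl
  have e1 : val s D' k f = (f g' + psi s f g' / (k+1)) + val s (D.erase g) k f := by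
    unfold val; rw [hD', Finset.sum_insert hgE]
  have e2 : val s D k f = (f g + psi s f g / (k+1)) + val s (D.erase g) k f := by
    unfold val; exact (Finset.add_sum_erase D (fun b => f b + psi s f b / (k+1)) hg).symm
  have h2 := le_theta (s := s) h0 h1 (k := k) hcard
  have p1 : 0 ≤ psi s f g' / (k+1) := div_nonneg (psi_nonneg h0 g') (by positivity)
  have p2 : psi s f g / (k+1) ≤ 1/((k:ℝ)+1) := div_le_div_of_nonneg_right (psi_le h0 h1 g) (by positivity)
  linarith

/-- the attainment lemma -/
lemma attain [Infinite Γ] (hf : Adm s f 1) (hΦ : Phi s f ≤ 1) (hx : Tm s x) (hν : 0 < nu s x)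
    (hmax : pr f x = nu s x) {l : ℝ} (hl : 0 < l) (hinf : ∀ ε > 0, {g | l - ε < f g}.Infinite)
    (m k : ℕ) (hk : 1/((k:ℝ)+1) ≤ l/8) :
    ∃ D : Finset Γ, D.card = m+1 ∧ val s D k f = theta s m k f ∧ ∀ g ∈ D, l/2 ≤ f g := by
  classical
  by_contra hno
  have hno' : ∀ D : Finset Γ, D.card = m+1 → val s D k f < theta s m k f := by
    intro D hD
    refine lt_of_le_of_ne (le_theta hf.nn hf.bd hD) (fun h => hno ⟨D, hD, h, ?_⟩)
    apply near_max hf.nn hf.bd hl hinf m k hk hD
    rw [h]; linarith
  set c := w (m,k) * (l/2) with hc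
  have hcp : 0 < c := mul_pos (w_pos _) (by positivity)
  set δ := c * nu s x / 2 with hδ
  have hδp : 0 < δ := by positivity
  obtain ⟨F0, hF0⟩ := hx δ hδp
  -- finitely many sets inside F0
  obtain ⟨η, hη, hηD⟩ : ∃ η > 0, ∀ D ⊆ F0, D.card = m+1 → val s D k f ≤ theta s m k f - η := by
    set P := (F0.powerset.filter (fun D => D.card = m+1)) with hP
    rcases P.eq_empty_or_nonempty with h | h
    · refine ⟨1, one_pos, fun D hD hc => ?_⟩
      have : D ∈ P := by rw [hP, Finset.mem_filter, Finset.mem_powerset]; exact ⟨hD, hc⟩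
      rw [h] at this; simp at this
    · obtain ⟨D0, hD0, hm⟩ := P.exists_max_image (fun D => val s D k f) h
      rw [hP, Finset.mem_filter, Finset.mem_powerset] at hD0
      refine ⟨theta s m k f - val s D0 k f, by linarith [hno' D0 hD0.2], fun D hD hc => ?_⟩
      have := hm D (by rw [hP, Finset.mem_filter, Finset.mem_powerset]; exact ⟨hD, hc⟩)
      linarith
  obtain ⟨t, ht0, ht1, ht2, ht3⟩ : ∃ t : ℝ, 0 < t ∧ t ≤ 1 ∧ t * (l/2) ≤ l/8 ∧ t * (l/2) ≤ η := by
    refine ⟨min (1/4) (η/(l/2)), by positivity, le_trans (min_le_left _ _) (by norm_num), ?_, ?_⟩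
    · have := min_le_left (1/4) (η/(l/2))
      nlinarith
    · have := min_le_right (1/4) (η/(l/2))
      rwa [le_div_iff₀ (by positivity)] at this
  set fs : Γ → ℝ := fun g => if g ∈ F0 then f g else (1-t) * f g with hfs
  have hle : ∀ g, fs g ≤ f g := by
    intro g; simp only [hfs]; split_ifs
    · exact le_rfl
    · have := hf.nn g; nlinarith
  have h0 : ∀ g, 0 ≤ fs g := by
    intro g; simp only [hfs]; split_ifs
    · exact hf.nn g
    · exact mul_nonneg (by linarith) (hf.nn g)
  have hfsA : Adm s fs 1 := by
    refine ⟨h0, fun g => le_trans (hle g) (hf.bd g), fun F hF => hf.su F (fun g hg => lt_of_lt_of_le (hF g hg) (hle g))⟩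
  have hth : theta s m k fs ≤ theta s m k f - t * (l/2) := by
    apply theta_le
    intro D hD
    by_cases hDF : D ⊆ F0
    · have h1 := val_mono (s := s) hf.nn hf.bd h0 hle D k
      have h2 := hηD D hDF hD
      linarith
    · by_cases hnear : theta s m k f - l/8 ≤ val s D k f
      · have h1 := near_max hf.nn hf.bd hl hinf m k hk hD hnear
        obtain ⟨g, hgD, hgF⟩ := Finset.not_subset.1 hDF
        have h2 : fs g ≤ f g - t * (l/2) := by
          simp only [hfs, if_neg hgF]
          have := h1 g hgD
          nlinarith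
        have h3 : val s D k fs ≤ val s D k f - t * (l/2) := by
          unfold val
          rw [← Finset.add_sum_erase D (fun b => fs b + psi s fs b / (k+1)) hgD,
            ← Finset.add_sum_erase D (fun b => f b + psi s f b / (k+1)) hgD]
          have h4 : ∑ b ∈ D.erase g, (fs b + psi s fs b / (k+1)) ≤ ∑ b ∈ D.erase g, (f b + psi s f b / (k+1)) :=
            val_mono (s := s) hf.nn hf.bd h0 hle (D.erase g) k
          have h5 : psi s fs g / (k+1) ≤ psi s f g / (k+1) :=
            div_le_div_of_nonneg_right (psi_mono hf.nn hf.bd h0 hle g) (by positivity)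
          linarith
        have := le_theta (s := s) hf.nn hf.bd (k := k) hD
        linarith
      · push Not at hnear
        have h1 := val_mono (s := s) hf.nn hf.bd h0 hle D k
        linarith
  have hPhi := Phi_drop (s := s) hf.nn hf.bd h0 hle (m,k) hth
  have h1 := pr_le_Phi hfsA zero_le_one hx
  -- lower bound for pr fs x
  have h2 : pr f x - t * δ ≤ pr fs x := by
    set r : Γ → ℝ := fun g => if g ∈ F0 then 0 else f g with hr
    have hrA : Adm s r 1 := by
      refine ⟨fun g => ?_, fun g => ?_, fun F hF => hf.su F (fun g hg => ?_)⟩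
      · simp only [hr]; split_ifs; exact le_rfl; exact hf.nn g
      · simp only [hr]; split_ifs; exact zero_le_one; exact hf.bd g
      · have := hF g hg
        simp only [hr] at this
        split_ifs at this with h
        · exact absurd this (lt_irrefl _)
        · exact this
    have hrle : pr r x ≤ δ := by
      apply (pr_summable hrA zero_le_one hx).tsum_le_of_sum_le
      intro F
      have e : ∑ g ∈ F, r g * |x g| = ∑ g ∈ F \ F0, r g * |x g| := by
        rw [← Finset.sum_inter_add_sum_sdiff F F0 (fun g => r g * |x g|)]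
        rw [Finset.sum_eq_zero (s := F ∩ F0), zero_add]
        intro g hg
        simp only [hr, if_pos (Finset.mem_inter.1 hg).2, zero_mul]
      rw [e]
      have := fin_pr_le hrA zero_le_one hF0 (F \ F0) Finset.sdiff_disjoint
      linarith
    have e : pr fs x = pr f x - t * pr r x := by
      unfold pr
      rw [← tsum_mul_left, ← (pr_summable hf zero_le_one hx).tsum_sub ((pr_summable hrA zero_le_one hx).mul_left t)]
      congr 1; funext g
      simp only [hfs, hr]
      split_ifs <;> ring
    rw [e]
    have := mul_le_mul_of_nonneg_left hrle ht0.le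
    linarith
  have h3 : Phi s fs ≤ 1 - t * c := by
    have : w (m,k) * (t * (l/2)) = t * c := by rw [hc]; ring
    rw [this] at hPhi
    linarith
  have h4 : Phi s fs * nu s x ≤ (1 - t*c) * nu s x := mul_le_mul_of_nonneg_right h3 hν.le
  rw [hmax] at h2
  have h5 : t * δ = t * c * nu s x / 2 := by rw [hδ]; ring
  have h6 : 0 < t * c * nu s x := by positivity
  nlinarith

/-- below a point there are only finitely many elements of the support -/
lemma fin_below [WellFoundedLT Γ] (hs : ∀ a b, a < b → ∃ K, s b K = a) {A : Set Γ}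
    (hA : ∀ F : Finset Γ, (∀ g ∈ F, g ∈ A) → Ad s F) {b : Γ} (hb : b ∈ A) : {a | a ∈ A ∧ a < b}.Finite := by
  classical
  rcases Set.eq_empty_or_nonempty {a | a ∈ A ∧ a < b} with h | h
  · rw [h]; exact Set.finite_empty
  · set a0 := WellFounded.min (wellFounded_lt) {a | a ∈ A ∧ a < b} h with ha0
    have hmem : a0 ∈ {a | a ∈ A ∧ a < b} := WellFounded.min_mem _ _ h
    have hmin : ∀ a, a ∈ A → a < b → a0 ≤ a := by
      intro a h1 h2
      have h3 : a ∈ {a | a ∈ A ∧ a < b} := ⟨h1, h2⟩
      exact not_lt.1 (WellFounded.not_lt_min wellFounded_lt _ h3)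
    obtain ⟨K, hK⟩ := hs a0 b hmem.2
    by_contra hinf
    obtain ⟨F, hF, hcard⟩ := (show {a | a ∈ A ∧ a < b}.Infinite from hinf).exists_subset_card_eq (K+2)
    have h1 := hA (insert a0 (insert b F)) (by
      intro g hg
      rw [Finset.mem_insert, Finset.mem_insert] at hg
      rcases hg with rfl | rfl | hg
      · exact hmem.1
      · exact hb
      · exact (hF hg).1) a0 (Finset.mem_insert_self _ _) b (Finset.mem_insert_of_mem (Finset.mem_insert_self _ _)) hmem.2 K hK
    have h2 : F.card ≤ ((insert a0 (insert b F)).filter (fun x => a0 ≤ x ∧ x < b)).card := by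
      apply Finset.card_le_card
      intro g hg
      rw [Finset.mem_filter]
      refine ⟨Finset.mem_insert_of_mem (Finset.mem_insert_of_mem hg), hmin g (hF hg).1 (hF hg).2, (hF hg).2⟩
    omega

/-- maximizers vanish off the support -/
theorem zero_off [Infinite Γ] [WellFoundedLT Γ] (hs : ∀ a b, a < b → ∃ K, s b K = a) (hf : f ∈ BB s) (hx : Tm s x)
    (hν : 0 < nu s x) (hmax : pr f x = nu s x) {c : Γ} (hc : x c = 0) : f c = 0 := by
  classical
  by_contra hne
  have hfA := hf.1
  have hv : 0 < f c := lt_of_le_of_ne (hfA.nn c) (Ne.symm hne)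
  set v := f c with hvd
  set f' : Γ → ℝ := fun g => if g = c then 0 else f g with hf'
  have hle : ∀ g, f' g ≤ f g := by
    intro g; simp only [hf']; split_ifs with h
    · rw [h]; exact hv.le
    · exact le_rfl
  have h0 : ∀ g, 0 ≤ f' g := by
    intro g; simp only [hf']; split_ifs; exact le_rfl; exact hfA.nn g
  have hc' : f' c = 0 := by simp [hf']
  have hne' : ∀ g, g ≠ c → f' g = f g := fun g hg => by simp [hf', hg]
  have hfA' : Adm s f' 1 :=
    ⟨h0, fun g => le_trans (hle g) (hfA.bd g), fun F hF => hfA.su F (fun g hg => lt_of_lt_of_le (hF g hg) (hle g))⟩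
  have hpr : pr f' x = nu s x := by
    rw [← hmax]; unfold pr; congr 1; funext g
    by_cases hg : g = c
    · rw [hg, hc]; simp
    · rw [hne' g hg]
  have hP1 : 1 ≤ Phi s f' := by
    have h1 := pr_le_Phi hfA' zero_le_one hx
    rw [hpr] at h1
    by_contra hlt
    push Not at hlt
    have := mul_lt_mul_of_pos_right hlt hν
    linarith
  have hP2 : Phi s f' ≤ 1 := le_trans (Phi_mono hfA.nn hfA.bd h0 hle) hf.2
  have hth : ∀ m k, theta s m k f ≤ theta s m k f' := by
    intro m k
    by_contra hlt
    push Not at hlt
    have h1 := Phi_drop (s := s) hfA.nn hfA.bd h0 hle (m,k) (c := theta s m k f - theta s m k f') (by simp)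
    have h2 := mul_pos (w_pos (m,k)) (sub_pos.2 hlt)
    have := hf.2
    linarith
  by_cases hcase : ∃ ε > 0, {g | v - ε < f g}.Finite
  · -- case (i)
    obtain ⟨ε, hε, hfin⟩ := hcase
    obtain ⟨δ, hδ, hδv, hgap⟩ : ∃ δ > 0, δ ≤ v ∧ ∀ g, f g < v → f g ≤ v - δ := by
      set P := hfin.toFinset.filter (fun g => f g < v) with hP
      rcases P.eq_empty_or_nonempty with h | h
      · refine ⟨min ε v, by positivity, min_le_right _ _, fun g hg => ?_⟩
        by_contra hcon
        push Not at hcon
        have : g ∈ P := by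
          rw [hP, Finset.mem_filter, Set.Finite.mem_toFinset]
          refine ⟨?_, hg⟩
          simp only [Set.mem_setOf_eq]
          have := min_le_left ε v
          linarith
        rw [h] at this; simp at this
      · obtain ⟨g0, hg0, hm⟩ := P.exists_max_image f h
        rw [hP, Finset.mem_filter] at hg0
        refine ⟨min (min ε v) (v - f g0), by
          apply lt_min (lt_min hε hv); linarith [hg0.2], le_trans (min_le_left _ _) (min_le_right _ _), fun g hg => ?_⟩
        by_cases hgs : v - ε < f g
        · have := hm g (by rw [hP, Finset.mem_filter, Set.Finite.mem_toFinset]; exact ⟨hgs, hg⟩)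
          have := min_le_right (min ε v) (v - f g0)
          linarith
        · push Not at hgs
          have : min (min ε v) (v - f g0) ≤ ε := le_trans (min_le_left _ _) (min_le_left _ _)
          linarith
    set S := hfin.toFinset.filter (fun g => v ≤ f g) with hS
    have hSmem : ∀ g, g ∈ S ↔ v ≤ f g := by
      intro g
      rw [hS, Finset.mem_filter, Set.Finite.mem_toFinset]
      simp only [Set.mem_setOf_eq]
      constructor
      · exact fun h => h.2
      · intro h; exact ⟨by linarith, h⟩
    have hcS : c ∈ S := (hSmem c).2 le_rfl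
    obtain ⟨m, hm⟩ : ∃ m, S.card = m + 1 := ⟨S.card - 1, by
      have : 0 < S.card := Finset.card_pos.2 ⟨c, hcS⟩
      omega⟩
    -- k large
    obtain ⟨k, hk⟩ := exists_nat_one_div_lt (show 0 < δ/((m:ℝ)+1) by positivity)
    have hup : theta s m k f' ≤ ∑ g ∈ S, f g - δ + (m+1) * (1/((k:ℝ)+1)) := by
      apply theta_le
      intro D hD
      have hpsi : val s D k f' ≤ ∑ g ∈ D, f' g + (m+1) * (1/((k:ℝ)+1)) := by
        unfold val
        rw [Finset.sum_add_distrib]
        have : ∑ b ∈ D, psi s f' b / (k+1) ≤ D.card • (1/((k:ℝ)+1)) := by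
          apply Finset.sum_le_card_nsmul
          intro b _
          exact div_le_div_of_nonneg_right (psi_le h0 hfA'.bd b) (by positivity)
        rw [hD, nsmul_eq_mul] at this
        push_cast at this
        linarith
      set S1 := S.erase c with hS1
      have hSc : S1.card + 1 = S.card := Finset.card_erase_add_one hcS
      -- split
      have d1 : ∑ g ∈ D, f' g = ∑ g ∈ D ∩ S1, f' g + ∑ g ∈ D \ S1, f' g := (Finset.sum_inter_add_sum_sdiff D S1 _).symm
      have d2 : ∑ g ∈ D \ S1, f' g ≤ (D \ S1).card • (v - δ) := by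
        apply Finset.sum_le_card_nsmul
        intro g hg
        rw [Finset.mem_sdiff, hS1, Finset.mem_erase, not_and] at hg
        by_cases hgc : g = c
        · rw [hgc, hc']; linarith
        · rw [hne' g hgc]
          apply hgap
          by_contra hcon
          push Not at hcon
          exact hg.2 hgc ((hSmem g).2 hcon)
      have d3 : ∑ g ∈ D ∩ S1, f' g ≤ ∑ g ∈ D ∩ S1, f g := Finset.sum_le_sum (fun g _ => hle g)
      have hsub : D ∩ S1 ⊆ S := fun g hg => Finset.mem_of_mem_erase (Finset.mem_inter.1 hg).2
      have d4 : ∑ g ∈ S, f g = ∑ g ∈ S \ (D ∩ S1), f g + ∑ g ∈ D ∩ S1, f g := (Finset.sum_sdiff hsub).symm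
      have d5 : (S \ (D ∩ S1)).card • v ≤ ∑ g ∈ S \ (D ∩ S1), f g := by
        apply Finset.card_nsmul_le_sum
        intro g hg
        exact (hSmem g).1 (Finset.mem_sdiff.1 hg).1
      have c1 : (D \ S1).card + (D ∩ S1).card = m+1 := by
        rw [← hD]; exact Finset.card_sdiff_add_card_inter D S1
      have c2 : (S \ (D ∩ S1)).card + (D ∩ S1).card = m+1 := by
        rw [← hm]; exact Finset.card_sdiff_add_card_eq_card hsub
      have c3 : (D ∩ S1).card ≤ m := by
        have : (D ∩ S1).card ≤ S1.card := Finset.card_le_card Finset.inter_subset_right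
        omega
      have c4 : (D \ S1).card = (S \ (D ∩ S1)).card := by omega
      have c5 : 1 ≤ (D \ S1).card := by omega
      rw [c4, nsmul_eq_mul] at d2
      rw [nsmul_eq_mul] at d5
      rw [c4] at c5
      have c6 : (1:ℝ) ≤ ((S \ (D ∩ S1)).card : ℝ) := by exact_mod_cast c5
      nlinarith
    have hlow : ∑ g ∈ S, f g ≤ theta s m k f := by
      refine le_trans ?_ (le_theta (s := s) hfA.nn hfA.bd (k := k) hm)
      unfold val
      apply Finset.sum_le_sum
      intro b _
      have : 0 ≤ psi s f b / (k+1) := div_nonneg (psi_nonneg hfA.nn b) (by positivity)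
      linarith
    have h3 := hth m k
    rw [lt_div_iff₀ (by positivity)] at hk
    nlinarith
  · -- case (ii)
    push Not at hcase
    have hinf : ∀ ε > 0, {g | v - ε < f' g}.Infinite := by
      intro ε hε hfin
      apply hcase ε hε
      apply (hfin.union (Set.finite_singleton c)).subset
      intro g hg
      by_cases hgc : g = c
      · right; exact hgc
      · left
        simp only [Set.mem_setOf_eq] at hg ⊢
        rw [hne' g hgc]; exact hg
    set A : Set Γ := {g | 0 < f g} with hA
    have hfb : {a | a ∈ A ∧ a < c}.Finite := fin_below hs (fun F hF => hfA.su F hF) (show c ∈ A from hv)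
    set T := insert c hfb.toFinset with hT
    obtain ⟨k, hk⟩ := exists_nat_one_div_lt (show 0 < v/8 by positivity)
    obtain ⟨D, hD, hval, hlow⟩ := attain hfA' hP2 hx hν hpr hv hinf T.card k hk.le
    -- D contains an element above c
    obtain ⟨b, hbD, hbc⟩ : ∃ b ∈ D, c < b := by
      by_contra hcon
      push Not at hcon
      have : D ⊆ T := by
        intro g hg
        rw [hT, Finset.mem_insert, Set.Finite.mem_toFinset]
        rcases eq_or_lt_of_le (hcon g hg) with h | h
        · left; exact h
        · right
          refine ⟨?_, h⟩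
          have h1 := hlow g hg
          have h2 := hle g
          show 0 < f g
          linarith
      have := Finset.card_le_card this
      omega
    obtain ⟨K, hK⟩ := hs c b hbc
    have hlt : val s D k f' < val s D k f := by
      unfold val
      apply Finset.sum_lt_sum
      · intro g _
        have h5 : psi s f' g / (k+1) ≤ psi s f g / (k+1) :=
            div_le_div_of_nonneg_right (psi_mono hfA.nn hfA.bd h0 hle g) (by positivity)
        have := hle g
        linarith
      · refine ⟨b, hbD, ?_⟩
        have h5 : psi s f' b / (k+1) < psi s f b / (k+1) := by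
          apply div_lt_div_of_pos_right _ (by positivity)
          apply psi_lt hfA.nn hfA.bd h0 hle hK
          rw [hc']; exact hv
        have := hle b
        linarith
    have h1 := le_theta (s := s) hfA.nn hfA.bd (k := k) hD
    have h2 := hth T.card k
    rw [hval] at hlt
    linarith

end Att

end TR
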