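import Pool.Agent.Helper937.Tro3

set_option linter.unusedSectionVars false
set_option linter.unusedVariables false
set_option autoImplicit false

open Topology Filter

namespace TR

section Comp
variable {Γ : Type*} [LinearOrder Γ]
variable {s : Γ → ℕ → Γ} {f g x y : Γ → ℝ} {M : ℝ}

/-- the cube -/
def cube (Γ : Type*) : Set (Γ → ℝ) := Set.pi Set.univ (fun _ => Set.Icc (0:ℝ) 1)

lemma cube_compact (Γ : Type*) : IsCompact (cube Γ) := isCompact_univ_pi (fun _ => isCompact_Icc)

lemma mem_cube {f : Γ → ℝ} : f ∈ cube Γ ↔ ∀ g, 0 ≤ f g ∧ f g ≤ 1 := by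
  simp only [cube, Set.mem_pi, Set.mem_univ, Set.mem_Icc, true_imp_iff]

lemma BB_sub : BB s ⊆ cube Γ := fun f hf => mem_cube.2 (fun g => ⟨hf.1.nn g, hf.1.bd g⟩)

lemma psi_cont (b : Γ) : ContinuousOn (fun f : Γ → ℝ => psi s f b) (cube Γ) := by
  unfold psi
  apply continuousOn_tsum (u := fun K : ℕ => (1/2:ℝ)^(K+1))
  · intro K
    exact (continuous_const.mul (continuous_apply _)).continuousOn
  · exact half_sum
  · intro K f hf
    obtain ⟨h0, h1⟩ := mem_cube.1 hf (s b K)
    rw [Real.norm_eq_abs, abs_of_nonneg (by positivity)]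
    nlinarith [show (0:ℝ) < (1/2:ℝ)^(K+1) by positivity]

lemma val_cont (D : Finset Γ) (k : ℕ) : ContinuousOn (fun f : Γ → ℝ => val s D k f) (cube Γ) := by
  unfold val
  apply continuousOn_finsetSum
  intro b _
  exact (continuous_apply b).continuousOn.add ((psi_cont b).div_const _)

lemma theta_lsc [Infinite Γ] (m k : ℕ) (c : ℝ) (hc : 0 < c) :
    LowerSemicontinuousOn (fun f : Γ → ℝ => c * theta s m k f) (cube Γ) := by
  intro f hf y hy
  have h1 : y / c < theta s m k f := by rwa [div_lt_iff₀' hc]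
  obtain ⟨v, ⟨D, hD, rfl⟩, hv⟩ := exists_lt_of_lt_csSup (theta_ne s f m k) h1
  have h2 := (val_cont (s := s) D k f hf).eventually (lt_mem_nhds hv)
  filter_upwards [h2, self_mem_nhdsWithin] with f' h3 h4
  have h5 := le_theta (s := s) (M := 1) (fun g => (mem_cube.1 h4 g).1) (fun g => (mem_cube.1 h4 g).2) (k := k) hD
  have h6 : y / c < theta s m k f' := lt_of_lt_of_le h3 h5
  rwa [div_lt_iff₀' hc] at h6

lemma BB_closed [Infinite Γ] : IsClosed (BB s) := by
  apply isClosed_of_closure_subset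
  intro f hf
  have hcube : f ∈ cube Γ := by
    have := closure_mono BB_sub hf
    rwa [(cube_compact Γ).isClosed.closure_eq] at this
  have hf0 : ∀ g, 0 ≤ f g := fun g => (mem_cube.1 hcube g).1
  have hf1 : ∀ g, f g ≤ 1 := fun g => (mem_cube.1 hcube g).2
  refine ⟨⟨hf0, hf1, ?_⟩, ?_⟩
  · intro F hF
    have hopen : IsOpen {f' : Γ → ℝ | ∀ g ∈ F, 0 < f' g} := by
      have : {f' : Γ → ℝ | ∀ g ∈ F, 0 < f' g} = ⋂ g ∈ F, {f' : Γ → ℝ | 0 < f' g} := by
        ext f'; simp
      rw [this]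
      exact isOpen_biInter_finset (fun g _ => isOpen_lt continuous_const (continuous_apply g))
    obtain ⟨f', h1, h2⟩ := mem_closure_iff.1 hf _ hopen hF
    exact h2.1.su F h1
  · by_contra hlt
    push Not at hlt
    obtain ⟨J, hJ⟩ : ∃ J : Finset (ℕ × ℕ), 1 < ∑ j ∈ J, w j * theta s j.1 j.2 f := by
      by_contra hcon
      push Not at hcon
      have := (Phi_summable (s := s) hf0 hf1).tsum_le_of_sum_le hcon
      exact absurd this (not_le.2 hlt)
    have hl : LowerSemicontinuousOn (fun f : Γ → ℝ => ∑ j ∈ J, w j * theta s j.1 j.2 f) (cube Γ) :=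
      lowerSemicontinuousOn_sum (fun j _ => theta_lsc j.1 j.2 (w j) (w_pos j))
    have hev := hl f hcube 1 hJ
    have hfq : ∃ᶠ f' in 𝓝 f, f' ∈ BB s := mem_closure_iff_frequently.1 hf
    have hev2 : ∀ᶠ f' in 𝓝 f, f' ∈ cube Γ → 1 < ∑ j ∈ J, w j * theta s j.1 j.2 f' :=
      eventually_nhdsWithin_iff.1 hev
    obtain ⟨f', h1, h2⟩ := (hfq.and_eventually hev2).exists
    have h3 := h2 (BB_sub h1)
    have h4 := (Phi_summable (s := s) h1.1.nn h1.1.bd).sum_le_tsum J (fun j _ => term_nonneg h1.1.nn h1.1.bd j)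
    have h5 := h1.2
    unfold Phi at h5
    linarith

lemma BB_compact [Infinite Γ] : IsCompact (BB s) := (cube_compact Γ).of_isClosed_subset BB_closed BB_sub

/-- tail estimate -/
lemma pr_tail (hf : Adm s f 1) (hx : Tm s x) {F0 : Finset Γ} {δ : ℝ}
    (h : ∀ F : Finset Γ, Ad s F → Disjoint F F0 → ∑ g ∈ F, |x g| ≤ δ) :
    |pr f x - ∑ g ∈ F0, (f g * |x g|)| ≤ δ := by
  classical
  have hsm := pr_summable hf zero_le_one hx
  have h1 : ∑ g ∈ F0, f g * |x g| ≤ pr f x := hsm.sum_le_tsum F0 (fun g _ => mul_nonneg (hf.nn g) (abs_nonneg _))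
  have h2 : pr f x ≤ ∑ g ∈ F0, f g * |x g| + δ := by
    apply hsm.tsum_le_of_sum_le
    intro F
    rw [← Finset.sum_inter_add_sum_sdiff F F0 (fun g => f g * |x g|)]
    have a1 : ∑ g ∈ F ∩ F0, f g * |x g| ≤ ∑ g ∈ F0, f g * |x g| :=
      Finset.sum_le_sum_of_subset_of_nonneg Finset.inter_subset_right (fun g _ _ => mul_nonneg (hf.nn g) (abs_nonneg _))
    have a2 := fin_pr_le hf zero_le_one h (F \ F0) Finset.sdiff_disjoint
    linarith
  rw [abs_le]; constructor <;> linarith

lemma pr_cont (hx : Tm s x) : ContinuousOn (fun f : Γ → ℝ => pr f x) (BB s) := by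
  apply continuousOn_of_uniform_approx_of_continuousOn
  intro u hu
  obtain ⟨ε, hε, hu⟩ := Metric.mem_uniformity_dist.1 hu
  obtain ⟨F0, hF0⟩ := hx (ε/2) (by positivity)
  refine ⟨fun f => ∑ g ∈ F0, f g * |x g|, ?_, ?_⟩
  · apply Continuous.continuousOn
    apply continuous_finsetSum
    intro g _
    exact (continuous_apply g).mul continuous_const
  · intro f hf
    apply hu
    rw [Real.dist_eq]
    have := pr_tail hf.1 hx hF0
    linarith

/-- maximizers exist -/
lemma exists_max_on {K : Set (Γ → ℝ)} (hK : IsCompact K) (hKB : K ⊆ BB s) (hne : K.Nonempty) (hx : Tm s x) :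
    ∃ f ∈ K, ∀ f' ∈ K, pr f' x ≤ pr f x :=
  hK.exists_isMaxOn hne ((pr_cont hx).mono hKB)

/-- unit vectors -/
noncomputable def sg (c : Γ) : Γ → ℝ := fun g => if g = c then 1 else 0

lemma sg_self (c : Γ) : sg c c = 1 := by simp [sg]

lemma sg_ne {c g : Γ} (h : g ≠ c) : sg c g = 0 := by simp [sg, h]

lemma Tm_sg (c : Γ) : Tm s (sg c) := Tm.fin {c} (fun g hg => sg_ne (by simpa using hg))

lemma pr_add_sg (hf : Adm s f 1) (hx : Tm s x) {c : Γ} (hc : x c = 0) (t : ℝ) :
    pr f (fun g => x g + t * sg c g) = pr f x + |t| * f c := by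
  unfold pr
  have h1 : (fun g => f g * |x g + t * sg c g|) = fun g => f g * |x g| + (if g = c then |t| * f c else 0) := by
    funext g
    by_cases h : g = c
    · subst h; rw [hc, sg_self, if_pos rfl]; simp [mul_comm]
    · rw [sg_ne h, if_neg h]; simp
  rw [h1, (pr_summable hf zero_le_one hx).tsum_add (by
    apply summable_of_ne_finset_zero (s := {c})
    intro b hb
    rw [if_neg (by simpa using hb)]), tsum_ite_eq]

/-- smoothness in directions off the support -/
theorem smooth_off [Infinite Γ] [WellFoundedLT Γ] (hs : ∀ a b, a < b → ∃ K, s b K = a) (hx : Tm s x)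
    (hν : 0 < nu s x) {c : Γ} (hc : x c = 0) {ε : ℝ} (hε : 0 < ε) :
    ∃ δ > 0, ∀ t : ℝ, |t| ≤ δ → nu s (fun g => x g + t * sg c g) ≤ nu s x + ε * |t| := by
  set K : Set (Γ → ℝ) := BB s ∩ {f | ε ≤ f c} with hK
  have hKc : IsCompact K := BB_compact.inter_right (isClosed_le continuous_const (continuous_apply c))
  have hKB : K ⊆ BB s := Set.inter_subset_left
  have main : ∃ δ > 0, ∀ f ∈ K, pr f x ≤ nu s x - δ := by
    rcases Set.eq_empty_or_nonempty K with h | h
    · exact ⟨1, one_pos, fun f hf => by rw [h] at hf; exact absurd hf (Set.notMem_empty f)⟩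
    · obtain ⟨f0, hf0, hm⟩ := exists_max_on hKc hKB h hx
      have h1 := le_nu hx hf0.1
      have h2 : pr f0 x ≠ nu s x := by
        intro h3
        have h4 := zero_off hs hf0.1 hx hν h3 hc
        have h5 : ε ≤ f0 c := hf0.2
        linarith
      refine ⟨nu s x - pr f0 x, sub_pos.2 (lt_of_le_of_ne h1 h2), fun f hf => ?_⟩
      have := hm f hf
      linarith
  obtain ⟨δ, hδ, hm⟩ := main
  refine ⟨δ, hδ, fun t ht => ?_⟩
  apply nu_le
  intro f hf
  rw [pr_add_sg hf.1 hx hc]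
  by_cases hfc : ε ≤ f c
  · have h1 := hm f ⟨hf, hfc⟩
    have h2 : |t| * f c ≤ |t| * 1 := mul_le_mul_of_nonneg_left (hf.1.bd c) (abs_nonneg _)
    have h3 : 0 ≤ ε * |t| := by positivity
    linarith
  · push Not at hfc
    have h1 := le_nu hx hf
    have h2 : |t| * f c ≤ |t| * ε := mul_le_mul_of_nonneg_left hfc.le (abs_nonneg _)
    linarith

end Comp

end TR
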