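import Pool.Agent.Helper937.Tro4
import Pool.Agent.Helper937.Gen3

set_option linter.unusedSectionVars false
set_option linter.unusedVariables false
set_option autoImplicit false

namespace TR

section RWI
variable {Γ : Type*} [LinearOrder Γ]
variable {s : Γ → ℕ → Γ} {f g x y : Γ → ℝ} {M : ℝ}

lemma sg_eq (c : Γ) : GN.sg c = sg c := rfl

/-- the random weights structure -/
noncomputable def rw_ [Infinite Γ] [WellFoundedLT Γ] (s : Γ → ℕ → Γ) (hs : ∀ a b, a < b → ∃ K, s b K = a) : GN.RW Γ where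
  T := Tm s
  ν := nu s
  sgT := fun c => Tm_sg c
  add := fun x y hx hy => hx.add hy
  mul := fun x y C hx hC h => hx.of_le hC h
  ν_add := fun x y hx hy => nu_add_le hx hy
  ν_smul := fun x c hx => nu_smul hx c
  ν_mono := fun x y hx hy h => nu_mono hx hy h
  ν_sg := fun c => by
    refine le_trans (nu_le_nrm (Tm_sg c)) (nrm_le (fun F hF => ?_))
    rw [sg_eq]
    have : ∀ g ∈ F, |sg c g| = if g = c then 1 else 0 := by
      intro g _
      by_cases h : g = c
      · subst h; simp [sg_self]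
      · simp [sg_ne h, h]
    rw [Finset.sum_congr rfl this, Finset.sum_ite_eq']
    split_ifs <;> norm_num
  tail := fun x hx ε hε => by
    obtain ⟨F0, hF0⟩ := hx ε hε
    refine ⟨F0, fun y hy hy0 => ?_⟩
    have hyT : Tm s y := hx.of_le (C := 1) zero_le_one (fun g => by rw [one_mul]; exact hy g)
    refine le_trans (nu_le_nrm hyT) (nrm_le (fun F hF => ?_))
    have h1 : ∑ g ∈ F, |y g| = ∑ g ∈ F \ F0, |y g| := by
      rw [← Finset.sum_inter_add_sum_sdiff F F0 (fun g => |y g|), Finset.sum_eq_zero (s := F ∩ F0), zero_add]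
      intro g hg
      rw [hy0 g (Finset.mem_inter.1 hg).2, abs_zero]
    rw [h1]
    exact le_trans (Finset.sum_le_sum (fun g _ => hy g)) (hF0 (F \ F0) (hF.mono Finset.sdiff_subset) Finset.sdiff_disjoint)
  off := fun x hx hν c hc ε hε => smooth_off hs hx hν hc hε

lemma nu_sg_pos [Infinite Γ] (c : Γ) : 0 < nu s (sg c) := by
  have h1 := nrm_le_nu (s := s) (Tm_sg (s := s) c)
  have h2 := abs_le_nrm (s := s) (Tm_sg (s := s) c) c
  rw [sg_self, abs_one] at h2
  linarith

/-- the Gateaux differentiable norm -/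
theorem exists_gateaux [Infinite Γ] [WellFoundedLT Γ] (s : Γ → ℕ → Γ) (hs : ∀ a b, a < b → ∃ K, s b K = a)
    {X : Type*} [NormedAddCommGroup X] [NormedSpace ℝ X] (f : Γ → X →L[ℝ] ℝ)
    (h1 : ∀ x : X, ∀ F : Finset Γ, Ad s F → ∑ g ∈ F, |f g x| ≤ ‖x‖)
    (h2 : ∀ (x : X) (B : ℝ), (∀ F : Finset Γ, Ad s F → ∑ g ∈ F, |f g x| ≤ B) → ‖x‖ ≤ B)
    (h3 : ∀ x : X, ∀ ε > 0, ∃ F0 : Finset Γ, ∀ F : Finset Γ, Ad s F → Disjoint F F0 → ∑ g ∈ F, |f g x| ≤ ε) :
    ∃ N : X → ℝ, GN.IsEquivNorm N ∧ ∀ x : X, x ≠ 0 → GN.GateauxDiffAt N x := by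
  have hSQ : GN.SQ (fun x : X => (rw_ s hs).GG (fun g => f g x)) := by
    apply GN.RW.sq_of (R := rw_ s hs) (fun c => nu_sg_pos c) (fun (x : X) g => f g x)
    · intro x y; funext g; simp
    · intro c x; funext g; simp
    · intro x; exact h3 x
    · refine ⟨1/8, 1, by norm_num, one_pos, fun x => ?_⟩
      have hT : Tm s (fun g => f g x) := h3 x
      constructor
      · have a1 : ‖x‖ ≤ nrm s (fun g => f g x) := h2 x _ (fun F hF => le_nrm hT hF)
        have a2 := nrm_le_nu hT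
        show 1/8 * ‖x‖ ≤ nu s (fun g => f g x)
        linarith
      · have a1 : nrm s (fun g => f g x) ≤ ‖x‖ := nrm_le (fun F hF => h1 x F hF)
        have a2 := nu_le_nrm hT
        show nu s (fun g => f g x) ≤ 1 * ‖x‖
        linarith
  exact ⟨_, hSQ.isEquivNorm, fun x hx => hSQ.gateaux_sqrt hx⟩

end RWI

end TR
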